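import Pool.Agent.Lib.SL.SpecE

/-! Module Ewa of project SL (MP_00e23e_nt): sums of the weights over multiples of e. -/

namespace Pool.Agent.Lib.SL

open Finset Pool.Agent.Lib.EH3 Pool.Agent.Lib.TB Pool.Agent.Results.MP_00e23e_nt Pool.Agent.Lib.MI

private lemma Ewa_pt (N K e a : ℕ) (he : 1 ≤ e) (ha : 1 ≤ a) :
    wE N K ((e : ℤ) * a) = min ((N : ℝ) / K) (1 / (2 * ((e : ℝ) * a))) := by
  have h0 : ((e : ℤ) * a) ≠ 0 := by positivity
  have h1 : |(((e : ℤ) * a : ℤ) : ℝ)| = (e : ℝ) * a := by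
    push_cast
    exact abs_of_nonneg (by positivity)
  unfold wE
  rw [if_neg h0, h1]

private lemma Ewa_harm (f : ℕ) : ∑ a ∈ Icc 1 f, (1 : ℝ) / (a : ℝ) ≤ 1 + Real.log f := by
  have h := harmonic_le_one_add_log f
  rw [harmonic_eq_sum_Icc] at h
  push_cast at h
  simpa [one_div] using h

private lemma Ewa_sum (e f : ℕ) (he : 1 ≤ e) :
    ∑ a ∈ Icc 1 f, 1 / (2 * ((e : ℝ) * (a : ℝ))) ≤ (1 + Real.log f) / (2 * (e : ℝ)) := by
  have he' : (0 : ℝ) < 2 * (e : ℝ) := by positivity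
  calc ∑ a ∈ Icc 1 f, 1 / (2 * ((e : ℝ) * (a : ℝ)))
      = ∑ a ∈ Icc 1 f, (1 / (2 * (e : ℝ))) * (1 / (a : ℝ)) := by
        refine Finset.sum_congr rfl fun a _ => ?_
        rw [← mul_assoc, one_div_mul_one_div]
    _ = (1 / (2 * (e : ℝ))) * ∑ a ∈ Icc 1 f, 1 / (a : ℝ) := by rw [Finset.mul_sum]
    _ ≤ (1 / (2 * (e : ℝ))) * (1 + Real.log f) :=
        mul_le_mul_of_nonneg_left (Ewa_harm f) (by positivity)
    _ = (1 + Real.log f) / (2 * (e : ℝ)) := by rw [one_div_mul_eq_div]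

theorem tEwa : EwaStmt := by
  intro N K e f _ he _
  have hN : (0 : ℝ) ≤ (N : ℝ) / K := by positivity
  constructor
  · refine le_trans (Finset.sum_le_sum fun a ha => ?_) (Ewa_sum e f he)
    rw [Ewa_pt N K e a he (Finset.mem_Icc.mp ha).1]
    exact min_le_right _ _
  · refine le_trans (Finset.sum_le_sum (g := fun a : ℕ => (N : ℝ) / K * (1 / (2 * ((e : ℝ) * (a : ℝ))))) fun a ha => ?_) ?_
    · rw [Ewa_pt N K e a he (Finset.mem_Icc.mp ha).1, sq]
      have h2 : (0 : ℝ) ≤ 1 / (2 * ((e : ℝ) * (a : ℝ))) := by positivity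
      exact mul_le_mul (min_le_left _ _) (min_le_right _ _) (le_min hN h2) hN
    · rw [← Finset.mul_sum]
      exact mul_le_mul_of_nonneg_left (Ewa_sum e f he) hN

end Pool.Agent.Lib.SL
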