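import Pool.Agent.Lib.SL.SpecE

/-!
MP_00e23e_nt, project SL, module Ecr (helper33): the Chinese remainder theorem for sums.
-/

set_option autoImplicit false

namespace Pool.Agent.Lib.SL

open Finset Pool.Agent.Lib.EH3 Pool.Agent.Lib.TB Pool.Agent.Results.MP_00e23e_nt Pool.Agent.Lib.MI

private lemma Ecr_per (a : ℕ) (U : ℕ → ℂ) (hU : ∀ n, U (n + a) = U n) (n : ℕ) : U (n % a) = U n := by
  have h : ∀ k r : ℕ, U (r + a * k) = U r := by
    intro k
    induction k with
    | zero => intro r; rw [mul_zero, add_zero]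
    | succ k ih => intro r; rw [Nat.mul_succ, ← add_assoc, hU, ih]
  have h1 := h (n / a) (n % a)
  rw [Nat.mod_add_div] at h1
  exact h1.symm

theorem tEcr : EcrStmt := by
  intro a b U V ha hb hc hU hV
  rw [Finset.sum_mul_sum, ← Finset.sum_product']
  refine Finset.sum_bij (fun n _ => (n % a, n % b)) ?_ ?_ ?_ ?_
  · intro n _
    rw [Finset.mem_product, Finset.mem_range, Finset.mem_range]
    exact ⟨Nat.mod_lt _ (by omega), Nat.mod_lt _ (by omega)⟩
  · intro m hm n hn h
    rw [Finset.mem_range] at hm hn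
    have h1 : m ≡ n [MOD a] := congrArg Prod.fst h
    have h2 : m ≡ n [MOD b] := congrArg Prod.snd h
    have h3 : m ≡ n [MOD a * b] := (Nat.modEq_and_modEq_iff_modEq_mul hc).1 ⟨h1, h2⟩
    exact Nat.ModEq.eq_of_lt_of_lt h3 hm hn
  · rintro ⟨x, y⟩ hxy
    rw [Finset.mem_product, Finset.mem_range, Finset.mem_range] at hxy
    obtain ⟨hx, hy⟩ := hxy
    have hx : x < a := hx
    have hy : y < b := hy
    refine ⟨Nat.chineseRemainder hc x y, ?_, ?_⟩
    · rw [Finset.mem_range]
      exact Nat.chineseRemainder_lt_mul hc x y (by omega) (by omega)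
    · have h1 : (Nat.chineseRemainder hc x y : ℕ) % a = x % a := (Nat.chineseRemainder hc x y).2.1
      have h2 : (Nat.chineseRemainder hc x y : ℕ) % b = y % b := (Nat.chineseRemainder hc x y).2.2
      rw [Nat.mod_eq_of_lt hx] at h1
      rw [Nat.mod_eq_of_lt hy] at h2
      exact Prod.ext h1 h2
  · intro n _
    rw [Ecr_per a U hU n, Ecr_per b V hV n]

end Pool.Agent.Lib.SL
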