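import Pool.Agent.Lib.SL.SpecE
import Pool.Agent.Lib.EH3.LS2

/-!
MP_00e23e_nt, directory Lib/SL, module Ecm: completing one variable with the weights wE.
-/

namespace Pool.Agent.Lib.SL

open Finset Pool.Agent.Lib.EH3 Pool.Agent.Lib.TB Pool.Agent.Results.MP_00e23e_nt Pool.Agent.Lib.MI

private lemma Ecm_per {f : ℕ → ℂ} {b : ℕ} (hf : ∀ t, f (t + b) = f t) (t : ℕ) :
    f t = f (t % b) := by
  have h : ∀ k s : ℕ, f (s + b * k) = f s := by
    intro k
    induction k with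
    | zero => intro s; simp
    | succ k ih =>
      intro s
      rw [Nat.mul_succ, ← add_assoc, hf, ih]
  conv_lhs => rw [← Nat.mod_add_div t b]
  exact h _ _

private lemma Ecm_inv {f : ℕ → ℂ} {b : ℕ} (hb : 1 ≤ b) (hf : ∀ t, f (t + b) = f t) (t : ℕ) :
    (b : ℂ) * f t = ∑ j ∈ range b, (∑ x ∈ range b, f x * en ((j : ℤ) * x) b) *
      en (-((j : ℤ) * t)) b := by
  have h1 : ∀ j ∈ range b, (∑ x ∈ range b, f x * en ((j : ℤ) * x) b) *
      en (-((j : ℤ) * t)) b =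
      ∑ x ∈ range b, f x * ee ((j : ℝ) * ((((x : ℤ) - t : ℤ) : ℝ) / b)) := by
    intro j _
    rw [sum_mul]
    refine sum_congr rfl fun x _ => ?_
    rw [mul_assoc, ← en_add]
    unfold en
    congr 2
    push_cast
    ring
  rw [sum_congr rfl h1, sum_comm]
  have h2 : ∀ x ∈ range b, ∑ j ∈ range b, f x * ee ((j : ℝ) * ((((x : ℤ) - t : ℤ) : ℝ) / b)) =
      if x = t % b then f x * b else 0 := by
    intro x hx
    rw [← mul_sum, orth (by omega : 0 < b)]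
    have hx' := mem_range.1 hx
    have h3 : ((b : ℤ) ∣ (x : ℤ) - t) ↔ x = t % b := by
      rw [← Nat.modEq_iff_dvd]
      constructor
      · intro h
        have h4 : t % b = x % b := h
        rw [h4, Nat.mod_eq_of_lt hx']
      · intro h
        change t % b = x % b
        rw [h, Nat.mod_mod]
    by_cases h : x = t % b
    · rw [if_pos h, if_pos (h3.2 h)]
    · rw [if_neg h, if_neg (fun h4 => h (h3.1 h4)), mul_zero]
  rw [sum_congr rfl h2, sum_ite_eq' (range b) (t % b) fun x => f x * (b : ℂ),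
    if_pos (mem_range.2 (Nat.mod_lt _ (by omega))), ← Ecm_per hf t, mul_comm]

private lemma Ecm_geo (N : ℕ) {t : ℝ} (ht : |t| ≤ 1 / 2) : ‖GG N t‖ * (2 * |t|) ≤ 1 := by
  have h1 : GG N t = ∑ k ∈ range N, (ee t) ^ k := by
    unfold GG
    exact Finset.sum_congr rfl fun k _ => ee_nat_mul k t
  have h3 : GG N t * (ee t - 1) = ee t ^ N - 1 := by
    rw [h1]; exact geom_sum_mul (ee t) N
  have h4 : ‖GG N t‖ * ‖ee t - 1‖ ≤ 2 := by
    rw [← norm_mul, h3]
    refine (norm_sub_le _ _).trans ?_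
    rw [norm_pow, norm_ee]
    norm_num
  have h5 := norm_ee_sub_one ht
  have h6 := norm_nonneg (GG N t)
  nlinarith [abs_nonneg t]

private lemma Ecm_geon (N : ℕ) (t : ℝ) : ‖GG N t‖ ≤ N := by
  unfold GG
  refine (norm_sum_le _ _).trans ?_
  have h : ∀ k ∈ range N, ‖ee ((k : ℝ) * t)‖ = 1 := fun k _ => norm_ee _
  rw [Finset.sum_congr rfl h]
  simp

private lemma Ecm_sum (i : ℤ) (q N N1 N2 : ℕ) (hq : 1 ≤ q) (hN : N1 ≤ N2)
    (hW : N2 ≤ N1 + N) (hi : 2 * |i| ≤ (q : ℤ)) :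
    ‖∑ n ∈ Ioc N1 N2, en (-(i * (n : ℤ))) q‖ ≤ (q : ℝ) * wE N q i := by
  have hq0 : (0 : ℝ) < q := by exact_mod_cast hq
  have hc : ((N2 - N1 : ℕ) : ℝ) ≤ N := by
    have : N2 - N1 ≤ N := by omega
    exact_mod_cast this
  have hN0 : ‖∑ n ∈ Ioc N1 N2, en (-(i * (n : ℤ))) q‖ ≤ (N : ℝ) := by
    refine (norm_sum_le _ _).trans ?_
    have h : ∀ n ∈ Ioc N1 N2, ‖en (-(i * (n : ℤ))) q‖ = 1 := fun n _ => norm_en _ _
    rw [Finset.sum_congr rfl h, Finset.sum_const, Nat.card_Ioc, nsmul_eq_mul, mul_one]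
    exact hc
  have hNq : (q : ℝ) * ((N : ℝ) / q) = N := by field_simp
  by_cases h0 : i = 0
  · unfold wE
    rw [if_pos h0, hNq]
    exact hN0
  · unfold wE
    rw [if_neg h0, mul_min_of_nonneg _ _ hq0.le, hNq]
    refine le_min hN0 ?_
    have hi0 : (0 : ℝ) < |(i : ℝ)| := by
      rw [abs_pos]
      exact_mod_cast h0
    have h1 : ∑ n ∈ Ioc N1 N2, en (-(i * (n : ℤ))) q =
        ee (-((i : ℝ) * ((N1 : ℝ) + 1)) / q) * GG (N2 - N1) (-(i : ℝ) / q) := by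
      unfold GG
      rw [Finset.mul_sum]
      have e : Ioc N1 N2 = Ico (N1 + 1) (N2 + 1) := by
        ext x
        simp only [mem_Ioc, mem_Ico]
        omega
      rw [e, Finset.sum_Ico_eq_sum_range, show N2 + 1 - (N1 + 1) = N2 - N1 by omega]
      refine Finset.sum_congr rfl fun k _ => ?_
      rw [← ee_add]
      unfold en
      congr 1
      push_cast
      ring
    have h2 : |-(i : ℝ) / q| = |(i : ℝ)| / q := by
      rw [abs_div, abs_neg, abs_of_pos hq0]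
    have hi' : 2 * |(i : ℝ)| ≤ (q : ℝ) := by exact_mod_cast hi
    have h3 : |-(i : ℝ) / q| ≤ 1 / 2 := by
      rw [h2, div_le_div_iff₀ hq0 (by norm_num)]
      linarith
    have h4 := Ecm_geo (N2 - N1) h3
    rw [h2] at h4
    rw [h1, norm_mul, norm_ee, one_mul, mul_one_div, le_div_iff₀ (by positivity)]
    have h5 : ‖GG (N2 - N1) (-(i : ℝ) / q)‖ * (2 * (|(i : ℝ)| / q)) * q ≤ 1 * q :=
      mul_le_mul_of_nonneg_right h4 hq0.le
    calc ‖GG (N2 - N1) (-(i : ℝ) / q)‖ * (2 * |(i : ℝ)|)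
        = ‖GG (N2 - N1) (-(i : ℝ) / q)‖ * (2 * (|(i : ℝ)| / q)) * q := by field_simp
      _ ≤ 1 * q := h5
      _ = q := one_mul _

private lemma Ecm_wnn (N q : ℕ) (j : ℤ) : 0 ≤ wE N q j := by
  unfold wE
  split_ifs
  · positivity
  · exact le_min (by positivity) (by positivity)

/-- the representative of `j` of least absolute value -/
private def Ecm_js (q j : ℕ) : ℤ := if 2 * j ≤ q then (j : ℤ) else (j : ℤ) - q

private lemma Ecm_dvd (q j : ℕ) : (q : ℤ) ∣ (j : ℤ) - Ecm_js q j := by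
  unfold Ecm_js
  split_ifs
  · simp
  · rw [sub_sub_cancel]

private lemma Ecm_abs {q j : ℕ} (hj : j < q) : 2 * |Ecm_js q j| ≤ (q : ℤ) := by
  unfold Ecm_js
  split_ifs with h
  · rw [Nat.abs_cast]
    exact_mod_cast h
  · rw [abs_of_neg (by omega)]
    omega

private lemma Ecm_inj {q : ℕ} : Set.InjOn (Ecm_js q) (range q : Finset ℕ) := by
  intro a ha b hb hab
  have ha' := mem_range.1 (mem_coe.1 ha)
  have hb' := mem_range.1 (mem_coe.1 hb)
  unfold Ecm_js at hab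
  split_ifs at hab <;> omega

theorem tEcm : EcmStmt := by
  intro F q N N1 N2 hq hN hW hF
  have hq0 : (0 : ℝ) < q := by exact_mod_cast hq
  have hcong : ∀ i j : ℤ, (q : ℤ) ∣ i - j → hE F q i = hE F q j := by
    intro i j hij
    unfold hE
    refine Finset.sum_congr rfl fun n _ => ?_
    congr 1
    apply en_congr
    rw [← sub_mul]
    exact dvd_mul_of_dvd_left hij _
  have h1 : (q : ℂ) * ∑ n ∈ Ioc N1 N2, F n = ∑ j ∈ range q,
      hE F q (Ecm_js q j) * ∑ n ∈ Ioc N1 N2, en (-(Ecm_js q j * (n : ℤ))) q := by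
    rw [mul_sum, sum_congr rfl fun n _ => Ecm_inv hq hF n, sum_comm]
    refine sum_congr rfl fun j _ => ?_
    rw [mul_sum]
    refine sum_congr rfl fun n _ => ?_
    rw [← hcong (j : ℤ) (Ecm_js q j) (Ecm_dvd q j)]
    have h2 : en (-((j : ℤ) * (n : ℤ))) q = en (-(Ecm_js q j * (n : ℤ))) q := by
      apply en_congr
      have h3 : -((j : ℤ) * (n : ℤ)) - -(Ecm_js q j * (n : ℤ)) =
          ((j : ℤ) - Ecm_js q j) * (-(n : ℤ)) := by ring
      rw [h3]
      exact dvd_mul_of_dvd_left (Ecm_dvd q j) _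
    rw [h2]
    rfl
  have h2 : (q : ℝ) * ‖∑ n ∈ Ioc N1 N2, F n‖ ≤
      (q : ℝ) * ∑ j ∈ range q, wE N q (Ecm_js q j) * ‖hE F q (Ecm_js q j)‖ := by
    have h3 : (q : ℝ) * ‖∑ n ∈ Ioc N1 N2, F n‖ = ‖(q : ℂ) * ∑ n ∈ Ioc N1 N2, F n‖ := by
      rw [norm_mul, Complex.norm_natCast]
    rw [h3, h1, mul_sum]
    refine (norm_sum_le _ _).trans (sum_le_sum fun j hj => ?_)
    rw [norm_mul]
    have h4 := Ecm_sum (Ecm_js q j) q N N1 N2 hq hN hW (Ecm_abs (mem_range.1 hj))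
    calc ‖hE F q (Ecm_js q j)‖ * ‖∑ n ∈ Ioc N1 N2, en (-(Ecm_js q j * (n : ℤ))) q‖
        ≤ ‖hE F q (Ecm_js q j)‖ * ((q : ℝ) * wE N q (Ecm_js q j)) :=
          mul_le_mul_of_nonneg_left h4 (norm_nonneg _)
      _ = _ := by ring
  have h3 := le_of_mul_le_mul_left h2 hq0
  refine h3.trans ?_
  have hnn : ∀ j : ℤ, 0 ≤ wE N q j * ‖hE F q j‖ := fun j =>
    mul_nonneg (Ecm_wnn N q j) (norm_nonneg _)
  have h4 : ∑ j ∈ range q, wE N q (Ecm_js q j) * ‖hE F q (Ecm_js q j)‖ =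
      ∑ i ∈ (range q).image (Ecm_js q), wE N q i * ‖hE F q i‖ :=
    (sum_image (f := fun i => wE N q i * ‖hE F q i‖) Ecm_inj).symm
  rw [h4]
  refine sum_le_sum_of_subset_of_nonneg ?_ fun i _ _ => hnn i
  intro i hi
  obtain ⟨j, hj, rfl⟩ := mem_image.1 hi
  have h5 := Ecm_abs (mem_range.1 hj)
  have h6 : |Ecm_js q j| ≤ (q : ℤ) := by
    have h8 := abs_nonneg (Ecm_js q j)
    omega
  exact mem_Icc.2 (abs_le.1 h6)

end Pool.Agent.Lib.SL
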