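import Pool.Agent.Lib.SL.SpecD
import Pool.Agent.Lib.MI.SpecT1
import Pool.Agent.Lib.TN.Stmts

/-!
MP_00e23e_nt, project SL (single lock; architect helper34), chapter E (helper54): completion in two variables. Final
statements EsStmt (abstract) and EkStmt (Kloosterman case).

The sum over n1 and n2 in intervals of length ≤ N, k ∣ l1 n1 - l2 n2, (n1, k1) = 1, of Φ1 n1 Φ2 n2, k = k1 k2 k3 squarefree:
k1 = the part of the lattice modulus without phase, k2 = the part with a phase whose numerator is known (locked), k3 = the part with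
an arbitrary (adversarial) phase, W1, W2 = the moduli coprime to k of the other phases in n1 and in n2 (arbitrary, not coprime
to each other). Φ1 has the period k2 k3 W1, Φ2 the period W2.

RULES. Module X: file Pool/Agent/Lib/SL/X.lean, first line `import Pool.Agent.Lib.SL.SpecE`, then
`namespace Pool.Agent.Lib.SL` and `open Finset Pool.Agent.Lib.EH3 Pool.Agent.Lib.TB Pool.Agent.Results.MP_00e23e_nt Pool.Agent.Lib.MI`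
(the names of SL win over those of MI), private lemmas with names starting with X_, final theorem
`theorem tX (h1 : AStmt) ... : XStmt`; the statements listed under Uses are hypotheses of your theorem, in this order. The
docstring contains a complete proof. Basic lemmas: MI/Basic.lean (en_congr, en_add, conj_en, norm_en, en_mul_left, en_of_dvd,
en_crt, iv_mul_mul, iv_dvd_dvd), MI/T1Base.lean (t1_g_add, t1_norm_g), TB/Basic.lean (iv_dvd, iv_unique, iv_congr), EH3/LS1.lean,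
EH3/LS2.lean (orth). Never use congr!. Every module below 60 s. The constants are generous.
-/

namespace Pool.Agent.Lib.SL

open Finset Pool.Agent.Lib.EH3 Pool.Agent.Lib.TB Pool.Agent.Results.MP_00e23e_nt Pool.Agent.Lib.MI

/-- weight of the frequency j for intervals of length ≤ N and the period K -/
noncomputable def wE (N K : ℕ) (j : ℤ) : ℝ :=
  if j = 0 then (N : ℝ) / K else min ((N : ℝ) / K) (1 / (2 * |(j : ℝ)|))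

/-- the complete sum of F n e(j n/q) -/
noncomputable def hE (F : ℕ → ℂ) (q : ℕ) (j : ℤ) : ℂ := ∑ n ∈ range q, F n * en (j * n) q

/-- the combination of the two frequencies which matters modulo the lattice modulus -/
def bE (l1 l2 : ℤ) (W1 W2 : ℕ) (j1 j2 : ℤ) : ℤ := j1 * (W2 * l2) + j2 * (W1 * l1)

/-- the kernel: the lattice k1 k2 k3 ∣ l1 n1 - l2 n2 with (n1, k1) = 1 -/
noncomputable def fE (k1 k2 k3 : ℕ) (l1 l2 : ℤ) (Φ1 Φ2 : ℕ → ℂ) (n1 n2 : ℕ) : ℂ :=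
  if ((k1 * k2 * k3 : ℕ) : ℤ) ∣ l1 * n1 - l2 * n2 ∧ n1.Coprime k1 then Φ1 n1 * Φ2 n2 else 0

/-- the hypotheses on the moduli -/
def ME (k1 k2 k3 W1 W2 : ℕ) (l1 l2 : ℤ) : Prop :=
  Squarefree (k1 * k2 * k3) ∧ 1 ≤ W1 ∧ 1 ≤ W2 ∧ (k1 * k2 * k3).Coprime W1 ∧ (k1 * k2 * k3).Coprime W2 ∧
    Int.gcd l1 ((k1 * k2 * k3 : ℕ) : ℤ) = 1 ∧ Int.gcd l2 ((k1 * k2 * k3 : ℕ) : ℤ) = 1

/-- the hypotheses on the functions Φ1, Φ2 -/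
def PE (k2 k3 W1 W2 : ℕ) (Φ1 Φ2 : ℕ → ℂ) (B1 B2 : ℝ) : Prop :=
  0 ≤ B1 ∧ 0 ≤ B2 ∧ (∀ n, Φ1 (n + k2 * k3 * W1) = Φ1 n) ∧ (∀ n, Φ2 (n + W2) = Φ2 n) ∧
    (∀ j : ℤ, ‖hE Φ1 (k2 * k3 * W1) j‖ ≤ B1 * Real.sqrt (Int.gcd j ((k3 * W1 : ℕ) : ℤ) : ℝ)) ∧
    ∀ j : ℤ, ‖hE Φ2 W2 j‖ ≤ B2 * Real.sqrt (Int.gcd j (W2 : ℤ) : ℝ)

/-- Module Efi (theorem tEfi). FINAL STATEMENT of the chapter (abstract form). Uses: EcwStmt, EfhStmt, EmaStmt, EzaStmt, EzbStmt.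
Proof. k = k1 k2 k3, K1 = k W1, K2 = k W2. fE is periodic modulo K1 in n1 and modulo K2 in n2. Ecw with q1 = K1, q2 = K2, then Efh: the sum is at most T B1 B2 (τ(k1) ≤ T) times the sum over
j1 ∈ Icc (-K1) K1, j2 ∈ Icc (-K2) K2 of wE N K1 j1 wE N K2 j2 gcd(β,k1) √gcd(β,k3) √gcd(j1,W1) √gcd(j2,W2), β = bE l1 l2 W1 W2 j1 j2. Split it into four parts: j1 = j2 = 0: (N/K1)(N/K2) k1 √k3 √W1 √W2 = k1 √k3 N²/(k² √(W1 W2));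
j1 = 0, j2 ≠ 0: Eza; j1 ≠ 0, j2 = 0: Ezb; both ≠ 0: Ema. -/
def EsStmt : Prop := ∃ C : ℝ, 0 < C ∧ ∃ A : ℕ, ∀ (X T : ℝ) (k1 k2 k3 W1 W2 N N1 N2 N3 N4 : ℕ) (l1 l2 : ℤ)
    (Φ1 Φ2 : ℕ → ℂ) (B1 B2 : ℝ), Tau X T → ME k1 k2 k3 W1 W2 l1 l2 → PE k2 k3 W1 W2 Φ1 Φ2 B1 B2 → 1 ≤ N →
  N1 ≤ N2 → N2 ≤ N1 + N → N3 ≤ N4 → N4 ≤ N3 + N → ((k1 * k2 * k3 * W1 : ℕ) : ℝ) ≤ X →
  ((k1 * k2 * k3 * W2 : ℕ) : ℝ) ≤ X →
  ‖∑ n1 ∈ Ioc N1 N2, ∑ n2 ∈ Ioc N3 N4, fE k1 k2 k3 l1 l2 Φ1 Φ2 n1 n2‖ ≤ C * T ^ A * (B1 * B2) *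
    (1 + (k1 : ℝ) * Real.sqrt k3 * N / (((k1 * k2 * k3 : ℕ) : ℝ) * Real.sqrt ((W1 : ℝ) * W2)) +
      (N : ℝ) / (((k1 * k2 * k3 : ℕ) : ℝ) * Real.sqrt W1) + (N : ℝ) / (((k1 * k2 * k3 : ℕ) : ℝ) * Real.sqrt W2) +
      (k1 : ℝ) * Real.sqrt k3 * (N : ℝ) ^ 2 / (((k1 * k2 * k3 : ℕ) : ℝ) ^ 2 * Real.sqrt ((W1 : ℝ) * W2)))

/-! ### Completion -/

/-- Module Ecm (theorem tEcm; completing one variable). Uses: nothing. MODEL: Lib/MI/T1Cmp.lean.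
Proof. As in the MODEL with J = q: for 0 ≤ j < q put j* = j if 2j ≤ q, j* = j - q otherwise; then ‖∑ F‖ ≤ ∑_{j<q} ‖hE F q j*‖ (1/q) ‖∑_{n ∈ Ioc N1 N2} en (-j* n) q‖. The last sum has at most N terms of absolute value 1, so it is
≤ N, and for j* ≠ 0 it is also ≤ q/(2|j*|) (geometric series): (1/q) ‖..‖ ≤ wE N q j*. j ↦ j* is injective into Icc (-q) q, the other terms are ≥ 0. -/
def EcmStmt : Prop := ∀ (F : ℕ → ℂ) (q N N1 N2 : ℕ), 1 ≤ q → N1 ≤ N2 → N2 ≤ N1 + N → (∀ n, F (n + q) = F n) →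
  ‖∑ n ∈ Ioc N1 N2, F n‖ ≤ ∑ j ∈ Icc (-(q : ℤ)) (q : ℤ), wE N q j * ‖hE F q j‖

/-- Module Ecw (theorem tEcw; two variables). Uses: EcmStmt.
Proof. Ecm for n1 ↦ ∑_{n2 ∈ Ioc N3 N4} F n1 n2; its complete sum is ∑_{n2 ∈ Ioc N3 N4} G n2, G n2 = ∑_{n1<q1} F n1 n2 en (j1 n1) q1, of period q2. Ecm for G; hE G q2 j2 is the double sum on the right (sum_comm). -/
def EcwStmt : Prop := ∀ (F : ℕ → ℕ → ℂ) (q1 q2 N N1 N2 N3 N4 : ℕ), 1 ≤ q1 → 1 ≤ q2 → N1 ≤ N2 → N2 ≤ N1 + N →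
  N3 ≤ N4 → N4 ≤ N3 + N → (∀ m n, F (m + q1) n = F m n) → (∀ m n, F m (n + q2) = F m n) →
  ‖∑ n1 ∈ Ioc N1 N2, ∑ n2 ∈ Ioc N3 N4, F n1 n2‖ ≤ ∑ j1 ∈ Icc (-(q1 : ℤ)) (q1 : ℤ), ∑ j2 ∈ Icc (-(q2 : ℤ)) (q2 : ℤ),
    wE N q1 j1 * wE N q2 j2 * ‖∑ n1 ∈ range q1, ∑ n2 ∈ range q2, F n1 n2 * (en (j1 * n1) q1 * en (j2 * n2) q2)‖

/-! ### The complete sums -/

/-- Module Ecr (theorem tEcr; Chinese remainder theorem for sums). Uses: nothing.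
Proof. U n = U (n % a), V n = V (n % b) (periodicity); n ↦ (n % a, n % b) is a bijection of range (a b) onto range a ×ˢ range b (Nat.chineseRemainder, or injectivity and cardinality). -/
def EcrStmt : Prop := ∀ (a b : ℕ) (U V : ℕ → ℂ), 1 ≤ a → 1 ≤ b → a.Coprime b → (∀ n, U (n + a) = U n) →
  (∀ n, V (n + b) = V n) → ∑ n ∈ range (a * b), U n * V n = (∑ x ∈ range a, U x) * ∑ y ∈ range b, V y

/-- Module Esn (theorem tEsn; the sum over n2). Uses: EcrStmt.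
Proof. en_crt: en (j2 n2) (k W2) = en (j2 n2 iv W2 k) k * en (j2 n2 iv k W2) W2. Ecr with a = k, b = W2, U n = [k ∣ l1 n1 - l2 n] en (j2 n iv W2 k) k, V n = Φ2 n en (j2 iv k W2 n) W2 (periodic: en_congr). The second factor is hE Φ2 W2 (j2 iv k W2).
In the first one exactly one x < k satisfies k ∣ l1 n1 - l2 x (l2 is a unit modulo k with inverse l2'), namely x ≡ l1 l2' n1, and there en (j2 x iv W2 k) k = en (j2 iv W2 k l1 l2' n1) k (en_congr). -/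
def EsnStmt : Prop := ∀ (k W2 n1 : ℕ) (l1 l2 l2' j2 : ℤ) (Φ2 : ℕ → ℂ), 1 ≤ k → 1 ≤ W2 → k.Coprime W2 →
  (k : ℤ) ∣ l2 * l2' - 1 → (∀ n, Φ2 (n + W2) = Φ2 n) →
  ∑ n2 ∈ range (k * W2), (if (k : ℤ) ∣ l1 * n1 - l2 * n2 then Φ2 n2 * en (j2 * n2) (k * W2) else 0) =
    en (j2 * (iv W2 k : ℤ) * l1 * l2' * n1) k * hE Φ2 W2 (j2 * (iv k W2 : ℤ))

/-- Module Efn (theorem tEfn; the sum over n1). Uses: EcrStmt.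
Proof. en_crt and Ecr with a = k1, b = K, U n = [n ⊥ k1] en (J iv K k1 n) k1, V n = Φ1 n en (J iv k1 K n) K. -/
def EfnStmt : Prop := ∀ (k1 K : ℕ) (J : ℤ) (Φ1 : ℕ → ℂ), 1 ≤ k1 → 1 ≤ K → k1.Coprime K → (∀ n, Φ1 (n + K) = Φ1 n) →
  ∑ n ∈ range (k1 * K), (if n.Coprime k1 then Φ1 n * en (J * n) (k1 * K) else 0) =
    (∑ x ∈ (range k1).filter (fun x => x.Coprime k1), en (J * (iv K k1 : ℤ) * x) k1) * hE Φ1 K (J * (iv k1 K : ℤ))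

/-- Module Erm (theorem tErm; Ramanujan's sum). Uses: nothing.
Proof. [x ⊥ k] = ∑_{d ∣ x, d ∣ k} μ(d). For d ∣ k the x < k divisible by d are x = d y, y < k/d, and en (J d y) k = en (J y) (k/d) (en_mul_left), ∑_{y < k/d} en (J y) (k/d) = k/d if k/d ∣ J, 0 otherwise (orth). So the sum is ∑_{d ∣ k, k/d ∣ J} μ(d) (k/d);
k/d divides J and k, hence gcd(J, k) ≥ 1, so k/d ≤ gcd(J, k), and there are at most τ(k) terms. (Any other proof; k squarefree is not needed.) -/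
def ErmStmt : Prop := ∀ (k : ℕ) (J : ℤ), 1 ≤ k →
  ‖∑ x ∈ (range k).filter (fun x => x.Coprime k), en (J * x) k‖ ≤ (k.divisors.card : ℝ) * (Int.gcd J k : ℝ)

/-- Module Egc (theorem tEgc; the gcd's). Uses: nothing.
Proof. ρ = iv W2 k l1 l2', J = j1 + j2 ρ W1, k = k1 k2 k3. (A gcd with m does not change if the number is multiplied by a unit modulo m or changed by a multiple of m; gcd(x, m m') = gcd(x, m) gcd(x, m') for coprime m, m'.) W2 l2 is a unit modulo k and W2 l2 J = j1 W2 l2 + j2 W1 (W2 iv W2 k) l1 (l2 l2') ≡ bE modulo k.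
(1) iv K k1 is a unit modulo k1 (K = k2 k3 W1 coprime to k1): gcd(J iv K k1, k1) = gcd(J, k1) = gcd(bE, k1). (2) iv k1 K is a unit modulo K, so modulo k3 W1: gcd(J iv k1 K, k3 W1) = gcd(J, k3) gcd(J, W1) = gcd(bE, k3) gcd(j1, W1) (W1 ∣ J - j1). (3) iv k W2 is a unit modulo W2. -/
def EgcStmt : Prop := ∀ (k1 k2 k3 W1 W2 : ℕ) (l1 l2 l2' j1 j2 : ℤ), ME k1 k2 k3 W1 W2 l1 l2 →
  ((k1 * k2 * k3 : ℕ) : ℤ) ∣ l2 * l2' - 1 →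
  Int.gcd ((j1 + j2 * ((iv W2 (k1 * k2 * k3) : ℤ) * l1 * l2') * W1) * (iv (k2 * k3 * W1) k1 : ℤ)) k1 =
      Int.gcd (bE l1 l2 W1 W2 j1 j2) k1 ∧
    Int.gcd ((j1 + j2 * ((iv W2 (k1 * k2 * k3) : ℤ) * l1 * l2') * W1) * (iv k1 (k2 * k3 * W1) : ℤ))
        ((k3 * W1 : ℕ) : ℤ) = Int.gcd (bE l1 l2 W1 W2 j1 j2) k3 * Int.gcd j1 W1 ∧
    Int.gcd (j2 * (iv (k1 * k2 * k3) W2 : ℤ)) W2 = Int.gcd j2 W2

/-- Module Efh (theorem tEfh; bound of the complete sums). Uses: EsnStmt, EfnStmt, ErmStmt, EgcStmt.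
Proof. k = k1 k2 k3, l2' an inverse of l2 modulo k (Int.gcd l2 k = 1). For fixed n1 the sum over n2 is [n1 ⊥ k1] Φ1 n1 en (j1 n1) (k W1) times Esn; en (j2 iv W2 k l1 l2' n1) k = en (j2 ρ W1 n1) (k W1), ρ = iv W2 k l1 l2' (en_mul_left with the factor W1), so it is [n1 ⊥ k1] Φ1 n1 en (J n1) (k W1) hE Φ2 W2 (j2 iv k W2) with
J = j1 + j2 ρ W1. k W1 = k1 (k2 k3 W1) with coprime factors: Efn. Then Erm for the first factor (with J iv K k1, K = k2 k3 W1), the hypotheses PE for the other two, and Egc; √(gcd(bE,k3) gcd(j1,W1)) = √.. √... -/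
def EfhStmt : Prop := ∀ (k1 k2 k3 W1 W2 : ℕ) (l1 l2 j1 j2 : ℤ) (Φ1 Φ2 : ℕ → ℂ) (B1 B2 : ℝ),
  ME k1 k2 k3 W1 W2 l1 l2 → PE k2 k3 W1 W2 Φ1 Φ2 B1 B2 →
  ‖∑ n1 ∈ range (k1 * k2 * k3 * W1), ∑ n2 ∈ range (k1 * k2 * k3 * W2), fE k1 k2 k3 l1 l2 Φ1 Φ2 n1 n2 *
      (en (j1 * n1) (k1 * k2 * k3 * W1) * en (j2 * n2) (k1 * k2 * k3 * W2))‖ ≤
    (k1.divisors.card : ℝ) * (Int.gcd (bE l1 l2 W1 W2 j1 j2) k1 : ℝ) * (B1 * B2) *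
      Real.sqrt (Int.gcd (bE l1 l2 W1 W2 j1 j2) k3 : ℝ) * Real.sqrt (Int.gcd j1 W1 : ℝ) *
        Real.sqrt (Int.gcd j2 W2 : ℝ)

/-! ### The sums over the frequencies -/

/-- Module Ewa (theorem tEwa; sums of the weights over multiples of e). Uses: nothing.
Proof. For a ≥ 1: 0 ≤ wE N K (e a) = min (N/K) (1/(2 e a)) ≤ 1/(2 e a), and its square is ≤ (N/K) (1/(2 e a)). ∑_{1 ≤ a ≤ f} 1/a ≤ 1 + log f (harmonic_le_one_add_log). -/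
def EwaStmt : Prop := ∀ (N K e f : ℕ), 1 ≤ K → 1 ≤ e → 1 ≤ f →
  ∑ a ∈ Icc 1 f, wE N K ((e : ℤ) * a) ≤ (1 + Real.log f) / (2 * (e : ℝ)) ∧
    ∑ a ∈ Icc 1 f, wE N K ((e : ℤ) * a) ^ 2 ≤ (N : ℝ) / K * ((1 + Real.log f) / (2 * (e : ℝ)))

/-- Module Ewb (theorem tEwb; the weights in a class). Uses: nothing.
Proof. wE is even. The positive a ≡ c modulo f are c⁺ + f i, i ≥ 0, with c⁺ = c if c ≥ 1, c⁺ = f if c = 0; the negative ones are -((f - c) + f i). For i ≥ 1 the weight is ≤ 1/(2 e f i), and f i ≤ J, so i ≤ J: ∑_{1≤i≤J} 1/(2 e f i) ≤ (1 + log J)/(2 e f), twice. The two terms i = 0 are the first two terms on the right (they may be absent from the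
left side: the weights are ≥ 0). J = 0 is trivial. -/
def EwbStmt : Prop := ∀ (N K e f J c : ℕ), 1 ≤ K → 1 ≤ e → 1 ≤ f → c < f →
  ∑ a ∈ (Icc (-(J : ℤ)) (J : ℤ)).filter (fun a => a ≠ 0 ∧ (f : ℤ) ∣ a - c), wE N K ((e : ℤ) * a) ≤
    wE N K ((e : ℤ) * (if c = 0 then (f : ℤ) else (c : ℤ))) + wE N K ((e : ℤ) * ((f : ℤ) - c)) +
      (1 + Real.log J) / ((e : ℝ) * f)

/-- Module Edd (theorem tEdd; the double sum). Uses: EwaStmt, EwbStmt.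
Proof. w_i a = wE N K_i (e_i a). Group a2 by c = a2 mod f ∈ range f: then a1 ≡ κ c modulo f. So the left side is ∑_{c<f} G1 (σ c) G2 c, σ c = (κ c) mod f, G_i c = ∑_{a ≠ 0, a ≡ c} w_i a. σ is a bijection of range f (gcd(κ, f) = 1). Ewb: G_i c ≤ p_i c + r_i, p_i c = w_i(c⁺) + w_i(f - c), r_i = (1 + log J_i)/(e_i f) ≤ T/(e_i f) (J_i ≤ X; J_i = 0: the sum is 0).
c ↦ c⁺ and c ↦ f - c are bijections of range f onto Icc 1 f, so by Ewa ∑ p_i c ≤ (1 + log f)/e_i ≤ T/e_i and ∑ (p_i c)² ≤ 2 ∑ (w_i(c⁺)² + w_i(f-c)²) ≤ 2 (N/K_i) T/e_i. Expand: ∑ (p1 (σ c) + r1)(p2 c + r2) ≤ (∑ p1²)^(1/2) (∑ p2²)^(1/2) + r1 ∑ p2 + r2 ∑ p1 + f r1 r2 (Cauchy; σ bijective)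
≤ 2 T N/√(K1 K2 e1 e2) + 3 T²/(e1 e2 f). (Write N/√(K1 K2 e1 e2) as √(N/(K1 e1)) √(N/(K2 e2)).) -/
def EddStmt : Prop := ∀ (X T : ℝ) (N K1 K2 e1 e2 f J1 J2 : ℕ) (κ : ℤ), Tau X T → 1 ≤ N → 1 ≤ K1 → 1 ≤ K2 → 1 ≤ e1 →
  1 ≤ e2 → 1 ≤ f → (f : ℝ) ≤ X → (J1 : ℝ) ≤ X → (J2 : ℝ) ≤ X → Int.gcd κ f = 1 →
  ∑ a1 ∈ (Icc (-(J1 : ℤ)) (J1 : ℤ)).filter (fun a => a ≠ 0), ∑ a2 ∈ (Icc (-(J2 : ℤ)) (J2 : ℤ)).filter (fun a => a ≠ 0),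
      (if (f : ℤ) ∣ a1 - κ * a2 then wE N K1 ((e1 : ℤ) * a1) * wE N K2 ((e2 : ℤ) * a2) else 0) ≤
    2 * T * ((N : ℝ) / Real.sqrt ((K1 : ℝ) * K2 * ((e1 : ℝ) * e2))) + 3 * T ^ 2 / ((e1 : ℝ) * e2 * f)

/-- Module Ede (theorem tEde; the frequencies divisible by e1, e2 with f ∣ β). Uses: EddStmt.
Proof. j1 = e1 a1, j2 = e2 a2 (the other terms are 0), a_i ≠ 0, |a_i| ≤ J_i. β = bE = a1 e1 W2 l2 + a2 e2 W1 l1; e1 W2 l2 and e2 W1 l1 are units modulo f (f ∣ k is coprime to W1, W2, l1, l2 and to e1 ∣ W1, e2 ∣ W2): f ∣ β iff f ∣ a1 - κ a2 with κ ≡ -(e2 W1 l1) (e1 W2 l2)⁻¹, gcd(κ, f) = 1.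
Enlarge the range of a_i to |a_i| ≤ J_i (terms ≥ 0) and apply Edd. -/
def EdeStmt : Prop := ∀ (X T : ℝ) (N K1 K2 e1 e2 f W1 W2 J1 J2 : ℕ) (l1 l2 : ℤ), Tau X T → 1 ≤ N → 1 ≤ K1 → 1 ≤ K2 →
  1 ≤ W1 → 1 ≤ W2 → e1 ∣ W1 → e2 ∣ W2 → 1 ≤ f → (f : ℝ) ≤ X → (J1 : ℝ) ≤ X → (J2 : ℝ) ≤ X → f.Coprime W1 →
  f.Coprime W2 → Int.gcd l1 f = 1 → Int.gcd l2 f = 1 →
  ∑ j1 ∈ (Icc (-(J1 : ℤ)) (J1 : ℤ)).filter (fun a => a ≠ 0), ∑ j2 ∈ (Icc (-(J2 : ℤ)) (J2 : ℤ)).filter (fun a => a ≠ 0),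
      (if (e1 : ℤ) ∣ j1 ∧ (e2 : ℤ) ∣ j2 ∧ (f : ℤ) ∣ bE l1 l2 W1 W2 j1 j2 then wE N K1 j1 * wE N K2 j2 else 0) ≤
    2 * T * ((N : ℝ) / Real.sqrt ((K1 : ℝ) * K2 * ((e1 : ℝ) * e2))) + 3 * T ^ 2 / ((e1 : ℝ) * e2 * f)

/-- Module Ema (theorem tEma; both frequencies ≠ 0). Uses: EdeStmt.
Proof. gcd(β, k1) ≤ ∑_{f1 ∣ k1, f1 ∣ β} f1, √gcd(β, k3) ≤ ∑_{f3 ∣ k3, f3 ∣ β} √f3, √gcd(j1, W1) ≤ ∑_{e1 ∣ W1, e1 ∣ j1} √e1, √gcd(j2, W2) ≤ ∑_{e2 ∣ W2, e2 ∣ j2} √e2 (the gcd itself is one of the divisors). Exchange the sums: the left side is at most ∑_{f1, f3, e1, e2} f1 √f3 √e1 √e2 times the sum of Ede for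
f = f1 f3 (f1 ⊥ f3, so f1 ∣ β and f3 ∣ β iff f ∣ β; f ∣ k is coprime to W1, W2, l1, l2): ≤ f1 √f3 √(e1 e2) (2 T N/(√(K1 K2) √(e1 e2)) + 3 T²/(e1 e2 f1 f3)) ≤ 2 T k1 √k3 N/√(K1 K2) + 3 T². There are τ(k1) τ(k3) τ(W1) τ(W2) ≤ T⁴ quadruples. -/
def EmaStmt : Prop := ∀ (X T : ℝ) (k1 k2 k3 W1 W2 N K1 K2 J1 J2 : ℕ) (l1 l2 : ℤ), Tau X T →
  ME k1 k2 k3 W1 W2 l1 l2 → 1 ≤ N → 1 ≤ K1 → 1 ≤ K2 → ((k1 * k2 * k3 : ℕ) : ℝ) ≤ X → (W1 : ℝ) ≤ X → (W2 : ℝ) ≤ X →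
  (J1 : ℝ) ≤ X → (J2 : ℝ) ≤ X →
  ∑ j1 ∈ (Icc (-(J1 : ℤ)) (J1 : ℤ)).filter (fun a => a ≠ 0), ∑ j2 ∈ (Icc (-(J2 : ℤ)) (J2 : ℤ)).filter (fun a => a ≠ 0),
      wE N K1 j1 * wE N K2 j2 * ((Int.gcd (bE l1 l2 W1 W2 j1 j2) k1 : ℝ) *
        Real.sqrt (Int.gcd (bE l1 l2 W1 W2 j1 j2) k3 : ℝ) * Real.sqrt (Int.gcd j1 W1 : ℝ) *
          Real.sqrt (Int.gcd j2 W2 : ℝ)) ≤
    T ^ 4 * (2 * T * ((k1 : ℝ) * Real.sqrt k3 * N / Real.sqrt ((K1 : ℝ) * K2)) + 3 * T ^ 2)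

/-- Module Ezg (theorem tEzg; one frequency 0). Uses: MI.T1GsjStmt.
Proof. k1, k3, W pairwise coprime: gcd(u j, k1) √gcd(u j, k3) √gcd(j, W) ≤ gcd(j, k1) gcd(j, k3) gcd(j, W) = gcd(j, k1 k3 W) (u is a unit modulo k1 k3; the gcd's are ≥ 1 as k1, k3, W ≥ 1). wE N K j ≤ 1/(2|j|), both signs: the sum is ≤ ∑_{1≤j≤J} gcd(k1 k3 W, j)/j ≤ τ(k1 k3 W) (1 + log J) ≤ T² (T1Gsj with Z = k1 k3 W; J = 0 trivial). -/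
def EzgStmt : Prop := ∀ (X T : ℝ) (k1 k3 W N K J : ℕ) (u : ℤ), Tau X T → 1 ≤ k1 → 1 ≤ k3 → 1 ≤ W → 1 ≤ K →
  k1.Coprime k3 → k1.Coprime W → k3.Coprime W → Int.gcd u ((k1 * k3 : ℕ) : ℤ) = 1 → ((k1 * k3 * W : ℕ) : ℝ) ≤ X →
  (J : ℝ) ≤ X →
  ∑ j ∈ (Icc (-(J : ℤ)) (J : ℤ)).filter (fun a => a ≠ 0), wE N K j * ((Int.gcd (u * j) k1 : ℝ) *
      Real.sqrt (Int.gcd (u * j) k3 : ℝ) * Real.sqrt (Int.gcd j W : ℝ)) ≤ T ^ 2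

/-- Module Eza (theorem tEza; j1 = 0, j2 ≠ 0). Uses: EzgStmt.
Proof. bE l1 l2 W1 W2 0 j = (W1 l1) j, u = W1 l1 is a unit modulo k1 k3, gcd(0, W1) = W1: Ezg with W = W2, K = k W2, times (N/(k W1)) √W1 = N/(k √W1). -/
def EzaStmt : Prop := ∀ (X T : ℝ) (k1 k2 k3 W1 W2 N J : ℕ) (l1 l2 : ℤ), Tau X T → ME k1 k2 k3 W1 W2 l1 l2 →
  ((k1 * k2 * k3 * W2 : ℕ) : ℝ) ≤ X → (J : ℝ) ≤ X →
  ∑ j ∈ (Icc (-(J : ℤ)) (J : ℤ)).filter (fun a => a ≠ 0),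
      wE N (k1 * k2 * k3 * W1) 0 * wE N (k1 * k2 * k3 * W2) j * ((Int.gcd (bE l1 l2 W1 W2 0 j) k1 : ℝ) *
        Real.sqrt (Int.gcd (bE l1 l2 W1 W2 0 j) k3 : ℝ) * Real.sqrt (Int.gcd 0 W1 : ℝ) * Real.sqrt (Int.gcd j W2 : ℝ)) ≤
    T ^ 2 * ((N : ℝ) / (((k1 * k2 * k3 : ℕ) : ℝ) * Real.sqrt W1))

/-- Module Ezb (theorem tEzb; j1 ≠ 0, j2 = 0). Uses: EzgStmt. Proof. As Eza: bE l1 l2 W1 W2 j 0 = (W2 l2) j. -/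
def EzbStmt : Prop := ∀ (X T : ℝ) (k1 k2 k3 W1 W2 N J : ℕ) (l1 l2 : ℤ), Tau X T → ME k1 k2 k3 W1 W2 l1 l2 →
  ((k1 * k2 * k3 * W1 : ℕ) : ℝ) ≤ X → (J : ℝ) ≤ X →
  ∑ j ∈ (Icc (-(J : ℤ)) (J : ℤ)).filter (fun a => a ≠ 0),
      wE N (k1 * k2 * k3 * W1) j * wE N (k1 * k2 * k3 * W2) 0 * ((Int.gcd (bE l1 l2 W1 W2 j 0) k1 : ℝ) *
        Real.sqrt (Int.gcd (bE l1 l2 W1 W2 j 0) k3 : ℝ) * Real.sqrt (Int.gcd j W1 : ℝ) * Real.sqrt (Int.gcd 0 W2 : ℝ)) ≤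
    T ^ 2 * ((N : ℝ) / (((k1 * k2 * k3 : ℕ) : ℝ) * Real.sqrt W2))

/-! ### The Kloosterman case -/

/-- Module Ekl (theorem tEkl; Kloosterman sums with gcd(c, h, q)). Uses: TN.WeilStmt. MODEL: Lib/TN/Ksq.lean.
Proof. As in the MODEL by induction over the primes of q (twisted multiplicativity; gcd(gcd(u c, u h), p) = gcd(gcd(c, h), p) for a unit u). p ∤ c: 2 √p (Weil). p ∣ c, p ∤ h: kl c h p = ∑_{0<x<p} e(h x/p) = -1. p ∣ c and p ∣ h: ≤ p = √(p p). -/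
def EklStmt : Prop := ∀ (q : ℕ) (c h : ℤ), 1 ≤ q → Squarefree q →
  ‖kl c h q‖ ≤ (q.divisors.card : ℝ) * Real.sqrt ((q : ℝ) * (Int.gcd ((Int.gcd c h : ℕ) : ℤ) q : ℝ))

/-- Module Ekh (theorem tEkh; the complete sums of t1g). Uses: EklStmt.
Proof. hE (t1g c q) q j = kl c j q: the terms n ⊥ q are en (c iv n q) q * en (j n) q = ee ((c iv n q + j n)/q). q = m m', gcd(c, j, q) divides gcd(c, m) gcd(j, m') (m, m' coprime, m m' squarefree), √ of the product, τ(q) ≤ T. -/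
def EkhStmt : Prop := ∀ (X T : ℝ) (m m' : ℕ) (c j : ℤ), Tau X T → Squarefree (m * m') → ((m * m' : ℕ) : ℝ) ≤ X →
  ‖hE (t1g c (m * m')) (m * m') j‖ ≤
    T * Real.sqrt (((m * m' : ℕ) : ℝ) * (Int.gcd c m : ℝ)) * Real.sqrt (Int.gcd j (m' : ℤ) : ℝ)

/-- Module Ekf (theorem tEkf). FINAL STATEMENT, Kloosterman case. Uses: EsStmt, EkhStmt.
Proof. Es with Φ1 = t1g c1 (k2 k3 W1), Φ2 = t1g c2 W2 (periods: t1_g_add), B1 = T √(k2 k3 W1 gcd(c1, k2)) (Ekh with m = k2, m' = k3 W1; k2 * k3 * W1 = k2 * (k3 * W1), squarefree: k squarefree, W1 squarefree and coprime to k), B2 = T √W2 (Ekh with m = 1, m' = W2).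
B1 B2 = T² √gcd √(k2 k3 W1 W2). Multiply the five terms: 1; k1 √k3 N/(k √(W1 W2)) gives k1 k3 √k2 N/k = N/√k2; N/(k √W1) gives N √(k2 k3 W2)/k; N/(k √W2) gives N √(k2 k3 W1)/k; the last gives k1 k3 √k2 N²/k² = N²/(k √k2). -/
def EkStmt : Prop := ∃ C : ℝ, 0 < C ∧ ∃ A : ℕ, ∀ (X T : ℝ) (k1 k2 k3 W1 W2 N N1 N2 N3 N4 : ℕ) (l1 l2 c1 c2 : ℤ),
  Tau X T → ME k1 k2 k3 W1 W2 l1 l2 → Squarefree W1 → Squarefree W2 → 1 ≤ N → N1 ≤ N2 → N2 ≤ N1 + N → N3 ≤ N4 →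
  N4 ≤ N3 + N → ((k1 * k2 * k3 * W1 : ℕ) : ℝ) ≤ X → ((k1 * k2 * k3 * W2 : ℕ) : ℝ) ≤ X →
  ‖∑ n1 ∈ Ioc N1 N2, ∑ n2 ∈ Ioc N3 N4, fE k1 k2 k3 l1 l2 (t1g c1 (k2 * k3 * W1)) (t1g c2 W2) n1 n2‖ ≤
    C * T ^ A * Real.sqrt (Int.gcd c1 k2 : ℝ) *
      (Real.sqrt ((k2 : ℝ) * k3 * W1 * W2) + (N : ℝ) / Real.sqrt k2 +
        (N : ℝ) * Real.sqrt ((k2 : ℝ) * k3 * W2) / ((k1 * k2 * k3 : ℕ) : ℝ) +
        (N : ℝ) * Real.sqrt ((k2 : ℝ) * k3 * W1) / ((k1 * k2 * k3 : ℕ) : ℝ) +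
        (N : ℝ) ^ 2 / (((k1 * k2 * k3 : ℕ) : ℝ) * Real.sqrt k2))

end Pool.Agent.Lib.SL
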