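import Pool.Agent.Lib.SL.SpecV

/-!
MP_00e23e_nt, directory Lib/SL, module VPha: splitting a phase.
-/

set_option autoImplicit false

namespace Pool.Agent.Lib.SL

open Finset Pool.Agent.Lib.EH3 Pool.Agent.Lib.TB Pool.Agent.Results.MP_00e23e_nt Pool.Agent.Lib.MI

theorem tVPha : VPhaStmt := by
  intro c F D n hF hD hFD
  have hFD1 : 1 ≤ F * D := Nat.mul_pos hF hD
  unfold t1g
  by_cases h : n.Coprime (F * D)
  · have h1 : n.Coprime F := h.coprime_dvd_right (Dvd.intro _ rfl)
    have h2 : n.Coprime D := h.coprime_dvd_right (Dvd.intro_left _ rfl)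
    rw [if_pos h, if_pos h1, if_pos h2, en_crt hFD hF hD]
    refine congrArg₂ (· * ·) ?_ ?_
    · apply en_congr
      have h3 := iv_dvd_dvd h (Dvd.intro D rfl : F ∣ F * D) hFD1
      have h4 : c * (iv n (F * D) : ℤ) * (iv D F : ℤ) - c * (iv D F : ℤ) * (iv n F : ℤ) =
          c * (iv D F : ℤ) * ((iv n (F * D) : ℤ) - (iv n F : ℤ)) := by ring
      rw [h4]
      exact dvd_mul_of_dvd_right h3 _
    · apply en_congr
      have h3 := iv_dvd_dvd h (Dvd.intro_left F rfl : D ∣ F * D) hFD1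
      have h4 : c * (iv n (F * D) : ℤ) * (iv F D : ℤ) - c * (iv F D : ℤ) * (iv n D : ℤ) =
          c * (iv F D : ℤ) * ((iv n (F * D) : ℤ) - (iv n D : ℤ)) := by ring
      rw [h4]
      exact dvd_mul_of_dvd_right h3 _
  · rw [if_neg h]
    by_cases h1 : n.Coprime F
    · have h2 : ¬ n.Coprime D := fun h2 => h (Nat.Coprime.mul_right h1 h2)
      rw [if_neg h2, mul_zero]
    · rw [if_neg h1, zero_mul]

end Pool.Agent.Lib.SL
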