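import Pool.Agent.Lib.MN.SpecB
import Pool.Agent.Lib.BV.Tot

/-!
MP_00e23e_nt, directory Lib/SL (THEOREM SL, single lock), module Brg (helper88): the sum of the remainders of MI.BidStmt, for
arbitrary classes a (t, u, s) (adapted from Lib/MN/Brm.lean, where the class depends on t and u only).
-/

namespace Pool.Agent.Lib.SL

open Finset Pool.Agent.Lib.EH3 Pool.Agent.Lib.TB Pool.Agent.Results.MP_00e23e_nt Pool.Agent.Lib.MI

open Classical in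
/-- Module Brg (theorem tBrg; the remainders, the class modulo t is an arbitrary function of the triple (t, u, s)).
Uses: MI.BphStmt. Proof. P(m) = T (4 M N/m + 1) bounds the number of pairs with product in a class modulo m. For one triple w the
sum over (m, n) is ≤ (1/φ(u)) (1/s) ((2T²/z) P(t) + ∑_{p ∣ s} P(t p)) ≤ (1/φ(u)) (1/s) T^3 (12 M N/(t z) + 3), and
∑ 1/φ(u) ≤ T^2, ∑ 1/s ≤ T, ∑_t 1/t ≤ T. -/
def BrgStmt : Prop := ∀ (X T z : ℝ) (a : ℕ × ℕ × ℕ → ℤ) (D M N : ℕ) (G : Finset (ℕ × ℕ × ℕ)), Tau X T → 1 ≤ z →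
  1 ≤ M → 1 ≤ N → (D : ℝ) ≤ X → 4 * (M : ℝ) * N ≤ X →
  (∀ w ∈ G, 1 ≤ w.1 ∧ 1 ≤ w.2.1 ∧ 1 ≤ w.2.2 ∧ w.1 ≤ D ∧ w.2.1 ≤ D ∧ w.2.2 ≤ D ∧ w.1.Coprime w.2.2 ∧
    ∀ p : ℕ, p.Prime → p ∣ w.2.2 → z < p) →
  ∑ w ∈ G, ∑ m ∈ Ioc M (2 * M), ∑ n ∈ Ioc N (2 * N),
    (if (w.1 : ℤ) ∣ ((m * n : ℕ) : ℤ) - a w then 1 else 0) * (1 / (w.2.1.totient : ℝ)) *
      ((1 / (w.2.2.totient : ℝ) - 1 / (w.2.2 : ℝ)) + (if (m * n).Coprime w.2.2 then 0 else 1 / (w.2.2 : ℝ))) ≤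
    12 * T ^ 7 * ((M : ℝ) * N / z + D)

/-- the harmonic sum -/
private lemma Brg_harm {X T : ℝ} (hT : Tau X T) (D : ℕ) (hD : (D : ℝ) ≤ X) :
    ∑ s ∈ Icc 1 D, 1 / (s : ℝ) ≤ T := by
  rcases Nat.eq_zero_or_pos D with h0 | h0
  · subst h0
    have h1 : Icc 1 0 = (∅ : Finset ℕ) := by decide
    rw [h1, Finset.sum_empty]
    linarith [hT.1]
  · have h2 := harmonic_le_one_add_log D
    rw [harmonic_eq_sum_Icc] at h2
    push_cast at h2
    have hD0 : (0 : ℝ) < D := by exact_mod_cast h0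
    have h3 : Real.log D ≤ Real.log X := Real.log_le_log hD0 hD
    have h4 : ∑ s ∈ Icc 1 D, 1 / (s : ℝ) = ∑ s ∈ Icc 1 D, (s : ℝ)⁻¹ :=
      Finset.sum_congr rfl fun s _ => one_div _
    rw [h4]
    linarith [hT.2.1]

private lemma Brg_phi {X T : ℝ} (hT : Tau X T) (D : ℕ) (hD : (D : ℝ) ≤ X) :
    ∑ u ∈ Icc 1 D, 1 / (u.totient : ℝ) ≤ T ^ 2 := by
  have hT1 := hT.1
  rcases Nat.eq_zero_or_pos D with h0 | h0
  · subst h0
    have h1 : Icc 1 0 = (∅ : Finset ℕ) := by decide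
    rw [h1, Finset.sum_empty]
    positivity
  · have hD1 : (1 : ℝ) ≤ D := by exact_mod_cast h0
    have h3 : Real.log D ≤ Real.log X := Real.log_le_log (by linarith) hD
    have h4 : 0 ≤ Real.log D := Real.log_nonneg hD1
    have h5 := BV.tTot.1 D h0
    have h6 : (1 + Real.log D) ^ 2 ≤ T ^ 2 :=
      pow_le_pow_left₀ (by linarith) (by linarith [hT.2.1]) 2
    exact h5.trans h6

/-- the number of elements of a residue class in an interval -/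
private lemma Brg_count (m K1 K2 : ℕ) (a : ℤ) (hm : 1 ≤ m) (hK : K1 ≤ K2) :
    (((Ioc K1 K2).filter (fun k : ℕ => (m : ℤ) ∣ (k : ℤ) - a)).card : ℝ) ≤
      ((K2 : ℝ) - K1) / m + 1 := by
  have hm' : (0 : ℤ) < (m : ℤ) := by exact_mod_cast hm
  have h1 : ((Ioc K1 K2).filter (fun k : ℕ => (m : ℤ) ∣ (k : ℤ) - a)).card ≤
      ((Ioc (K1 : ℤ) (K2 : ℤ)).filter (fun k : ℤ => k ≡ a [ZMOD (m : ℤ)])).card := by
    refine Finset.card_le_card_of_injOn (fun k : ℕ => (k : ℤ)) ?_ ?_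
    · intro k hk
      have hk1 := Finset.mem_filter.1 (Finset.mem_coe.1 hk)
      have hk2 := Finset.mem_Ioc.1 hk1.1
      refine Finset.mem_coe.2 (Finset.mem_filter.2 ⟨Finset.mem_Ioc.2
        ⟨Int.ofNat_lt.2 hk2.1, Int.ofNat_le.2 hk2.2⟩, ?_⟩)
      exact (Int.modEq_iff_dvd.2 (by
        have := (dvd_neg (a := (m : ℤ))).2 hk1.2
        rwa [neg_sub] at this))
    · intro k _ k' _ h
      exact Int.ofNat.inj h
  have h2 := Int.Ioc_filter_modEq_card (K1 : ℤ) (K2 : ℤ) hm' a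
  have h3 : ((((Ioc (K1 : ℤ) (K2 : ℤ)).filter (fun k : ℤ => k ≡ a [ZMOD (m : ℤ)])).card : ℤ) : ℚ) ≤
      ((K2 : ℚ) - K1) / m + 1 := by
    rw [h2]
    push_cast
    refine max_le ?_ ?_
    · have e1 := Int.floor_le (((K2 : ℚ) - (a : ℚ)) / (m : ℚ))
      have e2 := (Int.lt_floor_add_one (((K1 : ℚ) - (a : ℚ)) / (m : ℚ))).le
      have e3 : ((K2 : ℚ) - K1) / m = ((K2 : ℚ) - (a : ℚ)) / (m : ℚ) - ((K1 : ℚ) - (a : ℚ)) / (m : ℚ) := by
        ring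
      rw [e3]
      linarith
    · have e4 : (0 : ℚ) ≤ (K2 : ℚ) - K1 := sub_nonneg.2 (by exact_mod_cast hK)
      positivity
  have h4 : (((((Ioc (K1 : ℤ) (K2 : ℤ)).filter (fun k : ℤ => k ≡ a [ZMOD (m : ℤ)])).card : ℤ) : ℚ) : ℝ) ≤
      (((((K2 : ℚ) - K1) / m + 1 : ℚ)) : ℝ) := by exact_mod_cast h3
  push_cast at h4
  have h5 : (((Ioc K1 K2).filter (fun k : ℕ => (m : ℤ) ∣ (k : ℤ) - a)).card : ℝ) ≤
      (((Ioc (K1 : ℤ) (K2 : ℤ)).filter (fun k : ℤ => k ≡ a [ZMOD (m : ℤ)])).card : ℝ) := by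
    exact_mod_cast h1
  exact h5.trans h4

/-- the number of pairs with product in a class -/
private lemma Brg_pairs {X T : ℝ} (hT : Tau X T) (a : ℤ) (M N t : ℕ) (ht : 1 ≤ t)
    (hX : 4 * (M : ℝ) * N ≤ X) :
    (((Ioc M (2 * M) ×ˢ Ioc N (2 * N)).filter
      (fun w => (t : ℤ) ∣ ((w.1 * w.2 : ℕ) : ℤ) - a)).card : ℝ) ≤
      T * (4 * ((M : ℝ) * N) / t + 1) := by
  set W := (Ioc M (2 * M) ×ˢ Ioc N (2 * N)).filter
    (fun w => (t : ℤ) ∣ ((w.1 * w.2 : ℕ) : ℤ) - a) with hW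
  set K := (Ioc 0 (4 * M * N)).filter (fun k : ℕ => (t : ℤ) ∣ (k : ℤ) - a) with hK
  have hT0 : 0 ≤ T := zero_le_one.trans hT.1
  have hmem : ∀ w ∈ W, 1 ≤ w.1 ∧ 1 ≤ w.2 ∧ w.1 * w.2 ∈ K := by
    intro w hw
    rw [hW, Finset.mem_filter, Finset.mem_product, Finset.mem_Ioc, Finset.mem_Ioc] at hw
    obtain ⟨⟨⟨h1, h2⟩, h3, h4⟩, h5⟩ := hw
    have h6 : 1 ≤ w.1 := by omega
    have h7 : 1 ≤ w.2 := by omega
    refine ⟨h6, h7, ?_⟩
    rw [hK, Finset.mem_filter, Finset.mem_Ioc]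
    refine ⟨⟨Nat.mul_pos h6 h7, ?_⟩, h5⟩
    calc w.1 * w.2 ≤ (2 * M) * (2 * N) := Nat.mul_le_mul h2 h4
      _ = 4 * M * N := by ring
  have hmaps : Set.MapsTo (fun w : ℕ × ℕ => w.1 * w.2) (W : Set (ℕ × ℕ)) (K : Set ℕ) :=
    fun w hw => Finset.mem_coe.2 (hmem w (Finset.mem_coe.1 hw)).2.2
  have hcard := Finset.card_eq_sum_card_fiberwise hmaps
  have hfib : ∀ k ∈ K, ((W.filter (fun w => w.1 * w.2 = k)).card : ℝ) ≤ T := by
    intro k hk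
    rw [hK, Finset.mem_filter, Finset.mem_Ioc] at hk
    obtain ⟨⟨hk1, hk2⟩, -⟩ := hk
    have h1 : (W.filter (fun w => w.1 * w.2 = k)).card ≤ k.divisors.card := by
      refine Finset.card_le_card_of_injOn (fun w : ℕ × ℕ => w.1) ?_ ?_
      · intro w hw
        rw [Finset.mem_coe, Finset.mem_filter] at hw
        exact Finset.mem_coe.2 (Nat.mem_divisors.2 ⟨⟨w.2, hw.2.symm⟩, by omega⟩)
      · intro w hw w' hw' he
        rw [Finset.mem_coe, Finset.mem_filter] at hw hw'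
        have he' : w.1 = w'.1 := he
        refine Prod.ext he' ?_
        have h2 := (hmem w hw.1).1
        have h3 : w.1 * w.2 = w.1 * w'.2 := by rw [hw.2, he', hw'.2]
        exact Nat.eq_of_mul_eq_mul_left h2 h3
    have h2 : (k : ℝ) ≤ X := by
      refine le_trans ?_ hX
      have : (k : ℝ) ≤ ((4 * M * N : ℕ) : ℝ) := by exact_mod_cast hk2
      push_cast at this
      linarith
    exact le_trans (by exact_mod_cast h1) (hT.2.2 k hk1 h2)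
  have h1 : (W.card : ℝ) ≤ (K.card : ℝ) * T := by
    rw [hcard, Nat.cast_sum]
    refine (Finset.sum_le_sum hfib).trans (le_of_eq ?_)
    rw [Finset.sum_const, nsmul_eq_mul]
  have h2 := Brg_count t 0 (4 * M * N) a ht (Nat.zero_le _)
  refine h1.trans ?_
  rw [mul_comm]
  refine mul_le_mul_of_nonneg_left (h2.trans (le_of_eq ?_)) hT0
  push_cast
  ring

/-- pairs with product in a class modulo t and divisible by the prime p -/
private lemma Brg_pairs2 {X T z : ℝ} (hT : Tau X T) (hz : 1 ≤ z) (a : ℤ) (M N t p : ℕ) (ht : 1 ≤ t) (htp : t.Coprime p)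
    (hp : z < p) (hX : 4 * (M : ℝ) * N ≤ X) :
    (((Ioc M (2 * M) ×ˢ Ioc N (2 * N)).filter
      (fun w => (t : ℤ) ∣ ((w.1 * w.2 : ℕ) : ℤ) - a ∧ p ∣ w.1 * w.2)).card : ℝ) ≤
      T * (4 * ((M : ℝ) * N) / (t * z) + 1) := by
  have hT1 := hT.1
  have hpR : (0 : ℝ) < p := by linarith
  have hp0 : 0 < p := by exact_mod_cast hpR
  have htR : (1 : ℝ) ≤ t := by exact_mod_cast ht
  -- the class modulo t p
  obtain ⟨c, hc1, hc2⟩ : ∃ c : ℤ, (t : ℤ) ∣ c - a ∧ (p : ℤ) ∣ c := by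
    have hco : IsCoprime (t : ℤ) (p : ℤ) := Nat.isCoprime_iff_coprime.2 htp
    obtain ⟨x, y, hxy⟩ := hco
    refine ⟨a * (y * p), ⟨-(a * x), ?_⟩, ⟨a * y, by ring⟩⟩
    have : y * (p : ℤ) = 1 - x * t := by linarith
    rw [this]
    ring
  have hsub : (Ioc M (2 * M) ×ˢ Ioc N (2 * N)).filter
      (fun w => (t : ℤ) ∣ ((w.1 * w.2 : ℕ) : ℤ) - a ∧ p ∣ w.1 * w.2) ⊆
      (Ioc M (2 * M) ×ˢ Ioc N (2 * N)).filter
      (fun w => ((t * p : ℕ) : ℤ) ∣ ((w.1 * w.2 : ℕ) : ℤ) - c) := by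
    intro w hw
    rw [mem_filter] at hw ⊢
    refine ⟨hw.1, ?_⟩
    have h1 : (t : ℤ) ∣ ((w.1 * w.2 : ℕ) : ℤ) - c := by
      have := dvd_sub hw.2.1 hc1
      have e : ((w.1 * w.2 : ℕ) : ℤ) - a - (c - a) = ((w.1 * w.2 : ℕ) : ℤ) - c := by ring
      rwa [e] at this
    have h2 : (p : ℤ) ∣ ((w.1 * w.2 : ℕ) : ℤ) - c :=
      dvd_sub (Int.natCast_dvd_natCast.2 hw.2.2) hc2
    push_cast at h1 h2 ⊢
    exact IsCoprime.mul_dvd (Nat.isCoprime_iff_coprime.2 htp) h1 h2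
  have h3 := Brg_pairs hT c M N (t * p) (Nat.mul_pos ht hp0) hX
  have h4 : 4 * ((M : ℝ) * N) / ((t * p : ℕ) : ℝ) ≤ 4 * ((M : ℝ) * N) / (t * z) := by
    push_cast
    refine div_le_div_of_nonneg_left (by positivity) (by positivity) ?_
    exact mul_le_mul_of_nonneg_left hp.le (by linarith)
  have h5 : (((Ioc M (2 * M) ×ˢ Ioc N (2 * N)).filter
      (fun w => (t : ℤ) ∣ ((w.1 * w.2 : ℕ) : ℤ) - a ∧ p ∣ w.1 * w.2)).card : ℝ) ≤
      (((Ioc M (2 * M) ×ˢ Ioc N (2 * N)).filter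
      (fun w => ((t * p : ℕ) : ℤ) ∣ ((w.1 * w.2 : ℕ) : ℤ) - c)).card : ℝ) := by
    exact_mod_cast card_le_card hsub
  refine h5.trans (h3.trans ?_)
  exact mul_le_mul_of_nonneg_left (by linarith) (by linarith)

/-- one triple -/
private lemma Brg_one (h1 : Pool.Agent.Lib.MI.BphStmt) {X T z : ℝ} (hT : Tau X T) (hz : 1 ≤ z) (a : ℤ) (M N t u s : ℕ)
    (ht : 1 ≤ t) (hs : 1 ≤ s) (hsX : (s : ℝ) ≤ X) (hco : t.Coprime s)
    (hp : ∀ p : ℕ, p.Prime → p ∣ s → z < p) (hX : 4 * (M : ℝ) * N ≤ X) :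
    ∑ m ∈ Ioc M (2 * M), ∑ n ∈ Ioc N (2 * N),
      (if (t : ℤ) ∣ ((m * n : ℕ) : ℤ) - a then 1 else 0) * (1 / (u.totient : ℝ)) *
        ((1 / (s.totient : ℝ) - 1 / (s : ℝ)) + (if (m * n).Coprime s then 0 else 1 / (s : ℝ))) ≤
      (1 / (u.totient : ℝ)) * (1 / (s : ℝ)) * (T ^ 3 * (12 * ((M : ℝ) * N / z) * (1 / (t : ℝ)) + 3)) := by
  have hT1 := hT.1
  have hz0 : 0 < z := by linarith
  have hsR : (1 : ℝ) ≤ s := by exact_mod_cast hs
  have htR : (1 : ℝ) ≤ t := by exact_mod_cast ht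
  have hphi := h1 X T z s hT hz hs hsX hp
  set W := Ioc M (2 * M) ×ˢ Ioc N (2 * N) with hW
  have hterm : ∀ w ∈ W, (if (t : ℤ) ∣ ((w.1 * w.2 : ℕ) : ℤ) - a then (1 : ℝ) else 0) * (1 / (u.totient : ℝ)) *
        ((1 / (s.totient : ℝ) - 1 / (s : ℝ)) + (if (w.1 * w.2).Coprime s then 0 else 1 / (s : ℝ))) ≤
      (1 / (u.totient : ℝ)) * (1 / (s : ℝ)) * ((2 * T ^ 2 / z) * (if (t : ℤ) ∣ ((w.1 * w.2 : ℕ) : ℤ) - a then 1 else 0) +
        ∑ p ∈ s.primeFactors, if ((t : ℤ) ∣ ((w.1 * w.2 : ℕ) : ℤ) - a ∧ p ∣ w.1 * w.2) then 1 else 0) := by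
    intro w hw
    have h0 : (0 : ℝ) ≤ ∑ p ∈ s.primeFactors, if ((t : ℤ) ∣ ((w.1 * w.2 : ℕ) : ℤ) - a ∧ p ∣ w.1 * w.2) then (1 : ℝ) else 0 :=
      Finset.sum_nonneg fun p _ => by split_ifs <;> norm_num
    by_cases hd : (t : ℤ) ∣ ((w.1 * w.2 : ℕ) : ℤ) - a
    · rw [if_pos hd, one_mul, mul_assoc (1 / (u.totient : ℝ))]
      refine mul_le_mul_of_nonneg_left ?_ (by positivity)
      have e1 : 2 * T ^ 2 / (z * (s : ℝ)) = (1 / (s : ℝ)) * (2 * T ^ 2 / z) := by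
        field_simp
      have e2 : (if (w.1 * w.2).Coprime s then (0 : ℝ) else 1 / (s : ℝ)) ≤
          (1 / (s : ℝ)) * ∑ p ∈ s.primeFactors, if ((t : ℤ) ∣ ((w.1 * w.2 : ℕ) : ℤ) - a ∧ p ∣ w.1 * w.2) then (1 : ℝ) else 0 := by
        split_ifs with hc
        · exact mul_nonneg (by positivity) h0
        · obtain ⟨p, hp0, hp1, hp2⟩ := Nat.Prime.not_coprime_iff_dvd.1 hc
          have h5 : (1 : ℝ) ≤ ∑ p ∈ s.primeFactors, if ((t : ℤ) ∣ ((w.1 * w.2 : ℕ) : ℤ) - a ∧ p ∣ w.1 * w.2) then (1 : ℝ) else 0 := by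
            refine le_trans (le_of_eq ?_) (Finset.single_le_sum
              (f := fun p => if ((t : ℤ) ∣ ((w.1 * w.2 : ℕ) : ℤ) - a ∧ p ∣ w.1 * w.2) then (1 : ℝ) else 0) ?_
              (Nat.mem_primeFactors.2 ⟨hp0, hp2, by omega⟩))
            · rw [if_pos ⟨hd, hp1⟩]
            · intro q _
              split_ifs <;> norm_num
          have h6 : (0 : ℝ) ≤ 1 / (s : ℝ) := by positivity
          nlinarith
      have e3 : 1 / (s.totient : ℝ) - 1 / (s : ℝ) ≤ (1 / (s : ℝ)) * (2 * T ^ 2 / z) := by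
        rw [← e1]
        exact hphi
      rw [mul_one]
      linarith [mul_add (1 / (s : ℝ)) (2 * T ^ 2 / z)
        (∑ p ∈ s.primeFactors, if ((t : ℤ) ∣ ((w.1 * w.2 : ℕ) : ℤ) - a ∧ p ∣ w.1 * w.2) then (1 : ℝ) else 0)]
    · rw [if_neg hd, zero_mul, zero_mul]
      have h7 : (0 : ℝ) ≤ (1 / (u.totient : ℝ)) * (1 / (s : ℝ)) := by positivity
      refine mul_nonneg h7 ?_
      linarith
  rw [← Finset.sum_product' (Ioc M (2 * M)) (Ioc N (2 * N)) (fun m n =>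
    (if (t : ℤ) ∣ ((m * n : ℕ) : ℤ) - a then (1 : ℝ) else 0) * (1 / (u.totient : ℝ)) *
        ((1 / (s.totient : ℝ) - 1 / (s : ℝ)) + (if (m * n).Coprime s then 0 else 1 / (s : ℝ))))]
  refine (Finset.sum_le_sum hterm).trans ?_
  rw [← Finset.mul_sum]
  refine mul_le_mul_of_nonneg_left ?_ (by positivity)
  rw [Finset.sum_add_distrib, ← Finset.mul_sum, Finset.sum_comm]
  have c1 : ∑ w ∈ W, (if (t : ℤ) ∣ ((w.1 * w.2 : ℕ) : ℤ) - a then (1 : ℝ) else 0) ≤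
      T * (4 * ((M : ℝ) * N) / t + 1) := by
    rw [← Finset.sum_filter, Finset.sum_const, nsmul_eq_mul, mul_one]
    exact Brg_pairs hT a M N t ht hX
  have c2 : ∑ p ∈ s.primeFactors, ∑ w ∈ W,
      (if ((t : ℤ) ∣ ((w.1 * w.2 : ℕ) : ℤ) - a ∧ p ∣ w.1 * w.2) then (1 : ℝ) else 0) ≤
      T * (T * (4 * ((M : ℝ) * N) / (t * z) + 1)) := by
    have c3 : ∀ p ∈ s.primeFactors, ∑ w ∈ W,
        (if ((t : ℤ) ∣ ((w.1 * w.2 : ℕ) : ℤ) - a ∧ p ∣ w.1 * w.2) then (1 : ℝ) else 0) ≤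
        T * (4 * ((M : ℝ) * N) / (t * z) + 1) := by
      intro p hpm
      rw [← Finset.sum_filter, Finset.sum_const, nsmul_eq_mul, mul_one]
      have hpp := Nat.prime_of_mem_primeFactors hpm
      have hps := Nat.dvd_of_mem_primeFactors hpm
      exact Brg_pairs2 hT hz a M N t p ht (Nat.Coprime.coprime_dvd_right hps hco) (hp p hpp hps) hX
    refine (Finset.sum_le_sum c3).trans ?_
    rw [Finset.sum_const, nsmul_eq_mul]
    refine mul_le_mul_of_nonneg_right ?_ (by positivity)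
    have h4 : s.primeFactors.card ≤ s.divisors.card := by
      refine card_le_card fun p hp => ?_
      exact Nat.mem_divisors.2 ⟨Nat.dvd_of_mem_primeFactors hp, by omega⟩
    exact le_trans (by exact_mod_cast h4) (hT.2.2 s hs hsX)
  have c4 := mul_le_mul_of_nonneg_left c1 (show (0 : ℝ) ≤ 2 * T ^ 2 / z by positivity)
  have e5 : (M : ℝ) * N / z * (1 / (t : ℝ)) = (M : ℝ) * N / (t * z) := by
    field_simp
  have hE : 0 ≤ (M : ℝ) * N / (t * z) := by positivity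
  have c5 : 2 * T ^ 2 / z * (T * (4 * ((M : ℝ) * N) / t + 1)) ≤ T ^ 3 * (8 * ((M : ℝ) * N / (t * z)) + 2) := by
    have e6 : 2 * T ^ 2 / z * (T * (4 * ((M : ℝ) * N) / t + 1)) =
        T ^ 3 * (8 * ((M : ℝ) * N / (t * z)) + 2 * (1 / z)) := by
      field_simp
      ring
    rw [e6]
    have e7 : 1 / z ≤ 1 := by
      rw [div_le_one hz0]
      exact hz
    have e8 : 0 ≤ T ^ 3 := by positivity
    nlinarith
  have c6 : T * (T * (4 * ((M : ℝ) * N) / (t * z) + 1)) ≤ T ^ 3 * (4 * ((M : ℝ) * N / (t * z)) + 1) := by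
    have e9 : T * (T * (4 * ((M : ℝ) * N) / (t * z) + 1)) = T ^ 2 * (4 * ((M : ℝ) * N / (t * z)) + 1) := by
      ring
    rw [e9]
    exact mul_le_mul_of_nonneg_right (pow_le_pow_right₀ hT1 (by norm_num)) (by linarith)
  calc _ ≤ T ^ 3 * (8 * ((M : ℝ) * N / (t * z)) + 2) + T ^ 3 * (4 * ((M : ℝ) * N / (t * z)) + 1) :=
        add_le_add (c4.trans c5) (c2.trans c6)
    _ = T ^ 3 * (12 * ((M : ℝ) * N / (t * z)) + 3) := by ring
    _ = T ^ 3 * (12 * ((M : ℝ) * N / z) * (1 / (t : ℝ)) + 3) := by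
        rw [← e5]
        ring

theorem tBrg (h1 : Pool.Agent.Lib.MI.BphStmt) : BrgStmt := by
  classical
  intro X T z a D M N G hT hz hM hN hD hX hG
  have hT1 := hT.1
  have hz0 : 0 < z := by linarith
  have hMR : (1 : ℝ) ≤ M := by exact_mod_cast hM
  have hNR : (1 : ℝ) ≤ N := by exact_mod_cast hN
  set E : ℝ := (M : ℝ) * N / z with hE
  have hE0 : 0 ≤ E := by positivity
  have hone : ∀ w ∈ G, ∑ m ∈ Ioc M (2 * M), ∑ n ∈ Ioc N (2 * N),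
      (if (w.1 : ℤ) ∣ ((m * n : ℕ) : ℤ) - a w then 1 else 0) * (1 / (w.2.1.totient : ℝ)) *
        ((1 / (w.2.2.totient : ℝ) - 1 / (w.2.2 : ℝ)) +
          (if (m * n).Coprime w.2.2 then 0 else 1 / (w.2.2 : ℝ))) ≤
      (1 / (w.2.1.totient : ℝ)) * (1 / (w.2.2 : ℝ)) * (T ^ 3 * (12 * E * (1 / (w.1 : ℝ)) + 3)) := by
    intro w hw
    obtain ⟨g1, g2, g3, g4, g5, g6, g7, g8⟩ := hG w hw
    exact Brg_one h1 hT hz (a w) M N w.1 w.2.1 w.2.2 g1 g3 (le_trans (by exact_mod_cast g6) hD) g7 g8 hX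
  refine (Finset.sum_le_sum hone).trans ?_
  have hsub : G ⊆ Icc 1 D ×ˢ (Icc 1 D ×ˢ Icc 1 D) := by
    intro w hw
    obtain ⟨g1, g2, g3, g4, g5, g6, g7, g8⟩ := hG w hw
    rw [mem_product, mem_product, mem_Icc, mem_Icc, mem_Icc]
    exact ⟨⟨g1, g4⟩, ⟨g2, g5⟩, g3, g6⟩
  refine (Finset.sum_le_sum_of_subset_of_nonneg hsub fun w _ _ => by positivity).trans ?_
  have hfac : ∑ w ∈ Icc 1 D ×ˢ (Icc 1 D ×ˢ Icc 1 D),
      (1 / (w.2.1.totient : ℝ)) * (1 / (w.2.2 : ℝ)) * (T ^ 3 * (12 * E * (1 / (w.1 : ℝ)) + 3)) =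
      (∑ t ∈ Icc 1 D, (T ^ 3 * (12 * E * (1 / (t : ℝ)) + 3))) *
        ((∑ u ∈ Icc 1 D, 1 / (u.totient : ℝ)) * ∑ s ∈ Icc 1 D, 1 / (s : ℝ)) := by
    rw [Finset.sum_product, Finset.sum_mul]
    refine Finset.sum_congr rfl fun t _ => ?_
    rw [Finset.sum_product, Finset.sum_mul_sum, Finset.mul_sum]
    refine Finset.sum_congr rfl fun u _ => ?_
    rw [Finset.mul_sum]
    refine Finset.sum_congr rfl fun s _ => ?_
    ring
  rw [hfac]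
  have k1 := Brg_harm hT D hD
  have k2 := Brg_phi hT D hD
  have k3 : ∑ t ∈ Icc 1 D, (T ^ 3 * (12 * E * (1 / (t : ℝ)) + 3)) ≤ T ^ 3 * (12 * E * T + 3 * D) := by
    rw [← Finset.mul_sum, Finset.sum_add_distrib, ← Finset.mul_sum, Finset.sum_const, Nat.card_Icc, nsmul_eq_mul]
    refine mul_le_mul_of_nonneg_left ?_ (by positivity)
    have h5 : ((D + 1 - 1 : ℕ) : ℝ) = D := by rw [Nat.add_sub_cancel]
    rw [h5]
    have h6 : 12 * E * ∑ s ∈ Icc 1 D, 1 / (s : ℝ) ≤ 12 * E * T := mul_le_mul_of_nonneg_left k1 (by positivity)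
    linarith
  have k4 : (∑ u ∈ Icc 1 D, 1 / (u.totient : ℝ)) * ∑ s ∈ Icc 1 D, 1 / (s : ℝ) ≤ T ^ 2 * T :=
    mul_le_mul k2 k1 (Finset.sum_nonneg fun s _ => by positivity) (by positivity)
  have k5 : 0 ≤ (∑ u ∈ Icc 1 D, 1 / (u.totient : ℝ)) * ∑ s ∈ Icc 1 D, 1 / (s : ℝ) :=
    mul_nonneg (Finset.sum_nonneg fun s _ => by positivity) (Finset.sum_nonneg fun s _ => by positivity)
  have k6 : (0 : ℝ) ≤ D := Nat.cast_nonneg D
  refine (mul_le_mul k3 k4 k5 (by positivity)).trans ?_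
  have k7 : T ^ 3 * (12 * E * T + 3 * D) * (T ^ 2 * T) = T ^ 6 * (12 * E * T + 3 * D) := by ring
  rw [k7]
  have k8 : 12 * E * T + 3 * (D : ℝ) ≤ T * (12 * (E + D)) := by nlinarith
  calc T ^ 6 * (12 * E * T + 3 * D) ≤ T ^ 6 * (T * (12 * (E + D))) :=
        mul_le_mul_of_nonneg_left k8 (by positivity)
    _ = 12 * T ^ 7 * (E + D) := by ring

end Pool.Agent.Lib.SL
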