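import Pool.Agent.Lib.MX.Stm
import Pool.Agent.Lib.SL.Brg

/-!
MP_00e23e_nt, directory Lib/SL (THEOREM SL, single lock), module Bge (helper88): the reduction of Ek (a q) (t q) q to
Dl (a q) (t q * u q) (q / (t q * u q)) for arbitrary classes a q: small moduli, large sieve and remainders (adapted from
Lib/MX/Bfi.lean).
-/

namespace Pool.Agent.Lib.SL

open Finset Pool.Agent.Lib.EH3 Pool.Agent.Lib.TB Pool.Agent.Results.MP_00e23e_nt Pool.Agent.Lib.MI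
open Pool.Agent.Lib.MX (Bd Mz En Sp Bd_nonneg Bd_mono rp_le rn_le log_le_T Tau_x)

open Classical in
/-- Module Bge (theorem tBge). Uses: MI.BidStmt, BrgStmt, ML.BlgStmt, MI.LrgStmt. The classes a q are arbitrary; u q is any divisor
of q / t q with t q u q ≤ x^(1/2-ε/2), for the q > x^(1/2-ε/2). -/
def BgeStmt : Prop := ∀ δ ε : ℝ, 0 ≤ δ → δ ≤ 1 / 10 → 0 < ε → ε < 1 / 100 → ∃ (C x0 : ℝ) (A0 : ℕ), 0 ≤ C ∧
  ∀ (τ x T z : ℝ) (a : ℕ → ℤ) (M N : ℕ) (f g : ℕ → ℂ) (F : Finset ℕ) (t u : ℕ → ℕ), x0 ≤ x →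
  Tau (x ^ (30 : ℝ)) T → 1 ≤ z → z ≤ x → N ≤ M → x ^ ((1 : ℝ) / 3 - ε) ≤ N →
  x ^ (1 - ε) ≤ (M : ℝ) * N → (M : ℝ) * N ≤ x → (∀ m, ‖f m‖ ≤ 1) → (∀ n, ‖g n‖ ≤ 1) →
  (∀ q ∈ F, Mz (1 / 2 + δ) τ z x (t q) q ∧ Int.gcd (a q) q = 1) →
  (∀ q ∈ F, x ^ (1 / 2 - ε / 2) < (q : ℝ) → u q ∣ q / t q ∧ ((t q * u q : ℕ) : ℝ) ≤ x ^ (1 / 2 - ε / 2)) →
  ∑ q ∈ F, ‖∑ m ∈ Ioc M (2 * M), ∑ n ∈ Ioc N (2 * N), f m * g n * Ek (a q) (t q) q (m * n)‖ ≤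
    ∑ q ∈ F.filter (fun q : ℕ => x ^ (1 / 2 - ε / 2) < (q : ℝ)), ‖∑ m ∈ Ioc M (2 * M), ∑ n ∈ Ioc N (2 * N),
      f m * g n * Dl (a q) (t q * u q) (q / (t q * u q)) (m * n)‖ + MX.Bd C A0 (ε / 2) x T z

/-- the bracket of the large sieve -/
private lemma Bge_br {x z ε μ : ℝ} {M N D : ℕ} (hx : 1 ≤ x) (hε : ε ≤ 1 / 100) (hz : 1 ≤ z) (hzx : z ≤ x)
    (hμ0 : 0 ≤ μ) (hμ1 : μ ≤ 1) (hμ2 : μ ≤ ε / 2) (hNM : N ≤ M) (hN : x ^ ((1 : ℝ) / 3 - ε) ≤ N)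
    (hMN : (M : ℝ) * N ≤ x) (hD : (D : ℝ) ≤ x ^ (1 / 2 - μ)) :
    Real.sqrt ((M : ℝ) * N) * (Real.sqrt ((M : ℝ) * N) / (⌊z⌋₊ : ℕ) + Real.sqrt M + Real.sqrt N + D) ≤
      5 * (x / z ^ μ) := by
  have hx0 : 0 < x := by linarith
  have hz0 : 0 < z := by linarith
  have hNpos : (0 : ℝ) < N := lt_of_lt_of_le (Real.rpow_pos_of_pos hx0 _) hN
  have hM0 : (0 : ℝ) ≤ M := Nat.cast_nonneg M
  have hNM' : (N : ℝ) ≤ M := by exact_mod_cast hNM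
  have hzm : 0 < z ^ μ := Real.rpow_pos_of_pos hz0 _
  have h1 : Real.sqrt ((M : ℝ) * N) ≤ x ^ ((1 : ℝ) / 2) := by
    rw [← Real.sqrt_eq_rpow]
    exact Real.sqrt_le_sqrt hMN
  have hZ1 : 1 ≤ ⌊z⌋₊ := Nat.one_le_floor_iff _ |>.2 hz
  have hZ1' : (1 : ℝ) ≤ (⌊z⌋₊ : ℕ) := by exact_mod_cast hZ1
  have hZ : z ≤ 2 * (⌊z⌋₊ : ℕ) := by
    have := Nat.lt_floor_add_one z
    linarith
  have hzle : z ^ μ ≤ z := by
    have := Real.rpow_le_rpow_of_exponent_le hz hμ1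
    rwa [Real.rpow_one] at this
  have hxh : 0 ≤ x ^ ((1 : ℝ) / 2) := Real.rpow_nonneg hx0.le _
  have h2 : Real.sqrt ((M : ℝ) * N) / (⌊z⌋₊ : ℕ) ≤ 2 * (x ^ ((1 : ℝ) / 2) / z ^ μ) := by
    rw [div_le_iff₀ (by linarith)]
    have e1 : z ^ μ ≤ 2 * (⌊z⌋₊ : ℕ) := hzle.trans hZ
    calc Real.sqrt ((M : ℝ) * N) ≤ x ^ ((1 : ℝ) / 2) := h1
      _ = x ^ ((1 : ℝ) / 2) / z ^ μ * z ^ μ := by field_simp
      _ ≤ x ^ ((1 : ℝ) / 2) / z ^ μ * (2 * (⌊z⌋₊ : ℕ)) :=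
          mul_le_mul_of_nonneg_left e1 (div_nonneg hxh hzm.le)
      _ = 2 * (x ^ ((1 : ℝ) / 2) / z ^ μ) * (⌊z⌋₊ : ℕ) := by ring
  have hb : x ^ (1 / 2 - μ) ≤ x ^ ((1 : ℝ) / 2) / z ^ μ := by
    have e1 : x ^ (1 / 2 - μ) = x ^ ((1 : ℝ) / 2) * x ^ (-μ) := by
      rw [← Real.rpow_add hx0]
      congr 1
    have e2 : x ^ ((1 : ℝ) / 2) / z ^ μ = x ^ ((1 : ℝ) / 2) * (1 / z ^ μ) := by rw [mul_one_div]
    rw [e1, e2]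
    exact mul_le_mul_of_nonneg_left (rn_le hz hzx hμ0) hxh
  have h3 : Real.sqrt M ≤ x ^ (1 / 2 - μ) := by
    have hM : (M : ℝ) ≤ x ^ ((2 : ℝ) / 3 + ε) := by
      have e1 : x ^ ((2 : ℝ) / 3 + ε) * x ^ ((1 : ℝ) / 3 - ε) = x := by
        rw [← Real.rpow_add hx0]
        have : (2 : ℝ) / 3 + ε + (1 / 3 - ε) = 1 := by ring
        rw [this, Real.rpow_one]
      have e2 : (M : ℝ) * x ^ ((1 : ℝ) / 3 - ε) ≤ x ^ ((2 : ℝ) / 3 + ε) * x ^ ((1 : ℝ) / 3 - ε) := by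
        rw [e1]
        exact (mul_le_mul_of_nonneg_left hN hM0).trans hMN
      exact le_of_mul_le_mul_right e2 (Real.rpow_pos_of_pos hx0 _)
    have hM2 : (M : ℝ) ≤ (x ^ (1 / 2 - μ)) ^ 2 := by
      refine hM.trans ?_
      rw [← Real.rpow_natCast, ← Real.rpow_mul hx0.le]
      refine Real.rpow_le_rpow_of_exponent_le hx ?_
      push_cast
      linarith
    exact Real.sqrt_le_iff.2 ⟨Real.rpow_nonneg hx0.le _, hM2⟩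
  have h4 : Real.sqrt N ≤ x ^ (1 / 2 - μ) := (Real.sqrt_le_sqrt hNM').trans h3
  calc Real.sqrt ((M : ℝ) * N) * (Real.sqrt ((M : ℝ) * N) / (⌊z⌋₊ : ℕ) + Real.sqrt M + Real.sqrt N + D)
      ≤ x ^ ((1 : ℝ) / 2) * (2 * (x ^ ((1 : ℝ) / 2) / z ^ μ) + x ^ ((1 : ℝ) / 2) / z ^ μ +
          x ^ ((1 : ℝ) / 2) / z ^ μ + x ^ ((1 : ℝ) / 2) / z ^ μ) := by
        refine mul_le_mul h1 ?_ ?_ hxh
        · linarith
        · positivity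
    _ = 5 * (x ^ ((1 : ℝ) / 2) * x ^ ((1 : ℝ) / 2)) / z ^ μ := by ring
    _ = 5 * (x / z ^ μ) := by
        rw [← Real.rpow_add hx0]
        have : (1 : ℝ) / 2 + 1 / 2 = 1 := by norm_num
        rw [this, Real.rpow_one]
        ring

/-- small moduli -/
private lemma Bge_small {C T : ℝ} {A : ℕ} (hL : ∀ (X T : ℝ) (Z D M N : ℕ) (a : ℕ × ℕ → ℤ) (W : Finset (ℕ × ℕ))
    (α β : ℕ → ℂ), Tau X T → 1 ≤ Z → 1 ≤ M → 1 ≤ N → (D : ℝ) ≤ X → (M : ℝ) ≤ X → (N : ℝ) ≤ X →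
    (∀ w ∈ W, 1 ≤ w.1 ∧ 1 ≤ w.2 ∧ Squarefree (w.1 * w.2) ∧ w.1 * w.2 ≤ D ∧ Int.gcd (a w) ((w.1 * w.2 : ℕ) : ℤ) = 1 ∧
      ∀ p : ℕ, p.Prime → p ∣ w.2 → Z < p) → (∀ m, ‖α m‖ ≤ 1) → (∀ n, ‖β n‖ ≤ 1) →
    ∑ w ∈ W, ‖∑ m ∈ Ioc M (2 * M), ∑ n ∈ Ioc N (2 * N), α m * β n * Ek (a w) w.1 (w.1 * w.2) (m * n)‖ ≤
      C * T ^ A * (Real.sqrt ((M : ℝ) * N) * (Real.sqrt ((M : ℝ) * N) / Z + Real.sqrt M + Real.sqrt N + D)))
    {X z : ℝ} (hT : Tau X T) {Z D M N : ℕ} {a : ℕ → ℤ} {F : Finset ℕ} {t : ℕ → ℕ} {f g : ℕ → ℂ}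
    (hZ : 1 ≤ Z) (hZz : (Z : ℝ) ≤ z) (hM : 1 ≤ M) (hN : 1 ≤ N) (hD : (D : ℝ) ≤ X) (hMX : (M : ℝ) ≤ X)
    (hNX : (N : ℝ) ≤ X) (hf : ∀ m, ‖f m‖ ≤ 1) (hg : ∀ n, ‖g n‖ ≤ 1)
    (hF : ∀ q ∈ F, Squarefree q ∧ t q ∣ q ∧ q ≤ D ∧ Int.gcd (a q) q = 1 ∧ ∀ p : ℕ, p.Prime → p ∣ q / t q → z < p) :
    ∑ q ∈ F, ‖∑ m ∈ Ioc M (2 * M), ∑ n ∈ Ioc N (2 * N), f m * g n * Ek (a q) (t q) q (m * n)‖ ≤
      C * T ^ A * (Real.sqrt ((M : ℝ) * N) * (Real.sqrt ((M : ℝ) * N) / Z + Real.sqrt M + Real.sqrt N + D)) := by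
  have hmul : ∀ q ∈ F, t q * (q / t q) = q := fun q hq => Nat.mul_div_cancel' (hF q hq).2.1
  have key : ∑ w ∈ F.image (fun q => (t q, q / t q)),
      ‖∑ m ∈ Ioc M (2 * M), ∑ n ∈ Ioc N (2 * N), f m * g n * Ek (a (w.1 * w.2)) w.1 (w.1 * w.2) (m * n)‖ =
      ∑ q ∈ F, ‖∑ m ∈ Ioc M (2 * M), ∑ n ∈ Ioc N (2 * N), f m * g n * Ek (a q) (t q) q (m * n)‖ := by
    rw [sum_image]
    · refine sum_congr rfl fun q hq => ?_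
      simp only
      rw [hmul q hq]
    · intro q hq q' hq' h
      have h' := Prod.mk.inj h
      have h3 : t q * (q / t q) = t q' * (q' / t q') := by rw [h'.2, h'.1]
      rwa [hmul q hq, hmul q' hq'] at h3
  rw [← key]
  refine hL X T Z D M N (fun w => a (w.1 * w.2)) _ f g hT hZ hM hN hD hMX hNX ?_ hf hg
  intro w hw
  rw [mem_image] at hw
  obtain ⟨q, hq, rfl⟩ := hw
  obtain ⟨h1, h2, h3, h4, h5⟩ := hF q hq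
  have hq0 : 0 < q := Nat.pos_of_ne_zero h1.ne_zero
  simp only
  rw [hmul q hq]
  refine ⟨Nat.pos_of_dvd_of_pos h2 hq0, Nat.div_pos (Nat.le_of_dvd hq0 h2) (Nat.pos_of_dvd_of_pos h2 hq0), h1, h3,
    h4, fun p hp hpd => ?_⟩
  have := h5 p hp hpd
  exact_mod_cast (lt_of_le_of_lt hZz this)

/-- the decomposition of one modulus -/
private lemma Bge_one (h2 : MI.BidStmt) {a : ℤ} {t u s M N : ℕ} {f g : ℕ → ℂ} (ht : 1 ≤ t) (hu : 1 ≤ u) (hs : 1 ≤ s)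
    (hsq : Squarefree (t * u * s)) (hf : ∀ m, ‖f m‖ ≤ 1) (hg : ∀ n, ‖g n‖ ≤ 1) :
    ‖∑ m ∈ Ioc M (2 * M), ∑ n ∈ Ioc N (2 * N), f m * g n * Ek a t (t * u * s) (m * n)‖ ≤
      ‖∑ m ∈ Ioc M (2 * M), ∑ n ∈ Ioc N (2 * N), f m * g n * Dl a (t * u) s (m * n)‖ +
      (1 / (s : ℝ)) * ‖∑ m ∈ Ioc M (2 * M), ∑ n ∈ Ioc N (2 * N), f m * g n * Ek a t (t * u) (m * n)‖ +
      ∑ m ∈ Ioc M (2 * M), ∑ n ∈ Ioc N (2 * N),
        (if (t : ℤ) ∣ ((m * n : ℕ) : ℤ) - a then 1 else 0) * (1 / (u.totient : ℝ)) *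
          ((1 / (s.totient : ℝ) - 1 / (s : ℝ)) + (if (m * n).Coprime s then 0 else 1 / (s : ℝ))) := by
  have e1 : ∑ m ∈ Ioc M (2 * M), ∑ n ∈ Ioc N (2 * N), f m * g n * Ek a t (t * u * s) (m * n) =
      ∑ m ∈ Ioc M (2 * M), ∑ n ∈ Ioc N (2 * N), f m * g n * Dl a (t * u) s (m * n) +
      (1 / (s : ℂ)) * ∑ m ∈ Ioc M (2 * M), ∑ n ∈ Ioc N (2 * N), f m * g n * Ek a t (t * u) (m * n) +
      ∑ m ∈ Ioc M (2 * M), ∑ n ∈ Ioc N (2 * N), f m * g n *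
        (Ek a t (t * u * s) (m * n) - Dl a (t * u) s (m * n) - (1 / (s : ℂ)) * Ek a t (t * u) (m * n)) := by
    rw [mul_sum, ← sum_add_distrib, ← sum_add_distrib]
    refine sum_congr rfl fun m _ => ?_
    rw [mul_sum, ← sum_add_distrib, ← sum_add_distrib]
    refine sum_congr rfl fun n _ => ?_
    ring
  rw [e1]
  refine (norm_add_le _ _).trans (add_le_add ((norm_add_le _ _).trans (add_le_add le_rfl ?_)) ?_)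
  · rw [norm_mul, norm_div, norm_one, Complex.norm_natCast]
  · refine (norm_sum_le _ _).trans (sum_le_sum fun m _ => (norm_sum_le _ _).trans (sum_le_sum fun n _ => ?_))
    rw [norm_mul, norm_mul]
    have hb := h2 a t u s (m * n) ht hu hs hsq
    have hfg : ‖f m‖ * ‖g n‖ ≤ 1 := mul_le_one₀ (hf m) (norm_nonneg _) (hg n)
    calc ‖f m‖ * ‖g n‖ * ‖Ek a t (t * u * s) (m * n) - Dl a (t * u) s (m * n) - (1 / (s : ℂ)) * Ek a t (t * u) (m * n)‖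
        ≤ 1 * ‖Ek a t (t * u * s) (m * n) - Dl a (t * u) s (m * n) - (1 / (s : ℂ)) * Ek a t (t * u) (m * n)‖ :=
          mul_le_mul_of_nonneg_right hfg (norm_nonneg _)
      _ ≤ _ := by
          rw [one_mul]
          exact hb

/-- large moduli -/
private lemma Bge_large (h2 : MI.BidStmt) (h3 : BrgStmt) {Cb T : ℝ} {Ab : ℕ}
    (hB : ∀ (X T : ℝ) (a : ℕ × ℕ → ℤ) (Z D M N : ℕ) (G : Finset (ℕ × ℕ × ℕ))
    (f g : ℕ → ℂ), Tau X T → 1 ≤ X → 1 ≤ Z → 1 ≤ M → 1 ≤ N → (D : ℝ) ≤ X → (M : ℝ) ≤ X → (N : ℝ) ≤ X →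
    (∀ w ∈ G, 1 ≤ w.1 ∧ 1 ≤ w.2.1 ∧ 1 ≤ w.2.2 ∧ (w.2.2 : ℝ) ≤ X ∧ Squarefree (w.1 * w.2.1) ∧ w.1 * w.2.1 ≤ D ∧
      Int.gcd (a (w.1, w.2.1)) ((w.1 * w.2.1 : ℕ) : ℤ) = 1 ∧ ∀ p : ℕ, p.Prime → p ∣ w.2.1 → Z < p) →
    (∀ m, ‖f m‖ ≤ 1) → (∀ n, ‖g n‖ ≤ 1) →
    ∑ w ∈ G, (1 / (w.2.2 : ℝ)) *
        ‖∑ m ∈ Ioc M (2 * M), ∑ n ∈ Ioc N (2 * N), f m * g n * Ek (a (w.1, w.2.1)) w.1 (w.1 * w.2.1) (m * n)‖ ≤
      Cb * T ^ Ab * (Real.sqrt ((M : ℝ) * N) * (Real.sqrt ((M : ℝ) * N) / Z + Real.sqrt M + Real.sqrt N + D)))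
    {X z : ℝ} (hT : Tau X T) {Z D D' M N : ℕ} {a : ℕ → ℤ} {F : Finset ℕ} {t u s : ℕ → ℕ} {f g : ℕ → ℂ}
    (hZ : 1 ≤ Z) (hZz : (Z : ℝ) ≤ z) (hM : 1 ≤ M) (hN : 1 ≤ N) (hD : (D : ℝ) ≤ X)
    (hD' : (D' : ℝ) ≤ X) (h5 : 5 * ((M : ℝ) * N) ≤ X)
    (hf : ∀ m, ‖f m‖ ≤ 1) (hg : ∀ n, ‖g n‖ ≤ 1)
    (hF : ∀ q ∈ F, Squarefree q ∧ t q ∣ q ∧ q ≤ D' ∧ Int.gcd (a q) q = 1 ∧ (∀ p : ℕ, p.Prime → p ∣ q / t q → z < p) ∧
      q = t q * u q * s q ∧ t q * u q ≤ D) :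
    ∑ q ∈ F, ‖∑ m ∈ Ioc M (2 * M), ∑ n ∈ Ioc N (2 * N), f m * g n * Ek (a q) (t q) q (m * n)‖ ≤
      ∑ q ∈ F, ‖∑ m ∈ Ioc M (2 * M), ∑ n ∈ Ioc N (2 * N), f m * g n * Dl (a q) (t q * u q) (s q) (m * n)‖ +
      Cb * T ^ Ab * (Real.sqrt ((M : ℝ) * N) * (Real.sqrt ((M : ℝ) * N) / Z + Real.sqrt M + Real.sqrt N + D)) +
      12 * T ^ 7 * ((M : ℝ) * N / z + D') := by
  classical
  have hz1 : 1 ≤ z := le_trans (by exact_mod_cast hZ) hZz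
  have hMR : (1 : ℝ) ≤ M := by exact_mod_cast hM
  have hNR : (1 : ℝ) ≤ N := by exact_mod_cast hN
  have hMNR : (1 : ℝ) ≤ M * N := by nlinarith
  have h4X : 4 * (M : ℝ) * N ≤ X := by linarith
  have hX1 : 1 ≤ X := by linarith
  have hMX : (M : ℝ) ≤ X := by nlinarith
  have hNX : (N : ℝ) ≤ X := by nlinarith
  -- facts about one modulus
  have hfac : ∀ q ∈ F, 1 ≤ t q ∧ 1 ≤ u q ∧ 1 ≤ s q ∧ Squarefree (t q * u q * s q) ∧ t q ≤ D' ∧ u q ≤ D' ∧ s q ≤ D' ∧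
      q / t q = u q * s q := by
    intro q hq
    obtain ⟨e1, e2, e3, e4, e5, e6, e7⟩ := hF q hq
    have hq0 : 0 < q := Nat.pos_of_ne_zero e1.ne_zero
    have e8 : 0 < t q * u q * s q := by rw [← e6]; exact hq0
    have ht0 : 0 < t q := Nat.pos_of_ne_zero fun h => by rw [h] at e8; simp at e8
    have hu0 : 0 < u q := Nat.pos_of_ne_zero fun h => by rw [h] at e8; simp at e8
    have hs0 : 0 < s q := Nat.pos_of_ne_zero fun h => by rw [h] at e8; simp at e8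
    refine ⟨ht0, hu0, hs0, by rw [← e6]; exact e1, ?_, ?_, ?_, ?_⟩
    · exact (Nat.le_of_dvd hq0 e2).trans e3
    · exact (Nat.le_of_dvd hq0 ⟨t q * s q, e6.trans (by ring)⟩).trans e3
    · exact (Nat.le_of_dvd hq0 ⟨t q * u q, e6.trans (by ring)⟩).trans e3
    · refine Nat.div_eq_of_eq_mul_right ht0 ?_
      exact e6.trans (mul_assoc _ _ _)
  have hinj : Set.InjOn (fun q => (t q, (u q, s q))) (F : Set ℕ) := by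
    intro q hq q' hq' h
    obtain ⟨e1, e2⟩ := Prod.mk.inj h
    obtain ⟨e3, e4⟩ := Prod.mk.inj e2
    have h3 : t q * u q * s q = t q' * u q' * s q' := by rw [e1, e3, e4]
    rwa [← (hF q hq).2.2.2.2.2.1, ← (hF q' hq').2.2.2.2.2.1] at h3
  -- the worst class for every pair (t, u)
  set V : ℕ → ℕ → ℤ → ℝ := fun t u c =>
    ‖∑ m ∈ Ioc M (2 * M), ∑ n ∈ Ioc N (2 * N), f m * g n * Ek c t (t * u) (m * n)‖ with hV
  obtain ⟨A2, hA2⟩ : ∃ A2 : ℕ × ℕ → ℤ, ∀ q ∈ F, V (t q) (u q) (a q) ≤ V (t q) (u q) (A2 (t q, u q)) ∧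
      Int.gcd (A2 (t q, u q)) ((t q * u q : ℕ) : ℤ) = 1 := by
    have hmax : ∀ w : ℕ × ℕ, ∃ c : ℤ, ∀ q ∈ F, t q = w.1 → u q = w.2 →
        V w.1 w.2 (a q) ≤ V w.1 w.2 c ∧ Int.gcd c ((w.1 * w.2 : ℕ) : ℤ) = 1 := by
      intro w
      rcases (F.filter (fun q => t q = w.1 ∧ u q = w.2)).eq_empty_or_nonempty with h | h
      · refine ⟨0, fun q hq h1 h2 => ?_⟩
        have : q ∈ F.filter (fun q => t q = w.1 ∧ u q = w.2) := mem_filter.2 ⟨hq, h1, h2⟩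
        rw [h] at this
        exact absurd this (notMem_empty q)
      · obtain ⟨q0, hq0, hm⟩ := Finset.exists_max_image _ (fun q => V w.1 w.2 (a q)) h
        rw [mem_filter] at hq0
        refine ⟨a q0, fun q hq h1 h2 => ⟨hm q (mem_filter.2 ⟨hq, h1, h2⟩), ?_⟩⟩
        obtain ⟨e1, e2, e3, e4, e5, e6, e7⟩ := hF q0 hq0.1
        have hd2 : ((w.1 * w.2 : ℕ) : ℤ) ∣ ((q0 : ℕ) : ℤ) := by
          refine Int.natCast_dvd_natCast.2 ⟨s q0, ?_⟩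
          rw [← hq0.2.1, ← hq0.2.2]
          exact e6
        exact Int.isCoprime_iff_gcd_eq_one.1
          ((Int.isCoprime_iff_gcd_eq_one.2 e4).of_isCoprime_of_dvd_right hd2)
    choose c hc using hmax
    exact ⟨c, fun q hq => hc (t q, u q) q hq rfl rfl⟩
  -- the large sieve
  have k1 := hB X T A2 Z D M N (F.image (fun q => (t q, (u q, s q)))) f g hT hX1 hZ hM hN hD hMX hNX (by
    intro w hw
    rw [mem_image] at hw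
    obtain ⟨q, hq, rfl⟩ := hw
    obtain ⟨e1, e2, e3, e4, e5, e6, e7⟩ := hF q hq
    obtain ⟨f1, f2, f3, f4, f5, f6, f7, f8⟩ := hfac q hq
    simp only
    refine ⟨f1, f2, f3, le_trans (by exact_mod_cast f7) hD', Squarefree.squarefree_of_dvd ⟨s q, rfl⟩ f4, e7, ?_,
      fun p hp hpd => ?_⟩
    · exact (hA2 q hq).2
    · have := e5 p hp (by rw [f8]; exact hpd.mul_right _)
      exact_mod_cast (lt_of_le_of_lt hZz this)) hf hg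
  rw [sum_image hinj] at k1
  -- the remainders
  have k2 := h3 X T z (fun w => a (w.1 * w.2.1 * w.2.2)) D' M N (F.image (fun q => (t q, (u q, s q)))) hT hz1 hM hN
    hD' h4X (by
    intro w hw
    rw [mem_image] at hw
    obtain ⟨q, hq, rfl⟩ := hw
    obtain ⟨e1, e2, e3, e4, e5, e6, e7⟩ := hF q hq
    obtain ⟨f1, f2, f3, f4, f5, f6, f7, f8⟩ := hfac q hq
    simp only
    refine ⟨f1, f2, f3, f5, f6, f7, ?_, fun p hp hpd => ?_⟩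
    · have h9 : (t q * u q).Coprime (s q) := Nat.coprime_of_squarefree_mul f4
      exact Nat.Coprime.coprime_mul_right h9
    · exact e5 p hp (by rw [f8]; exact hpd.mul_left _))
  rw [sum_image hinj] at k2
  simp only at k1 k2
  have k3 : ∑ q ∈ F, ‖∑ m ∈ Ioc M (2 * M), ∑ n ∈ Ioc N (2 * N), f m * g n * Ek (a q) (t q) q (m * n)‖ ≤
      ∑ q ∈ F, (‖∑ m ∈ Ioc M (2 * M), ∑ n ∈ Ioc N (2 * N), f m * g n * Dl (a q) (t q * u q) (s q) (m * n)‖ +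
      (1 / (s q : ℝ)) *
        ‖∑ m ∈ Ioc M (2 * M), ∑ n ∈ Ioc N (2 * N), f m * g n * Ek (A2 (t q, u q)) (t q) (t q * u q) (m * n)‖ +
      ∑ m ∈ Ioc M (2 * M), ∑ n ∈ Ioc N (2 * N),
        (if (t q : ℤ) ∣ ((m * n : ℕ) : ℤ) - a (t q * u q * s q) then 1 else 0) * (1 / ((u q).totient : ℝ)) *
          ((1 / ((s q).totient : ℝ) - 1 / (s q : ℝ)) +
            (if (m * n).Coprime (s q) then 0 else 1 / (s q : ℝ)))) := by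
    refine sum_le_sum fun q hq => ?_
    obtain ⟨e1, e2, e3, e4, e5, e6, e7⟩ := hF q hq
    obtain ⟨f1, f2, f3, f4, f5, f6, f7, f8⟩ := hfac q hq
    have h := Bge_one h2 (a := a q) (M := M) (N := N) f1 f2 f3 f4 hf hg
    have hle := (hA2 q hq).1
    simp only [hV] at hle
    have hs0 : (0 : ℝ) ≤ 1 / (s q : ℝ) := by positivity
    rw [← e6] at h ⊢
    exact h.trans (add_le_add (add_le_add le_rfl (mul_le_mul_of_nonneg_left hle hs0)) le_rfl)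
  rw [sum_add_distrib, sum_add_distrib] at k3
  refine k3.trans (add_le_add (add_le_add le_rfl k1) k2)

theorem tBge (h2 : MI.BidStmt) (h3 : BrgStmt) (h4 : ML.BlgStmt) (h5 : MI.LrgStmt) : BgeStmt := by
  classical
  intro δ ε hδ hδ1 hε hε1
  obtain ⟨Cb, hCb, Ab, hB⟩ := h4
  obtain ⟨Cl, hCl, Al, hL⟩ := h5
  obtain ⟨μ, hμ⟩ : ∃ μ : ℝ, μ = ε / 2 := ⟨_, rfl⟩
  have hμ0 : 0 < μ := by rw [hμ]; linarith
  have hμ1 : μ ≤ 1 := by rw [hμ]; linarith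
  have hμ2 : μ ≤ ε / 2 := by rw [hμ]
  obtain ⟨A, hA⟩ : ∃ A : ℕ, A = Al + Ab + 8 := ⟨_, rfl⟩
  refine ⟨5 * Cl + 5 * Cb + 24, 4 ^ 15, A, by positivity, ?_⟩
  intro τ x T z a M N f g F t u hx4 hT hz hzx hNM hN hMN1 hMN2 hf hg hF hu
  have hx2 : 2 ≤ x := by
    refine le_trans ?_ hx4
    norm_num
  have hx1 : 1 ≤ x := by linarith
  have hx0 : 0 < x := by linarith
  have hz0 : 0 < z := by linarith
  have hT1 : 1 ≤ T := hT.1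
  have hNpos : (0 : ℝ) < N := lt_of_lt_of_le (Real.rpow_pos_of_pos hx0 _) hN
  have hN1 : 1 ≤ N := by exact_mod_cast hNpos
  have hM1 : 1 ≤ M := hN1.trans hNM
  have hMR : (1 : ℝ) ≤ M := by exact_mod_cast hM1
  have hNR : (1 : ℝ) ≤ N := by exact_mod_cast hN1
  have hNMR : (N : ℝ) ≤ M := by exact_mod_cast hNM
  have hx10 : x ≤ x ^ (30 : ℝ) := by
    calc x = x ^ (1 : ℝ) := (Real.rpow_one x).symm
      _ ≤ x ^ (30 : ℝ) := Real.rpow_le_rpow_of_exponent_le hx1 (by norm_num)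
  have hMX : (M : ℝ) ≤ x ^ (30 : ℝ) := by nlinarith
  have hNX : (N : ℝ) ≤ x ^ (30 : ℝ) := hNMR.trans hMX
  have hZ1 : 1 ≤ ⌊z⌋₊ := Nat.one_le_floor_iff _ |>.2 hz
  have hZz : ((⌊z⌋₊ : ℕ) : ℝ) ≤ z := Nat.floor_le (by linarith)
  -- sizes of D
  have hD1 : ((⌊x ^ (1 / 2 - ε / 2)⌋₊ : ℕ) : ℝ) ≤ x ^ (1 / 2 - μ) := by
    refine (Nat.floor_le (Real.rpow_nonneg hx0.le _)).trans ?_
    exact Real.rpow_le_rpow_of_exponent_le hx1 (by linarith)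
  have hμX : x ^ (1 / 2 - μ) ≤ x ^ (30 : ℝ) := Real.rpow_le_rpow_of_exponent_le hx1 (by linarith)
  have hD3' : ((⌊x ^ (1 / 2 + δ)⌋₊ : ℕ) : ℝ) ≤ x ^ (1 - μ) := by
    refine (Nat.floor_le (Real.rpow_nonneg hx0.le _)).trans ?_
    exact Real.rpow_le_rpow_of_exponent_le hx1 (by linarith)
  have hD3 : ((⌊x ^ (1 / 2 + δ)⌋₊ : ℕ) : ℝ) ≤ x ^ (30 : ℝ) :=
    hD3'.trans (Real.rpow_le_rpow_of_exponent_le hx1 (by linarith))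
  have h5X : 5 * ((M : ℝ) * N) ≤ x ^ (30 : ℝ) := by
    have e2 : x ^ (30 : ℝ) = x * x ^ (29 : ℕ) := by
      have h10 : (30 : ℝ) = ((30 : ℕ) : ℝ) := by norm_num
      rw [h10, Real.rpow_natCast]
      ring
    have e3 : (5 : ℝ) ≤ x ^ (29 : ℕ) := by
      calc (5 : ℝ) ≤ 2 ^ 29 := by norm_num
        _ ≤ x ^ 29 := pow_le_pow_left₀ (by norm_num) hx2 29
    rw [e2]
    calc 5 * ((M : ℝ) * N) ≤ 5 * x := by linarith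
      _ ≤ x ^ (29 : ℕ) * x := mul_le_mul_of_nonneg_right e3 hx0.le
      _ = x * x ^ (29 : ℕ) := mul_comm _ _
  -- the two parts of F
  obtain ⟨F1, hF1⟩ : ∃ F1 : Finset ℕ, F1 = F.filter (fun q : ℕ => ¬ x ^ (1 / 2 - ε / 2) < (q : ℝ)) := ⟨_, rfl⟩
  obtain ⟨F2, hF2⟩ : ∃ F2 : Finset ℕ, F2 = F.filter (fun q : ℕ => x ^ (1 / 2 - ε / 2) < (q : ℝ)) := ⟨_, rfl⟩
  have hsplit : ∑ q ∈ F, ‖∑ m ∈ Ioc M (2 * M), ∑ n ∈ Ioc N (2 * N), f m * g n * Ek (a q) (t q) q (m * n)‖ =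
      ∑ q ∈ F2, ‖∑ m ∈ Ioc M (2 * M), ∑ n ∈ Ioc N (2 * N), f m * g n * Ek (a q) (t q) q (m * n)‖ +
      ∑ q ∈ F1, ‖∑ m ∈ Ioc M (2 * M), ∑ n ∈ Ioc N (2 * N), f m * g n * Ek (a q) (t q) q (m * n)‖ := by
    rw [hF1, hF2]
    exact (sum_filter_add_sum_filter_not F _ _).symm
  rw [hsplit, ← hF2]
  -- small moduli
  have p1 := Bge_small hL hT (Z := ⌊z⌋₊) (D := ⌊x ^ (1 / 2 - ε / 2)⌋₊) (z := z) (a := a) (F := F1)
    (t := t) (f := f) (g := g) hZ1 hZz hM1 hN1 (hD1.trans hμX) hMX hNX hf hg (by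
      intro q hq
      rw [hF1, mem_filter] at hq
      obtain ⟨⟨e1, e2, e3, e4, e5⟩, e6⟩ := hF q hq.1
      exact ⟨e1, e2, Nat.le_floor (not_lt.1 hq.2), e6, fun p hp hpd => e5 p hp hpd⟩)
  have b1 := Bge_br (D := ⌊x ^ (1 / 2 - ε / 2)⌋₊) hx1 hε1.le hz hzx hμ0.le hμ1 hμ2 hNM hN hMN2 hD1
  -- large moduli
  have p2 := Bge_large h2 h3 hB hT (Z := ⌊z⌋₊) (D := ⌊x ^ (1 / 2 - ε / 2)⌋₊) (D' := ⌊x ^ (1 / 2 + δ)⌋₊)
    (z := z) (a := a) (F := F2) (t := t) (u := u) (s := fun q => q / (t q * u q)) (f := f) (g := g)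
    hZ1 hZz hM1 hN1 (hD1.trans hμX) hD3 h5X hf hg (by
      intro q hq
      rw [hF2, mem_filter] at hq
      obtain ⟨i1, i2⟩ := hq
      obtain ⟨⟨e1, e2, e3, e4, e5⟩, e6⟩ := hF q i1
      obtain ⟨d1, d2⟩ := hu q i1 i2
      have hdvd : t q * u q ∣ q := by
        have h7 := mul_dvd_mul_left (t q) d1
        rwa [Nat.mul_div_cancel' e2] at h7
      exact ⟨e1, e2, Nat.le_floor e3, e6, fun p hp hpd => e5 p hp hpd,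
        (Nat.mul_div_cancel' hdvd).symm, Nat.le_floor d2⟩)
  have hzm : 0 < z ^ μ := Real.rpow_pos_of_pos hz0 _
  have b3 : (M : ℝ) * N / z + ((⌊x ^ (1 / 2 + δ)⌋₊ : ℕ) : ℝ) ≤ 2 * (x / z ^ μ) := by
    have hzle : z ^ μ ≤ z := by
      have := Real.rpow_le_rpow_of_exponent_le hz hμ1
      rwa [Real.rpow_one] at this
    have c1 : (M : ℝ) * N / z ≤ x / z ^ μ := div_le_div₀ hx0.le hMN2 hzm hzle
    have c2 := hD3'.trans (rp_le hz hzx hμ0.le)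
    linarith
  -- powers of T
  have hT0 : 0 ≤ T := by linarith
  have hq0 : 0 ≤ x / z ^ μ := div_nonneg hx0.le hzm.le
  have q2 : T ^ Al ≤ T ^ A := pow_le_pow_right₀ hT1 (by omega)
  have q3 : T ^ Ab ≤ T ^ A := pow_le_pow_right₀ hT1 (by omega)
  have q4 : T ^ 7 ≤ T ^ A := pow_le_pow_right₀ hT1 (by omega)
  have r1 : Cl * T ^ Al * (Real.sqrt ((M : ℝ) * N) * (Real.sqrt ((M : ℝ) * N) / (⌊z⌋₊ : ℕ) + Real.sqrt M +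
      Real.sqrt N + (⌊x ^ (1 / 2 - ε / 2)⌋₊ : ℕ))) ≤ 5 * Cl * (T ^ A * (x / z ^ μ)) := by
    calc _ ≤ Cl * T ^ A * (5 * (x / z ^ μ)) := by
          refine mul_le_mul ?_ b1 (by positivity) (by positivity)
          exact mul_le_mul_of_nonneg_left q2 hCl.le
      _ = 5 * Cl * (T ^ A * (x / z ^ μ)) := by ring
  have r2 : Cb * T ^ Ab * (Real.sqrt ((M : ℝ) * N) * (Real.sqrt ((M : ℝ) * N) / (⌊z⌋₊ : ℕ) + Real.sqrt M +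
      Real.sqrt N + (⌊x ^ (1 / 2 - ε / 2)⌋₊ : ℕ))) ≤ 5 * Cb * (T ^ A * (x / z ^ μ)) := by
    calc _ ≤ Cb * T ^ A * (5 * (x / z ^ μ)) := by
          refine mul_le_mul ?_ b1 (by positivity) (by positivity)
          exact mul_le_mul_of_nonneg_left q3 hCb.le
      _ = 5 * Cb * (T ^ A * (x / z ^ μ)) := by ring
  have r3 : 12 * T ^ 7 * ((M : ℝ) * N / z + ((⌊x ^ (1 / 2 + δ)⌋₊ : ℕ) : ℝ)) ≤ 24 * (T ^ A * (x / z ^ μ)) := by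
    calc _ ≤ 12 * T ^ A * (2 * (x / z ^ μ)) := by
          refine mul_le_mul ?_ b3 (by positivity) (by positivity)
          exact mul_le_mul_of_nonneg_left q4 (by norm_num)
      _ = 24 * (T ^ A * (x / z ^ μ)) := by ring
  have r4 : MX.Bd (5 * Cl + 5 * Cb + 24) A (ε / 2) x T z =
      5 * Cl * (T ^ A * (x / z ^ μ)) + 5 * Cb * (T ^ A * (x / z ^ μ)) + 24 * (T ^ A * (x / z ^ μ)) := by
    unfold MX.Bd
    rw [hμ]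
    ring
  rw [r4]
  linarith [p1.trans r1]

end Pool.Agent.Lib.SL
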