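import Pool.Agent.Lib.SL.SpecC

set_option autoImplicit false

/-!
MP_00e23e_nt, project SL, chapter C part 1: module Cdc, the pairs with Theta = 0 (helper93).
-/

namespace Pool.Agent.Lib.SL

open Finset Pool.Agent.Lib.EH3 Pool.Agent.Lib.TB Pool.Agent.Results.MP_00e23e_nt Pool.Agent.Lib.MI

/-- the product of the three first inner variables -/
private def Cdc_A (x : ℕ × ℕ × ℕ × ℤ) : ℕ := x.1 * x.2.1 * x.2.2.1

private theorem Cdc_Zcard (M m : ℕ) (hm : 1 ≤ m) :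
    (((Icc (-(M : ℤ)) (M : ℤ)).filter (fun Z => Z ≠ 0 ∧ (m : ℤ) ∣ Z)).card : ℝ) ≤
      2 * ((M : ℝ) / m) := by
  have h1 : (Icc (-(M : ℤ)) (M : ℤ)).filter (fun Z => Z ≠ 0 ∧ (m : ℤ) ∣ Z) ⊆
      ((Icc (-((M / m : ℕ) : ℤ)) ((M / m : ℕ) : ℤ)).erase 0).image (fun k => (m : ℤ) * k) := by
    intro Z hZ
    rw [mem_filter, mem_Icc] at hZ
    obtain ⟨⟨hZ1, hZ2⟩, hZ0, k, hk⟩ := hZ
    have hmpos : (0 : ℤ) < m := by exact_mod_cast hm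
    rw [mem_image]
    refine ⟨k, ?_, hk.symm⟩
    rw [mem_erase, mem_Icc]
    refine ⟨?_, ?_, ?_⟩
    · intro h0
      apply hZ0
      rw [hk, h0, mul_zero]
    · have : -k ≤ ((M / m : ℕ) : ℤ) := by
        push_cast
        rw [Int.le_ediv_iff_mul_le hmpos]
        nlinarith
      linarith
    · push_cast
      rw [Int.le_ediv_iff_mul_le hmpos]
      nlinarith
  have h2 := card_le_card h1
  have h3 : (((Icc (-((M / m : ℕ) : ℤ)) ((M / m : ℕ) : ℤ)).erase 0).image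
      (fun k => (m : ℤ) * k)).card ≤ 2 * (M / m) := by
    refine card_image_le.trans ?_
    generalize M / m = K
    rw [card_erase_of_mem (by rw [mem_Icc]; constructor <;> omega), Int.card_Icc]
    omega
  have h4 : ((M / m : ℕ) : ℝ) ≤ (M : ℝ) / m := Nat.cast_div_le
  have h5 : (((Icc (-(M : ℤ)) (M : ℤ)).filter (fun Z => Z ≠ 0 ∧ (m : ℤ) ∣ Z)).card : ℝ) ≤
      ((2 * (M / m) : ℕ) : ℝ) := by
    exact_mod_cast h2.trans h3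
  refine h5.trans ?_
  push_cast
  have h6 : (((M / m : ℕ)) : ℝ) ≤ (M : ℝ) / m := h4
  linarith

private theorem Cdc_memQQ {R R0 V H m1 m2 : ℕ} {Hs : Finset ℤ} {x : ℕ × ℕ × ℕ × ℤ}
    (hHs : ∀ h ∈ Hs, h ≠ 0 ∧ |h| ≤ (H : ℤ)) (hx : x ∈ QQ R R0 V Hs m1 m2) :
    1 ≤ Cdc_A x ∧ Cdc_A x ≤ (2 * R / R0) * (2 * V) * (2 * V) ∧ m1 * m2 ∣ Cdc_A x ∧
      x.2.2.2 ≠ 0 ∧ |x.2.2.2| ≤ (H : ℤ) ∧ x.1 ∣ Cdc_A x ∧ x.2.1 ∣ Cdc_A x ∧ x.2.2.1 ∣ Cdc_A x := by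
  unfold QQ at hx
  rw [mem_product, mem_product, mem_product, mem_Icc, mem_filter, mem_filter, mem_Ioc, mem_Ioc] at hx
  obtain ⟨⟨hq1, hq2⟩, ⟨⟨hv1, hv1'⟩, hm1⟩, ⟨⟨hv2, hv2'⟩, hm2⟩, hh⟩ := hx
  obtain ⟨hh0, hhH⟩ := hHs _ hh
  unfold Cdc_A
  refine ⟨?_, ?_, ?_, hh0, hhH, ?_, ?_, ?_⟩
  · have h1 : 0 < x.1 := hq1
    have h2 : 0 < x.2.1 := by omega
    have h3 : 0 < x.2.2.1 := by omega
    exact Nat.mul_pos (Nat.mul_pos h1 h2) h3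
  · exact Nat.mul_le_mul (Nat.mul_le_mul hq2 hv1') hv2'
  · rw [mul_assoc]
    exact Dvd.dvd.mul_left (mul_dvd_mul hm1 hm2) _
  · exact Dvd.intro (x.2.1 * x.2.2.1) (by ring)
  · exact Dvd.intro_left (x.1 * x.2.2.1) (by ring)
  · exact Dvd.intro_left (x.1 * x.2.1) rfl

theorem tCdc : CdcStmt := by
  classical
  intro X T R R0 V H m1 m2 Hs hTau hR0 hV hm1 hm2 hHs hX
  obtain ⟨hT1, -, hT3⟩ := hTau
  set Q := QQ R R0 V Hs m1 m2 with hQ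
  set M : ℕ := (2 * R / R0) * (2 * V) * (2 * V) * H with hM
  have hMr : (M : ℝ) ≤ 8 * ((H : ℝ) * R * (V : ℝ) ^ 2 / R0) := by
    have h1 : ((2 * R / R0 : ℕ) : ℝ) ≤ (2 * (R : ℝ)) / R0 := by
      have := @Nat.cast_div_le ℝ _ _ _ (2 * R) R0
      push_cast at this
      exact this
    rw [hM]
    push_cast
    have h2 : (0 : ℝ) ≤ (2 * V) * (2 * V) * H := by positivity
    calc ((2 * R / R0 : ℕ) : ℝ) * (2 * V) * (2 * V) * H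
        = ((2 * R / R0 : ℕ) : ℝ) * ((2 * V) * (2 * V) * H) := by ring
      _ ≤ ((2 * (R : ℝ)) / R0) * ((2 * V) * (2 * V) * H) := mul_le_mul_of_nonneg_right h1 h2
      _ = 8 * ((H : ℝ) * R * (V : ℝ) ^ 2 / R0) := by ring
  have hMX : (M : ℝ) ≤ X := by
    have hR0' : (1 : ℝ) ≤ R0 := by exact_mod_cast hR0
    have h3 : (H : ℝ) * R * (V : ℝ) ^ 2 / R0 ≤ (H : ℝ) * R * (V : ℝ) ^ 2 :=
      div_le_self (by positivity) hR0'
    have h4 : (0 : ℝ) ≤ (H : ℝ) * R * (V : ℝ) ^ 2 := by positivity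
    linarith
  set Zs : Finset ℤ := (Icc (-(M : ℤ)) (M : ℤ)).filter (fun Z => Z ≠ 0 ∧ ((m1 * m2 : ℕ) : ℤ) ∣ Z)
    with hZs
  set D3 : ℤ → Finset (ℕ × ℕ × ℕ) := fun Z =>
    Z.natAbs.divisors ×ˢ (Z.natAbs.divisors ×ˢ Z.natAbs.divisors) with hD3
  set Tg : Finset (Σ _ : ℤ, (ℕ × ℕ × ℕ) × (ℕ × ℕ × ℕ)) := Zs.sigma (fun Z => D3 Z ×ˢ D3 Z) with hTg
  set P : Finset ((ℕ × ℕ × ℕ × ℤ) × (ℕ × ℕ × ℕ × ℤ)) :=
    (Q ×ˢ Q).filter (fun p => Tx p.1 p.2 = 0) with hP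
  have hsum : ∑ x ∈ Q, ∑ x' ∈ Q, (if Tx x x' = 0 then (1 : ℝ) else 0) = (P.card : ℝ) := by
    rw [hP, card_filter, Nat.cast_sum, sum_product]
    refine sum_congr rfl (fun x _ => sum_congr rfl (fun x' _ => ?_))
    split_ifs <;> simp
  have hZ : ∀ p ∈ P, (p.1.2.2.2 * ((Cdc_A p.2 : ℕ) : ℤ) = p.2.2.2.2 * ((Cdc_A p.1 : ℕ) : ℤ)) := by
    intro p hp
    rw [hP, mem_filter] at hp
    have := hp.2
    unfold Tx at this
    unfold Cdc_A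
    linarith
  have hPQ : ∀ p ∈ P, p.1 ∈ Q ∧ p.2 ∈ Q := by
    intro p hp
    rw [hP, mem_filter, mem_product] at hp
    exact hp.1
  have hcard : P.card ≤ Tg.card := by
    refine card_le_card_of_injOn
      (fun p => ⟨p.1.2.2.2 * ((Cdc_A p.2 : ℕ) : ℤ),
        ((p.1.1, p.1.2.1, p.1.2.2.1), (p.2.1, p.2.2.1, p.2.2.2.1))⟩) ?_ ?_
    · intro p hp
      have hp' : p ∈ P := by simpa using hp
      obtain ⟨h1, h2⟩ := hPQ p hp'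
      obtain ⟨a1, a2, a3, a4, a5, a6, a7, a8⟩ := Cdc_memQQ hHs h1
      obtain ⟨b1, b2, b3, b4, b5, b6, b7, b8⟩ := Cdc_memQQ hHs h2
      have hz := hZ p hp'
      have hne : p.1.2.2.2 * ((Cdc_A p.2 : ℕ) : ℤ) ≠ 0 := by
        refine mul_ne_zero a4 ?_
        have : Cdc_A p.2 ≠ 0 := by omega
        exact_mod_cast this
      have hdvd2 : Cdc_A p.2 ∣ (p.1.2.2.2 * ((Cdc_A p.2 : ℕ) : ℤ)).natAbs := by
        rw [Int.natAbs_mul, Int.natAbs_natCast]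
        exact Dvd.intro_left _ rfl
      have hdvd1 : Cdc_A p.1 ∣ (p.1.2.2.2 * ((Cdc_A p.2 : ℕ) : ℤ)).natAbs := by
        rw [hz, Int.natAbs_mul, Int.natAbs_natCast]
        exact Dvd.intro_left _ rfl
      have hna : (p.1.2.2.2 * ((Cdc_A p.2 : ℕ) : ℤ)).natAbs ≠ 0 := Int.natAbs_ne_zero.mpr hne
      have hb : |p.1.2.2.2 * ((Cdc_A p.2 : ℕ) : ℤ)| ≤ (M : ℤ) := by
        rw [abs_mul, Nat.abs_cast]
        have h5 : ((Cdc_A p.2 : ℕ) : ℤ) ≤ (((2 * R / R0) * (2 * V) * (2 * V) : ℕ) : ℤ) := by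
          exact_mod_cast b2
        calc |p.1.2.2.2| * ((Cdc_A p.2 : ℕ) : ℤ)
            ≤ (H : ℤ) * (((2 * R / R0) * (2 * V) * (2 * V) : ℕ) : ℤ) :=
              mul_le_mul a5 h5 (by positivity) (by positivity)
          _ = (M : ℤ) := by rw [hM]; push_cast; ring
      have hmem : (⟨p.1.2.2.2 * ((Cdc_A p.2 : ℕ) : ℤ),
          ((p.1.1, p.1.2.1, p.1.2.2.1), (p.2.1, p.2.2.1, p.2.2.2.1))⟩ :
          Σ _ : ℤ, (ℕ × ℕ × ℕ) × (ℕ × ℕ × ℕ)) ∈ Tg := by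
        rw [hTg, mem_sigma]
        refine ⟨?_, ?_⟩
        · rw [hZs, mem_filter, mem_Icc]
          refine ⟨⟨(abs_le.mp hb).1, (abs_le.mp hb).2⟩, hne, ?_⟩
          have : ((m1 * m2 : ℕ) : ℤ) ∣ ((Cdc_A p.2 : ℕ) : ℤ) := by exact_mod_cast b3
          exact Dvd.dvd.mul_left this _
        · simp only [hD3, mem_product, Nat.mem_divisors]
          exact ⟨⟨⟨a6.trans hdvd1, hna⟩, ⟨a7.trans hdvd1, hna⟩, ⟨a8.trans hdvd1, hna⟩⟩,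
            ⟨⟨b6.trans hdvd2, hna⟩, ⟨b7.trans hdvd2, hna⟩, ⟨b8.trans hdvd2, hna⟩⟩⟩
      exact_mod_cast hmem
    · intro p hp p' hp' heq
      have hpP : p ∈ P := by simpa using hp
      have hpP' : p' ∈ P := by simpa using hp'
      obtain ⟨h1, h2⟩ := hPQ p hpP
      obtain ⟨a1, -⟩ := Cdc_memQQ hHs h1
      obtain ⟨b1, -⟩ := Cdc_memQQ hHs h2
      have hz := hZ p hpP
      have hz' := hZ p' hpP'
      obtain ⟨⟨q1, v1, w1, k1⟩, ⟨q2, v2, w2, k2⟩⟩ := p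
      obtain ⟨⟨q1', v1', w1', k1'⟩, ⟨q2', v2', w2', k2'⟩⟩ := p'
      simp only [Sigma.mk.injEq, Prod.mk.injEq, heq_eq_eq] at heq
      obtain ⟨e0, ⟨e1, e2, e3⟩, e4, e5, e6⟩ := heq
      subst e1 e2 e3 e4 e5 e6
      unfold Cdc_A at *
      simp only at *
      have hA2 : ((q2 * v2 * w2 : ℕ) : ℤ) ≠ 0 := by
        have : q2 * v2 * w2 ≠ 0 := by omega
        exact_mod_cast this
      have hA1 : ((q1 * v1 * w1 : ℕ) : ℤ) ≠ 0 := by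
        have : q1 * v1 * w1 ≠ 0 := by omega
        exact_mod_cast this
      have hk1 : k1 = k1' := mul_right_cancel₀ hA2 e0
      have hk2 : k2 = k2' := by
        apply mul_right_cancel₀ hA1
        rw [← hz, ← hz', e0]
      rw [hk1, hk2]
  have hTgc : (Tg.card : ℝ) ≤ (Zs.card : ℝ) * T ^ 6 := by
    rw [hTg, card_sigma, Nat.cast_sum]
    have : ∀ Z ∈ Zs, (((D3 Z ×ˢ D3 Z).card : ℕ) : ℝ) ≤ T ^ 6 := by
      intro Z hZm
      rw [hZs, mem_filter, mem_Icc] at hZm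
      obtain ⟨⟨z1, z2⟩, z0, -⟩ := hZm
      have hn1 : 1 ≤ Z.natAbs := Nat.one_le_iff_ne_zero.mpr (Int.natAbs_ne_zero.mpr z0)
      have hnM : Z.natAbs ≤ M := by omega
      have hnX : (Z.natAbs : ℝ) ≤ X := by
        have : (Z.natAbs : ℝ) ≤ (M : ℝ) := by exact_mod_cast hnM
        linarith
      have hd := hT3 Z.natAbs hn1 hnX
      have h0 : (0 : ℝ) ≤ (Z.natAbs.divisors.card : ℝ) := by positivity
      simp only [hD3, card_product]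
      push_cast
      calc (Z.natAbs.divisors.card : ℝ) * ((Z.natAbs.divisors.card : ℝ) * Z.natAbs.divisors.card) *
            ((Z.natAbs.divisors.card : ℝ) * ((Z.natAbs.divisors.card : ℝ) * Z.natAbs.divisors.card))
          = (Z.natAbs.divisors.card : ℝ) ^ 6 := by ring
        _ ≤ T ^ 6 := pow_le_pow_left₀ h0 hd 6
    calc ∑ Z ∈ Zs, (((D3 Z ×ˢ D3 Z).card : ℕ) : ℝ) ≤ ∑ Z ∈ Zs, T ^ 6 := sum_le_sum this
      _ = (Zs.card : ℝ) * T ^ 6 := by rw [sum_const, nsmul_eq_mul]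
  have hmm : 1 ≤ m1 * m2 := Nat.mul_pos hm1 hm2
  have hZc : (Zs.card : ℝ) ≤ 2 * ((M : ℝ) / ((m1 * m2 : ℕ) : ℝ)) := Cdc_Zcard M (m1 * m2) hmm
  have hT6 : (0 : ℝ) ≤ T ^ 6 := by positivity
  have hmmr : (0 : ℝ) < ((m1 * m2 : ℕ) : ℝ) := by exact_mod_cast hmm
  rw [hsum]
  calc (P.card : ℝ) ≤ (Tg.card : ℝ) := by exact_mod_cast hcard
    _ ≤ (Zs.card : ℝ) * T ^ 6 := hTgc
    _ ≤ (2 * ((M : ℝ) / ((m1 * m2 : ℕ) : ℝ))) * T ^ 6 := mul_le_mul_of_nonneg_right hZc hT6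
    _ ≤ (2 * ((8 * ((H : ℝ) * R * (V : ℝ) ^ 2 / R0)) / ((m1 * m2 : ℕ) : ℝ))) * T ^ 6 := by
        refine mul_le_mul_of_nonneg_right ?_ hT6
        refine mul_le_mul_of_nonneg_left ?_ (by norm_num)
        exact div_le_div_of_nonneg_right hMr hmmr.le
    _ = 16 * T ^ 6 * ((H : ℝ) * R * (V : ℝ) ^ 2 / (R0 * m1 * m2)) := by
        push_cast
        ring

end Pool.Agent.Lib.SL
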