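import Pool.Agent.Lib.SL.SpecC

/-!
MP_00e23e_nt, project SL, module Cou (helper33): the number of outer variables.
-/

set_option autoImplicit false

namespace Pool.Agent.Lib.SL

open Finset Pool.Agent.Lib.EH3 Pool.Agent.Lib.TB Pool.Agent.Results.MP_00e23e_nt Pool.Agent.Lib.MI

private lemma Cou_cls (N q : ℕ) (hN : 1 ≤ N) (F : Finset ℕ) (hF : ∀ n ∈ F, N < n ∧ n ≤ 2 * N)
    (hc : ∀ n ∈ F, ∀ m ∈ F, (q : ℤ) ∣ (n : ℤ) - m) : F.card ≤ N / q + 1 := by
  have h1 : F.card ≤ (range (N / q + 1)).card := by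
    refine Finset.card_le_card_of_injOn (fun n => (n - (N + 1)) / q) ?_ ?_
    · intro n hn
      have h := hF n hn
      rw [Finset.coe_range, Set.mem_Iio]
      have h2 : (n - (N + 1)) / q ≤ N / q := Nat.div_le_div_right (by omega)
      exact Nat.lt_succ_of_le h2
    · intro n hn m hm hnm
      have hn1 := hF n hn
      have hm1 := hF m hm
      have hnm : (n - (N + 1)) / q = (m - (N + 1)) / q := hnm
      have h2 : m ≡ n [MOD q] := by
        rw [← Int.natCast_modEq_iff, Int.modEq_iff_dvd]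
        exact hc n hn m hm
      have h3 : (m - (N + 1)) + (N + 1) ≡ (n - (N + 1)) + (N + 1) [MOD q] := by
        rw [Nat.sub_add_cancel (by omega), Nat.sub_add_cancel (by omega)]
        exact h2
      have h4 : (m - (N + 1)) % q = (n - (N + 1)) % q := Nat.ModEq.add_right_cancel' _ h3
      have h5 := Nat.div_add_mod (n - (N + 1)) q
      have h6 := Nat.div_add_mod (m - (N + 1)) q
      rw [hnm, ← h4, h6] at h5
      omega
  rwa [Finset.card_range] at h1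

private lemma Cou_mul (S V g : ℕ) :
    (((Ioc 0 (2 * S / V)).filter (fun u => g ∣ u)).card : ℝ) ≤ 2 * (S : ℝ) / ((V : ℝ) * g) := by
  rw [Nat.Ioc_filter_dvd_card_eq_div]
  have h1 : (((2 * S / V) / g : ℕ) : ℝ) ≤ ((2 * S / V : ℕ) : ℝ) / (g : ℝ) := Nat.cast_div_le
  have h2 : ((2 * S / V : ℕ) : ℝ) ≤ ((2 * S : ℕ) : ℝ) / (V : ℝ) := Nat.cast_div_le
  have h3 : ((2 * S / V : ℕ) : ℝ) / (g : ℝ) ≤ ((2 * S : ℕ) : ℝ) / (V : ℝ) / (g : ℝ) :=
    div_le_div_of_nonneg_right h2 (Nat.cast_nonneg _)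
  refine h1.trans (h3.trans ?_)
  rw [div_div]
  push_cast
  exact le_refl _

open Classical in
theorem tCou : CouStmt := by
  intro a b1 b2 ρ v g R S N R0 V g1 g2 hN hR0 hV hRN hg1 hg2
  have hN0 : (0 : ℝ) < N := by exact_mod_cast hN
  have hR00 : (0 : ℝ) < R0 := by exact_mod_cast hR0
  have hV0 : (0 : ℝ) < V := by exact_mod_cast hV
  have hg10 : (0 : ℝ) < g1 := by exact_mod_cast hg1
  have hg20 : (0 : ℝ) < g2 := by exact_mod_cast hg2
  by_cases hcase : 2 * N ≤ R0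
  · refine ⟨∅, ?_, ?_⟩
    · rw [Finset.card_empty, Nat.cast_zero]
      positivity
    · intro r s1 s2 n1 n2 hSu _ _ _ _ _
      exfalso
      obtain ⟨⟨hr1, hr2⟩, -, -, ⟨hd, h1, -⟩, -⟩ := hSu
      have h2 : ρ r ≤ r := Nat.le_of_dvd (by omega) hd
      omega
  · have hlt : R0 < 2 * N := by omega
    obtain ⟨U1, hU1⟩ : ∃ U, U = (Ioc 0 (2 * S / V)).filter (fun u => g1 ∣ u) := ⟨_, rfl⟩
    obtain ⟨U2, hU2⟩ : ∃ U, U = (Ioc 0 (2 * S / V)).filter (fun u => g2 ∣ u) := ⟨_, rfl⟩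
    obtain ⟨K, hK⟩ : ∃ K, K = (Ioc R0 (2 * R0)) ×ˢ (U1 ×ˢ U2) := ⟨_, rfl⟩
    obtain ⟨J, hJ⟩ : ∃ J, J = Ioc N (2 * N) := ⟨_, rfl⟩
    obtain ⟨Fl, hFl⟩ : ∃ Fl : (ℕ × ℕ × ℕ) → ℕ → Finset ℕ, ∀ k n1, Fl k n1 = J.filter (fun n2 : ℕ =>
        Int.gcd (b1 k.1 k.2.1) (k.1 : ℤ) = 1 ∧
          (k.1 : ℤ) ∣ (n1 : ℤ) * b2 k.1 k.2.2 - (n2 : ℤ) * b1 k.1 k.2.1) := ⟨_, fun _ _ => rfl⟩
    refine ⟨(K ×ˢ J).biUnion (fun t => (Fl t.1 t.2).image (fun n2 => (t.1, (t.2, n2)))), ?_, ?_⟩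
    · have hfib : ∀ t ∈ K ×ˢ J, ((Fl t.1 t.2).card : ℝ) ≤ 3 * N / R0 := by
        intro t ht
        rw [Finset.mem_product, hK, Finset.mem_product, Finset.mem_Ioc] at ht
        obtain ⟨⟨⟨hk1, hk2⟩, -⟩, -⟩ := ht
        have h1 : (Fl t.1 t.2).card ≤ N / t.1.1 + 1 := by
          refine Cou_cls N t.1.1 hN _ ?_ ?_
          · intro n hn
            rw [hFl, Finset.mem_filter, hJ, Finset.mem_Ioc] at hn
            exact hn.1
          · intro n hn m hm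
            rw [hFl, Finset.mem_filter] at hn hm
            obtain ⟨-, hgc, hdn⟩ := hn
            obtain ⟨-, -, hdm⟩ := hm
            have h2 : (t.1.1 : ℤ) ∣ ((n : ℤ) - m) * b1 t.1.1 t.1.2.1 := by
              have e : ((n : ℤ) - m) * b1 t.1.1 t.1.2.1 =
                  ((t.2 : ℤ) * b2 t.1.1 t.1.2.2 - (m : ℤ) * b1 t.1.1 t.1.2.1) -
                    ((t.2 : ℤ) * b2 t.1.1 t.1.2.2 - (n : ℤ) * b1 t.1.1 t.1.2.1) := by ring
              rw [e]
              exact dvd_sub hdm hdn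
            have hc : IsCoprime (t.1.1 : ℤ) (b1 t.1.1 t.1.2.1) := (Int.isCoprime_iff_gcd_eq_one.2 hgc).symm
            exact hc.dvd_of_dvd_mul_right h2
        have h2 : ((N / t.1.1 + 1 : ℕ) : ℝ) ≤ 3 * N / R0 := by
          push_cast
          have h3 : ((N / t.1.1 : ℕ) : ℝ) ≤ (N : ℝ) / (t.1.1 : ℝ) := Nat.cast_div_le
          have h4 : (N : ℝ) / (t.1.1 : ℝ) ≤ (N : ℝ) / R0 := by
            have h5 : (R0 : ℝ) ≤ (t.1.1 : ℝ) := by exact_mod_cast hk1.le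
            exact div_le_div_of_nonneg_left hN0.le hR00 h5
          have h6 : (1 : ℝ) ≤ 2 * N / R0 := by
            rw [le_div_iff₀ hR00, one_mul]
            exact_mod_cast hlt.le
          have h7 : (3 : ℝ) * N / R0 = N / R0 + 2 * N / R0 := by ring
          rw [h7]
          linarith
        refine le_trans ?_ h2
        exact_mod_cast h1
      have hU1c := Cou_mul S V g1
      have hU2c := Cou_mul S V g2
      rw [← hU1] at hU1c
      rw [← hU2] at hU2c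
      have h1 : (((K ×ˢ J).biUnion (fun t => (Fl t.1 t.2).image (fun n2 => (t.1, (t.2, n2))))).card : ℝ) ≤
          ∑ t ∈ K ×ˢ J, ((Fl t.1 t.2).card : ℝ) := by
        have h2 : ((K ×ˢ J).biUnion (fun t => (Fl t.1 t.2).image (fun n2 => (t.1, (t.2, n2))))).card ≤
            ∑ t ∈ K ×ˢ J, (Fl t.1 t.2).card :=
          Finset.card_biUnion_le.trans (Finset.sum_le_sum fun t _ => Finset.card_image_le)
        exact_mod_cast h2
      refine h1.trans ((Finset.sum_le_sum hfib).trans ?_)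
      rw [Finset.sum_const, nsmul_eq_mul, Finset.card_product, hK, Finset.card_product,
        Finset.card_product, hJ, Nat.card_Ioc, Nat.card_Ioc]
      have e1 : 2 * R0 - R0 = R0 := by omega
      have e2 : 2 * N - N = N := by omega
      rw [e1, e2]
      push_cast
      have h8 : (U1.card : ℝ) * (U2.card : ℝ) ≤ (2 * (S : ℝ) / ((V : ℝ) * g1)) * (2 * (S : ℝ) / ((V : ℝ) * g2)) :=
        mul_le_mul hU1c hU2c (Nat.cast_nonneg _) (by positivity)
      have e3 : (R0 : ℝ) * ((U1.card : ℝ) * (U2.card : ℝ)) * N * (3 * N / R0) =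
          3 * (N : ℝ) ^ 2 * ((U1.card : ℝ) * (U2.card : ℝ)) := by
        field_simp
      rw [e3]
      have e4 : 12 * ((S : ℝ) ^ 2 * (N : ℝ) ^ 2) / ((V : ℝ) ^ 2 * g1 * g2) =
          3 * (N : ℝ) ^ 2 * ((2 * (S : ℝ) / ((V : ℝ) * g1)) * (2 * (S : ℝ) / ((V : ℝ) * g2))) := by
        field_simp
        ring
      rw [e4]
      exact mul_le_mul_of_nonneg_left h8 (by positivity)
    · intro r s1 s2 n1 n2 hSu hd1 hd2 hn1 hn2 hG
      obtain ⟨⟨hr1, hr2⟩, ⟨hs1, hs1'⟩, ⟨hs2, hs2'⟩, ⟨hρd, hρ1, hρ2⟩, ⟨hv1d, hv1, hv1'⟩, ⟨hv2d, hv2, hv2'⟩, hb1, hb2, -⟩ := hSu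
      obtain ⟨-, -, -, -, -, hgc1, -, hdv⟩ := hG
      have hu : ∀ s w : ℕ, S < s → s ≤ 2 * S → w ∣ s → V < w → s / w ∈ Ioc 0 (2 * S / V) := by
        intro s w hs hs' hw hVw
        rw [Finset.mem_Ioc]
        constructor
        · exact Nat.div_pos (Nat.le_of_dvd (by omega) hw) (by omega)
        · rw [Nat.le_div_iff_mul_le (by omega)]
          have h1 : s / w * V ≤ s / w * w := Nat.mul_le_mul_left _ hVw.le
          rw [Nat.div_mul_cancel hw] at h1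
          omega
      have hρr : ((ρ r : ℕ) : ℤ) ∣ ((r * g : ℕ) : ℤ) := Int.natCast_dvd_natCast.2 (hρd.trans (dvd_mul_right _ _))
      have hρs : ((ρ r : ℕ) : ℤ) ∣ ((r * s1 : ℕ) : ℤ) := Int.natCast_dvd_natCast.2 (hρd.trans (dvd_mul_right _ _))
      have hcop : Int.gcd (b1 (ρ r) (s1 / v r s1)) ((ρ r : ℕ) : ℤ) = 1 := by
        rw [← Int.isCoprime_iff_gcd_eq_one]
        have h1 : IsCoprime (a r s1) ((r * s1 : ℕ) : ℤ) := Int.isCoprime_iff_gcd_eq_one.2 hgc1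
        have h2 : IsCoprime (a r s1) ((ρ r : ℕ) : ℤ) := h1.of_isCoprime_of_dvd_right hρs
        obtain ⟨k, hk⟩ := hb1
        have e : b1 (ρ r) (s1 / v r s1) = a r s1 + ((ρ r : ℕ) : ℤ) * (-k) := by linarith
        rw [e]
        exact h2.add_mul_left_left _
      have hdiv : ((ρ r : ℕ) : ℤ) ∣ (n1 : ℤ) * b2 (ρ r) (s2 / v r s2) - (n2 : ℤ) * b1 (ρ r) (s1 / v r s1) := by
        have e : (n1 : ℤ) * b2 (ρ r) (s2 / v r s2) - (n2 : ℤ) * b1 (ρ r) (s1 / v r s1) =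
            (((n1 : ℤ) * a r s2 - (n2 : ℤ) * a r s1) - (n1 : ℤ) * (a r s2 - b2 (ρ r) (s2 / v r s2))) +
              (n2 : ℤ) * (a r s1 - b1 (ρ r) (s1 / v r s1)) := by ring
        rw [e]
        exact dvd_add (dvd_sub (hρr.trans hdv) (dvd_mul_of_dvd_right hb2 _)) (dvd_mul_of_dvd_right hb1 _)
      rw [Finset.mem_biUnion]
      refine ⟨(Ky ρ v r s1 s2, n1), ?_, ?_⟩
      · rw [Finset.mem_product, hK, Finset.mem_product, Finset.mem_product, hJ]
        refine ⟨⟨?_, ?_, ?_⟩, hn1⟩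
        · exact Finset.mem_Ioc.2 ⟨hρ1, hρ2⟩
        · rw [hU1]
          exact Finset.mem_filter.2 ⟨hu s1 _ hs1 hs1' hv1d hv1, hd1⟩
        · rw [hU2]
          exact Finset.mem_filter.2 ⟨hu s2 _ hs2 hs2' hv2d hv2, hd2⟩
      · rw [Finset.mem_image]
        refine ⟨n2, ?_, rfl⟩
        rw [hFl, Finset.mem_filter, hJ]
        exact ⟨hn2, hcop, hdiv⟩

end Pool.Agent.Lib.SL
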