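import Pool.Agent.Lib.SL.SpecC

set_option autoImplicit false

/-!
MP_00e23e_nt, project SL, chapter C, module Cpr (helper97): parametrization of the pairs with the same key.
-/

namespace Pool.Agent.Lib.SL

open Finset Pool.Agent.Lib.EH3 Pool.Agent.Lib.TB Pool.Agent.Results.MP_00e23e_nt Pool.Agent.Lib.MI

private theorem Cpr_det (ρ : ℕ → ℕ) (v : ℕ → ℕ → ℕ) (p w : ℤ × ℕ × ℕ × ℕ)
    (hp1 : ρ p.2.1 ∣ p.2.1) (hp2 : v p.2.1 p.2.2.1 ∣ p.2.2.1) (hp3 : v p.2.1 p.2.2.2 ∣ p.2.2.2)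
    (hw1 : ρ w.2.1 ∣ w.2.1) (hw2 : v w.2.1 w.2.2.1 ∣ w.2.2.1) (hw3 : v w.2.1 w.2.2.2 ∣ w.2.2.2)
    (hK : Kp ρ v p = Kp ρ v w) (hI : Ix ρ v p = Ix ρ v w) : p = w := by
  obtain ⟨h, r, s1, s2⟩ := p
  obtain ⟨h', r', s1', s2'⟩ := w
  simp only [Kp, Ky, Ix, Prod.mk.injEq] at hK hI hp1 hp2 hp3 hw1 hw2 hw3
  obtain ⟨k1, k2, k3⟩ := hK
  obtain ⟨i1, i2, i3, i4⟩ := hI
  have e1 : r = r' := by
    rw [← Nat.div_mul_cancel hp1, ← Nat.div_mul_cancel hw1, i1, k1]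
  have e2 : s1 = s1' := by
    rw [← Nat.div_mul_cancel hp2, ← Nat.div_mul_cancel hw2, k2, i2]
  have e3 : s2 = s2' := by
    rw [← Nat.div_mul_cancel hp3, ← Nat.div_mul_cancel hw3, k3, i3]
  simp only [Prod.mk.injEq]
  exact ⟨i4, e1, e2, e3⟩

private theorem Cpr_dvd (g u x : ℕ) (hg : 1 ≤ g) (h : g ∣ u * x) : g / Nat.gcd g u ∣ x := by
  have hpos : 0 < Nat.gcd g u := Nat.gcd_pos_of_pos_left u hg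
  have hc : Nat.Coprime (g / Nat.gcd g u) (u / Nat.gcd g u) := Nat.coprime_div_gcd_div_gcd hpos
  have h2 : g / Nat.gcd g u * Nat.gcd g u ∣ (u / Nat.gcd g u * x) * Nat.gcd g u := by
    have e1 : g / Nat.gcd g u * Nat.gcd g u = g := Nat.div_mul_cancel (Nat.gcd_dvd_left g u)
    have e2 : (u / Nat.gcd g u * x) * Nat.gcd g u = u * x := by
      have : u / Nat.gcd g u * Nat.gcd g u = u := Nat.div_mul_cancel (Nat.gcd_dvd_right g u)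
      calc (u / Nat.gcd g u * x) * Nat.gcd g u = (u / Nat.gcd g u * Nat.gcd g u) * x := by ring
        _ = u * x := by rw [this]
    rw [e1, e2]
    exact h
  have h3 : g / Nat.gcd g u ∣ u / Nat.gcd g u * x := Nat.dvd_of_mul_dvd_mul_right hpos h2
  exact hc.dvd_of_dvd_mul_left h3

private theorem Cpr_qq (a b1 b2 : ℕ → ℕ → ℤ) (ρ : ℕ → ℕ) (v : ℕ → ℕ → ℕ) (g R0 V R S N g1 g2 : ℕ) (Hs : Finset ℤ)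
    (p : ℤ × ℕ × ℕ × ℕ) (hg : 1 ≤ g) (hR0 : 1 ≤ R0) (h1 : p.1 ∈ Hs) (h2 : Nat.gcd p.2.2.1 p.2.2.2 = g)
    (h3 : Su a b1 b2 ρ v g R0 V R S N p.2.1 p.2.2.1 p.2.2.2)
    (h4 : Nat.gcd g (p.2.2.1 / v p.2.1 p.2.2.1) = g1) (h5 : Nat.gcd g (p.2.2.2 / v p.2.1 p.2.2.2) = g2) :
    Ix ρ v p ∈ QQ R R0 V Hs (g / g1) (g / g2) := by
  obtain ⟨h, r, s1, s2⟩ := p
  simp only at h1 h2 h3 h4 h5
  obtain ⟨⟨hr1, hr2⟩, ⟨hs1, hs2⟩, ⟨hs3, hs4⟩, ⟨hρ1, hρ2, hρ3⟩, ⟨hv1, hv2, hv3⟩, ⟨hv4, hv5, hv6⟩, -⟩ := h3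
  have hq : r / ρ r * ρ r = r := Nat.div_mul_cancel hρ1
  have hq1 : 1 ≤ r / ρ r := Nat.div_pos (Nat.le_of_dvd (by omega) hρ1) (by omega)
  have hq2 : r / ρ r ≤ 2 * R / R0 := by
    rw [Nat.le_div_iff_mul_le (by omega)]
    calc r / ρ r * R0 ≤ r / ρ r * ρ r := Nat.mul_le_mul_left _ (le_of_lt hρ2)
      _ = r := hq
      _ ≤ 2 * R := hr2
  have hd1 : g / g1 ∣ v r s1 := by
    rw [← h4]
    apply Cpr_dvd g _ _ hg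
    rw [Nat.div_mul_cancel hv1, ← h2]
    exact Nat.gcd_dvd_left s1 s2
  have hd2 : g / g2 ∣ v r s2 := by
    rw [← h5]
    apply Cpr_dvd g _ _ hg
    rw [Nat.div_mul_cancel hv4, ← h2]
    exact Nat.gcd_dvd_right s1 s2
  simp only [Ix, QQ, mem_product, mem_Icc, mem_filter, mem_Ioc]
  exact ⟨⟨hq1, hq2⟩, ⟨⟨hv2, hv3⟩, hd1⟩, ⟨⟨hv5, hv6⟩, hd2⟩, h1⟩

private theorem Cpr_u (S V s x g1 g : ℕ) (hV : 1 ≤ V) (hs : 1 ≤ s) (hs2 : s ≤ 2 * S) (hx : x ∣ s) (hx1 : V < x)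
    (hg : Nat.gcd g (s / x) = g1) : s / x ∈ (Ioc 0 (2 * S / V)).filter (fun u => g1 ∣ u) := by
  have h1 : 0 < s / x := Nat.div_pos (Nat.le_of_dvd (by omega) hx) (by omega)
  have h2 : s / x ≤ 2 * S / V := by
    rw [Nat.le_div_iff_mul_le (by omega)]
    calc s / x * V ≤ s / x * x := Nat.mul_le_mul_left _ (le_of_lt hx1)
      _ = s := Nat.div_mul_cancel hx
      _ ≤ 2 * S := hs2
  rw [mem_filter, mem_Ioc]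
  refine ⟨⟨h1, h2⟩, ?_⟩
  rw [← hg]
  exact Nat.gcd_dvd_right _ _

private theorem Cpr_card (S V g1 : ℕ) :
    (((Ioc 0 (2 * S / V)).filter (fun u => g1 ∣ u)).card : ℝ) ≤ 2 * (S : ℝ) / (V * g1) := by
  rw [Nat.Ioc_filter_dvd_card_eq_div]
  calc ((2 * S / V / g1 : ℕ) : ℝ) ≤ ((2 * S / V : ℕ) : ℝ) / (g1 : ℝ) := Nat.cast_div_le
    _ ≤ (((2 * S : ℕ) : ℝ) / (V : ℝ)) / (g1 : ℝ) :=
        div_le_div_of_nonneg_right Nat.cast_div_le (Nat.cast_nonneg _)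
    _ = 2 * (S : ℝ) / (V * g1) := by
        rw [div_div]
        push_cast
        ring

theorem tCpr : CprStmt := by
  classical
  intro a b1 b2 ρ v g R0 V R S N g1 g2 Hs I G hg hR0 hV hG hI
  set Q := QQ R R0 V Hs (g / g1) (g / g2) with hQ
  set U1 := (Ioc 0 (2 * S / V)).filter (fun u => g1 ∣ u) with hU1
  set U2 := (Ioc 0 (2 * S / V)).filter (fun u => g2 ∣ u) with hU2
  set W := U1 ×ˢ (U2 ×ˢ ((Ioc R0 (2 * R0)) ×ˢ (Q ×ˢ Q))) with hW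
  let f : ℕ × ℕ × ℕ × (ℕ × ℕ × ℕ × ℤ) × (ℕ × ℕ × ℕ × ℤ) → ℝ := fun t => G t.2.2.1 t.2.2.2.1 t.2.2.2.2
  let Φ : (ℤ × ℕ × ℕ × ℕ) × (ℤ × ℕ × ℕ × ℕ) → ℕ × ℕ × ℕ × (ℕ × ℕ × ℕ × ℤ) × (ℕ × ℕ × ℕ × ℤ) :=
    fun t => ((Kp ρ v t.1).2.1, (Kp ρ v t.1).2.2, (Kp ρ v t.1).1, Ix ρ v t.1, Ix ρ v t.2)
  set P := (I ×ˢ I).filter (fun t => Kp ρ v t.1 = Kp ρ v t.2) with hP
  have hS0 : ∀ ϱ x x', 0 ≤ G ϱ x x' := hG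
  have e1 : ∑ p ∈ I, ∑ p' ∈ I, (if Kp ρ v p = Kp ρ v p' then G (ρ p.2.1) (Ix ρ v p) (Ix ρ v p') else 0) =
      ∑ t ∈ P, f (Φ t) := by
    rw [hP, sum_filter, sum_product]
    rfl
  have hinj : Set.InjOn Φ (P : Set ((ℤ × ℕ × ℕ × ℕ) × (ℤ × ℕ × ℕ × ℕ))) := by
    intro t ht w hw htw
    rw [mem_coe, hP, mem_filter, mem_product] at ht hw
    obtain ⟨⟨ht1, ht2⟩, ht3⟩ := ht
    obtain ⟨⟨hw1, hw2⟩, hw3⟩ := hw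
    have htw2 : ((Kp ρ v t.1).2.1, (Kp ρ v t.1).2.2, (Kp ρ v t.1).1, Ix ρ v t.1, Ix ρ v t.2) =
      ((Kp ρ v w.1).2.1, (Kp ρ v w.1).2.2, (Kp ρ v w.1).1, Ix ρ v w.1, Ix ρ v w.2) := htw
    simp only [Prod.mk.injEq] at htw2
    obtain ⟨k1, k2, k3, i1, i2⟩ := htw2
    have hK : Kp ρ v t.1 = Kp ρ v w.1 := Prod.ext k3 (Prod.ext k1 k2)
    have hK2 : Kp ρ v t.2 = Kp ρ v w.2 := by rw [← ht3, hK, hw3]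
    obtain ⟨-, -, a3, -⟩ := hI t.1 ht1
    obtain ⟨-, -, b3, -⟩ := hI t.2 ht2
    obtain ⟨-, -, c3, -⟩ := hI w.1 hw1
    obtain ⟨-, -, d3, -⟩ := hI w.2 hw2
    obtain ⟨-, -, -, ⟨a4, -⟩, ⟨a5, -⟩, ⟨a6, -⟩, -⟩ := a3
    obtain ⟨-, -, -, ⟨b4, -⟩, ⟨b5, -⟩, ⟨b6, -⟩, -⟩ := b3
    obtain ⟨-, -, -, ⟨c4, -⟩, ⟨c5, -⟩, ⟨c6, -⟩, -⟩ := c3
    obtain ⟨-, -, -, ⟨d4, -⟩, ⟨d5, -⟩, ⟨d6, -⟩, -⟩ := d3
    have r1 : t.1 = w.1 := Cpr_det ρ v t.1 w.1 a4 a5 a6 c4 c5 c6 hK i1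
    have r2 : t.2 = w.2 := Cpr_det ρ v t.2 w.2 b4 b5 b6 d4 d5 d6 hK2 i2
    exact Prod.ext r1 r2
  have himg : P.image Φ ⊆ W := by
    intro x hx
    rw [mem_image] at hx
    obtain ⟨t, ht, rfl⟩ := hx
    rw [hP, mem_filter, mem_product] at ht
    obtain ⟨⟨ht1, ht2⟩, ht3⟩ := ht
    obtain ⟨a1, a2, a3, a4, a5⟩ := hI t.1 ht1
    obtain ⟨c1, c2, c3, c4, c5⟩ := hI t.2 ht2
    have q1 : Ix ρ v t.1 ∈ Q := Cpr_qq a b1 b2 ρ v g R0 V R S N g1 g2 Hs t.1 hg hR0 a1 a2 a3 a4 a5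
    have q2 : Ix ρ v t.2 ∈ Q := Cpr_qq a b1 b2 ρ v g R0 V R S N g1 g2 Hs t.2 hg hR0 c1 c2 c3 c4 c5
    obtain ⟨-, ⟨hs1, hs2⟩, ⟨hs3, hs4⟩, ⟨-, hρ2, hρ3⟩, ⟨hv1, hv2, -⟩, ⟨hv4, hv5, -⟩, -⟩ := a3
    have u1 : (Kp ρ v t.1).2.1 ∈ U1 := Cpr_u S V _ _ g1 g hV (by omega) hs2 hv1 hv2 a4
    have u2 : (Kp ρ v t.1).2.2 ∈ U2 := Cpr_u S V _ _ g2 g hV (by omega) hs4 hv4 hv5 a5
    rw [hW, mem_product, mem_product, mem_product, mem_product, mem_Ioc]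
    exact ⟨u1, u2, ⟨hρ2, hρ3⟩, q1, q2⟩
  have e2 : ∑ t ∈ P, f (Φ t) ≤ ∑ t ∈ W, f t := by
    rw [← sum_image (f := f) hinj]
    exact sum_le_sum_of_subset_of_nonneg himg (fun t _ _ => hS0 _ _ _)
  have e3 : ∑ t ∈ W, f t = (U1.card : ℝ) * ((U2.card : ℝ) *
      ∑ ϱ ∈ Ioc R0 (2 * R0), ∑ x ∈ Q, ∑ x' ∈ Q, G ϱ x x') := by
    rw [hW, sum_product]
    simp only [sum_product, f]
    rw [sum_const, sum_const, nsmul_eq_mul, nsmul_eq_mul]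
  have hT : 0 ≤ ∑ ϱ ∈ Ioc R0 (2 * R0), ∑ x ∈ Q, ∑ x' ∈ Q, G ϱ x x' :=
    sum_nonneg (fun _ _ => sum_nonneg (fun _ _ => sum_nonneg (fun _ _ => hS0 _ _ _)))
  rw [e1]
  refine le_trans e2 ?_
  rw [e3, ← mul_assoc]
  apply mul_le_mul_of_nonneg_right _ hT
  exact mul_le_mul (Cpr_card S V g1) (Cpr_card S V g2) (Nat.cast_nonneg _) (by positivity)

end Pool.Agent.Lib.SL
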