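import Pool.Agent.Lib.SL.Ccs
import Pool.Agent.Lib.SL.Cou
import Pool.Agent.Lib.SL.Cnu
import Pool.Agent.Lib.SL.Cpr
import Pool.Agent.Lib.SL.Cdc
import Pool.Agent.Lib.SL.Cgv
import Pool.Agent.Lib.SL.Cp0
import Pool.Agent.Lib.SL.Cp1
import Pool.Agent.Lib.SL.Cse
import Pool.Agent.Lib.MI.T1Gsa

/-!
MP_00e23e_nt, project SL, chapter C part 1 (helper3): SecStmt without hypotheses.
-/

namespace Pool.Agent.Lib.SL

/-- chapter C, part 1: the second Cauchy inequality, with all its modules -/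
theorem tSec : SecStmt :=
  tCse tCcs tCou (tCp0 tCnu tCpr tCdc) (tCp1 tCpr (tCgv MI.tT1Gsa))

end Pool.Agent.Lib.SL
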