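import Pool.Agent.Lib.SL.SpecD

/-!
MP_00e23e_nt, project SL, module Lcb: the averaged bad terms, first full, second averaged.
-/

set_option autoImplicit false

namespace Pool.Agent.Lib.SL

open Finset Pool.Agent.Lib.EH3 Pool.Agent.Lib.TB Pool.Agent.Results.MP_00e23e_nt Pool.Agent.Lib.MI

private lemma Lcb_cop {a : ℤ} {q n m : ℕ} (hq : Int.gcd a (q : ℤ) = 1)
    (ht : (q : ℤ) ∣ ((m * n : ℕ) : ℤ) - a) : n.Coprime q := by
  have h4 : (Nat.gcd n q : ℤ) ∣ ((m * n : ℕ) : ℤ) :=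
    Int.natCast_dvd_natCast.2 (dvd_mul_of_dvd_right (Nat.gcd_dvd_left _ _) _)
  have h5 : (Nat.gcd n q : ℤ) ∣ ((m * n : ℕ) : ℤ) - a :=
    (Int.natCast_dvd_natCast.2 (Nat.gcd_dvd_right _ _)).trans ht
  have h6 := dvd_sub h4 h5
  rw [sub_sub_cancel] at h6
  have h7 : Nat.gcd n q ∣ Int.gcd a (q : ℤ) :=
    Int.dvd_gcd h6 (Int.natCast_dvd_natCast.2 (Nat.gcd_dvd_right _ _))
  rw [hq] at h7
  exact Nat.dvd_one.1 h7

private lemma Lcb_gr {a : ℤ} {r s : ℕ} (h : Int.gcd a ((r * s : ℕ) : ℤ) = 1) :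
    Int.gcd a (r : ℤ) = 1 := by
  have : Int.gcd a (r : ℤ) ∣ Int.gcd a ((r * s : ℕ) : ℤ) :=
    Int.gcd_dvd_gcd_of_dvd_right _ (Int.natCast_dvd_natCast.2 (dvd_mul_right _ _))
  rw [h] at this
  exact Nat.dvd_one.1 this

/-- the arithmetic of a nonzero term -/
private lemma Lcb_ar {a : ℕ → ℕ → ℤ} {R S : ℕ} {z : ℝ} {P : Finset (ℕ × ℕ)} (hP : Pr a R S z P)
    {r s1 s2 n1 n2 m : ℕ} (hB : Bd a P r s1 s2 n1 n2)
    (d1 : ((r * s1 : ℕ) : ℤ) ∣ ((m * n1 : ℕ) : ℤ) - a r s1)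
    (d2 : (r : ℤ) ∣ ((m * n2 : ℕ) : ℤ) - a r s2) : ¬ s2.Coprime s1 ∨ ¬ n2.Coprime s2 := by
  obtain ⟨hB1, hB2, hB3⟩ := hB
  obtain ⟨_, _, _, _, sq1, g1, _⟩ := hP _ hB1
  obtain ⟨_, _, _, _, sq2, g2, _⟩ := hP _ hB2
  simp only at sq1 sq2 g1 g2
  by_contra hcon
  rw [not_or, not_not, not_not] at hcon
  obtain ⟨c1, c2⟩ := hcon
  refine hB3 ⟨sq1, sq2, c1.symm, Lcb_cop g1 d1, Nat.Coprime.mul_right (Lcb_cop (Lcb_gr g2) d2) c2,
    g1, g2, ?_⟩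
  rw [mul_one]
  have e1 : (r : ℤ) ∣ ((m * n1 : ℕ) : ℤ) - a r s1 :=
    (Int.natCast_dvd_natCast.2 (dvd_mul_right _ _)).trans d1
  have e3 : (n1 : ℤ) * a r s2 - (n2 : ℤ) * a r s1 =
      (n2 : ℤ) * (((m * n1 : ℕ) : ℤ) - a r s1) - (n1 : ℤ) * (((m * n2 : ℕ) : ℤ) - a r s2) := by
    push_cast
    ring
  rw [e3]
  exact dvd_sub (dvd_mul_of_dvd_right e1 _) (dvd_mul_of_dvd_right d2 _)

private lemma Lcb_har (S : ℕ) (hS : 1 ≤ S) : ∑ s ∈ Ioc S (2 * S), 1 / (s : ℝ) ≤ 1 := by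
  have hS' : (0 : ℝ) < S := by exact_mod_cast hS
  calc ∑ s ∈ Ioc S (2 * S), 1 / (s : ℝ) ≤ ∑ s ∈ Ioc S (2 * S), 1 / (S : ℝ) := by
        refine Finset.sum_le_sum fun s hs => ?_
        rw [mem_Ioc] at hs
        exact one_div_le_one_div_of_le hS' (by exact_mod_cast hs.1.le)
    _ = 1 := by
        rw [Finset.sum_const, Nat.card_Ioc, nsmul_eq_mul]
        have : 2 * S - S = S := by omega
        rw [this]
        field_simp

open Classical in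
theorem tLcb (h1 : LnaStmt) (h2 : LcnStmt) (h3 : MI.DprStmt) : LcbStmt := by
  intro X T z a R S M N P hSz hP
  have hna := (h1 X T z a R S M N P hSz hP).1
  obtain ⟨hT, hz, hR, hS, hN, hM, hRN, hX, hRS⟩ := hSz
  have hT1 : 1 ≤ T := hT.1
  have hR' : (1 : ℝ) ≤ R := by exact_mod_cast hR
  have hS' : (1 : ℝ) ≤ S := by exact_mod_cast hS
  have hN' : (1 : ℝ) ≤ N := by exact_mod_cast hN
  have hM' : (8 : ℝ) ≤ M := by exact_mod_cast hM
  have hz0 : 0 < z := by linarith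
  have hX2 : 2 * (S : ℝ) ≤ X := by
    refine le_trans ?_ hX
    have e1 : (S : ℝ) ≤ (S : ℝ) ^ 4 := le_self_pow₀ hS' (by norm_num)
    have e2 : (1 : ℝ) ≤ (N : ℝ) ^ 2 := one_le_pow₀ hN'
    have e3 : (1 : ℝ) ≤ (M : ℝ) ^ 2 := one_le_pow₀ (by linarith)
    have e4 : (1 : ℝ) ≤ (R : ℝ) ^ 2 := one_le_pow₀ hR'
    calc 2 * (S : ℝ) ≤ 100 * 1 * 1 * 1 * S := by linarith
      _ ≤ 100 * (M : ℝ) ^ 2 * (N : ℝ) ^ 2 * (R : ℝ) ^ 2 * (S : ℝ) ^ 4 := by gcongr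
  -- the sums over n2 for fixed m, r, s2
  have g1 : ∀ m r s2 : ℕ, R < r → 0 < s2 → s2 ≤ 2 * S → ∑ n2 ∈ Ioc N (2 * N),
      (if (r, s2) ∈ P ∧ (r : ℤ) ∣ ((m * n2 : ℕ) : ℤ) - a r s2 then 1 / (s2 : ℝ) else 0) ≤
      ((N : ℝ) / R + 1) * (1 / (s2 : ℝ)) := by
    intro m r s2 hr hs0 hs2
    by_cases hA : (r, s2) ∈ P
    · obtain ⟨_, _, _, _, sq, g, pr⟩ := hP _ hA
      simp only at sq g pr
      have k := (h2 X T z R N m r s2 (a r s2) hT hz hR hr hs0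
        (le_trans (by exact_mod_cast hs2) hX2) sq (Lcb_gr g) pr).1
      rw [← Finset.sum_filter, Finset.sum_const, nsmul_eq_mul]
      refine mul_le_mul_of_nonneg_right (le_trans ?_ k) (by positivity)
      refine Nat.cast_le.2 (Finset.card_le_card fun x hx => ?_)
      rw [mem_filter] at hx ⊢
      exact ⟨hx.1, hx.2.2⟩
    · rw [Finset.sum_eq_zero fun n2 _ => if_neg (fun h => hA h.1)]
      positivity
  have g2 : ∀ m r s2 : ℕ, R < r → 0 < s2 → s2 ≤ 2 * S → ∑ n2 ∈ Ioc N (2 * N),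
      (if (r, s2) ∈ P ∧ ((r : ℤ) ∣ ((m * n2 : ℕ) : ℤ) - a r s2 ∧ ¬ n2.Coprime s2) then
        1 / (s2 : ℝ) else 0) ≤ (T * ((N : ℝ) / (R * z) + 1)) * (1 / (s2 : ℝ)) := by
    intro m r s2 hr hs0 hs2
    by_cases hA : (r, s2) ∈ P
    · obtain ⟨_, _, _, _, sq, g, pr⟩ := hP _ hA
      simp only at sq g pr
      have k := (h2 X T z R N m r s2 (a r s2) hT hz hR hr hs0
        (le_trans (by exact_mod_cast hs2) hX2) sq (Lcb_gr g) pr).2
      rw [← Finset.sum_filter, Finset.sum_const, nsmul_eq_mul]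
      refine mul_le_mul_of_nonneg_right (le_trans ?_ k) (by positivity)
      refine Nat.cast_le.2 (Finset.card_le_card fun x hx => ?_)
      rw [mem_filter] at hx ⊢
      exact ⟨hx.1, hx.2.2⟩
    · rw [Finset.sum_eq_zero fun n2 _ => if_neg (fun h => hA h.1)]
      positivity
  -- the constant for fixed m, r, s1, n1
  obtain ⟨K, hK⟩ : ∃ K : ℝ, K = ((N : ℝ) / R + 1) * (2 * T / z) +
    (T * ((N : ℝ) / (R * z) + 1)) := ⟨_, rfl⟩
  have hK0 : 0 ≤ K := by rw [hK]; positivity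
  -- termwise
  have hterm : ∀ m r s1 s2 n1 n2 : ℕ,
      (if Bd a P r s1 s2 n1 n2 then D1 (a r s1) r s1 (m * n1) * D2 (a r s2) r s2 (m * n2) else 0) ≤
      if ((r, s1) ∈ P ∧ ((r * s1 : ℕ) : ℤ) ∣ ((m * n1 : ℕ) : ℤ) - a r s1) then
        ((if ((∀ p : ℕ, p.Prime → p ∣ s2 → z < p) ∧ ¬ s2.Coprime s1) then
          (if (r, s2) ∈ P ∧ (r : ℤ) ∣ ((m * n2 : ℕ) : ℤ) - a r s2 then 1 / (s2 : ℝ) else 0)
          else 0) +
        (if (r, s2) ∈ P ∧ ((r : ℤ) ∣ ((m * n2 : ℕ) : ℤ) - a r s2 ∧ ¬ n2.Coprime s2) then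
          1 / (s2 : ℝ) else 0)) else 0 := by
    intro m r s1 s2 n1 n2
    have q1 : (0 : ℝ) ≤ if ((∀ p : ℕ, p.Prime → p ∣ s2 → z < p) ∧ ¬ s2.Coprime s1) then
          (if (r, s2) ∈ P ∧ (r : ℤ) ∣ ((m * n2 : ℕ) : ℤ) - a r s2 then 1 / (s2 : ℝ) else 0)
          else 0 := by split_ifs <;> positivity
    have q2 : (0 : ℝ) ≤ if (r, s2) ∈ P ∧ ((r : ℤ) ∣ ((m * n2 : ℕ) : ℤ) - a r s2 ∧
          ¬ n2.Coprime s2) then 1 / (s2 : ℝ) else 0 := by split_ifs <;> positivity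
    have hnn : (0 : ℝ) ≤ if ((r, s1) ∈ P ∧ ((r * s1 : ℕ) : ℤ) ∣ ((m * n1 : ℕ) : ℤ) - a r s1) then
        ((if ((∀ p : ℕ, p.Prime → p ∣ s2 → z < p) ∧ ¬ s2.Coprime s1) then
          (if (r, s2) ∈ P ∧ (r : ℤ) ∣ ((m * n2 : ℕ) : ℤ) - a r s2 then 1 / (s2 : ℝ) else 0)
          else 0) +
        (if (r, s2) ∈ P ∧ ((r : ℤ) ∣ ((m * n2 : ℕ) : ℤ) - a r s2 ∧ ¬ n2.Coprime s2) then
          1 / (s2 : ℝ) else 0)) else 0 := by
      by_cases hA : ((r, s1) ∈ P ∧ ((r * s1 : ℕ) : ℤ) ∣ ((m * n1 : ℕ) : ℤ) - a r s1)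
      · rw [if_pos hA]
        exact add_nonneg q1 q2
      · rw [if_neg hA]
    by_cases hB : Bd a P r s1 s2 n1 n2
    · rw [if_pos hB]
      unfold D1 D2
      by_cases ha : ((r * s1 : ℕ) : ℤ) ∣ ((m * n1 : ℕ) : ℤ) - a r s1
      · by_cases hb : (r : ℤ) ∣ ((m * n2 : ℕ) : ℤ) - a r s2
        · have k3 : ∀ p : ℕ, p.Prime → p ∣ s2 → z < p := (hP _ hB.2.1).2.2.2.2.2.2
          rw [if_pos ha, if_pos hb, if_pos ⟨hB.1, ha⟩, one_mul, mul_one]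
          rcases Lcb_ar hP hB ha hb with h | h
          · rw [if_pos ⟨k3, h⟩, if_pos (⟨hB.2.1, hb⟩ : (r, s2) ∈ P ∧ _)]
            linarith
          · rw [if_pos (⟨hB.2.1, hb, h⟩ : (r, s2) ∈ P ∧ _ ∧ _)]
            linarith
        · rw [if_neg hb, mul_zero, mul_zero]
          exact hnn
      · rw [if_neg ha, zero_mul]
        exact hnn
    · rw [if_neg hB]
      exact hnn
  -- sum over s2, n2 for fixed m, r, s1, n1
  have hin : ∀ m r s1 n1 : ℕ, R < r → s1 ∈ Ioc S (2 * S) →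
      ∑ s2 ∈ Ioc S (2 * S), ∑ n2 ∈ Ioc N (2 * N),
        (if Bd a P r s1 s2 n1 n2 then D1 (a r s1) r s1 (m * n1) * D2 (a r s2) r s2 (m * n2)
          else 0) ≤
      if ((r, s1) ∈ P ∧ ((r * s1 : ℕ) : ℤ) ∣ ((m * n1 : ℕ) : ℤ) - a r s1) then K else 0 := by
    intro m r s1 n1 hr hs1
    rw [mem_Ioc] at hs1
    refine (Finset.sum_le_sum fun s2 _ => Finset.sum_le_sum fun n2 _ =>
      hterm m r s1 s2 n1 n2).trans ?_
    by_cases hA : ((r, s1) ∈ P ∧ ((r * s1 : ℕ) : ℤ) ∣ ((m * n1 : ℕ) : ℤ) - a r s1)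
    · simp only [if_pos hA, Finset.sum_add_distrib]
      rw [hK]
      refine add_le_add ?_ ?_
      · calc ∑ s2 ∈ Ioc S (2 * S), ∑ n2 ∈ Ioc N (2 * N),
            (if ((∀ p : ℕ, p.Prime → p ∣ s2 → z < p) ∧ ¬ s2.Coprime s1) then
            (if (r, s2) ∈ P ∧ (r : ℤ) ∣ ((m * n2 : ℕ) : ℤ) - a r s2 then 1 / (s2 : ℝ) else 0)
            else 0)
            ≤ ∑ s2 ∈ Ioc S (2 * S),
              (if ((∀ p : ℕ, p.Prime → p ∣ s2 → z < p) ∧ ¬ s2.Coprime s1) then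
                ((N : ℝ) / R + 1) * (1 / (s2 : ℝ)) else 0) := by
              refine Finset.sum_le_sum fun s2 hs2 => ?_
              rw [mem_Ioc] at hs2
              by_cases hc : ((∀ p : ℕ, p.Prime → p ∣ s2 → z < p) ∧ ¬ s2.Coprime s1)
              · simp only [if_pos hc]
                exact g1 m r s2 hr (by omega) hs2.2
              · simp only [if_neg hc, Finset.sum_const_zero, le_refl]
          _ = ((N : ℝ) / R + 1) * ∑ s ∈ (Ioc S (2 * S)).filter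
                (fun s => (∀ p : ℕ, p.Prime → p ∣ s → z < p) ∧ ¬ s.Coprime s1), 1 / (s : ℝ) := by
              rw [← Finset.sum_filter, Finset.mul_sum]
          _ ≤ ((N : ℝ) / R + 1) * (2 * T / z) := by
              refine mul_le_mul_of_nonneg_left ?_ (by positivity)
              exact h3 X T z S s1 hT hz hS (by omega) (le_trans (by exact_mod_cast hs1.2) hX2)
      · calc ∑ s2 ∈ Ioc S (2 * S), ∑ n2 ∈ Ioc N (2 * N),
            (if (r, s2) ∈ P ∧ ((r : ℤ) ∣ ((m * n2 : ℕ) : ℤ) - a r s2 ∧ ¬ n2.Coprime s2) then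
              1 / (s2 : ℝ) else 0)
            ≤ ∑ s2 ∈ Ioc S (2 * S), (T * ((N : ℝ) / (R * z) + 1)) * (1 / (s2 : ℝ)) := by
              refine Finset.sum_le_sum fun s2 hs2 => ?_
              rw [mem_Ioc] at hs2
              exact g2 m r s2 hr (by omega) hs2.2
          _ = (T * ((N : ℝ) / (R * z) + 1)) * ∑ s2 ∈ Ioc S (2 * S), 1 / (s2 : ℝ) := by
              rw [Finset.mul_sum]
          _ ≤ (T * ((N : ℝ) / (R * z) + 1)) * 1 :=
              mul_le_mul_of_nonneg_left (Lcb_har S hS) (by positivity)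
          _ = T * ((N : ℝ) / (R * z) + 1) := mul_one _
    · simp only [if_neg hA, Finset.sum_const_zero, le_refl]
  -- sum over r, s1 for fixed m, n1
  have hcnt : ∀ m n1 : ℕ, ∑ r ∈ Ioc R (2 * R), ∑ s1 ∈ Ioc S (2 * S),
      (if ((r, s1) ∈ P ∧ ((r * s1 : ℕ) : ℤ) ∣ ((m * n1 : ℕ) : ℤ) - a r s1) then K else 0) ≤
      ((P.filter (fun w => ((w.1 * w.2 : ℕ) : ℤ) ∣ ((m * n1 : ℕ) : ℤ) - a w.1 w.2)).card : ℝ) *
        K := by
    intro m n1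
    rw [← Finset.sum_product' (Ioc R (2 * R)) (Ioc S (2 * S))
      (fun r s1 => if ((r, s1) ∈ P ∧ ((r * s1 : ℕ) : ℤ) ∣ ((m * n1 : ℕ) : ℤ) - a r s1) then K
        else 0),
      ← Finset.sum_filter, Finset.sum_const, nsmul_eq_mul]
    refine mul_le_mul_of_nonneg_right ?_ hK0
    refine Nat.cast_le.2 (Finset.card_le_card fun w hw => ?_)
    rw [mem_filter] at hw ⊢
    exact hw.2
  -- together
  calc ∑ m ∈ Icc (M / 2) (3 * M), ∑ r ∈ Ioc R (2 * R), ∑ s1 ∈ Ioc S (2 * S), ∑ s2 ∈ Ioc S (2 * S),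
      ∑ n1 ∈ Ioc N (2 * N), ∑ n2 ∈ Ioc N (2 * N),
      (if Bd a P r s1 s2 n1 n2 then D1 (a r s1) r s1 (m * n1) * D2 (a r s2) r s2 (m * n2) else 0)
      ≤ ∑ m ∈ Icc (M / 2) (3 * M), ∑ n1 ∈ Ioc N (2 * N), ∑ r ∈ Ioc R (2 * R),
        ∑ s1 ∈ Ioc S (2 * S),
        (if ((r, s1) ∈ P ∧ ((r * s1 : ℕ) : ℤ) ∣ ((m * n1 : ℕ) : ℤ) - a r s1) then K else 0) := by
        refine Finset.sum_le_sum fun m _ => ?_
        calc ∑ r ∈ Ioc R (2 * R), ∑ s1 ∈ Ioc S (2 * S), ∑ s2 ∈ Ioc S (2 * S),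
            ∑ n1 ∈ Ioc N (2 * N), ∑ n2 ∈ Ioc N (2 * N),
            (if Bd a P r s1 s2 n1 n2 then
              D1 (a r s1) r s1 (m * n1) * D2 (a r s2) r s2 (m * n2) else 0)
            ≤ ∑ r ∈ Ioc R (2 * R), ∑ s1 ∈ Ioc S (2 * S), ∑ n1 ∈ Ioc N (2 * N),
              (if ((r, s1) ∈ P ∧ ((r * s1 : ℕ) : ℤ) ∣ ((m * n1 : ℕ) : ℤ) - a r s1) then K
                else 0) := by
              refine Finset.sum_le_sum fun r hr => Finset.sum_le_sum fun s1 hs1 => ?_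
              rw [mem_Ioc] at hr
              rw [Finset.sum_comm]
              exact Finset.sum_le_sum fun n1 _ => hin m r s1 n1 hr.1 hs1
          _ = ∑ r ∈ Ioc R (2 * R), ∑ n1 ∈ Ioc N (2 * N), ∑ s1 ∈ Ioc S (2 * S),
              (if ((r, s1) ∈ P ∧ ((r * s1 : ℕ) : ℤ) ∣ ((m * n1 : ℕ) : ℤ) - a r s1) then K
                else 0) :=
              Finset.sum_congr rfl fun r _ => Finset.sum_comm
          _ = _ := Finset.sum_comm
    _ ≤ ∑ m ∈ Icc (M / 2) (3 * M), ∑ n1 ∈ Ioc N (2 * N),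
        ((P.filter (fun w => ((w.1 * w.2 : ℕ) : ℤ) ∣ ((m * n1 : ℕ) : ℤ) - a w.1 w.2)).card : ℝ) *
        K := Finset.sum_le_sum fun m _ => Finset.sum_le_sum fun n1 _ => hcnt m n1
    _ = (∑ m ∈ Icc (M / 2) (3 * M), ∑ n1 ∈ Ioc N (2 * N),
        ((P.filter (fun w => ((w.1 * w.2 : ℕ) : ℤ) ∣ ((m * n1 : ℕ) : ℤ) - a w.1 w.2)).card : ℝ)) *
        K := by
        rw [Finset.sum_mul]
        refine Finset.sum_congr rfl fun m _ => ?_
        rw [Finset.sum_mul]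
    _ ≤ 7 * T * ((M : ℝ) * N) * K := mul_le_mul_of_nonneg_right hna hK0
    _ ≤ 21 * T ^ 2 * ((M : ℝ) * N * (1 + N / ((R : ℝ) * z))) := by
        have e3 : K ≤ 3 * T * (1 + N / ((R : ℝ) * z)) := by
          rw [hK]
          have e4 : ((N : ℝ) / R + 1) * (2 * T / z) = 2 * T * (1 / z + N / ((R : ℝ) * z)) := by
            field_simp
            ring
          rw [e4]
          have e5 : 1 / z ≤ 1 := by
            rw [div_le_one hz0]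
            exact hz
          have e6 : 2 * T * (1 / z + N / ((R : ℝ) * z)) ≤ 2 * T * (1 + N / ((R : ℝ) * z)) :=
            mul_le_mul_of_nonneg_left (by linarith) (by linarith)
          linarith
        calc 7 * T * ((M : ℝ) * N) * K ≤
            7 * T * ((M : ℝ) * N) * (3 * T * (1 + N / ((R : ℝ) * z))) := by gcongr
          _ = _ := by ring

end Pool.Agent.Lib.SL
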