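import Pool.Agent.Lib.SL.SpecD

/-! Module Lcc (both averaged), helper94. -/

set_option autoImplicit false

namespace Pool.Agent.Lib.SL

open Finset Pool.Agent.Lib.EH3 Pool.Agent.Lib.TB Pool.Agent.Results.MP_00e23e_nt Pool.Agent.Lib.MI

private lemma Lcc_inv (S : ℕ) (hS : 1 ≤ S) : ∑ s ∈ Ioc S (2 * S), 1 / (s : ℝ) ≤ 1 := by
  have hS0 : (0 : ℝ) < S := by exact_mod_cast hS
  calc ∑ s ∈ Ioc S (2 * S), 1 / (s : ℝ) ≤ ∑ s ∈ Ioc S (2 * S), 1 / (S : ℝ) := by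
        refine Finset.sum_le_sum fun s hs => ?_
        have : (S : ℝ) ≤ s := by exact_mod_cast (Finset.mem_Ioc.1 hs).1.le
        exact one_div_le_one_div_of_le hS0 this
    _ = 1 := by
        rw [Finset.sum_const, Nat.card_Ioc, nsmul_eq_mul]
        have : 2 * S - S = S := by omega
        rw [this]
        field_simp

open Classical in
/-- the indicator of a pair of `P` with the congruence modulo `r` -/
private noncomputable def Lcc_A (a : ℕ → ℕ → ℤ) (P : Finset (ℕ × ℕ)) (m r s n : ℕ) : ℝ :=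
  if (r, s) ∈ P ∧ (r : ℤ) ∣ ((m * n : ℕ) : ℤ) - a r s then 1 else 0

private lemma Lcc_A_nonneg (a : ℕ → ℕ → ℤ) (P : Finset (ℕ × ℕ)) (m r s n : ℕ) :
    0 ≤ Lcc_A a P m r s n := by
  unfold Lcc_A
  split_ifs <;> norm_num

open Classical in
private noncomputable def Lcc_e (n s : ℕ) : ℝ := if ¬ n.Coprime s then 1 else 0

private lemma Lcc_e_nonneg (n s : ℕ) : 0 ≤ Lcc_e n s := by
  unfold Lcc_e
  split_ifs <;> norm_num

/-- the pointwise inequality -/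
private lemma Lcc_pt {z : ℝ} {a : ℕ → ℕ → ℤ} {R S : ℕ} {P : Finset (ℕ × ℕ)}
    (hPr : Pr a R S z P) (m r s1 s2 n1 n2 : ℕ) [Decidable (Bd a P r s1 s2 n1 n2)] :
    (if Bd a P r s1 s2 n1 n2 then D2 (a r s1) r s1 (m * n1) * D2 (a r s2) r s2 (m * n2) else 0) ≤
      (1 / (s1 : ℝ) * Lcc_A a P m r s1 n1) *
        (1 / (s2 : ℝ) * (Lcc_A a P m r s2 n2 * Lcc_e s1 s2) +
          1 / (s2 : ℝ) * (Lcc_A a P m r s2 n2 * Lcc_e n2 s2)) +
      (1 / (s2 : ℝ) * Lcc_A a P m r s2 n2) *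
        (1 / (s1 : ℝ) * (Lcc_A a P m r s1 n1 * Lcc_e n1 s1)) := by
  have hA1 := Lcc_A_nonneg a P m r s1 n1
  have hA2 := Lcc_A_nonneg a P m r s2 n2
  have he1 := Lcc_e_nonneg s1 s2
  have he2 := Lcc_e_nonneg n2 s2
  have he3 := Lcc_e_nonneg n1 s1
  have hnn : 0 ≤ (1 / (s1 : ℝ) * Lcc_A a P m r s1 n1) *
        (1 / (s2 : ℝ) * (Lcc_A a P m r s2 n2 * Lcc_e s1 s2) +
          1 / (s2 : ℝ) * (Lcc_A a P m r s2 n2 * Lcc_e n2 s2)) +
      (1 / (s2 : ℝ) * Lcc_A a P m r s2 n2) *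
        (1 / (s1 : ℝ) * (Lcc_A a P m r s1 n1 * Lcc_e n1 s1)) := by positivity
  by_cases hB : Bd a P r s1 s2 n1 n2
  swap
  · rw [if_neg hB]; exact hnn
  rw [if_pos hB]
  by_cases h1 : (r : ℤ) ∣ ((m * n1 : ℕ) : ℤ) - a r s1
  swap
  · have : D2 (a r s1) r s1 (m * n1) = 0 := by
      unfold D2
      rw [if_neg h1, mul_zero]
    rw [this, zero_mul]; exact hnn
  by_cases h2 : (r : ℤ) ∣ ((m * n2 : ℕ) : ℤ) - a r s2
  swap
  · have : D2 (a r s2) r s2 (m * n2) = 0 := by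
      unfold D2
      rw [if_neg h2, mul_zero]
    rw [this, mul_zero]; exact hnn
  obtain ⟨hP1, hP2, hnG⟩ := hB
  obtain ⟨_, _, _, _, hsq1, hg1, _⟩ := hPr _ hP1
  obtain ⟨_, _, _, _, hsq2, hg2, _⟩ := hPr _ hP2
  simp only at hsq1 hg1 hsq2 hg2
  have hga1 : IsCoprime (a r s1) (r : ℤ) := by
    have h3 := hg1
    rw [← Int.isCoprime_iff_gcd_eq_one] at h3
    push_cast at h3
    exact h3.of_mul_right_left
  have hga2 : IsCoprime (a r s2) (r : ℤ) := by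
    have h3 := hg2
    rw [← Int.isCoprime_iff_gcd_eq_one] at h3
    push_cast at h3
    exact h3.of_mul_right_left
  have hcop : ∀ (b : ℤ) (n : ℕ), IsCoprime b (r : ℤ) → (r : ℤ) ∣ ((m * n : ℕ) : ℤ) - b →
      IsCoprime ((m * n : ℕ) : ℤ) (r : ℤ) := by
    intro b n hb hn
    obtain ⟨k, hk⟩ := hn
    have : ((m * n : ℕ) : ℤ) = b + r * k := by linarith
    rw [this]
    exact hb.add_mul_left_left k
  have hc1 := hcop _ n1 hga1 h1
  have hc2 := hcop _ n2 hga2 h2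
  push_cast at hc1 hc2
  have hn1r : n1.Coprime r := Nat.isCoprime_iff_coprime.1 hc1.of_mul_left_right
  have hn2r : n2.Coprime r := Nat.isCoprime_iff_coprime.1 hc2.of_mul_left_right
  have hdvd : ((r * 1 : ℕ) : ℤ) ∣ (n1 : ℤ) * a r s2 - (n2 : ℤ) * a r s1 := by
    rw [mul_one]
    have h3 := dvd_sub (h1.mul_left (n2 : ℤ)) (h2.mul_left (n1 : ℤ))
    have h4 : (n2 : ℤ) * (((m * n1 : ℕ) : ℤ) - a r s1) - (n1 : ℤ) * (((m * n2 : ℕ) : ℤ) - a r s2)
        = (n1 : ℤ) * a r s2 - (n2 : ℤ) * a r s1 := by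
      push_cast; ring
    rw [h4] at h3
    exact h3
  have hA1e : Lcc_A a P m r s1 n1 = 1 := by
    unfold Lcc_A
    rw [if_pos ⟨hP1, h1⟩]
  have hA2e : Lcc_A a P m r s2 n2 = 1 := by
    unfold Lcc_A
    rw [if_pos ⟨hP2, h2⟩]
  have hD1 : D2 (a r s1) r s1 (m * n1) = 1 / (s1 : ℝ) := by
    unfold D2; rw [if_pos h1, mul_one]
  have hD2 : D2 (a r s2) r s2 (m * n2) = 1 / (s2 : ℝ) := by
    unfold D2; rw [if_pos h2, mul_one]
  rw [hD1, hD2, hA1e, hA2e]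
  have hcases : ¬ s1.Coprime s2 ∨ ¬ n2.Coprime s2 ∨ ¬ n1.Coprime s1 := by
    by_contra hcon
    push Not at hcon
    obtain ⟨e1, e2, e3⟩ := hcon
    apply hnG
    exact ⟨hsq1, hsq2, e1, Nat.Coprime.mul_right hn1r e3, Nat.Coprime.mul_right hn2r e2,
      hg1, hg2, hdvd⟩
  have hs1 : 0 ≤ 1 / (s1 : ℝ) := by positivity
  have hs2 : 0 ≤ 1 / (s2 : ℝ) := by positivity
  have key : 1 ≤ Lcc_e s1 s2 + Lcc_e n2 s2 + Lcc_e n1 s1 := by
    rcases hcases with h | h | h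
    · have : Lcc_e s1 s2 = 1 := by unfold Lcc_e; rw [if_pos h]
      linarith
    · have : Lcc_e n2 s2 = 1 := by unfold Lcc_e; rw [if_pos h]
      linarith
    · have : Lcc_e n1 s1 = 1 := by unfold Lcc_e; rw [if_pos h]
      linarith
  calc 1 / (s1 : ℝ) * (1 / (s2 : ℝ)) = 1 / (s1 : ℝ) * (1 / (s2 : ℝ)) * 1 := (mul_one _).symm
    _ ≤ 1 / (s1 : ℝ) * (1 / (s2 : ℝ)) * (Lcc_e s1 s2 + Lcc_e n2 s2 + Lcc_e n1 s1) :=
        mul_le_mul_of_nonneg_left key (mul_nonneg hs1 hs2)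
    _ = _ := by ring

private lemma Lcc_sizes {X : ℝ} {R S M N : ℕ} (hR : 1 ≤ R) (hS : 1 ≤ S) (hN : 1 ≤ N) (hM : 8 ≤ M)
    (hX : 100 * (M : ℝ) ^ 2 * (N : ℝ) ^ 2 * (R : ℝ) ^ 2 * (S : ℝ) ^ 4 ≤ X) :
    ((2 * S : ℕ) : ℝ) ≤ X := by
  refine le_trans ?_ hX
  push_cast
  have hM0 : (8 : ℝ) ≤ M := by exact_mod_cast hM
  have h2 : (1 : ℝ) ≤ N := by exact_mod_cast hN
  have h3 : (1 : ℝ) ≤ R := by exact_mod_cast hR
  have h4 : (1 : ℝ) ≤ S := by exact_mod_cast hS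
  have h5 : (1 : ℝ) ≤ (M : ℝ) ^ 2 := one_le_pow₀ (by linarith)
  have h6 : (1 : ℝ) ≤ (N : ℝ) ^ 2 := one_le_pow₀ h2
  have h7 : (1 : ℝ) ≤ (R : ℝ) ^ 2 := one_le_pow₀ h3
  have h8 : (S : ℝ) ≤ (S : ℝ) ^ 4 := le_self_pow₀ h4 (by norm_num)
  have h9 : (1 : ℝ) ≤ (M : ℝ) ^ 2 * (N : ℝ) ^ 2 * (R : ℝ) ^ 2 :=
    one_le_mul_of_one_le_of_one_le (one_le_mul_of_one_le_of_one_le h5 h6) h7
  nlinarith [mul_le_mul h9 h8 (by positivity) (by positivity)]

open Classical in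
theorem tLcc (hLna : LnaStmt) (hLcn : LcnStmt) (hDpr : MI.DprStmt) : LccStmt := by
  intro X T z a R S M N P hSz hPr
  obtain ⟨hTau, hz, hR, hS, hN, hM, hRN, hX, hRS⟩ := id hSz
  have hT1 : 1 ≤ T := hTau.1
  have hS0 : (0 : ℝ) < S := by exact_mod_cast hS
  have hR0 : (0 : ℝ) < R := by exact_mod_cast hR
  have hN0 : (0 : ℝ) < N := by exact_mod_cast hN
  have hM0 : (8 : ℝ) ≤ M := by exact_mod_cast hM
  have hz0 : 0 < z := by linarith
  have hXS := Lcc_sizes hR hS hN hM hX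
  obtain ⟨W, hW⟩ : ∃ W : ℝ, W = 1 + (N : ℝ) / ((R : ℝ) * z) := ⟨_, rfl⟩
  have hW0 : 0 ≤ W := by rw [hW]; positivity
  have hT0 : 0 ≤ T := by linarith
  -- the inner sums
  have hin1 : ∀ m r : ℕ, ∀ s1 ∈ Ioc S (2 * S), R < r →
      ∑ s2 ∈ Ioc S (2 * S), ∑ n2 ∈ Ioc N (2 * N),
        1 / (s2 : ℝ) * (Lcc_A a P m r s2 n2 * Lcc_e s1 s2) ≤ 2 * T * W := by
    intro m r s1 hs1 hr
    rw [Finset.mem_Ioc] at hs1
    have hb : ∀ s2 ∈ Ioc S (2 * S), ∑ n2 ∈ Ioc N (2 * N),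
        1 / (s2 : ℝ) * (Lcc_A a P m r s2 n2 * Lcc_e s1 s2) ≤
        (if (∀ p : ℕ, p.Prime → p ∣ s2 → z < p) ∧ ¬ s2.Coprime s1 then 1 / (s2 : ℝ) else 0) *
          ((N : ℝ) / R + 1) := by
      intro s2 hs2
      rw [Finset.mem_Ioc] at hs2
      have hnn : 0 ≤ (if (∀ p : ℕ, p.Prime → p ∣ s2 → z < p) ∧ ¬ s2.Coprime s1
          then 1 / (s2 : ℝ) else 0) * ((N : ℝ) / R + 1) := by
        apply mul_nonneg
        · split_ifs
          · positivity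
          · exact le_rfl
        · positivity
      by_cases hP : (r, s2) ∈ P
      swap
      · refine le_trans (le_of_eq ?_) hnn
        apply Finset.sum_eq_zero
        intro n2 _
        have : Lcc_A a P m r s2 n2 = 0 := by
          unfold Lcc_A
          rw [if_neg (fun h => hP h.1)]
        rw [this]; ring
      by_cases hcc : s1.Coprime s2
      · refine le_trans (le_of_eq ?_) hnn
        apply Finset.sum_eq_zero
        intro n2 _
        have : Lcc_e s1 s2 = 0 := by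
          unfold Lcc_e
          rw [if_neg (not_not.2 hcc)]
        rw [this]; ring
      obtain ⟨_, _, _, _, hsq, hg, hro⟩ := hPr _ hP
      simp only at hsq hg hro
      have hgr : Int.gcd (a r s2) r = 1 := by
        rw [← Int.isCoprime_iff_gcd_eq_one] at hg ⊢
        push_cast at hg
        exact hg.of_mul_right_left
      have hcn := (hLcn X T z R N m r s2 (a r s2) hTau hz hR hr (by omega)
        (le_trans (by exact_mod_cast hs2.2) hXS) hsq hgr hro).1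
      rw [if_pos ⟨hro, fun h => hcc h.symm⟩]
      calc ∑ n2 ∈ Ioc N (2 * N), 1 / (s2 : ℝ) * (Lcc_A a P m r s2 n2 * Lcc_e s1 s2)
          ≤ ∑ n2 ∈ Ioc N (2 * N), 1 / (s2 : ℝ) *
              (if (r : ℤ) ∣ ((m * n2 : ℕ) : ℤ) - a r s2 then 1 else 0) := by
            refine Finset.sum_le_sum fun n2 _ => ?_
            apply mul_le_mul_of_nonneg_left _ (by positivity)
            unfold Lcc_A Lcc_e
            rw [if_pos hcc, mul_one]
            by_cases h : (r : ℤ) ∣ ((m * n2 : ℕ) : ℤ) - a r s2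
            · rw [if_pos h]; split_ifs <;> norm_num
            · rw [if_neg h, if_neg (fun h' => h h'.2)]
        _ = 1 / (s2 : ℝ) * (((Ioc N (2 * N)).filter
              (fun n : ℕ => (r : ℤ) ∣ ((m * n : ℕ) : ℤ) - a r s2)).card : ℝ) := by
            rw [← Finset.mul_sum, Finset.sum_ite, Finset.sum_const_zero, add_zero,
              Finset.sum_const, nsmul_eq_mul, mul_one]
        _ ≤ 1 / (s2 : ℝ) * ((N : ℝ) / R + 1) := mul_le_mul_of_nonneg_left hcn (by positivity)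
    refine (Finset.sum_le_sum hb).trans ?_
    rw [← Finset.sum_mul, ← Finset.sum_filter]
    have hD := hDpr X T z S s1 hTau hz hS (by omega) (le_trans (by exact_mod_cast hs1.2) hXS)
    calc _ ≤ 2 * T / z * ((N : ℝ) / R + 1) := mul_le_mul_of_nonneg_right hD (by positivity)
      _ = 2 * T * (((N : ℝ) / R + 1) / z) := by ring
      _ ≤ 2 * T * W := by
          apply mul_le_mul_of_nonneg_left _ (by positivity)
          have e1 : ((N : ℝ) / R + 1) / z = 1 / z + N / ((R : ℝ) * z) := by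
            field_simp
            ring
          have e2 : 1 / z ≤ 1 := by
            rw [div_le_one hz0]; exact hz
          rw [e1, hW]
          linarith
  have hin2 : ∀ m r : ℕ, R < r →
      ∑ s2 ∈ Ioc S (2 * S), ∑ n2 ∈ Ioc N (2 * N),
        1 / (s2 : ℝ) * (Lcc_A a P m r s2 n2 * Lcc_e n2 s2) ≤ T * W := by
    intro m r hr
    have hb : ∀ s2 ∈ Ioc S (2 * S), ∑ n2 ∈ Ioc N (2 * N),
        1 / (s2 : ℝ) * (Lcc_A a P m r s2 n2 * Lcc_e n2 s2) ≤ 1 / (s2 : ℝ) * (T * W) := by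
      intro s2 hs2
      rw [Finset.mem_Ioc] at hs2
      rw [← Finset.mul_sum]
      apply mul_le_mul_of_nonneg_left _ (by positivity)
      by_cases hP : (r, s2) ∈ P
      swap
      · refine le_trans (le_of_eq ?_) (by positivity : (0 : ℝ) ≤ T * W)
        apply Finset.sum_eq_zero
        intro n2 _
        have : Lcc_A a P m r s2 n2 = 0 := by
          unfold Lcc_A
          rw [if_neg (fun h => hP h.1)]
        rw [this]; ring
      obtain ⟨_, _, _, _, hsq, hg, hro⟩ := hPr _ hP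
      simp only at hsq hg hro
      have hgr : Int.gcd (a r s2) r = 1 := by
        rw [← Int.isCoprime_iff_gcd_eq_one] at hg ⊢
        push_cast at hg
        exact hg.of_mul_right_left
      have hcn := (hLcn X T z R N m r s2 (a r s2) hTau hz hR hr (by omega)
        (le_trans (by exact_mod_cast hs2.2) hXS) hsq hgr hro).2
      calc ∑ n2 ∈ Ioc N (2 * N), Lcc_A a P m r s2 n2 * Lcc_e n2 s2
          ≤ ∑ n2 ∈ Ioc N (2 * N),
              (if (r : ℤ) ∣ ((m * n2 : ℕ) : ℤ) - a r s2 ∧ ¬ n2.Coprime s2 then (1 : ℝ) else 0) := by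
            refine Finset.sum_le_sum fun n2 _ => ?_
            unfold Lcc_A Lcc_e
            by_cases h : (r : ℤ) ∣ ((m * n2 : ℕ) : ℤ) - a r s2 ∧ ¬ n2.Coprime s2
            · rw [if_pos h]; split_ifs <;> norm_num
            · rw [if_neg h]
              by_cases h' : ¬ n2.Coprime s2
              · rw [if_neg (fun h'' => h ⟨h''.2, h'⟩), zero_mul]
              · rw [if_neg h', mul_zero]
        _ = (((Ioc N (2 * N)).filter
              (fun n : ℕ => (r : ℤ) ∣ ((m * n : ℕ) : ℤ) - a r s2 ∧ ¬ n.Coprime s2)).card : ℝ) := by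
            rw [Finset.sum_ite, Finset.sum_const_zero, add_zero,
              Finset.sum_const, nsmul_eq_mul, mul_one]
        _ ≤ T * ((N : ℝ) / (R * z) + 1) := hcn
        _ = T * W := by rw [hW]; ring
    refine (Finset.sum_le_sum hb).trans ?_
    rw [← Finset.sum_mul]
    calc (∑ s ∈ Ioc S (2 * S), 1 / (s : ℝ)) * (T * W) ≤ 1 * (T * W) :=
          mul_le_mul_of_nonneg_right (Lcc_inv S hS) (by positivity)
      _ = T * W := one_mul _
  -- the outer sum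
  have hout : ∑ m ∈ Icc (M / 2) (3 * M), ∑ r ∈ Ioc R (2 * R), ∑ s ∈ Ioc S (2 * S),
      ∑ n ∈ Ioc N (2 * N), 1 / (s : ℝ) * Lcc_A a P m r s n ≤ 7 * T * ((M : ℝ) * N) := by
    have hna := (hLna X T z a R S M N P hSz hPr).2
    have e1 : ∑ m ∈ Icc (M / 2) (3 * M), ∑ r ∈ Ioc R (2 * R), ∑ s ∈ Ioc S (2 * S),
        ∑ n ∈ Ioc N (2 * N), 1 / (s : ℝ) * Lcc_A a P m r s n =
        ∑ s ∈ Ioc S (2 * S), 1 / (s : ℝ) * ∑ m ∈ Icc (M / 2) (3 * M), ∑ n ∈ Ioc N (2 * N),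
          ∑ r ∈ Ioc R (2 * R), Lcc_A a P m r s n := by
      calc _ = ∑ m ∈ Icc (M / 2) (3 * M), ∑ s ∈ Ioc S (2 * S), ∑ r ∈ Ioc R (2 * R),
            ∑ n ∈ Ioc N (2 * N), 1 / (s : ℝ) * Lcc_A a P m r s n :=
            Finset.sum_congr rfl fun m _ => Finset.sum_comm
        _ = ∑ s ∈ Ioc S (2 * S), ∑ m ∈ Icc (M / 2) (3 * M), ∑ r ∈ Ioc R (2 * R),
            ∑ n ∈ Ioc N (2 * N), 1 / (s : ℝ) * Lcc_A a P m r s n := Finset.sum_comm
        _ = _ := by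
            refine Finset.sum_congr rfl fun s _ => ?_
            rw [Finset.mul_sum]
            refine Finset.sum_congr rfl fun m _ => ?_
            rw [Finset.sum_comm, Finset.mul_sum]
            refine Finset.sum_congr rfl fun n _ => ?_
            rw [Finset.mul_sum]
    rw [e1]
    have hb : ∀ s ∈ Ioc S (2 * S), 1 / (s : ℝ) * ∑ m ∈ Icc (M / 2) (3 * M), ∑ n ∈ Ioc N (2 * N),
        ∑ r ∈ Ioc R (2 * R), Lcc_A a P m r s n ≤ 1 / (s : ℝ) * (7 * T * ((M : ℝ) * N)) := by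
      intro s _
      apply mul_le_mul_of_nonneg_left _ (by positivity)
      refine le_trans (le_of_eq ?_) (hna s)
      refine Finset.sum_congr rfl fun m _ => Finset.sum_congr rfl fun n _ => ?_
      unfold Lcc_A
      rw [Finset.sum_ite, Finset.sum_const_zero, add_zero, Finset.sum_const, nsmul_eq_mul, mul_one]
    refine (Finset.sum_le_sum hb).trans ?_
    rw [← Finset.sum_mul]
    calc (∑ s ∈ Ioc S (2 * S), 1 / (s : ℝ)) * (7 * T * ((M : ℝ) * N)) ≤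
          1 * (7 * T * ((M : ℝ) * N)) :=
          mul_le_mul_of_nonneg_right (Lcc_inv S hS) (by positivity)
      _ = _ := one_mul _
  -- the two parts
  obtain ⟨F, hF⟩ : ∃ F : ℕ → ℕ → ℕ → ℕ → ℝ, F = fun (m r s n : ℕ) =>
      1 / (s : ℝ) * Lcc_A a P m r s n :=
    ⟨_, rfl⟩
  obtain ⟨G, hG⟩ : ∃ G : ℕ → ℕ → ℕ → ℕ → ℕ → ℝ, G = fun (m r s1 s2 n2 : ℕ) =>
      1 / (s2 : ℝ) * (Lcc_A a P m r s2 n2 * Lcc_e s1 s2) +
        1 / (s2 : ℝ) * (Lcc_A a P m r s2 n2 * Lcc_e n2 s2) := ⟨_, rfl⟩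
  obtain ⟨K, hK⟩ : ∃ K : ℕ → ℕ → ℕ → ℕ → ℝ, K = fun (m r s n : ℕ) =>
      1 / (s : ℝ) * (Lcc_A a P m r s n * Lcc_e n s) := ⟨_, rfl⟩
  have hF0 : ∀ m r s n, 0 ≤ F m r s n := by
    intro m r s n
    rw [hF]
    exact mul_nonneg (by positivity) (Lcc_A_nonneg _ _ _ _ _ _)
  have hK0 : ∀ m r s n, 0 ≤ K m r s n := by
    intro m r s n
    rw [hK]
    exact mul_nonneg (by positivity) (mul_nonneg (Lcc_A_nonneg _ _ _ _ _ _) (Lcc_e_nonneg _ _))
  have part1 : ∀ m, ∀ r ∈ Ioc R (2 * R), ∑ s1 ∈ Ioc S (2 * S), ∑ s2 ∈ Ioc S (2 * S),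
      ∑ n1 ∈ Ioc N (2 * N), ∑ n2 ∈ Ioc N (2 * N), F m r s1 n1 * G m r s1 s2 n2 ≤
      ∑ s1 ∈ Ioc S (2 * S), ∑ n1 ∈ Ioc N (2 * N), F m r s1 n1 * (3 * T * W) := by
    intro m r hr
    rw [Finset.mem_Ioc] at hr
    refine Finset.sum_le_sum fun s1 hs1 => ?_
    rw [Finset.sum_comm]
    refine Finset.sum_le_sum fun n1 _ => ?_
    simp_rw [← Finset.mul_sum]
    apply mul_le_mul_of_nonneg_left _ (hF0 _ _ _ _)
    rw [hG]
    simp only [Finset.sum_add_distrib]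
    have := hin1 m r s1 hs1 hr.1
    have := hin2 m r hr.1
    linarith
  have part2 : ∀ m, ∀ r ∈ Ioc R (2 * R), ∑ s1 ∈ Ioc S (2 * S), ∑ s2 ∈ Ioc S (2 * S),
      ∑ n1 ∈ Ioc N (2 * N), ∑ n2 ∈ Ioc N (2 * N), F m r s2 n2 * K m r s1 n1 ≤
      ∑ s2 ∈ Ioc S (2 * S), ∑ n2 ∈ Ioc N (2 * N), F m r s2 n2 * (T * W) := by
    intro m r hr
    rw [Finset.mem_Ioc] at hr
    rw [Finset.sum_comm]
    refine Finset.sum_le_sum fun s2 _ => ?_
    calc ∑ s1 ∈ Ioc S (2 * S), ∑ n1 ∈ Ioc N (2 * N), ∑ n2 ∈ Ioc N (2 * N),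
          F m r s2 n2 * K m r s1 n1
        = ∑ n2 ∈ Ioc N (2 * N), F m r s2 n2 * ∑ s1 ∈ Ioc S (2 * S), ∑ n1 ∈ Ioc N (2 * N),
            K m r s1 n1 := by
          simp_rw [Finset.mul_sum]
          rw [Finset.sum_comm' (s := Ioc N (2 * N)) (t := fun _ => Ioc S (2 * S))
            (t' := Ioc S (2 * S)) (s' := fun _ => Ioc N (2 * N)) (by tauto)]
          refine Finset.sum_congr rfl fun s1 _ => ?_
          rw [Finset.sum_comm]
      _ ≤ _ := by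
          refine Finset.sum_le_sum fun n2 _ => ?_
          apply mul_le_mul_of_nonneg_left _ (hF0 _ _ _ _)
          rw [hK]
          exact hin2 m r hr.1
  calc ∑ m ∈ Icc (M / 2) (3 * M), ∑ r ∈ Ioc R (2 * R), ∑ s1 ∈ Ioc S (2 * S), ∑ s2 ∈ Ioc S (2 * S),
        ∑ n1 ∈ Ioc N (2 * N), ∑ n2 ∈ Ioc N (2 * N),
        (if Bd a P r s1 s2 n1 n2 then D2 (a r s1) r s1 (m * n1) * D2 (a r s2) r s2 (m * n2) else 0)
      ≤ ∑ m ∈ Icc (M / 2) (3 * M), ∑ r ∈ Ioc R (2 * R), ∑ s1 ∈ Ioc S (2 * S),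
          ∑ s2 ∈ Ioc S (2 * S), ∑ n1 ∈ Ioc N (2 * N), ∑ n2 ∈ Ioc N (2 * N),
            (F m r s1 n1 * G m r s1 s2 n2 + F m r s2 n2 * K m r s1 n1) := by
        refine Finset.sum_le_sum fun m _ => Finset.sum_le_sum fun r _ =>
          Finset.sum_le_sum fun s1 _ => Finset.sum_le_sum fun s2 _ =>
          Finset.sum_le_sum fun n1 _ => Finset.sum_le_sum fun n2 _ => ?_
        rw [hF, hG, hK]
        exact Lcc_pt hPr m r s1 s2 n1 n2
    _ = ∑ m ∈ Icc (M / 2) (3 * M), ∑ r ∈ Ioc R (2 * R), (∑ s1 ∈ Ioc S (2 * S),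
          ∑ s2 ∈ Ioc S (2 * S), ∑ n1 ∈ Ioc N (2 * N), ∑ n2 ∈ Ioc N (2 * N),
            F m r s1 n1 * G m r s1 s2 n2 + ∑ s1 ∈ Ioc S (2 * S),
          ∑ s2 ∈ Ioc S (2 * S), ∑ n1 ∈ Ioc N (2 * N), ∑ n2 ∈ Ioc N (2 * N),
            F m r s2 n2 * K m r s1 n1) := by
        simp only [Finset.sum_add_distrib]
    _ ≤ ∑ m ∈ Icc (M / 2) (3 * M), ∑ r ∈ Ioc R (2 * R), (∑ s ∈ Ioc S (2 * S),
          ∑ n ∈ Ioc N (2 * N), F m r s n * (3 * T * W) + ∑ s ∈ Ioc S (2 * S),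
          ∑ n ∈ Ioc N (2 * N), F m r s n * (T * W)) := by
        refine Finset.sum_le_sum fun m _ => Finset.sum_le_sum fun r hr => ?_
        exact add_le_add (part1 m r hr) (part2 m r hr)
    _ = (∑ m ∈ Icc (M / 2) (3 * M), ∑ r ∈ Ioc R (2 * R), ∑ s ∈ Ioc S (2 * S),
          ∑ n ∈ Ioc N (2 * N), F m r s n) * (4 * T * W) := by
        simp_rw [Finset.sum_mul, ← Finset.sum_add_distrib]
        refine Finset.sum_congr rfl fun m _ => Finset.sum_congr rfl fun r _ =>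
          Finset.sum_congr rfl fun s _ => Finset.sum_congr rfl fun n _ => ?_
        ring
    _ ≤ (7 * T * ((M : ℝ) * N)) * (4 * T * W) := by
        apply mul_le_mul_of_nonneg_right _ (by positivity)
        rw [hF]
        exact hout
    _ = 28 * T ^ 2 * ((M : ℝ) * N * (1 + N / ((R : ℝ) * z))) := by
        rw [hW]; ring

end Pool.Agent.Lib.SL
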