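import Pool.Agent.Lib.SL.SpecD

/-!
MP_00e23e_nt, project SL, module Lcn: n in a class with a common factor.
-/

set_option autoImplicit false

namespace Pool.Agent.Lib.SL

open Finset Pool.Agent.Lib.EH3 Pool.Agent.Lib.TB Pool.Agent.Results.MP_00e23e_nt Pool.Agent.Lib.MI

private lemma Lcn_cnt (r N n1 : ℕ) (hr0 : 0 < r) :
    (((Ioc N (2 * N)).filter (fun n2 : ℕ => (r : ℤ) ∣ (n2 : ℤ) - n1)).card : ℝ) ≤ (N : ℝ) / r + 1 := by
  have h1 : (Ioc N (2 * N)).filter (fun n2 : ℕ => (r : ℤ) ∣ (n2 : ℤ) - n1) =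
      (Ioc N (2 * N)).filter (fun n2 : ℕ => n2 ≡ n1 [MOD r]) := by
    refine Finset.filter_congr fun x _ => ?_
    rw [Nat.modEq_iff_dvd, ← dvd_neg]
    rw [neg_sub]
  have h2 := Nat.Ioc_filter_modEq_card N (2 * N) hr0 n1
  rw [h1]
  have h3 : ((((Ioc N (2 * N)).filter (fun n2 : ℕ => n2 ≡ n1 [MOD r])).card : ℤ) : ℚ) ≤
      (N : ℚ) / r + 1 := by
    rw [h2]
    have h4 : (0 : ℚ) ≤ (N : ℚ) / r + 1 := by positivity
    have h5 := Int.floor_le ((((2 * N : ℕ) : ℚ) - n1) / (r : ℚ))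
    have h6 := Int.lt_floor_add_one (((N : ℚ) - n1) / (r : ℚ))
    have h7 : (((2 * N : ℕ) : ℚ) - n1) / (r : ℚ) - ((N : ℚ) - n1) / (r : ℚ) = (N : ℚ) / r := by
      push_cast
      ring
    rw [Int.cast_max]
    refine max_le ?_ (by simpa using h4)
    push_cast at h5 h6 h7 ⊢
    linarith
  have h9 : ((((Ioc N (2 * N)).filter (fun n2 : ℕ => n2 ≡ n1 [MOD r])).card : ℚ) : ℝ) ≤
      (((N : ℚ) / r + 1 : ℚ) : ℝ) := by
    exact_mod_cast h3
  push_cast at h9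
  exact h9

private lemma Lcn_cls (q N : ℕ) (hq : 0 < q) (A : Finset ℕ) (hA : A ⊆ Ioc N (2 * N))
    (h : ∀ x ∈ A, ∀ y ∈ A, (q : ℤ) ∣ (x : ℤ) - y) : (A.card : ℝ) ≤ (N : ℝ) / q + 1 := by
  rcases A.eq_empty_or_nonempty with rfl | ⟨y, hy⟩
  · rw [Finset.card_empty, Nat.cast_zero]
    positivity
  · refine le_trans ?_ (Lcn_cnt q N y hq)
    refine Nat.cast_le.2 (Finset.card_le_card fun x hx => ?_)
    rw [mem_filter]
    exact ⟨hA hx, h x hx y hy⟩

private lemma Lcn_dif {r m n n' : ℕ} {b : ℤ} (hb : Int.gcd b (r : ℤ) = 1)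
    (h : (r : ℤ) ∣ ((m * n : ℕ) : ℤ) - b) (h' : (r : ℤ) ∣ ((m * n' : ℕ) : ℤ) - b) :
    (r : ℤ) ∣ (n : ℤ) - n' := by
  have cm : m.Coprime r := by
    have h4 : (Nat.gcd m r : ℤ) ∣ ((m * n : ℕ) : ℤ) :=
      Int.natCast_dvd_natCast.2 (dvd_mul_of_dvd_left (Nat.gcd_dvd_left _ _) _)
    have h5 : (Nat.gcd m r : ℤ) ∣ ((m * n : ℕ) : ℤ) - b :=
      (Int.natCast_dvd_natCast.2 (Nat.gcd_dvd_right _ _)).trans h
    have h6 := dvd_sub h4 h5
    rw [sub_sub_cancel] at h6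
    have h7 : Nat.gcd m r ∣ Int.gcd b (r : ℤ) :=
      Int.dvd_gcd h6 (Int.natCast_dvd_natCast.2 (Nat.gcd_dvd_right _ _))
    rw [hb] at h7
    exact Nat.dvd_one.1 h7
  have h3 := dvd_sub h h'
  have h4 : ((m * n : ℕ) : ℤ) - b - (((m * n' : ℕ) : ℤ) - b) = (m : ℤ) * ((n : ℤ) - n') := by
    push_cast
    ring
  rw [h4] at h3
  exact (Nat.isCoprime_iff_coprime.2 cm).symm.dvd_of_dvd_mul_left h3

theorem tLcn : LcnStmt := by
  classical
  intro X T z R N m r s b hT hz hR hr hs hsX sq hb hz'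
  have hr0 : 0 < r := by omega
  have hR0 : (0 : ℝ) < R := by exact_mod_cast hR
  have hz0 : 0 < z := by linarith
  have hRr : (R : ℝ) ≤ r := by exact_mod_cast hr.le
  have hT0 : 0 ≤ T := by linarith [hT.1]
  refine ⟨?_, ?_⟩
  · refine (Lcn_cls r N hr0 _ (Finset.filter_subset _ _) ?_).trans ?_
    · intro x hx y hy
      rw [mem_filter] at hx hy
      exact Lcn_dif hb hx.2 hy.2
    · have h1 : (N : ℝ) / r ≤ (N : ℝ) / R := div_le_div_of_nonneg_left (Nat.cast_nonneg _) hR0 hRr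
      linarith
  · have hsub : (Ioc N (2 * N)).filter (fun n : ℕ => (r : ℤ) ∣ ((m * n : ℕ) : ℤ) - b ∧
        ¬ n.Coprime s) ⊆ s.primeFactors.biUnion (fun p => (Ioc N (2 * N)).filter
          (fun n : ℕ => (r : ℤ) ∣ ((m * n : ℕ) : ℤ) - b ∧ p ∣ n)) := by
      intro n hn
      rw [mem_filter] at hn
      obtain ⟨hn1, hn2, hn3⟩ := hn
      obtain ⟨p, hp, hpn, hps⟩ := Nat.Prime.not_coprime_iff_dvd.1 hn3
      rw [mem_biUnion]
      refine ⟨p, ?_, ?_⟩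
      · rw [Nat.mem_primeFactors]
        exact ⟨hp, hps, by omega⟩
      · rw [mem_filter]
        exact ⟨hn1, hn2, hpn⟩
    have hone : ∀ p ∈ s.primeFactors, (((Ioc N (2 * N)).filter
        (fun n : ℕ => (r : ℤ) ∣ ((m * n : ℕ) : ℤ) - b ∧ p ∣ n)).card : ℝ) ≤
          (N : ℝ) / (R * z) + 1 := by
      intro p hp
      rw [Nat.mem_primeFactors] at hp
      have hpr : r.Coprime p := (Nat.squarefree_mul_iff.1 sq).1.coprime_dvd_right hp.2.1
      refine (Lcn_cls (r * p) N (Nat.mul_pos hr0 hp.1.pos) _ (Finset.filter_subset _ _) ?_).trans ?_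
      · intro x hx y hy
        rw [mem_filter] at hx hy
        have d1 := Lcn_dif hb hx.2.1 hy.2.1
        have d2 : (p : ℤ) ∣ (x : ℤ) - y :=
          dvd_sub (Int.natCast_dvd_natCast.2 hx.2.2) (Int.natCast_dvd_natCast.2 hy.2.2)
        push_cast
        exact (Nat.isCoprime_iff_coprime.2 hpr).mul_dvd d1 d2
      · have h1 : (R : ℝ) * z ≤ ((r * p : ℕ) : ℝ) := by
          push_cast
          exact mul_le_mul hRr (hz' p hp.1 hp.2.1).le hz0.le (Nat.cast_nonneg _)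
        have h2 : (N : ℝ) / ((r * p : ℕ) : ℝ) ≤ (N : ℝ) / (R * z) :=
          div_le_div_of_nonneg_left (Nat.cast_nonneg _) (by positivity) h1
        linarith
    have hcard : (s.primeFactors.card : ℝ) ≤ T := by
      refine le_trans ?_ (hT.2.2 s hs hsX)
      norm_cast
      refine Finset.card_le_card fun p hp => ?_
      rw [Nat.mem_primeFactors] at hp
      rw [Nat.mem_divisors]
      exact ⟨hp.2.1, hp.2.2⟩
    calc (((Ioc N (2 * N)).filter (fun n : ℕ => (r : ℤ) ∣ ((m * n : ℕ) : ℤ) - b ∧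
        ¬ n.Coprime s)).card : ℝ)
        ≤ ((s.primeFactors.biUnion (fun p => (Ioc N (2 * N)).filter
          (fun n : ℕ => (r : ℤ) ∣ ((m * n : ℕ) : ℤ) - b ∧ p ∣ n))).card : ℝ) := by
          exact_mod_cast Finset.card_le_card hsub
      _ ≤ ∑ p ∈ s.primeFactors, (((Ioc N (2 * N)).filter
          (fun n : ℕ => (r : ℤ) ∣ ((m * n : ℕ) : ℤ) - b ∧ p ∣ n)).card : ℝ) := by
          exact_mod_cast Finset.card_biUnion_le
      _ ≤ ∑ p ∈ s.primeFactors, ((N : ℝ) / (R * z) + 1) := Finset.sum_le_sum hone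
      _ = (s.primeFactors.card : ℝ) * ((N : ℝ) / (R * z) + 1) := by
          rw [Finset.sum_const, nsmul_eq_mul]
      _ ≤ T * ((N : ℝ) / (R * z) + 1) := mul_le_mul_of_nonneg_right hcard (by positivity)

end Pool.Agent.Lib.SL
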