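import Pool.Agent.Lib.SL.SpecD

/-!
MP_00e23e_nt, directory Lib/SL, module Lco: the coefficients of the main part are admissible.
-/

set_option autoImplicit false

namespace Pool.Agent.Lib.SL

open Finset Pool.Agent.Lib.EH3 Pool.Agent.Lib.TB Pool.Agent.Results.MP_00e23e_nt Pool.Agent.Lib.MI

private lemma Lco_core (hG : MI.DggStmt) {M K : ℕ} {h : ℤ} {Y : ℝ} {c1 c2 : ℂ} (hM : 1 ≤ M) (hY : 0 < Y)
    (hK1 : Y ≤ K) (hK2 : (K : ℝ) ≤ 8 * Y) (h0 : h ≠ 0) (hh : 2 * |h| ≤ (K : ℤ)) (hc1 : ‖c1‖ ≤ 1)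
    (hc2 : ‖c2‖ ≤ 1) :
    ‖c1 * (starRingEnd ℂ) c2 * ((1 / ((K : ℕ) : ℂ)) * Ten M (fun m => en (h * m) K))‖ ≤
      4 * (M : ℝ) / Y * min 1 ((4 * Y / ((M : ℝ) * |(h : ℝ)|)) ^ 2) := by
  have hM0 : (0 : ℝ) < M := by exact_mod_cast hM
  have hh0 : (h : ℝ) ≠ 0 := by exact_mod_cast h0
  have hh2 : (0 : ℝ) < (h : ℝ) ^ 2 := by positivity
  have K0 : (0 : ℝ) < K := lt_of_lt_of_le hY hK1
  have Kn : 1 ≤ K := by
    have : 0 < K := by exact_mod_cast K0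
    omega
  obtain ⟨g1, g2⟩ := hG M K h hM Kn
  have g3 := g2 h0 hh
  set G : ℝ := ‖Ten M (fun m => en (h * m) K)‖ with hGd
  have hG0 : 0 ≤ G := norm_nonneg _
  have n1 : ‖c1 * (starRingEnd ℂ) c2 * ((1 / ((K : ℕ) : ℂ)) * Ten M (fun m => en (h * m) K))‖ ≤
      (1 / (K : ℝ)) * G := by
    rw [norm_mul, norm_mul, norm_mul, norm_div, norm_one, Complex.norm_natCast, RCLike.norm_conj]
    have : ‖c1‖ * ‖c2‖ ≤ 1 := mul_le_one₀ hc1 (norm_nonneg _) hc2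
    exact mul_le_of_le_one_left (by positivity) this
  refine n1.trans ?_
  rcases min_choice (1 : ℝ) ((4 * Y / ((M : ℝ) * |(h : ℝ)|)) ^ 2) with hm | hm
  · rw [hm, mul_one, div_mul_eq_mul_div, one_mul]
    rw [div_le_div_iff₀ K0 hY]
    exact mul_le_mul g1 hK1 hY.le (by positivity)
  · have hm2 : (4 * Y / ((M : ℝ) * |(h : ℝ)|)) ^ 2 = 4 ^ 2 * Y ^ 2 / ((M : ℝ) ^ 2 * (h : ℝ) ^ 2) := by
      rw [div_pow, mul_pow, mul_pow _ |(h : ℝ)|, sq_abs]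
    rw [hm, hm2]
    have a1 : (1 / (K : ℝ)) * G ≤ K / ((M : ℝ) * (h : ℝ) ^ 2) := by
      rw [div_mul_eq_mul_div, one_mul, div_le_div_iff₀ K0 (by positivity)]
      calc G * ((M : ℝ) * (h : ℝ) ^ 2)
          ≤ ((K : ℝ) ^ 2 / ((M : ℝ) * (h : ℝ) ^ 2)) * ((M : ℝ) * (h : ℝ) ^ 2) := by gcongr
        _ = (K : ℝ) * K := by field_simp
    have a2 : (K : ℝ) / ((M : ℝ) * (h : ℝ) ^ 2) ≤ 64 * Y / ((M : ℝ) * (h : ℝ) ^ 2) := by
      gcongr
      linarith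
    have a3 : 64 * Y / ((M : ℝ) * (h : ℝ) ^ 2) =
        4 * (M : ℝ) / Y * (4 ^ 2 * Y ^ 2 / ((M : ℝ) ^ 2 * (h : ℝ) ^ 2)) := by
      field_simp
      ring
    linarith

private lemma Lco_conv (R S M g : ℝ) (h : ℝ) (hR : 0 < R) (hS : 0 < S) (hM : 0 < M) (hg : 0 < g) :
    4 * M / (R * S ^ 2 / g) * min 1 ((4 * (R * S ^ 2 / g) / (M * |h|)) ^ 2) =
      4 * (M * g) / (R * S ^ 2) * min 1 ((4 * (R * S ^ 2) / (M * g * |h|)) ^ 2) := by
  have e1 : 4 * M / (R * S ^ 2 / g) = 4 * (M * g) / (R * S ^ 2) := by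
    field_simp
  have e2 : 4 * (R * S ^ 2 / g) / (M * |h|) = 4 * (R * S ^ 2) / (M * g * |h|) := by
    rw [← mul_div_assoc, div_div]
    congr 1
    ring
  rw [e1, e2]

private lemma Lco_nn (R S M g h : ℝ) (hR : 0 < R) (hS : 0 < S) (hM : 0 < M) (hg : 0 < g) :
    0 ≤ 4 * (M * g) / (R * S ^ 2) * min 1 ((4 * (R * S ^ 2) / (M * g * |h|)) ^ 2) := by
  have : 0 ≤ min (1 : ℝ) ((4 * (R * S ^ 2) / (M * g * |h|)) ^ 2) := le_min zero_le_one (sq_nonneg _)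
  positivity

private lemma Lco_two {R K H r : ℕ} {h : ℤ} (hH : 2 * H < R) (hr : R < r) (hK : r ≤ K)
    (ha : |h| ≤ (H : ℤ)) : 2 * |h| ≤ (K : ℤ) := by
  have h1 : (2 : ℤ) * H < R := by exact_mod_cast hH
  have h2 : (R : ℤ) < r := by exact_mod_cast hr
  have h3 : (r : ℤ) ≤ K := by exact_mod_cast hK
  linarith

private lemma Lco_ga (a : ℕ → ℕ → ℤ) (hG : MI.DggStmt) {R S M N H : ℕ} {P : Finset (ℕ × ℕ)} {c : ℕ × ℕ → ℂ}
    (hR : 1 ≤ R) (hS : 1 ≤ S) (hM : 1 ≤ M) (hH : 2 * H < R)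
    (hP : ∀ w ∈ P, R < w.1 ∧ w.1 ≤ 2 * R ∧ S < w.2 ∧ w.2 ≤ 2 * S)
    (hc1 : ∀ w, ‖c w‖ ≤ 1) (hc : ∀ w, w ∉ P → c w = 0) :
    Cg a P 1 R S M N (ga c M H) := by
  have hR0 : (0 : ℝ) < R := by exact_mod_cast hR
  have hS0 : (0 : ℝ) < S := by exact_mod_cast hS
  have hM0 : (0 : ℝ) < M := by exact_mod_cast hM
  have hs : ∀ h r s1 s2, ga c M H h r s1 s2 ≠ 0 → (r, s1) ∈ P ∧ (r, s2) ∈ P := by
    intro h r s1 s2 hg
    unfold ga at hg
    split_ifs at hg with h1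
    · constructor
      · by_contra hn
        rw [hc _ hn] at hg
        simp at hg
      · by_contra hn
        rw [hc _ hn] at hg
        simp at hg
    · exact absurd rfl hg
  refine ⟨fun r s1 s2 => ?_, fun h r s1 s2 hg => ⟨(hs h r s1 s2 hg).1, (hs h r s1 s2 hg).2,
    fun h2 => absurd h2 (by norm_num)⟩, fun h r s1 s2 => ?_⟩
  · unfold ga
    rw [if_neg]
    rintro ⟨-, h, -⟩
    exact h (dvd_zero _)
  · have hnn := Lco_nn (R : ℝ) S M ((1 : ℕ) : ℝ) (h : ℝ) hR0 hS0 hM0 (by norm_num)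
    by_cases hg : ga c M H h r s1 s2 = 0
    · rw [hg, norm_zero]
      exact hnn
    obtain ⟨m1, m2⟩ := hs h r s1 s2 hg
    obtain ⟨r1, r2, s11, s12⟩ := hP _ m1
    obtain ⟨-, -, s21, s22⟩ := hP _ m2
    simp only at r1 r2 s11 s12 s21 s22
    unfold ga at hg ⊢
    split_ifs at hg ⊢ with h1
    · obtain ⟨ha, hb, -⟩ := h1
      have h0 : h ≠ 0 := by
        rintro rfl
        exact hb (dvd_zero _)
      have e1 : (R : ℝ) ≤ r := by exact_mod_cast r1.le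
      have e2 : (r : ℝ) ≤ 2 * R := by exact_mod_cast r2
      have e3 : (S : ℝ) ≤ s1 := by exact_mod_cast s11.le
      have e4 : (s1 : ℝ) ≤ 2 * S := by exact_mod_cast s12
      have e5 : (S : ℝ) ≤ s2 := by exact_mod_cast s21.le
      have e6 : (s2 : ℝ) ≤ 2 * S := by exact_mod_cast s22
      have K1 : (R : ℝ) * (S : ℝ) ^ 2 / ((1 : ℕ) : ℝ) ≤ ((r * s1 * s2 : ℕ) : ℝ) := by
        push_cast
        rw [div_one]
        calc (R : ℝ) * (S : ℝ) ^ 2 = R * S * S := by ring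
          _ ≤ r * s1 * s2 := by gcongr
      have K2 : ((r * s1 * s2 : ℕ) : ℝ) ≤ 8 * ((R : ℝ) * (S : ℝ) ^ 2 / ((1 : ℕ) : ℝ)) := by
        push_cast
        rw [div_one]
        calc (r : ℝ) * s1 * s2 ≤ (2 * R) * (2 * S) * (2 * S) := by gcongr
          _ = 8 * ((R : ℝ) * (S : ℝ) ^ 2) := by ring
      have hK : r ≤ r * s1 * s2 := by
        rw [mul_assoc]
        exact Nat.le_mul_of_pos_right _ (Nat.mul_pos (by omega) (by omega))
      rw [← Lco_conv (R : ℝ) S M ((1 : ℕ) : ℝ) (h : ℝ) hR0 hS0 hM0 (by norm_num)]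
      exact Lco_core hG hM (by positivity) K1 K2 h0 (Lco_two hH r1 hK ha) (hc1 _) (hc1 _)
    · exact absurd rfl hg

private lemma Lco_gb (a : ℕ → ℕ → ℤ) (hG : MI.DggStmt) {R S M N H : ℕ} {P : Finset (ℕ × ℕ)} {c : ℕ × ℕ → ℂ}
    (hR : 1 ≤ R) (hS : 1 ≤ S) (hM : 1 ≤ M) (hH : 2 * H < R)
    (hP : ∀ w ∈ P, R < w.1 ∧ w.1 ≤ 2 * R ∧ S < w.2 ∧ w.2 ≤ 2 * S)
    (hc1 : ∀ w, ‖c w‖ ≤ 1) (hc : ∀ w, w ∉ P → c w = 0) (g : ℕ) (hg2 : 2 ≤ g) :
    Cg a P g R S M N (gb a c g M H N) := by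
  have hR0 : (0 : ℝ) < R := by exact_mod_cast hR
  have hS0 : (0 : ℝ) < S := by exact_mod_cast hS
  have hM0 : (0 : ℝ) < M := by exact_mod_cast hM
  have hg0 : (0 : ℝ) < g := by exact_mod_cast (by omega : 0 < g)
  have hs : ∀ h r s1 s2, gb a c g M H N h r s1 s2 ≠ 0 →
      (r, s1) ∈ P ∧ (r, s2) ∈ P ∧ (2 ≤ g → ND (a r s1) (a r s2) (r * g) N) := by
    intro h r s1 s2 hg
    unfold gb at hg
    split_ifs at hg with h1
    · refine ⟨?_, ?_, fun _ => h1.2.2.2⟩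
      · by_contra hn
        rw [hc _ hn] at hg
        simp at hg
      · by_contra hn
        rw [hc _ hn] at hg
        simp at hg
    · exact absurd rfl hg
  refine ⟨fun r s1 s2 => ?_, hs, fun h r s1 s2 => ?_⟩
  · unfold gb
    rw [if_neg]
    rintro ⟨-, h, -⟩
    exact h rfl
  · have hnn := Lco_nn (R : ℝ) S M (g : ℝ) (h : ℝ) hR0 hS0 hM0 hg0
    by_cases hg : gb a c g M H N h r s1 s2 = 0
    · rw [hg, norm_zero]
      exact hnn
    obtain ⟨m1, m2, -⟩ := hs h r s1 s2 hg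
    obtain ⟨r1, r2, s11, s12⟩ := hP _ m1
    obtain ⟨-, -, s21, s22⟩ := hP _ m2
    simp only at r1 r2 s11 s12 s21 s22
    unfold gb at hg ⊢
    split_ifs at hg ⊢ with h1
    · obtain ⟨ha, h0, hgg, -⟩ := h1
      have hgd : g ∣ s2 := hgg ▸ Nat.gcd_dvd_right s1 s2
      obtain ⟨t, ht⟩ := hgd
      have hgp : 0 < g := by omega
      have hst : s2 / g = t := by
        rw [ht]
        exact Nat.mul_div_cancel_left _ hgp
      have ht0 : 0 < t := by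
        rcases Nat.eq_zero_or_pos t with h | h
        · rw [h, mul_zero] at ht
          omega
        · exact h
      have e1 : (R : ℝ) ≤ r := by exact_mod_cast r1.le
      have e2 : (r : ℝ) ≤ 2 * R := by exact_mod_cast r2
      have e3 : (S : ℝ) ≤ s1 := by exact_mod_cast s11.le
      have e4 : (s1 : ℝ) ≤ 2 * S := by exact_mod_cast s12
      have e5 : (S : ℝ) ≤ s2 := by exact_mod_cast s21.le
      have e6 : (s2 : ℝ) ≤ 2 * S := by exact_mod_cast s22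
      have e7 : (s2 : ℝ) = g * t := by exact_mod_cast ht
      have hKe : ((r * s1 * (s2 / g) : ℕ) : ℝ) = r * s1 * s2 / g := by
        rw [hst, e7]
        push_cast
        field_simp
      have K1 : (R : ℝ) * (S : ℝ) ^ 2 / (g : ℝ) ≤ ((r * s1 * (s2 / g) : ℕ) : ℝ) := by
        rw [hKe]
        refine div_le_div_of_nonneg_right ?_ hg0.le
        calc (R : ℝ) * (S : ℝ) ^ 2 = R * S * S := by ring
          _ ≤ r * s1 * s2 := by gcongr
      have K2 : ((r * s1 * (s2 / g) : ℕ) : ℝ) ≤ 8 * ((R : ℝ) * (S : ℝ) ^ 2 / (g : ℝ)) := by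
        rw [hKe, ← mul_div_assoc]
        refine div_le_div_of_nonneg_right ?_ hg0.le
        calc (r : ℝ) * s1 * s2 ≤ (2 * R) * (2 * S) * (2 * S) := by gcongr
          _ = 8 * ((R : ℝ) * (S : ℝ) ^ 2) := by ring
      have hK : r ≤ r * s1 * (s2 / g) := by
        rw [hst, mul_assoc]
        exact Nat.le_mul_of_pos_right _ (Nat.mul_pos (by omega) ht0)
      rw [← Lco_conv (R : ℝ) S M (g : ℝ) (h : ℝ) hR0 hS0 hM0 hg0]
      exact Lco_core hG hM (by positivity) K1 K2 h0 (Lco_two hH r1 hK ha) (hc1 _) (hc1 _)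
    · exact absurd rfl hg

/-- The coefficients are admissible. -/
theorem tLco (h1 : MI.DggStmt) : LcoStmt := by
  intro a R S M N H P c hR hS hM hH hP hc1 hc
  exact ⟨Lco_ga a h1 hR hS hM hH hP hc1 hc, fun g hg => Lco_gb a h1 hR hS hM hH hP hc1 hc g hg⟩

end Pool.Agent.Lib.SL
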