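import Pool.Agent.Lib.SL.SpecD

/-!
MP_00e23e_nt, project SL, chapter D: module Ldc (solutions for a degenerate lattice), helper83.
-/

namespace Pool.Agent.Lib.SL

open Finset Pool.Agent.Lib.EH3 Pool.Agent.Lib.TB Pool.Agent.Results.MP_00e23e_nt Pool.Agent.Lib.MI

/-- pairwise congruent natural numbers in Icc 1 B -/
lemma Ldc_cnt (s : Finset ℕ) (m B y0 : ℕ) (hm : 1 ≤ m)
    (h : ∀ x ∈ s, (m : ℤ) ∣ (x : ℤ) - y0 ∧ 1 ≤ x ∧ x ≤ B) : s.card ≤ B / m + 1 := by
  rcases s.eq_empty_or_nonempty with h0 | h0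
  · simp [h0]
  · have hm' : (0 : ℤ) < m := by exact_mod_cast hm
    have key : ∀ x ∈ s, ∃ k : ℕ, x = s.min' h0 + m * k ∧ k < B / m + 1 := by
      intro x hx
      have h1 := h x hx
      have h1' := h _ (s.min'_mem h0)
      have h2 : s.min' h0 ≤ x := s.min'_le x hx
      have h3 : (m : ℤ) ∣ (x : ℤ) - (s.min' h0 : ℤ) := by
        have := dvd_sub h1.1 h1'.1
        have h4 : ((x : ℤ) - y0) - ((s.min' h0 : ℤ) - y0) = (x : ℤ) - (s.min' h0 : ℤ) := by ring
        rwa [h4] at this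
      have h5 : m ∣ x - s.min' h0 := by
        rw [← Nat.cast_sub h2] at h3
        exact_mod_cast h3
      obtain ⟨k, hk⟩ := h5
      refine ⟨k, by omega, ?_⟩
      have h6 : m * k ≤ B := by omega
      have h7 : k ≤ B / m := by
        rw [Nat.le_div_iff_mul_le (by omega), mul_comm]
        exact h6
      omega
    have h6 : s.card ≤ (range (B / m + 1)).card := by
      apply Finset.card_le_card_of_injOn (fun x => (x - s.min' h0) / m)
      · intro x hx
        obtain ⟨k, hk, hk'⟩ := key x hx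
        simp only [coe_range, Set.mem_Iio]
        have : x - s.min' h0 = m * k := by omega
        rw [this, Nat.mul_div_cancel_left _ (by omega)]
        exact hk'
      · intro x hx y hy hxy
        obtain ⟨k, hk, _⟩ := key x hx
        obtain ⟨j, hj, _⟩ := key y hy
        have e1 : x - s.min' h0 = m * k := by omega
        have e2 : y - s.min' h0 = m * j := by omega
        simp only [e1, e2] at hxy
        rw [Nat.mul_div_cancel_left _ (by omega), Nat.mul_div_cancel_left _ (by omega)] at hxy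
        rw [hk, hj, hxy]
    simpa using h6

/-- all vectors parallel to a positive vector are multiples of the primitive one -/
lemma Ldc_par (n1 n2 : ℕ) (h1 : 0 < n1) (h2 : 0 < n2) : ∃ p1 p2 : ℕ, 1 ≤ p1 ∧ 1 ≤ p2 ∧
    ∀ m1 m2 : ℕ, m1 * n2 = m2 * n1 → ∃ t, m1 = t * p1 ∧ m2 = t * p2 := by
  obtain ⟨p1, p2, hp, hp1, hp2⟩ := Nat.exists_coprime n1 n2
  have hg : 0 < Nat.gcd n1 n2 := Nat.gcd_pos_of_pos_left _ h1
  have hp1' : 0 < p1 := by
    rcases Nat.eq_zero_or_pos p1 with h | h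
    · rw [h, zero_mul] at hp1; omega
    · exact h
  have hp2' : 0 < p2 := by
    rcases Nat.eq_zero_or_pos p2 with h | h
    · rw [h, zero_mul] at hp2; omega
    · exact h
  refine ⟨p1, p2, hp1', hp2', ?_⟩
  intro m1 m2 hm
  have h3 : m1 * p2 = m2 * p1 := by
    have : (m1 * p2) * Nat.gcd n1 n2 = (m2 * p1) * Nat.gcd n1 n2 := by
      calc (m1 * p2) * Nat.gcd n1 n2 = m1 * (p2 * Nat.gcd n1 n2) := by ring
        _ = m1 * n2 := by rw [← hp2]
        _ = m2 * n1 := hm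
        _ = m2 * (p1 * Nat.gcd n1 n2) := by rw [← hp1]
        _ = _ := by ring
    exact Nat.eq_of_mul_eq_mul_right hg this
  have h4 : p1 ∣ m1 := by
    apply hp.dvd_of_dvd_mul_right (n := p2)
    rw [h3]
    exact dvd_mul_left _ _
  obtain ⟨t, ht⟩ := h4
  refine ⟨t, by rw [ht]; ring, ?_⟩
  have h5 : p1 * (t * p2) = p1 * m2 := by
    calc p1 * (t * p2) = (p1 * t) * p2 := by ring
      _ = m1 * p2 := by rw [ht]
      _ = m2 * p1 := h3
      _ = p1 * m2 := by ring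
  exact (Nat.eq_of_mul_eq_mul_left hp1' h5).symm

/-- y is determined modulo q -/
lemma Ldc_cls {q p y y0 : ℕ} {a : ℤ} (ha : Int.gcd a q = 1) (h : (q : ℤ) ∣ ((y * p : ℕ) : ℤ) - a)
    (h0 : (q : ℤ) ∣ ((y0 * p : ℕ) : ℤ) - a) : (q : ℤ) ∣ (y : ℤ) - y0 := by
  have hc : IsCoprime (q : ℤ) (p : ℤ) := by
    obtain ⟨u, v, huv⟩ := Int.isCoprime_iff_gcd_eq_one.2 ha
    obtain ⟨k, hk⟩ := h0
    push_cast at hk
    exact ⟨v - u * k, u * y0, by linear_combination huv + u * hk⟩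
  have h2 : (q : ℤ) ∣ ((y : ℤ) - y0) * p := by
    have := dvd_sub h h0
    push_cast at this
    have e : ((y : ℤ) * p - a) - ((y0 : ℤ) * p - a) = ((y : ℤ) - y0) * p := by ring
    rwa [e] at this
  exact hc.dvd_of_dvd_mul_right h2

theorem tLdc : LdcStmt := by
  classical
  intro X T M N q1 q2 a1 a2 L hT hM hN hq1 hq2 hX ha1 ha2 hL hcol
  obtain ⟨hT1, hT2, hT3⟩ := hT
  have hK : 0 < Nat.lcm q1 q2 := Nat.lcm_pos (by omega) (by omega)
  have hT0 : 0 ≤ T := by linarith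
  set S := (Icc (M / 2) (3 * M) ×ˢ L).filter (fun w => (q1 : ℤ) ∣ ((w.1 * w.2.1 : ℕ) : ℤ) - a1 ∧
    (q2 : ℤ) ∣ ((w.1 * w.2.2 : ℕ) : ℤ) - a2) with hS
  rcases S.eq_empty_or_nonempty with h0 | ⟨w0, hw0⟩
  · rw [h0, card_empty, Nat.cast_zero]
    positivity
  · have hSm : ∀ w ∈ S, (M / 2 ≤ w.1 ∧ w.1 ≤ 3 * M) ∧ w.2 ∈ L ∧ (N < w.2.1 ∧ w.2.1 ≤ 2 * N) ∧
        (N < w.2.2 ∧ w.2.2 ≤ 2 * N) ∧ (q1 : ℤ) ∣ ((w.1 * w.2.1 : ℕ) : ℤ) - a1 ∧
        (q2 : ℤ) ∣ ((w.1 * w.2.2 : ℕ) : ℤ) - a2 := by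
      intro w hw
      rw [hS, mem_filter, mem_product, mem_Icc] at hw
      have h3 := hL hw.1.2
      rw [mem_product, mem_Ioc, mem_Ioc] at h3
      exact ⟨hw.1.1, hw.1.2, h3.1, h3.2, hw.2.1, hw.2.2⟩
    have h0' := hSm w0 hw0
    obtain ⟨p1, p2, hp1, hp2, hpar⟩ := Ldc_par w0.2.1 w0.2.2 (by omega) (by omega)
    have ht : ∀ w ∈ S, w.2.1 = (w.2.1 / p1) * p1 ∧ w.2.2 = (w.2.1 / p1) * p2 := by
      intro w hw
      obtain ⟨t, ht1, ht2⟩ := hpar w.2.1 w.2.2 (hcol w.2 (hSm w hw).2.1 w0.2 h0'.2.1)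
      have h3 : w.2.1 / p1 = t := by
        rw [ht1, Nat.mul_div_cancel _ (by omega)]
      rw [h3]
      exact ⟨ht1, ht2⟩
    set y : ℕ × ℕ × ℕ → ℕ := fun w => w.1 * (w.2.1 / p1) with hy
    have hy1 : ∀ w ∈ S, y w * p1 = w.1 * w.2.1 := by
      intro w hw
      have h3 := (ht w hw).1
      calc y w * p1 = w.1 * ((w.2.1 / p1) * p1) := by rw [hy]; ring
        _ = w.1 * w.2.1 := by rw [← h3]
    have hy2 : ∀ w ∈ S, y w * p2 = w.1 * w.2.2 := by
      intro w hw
      have h3 := (ht w hw).2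
      calc y w * p2 = w.1 * ((w.2.1 / p1) * p2) := by rw [hy]; ring
        _ = w.1 * w.2.2 := by rw [← h3]
    have htpos : ∀ w ∈ S, 1 ≤ w.2.1 / p1 := by
      intro w hw
      have h3 := (ht w hw).1
      have h4 := (hSm w hw).2.2.1.1
      rcases Nat.eq_zero_or_pos (w.2.1 / p1) with h | h
      · rw [h, zero_mul] at h3; omega
      · exact h
    have hypos : ∀ w ∈ S, 1 ≤ y w ∧ y w ≤ 6 * (M * N) := by
      intro w hw
      have h3 := hSm w hw
      have h4 : 1 ≤ w.1 := by omega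
      refine ⟨Nat.one_le_iff_ne_zero.2 (Nat.mul_ne_zero (by omega) (by have := htpos w hw; omega)), ?_⟩
      calc y w ≤ y w * p1 := Nat.le_mul_of_pos_right _ (by omega)
        _ = w.1 * w.2.1 := hy1 w hw
        _ ≤ (3 * M) * (2 * N) := Nat.mul_le_mul h3.1.2 h3.2.2.1.2
        _ = 6 * (M * N) := by ring
    have hycl : ∀ w ∈ S, ((Nat.lcm q1 q2 : ℕ) : ℤ) ∣ (y w : ℤ) - (y w0 : ℤ) := by
      intro w hw
      have h3 := hSm w hw
      have h4 : (q1 : ℤ) ∣ (y w : ℤ) - (y w0 : ℤ) := by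
        apply Ldc_cls ha1 (p := p1)
        · rw [hy1 w hw]; exact h3.2.2.2.2.1
        · rw [hy1 w0 hw0]; exact h0'.2.2.2.2.1
      have h5 : (q2 : ℤ) ∣ (y w : ℤ) - (y w0 : ℤ) := by
        apply Ldc_cls ha2 (p := p2)
        · rw [hy2 w hw]; exact h3.2.2.2.2.2
        · rw [hy2 w0 hw0]; exact h0'.2.2.2.2.2
      rw [Int.natCast_dvd] at h4 h5 ⊢
      exact Nat.lcm_dvd h4 h5
    set Y := (Icc 1 (6 * (M * N))).filter
      (fun x : ℕ => ((Nat.lcm q1 q2 : ℕ) : ℤ) ∣ (x : ℤ) - (y w0 : ℤ)) with hY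
    have hYc : Y.card ≤ 6 * (M * N) / Nat.lcm q1 q2 + 1 := by
      apply Ldc_cnt Y _ _ (y w0) hK
      intro x hx
      rw [hY, mem_filter, mem_Icc] at hx
      exact ⟨hx.2, hx.1.1, hx.1.2⟩
    have hmap : ∀ w ∈ S, y w ∈ Y := by
      intro w hw
      rw [hY, mem_filter, mem_Icc]
      exact ⟨hypos w hw, hycl w hw⟩
    have hcard : S.card = ∑ b ∈ Y, (S.filter (fun w => y w = b)).card :=
      Finset.card_eq_sum_card_fiberwise hmap
    have hfib : ∀ b ∈ Y, ((S.filter (fun w => y w = b)).card : ℝ) ≤ T := by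
      intro b hb
      have hb' : 1 ≤ b ∧ b ≤ 6 * (M * N) := by
        rw [hY, mem_filter, mem_Icc] at hb
        exact hb.1
      have h3 : (S.filter (fun w => y w = b)).card ≤ b.divisors.card := by
        apply Finset.card_le_card_of_injOn (fun w => w.1)
        · intro w hw
          have hw' := mem_filter.1 (mem_coe.1 hw)
          show w.1 ∈ (b.divisors : Set ℕ)
          rw [mem_coe, Nat.mem_divisors]
          refine ⟨?_, by omega⟩
          rw [← hw'.2]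
          exact dvd_mul_right _ _
        · intro w hw w' hw' hww
          have hw1 := mem_filter.1 (mem_coe.1 hw)
          have hw2 := mem_filter.1 (mem_coe.1 hw')
          have e1 : w.1 = w'.1 := hww
          have hpos : 0 < w.1 := by
            have := (hSm w hw1.1).1.1
            omega
          have e2 : w.2.1 / p1 = w'.2.1 / p1 := by
            have e3 : w.1 * (w.2.1 / p1) = w'.1 * (w'.2.1 / p1) := by
              have := hw1.2.trans hw2.2.symm
              exact this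
            rw [← e1] at e3
            exact Nat.eq_of_mul_eq_mul_left hpos e3
          have e4 := ht w hw1.1
          have e5 := ht w' hw2.1
          have e6 : w.2.1 = w'.2.1 := by rw [e4.1, e5.1, e2]
          have e7 : w.2.2 = w'.2.2 := by rw [e4.2, e5.2, e2]
          exact Prod.ext e1 (Prod.ext e6 e7)
      have h4 : (b.divisors.card : ℝ) ≤ T := by
        apply hT3 b hb'.1
        have : (b : ℝ) ≤ ((6 * (M * N) : ℕ) : ℝ) := by exact_mod_cast hb'.2
        push_cast at this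
        linarith
      have h5 : ((S.filter (fun w => y w = b)).card : ℝ) ≤ (b.divisors.card : ℝ) := by exact_mod_cast h3
      linarith
    have h6 : (S.card : ℝ) ≤ T * Y.card := by
      rw [hcard]
      push_cast
      calc ∑ b ∈ Y, ((S.filter (fun w => y w = b)).card : ℝ) ≤ ∑ b ∈ Y, T := Finset.sum_le_sum hfib
        _ = T * Y.card := by rw [sum_const, nsmul_eq_mul]; ring
    have h7 : (Y.card : ℝ) ≤ 6 * ((M : ℝ) * N) / (Nat.lcm q1 q2 : ℕ) + 1 := by
      have h8 : (Y.card : ℝ) ≤ ((6 * (M * N) / Nat.lcm q1 q2 + 1 : ℕ) : ℝ) := by exact_mod_cast hYc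
      have h9 : ((6 * (M * N) / Nat.lcm q1 q2 : ℕ) : ℝ) ≤ ((6 * (M * N) : ℕ) : ℝ) / (Nat.lcm q1 q2 : ℕ) :=
        Nat.cast_div_le
      push_cast at h8 h9
      linarith
    calc (S.card : ℝ) ≤ T * Y.card := h6
      _ ≤ T * (6 * ((M : ℝ) * N) / (Nat.lcm q1 q2 : ℕ) + 1) := mul_le_mul_of_nonneg_left h7 hT0

end Pool.Agent.Lib.SL
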