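import Pool.Agent.Lib.SL.SpecD

/-!
MP_00e23e_nt, project SL, module Lex: opening the square.
-/

set_option autoImplicit false

namespace Pool.Agent.Lib.SL

open Finset Pool.Agent.Lib.EH3 Pool.Agent.Lib.TB Pool.Agent.Results.MP_00e23e_nt Pool.Agent.Lib.MI

private lemma Lex_ten_sum {ι : Type} (s : Finset ι) (M : ℕ) (g : ι → ℕ → ℂ) :
    Ten M (fun m => ∑ i ∈ s, g i m) = ∑ i ∈ s, Ten M (g i) := by
  unfold Ten
  rw [← Finset.mul_sum]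
  refine congrArg _ ?_
  calc ∑ i ∈ range M, ∑ j ∈ range M, ∑ k ∈ s, g k (i + j + M / 2)
      = ∑ i ∈ range M, ∑ k ∈ s, ∑ j ∈ range M, g k (i + j + M / 2) :=
        Finset.sum_congr rfl fun i _ => Finset.sum_comm
    _ = ∑ k ∈ s, ∑ i ∈ range M, ∑ j ∈ range M, g k (i + j + M / 2) := Finset.sum_comm

private lemma Lex_ten_mul (M : ℕ) (x : ℂ) (g : ℕ → ℂ) :
    Ten M (fun m => x * g m) = x * Ten M g := by
  unfold Ten
  simp only [← Finset.mul_sum]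
  ring

private lemma Lex_tr_cast (M : ℕ) (F : ℕ → ℝ) : ((TR M F : ℝ) : ℂ) = Ten M (fun m => (F m : ℂ)) := by
  unfold TR Ten
  push_cast
  rfl

private lemma Lex_conj_dl (a : ℤ) (q t : ℕ) : (starRingEnd ℂ) (dl a q t) = dl a q t := by
  unfold dl
  split_ifs <;> simp

private lemma Lex_conj_Dl (a : ℤ) (r s t : ℕ) : (starRingEnd ℂ) (Dl a r s t) = Dl a r s t := by
  unfold Dl
  simp only [map_sub, map_mul, map_div₀, map_one, map_natCast, Lex_conj_dl]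

private lemma Lex_sq (a : ℕ → ℕ → ℤ) (r S N m : ℕ) (β : ℕ → ℂ) (c : ℕ × ℕ → ℂ) :
    ((‖∑ s ∈ Ioc S (2 * S), c (r, s) *
        ∑ n ∈ Ioc N (2 * N), β n * Dl (a r s) r s (m * n)‖ ^ 2 : ℝ) : ℂ) =
      ∑ s1 ∈ Ioc S (2 * S), ∑ s2 ∈ Ioc S (2 * S), ∑ n1 ∈ Ioc N (2 * N), ∑ n2 ∈ Ioc N (2 * N),
        c (r, s1) * (starRingEnd ℂ) (c (r, s2)) * (β n1 * (starRingEnd ℂ) (β n2)) *
          (Dl (a r s1) r s1 (m * n1) * Dl (a r s2) r s2 (m * n2)) := by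
  push_cast
  rw [← Complex.mul_conj', map_sum, Finset.sum_mul_sum]
  refine Finset.sum_congr rfl fun s1 _ => Finset.sum_congr rfl fun s2 _ => ?_
  rw [map_mul, map_sum]
  have h1 : c (r, s1) * (∑ n ∈ Ioc N (2 * N), β n * Dl (a r s1) r s1 (m * n)) *
      ((starRingEnd ℂ) (c (r, s2)) *
        ∑ n ∈ Ioc N (2 * N), (starRingEnd ℂ) (β n * Dl (a r s2) r s2 (m * n))) =
      c (r, s1) * (starRingEnd ℂ) (c (r, s2)) *
        ((∑ n ∈ Ioc N (2 * N), β n * Dl (a r s1) r s1 (m * n)) *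
        ∑ n ∈ Ioc N (2 * N), (starRingEnd ℂ) (β n * Dl (a r s2) r s2 (m * n))) := by ring
  rw [h1, Finset.sum_mul_sum, Finset.mul_sum]
  refine Finset.sum_congr rfl fun n1 _ => ?_
  rw [Finset.mul_sum]
  refine Finset.sum_congr rfl fun n2 _ => ?_
  rw [map_mul, Lex_conj_Dl]
  ring

private lemma Lex_tr (a : ℕ → ℕ → ℤ) (r S M N : ℕ) (β : ℕ → ℂ) (c : ℕ × ℕ → ℂ) :
    ((TR M (fun m => ‖∑ s ∈ Ioc S (2 * S), c (r, s) *
      ∑ n ∈ Ioc N (2 * N), β n * Dl (a r s) r s (m * n)‖ ^ 2) : ℝ) : ℂ) =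
      ∑ s1 ∈ Ioc S (2 * S), ∑ s2 ∈ Ioc S (2 * S), ∑ n1 ∈ Ioc N (2 * N), ∑ n2 ∈ Ioc N (2 * N),
        c (r, s1) * (starRingEnd ℂ) (c (r, s2)) * (β n1 * (starRingEnd ℂ) (β n2)) *
          Ph a M r s1 s2 n1 n2 := by
  rw [Lex_tr_cast]
  have h1 : (fun m : ℕ => ((‖∑ s ∈ Ioc S (2 * S), c (r, s) *
      ∑ n ∈ Ioc N (2 * N), β n * Dl (a r s) r s (m * n)‖ ^ 2 : ℝ) : ℂ)) = fun m =>
      ∑ s1 ∈ Ioc S (2 * S), ∑ s2 ∈ Ioc S (2 * S), ∑ n1 ∈ Ioc N (2 * N), ∑ n2 ∈ Ioc N (2 * N),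
        c (r, s1) * (starRingEnd ℂ) (c (r, s2)) * (β n1 * (starRingEnd ℂ) (β n2)) *
          (Dl (a r s1) r s1 (m * n1) * Dl (a r s2) r s2 (m * n2)) :=
    funext fun m => Lex_sq a r S N m β c
  rw [h1, Lex_ten_sum]
  refine Finset.sum_congr rfl fun s1 _ => ?_
  rw [Lex_ten_sum]
  refine Finset.sum_congr rfl fun s2 _ => ?_
  rw [Lex_ten_sum]
  refine Finset.sum_congr rfl fun n1 _ => ?_
  rw [Lex_ten_sum]
  refine Finset.sum_congr rfl fun n2 _ => ?_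
  rw [Lex_ten_mul]
  rfl

private lemma Lex_norm_ten (M : ℕ) (F : ℕ → ℂ) (G : ℕ → ℝ) (h : ∀ m, ‖F m‖ ≤ G m) :
    ‖Ten M F‖ ≤ TR M G := by
  unfold Ten TR
  rw [norm_mul]
  have h1 : ‖(4 / (M : ℂ))‖ = 4 / (M : ℝ) := by
    rw [norm_div, Complex.norm_natCast]
    norm_num
  rw [h1]
  refine mul_le_mul_of_nonneg_left ?_ (by positivity)
  exact norm_sum_le_of_le _ fun i _ => norm_sum_le_of_le _ fun j _ => h _

private lemma Lex_D2 (a : ℤ) (r s t : ℕ) : ‖(1 / (s : ℂ)) * dl a r t‖ = D2 a r s t := by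
  rw [norm_mul, dl_nonneg_norm, norm_div, norm_one, Complex.norm_natCast]
  rfl

private lemma Lex_diff (a1 a2 : ℤ) (r s1 s2 t1 t2 : ℕ) :
    ‖Dl a1 r s1 t1 * Dl a2 r s2 t2 - dl a1 (r * s1) t1 * dl a2 (r * s2) t2‖ ≤
      D1 a1 r s1 t1 * D2 a2 r s2 t2 + D2 a1 r s1 t1 * D1 a2 r s2 t2 +
        D2 a1 r s1 t1 * D2 a2 r s2 t2 := by
  obtain ⟨x, hx⟩ : ∃ x, x = dl a1 (r * s1) t1 := ⟨_, rfl⟩
  obtain ⟨y, hy⟩ : ∃ y, y = dl a2 (r * s2) t2 := ⟨_, rfl⟩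
  obtain ⟨u, hu⟩ : ∃ u, u = (1 / (s1 : ℂ)) * dl a1 r t1 := ⟨_, rfl⟩
  obtain ⟨w, hw⟩ : ∃ w, w = (1 / (s2 : ℂ)) * dl a2 r t2 := ⟨_, rfl⟩
  have nx : ‖x‖ = D1 a1 r s1 t1 := by rw [hx]; exact dl_nonneg_norm _ _ _
  have ny : ‖y‖ = D1 a2 r s2 t2 := by rw [hy]; exact dl_nonneg_norm _ _ _
  have nu : ‖u‖ = D2 a1 r s1 t1 := by rw [hu]; exact Lex_D2 _ _ _ _
  have nw : ‖w‖ = D2 a2 r s2 t2 := by rw [hw]; exact Lex_D2 _ _ _ _
  unfold Dl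
  rw [← hx, ← hy, ← hu, ← hw, ← nx, ← ny, ← nu, ← nw]
  have e : (x - u) * (y - w) - x * y = -(x * w) + -(u * y) + u * w := by ring
  rw [e]
  refine (norm_add₃_le).trans (le_of_eq ?_)
  rw [norm_neg, norm_neg, norm_mul, norm_mul, norm_mul]

private lemma Lex_cop {a : ℤ} {q n m : ℕ} (hq : Int.gcd a (q : ℤ) = 1)
    (ht : (q : ℤ) ∣ ((m * n : ℕ) : ℤ) - a) : n.Coprime q := by
  have h4 : (Nat.gcd n q : ℤ) ∣ ((m * n : ℕ) : ℤ) :=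
    Int.natCast_dvd_natCast.2 (dvd_mul_of_dvd_right (Nat.gcd_dvd_left _ _) _)
  have h5 : (Nat.gcd n q : ℤ) ∣ ((m * n : ℕ) : ℤ) - a :=
    (Int.natCast_dvd_natCast.2 (Nat.gcd_dvd_right _ _)).trans ht
  have h6 := dvd_sub h4 h5
  rw [sub_sub_cancel] at h6
  have h7 : Nat.gcd n q ∣ Int.gcd a (q : ℤ) :=
    Int.dvd_gcd h6 (Int.natCast_dvd_natCast.2 (Nat.gcd_dvd_right _ _))
  rw [hq] at h7
  exact Nat.dvd_one.1 h7

/-- a nonzero term with two full congruences -/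
private lemma Lex_full {a : ℕ → ℕ → ℤ} {R S : ℕ} {z : ℝ} {P : Finset (ℕ × ℕ)}
    (hP : Pr a R S z P) {r s1 s2 n1 n2 m : ℕ} (h1 : (r, s1) ∈ P) (h2 : (r, s2) ∈ P)
    (hG : ¬ Gg a 1 r s1 s2 n1 n2)
    (d1 : ((r * s1 : ℕ) : ℤ) ∣ ((m * n1 : ℕ) : ℤ) - a r s1)
    (d2 : ((r * s2 : ℕ) : ℤ) ∣ ((m * n2 : ℕ) : ℤ) - a r s2) :
    2 ≤ Nat.gcd s1 s2 ∧ Gg a (Nat.gcd s1 s2) r s1 s2 n1 n2 := by
  obtain ⟨_, _, _, _, sq1, g1, _⟩ := hP _ h1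
  obtain ⟨_, _, _, _, sq2, g2, _⟩ := hP _ h2
  simp only at sq1 sq2 g1 g2
  have hg : Gg a (Nat.gcd s1 s2) r s1 s2 n1 n2 := by
    refine ⟨sq1, sq2, rfl, Lex_cop g1 d1, Lex_cop g2 d2, g1, g2, ?_⟩
    have e1 : ((r * Nat.gcd s1 s2 : ℕ) : ℤ) ∣ ((m * n1 : ℕ) : ℤ) - a r s1 :=
      (Int.natCast_dvd_natCast.2 (Nat.mul_dvd_mul_left r (Nat.gcd_dvd_left s1 s2))).trans d1
    have e2 : ((r * Nat.gcd s1 s2 : ℕ) : ℤ) ∣ ((m * n2 : ℕ) : ℤ) - a r s2 :=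
      (Int.natCast_dvd_natCast.2 (Nat.mul_dvd_mul_left r (Nat.gcd_dvd_right s1 s2))).trans d2
    have e3 : (n1 : ℤ) * a r s2 - (n2 : ℤ) * a r s1 =
        (n2 : ℤ) * (((m * n1 : ℕ) : ℤ) - a r s1) - (n1 : ℤ) * (((m * n2 : ℕ) : ℤ) - a r s2) := by
      push_cast
      ring
    rw [e3]
    exact dvd_sub (dvd_mul_of_dvd_right e1 _) (dvd_mul_of_dvd_right e2 _)
  refine ⟨?_, hg⟩
  have hs1 : s1 ≠ 0 := by
    rintro rfl
    rw [mul_zero] at sq1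
    exact not_squarefree_zero sq1
  have h0 : Nat.gcd s1 s2 ≠ 0 := fun h => hs1 (Nat.gcd_eq_zero_iff.1 h).1
  have h3 : Nat.gcd s1 s2 ≠ 1 := by
    intro h
    rw [h] at hg
    exact hG hg
  omega

theorem tLex : LexStmt := by
  classical
  intro z a R S M N P β c _ hP hβ hc hcP
  obtain ⟨K, hK⟩ : ∃ K : ℕ → ℕ → ℕ → ℕ → ℕ → ℂ, K = fun r s1 s2 n1 n2 =>
    c (r, s1) * (starRingEnd ℂ) (c (r, s2)) * (β n1 * (starRingEnd ℂ) (β n2)) := ⟨_, rfl⟩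
  have h1 : ((∑ r ∈ Ioc R (2 * R), TR M (fun m => ‖∑ s ∈ Ioc S (2 * S), c (r, s) *
      ∑ n ∈ Ioc N (2 * N), β n * Dl (a r s) r s (m * n)‖ ^ 2) : ℝ) : ℂ) =
      ∑ r ∈ Ioc R (2 * R), ∑ s1 ∈ Ioc S (2 * S), ∑ s2 ∈ Ioc S (2 * S), ∑ n1 ∈ Ioc N (2 * N),
        ∑ n2 ∈ Ioc N (2 * N), c (r, s1) * (starRingEnd ℂ) (c (r, s2)) *
          (β n1 * (starRingEnd ℂ) (β n2)) * Ph a M r s1 s2 n1 n2 := by
    rw [Complex.ofReal_sum]
    exact Finset.sum_congr rfl fun r _ => Lex_tr a r S M N β c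
  have h2 : ∑ r ∈ Ioc R (2 * R), ∑ s1 ∈ Ioc S (2 * S), ∑ s2 ∈ Ioc S (2 * S), ∑ n1 ∈ Ioc N (2 * N),
        ∑ n2 ∈ Ioc N (2 * N), c (r, s1) * (starRingEnd ℂ) (c (r, s2)) *
          (β n1 * (starRingEnd ℂ) (β n2)) * Ph a M r s1 s2 n1 n2 =
      ∑ r ∈ Ioc R (2 * R), ∑ s1 ∈ Ioc S (2 * S), ∑ s2 ∈ Ioc S (2 * S), ∑ n1 ∈ Ioc N (2 * N),
        ∑ n2 ∈ Ioc N (2 * N), (if Gg a 1 r s1 s2 n1 n2 then c (r, s1) * (starRingEnd ℂ) (c (r, s2)) *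
          (β n1 * (starRingEnd ℂ) (β n2)) * Ph a M r s1 s2 n1 n2 else 0) +
      ∑ r ∈ Ioc R (2 * R), ∑ s1 ∈ Ioc S (2 * S), ∑ s2 ∈ Ioc S (2 * S), ∑ n1 ∈ Ioc N (2 * N),
        ∑ n2 ∈ Ioc N (2 * N), (if 2 ≤ Nat.gcd s1 s2 ∧ Gg a (Nat.gcd s1 s2) r s1 s2 n1 n2 then
          c (r, s1) * (starRingEnd ℂ) (c (r, s2)) *
          (β n1 * (starRingEnd ℂ) (β n2)) * Ps a M r s1 s2 n1 n2 else 0) +
      ∑ r ∈ Ioc R (2 * R), ∑ s1 ∈ Ioc S (2 * S), ∑ s2 ∈ Ioc S (2 * S), ∑ n1 ∈ Ioc N (2 * N),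
        ∑ n2 ∈ Ioc N (2 * N), (K r s1 s2 n1 n2 * Ph a M r s1 s2 n1 n2 -
          (if Gg a 1 r s1 s2 n1 n2 then K r s1 s2 n1 n2 * Ph a M r s1 s2 n1 n2 else 0) -
          (if 2 ≤ Nat.gcd s1 s2 ∧ Gg a (Nat.gcd s1 s2) r s1 s2 n1 n2 then
            K r s1 s2 n1 n2 * Ps a M r s1 s2 n1 n2 else 0)) := by
    simp only [← Finset.sum_add_distrib]
    refine Finset.sum_congr rfl fun r _ => Finset.sum_congr rfl fun s1 _ =>
      Finset.sum_congr rfl fun s2 _ => Finset.sum_congr rfl fun n1 _ =>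
      Finset.sum_congr rfl fun n2 _ => ?_
    rw [hK]
    ring
  have h3 : ∑ r ∈ Ioc R (2 * R), TR M (fun m => ‖∑ s ∈ Ioc S (2 * S), c (r, s) *
      ∑ n ∈ Ioc N (2 * N), β n * Dl (a r s) r s (m * n)‖ ^ 2) ≤
      ‖((∑ r ∈ Ioc R (2 * R), TR M (fun m => ‖∑ s ∈ Ioc S (2 * S), c (r, s) *
      ∑ n ∈ Ioc N (2 * N), β n * Dl (a r s) r s (m * n)‖ ^ 2) : ℝ) : ℂ)‖ := by
    rw [Complex.norm_real, Real.norm_eq_abs]
    exact le_abs_self _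
  refine h3.trans ?_
  rw [h1, h2]
  refine (norm_add₃_le).trans (add_le_add le_rfl ?_)
  refine norm_sum_le_of_le _ fun r _ => norm_sum_le_of_le _ fun s1 _ =>
    norm_sum_le_of_le _ fun s2 _ => norm_sum_le_of_le _ fun n1 _ =>
    norm_sum_le_of_le _ fun n2 _ => ?_
  by_cases hG : Gg a 1 r s1 s2 n1 n2
  · have hg : ¬ (2 ≤ Nat.gcd s1 s2 ∧ Gg a (Nat.gcd s1 s2) r s1 s2 n1 n2) := by
      rintro ⟨hg, _⟩
      have := hG.2.2.1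
      omega
    have hB : ¬ Bd a P r s1 s2 n1 n2 := fun h => h.2.2 hG
    rw [if_pos hG, if_neg hg, if_neg hB, sub_self, sub_zero, norm_zero]
  · rw [if_neg hG, sub_zero]
    by_cases hP1 : (r, s1) ∈ P
    · by_cases hP2 : (r, s2) ∈ P
      · rw [if_pos (show Bd a P r s1 s2 n1 n2 from ⟨hP1, hP2, hG⟩)]
        have h4 : ‖K r s1 s2 n1 n2‖ ≤ 1 := by
          rw [hK]
          simp only
          rw [norm_mul, norm_mul, norm_mul, Complex.norm_conj, Complex.norm_conj]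
          have e1 := mul_le_one₀ (hc (r, s1)) (norm_nonneg _) (hc (r, s2))
          have e2 := mul_le_one₀ (hβ n1) (norm_nonneg _) (hβ n2)
          exact mul_le_one₀ e1 (by positivity) e2
        have h5 : (if 2 ≤ Nat.gcd s1 s2 ∧ Gg a (Nat.gcd s1 s2) r s1 s2 n1 n2 then
            K r s1 s2 n1 n2 * Ps a M r s1 s2 n1 n2 else 0) =
            K r s1 s2 n1 n2 * Ps a M r s1 s2 n1 n2 := by
          by_cases hg : 2 ≤ Nat.gcd s1 s2 ∧ Gg a (Nat.gcd s1 s2) r s1 s2 n1 n2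
          · rw [if_pos hg]
          · rw [if_neg hg]
            have h6 : Ps a M r s1 s2 n1 n2 = 0 := by
              unfold Ps Ten
              rw [Finset.sum_eq_zero, mul_zero]
              intro i _
              refine Finset.sum_eq_zero fun j _ => ?_
              unfold dl
              beta_reduce
              by_cases d1 : ((r * s1 : ℕ) : ℤ) ∣ (((i + j + M / 2) * n1 : ℕ) : ℤ) - a r s1
              · by_cases d2 : ((r * s2 : ℕ) : ℤ) ∣ (((i + j + M / 2) * n2 : ℕ) : ℤ) - a r s2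
                · exact absurd (Lex_full hP hP1 hP2 hG d1 d2) hg
                · rw [if_neg d2, mul_zero]
              · rw [if_neg d1, zero_mul]
            rw [h6, mul_zero]
        rw [h5, ← mul_sub, norm_mul]
        have h7 : ‖Ph a M r s1 s2 n1 n2 - Ps a M r s1 s2 n1 n2‖ ≤ Cr a M r s1 s2 n1 n2 := by
          have h8 : Ph a M r s1 s2 n1 n2 - Ps a M r s1 s2 n1 n2 =
              Ten M (fun m => Dl (a r s1) r s1 (m * n1) * Dl (a r s2) r s2 (m * n2) -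
                dl (a r s1) (r * s1) (m * n1) * dl (a r s2) (r * s2) (m * n2)) := by
            unfold Ph Ps Ten
            rw [← mul_sub]
            simp only [← Finset.sum_sub_distrib]
          rw [h8]
          exact Lex_norm_ten M _ _ fun m => Lex_diff _ _ _ _ _ _ _
        calc ‖K r s1 s2 n1 n2‖ * ‖Ph a M r s1 s2 n1 n2 - Ps a M r s1 s2 n1 n2‖
            ≤ 1 * ‖Ph a M r s1 s2 n1 n2 - Ps a M r s1 s2 n1 n2‖ :=
              mul_le_mul_of_nonneg_right h4 (norm_nonneg _)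
          _ ≤ Cr a M r s1 s2 n1 n2 := by rw [one_mul]; exact h7
      · have hB : ¬ Bd a P r s1 s2 n1 n2 := fun h => hP2 h.2.1
        have hK0 : K r s1 s2 n1 n2 = 0 := by
          rw [hK]
          simp only
          rw [hcP _ hP2, map_zero, mul_zero, zero_mul]
        rw [if_neg hB, hK0]
        simp
    · have hB : ¬ Bd a P r s1 s2 n1 n2 := fun h => hP1 h.1
      have hK0 : K r s1 s2 n1 n2 = 0 := by
        rw [hK]
        simp only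
        rw [hcP _ hP1, zero_mul, zero_mul]
      rw [if_neg hB, hK0]
      simp

end Pool.Agent.Lib.SL
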