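import Pool.Agent.Lib.SL.SpecD
import Pool.Agent.Lib.EH3.LS2

/-!
MP_00e23e_nt, project SL, module Lff (helper33): two full congruences, every g.
-/

set_option autoImplicit false

namespace Pool.Agent.Lib.SL

open Finset Pool.Agent.Lib.EH3 Pool.Agent.Lib.TB Pool.Agent.Results.MP_00e23e_nt Pool.Agent.Lib.MI

private lemma Lff_all (q : ℕ) (hq : 1 ≤ q) (z : ℤ) :
    ∑ h ∈ range q, en ((h : ℤ) * z) q = if (q : ℤ) ∣ z then (q : ℂ) else 0 := by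
  rw [← orth (by omega : 0 < q) z]
  apply Finset.sum_congr rfl
  intro h _
  unfold en
  congr 1
  push_cast
  ring

private lemma Lff_iff {q m n : ℕ} {ν a : ℤ} (hn : n.Coprime q) (h : (q : ℤ) ∣ ν * n - a) :
    (q : ℤ) ∣ ((m * n : ℕ) : ℤ) - a ↔ (q : ℤ) ∣ (m : ℤ) - ν := by
  have e : ((m * n : ℕ) : ℤ) - a = ((m : ℤ) - ν) * n + (ν * n - a) := by
    push_cast
    ring
  rw [e, dvd_add_left h]
  have hc : IsCoprime (q : ℤ) (n : ℤ) := Nat.isCoprime_iff_coprime.2 hn.symm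
  exact ⟨fun h1 => hc.dvd_of_dvd_mul_right h1, fun h1 => dvd_mul_of_dvd_left h1 _⟩

/-- r s1 and s3 = s2/g are coprime -/
private lemma Lff_cop {r s1 g s3 : ℕ} (sq2 : Squarefree (r * (g * s3))) (hg : Nat.gcd s1 (g * s3) = g) :
    (r * s1).Coprime s3 := by
  have hr : r.Coprime (g * s3) := Nat.coprime_of_squarefree_mul sq2
  have hr3 : r.Coprime s3 := Nat.Coprime.coprime_dvd_right (dvd_mul_left s3 g) hr
  have sq : Squarefree (g * s3) := sq2.squarefree_of_dvd (dvd_mul_left _ _)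
  have hg3 : g.Coprime s3 := Nat.coprime_of_squarefree_mul sq
  refine Nat.Coprime.mul_left hr3 ?_
  have h1 : Nat.gcd s1 s3 ∣ g := by
    rw [← hg]
    exact Nat.dvd_gcd (Nat.gcd_dvd_left _ _) ((Nat.gcd_dvd_right s1 s3).trans (dvd_mul_left s3 g))
  have h2 : Nat.gcd s1 s3 ∣ Nat.gcd g s3 := Nat.dvd_gcd h1 (Nat.gcd_dvd_right _ _)
  have h3 : Nat.gcd g s3 = 1 := hg3
  rw [h3] at h2
  exact Nat.dvd_one.1 h2

theorem tLff (h1 : LphStmt) : LffStmt := by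
  intro a g r s1 s2 n1 n2 m hG
  obtain ⟨ν, hν1, hν2, hν⟩ := h1 a g r s1 s2 n1 n2 hG
  obtain ⟨sq1, sq2, hg, hn1, hn2, -, -, -⟩ := hG
  have hrs1 : r * s1 ≠ 0 := sq1.ne_zero
  have hrs2 : r * s2 ≠ 0 := sq2.ne_zero
  have hs1 : s1 ≠ 0 := right_ne_zero_of_mul hrs1
  have hs2 : s2 ≠ 0 := right_ne_zero_of_mul hrs2
  have hgd1 : g ∣ s1 := by
    rw [← hg]
    exact Nat.gcd_dvd_left _ _
  have hgd2 : g ∣ s2 := by
    rw [← hg]
    exact Nat.gcd_dvd_right _ _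
  have hgpos : 0 < g := Nat.pos_of_dvd_of_pos hgd1 (Nat.pos_of_ne_zero hs1)
  obtain ⟨s3, hs3⟩ := hgd2
  have hdiv : s2 / g = s3 := by
    rw [hs3]
    exact Nat.mul_div_cancel_left s3 hgpos
  have hs3pos : 0 < s3 := by
    rcases Nat.eq_zero_or_pos s3 with h | h
    · rw [h, mul_zero] at hs3
      exact absurd hs3 hs2
    · exact h
  have hcop : (r * s1).Coprime s3 := by
    rw [hs3] at sq2 hg
    exact Lff_cop sq2 hg
  rw [hdiv] at hν ⊢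
  have hK : 1 ≤ r * s1 * s3 := Nat.mul_pos (Nat.pos_of_ne_zero hrs1) hs3pos
  have hsum : ∑ h ∈ range (r * s1 * s3), en ((h : ℤ) * m) (r * s1 * s3) * fg a h g r s1 s2 n1 n2 =
      ∑ h ∈ range (r * s1 * s3), en ((h : ℤ) * ((m : ℤ) - ν)) (r * s1 * s3) := by
    refine Finset.sum_congr rfl fun h _ => ?_
    rw [← hν (h : ℤ), ← en_add]
    congr 1
    ring
  rw [hsum, Lff_all _ hK]
  have e1 := Lff_iff (m := m) hn1 hν1
  have e2 := Lff_iff (m := m) hn2 hν2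
  have eK : ((r * s1 * s3 : ℕ) : ℤ) ∣ (m : ℤ) - ν ↔
      ((r * s1 : ℕ) : ℤ) ∣ (m : ℤ) - ν ∧ ((r * s2 : ℕ) : ℤ) ∣ (m : ℤ) - ν := by
    constructor
    · intro h
      refine ⟨(Int.natCast_dvd_natCast.2 (dvd_mul_right _ _)).trans h, ?_⟩
      refine (Int.natCast_dvd_natCast.2 ?_).trans h
      rw [hs3, ← mul_assoc]
      exact mul_dvd_mul_right (mul_dvd_mul_left r hgd1) s3
    · rintro ⟨h3, h4⟩
      have h5 : ((s3 : ℕ) : ℤ) ∣ (m : ℤ) - ν := by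
        refine (Int.natCast_dvd_natCast.2 ?_).trans h4
        rw [hs3, ← mul_assoc]
        exact dvd_mul_left s3 (r * g)
      have h6 : IsCoprime ((r * s1 : ℕ) : ℤ) (s3 : ℤ) := Nat.isCoprime_iff_coprime.2 hcop
      have h7 := h6.mul_dvd h3 h5
      rwa [← Nat.cast_mul] at h7
  have hKC : ((r * s1 * s3 : ℕ) : ℂ) ≠ 0 := by
    exact_mod_cast (by omega : r * s1 * s3 ≠ 0)
  have f1 : dl (a r s1) (r * s1) (m * n1) = if ((r * s1 : ℕ) : ℤ) ∣ (m : ℤ) - ν then 1 else 0 := by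
    simp only [dl, e1]
  have f2 : dl (a r s2) (r * s2) (m * n2) = if ((r * s2 : ℕ) : ℤ) ∣ (m : ℤ) - ν then 1 else 0 := by
    simp only [dl, e2]
  rw [f1, f2]
  by_cases hA : ((r * s1 : ℕ) : ℤ) ∣ (m : ℤ) - ν
  · by_cases hB : ((r * s2 : ℕ) : ℤ) ∣ (m : ℤ) - ν
    · rw [if_pos hA, if_pos hB, if_pos (eK.2 ⟨hA, hB⟩), one_div, inv_mul_cancel₀ hKC, one_mul]
    · rw [if_neg hB, if_neg (fun h => hB (eK.1 h).2), mul_zero, mul_zero]
  · rw [if_neg hA, if_neg (fun h => hA (eK.1 h).1), zero_mul, mul_zero]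

end Pool.Agent.Lib.SL
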