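import Pool.Agent.Lib.SL.SpecD

/-!
MP_00e23e_nt, project SL, module Lfi: the final statement DspStmt of chapter D.
-/

set_option autoImplicit false

namespace Pool.Agent.Lib.SL

open Finset Pool.Agent.Lib.EH3 Pool.Agent.Lib.TB Pool.Agent.Results.MP_00e23e_nt Pool.Agent.Lib.MI

private lemma Lfi_num (R M N S H G T z B1 BB : ℝ) (hR : 0 < R) (hM : 0 < M) (hN : 0 < N)
    (hS : 0 < S) (hH : 0 < H) (hG : 0 < G) (hT : 1 ≤ T) (hz : 1 ≤ z) (hB : 0 ≤ B1) (hBB : 0 ≤ BB) :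
    R * M * ((B1 + 32 * (R * S ^ 4 * N ^ 2) / (M * H)) +
      (BB + 2304 * (R * S ^ 4 * N ^ 2 / (M * H)) + 1152 * (M * N ^ 2 / (R * z)) +
        1728 * (M * N ^ 2 / (R * G)) + 576 * (S ^ 2 * N ^ 2 / G ^ 2) + 100 * T ^ 2 * (M * N)) +
      280 * T ^ 2 * (M * N * (1 + N / (R * z)))) ≤
    3000 * T ^ 2 * (R * M ^ 2 * N + M ^ 2 * N ^ 2 / z + M ^ 2 * N ^ 2 / G +
      R * M * N ^ 2 * S ^ 2 / G ^ 2 + R ^ 2 * S ^ 4 * N ^ 2 / H + R * M * (B1 + BB)) := by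
  have hz0 : 0 < z := by linarith
  have hT2 : (1 : ℝ) ≤ T ^ 2 := one_le_pow₀ hT
  have e : R * M * ((B1 + 32 * (R * S ^ 4 * N ^ 2) / (M * H)) +
      (BB + 2304 * (R * S ^ 4 * N ^ 2 / (M * H)) + 1152 * (M * N ^ 2 / (R * z)) +
        1728 * (M * N ^ 2 / (R * G)) + 576 * (S ^ 2 * N ^ 2 / G ^ 2) + 100 * T ^ 2 * (M * N)) +
      280 * T ^ 2 * (M * N * (1 + N / (R * z)))) =
      R * M * (B1 + BB) + 2336 * (R ^ 2 * S ^ 4 * N ^ 2 / H) + 1152 * (M ^ 2 * N ^ 2 / z) +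
        1728 * (M ^ 2 * N ^ 2 / G) + 576 * (R * M * N ^ 2 * S ^ 2 / G ^ 2) +
        T ^ 2 * (380 * (R * M ^ 2 * N) + 280 * (M ^ 2 * N ^ 2 / z)) := by
    field_simp
    ring
  rw [e]
  have h1 : 0 ≤ R * M * (B1 + BB) := by positivity
  have h2 : 0 ≤ R ^ 2 * S ^ 4 * N ^ 2 / H := by positivity
  have h3 : 0 ≤ M ^ 2 * N ^ 2 / z := by positivity
  have h4 : 0 ≤ M ^ 2 * N ^ 2 / G := by positivity
  have h5 : 0 ≤ R * M * N ^ 2 * S ^ 2 / G ^ 2 := by positivity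
  have h6 : 0 ≤ R * M ^ 2 * N := by positivity
  have k1 := mul_le_mul_of_nonneg_right hT2 h1
  have k2 := mul_le_mul_of_nonneg_right hT2 h2
  have k3 := mul_le_mul_of_nonneg_right hT2 h3
  have k4 := mul_le_mul_of_nonneg_right hT2 h4
  have k5 := mul_le_mul_of_nonneg_right hT2 h5
  have m1 : 0 ≤ T ^ 2 * (R * M ^ 2 * N) := by positivity
  have m2 : 0 ≤ T ^ 2 * (M ^ 2 * N ^ 2 / z) := by positivity
  have f : 3000 * T ^ 2 * (R * M ^ 2 * N + M ^ 2 * N ^ 2 / z + M ^ 2 * N ^ 2 / G +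
      R * M * N ^ 2 * S ^ 2 / G ^ 2 + R ^ 2 * S ^ 4 * N ^ 2 / H + R * M * (B1 + BB)) =
      3000 * (T ^ 2 * (R * M ^ 2 * N)) + 3000 * (T ^ 2 * (M ^ 2 * N ^ 2 / z)) +
      3000 * (T ^ 2 * (M ^ 2 * N ^ 2 / G)) + 3000 * (T ^ 2 * (R * M * N ^ 2 * S ^ 2 / G ^ 2)) +
      3000 * (T ^ 2 * (R ^ 2 * S ^ 4 * N ^ 2 / H)) + 3000 * (T ^ 2 * (R * M * (B1 + BB))) := by
    ring
  have g : T ^ 2 * (380 * (R * M ^ 2 * N) + 280 * (M ^ 2 * N ^ 2 / z)) =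
      380 * (T ^ 2 * (R * M ^ 2 * N)) + 280 * (T ^ 2 * (M ^ 2 * N ^ 2 / z)) := by ring
  rw [f, g]
  linarith

theorem tLfi (h1 : LcaStmt) (h2 : LexStmt) (h3 : LcrStmt) (h4 : LfuStmt) (h5 : LgoStmt) :
    LfiStmt := by
  refine ⟨3000, by norm_num, 2, ?_⟩
  intro X T z a R S M N H G P α β B hTau hz hB hS hN hM hH hG hRN hHR hX hRS hP hα hβ hTT
  have hR : 1 ≤ R := by omega
  have hSz : Sz X T z R S M N := ⟨hTau, hz, hR, hS, hN, hM, hRN, hX, hRS⟩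
  have hPr : ∀ w ∈ P, R < w.1 ∧ w.1 ≤ 2 * R ∧ S < w.2 ∧ w.2 ≤ 2 * S := fun w hw =>
    ⟨(hP w hw).1, (hP w hw).2.1, (hP w hw).2.2.1, (hP w hw).2.2.2.1⟩
  obtain ⟨c, hc1, hc0, hca⟩ := h1 a R S M N P α β hM hPr hα
  have hex := h2 z a R S M N P β c hM hP hβ hc1 hc0
  have hcr := h3 X T z a R S M N P hSz hP
  have hfu := h4 X T z a R S M N H G P β c B hSz hH hG hHR hP hβ hc1 hc0
    (fun g hg1 hg2 => hTT g (by omega) hg2)
  have hgo := h5 (B 1) z a R S M N H P β c (hB 1) hR hS hN hM hH hRN hHR hP hβ hc1 hc0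
    (hTT 1 le_rfl hG)
  have hRM : (0 : ℝ) ≤ (R : ℝ) * M := by positivity
  have hsum : ∑ g ∈ Icc 1 G, B g = B 1 + ∑ g ∈ Icc 2 G, B g := by
    have h6 : Icc 1 G = insert 1 (Icc 2 G) := by
      ext x
      rw [mem_insert, mem_Icc, mem_Icc]
      omega
    rw [h6, Finset.sum_insert]
    rw [mem_Icc]
    omega
  have hnum := Lfi_num (R : ℝ) M N S H G T z (B 1) (∑ g ∈ Icc 2 G, B g) (by exact_mod_cast hR)
    (by exact_mod_cast (by omega : 0 < M)) (by exact_mod_cast hN) (by exact_mod_cast hS)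
    (by exact_mod_cast hH) (by exact_mod_cast hG) hTau.1 hz (hB 1)
    (Finset.sum_nonneg fun g _ => hB g)
  rw [hsum]
  exact le_trans hca (le_trans (mul_le_mul_of_nonneg_left
    (le_trans hex (add_le_add (add_le_add hgo hfu) hcr)) hRM) hnum)

end Pool.Agent.Lib.SL
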