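import Pool.Agent.Lib.SL.SpecD

/-!
MP_00e23e_nt, project SL, chapter D, module Lfu: all terms with two full congruences.
-/

set_option autoImplicit false

namespace Pool.Agent.Lib.SL

open Finset Pool.Agent.Lib.EH3 Pool.Agent.Lib.TB Pool.Agent.Results.MP_00e23e_nt Pool.Agent.Lib.MI

/-- comparison of two fivefold sums -/
private lemma Lfu_norm (A1 A2 A3 : Finset ℕ) (F F3 : ℕ → ℕ → ℕ → ℕ → ℕ → ℂ)
    (b1 b2 : ℕ → ℕ → ℕ → ℕ → ℕ → ℝ)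
    (h : ∀ r s1 s2 n1 n2, ‖F r s1 s2 n1 n2 - F3 r s1 s2 n1 n2‖ ≤
      b1 r s1 s2 n1 n2 + b2 r s1 s2 n1 n2) :
    ‖∑ r ∈ A1, ∑ s1 ∈ A2, ∑ s2 ∈ A2, ∑ n1 ∈ A3, ∑ n2 ∈ A3, F r s1 s2 n1 n2‖ ≤
      ‖∑ r ∈ A1, ∑ s1 ∈ A2, ∑ s2 ∈ A2, ∑ n1 ∈ A3, ∑ n2 ∈ A3, F3 r s1 s2 n1 n2‖ +
        ∑ r ∈ A1, ∑ s1 ∈ A2, ∑ s2 ∈ A2, ∑ n1 ∈ A3, ∑ n2 ∈ A3, b1 r s1 s2 n1 n2 +
        ∑ r ∈ A1, ∑ s1 ∈ A2, ∑ s2 ∈ A2, ∑ n1 ∈ A3, ∑ n2 ∈ A3, b2 r s1 s2 n1 n2 := by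
  have e : ∑ r ∈ A1, ∑ s1 ∈ A2, ∑ s2 ∈ A2, ∑ n1 ∈ A3, ∑ n2 ∈ A3, F r s1 s2 n1 n2 =
      ∑ r ∈ A1, ∑ s1 ∈ A2, ∑ s2 ∈ A2, ∑ n1 ∈ A3, ∑ n2 ∈ A3, F3 r s1 s2 n1 n2 +
      ∑ r ∈ A1, ∑ s1 ∈ A2, ∑ s2 ∈ A2, ∑ n1 ∈ A3, ∑ n2 ∈ A3,
        (F r s1 s2 n1 n2 - F3 r s1 s2 n1 n2) := by
    simp only [← Finset.sum_add_distrib, add_sub_cancel]
  have e2 : ‖∑ r ∈ A1, ∑ s1 ∈ A2, ∑ s2 ∈ A2, ∑ n1 ∈ A3, ∑ n2 ∈ A3,
        (F r s1 s2 n1 n2 - F3 r s1 s2 n1 n2)‖ ≤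
      ∑ r ∈ A1, ∑ s1 ∈ A2, ∑ s2 ∈ A2, ∑ n1 ∈ A3, ∑ n2 ∈ A3,
        (b1 r s1 s2 n1 n2 + b2 r s1 s2 n1 n2) :=
    norm_sum_le_of_le _ fun r _ => norm_sum_le_of_le _ fun s1 _ =>
      norm_sum_le_of_le _ fun s2 _ => norm_sum_le_of_le _ fun n1 _ =>
        norm_sum_le_of_le _ fun n2 _ => h r s1 s2 n1 n2
  simp only [Finset.sum_add_distrib] at e2
  rw [e]
  refine (norm_add_le _ _).trans ?_
  rw [add_assoc]
  exact add_le_add le_rfl e2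

theorem tLfu (h1 : LddStmt) (h2 : LglStmt) (h3 : LgmStmt) : LfuStmt := by
  classical
  intro X T z a R S M N H G P β c B hSz hH hG hR hP hβ hc hcP hB
  have A := h3 X T z a R S M N H G P β c B hSz hH hR hP hβ hc hcP hB
  have B1 := h1 X T z a R S M N P hSz hP
  have B2 := h2 X T z a R S M N G P hSz hG hP
  refine le_trans (Lfu_norm _ _ _ _ _ _ _ ?_) ((add_le_add (add_le_add A B1) B2).trans ?_)
  · intro r s1 s2 n1 n2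
    have hw : ‖c (r, s1) * (starRingEnd ℂ) (c (r, s2)) * (β n1 * (starRingEnd ℂ) (β n2)) *
        Ps a M r s1 s2 n1 n2‖ ≤ ‖Ps a M r s1 s2 n1 n2‖ := by
      rw [norm_mul, norm_mul, norm_mul, norm_mul, RCLike.norm_conj, RCLike.norm_conj]
      have k1 : ‖c (r, s1)‖ * ‖c (r, s2)‖ ≤ 1 :=
        mul_le_one₀ (hc _) (norm_nonneg _) (hc _)
      have k2 : ‖β n1‖ * ‖β n2‖ ≤ 1 := mul_le_one₀ (hβ _) (norm_nonneg _) (hβ _)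
      have k3 : ‖c (r, s1)‖ * ‖c (r, s2)‖ * (‖β n1‖ * ‖β n2‖) ≤ 1 :=
        mul_le_one₀ k1 (mul_nonneg (norm_nonneg _) (norm_nonneg _)) k2
      exact mul_le_of_le_one_left (norm_nonneg _) k3
    have hw0 : ((r, s1) ∉ P ∨ (r, s2) ∉ P) →
        c (r, s1) * (starRingEnd ℂ) (c (r, s2)) * (β n1 * (starRingEnd ℂ) (β n2)) *
          Ps a M r s1 s2 n1 n2 = 0 := by
      rintro (hh | hh)
      · rw [hcP _ hh]
        simp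
      · rw [hcP _ hh]
        simp
    generalize c (r, s1) * (starRingEnd ℂ) (c (r, s2)) * (β n1 * (starRingEnd ℂ) (β n2)) *
      Ps a M r s1 s2 n1 n2 = W at hw hw0 ⊢
    have hn : 0 ≤ ‖Ps a M r s1 s2 n1 n2‖ := norm_nonneg _
    generalize ‖Ps a M r s1 s2 n1 n2‖ = y at hw hn ⊢
    by_cases hPP : (r, s1) ∈ P ∧ (r, s2) ∈ P
    · by_cases hg : 2 ≤ Nat.gcd s1 s2 ∧ Gg a (Nat.gcd s1 s2) r s1 s2 n1 n2
      · by_cases hND : ND (a r s1) (a r s2) (r * Nat.gcd s1 s2) N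
        · by_cases hgG : Nat.gcd s1 s2 ≤ G
          · rw [if_pos hg, if_pos ⟨hg.1, hg.2, hND, hgG⟩, sub_self, norm_zero]
            refine add_nonneg ?_ ?_ <;> split_ifs <;> first | exact hn | exact le_rfl
          · rw [if_pos hg, if_neg (fun hh => hgG hh.2.2.2), sub_zero,
              if_neg (fun hh => hh.2.2.2 hND),
              if_pos ⟨hPP.1, hPP.2, hg.1, hg.2, hND, lt_of_not_ge hgG⟩, zero_add]
            exact hw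
        · rw [if_pos hg, if_neg (fun hh => hND hh.2.2.1), sub_zero,
            if_pos ⟨hPP.1, hPP.2, hg.2, hND⟩, if_neg (fun hh => hND hh.2.2.2.2.1), add_zero]
          exact hw
      · rw [if_neg hg, if_neg (fun hh => hg ⟨hh.1, hh.2.1⟩), sub_self, norm_zero]
        refine add_nonneg ?_ ?_ <;> split_ifs <;> first | exact hn | exact le_rfl
    · have hW : W = 0 := by
        apply hw0
        by_cases h : (r, s1) ∈ P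
        · exact Or.inr (fun h' => hPP ⟨h, h'⟩)
        · exact Or.inl h
      rw [hW, ite_self, ite_self, sub_self, norm_zero]
      refine add_nonneg ?_ ?_ <;> split_ifs <;> first | exact hn | exact le_rfl
  · linarith

end Pool.Agent.Lib.SL
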