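import Pool.Agent.Lib.SL.SpecD

/-!
MP_00e23e_nt, SL/Lgl (helper13): g > G.
-/

set_option autoImplicit false

namespace Pool.Agent.Lib.SL

open Finset Pool.Agent.Lib.EH3 Pool.Agent.Lib.TB Pool.Agent.Results.MP_00e23e_nt Pool.Agent.Lib.MI

/-- the integers up to `3 M` in one class modulo `K` -/
private theorem Lgl_count (M K : ℕ) (hK : 1 ≤ K) (ν : ℤ) :
    (((Icc (M / 2) (3 * M)).filter (fun m : ℕ => (K : ℤ) ∣ (m : ℤ) - ν)).card : ℝ) ≤
      3 * (M : ℝ) / K + 1 := by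
  have h1 : ((Icc (M / 2) (3 * M)).filter (fun m : ℕ => (K : ℤ) ∣ (m : ℤ) - ν)).card ≤
      (range (3 * M / K + 1)).card := by
    refine card_le_card_of_injOn (fun m => m / K) ?_ ?_
    · intro m hm
      have hm1 := (mem_Icc.1 (mem_filter.1 hm).1).2
      have : m / K ≤ 3 * M / K := Nat.div_le_div_right hm1
      simp only [coe_range, Set.mem_Iio]
      omega
    · intro m hm m' hm' he
      have d1 := (mem_filter.1 hm).2
      have d2 := (mem_filter.1 hm').2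
      have d3 : (K : ℤ) ∣ (m' : ℤ) - m := by
        have := dvd_sub d2 d1
        rwa [sub_sub_sub_cancel_right] at this
      have d4 : m ≡ m' [MOD K] := (Nat.modEq_iff_dvd).2 d3
      have d5 : m % K = m' % K := d4
      have he' : m / K = m' / K := he
      rw [← Nat.div_add_mod m K, ← Nat.div_add_mod m' K, d5, he']
  rw [card_range] at h1
  have hK0 : (0 : ℝ) < K := by exact_mod_cast hK
  have h2 : (((3 * M / K : ℕ)) : ℝ) ≤ 3 * (M : ℝ) / K := by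
    have := @Nat.cast_div_le ℝ _ _ _ (3 * M) K
    push_cast at this
    exact this
  have h3 : (((Icc (M / 2) (3 * M)).filter (fun m : ℕ => (K : ℤ) ∣ (m : ℤ) - ν)).card : ℝ) ≤
      ((3 * M / K + 1 : ℕ) : ℝ) := by exact_mod_cast h1
  push_cast at h3
  linarith

private theorem Lgl_dl (a : ℤ) (q t : ℕ) :
    ‖dl a q t‖ = if (q : ℤ) ∣ (t : ℤ) - a then 1 else 0 := by
  unfold dl
  split_ifs <;> simp

private theorem Lgl_Ten (M : ℕ) (F : ℕ → ℂ) (G : ℕ → ℝ) (h : ∀ m, ‖F m‖ ≤ G m) :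
    ‖Ten M F‖ ≤ TR M G := by
  unfold Ten TR
  rw [norm_mul]
  have h1 : ‖(4 / (M : ℂ))‖ = 4 / (M : ℝ) := by
    rw [norm_div, Complex.norm_natCast]
    norm_num
  rw [h1]
  refine mul_le_mul_of_nonneg_left ?_ (by positivity)
  refine (norm_sum_le _ _).trans (Finset.sum_le_sum fun i _ => ?_)
  exact (norm_sum_le _ _).trans (Finset.sum_le_sum fun j _ => h _)

private theorem Lgl_cancel {q : ℕ} {n a ν m : ℤ} (hn : IsCoprime (q : ℤ) n)
    (h1 : (q : ℤ) ∣ ν * n - a) (h2 : (q : ℤ) ∣ m * n - a) : (q : ℤ) ∣ m - ν := by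
  have h3 : (q : ℤ) ∣ (m - ν) * n := by
    have := dvd_sub h2 h1
    have e : m * n - a - (ν * n - a) = (m - ν) * n := by ring
    rwa [e] at this
  exact hn.dvd_of_dvd_mul_right h3

/-- the bound for one tuple -/
private theorem Lgl_one (hD : DtrStmt) (hL : LphStmt) (a : ℕ → ℕ → ℤ) (R S M r s1 s2 n1 n2 : ℕ)
    (hM : 8 ≤ M) (hR : 1 ≤ R) (hS : 1 ≤ S) (hr : R < r) (h1 : S < s1) (h2 : S < s2)
    (hG : Gg a (Nat.gcd s1 s2) r s1 s2 n1 n2) :
    ‖Ps a M r s1 s2 n1 n2‖ ≤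
      4 * (3 * (M : ℝ) * (Nat.gcd s1 s2 : ℕ) / ((R : ℝ) * (S : ℝ) ^ 2) + 1) := by
  obtain ⟨ν, hν1, hν2, -⟩ := hL a _ r s1 s2 n1 n2 hG
  obtain ⟨-, -, -, hc1, hc2, -, -, -⟩ := hG
  have hc1' : IsCoprime ((r * s1 : ℕ) : ℤ) (n1 : ℤ) := (Nat.isCoprime_iff_coprime.2 hc1).symm
  have hc2' : IsCoprime ((r * s2 : ℕ) : ℤ) (n2 : ℤ) := (Nat.isCoprime_iff_coprime.2 hc2).symm
  set K : ℕ := Nat.lcm (r * s1) (r * s2) with hK
  have hr0 : 0 < r := by omega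
  have hs10 : 0 < s1 := by omega
  have hs20 : 0 < s2 := by omega
  have hK1 : 1 ≤ K := Nat.lcm_pos (Nat.mul_pos hr0 hs10) (Nat.mul_pos hr0 hs20)
  have hg0 : 0 < Nat.gcd s1 s2 := Nat.gcd_pos_of_pos_left _ hs10
  have hKe : K = r * Nat.lcm s1 s2 := by rw [hK, Nat.lcm_mul_left]
  have hge : (Nat.gcd s1 s2 : ℝ) * (Nat.lcm s1 s2 : ℝ) = (s1 : ℝ) * s2 := by
    exact_mod_cast Nat.gcd_mul_lcm s1 s2
  have hR0 : (0 : ℝ) < R := by exact_mod_cast hR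
  have hS0 : (0 : ℝ) < S := by exact_mod_cast hS
  have hg0' : (0 : ℝ) < (Nat.gcd s1 s2 : ℕ) := by exact_mod_cast hg0
  have hK0 : (0 : ℝ) < K := by exact_mod_cast hK1
  have hKg : (R : ℝ) * (S : ℝ) ^ 2 ≤ (K : ℝ) * (Nat.gcd s1 s2 : ℕ) := by
    have e : (K : ℝ) * (Nat.gcd s1 s2 : ℕ) = (r : ℝ) * ((s1 : ℝ) * s2) := by
      rw [hKe, ← hge]
      push_cast
      ring
    rw [e]
    have hr' : (R : ℝ) ≤ r := by exact_mod_cast hr.le
    have hs1' : (S : ℝ) ≤ s1 := by exact_mod_cast h1.le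
    have hs2' : (S : ℝ) ≤ s2 := by exact_mod_cast h2.le
    have : (S : ℝ) * S ≤ s1 * s2 := mul_le_mul hs1' hs2' hS0.le (hS0.le.trans hs1')
    rw [sq]
    exact mul_le_mul hr' this (by positivity) (hR0.le.trans hr')
  classical
  have hb : ‖Ps a M r s1 s2 n1 n2‖ ≤
      4 * ∑ m ∈ Icc (M / 2) (3 * M), (if (K : ℤ) ∣ (m : ℤ) - ν then (1 : ℝ) else 0) := by
    refine (Lgl_Ten M _ (fun m : ℕ => if (K : ℤ) ∣ (m : ℤ) - ν then (1 : ℝ) else 0)
      fun m => ?_).trans (hD M _ hM fun m => ?_).2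
    · rw [norm_mul, Lgl_dl, Lgl_dl]
      by_cases d1 : ((r * s1 : ℕ) : ℤ) ∣ ((m * n1 : ℕ) : ℤ) - a r s1
      · by_cases d2 : ((r * s2 : ℕ) : ℤ) ∣ ((m * n2 : ℕ) : ℤ) - a r s2
        · have e1 : ((r * s1 : ℕ) : ℤ) ∣ (m : ℤ) - ν :=
            Lgl_cancel hc1' hν1 (by rw [Nat.cast_mul] at d1; exact d1)
          have e2 : ((r * s2 : ℕ) : ℤ) ∣ (m : ℤ) - ν :=
            Lgl_cancel hc2' hν2 (by rw [Nat.cast_mul] at d2; exact d2)
          have e3 : (K : ℤ) ∣ (m : ℤ) - ν := by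
            rw [Int.natCast_dvd] at e1 e2 ⊢
            exact Nat.lcm_dvd e1 e2
          rw [if_pos d1, if_pos d2, if_pos e3, mul_one]
        · rw [if_neg d2, mul_zero]
          split_ifs <;> norm_num
      · rw [if_neg d1, zero_mul]
        split_ifs <;> norm_num
    · show (0 : ℝ) ≤ if (K : ℤ) ∣ (m : ℤ) - ν then (1 : ℝ) else 0
      split_ifs <;> norm_num
  rw [← Finset.sum_filter, Finset.sum_const, nsmul_eq_mul, mul_one] at hb
  have hc := Lgl_count M K hK1 ν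
  have hfin : 3 * (M : ℝ) / K ≤ 3 * (M : ℝ) * (Nat.gcd s1 s2 : ℕ) / ((R : ℝ) * (S : ℝ) ^ 2) := by
    rw [div_le_div_iff₀ hK0 (by positivity)]
    have hM0 : (0 : ℝ) ≤ 3 * M := by positivity
    nlinarith [mul_le_mul_of_nonneg_left hKg hM0]
  calc ‖Ps a M r s1 s2 n1 n2‖ ≤ 4 * _ := hb
    _ ≤ 4 * (3 * (M : ℝ) / K + 1) := by
        refine mul_le_mul_of_nonneg_left ?_ (by norm_num)
        convert hc
    _ ≤ _ := by linarith

/-- the sum over `g` -/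
private theorem Lgl_sum (z c1 : ℝ) (S G : ℕ) (hG : 1 ≤ G) (hc : 0 ≤ c1) :
    ∑ g ∈ (Icc 2 (2 * S)).filter (fun g : ℕ => z < g),
      (if G < g then 4 * (c1 * g + 1) else 0) / (g : ℝ) ^ 3 ≤ 4 * (c1 / G + 1 / (G : ℝ) ^ 2) := by
  have hG0 : (0 : ℝ) < G := by exact_mod_cast hG
  set L : ℕ := max G (2 * S) with hL
  have h1 : ∑ g ∈ (Icc 2 (2 * S)).filter (fun g : ℕ => z < g),
      (if G < g then 4 * (c1 * g + 1) else 0) / (g : ℝ) ^ 3 ≤
      ∑ g ∈ Ioc G L, 4 * (c1 + 1 / G) * (((g : ℝ) ^ 2)⁻¹) := by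
    have h2 : ∑ g ∈ (Icc 2 (2 * S)).filter (fun g : ℕ => z < g),
        (if G < g then 4 * (c1 * g + 1) else 0) / (g : ℝ) ^ 3 ≤
        ∑ g ∈ ((Icc 2 (2 * S)).filter (fun g : ℕ => z < g)).filter (fun g => G < g),
          4 * (c1 + 1 / G) * (((g : ℝ) ^ 2)⁻¹) := by
      rw [Finset.sum_filter (s := (Icc 2 (2 * S)).filter (fun g : ℕ => z < g))]
      refine Finset.sum_le_sum fun g hg => ?_
      by_cases h : G < g
      · rw [if_pos h, if_pos h]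
        have hg0 : (0 : ℝ) < g := by exact_mod_cast (by omega : 0 < g)
        have hgG : (G : ℝ) ≤ g := by exact_mod_cast h.le
        have e : 4 * (c1 * g + 1) / (g : ℝ) ^ 3 = 4 * (c1 + 1 / g) * (((g : ℝ) ^ 2)⁻¹) := by
          field_simp
        rw [e]
        refine mul_le_mul_of_nonneg_right ?_ (by positivity)
        have : 1 / (g : ℝ) ≤ 1 / G := one_div_le_one_div_of_le hG0 hgG
        linarith
      · rw [if_neg h, if_neg h, zero_div]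
    refine h2.trans (Finset.sum_le_sum_of_subset_of_nonneg ?_ fun g _ _ => by positivity)
    intro g hg
    rw [mem_filter, mem_filter, mem_Icc] at hg
    rw [mem_Ioc]
    exact ⟨hg.2, hg.1.1.2.trans (le_max_right _ _)⟩
  refine h1.trans ?_
  rw [← Finset.mul_sum]
  have h3 : ∑ g ∈ Ioc G L, ((g : ℝ) ^ 2)⁻¹ ≤ 1 / G := by
    have := @sum_Ioc_inv_sq_le_sub ℝ _ _ _ G L (by omega) (le_max_left _ _)
    have hL0 : (0 : ℝ) ≤ (L : ℝ)⁻¹ := by positivity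
    rw [one_div]
    linarith
  calc 4 * (c1 + 1 / G) * ∑ g ∈ Ioc G L, ((g : ℝ) ^ 2)⁻¹ ≤ 4 * (c1 + 1 / G) * (1 / G) :=
        mul_le_mul_of_nonneg_left h3 (by positivity)
    _ = 4 * (c1 / G + 1 / (G : ℝ) ^ 2) := by
        field_simp

open Classical in
theorem tLgl (h1 : DtrStmt) (h2 : LphStmt) (h3 : LgsStmt) : LglStmt := by
  intro X T z a R S M N G P hSz hG hPr
  obtain ⟨-, -, hR, hS, hN, hM, -, -, -⟩ := hSz
  set c1 : ℝ := 3 * (M : ℝ) / ((R : ℝ) * (S : ℝ) ^ 2) with hc1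
  have hR0 : (0 : ℝ) < R := by exact_mod_cast hR
  have hS0 : (0 : ℝ) < S := by exact_mod_cast hS
  have hG0 : (0 : ℝ) < G := by exact_mod_cast hG
  have hc0 : 0 ≤ c1 := by positivity
  have hF := h3 z a R S N P (fun g => if G < g then 4 * (c1 * g + 1) else 0) hR hS hN hPr
    (fun g => by
      show (0 : ℝ) ≤ if G < g then 4 * (c1 * g + 1) else 0
      split_ifs
      · positivity
      · exact le_refl _)
  refine (Finset.sum_le_sum fun r hr => Finset.sum_le_sum fun s1 hs1 => Finset.sum_le_sum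
    fun s2 hs2 => Finset.sum_le_sum fun n1 _ => Finset.sum_le_sum fun n2 _ => ?_).trans
    (hF.trans ?_)
  · by_cases h : (r, s1) ∈ P ∧ (r, s2) ∈ P ∧ 2 ≤ Nat.gcd s1 s2 ∧
        Gg a (Nat.gcd s1 s2) r s1 s2 n1 n2 ∧ ND (a r s1) (a r s2) (r * Nat.gcd s1 s2) N ∧
        G < Nat.gcd s1 s2
    · rw [if_pos h]
      obtain ⟨i1, i2, i3, i4, i5, i6⟩ := h
      rw [if_pos ⟨i1, i2, i3, i4, i5⟩]
      show _ ≤ if G < Nat.gcd s1 s2 then 4 * (c1 * (Nat.gcd s1 s2 : ℕ) + 1) else 0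
      rw [if_pos i6]
      refine (Lgl_one h1 h2 a R S M r s1 s2 n1 n2 hM hR hS (mem_Ioc.1 hr).1 (mem_Ioc.1 hs1).1
        (mem_Ioc.1 hs2).1 i4).trans (le_of_eq ?_)
      rw [hc1]
      ring
    · rw [if_neg h]
      have h0 : (0 : ℝ) ≤ if G < Nat.gcd s1 s2 then 4 * (c1 * (Nat.gcd s1 s2 : ℕ) + 1) else 0 := by
        split_ifs
        · positivity
        · exact le_refl _
      by_cases h' : (r, s1) ∈ P ∧ (r, s2) ∈ P ∧ 2 ≤ Nat.gcd s1 s2 ∧
          Gg a (Nat.gcd s1 s2) r s1 s2 n1 n2 ∧ ND (a r s1) (a r s2) (r * Nat.gcd s1 s2) N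
      · rw [if_pos h']; exact h0
      · rw [if_neg h']
  · have hs := Lgl_sum z c1 S G hG hc0
    calc 144 * ((S : ℝ) ^ 2 * (N : ℝ) ^ 2) * _ ≤
        144 * ((S : ℝ) ^ 2 * (N : ℝ) ^ 2) * (4 * (c1 / G + 1 / (G : ℝ) ^ 2)) :=
          mul_le_mul_of_nonneg_left hs (by positivity)
      _ = 1728 * ((M : ℝ) * (N : ℝ) ^ 2 / ((R : ℝ) * G)) +
          576 * ((S : ℝ) ^ 2 * (N : ℝ) ^ 2 / (G : ℝ) ^ 2) := by
          rw [hc1]
          field_simp
          ring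

end Pool.Agent.Lib.SL
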