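import Pool.Agent.Lib.SL.SpecD

/-!
MP_00e23e_nt, project SL, module Lgm (helper14): the terms with 2 ≤ gcd(s1, s2) ≤ G.
-/

namespace Pool.Agent.Lib.SL

open Finset Pool.Agent.Lib.EH3 Pool.Agent.Lib.TB Pool.Agent.Results.MP_00e23e_nt Pool.Agent.Lib.MI

/-- exchange of the sums -/
private lemma Lgm_ex {ι : Type} (I : Finset ι) (A B C : Finset ℕ)
    (f : ι → ℕ → ℕ → ℕ → ℕ → ℕ → ℂ) :
    ∑ i ∈ I, ∑ r ∈ A, ∑ s1 ∈ B, ∑ s2 ∈ B, ∑ n1 ∈ C, ∑ n2 ∈ C, f i r s1 s2 n1 n2 =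
      ∑ r ∈ A, ∑ s1 ∈ B, ∑ s2 ∈ B, ∑ n1 ∈ C, ∑ n2 ∈ C, ∑ i ∈ I, f i r s1 s2 n1 n2 := by
  rw [Finset.sum_comm]
  refine Finset.sum_congr rfl fun r _ => ?_
  rw [Finset.sum_comm]
  refine Finset.sum_congr rfl fun s1 _ => ?_
  rw [Finset.sum_comm]
  refine Finset.sum_congr rfl fun s2 _ => ?_
  rw [Finset.sum_comm]
  refine Finset.sum_congr rfl fun n1 _ => ?_
  rw [Finset.sum_comm]

private lemma Lgm_sq (k n : ℕ) (hk : 1 ≤ k) : ∑ i ∈ Ioc k n, ((i : ℝ) ^ 2)⁻¹ ≤ (k : ℝ)⁻¹ := by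
  rcases le_or_gt k n with h | h
  · have h1 := sum_Ioc_inv_sq_le_sub (α := ℝ) (by omega : k ≠ 0) h
    have h2 : (0 : ℝ) ≤ (n : ℝ)⁻¹ := by positivity
    linarith
  · rw [Ioc_eq_empty (by omega), sum_empty]
    positivity

private lemma Lgm_num (z : ℝ) (hz : 1 ≤ z) (n : ℕ) (u v : ℝ) (hu : 0 ≤ u) (hv : 0 ≤ v) :
    ∑ g ∈ (Icc 2 n).filter (fun g : ℕ => z < g), (u / (g : ℝ) + v * (g : ℝ)) / (g : ℝ) ^ 3 ≤
      u + v * (2 / z) := by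
  have hfl : 1 ≤ ⌊z⌋₊ := by
    rw [Nat.one_le_floor_iff]
    exact hz
  have hsub : (Icc 2 n).filter (fun g : ℕ => z < g) ⊆ Ioc ⌊z⌋₊ n := by
    intro g hg
    rw [mem_filter, mem_Icc] at hg
    rw [mem_Ioc]
    exact ⟨(Nat.floor_lt (by linarith)).2 hg.2, hg.1.2⟩
  have h1 : ∑ g ∈ (Icc 2 n).filter (fun g : ℕ => z < g), (u / (g : ℝ) + v * (g : ℝ)) / (g : ℝ) ^ 3 ≤
      ∑ g ∈ Ioc ⌊z⌋₊ n, (u * ((g : ℝ) ^ 2)⁻¹ + v * ((g : ℝ) ^ 2)⁻¹) := by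
    refine (Finset.sum_le_sum_of_subset_of_nonneg hsub (fun g _ _ => by positivity)).trans ?_
    refine Finset.sum_le_sum fun g hg => ?_
    rw [mem_Ioc] at hg
    have hg1 : (1 : ℝ) ≤ (g : ℝ) := by exact_mod_cast (by omega : 1 ≤ g)
    have hg0 : (0 : ℝ) < (g : ℝ) := by linarith
    have e1 : (u / (g : ℝ) + v * (g : ℝ)) / (g : ℝ) ^ 3 =
        u * ((g : ℝ) ^ 4)⁻¹ + v * ((g : ℝ) ^ 2)⁻¹ := by
      field_simp
    rw [e1]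
    have e2 : ((g : ℝ) ^ 4)⁻¹ ≤ ((g : ℝ) ^ 2)⁻¹ :=
      inv_anti₀ (by positivity) (pow_le_pow_right₀ hg1 (by norm_num))
    have := mul_le_mul_of_nonneg_left e2 hu
    linarith
  have hf0 : (0 : ℝ) < (⌊z⌋₊ : ℝ) := by exact_mod_cast hfl
  have hsq := Lgm_sq ⌊z⌋₊ n hfl
  have h2 : ((⌊z⌋₊ : ℝ))⁻¹ ≤ 2 / z := by
    rw [inv_eq_one_div, div_le_div_iff₀ hf0 (by linarith), one_mul]
    have a1 := Nat.lt_floor_add_one z
    have a2 : (1 : ℝ) ≤ (⌊z⌋₊ : ℝ) := by exact_mod_cast hfl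
    linarith
  have h3 : ((⌊z⌋₊ : ℝ))⁻¹ ≤ 1 := by
    rw [inv_le_one₀ hf0]
    exact_mod_cast hfl
  rw [sum_add_distrib, ← mul_sum, ← mul_sum] at h1
  have h4 : u * ∑ g ∈ Ioc ⌊z⌋₊ n, ((g : ℝ) ^ 2)⁻¹ ≤ u * 1 :=
    mul_le_mul_of_nonneg_left (hsq.trans h3) hu
  have h5 : v * ∑ g ∈ Ioc ⌊z⌋₊ n, ((g : ℝ) ^ 2)⁻¹ ≤ v * (2 / z) :=
    mul_le_mul_of_nonneg_left (hsq.trans h2) hv
  linarith

private lemma Lgm_fg (a : ℕ → ℕ → ℤ) (h : ℤ) (g r s1 s2 n1 n2 : ℕ) :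
    ‖fg a h g r s1 s2 n1 n2‖ = 1 := by
  unfold fg
  rw [norm_mul, norm_en, norm_en, mul_one]

open Classical in
private lemma Lgm_point (h1 : MI.DggStmt) (h2 : LtbStmt) (a : ℕ → ℕ → ℤ) (g R S M N H : ℕ)
    (P : Finset (ℕ × ℕ)) (β : ℕ → ℂ) (c : ℕ × ℕ → ℂ) (hR : 1 ≤ R) (hS : 1 ≤ S)
    (hM : 8 ≤ M) (hH : 1 ≤ H) (hHR : 2 * H < R)
    (hP : ∀ w ∈ P, R < w.1 ∧ w.1 ≤ 2 * R ∧ S < w.2 ∧ w.2 ≤ 2 * S) (hβ : ∀ n, ‖β n‖ ≤ 1)
    (hc : ∀ w, ‖c w‖ ≤ 1) (hc0 : ∀ w, w ∉ P → c w = 0) (r s1 s2 n1 n2 : ℕ) (hg2 : 2 ≤ g)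
    (hg : Gg a g r s1 s2 n1 n2) (hnd : ND (a r s1) (a r s2) (r * g) N) :
    ‖c (r, s1) * (starRingEnd ℂ) (c (r, s2)) * (β n1 * (starRingEnd ℂ) (β n2)) *
        Ps a M r s1 s2 n1 n2 -
      ∑ h ∈ Icc (-(H : ℤ)) H, gb a c g M H N h r s1 s2 * (β n1 * (starRingEnd ℂ) (β n2)) *
        fg a h g r s1 s2 n1 n2‖ ≤
    if (r, s1) ∈ P ∧ (r, s2) ∈ P then
      16 * ((R : ℝ) * (S : ℝ) ^ 2) / ((M : ℝ) * H) / (g : ℝ) +
        4 * (M : ℝ) / ((R : ℝ) * (S : ℝ) ^ 2) * (g : ℝ) else 0 := by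
  have hM0 : (0 : ℝ) < M := by exact_mod_cast (by omega : 0 < M)
  have hH0 : (0 : ℝ) < H := by exact_mod_cast (by omega : 0 < H)
  have hR0 : (0 : ℝ) < R := by exact_mod_cast (by omega : 0 < R)
  have hS0 : (0 : ℝ) < S := by exact_mod_cast (by omega : 0 < S)
  have hg0 : (0 : ℝ) < g := by exact_mod_cast (by omega : 0 < g)
  by_cases hm : (r, s1) ∈ P ∧ (r, s2) ∈ P
  swap
  · have hz1 : c (r, s1) * (starRingEnd ℂ) (c (r, s2)) = 0 := by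
      by_cases h : (r, s1) ∈ P
      · rw [hc0 (r, s2) (fun h' => hm ⟨h, h'⟩), map_zero, mul_zero]
      · rw [hc0 _ h, zero_mul]
    have hz2 : ∀ h : ℤ, gb a c g M H N h r s1 s2 = 0 := by
      intro h
      unfold gb
      rw [hz1]
      split_ifs <;> simp
    rw [hz1, if_neg hm]
    have : ∑ h ∈ Icc (-(H : ℤ)) H, gb a c g M H N h r s1 s2 *
        (β n1 * (starRingEnd ℂ) (β n2)) * fg a h g r s1 s2 n1 n2 = 0 := by
      apply Finset.sum_eq_zero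
      intro h _
      rw [hz2 h, zero_mul, zero_mul]
    rw [this, zero_mul, zero_mul, sub_zero, norm_zero]
  · rw [if_pos hm]
    obtain ⟨b1, b2, b3, b4⟩ := hP _ hm.1
    obtain ⟨_, _, b5, b6⟩ := hP _ hm.2
    simp only at b1 b2 b3 b4 b5 b6
    have hgc : Nat.gcd s1 s2 = g := hg.2.2.1
    have hgd : g ∣ s2 := hgc ▸ Nat.gcd_dvd_right s1 s2
    obtain ⟨t, ht⟩ := hgd
    have htd : s2 / g = t := by
      rw [ht, Nat.mul_div_cancel_left t (by omega)]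
    have ht1 : 1 ≤ t := by
      rcases Nat.eq_zero_or_pos t with h | h
      · rw [h, mul_zero] at ht
        omega
      · exact h
    have hK : 2 * H < r * s1 * (s2 / g) := by
      rw [htd]
      have : r * 1 * 1 ≤ r * s1 * t := Nat.mul_le_mul (Nat.mul_le_mul le_rfl (by omega)) ht1
      omega
    have hD := h2 a g M H r s1 s2 n1 n2 hg (by omega) hH hK
    have hK1 : 1 ≤ r * s1 * (s2 / g) := by omega
    have hT0 := (h1 M (r * s1 * (s2 / g)) 0 (by omega) hK1).1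
    -- the size of K
    have hKr : (((r * s1 * (s2 / g) : ℕ) : ℝ)) * g = (r : ℝ) * s1 * s2 := by
      rw [htd]
      rw [ht]
      push_cast
      ring
    have hK0 : (0 : ℝ) < ((r * s1 * (s2 / g) : ℕ) : ℝ) := by exact_mod_cast hK1
    have x1 : (r : ℝ) ≤ 2 * R := by exact_mod_cast b2
    have x2 : (s1 : ℝ) ≤ 2 * S := by exact_mod_cast b4
    have x3 : (s2 : ℝ) ≤ 2 * S := by exact_mod_cast b6
    have x1' : (R : ℝ) ≤ r := by exact_mod_cast b1.le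
    have x2' : (S : ℝ) ≤ s1 := by exact_mod_cast b3.le
    have x3' : (S : ℝ) ≤ s2 := by exact_mod_cast b5.le
    have hup : ((r * s1 * (s2 / g) : ℕ) : ℝ) ≤ 8 * ((R : ℝ) * (S : ℝ) ^ 2) / g := by
      rw [le_div_iff₀ hg0, hKr]
      have x4 : (r : ℝ) * s1 * s2 ≤ (2 * R) * (2 * S) * (2 * S) :=
        mul_le_mul (mul_le_mul x1 x2 (by positivity) (by positivity)) x3 (by positivity) (by positivity)
      nlinarith [x4]
    have hlo : (R : ℝ) * (S : ℝ) ^ 2 ≤ ((r * s1 * (s2 / g) : ℕ) : ℝ) * g := by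
      rw [hKr]
      have x4 : (R : ℝ) * S * S ≤ (r : ℝ) * s1 * s2 :=
        mul_le_mul (mul_le_mul x1' x2' hS0.le (by positivity)) x3' hS0.le (by positivity)
      nlinarith [x4]
    set Kn : ℕ := r * s1 * (s2 / g) with hKn
    set co : ℂ := c (r, s1) * (starRingEnd ℂ) (c (r, s2)) with hco
    set be : ℂ := β n1 * (starRingEnd ℂ) (β n2) with hbe
    have nc : ‖co * be‖ ≤ 1 := by
      rw [hco, hbe]
      simp only [norm_mul, RCLike.norm_conj]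
      have y1 : ‖c (r, s1)‖ * ‖c (r, s2)‖ ≤ 1 := mul_le_one₀ (hc _) (norm_nonneg _) (hc _)
      have y2 : ‖β n1‖ * ‖β n2‖ ≤ 1 := mul_le_one₀ (hβ _) (norm_nonneg _) (hβ _)
      exact mul_le_one₀ y1 (by positivity) y2
    have hm0 : (0 : ℤ) ∈ Icc (-(H : ℤ)) H := by
      rw [mem_Icc]
      constructor <;> omega
    have e1 : ∑ h ∈ Icc (-(H : ℤ)) H, gb a c g M H N h r s1 s2 * be * fg a h g r s1 s2 n1 n2 =
        co * be * ((1 / (Kn : ℂ)) * ∑ h ∈ (Icc (-(H : ℤ)) H).erase 0,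
          Ten M (fun m => en (h * m) Kn) * fg a h g r s1 s2 n1 n2) := by
      rw [← Finset.add_sum_erase _ _ hm0]
      have e0 : gb a c g M H N 0 r s1 s2 = 0 := by
        unfold gb
        rw [if_neg (fun h => h.2.1 rfl)]
      rw [e0, zero_mul, zero_mul, zero_add, Finset.mul_sum, Finset.mul_sum]
      apply Finset.sum_congr rfl
      intro h hh
      rw [Finset.mem_erase, Finset.mem_Icc] at hh
      have habs : |h| ≤ (H : ℤ) := abs_le.2 ⟨hh.2.1, hh.2.2⟩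
      unfold gb
      rw [if_pos ⟨habs, hh.1, hgc, hnd⟩, ← hco, ← hKn]
      ring
    have e2 := Finset.add_sum_erase (Icc (-(H : ℤ)) H)
      (fun h => Ten M (fun m => en (h * m) Kn) * fg a h g r s1 s2 n1 n2) hm0
    rw [← e2] at hD
    rw [e1]
    set Sg : ℂ := ∑ h ∈ (Icc (-(H : ℤ)) H).erase 0,
          Ten M (fun m => en (h * m) Kn) * fg a h g r s1 s2 n1 n2 with hSg
    set X0 : ℂ := Ten M (fun m => en (0 * m) Kn) * fg a 0 g r s1 s2 n1 n2 with hX0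
    have hX0n : ‖X0‖ ≤ 4 * (M : ℝ) := by
      rw [hX0, norm_mul, Lgm_fg, mul_one]
      exact hT0
    have e3 : co * be * Ps a M r s1 s2 n1 n2 - co * be * ((1 / (Kn : ℂ)) * Sg) =
        co * be * ((Ps a M r s1 s2 n1 n2 - (1 / (Kn : ℂ)) * (X0 + Sg)) + (1 / (Kn : ℂ)) * X0) := by
      ring
    rw [e3, norm_mul]
    have e4 : ‖(Ps a M r s1 s2 n1 n2 - (1 / (Kn : ℂ)) * (X0 + Sg)) + (1 / (Kn : ℂ)) * X0‖ ≤
        2 * (Kn : ℝ) / ((M : ℝ) * H) + 1 / (Kn : ℝ) * (4 * (M : ℝ)) := by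
      refine (norm_add_le _ _).trans (add_le_add hD ?_)
      rw [norm_mul, norm_div, norm_one, Complex.norm_natCast]
      exact mul_le_mul_of_nonneg_left hX0n (by positivity)
    have e5 : 2 * (Kn : ℝ) / ((M : ℝ) * H) ≤ 16 * ((R : ℝ) * (S : ℝ) ^ 2) / ((M : ℝ) * H) / (g : ℝ) := by
      have this : 16 * ((R : ℝ) * (S : ℝ) ^ 2) / ((M : ℝ) * H) / (g : ℝ) =
          (2 * (8 * ((R : ℝ) * (S : ℝ) ^ 2) / g)) / ((M : ℝ) * H) := by ring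
      rw [this]
      refine div_le_div_of_nonneg_right ?_ (by positivity)
      linarith
    have e6 : 1 / (Kn : ℝ) * (4 * (M : ℝ)) ≤ 4 * (M : ℝ) / ((R : ℝ) * (S : ℝ) ^ 2) * (g : ℝ) := by
      rw [div_mul_eq_mul_div, div_mul_eq_mul_div, one_mul, div_le_div_iff₀ hK0 (by positivity)]
      have := mul_le_mul_of_nonneg_left hlo (by positivity : (0 : ℝ) ≤ 4 * (M : ℝ))
      nlinarith [this]
    calc _ ≤ 1 * (2 * (Kn : ℝ) / ((M : ℝ) * H) + 1 / (Kn : ℝ) * (4 * (M : ℝ))) :=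
          mul_le_mul nc e4 (norm_nonneg _) zero_le_one
      _ ≤ _ := by rw [one_mul]; exact add_le_add e5 e6

open Classical in
private lemma Lgm_main (a : ℕ → ℕ → ℤ) (R S M N H G : ℕ) (β : ℕ → ℂ) (c : ℕ × ℕ → ℂ) :
    ∑ g ∈ Icc 2 G, ∑ h ∈ Icc (-(H : ℤ)) H, TG a g h R S N (gb a c g M H N h)
      (fun n1 n2 => β n1 * (starRingEnd ℂ) (β n2)) =
    ∑ r ∈ Ioc R (2 * R), ∑ s1 ∈ Ioc S (2 * S), ∑ s2 ∈ Ioc S (2 * S),
      ∑ n1 ∈ Ioc N (2 * N), ∑ n2 ∈ Ioc N (2 * N),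
      (if 2 ≤ Nat.gcd s1 s2 ∧ Gg a (Nat.gcd s1 s2) r s1 s2 n1 n2 ∧
          ND (a r s1) (a r s2) (r * Nat.gcd s1 s2) N ∧ Nat.gcd s1 s2 ≤ G then
        ∑ h ∈ Icc (-(H : ℤ)) H, gb a c (Nat.gcd s1 s2) M H N h r s1 s2 *
          (β n1 * (starRingEnd ℂ) (β n2)) * fg a h (Nat.gcd s1 s2) r s1 s2 n1 n2 else 0) := by
  have e1 : ∀ (g : ℕ) (h : ℤ), TG a g h R S N (gb a c g M H N h)
      (fun n1 n2 => β n1 * (starRingEnd ℂ) (β n2)) =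
      ∑ r ∈ Ioc R (2 * R), ∑ s1 ∈ Ioc S (2 * S), ∑ s2 ∈ Ioc S (2 * S),
        ∑ n1 ∈ Ioc N (2 * N), ∑ n2 ∈ Ioc N (2 * N),
        (if Gg a g r s1 s2 n1 n2 then gb a c g M H N h r s1 s2 *
          (β n1 * (starRingEnd ℂ) (β n2)) * fg a h g r s1 s2 n1 n2 else 0) := by
    intro g h
    unfold TG
    refine sum_congr rfl fun r _ => sum_congr rfl fun s1 _ => sum_congr rfl fun s2 _ => ?_
    rw [mul_sum]
    refine sum_congr rfl fun n1 _ => ?_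
    rw [mul_sum]
    refine sum_congr rfl fun n2 _ => ?_
    split_ifs
    · ring
    · ring
  have e2 : ∀ g ∈ Icc 2 G, ∑ h ∈ Icc (-(H : ℤ)) H, TG a g h R S N (gb a c g M H N h)
      (fun n1 n2 => β n1 * (starRingEnd ℂ) (β n2)) =
      ∑ r ∈ Ioc R (2 * R), ∑ s1 ∈ Ioc S (2 * S), ∑ s2 ∈ Ioc S (2 * S),
        ∑ n1 ∈ Ioc N (2 * N), ∑ n2 ∈ Ioc N (2 * N), ∑ h ∈ Icc (-(H : ℤ)) H,
        (if Gg a g r s1 s2 n1 n2 then gb a c g M H N h r s1 s2 *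
          (β n1 * (starRingEnd ℂ) (β n2)) * fg a h g r s1 s2 n1 n2 else 0) := by
    intro g _
    rw [sum_congr rfl fun h _ => e1 g h]
    exact Lgm_ex _ _ _ _ _
  rw [sum_congr rfl e2, Lgm_ex]
  refine sum_congr rfl fun r _ => sum_congr rfl fun s1 _ => sum_congr rfl fun s2 _ =>
    sum_congr rfl fun n1 _ => sum_congr rfl fun n2 _ => ?_
  by_cases hc : 2 ≤ Nat.gcd s1 s2 ∧ Gg a (Nat.gcd s1 s2) r s1 s2 n1 n2 ∧
      ND (a r s1) (a r s2) (r * Nat.gcd s1 s2) N ∧ Nat.gcd s1 s2 ≤ G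
  · rw [if_pos hc, Finset.sum_eq_single (Nat.gcd s1 s2)]
    · refine sum_congr rfl fun h _ => ?_
      rw [if_pos hc.2.1]
    · intro g _ hne
      refine sum_eq_zero fun h _ => ?_
      rw [if_neg (fun hG => hne hG.2.2.1.symm)]
    · intro h
      exact absurd (mem_Icc.2 ⟨hc.1, hc.2.2.2⟩) h
  · rw [if_neg hc]
    refine sum_eq_zero fun g hg => sum_eq_zero fun h _ => ?_
    rw [mem_Icc] at hg
    by_cases h1 : Gg a g r s1 s2 n1 n2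
    · rw [if_pos h1]
      have hgc : Nat.gcd s1 s2 = g := h1.2.2.1
      have h2 : ¬ ND (a r s1) (a r s2) (r * g) N := by
        intro h3
        apply hc
        rw [hgc]
        exact ⟨hg.1, h1, h3, hg.2⟩
      unfold gb
      rw [if_neg (fun h => h2 h.2.2.2), zero_mul, zero_mul]
    · rw [if_neg h1]

open Classical in
theorem tLgm (h1 : MI.DggStmt) (h2 : LtbStmt) (h3 : LgsStmt) (h4 : LcoStmt) : LgmStmt := by
  intro X T z a R S M N H G P β c B hSz hH hHR hPr hβ hc hc0 hB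
  obtain ⟨hTau, hz, hR, hS, hN, hM, hRN, hX, hRS⟩ := hSz
  have hR0 : (0 : ℝ) < R := by exact_mod_cast (by omega : 0 < R)
  have hS0 : (0 : ℝ) < S := by exact_mod_cast (by omega : 0 < S)
  have hN0 : (0 : ℝ) < N := by exact_mod_cast (by omega : 0 < N)
  have hM0 : (0 : ℝ) < M := by exact_mod_cast (by omega : 0 < M)
  have hH0 : (0 : ℝ) < H := by exact_mod_cast (by omega : 0 < H)
  have hz0 : (0 : ℝ) < z := by linarith
  have hP : ∀ w ∈ P, R < w.1 ∧ w.1 ≤ 2 * R ∧ S < w.2 ∧ w.2 ≤ 2 * S := fun w hw =>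
    ⟨(hPr w hw).1, (hPr w hw).2.1, (hPr w hw).2.2.1, (hPr w hw).2.2.2.1⟩
  -- the main terms
  have hmain : ‖∑ g ∈ Icc 2 G, ∑ h ∈ Icc (-(H : ℤ)) H, TG a g h R S N (gb a c g M H N h)
      (fun n1 n2 => β n1 * (starRingEnd ℂ) (β n2))‖ ≤ ∑ g ∈ Icc 2 G, B g := by
    refine norm_sum_le_of_le _ fun g hg => ?_
    rw [mem_Icc] at hg
    refine hB g hg.1 hg.2 (gb a c g M H N) _
      ((h4 a R S M N H P c hR hS (by omega) hHR hP hc hc0).2 g hg.1) ?_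
    intro n1 n2
    rw [norm_mul, RCLike.norm_conj]
    exact mul_le_one₀ (hβ _) (norm_nonneg _) (hβ _)
  rw [Lgm_main] at hmain
  -- the difference
  have hdiff : ‖(∑ r ∈ Ioc R (2 * R), ∑ s1 ∈ Ioc S (2 * S), ∑ s2 ∈ Ioc S (2 * S),
      ∑ n1 ∈ Ioc N (2 * N), ∑ n2 ∈ Ioc N (2 * N),
      (if 2 ≤ Nat.gcd s1 s2 ∧ Gg a (Nat.gcd s1 s2) r s1 s2 n1 n2 ∧
          ND (a r s1) (a r s2) (r * Nat.gcd s1 s2) N ∧ Nat.gcd s1 s2 ≤ G then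
        c (r, s1) * (starRingEnd ℂ) (c (r, s2)) * (β n1 * (starRingEnd ℂ) (β n2)) *
          Ps a M r s1 s2 n1 n2 else 0)) -
      ∑ r ∈ Ioc R (2 * R), ∑ s1 ∈ Ioc S (2 * S), ∑ s2 ∈ Ioc S (2 * S),
      ∑ n1 ∈ Ioc N (2 * N), ∑ n2 ∈ Ioc N (2 * N),
      (if 2 ≤ Nat.gcd s1 s2 ∧ Gg a (Nat.gcd s1 s2) r s1 s2 n1 n2 ∧
          ND (a r s1) (a r s2) (r * Nat.gcd s1 s2) N ∧ Nat.gcd s1 s2 ≤ G then
        ∑ h ∈ Icc (-(H : ℤ)) H, gb a c (Nat.gcd s1 s2) M H N h r s1 s2 *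
          (β n1 * (starRingEnd ℂ) (β n2)) * fg a h (Nat.gcd s1 s2) r s1 s2 n1 n2 else 0)‖ ≤
      2304 * ((R : ℝ) * (S : ℝ) ^ 4 * (N : ℝ) ^ 2 / ((M : ℝ) * H)) +
        1152 * ((M : ℝ) * (N : ℝ) ^ 2 / ((R : ℝ) * z)) := by
    simp only [← Finset.sum_sub_distrib]
    have hgs := h3 z a R S N P (fun g => 16 * ((R : ℝ) * (S : ℝ) ^ 2) / ((M : ℝ) * H) / (g : ℝ) +
      4 * (M : ℝ) / ((R : ℝ) * (S : ℝ) ^ 2) * (g : ℝ)) hR hS hN hPr (fun g => by positivity)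
    have hnum := Lgm_num z hz (2 * S) (16 * ((R : ℝ) * (S : ℝ) ^ 2) / ((M : ℝ) * H))
      (4 * (M : ℝ) / ((R : ℝ) * (S : ℝ) ^ 2)) (by positivity) (by positivity)
    have hfin : 144 * ((S : ℝ) ^ 2 * (N : ℝ) ^ 2) *
        (16 * ((R : ℝ) * (S : ℝ) ^ 2) / ((M : ℝ) * H) +
          4 * (M : ℝ) / ((R : ℝ) * (S : ℝ) ^ 2) * (2 / z)) =
        2304 * ((R : ℝ) * (S : ℝ) ^ 4 * (N : ℝ) ^ 2 / ((M : ℝ) * H)) +
        1152 * ((M : ℝ) * (N : ℝ) ^ 2 / ((R : ℝ) * z)) := by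
      field_simp
      ring
    rw [← hfin]
    refine le_trans ?_ (hgs.trans (mul_le_mul_of_nonneg_left hnum (by positivity)))
    refine (norm_sum_le _ _).trans (Finset.sum_le_sum fun r _ => ?_)
    refine (norm_sum_le _ _).trans (Finset.sum_le_sum fun s1 _ => ?_)
    refine (norm_sum_le _ _).trans (Finset.sum_le_sum fun s2 _ => ?_)
    refine (norm_sum_le _ _).trans (Finset.sum_le_sum fun n1 _ => ?_)
    refine (norm_sum_le _ _).trans (Finset.sum_le_sum fun n2 _ => ?_)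
    by_cases hcd : 2 ≤ Nat.gcd s1 s2 ∧ Gg a (Nat.gcd s1 s2) r s1 s2 n1 n2 ∧
          ND (a r s1) (a r s2) (r * Nat.gcd s1 s2) N ∧ Nat.gcd s1 s2 ≤ G
    · rw [if_pos hcd, if_pos hcd]
      refine (Lgm_point h1 h2 a (Nat.gcd s1 s2) R S M N H P β c hR hS hM hH hHR hP hβ hc hc0
        r s1 s2 n1 n2 hcd.1 hcd.2.1 hcd.2.2.1).trans ?_
      by_cases hm : (r, s1) ∈ P ∧ (r, s2) ∈ P
      · rw [if_pos hm, if_pos ⟨hm.1, hm.2, hcd.1, hcd.2.1, hcd.2.2.1⟩]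
      · rw [if_neg hm]
        split_ifs
        · positivity
        · exact le_rfl
    · rw [if_neg hcd, if_neg hcd, sub_zero, norm_zero]
      split_ifs
      · positivity
      · exact le_rfl
  have htri := norm_le_norm_add_norm_sub
    (∑ r ∈ Ioc R (2 * R), ∑ s1 ∈ Ioc S (2 * S), ∑ s2 ∈ Ioc S (2 * S),
      ∑ n1 ∈ Ioc N (2 * N), ∑ n2 ∈ Ioc N (2 * N),
      (if 2 ≤ Nat.gcd s1 s2 ∧ Gg a (Nat.gcd s1 s2) r s1 s2 n1 n2 ∧
          ND (a r s1) (a r s2) (r * Nat.gcd s1 s2) N ∧ Nat.gcd s1 s2 ≤ G then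
        ∑ h ∈ Icc (-(H : ℤ)) H, gb a c (Nat.gcd s1 s2) M H N h r s1 s2 *
          (β n1 * (starRingEnd ℂ) (β n2)) * fg a h (Nat.gcd s1 s2) r s1 s2 n1 n2 else 0))
    (∑ r ∈ Ioc R (2 * R), ∑ s1 ∈ Ioc S (2 * S), ∑ s2 ∈ Ioc S (2 * S),
      ∑ n1 ∈ Ioc N (2 * N), ∑ n2 ∈ Ioc N (2 * N),
      (if 2 ≤ Nat.gcd s1 s2 ∧ Gg a (Nat.gcd s1 s2) r s1 s2 n1 n2 ∧
          ND (a r s1) (a r s2) (r * Nat.gcd s1 s2) N ∧ Nat.gcd s1 s2 ≤ G then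
        c (r, s1) * (starRingEnd ℂ) (c (r, s2)) * (β n1 * (starRingEnd ℂ) (β n2)) *
          Ps a M r s1 s2 n1 n2 else 0))
  rw [norm_sub_rev] at htri
  refine htri.trans ?_
  rw [add_assoc]
  exact add_le_add hmain hdiff

end Pool.Agent.Lib.SL
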