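import Pool.Agent.Lib.SL.SpecD

/-!
MP_00e23e_nt, directory Lib/SL, module Lgo (helper6): the good terms of the first Cauchy inequality with free classes.
-/

set_option autoImplicit false

namespace Pool.Agent.Lib.SL

open Finset Pool.Agent.Lib.EH3 Pool.Agent.Lib.TB Pool.Agent.Results.MP_00e23e_nt Pool.Agent.Lib.MI

private lemma Lgo_card (N r n1 : ℕ) (hr : 1 ≤ r) :
    (((Ioc N (2 * N)).filter (fun n2 : ℕ => (r : ℤ) ∣ (n2 : ℤ) - n1)).card : ℝ) ≤ (N : ℝ) / r + 1 := by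
  have e1 : (Ioc N (2 * N)).filter (fun n2 : ℕ => (r : ℤ) ∣ (n2 : ℤ) - n1) =
      (Ioc N (2 * N)).filter (fun n2 : ℕ => n2 ≡ n1 [MOD r]) := by
    apply Finset.filter_congr
    intro n2 _
    rw [Nat.ModEq.comm]
    exact (Nat.modEq_iff_dvd).symm
  rw [e1]
  have e2 := Nat.Ioc_filter_modEq_card N (2 * N) (r := r) (by omega) n1
  have e3 : (((((Ioc N (2 * N)).filter (fun n2 : ℕ => n2 ≡ n1 [MOD r])).card : ℤ)) : ℚ) ≤ (N : ℚ) / r + 1 := by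
    rw [e2]
    push_cast
    have hr0 : (0 : ℚ) < r := by exact_mod_cast (by omega : 0 < r)
    have a1 : ((⌊((2 * (N : ℚ)) - (n1 : ℚ)) / (r : ℚ)⌋ : ℤ) : ℚ) ≤ ((2 * (N : ℚ)) - (n1 : ℚ)) / (r : ℚ) :=
      Int.floor_le _
    have a2 : ((N : ℚ) - (n1 : ℚ)) / (r : ℚ) - 1 < ((⌊((N : ℚ) - (n1 : ℚ)) / (r : ℚ)⌋ : ℤ) : ℚ) :=
      Int.sub_one_lt_floor _
    have a3 : ((2 * (N : ℚ)) - (n1 : ℚ)) / (r : ℚ) - ((N : ℚ) - (n1 : ℚ)) / (r : ℚ) = (N : ℚ) / r := by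
      field_simp
      ring
    apply max_le
    · linarith
    · positivity
  have e4 : (((((Ioc N (2 * N)).filter (fun n2 : ℕ => n2 ≡ n1 [MOD r])).card : ℤ) : ℚ) : ℝ) ≤
      (((N : ℚ) / r + 1 : ℚ) : ℝ) := by exact_mod_cast e3
  push_cast at e4
  exact e4

open Classical in
/-- for fixed r, s1, s2, n1 the n2 of a good tuple lie in one class modulo r -/
private lemma Lgo_cnt (a : ℕ → ℕ → ℤ) (N r s1 s2 n1 : ℕ) (hr : 1 ≤ r) :
    (((Ioc N (2 * N)).filter (fun n2 : ℕ => Gg a 1 r s1 s2 n1 n2)).card : ℝ) ≤ (N : ℝ) / r + 1 := by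
  by_cases he : ∃ n0 : ℕ, Gg a 1 r s1 s2 n1 n0
  · obtain ⟨n0, hn0⟩ := he
    refine le_trans ?_ (Lgo_card N r n0 hr)
    have hsub : (Ioc N (2 * N)).filter (fun n2 : ℕ => Gg a 1 r s1 s2 n1 n2) ⊆
        (Ioc N (2 * N)).filter (fun n2 : ℕ => (r : ℤ) ∣ (n2 : ℤ) - n0) := by
      intro n2 hn2
      rw [Finset.mem_filter] at hn2 ⊢
      refine ⟨hn2.1, ?_⟩
      obtain ⟨_, _, _, _, _, hgc, _, hd0⟩ := hn0
      obtain ⟨_, _, _, _, _, _, _, hd2⟩ := hn2.2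
      rw [mul_one] at hd0 hd2
      have hdd : (r : ℤ) ∣ a r s1 * ((n2 : ℤ) - n0) := by
        have h3 := dvd_sub hd0 hd2
        have e : (n1 : ℤ) * a r s2 - (n0 : ℤ) * a r s1 - ((n1 : ℤ) * a r s2 - (n2 : ℤ) * a r s1) =
            a r s1 * ((n2 : ℤ) - n0) := by ring
        rwa [e] at h3
      have hcop : IsCoprime (r : ℤ) (a r s1) := by
        have h4 : IsCoprime (a r s1) (((r * s1 : ℕ)) : ℤ) := Int.isCoprime_iff_gcd_eq_one.2 hgc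
        rw [Nat.cast_mul] at h4
        exact (IsCoprime.of_mul_right_left h4).symm
      exact hcop.dvd_of_dvd_mul_left hdd
    exact_mod_cast Finset.card_le_card hsub
  · have h0 : (Ioc N (2 * N)).filter (fun n2 : ℕ => Gg a 1 r s1 s2 n1 n2) = ∅ := by
      rw [Finset.filter_eq_empty_iff]
      intro n2 _ hh
      exact he ⟨n2, hh⟩
    rw [h0, Finset.card_empty, Nat.cast_zero]
    positivity

open Classical in
private lemma Lgo_point (h1 : LtaStmt) (a : ℕ → ℕ → ℤ) (R S M H : ℕ) (P : Finset (ℕ × ℕ)) (β : ℕ → ℂ) (c : ℕ × ℕ → ℂ)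
    (hM : 8 ≤ M) (hH : 1 ≤ H) (hHR : 2 * H < R)
    (hP : ∀ w ∈ P, R < w.1 ∧ w.1 ≤ 2 * R ∧ S < w.2 ∧ w.2 ≤ 2 * S) (hβ : ∀ n, ‖β n‖ ≤ 1)
    (hc : ∀ w, ‖c w‖ ≤ 1) (hc0 : ∀ w, w ∉ P → c w = 0) (r s1 s2 n1 n2 : ℕ) (hg : Gg a 1 r s1 s2 n1 n2) :
    ‖c (r, s1) * (starRingEnd ℂ) (c (r, s2)) * (β n1 * (starRingEnd ℂ) (β n2)) * Ph a M r s1 s2 n1 n2 -
      ∑ h ∈ Icc (-(H : ℤ)) H, ga c M H h r s1 s2 * (β n1 * (starRingEnd ℂ) (β n2)) * fg a h 1 r s1 s2 n1 n2‖ ≤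
    16 * ((R : ℝ) * (S : ℝ) ^ 2) / ((M : ℝ) * H) := by
  have hM0 : (0 : ℝ) < M := by exact_mod_cast (by omega : 0 < M)
  have hH0 : (0 : ℝ) < H := by exact_mod_cast (by omega : 0 < H)
  by_cases hz : c (r, s1) = 0 ∨ c (r, s2) = 0
  · have hz1 : c (r, s1) * (starRingEnd ℂ) (c (r, s2)) = 0 := by
      rcases hz with h | h <;> simp [h]
    have hz2 : ∀ h : ℤ, ga c M H h r s1 s2 = 0 := by
      intro h
      unfold ga
      rw [hz1]
      split_ifs <;> simp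
    rw [hz1]
    have : ∑ h ∈ Icc (-(H : ℤ)) H, ga c M H h r s1 s2 * (β n1 * (starRingEnd ℂ) (β n2)) *
        fg a h 1 r s1 s2 n1 n2 = 0 := by
      apply Finset.sum_eq_zero
      intro h _
      rw [hz2 h]
      ring
    rw [this]
    simp only [zero_mul, sub_zero, norm_zero]
    positivity
  · push Not at hz
    obtain ⟨hz1, hz2⟩ := hz
    have m1 : (r, s1) ∈ P := by
      by_contra hh
      exact hz1 (hc0 _ hh)
    have m2 : (r, s2) ∈ P := by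
      by_contra hh
      exact hz2 (hc0 _ hh)
    obtain ⟨b1, b2, b3, b4⟩ := hP _ m1
    obtain ⟨_, _, b5, b6⟩ := hP _ m2
    simp only at b1 b2 b3 b4 b5 b6
    have hK : 2 * H < r * s1 * s2 := by
      have : r * 1 * 1 ≤ r * s1 * s2 := Nat.mul_le_mul (Nat.mul_le_mul le_rfl (by omega)) (by omega)
      omega
    have hD := h1 a M H r s1 s2 n1 n2 hg (by omega) hH hK
    set K : ℂ := ((r * s1 * s2 : ℕ) : ℂ) with hKdef
    set co : ℂ := c (r, s1) * (starRingEnd ℂ) (c (r, s2)) with hco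
    set be : ℂ := β n1 * (starRingEnd ℂ) (β n2) with hbe
    have e1 : ∑ h ∈ Icc (-(H : ℤ)) H, ga c M H h r s1 s2 * be * fg a h 1 r s1 s2 n1 n2 =
        co * be * ((1 / K) * ∑ h ∈ (Icc (-(H : ℤ)) H).filter (fun h => ¬ (s1 : ℤ) ∣ h ∧ ¬ (s2 : ℤ) ∣ h),
          Ten M (fun m => en (h * m) (r * s1 * s2)) * fg a h 1 r s1 s2 n1 n2) := by
      rw [Finset.sum_filter, Finset.mul_sum, Finset.mul_sum]
      apply Finset.sum_congr rfl
      intro h hh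
      rw [Finset.mem_Icc] at hh
      have habs : |h| ≤ (H : ℤ) := abs_le.2 ⟨hh.1, hh.2⟩
      unfold ga
      by_cases hd : ¬ (s1 : ℤ) ∣ h ∧ ¬ (s2 : ℤ) ∣ h
      · rw [if_pos ⟨habs, hd.1, hd.2⟩, if_pos hd]
        rw [← hco, ← hKdef]
        ring
      · rw [if_neg (fun h' => hd ⟨h'.2.1, h'.2.2⟩), if_neg hd]
        ring
    rw [e1, ← mul_sub, norm_mul]
    have nc : ‖co * be‖ ≤ 1 := by
      rw [hco, hbe]
      simp only [norm_mul, RCLike.norm_conj]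
      have x1 := hc (r, s1)
      have x2 := hc (r, s2)
      have x3 := hβ n1
      have x4 := hβ n2
      have y1 : ‖c (r, s1)‖ * ‖c (r, s2)‖ ≤ 1 := mul_le_one₀ x1 (norm_nonneg _) x2
      have y2 : ‖β n1‖ * ‖β n2‖ ≤ 1 := mul_le_one₀ x3 (norm_nonneg _) x4
      exact mul_le_one₀ y1 (by positivity) y2
    have hb : 2 * ((r : ℝ) * s1 * s2) / ((M : ℝ) * H) ≤ 16 * ((R : ℝ) * (S : ℝ) ^ 2) / ((M : ℝ) * H) := by
      apply div_le_div_of_nonneg_right _ (by positivity)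
      have x1 : (r : ℝ) ≤ 2 * R := by exact_mod_cast b2
      have x2 : (s1 : ℝ) ≤ 2 * S := by exact_mod_cast b4
      have x3 : (s2 : ℝ) ≤ 2 * S := by exact_mod_cast b6
      have x4 : (r : ℝ) * s1 * s2 ≤ (2 * R) * (2 * S) * (2 * S) :=
        mul_le_mul (mul_le_mul x1 x2 (by positivity) (by positivity)) x3 (by positivity) (by positivity)
      nlinarith [x4]
    calc _ ≤ 1 * (2 * ((r : ℝ) * s1 * s2) / ((M : ℝ) * H)) :=
          mul_le_mul nc hD (norm_nonneg _) zero_le_one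
      _ ≤ _ := by rw [one_mul]; exact hb

open Classical in
theorem tLgo (h1 : LtaStmt) (h2 : LcoStmt) : LgoStmt := by
  intro B1 z a R S M N H P β c hB hR hS hN hM hH hRN hHR hPr hβ hc hc0 hT
  have hP : ∀ w ∈ P, R < w.1 ∧ w.1 ≤ 2 * R ∧ S < w.2 ∧ w.2 ≤ 2 * S := by
    intro w hw
    obtain ⟨x1, x2, x3, x4, _⟩ := hPr w hw
    exact ⟨x1, x2, x3, x4⟩
  have hCg : Cg a P 1 R S M N (ga c M H) := (h2 a R S M N H P c hR hS (by omega) hHR hP hc hc0).1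
  have hω : ∀ n1 n2 : ℕ, ‖β n1 * (starRingEnd ℂ) (β n2)‖ ≤ 1 := by
    intro n1 n2
    rw [norm_mul, RCLike.norm_conj]
    exact mul_le_one₀ (hβ n1) (norm_nonneg _) (hβ n2)
  have hMain0 := hT (ga c M H) (fun n1 n2 => β n1 * (starRingEnd ℂ) (β n2)) hCg hω
  have hR0 : (0 : ℝ) < R := by exact_mod_cast (by omega : 0 < R)
  have hS0 : (0 : ℝ) < S := by exact_mod_cast (by omega : 0 < S)
  have hN0 : (0 : ℝ) < N := by exact_mod_cast (by omega : 0 < N)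
  have hM0 : (0 : ℝ) < M := by exact_mod_cast (by omega : 0 < M)
  have hH0 : (0 : ℝ) < H := by exact_mod_cast (by omega : 0 < H)
  set E : ℝ := 16 * ((R : ℝ) * (S : ℝ) ^ 2) / ((M : ℝ) * H) with hE
  have hE0 : 0 ≤ E := by rw [hE]; positivity
  set F : ℕ → ℕ → ℕ → ℕ → ℕ → ℂ := fun r s1 s2 n1 n2 =>
    c (r, s1) * (starRingEnd ℂ) (c (r, s2)) * (β n1 * (starRingEnd ℂ) (β n2)) * Ph a M r s1 s2 n1 n2 with hF
  set G : ℤ → ℕ → ℕ → ℕ → ℕ → ℕ → ℂ := fun h r s1 s2 n1 n2 =>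
    ga c M H h r s1 s2 * (β n1 * (starRingEnd ℂ) (β n2)) * fg a h 1 r s1 s2 n1 n2 with hG
  have hMain : ‖∑ h ∈ Icc (-(H : ℤ)) H, ∑ r ∈ Ioc R (2 * R), ∑ s1 ∈ Ioc S (2 * S), ∑ s2 ∈ Ioc S (2 * S),
      ∑ n1 ∈ Ioc N (2 * N), ∑ n2 ∈ Ioc N (2 * N), (if Gg a 1 r s1 s2 n1 n2 then G h r s1 s2 n1 n2 else 0)‖ ≤
      B1 := by
    refine le_of_eq_of_le ?_ hMain0
    congr 1
    refine Finset.sum_congr rfl fun h _ => ?_
    unfold TG
    refine Finset.sum_congr rfl fun r _ => Finset.sum_congr rfl fun s1 _ => Finset.sum_congr rfl fun s2 _ => ?_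
    rw [Finset.mul_sum]
    refine Finset.sum_congr rfl fun n1 _ => ?_
    rw [Finset.mul_sum]
    refine Finset.sum_congr rfl fun n2 _ => ?_
    by_cases hg : Gg a 1 r s1 s2 n1 n2
    · rw [if_pos hg, if_pos hg, hG]
      ring
    · rw [if_neg hg, if_neg hg, mul_zero]
  -- exchange
  have hex : ∑ h ∈ Icc (-(H : ℤ)) H, ∑ r ∈ Ioc R (2 * R), ∑ s1 ∈ Ioc S (2 * S), ∑ s2 ∈ Ioc S (2 * S),
      ∑ n1 ∈ Ioc N (2 * N), ∑ n2 ∈ Ioc N (2 * N), (if Gg a 1 r s1 s2 n1 n2 then G h r s1 s2 n1 n2 else 0) =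
      ∑ r ∈ Ioc R (2 * R), ∑ s1 ∈ Ioc S (2 * S), ∑ s2 ∈ Ioc S (2 * S),
      ∑ n1 ∈ Ioc N (2 * N), ∑ n2 ∈ Ioc N (2 * N),
        (if Gg a 1 r s1 s2 n1 n2 then ∑ h ∈ Icc (-(H : ℤ)) H, G h r s1 s2 n1 n2 else 0) := by
    rw [Finset.sum_comm]
    apply Finset.sum_congr rfl
    intro r _
    rw [Finset.sum_comm]
    apply Finset.sum_congr rfl
    intro s1 _
    rw [Finset.sum_comm]
    apply Finset.sum_congr rfl
    intro s2 _
    rw [Finset.sum_comm]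
    apply Finset.sum_congr rfl
    intro n1 _
    rw [Finset.sum_comm]
    apply Finset.sum_congr rfl
    intro n2 _
    split_ifs
    · rfl
    · simp
  have hdiff : ‖(∑ r ∈ Ioc R (2 * R), ∑ s1 ∈ Ioc S (2 * S), ∑ s2 ∈ Ioc S (2 * S),
      ∑ n1 ∈ Ioc N (2 * N), ∑ n2 ∈ Ioc N (2 * N), (if Gg a 1 r s1 s2 n1 n2 then F r s1 s2 n1 n2 else 0)) -
      ∑ h ∈ Icc (-(H : ℤ)) H, ∑ r ∈ Ioc R (2 * R), ∑ s1 ∈ Ioc S (2 * S), ∑ s2 ∈ Ioc S (2 * S),
      ∑ n1 ∈ Ioc N (2 * N), ∑ n2 ∈ Ioc N (2 * N), (if Gg a 1 r s1 s2 n1 n2 then G h r s1 s2 n1 n2 else 0)‖ ≤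
      32 * ((R : ℝ) * (S : ℝ) ^ 4 * (N : ℝ) ^ 2) / ((M : ℝ) * H) := by
    rw [hex]
    simp only [← Finset.sum_sub_distrib]
    have hn1 : ∀ r ∈ Ioc R (2 * R), ∀ s1 ∈ Ioc S (2 * S), ∀ s2 ∈ Ioc S (2 * S), ∀ n1 ∈ Ioc N (2 * N),
        ‖∑ n2 ∈ Ioc N (2 * N), ((if Gg a 1 r s1 s2 n1 n2 then F r s1 s2 n1 n2 else 0) -
          (if Gg a 1 r s1 s2 n1 n2 then ∑ h ∈ Icc (-(H : ℤ)) H, G h r s1 s2 n1 n2 else 0))‖ ≤
          E * (2 * N / R) := by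
      intro r hr s1 _ s2 _ n1 _
      rw [Finset.mem_Ioc] at hr
      refine (norm_sum_le _ _).trans ?_
      have hstep : ∀ n2 ∈ Ioc N (2 * N), ‖((if Gg a 1 r s1 s2 n1 n2 then F r s1 s2 n1 n2 else 0) -
          (if Gg a 1 r s1 s2 n1 n2 then ∑ h ∈ Icc (-(H : ℤ)) H, G h r s1 s2 n1 n2 else 0))‖ ≤
          (if Gg a 1 r s1 s2 n1 n2 then E else 0) := by
        intro n2 _
        by_cases hg : Gg a 1 r s1 s2 n1 n2
        · rw [if_pos hg, if_pos hg, if_pos hg]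
          exact Lgo_point h1 a R S M H P β c hM hH hHR hP hβ hc hc0 r s1 s2 n1 n2 hg
        · rw [if_neg hg, if_neg hg, if_neg hg, sub_zero, norm_zero]
      refine (Finset.sum_le_sum hstep).trans ?_
      rw [← Finset.sum_filter, Finset.sum_const, nsmul_eq_mul, mul_comm]
      apply mul_le_mul_of_nonneg_left _ hE0
      refine (Lgo_cnt a N r s1 s2 n1 (by omega)).trans ?_
      have hrR : (R : ℝ) ≤ r := by exact_mod_cast hr.1.le
      have hRN' : (R : ℝ) ≤ N := by exact_mod_cast hRN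
      have x1 : (N : ℝ) / r ≤ N / R := div_le_div_of_nonneg_left hN0.le hR0 hrR
      have x2 : (1 : ℝ) ≤ N / R := by rw [le_div_iff₀ hR0]; linarith
      have x3 : 2 * (N : ℝ) / R = N / R + N / R := by ring
      rw [x3]
      linarith
    have hcard1 : ((Ioc N (2 * N)).card : ℝ) = N := by
      rw [Nat.card_Ioc]
      have : 2 * N - N = N := by omega
      rw [this]
    have hcardS : ((Ioc S (2 * S)).card : ℝ) = S := by
      rw [Nat.card_Ioc]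
      have : 2 * S - S = S := by omega
      rw [this]
    have hcardR : ((Ioc R (2 * R)).card : ℝ) = R := by
      rw [Nat.card_Ioc]
      have : 2 * R - R = R := by omega
      rw [this]
    calc _ ≤ ∑ r ∈ Ioc R (2 * R), ∑ s1 ∈ Ioc S (2 * S), ∑ s2 ∈ Ioc S (2 * S), ∑ n1 ∈ Ioc N (2 * N),
          E * (2 * N / R) := by
          refine (norm_sum_le _ _).trans (Finset.sum_le_sum fun r hr => ?_)
          refine (norm_sum_le _ _).trans (Finset.sum_le_sum fun s1 hs1 => ?_)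
          refine (norm_sum_le _ _).trans (Finset.sum_le_sum fun s2 hs2 => ?_)
          refine (norm_sum_le _ _).trans (Finset.sum_le_sum fun n1 hn => ?_)
          exact hn1 r hr s1 hs1 s2 hs2 n1 hn
      _ = (R : ℝ) * (S * (S * (N * (E * (2 * N / R))))) := by
          simp only [Finset.sum_const, nsmul_eq_mul, hcard1, hcardS, hcardR]
      _ = _ := by
          rw [hE]
          field_simp
          ring
  have htri := norm_le_norm_add_norm_sub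
    (∑ h ∈ Icc (-(H : ℤ)) H, ∑ r ∈ Ioc R (2 * R), ∑ s1 ∈ Ioc S (2 * S), ∑ s2 ∈ Ioc S (2 * S),
      ∑ n1 ∈ Ioc N (2 * N), ∑ n2 ∈ Ioc N (2 * N), (if Gg a 1 r s1 s2 n1 n2 then G h r s1 s2 n1 n2 else 0))
    (∑ r ∈ Ioc R (2 * R), ∑ s1 ∈ Ioc S (2 * S), ∑ s2 ∈ Ioc S (2 * S),
      ∑ n1 ∈ Ioc N (2 * N), ∑ n2 ∈ Ioc N (2 * N), (if Gg a 1 r s1 s2 n1 n2 then F r s1 s2 n1 n2 else 0))
  rw [norm_sub_rev] at htri
  exact htri.trans (add_le_add hMain hdiff)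

end Pool.Agent.Lib.SL
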