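import Pool.Agent.Lib.SL.SpecD

set_option autoImplicit false

namespace Pool.Agent.Lib.SL

open Finset Pool.Agent.Lib.EH3 Pool.Agent.Lib.TB Pool.Agent.Results.MP_00e23e_nt Pool.Agent.Lib.MI

private lemma Lgs_mult (S g : ℕ) :
    (((Ioc S (2 * S)).filter (fun s => g ∣ s)).card : ℝ) ≤ 2 * (S : ℝ) / g := by
  have h1 : ((Ioc S (2 * S)).filter (fun s => g ∣ s)).card ≤ ((Ioc 0 (2 * S)).filter (fun s => g ∣ s)).card :=
    card_le_card (filter_subset_filter _ (Ioc_subset_Ioc_left (Nat.zero_le _)))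
  rw [Nat.Ioc_filter_dvd_card_eq_div] at h1
  have h2 : (((2 * S) / g : ℕ) : ℝ) ≤ ((2 * S : ℕ) : ℝ) / (g : ℝ) := Nat.cast_div_le
  have h3 : (((Ioc S (2 * S)).filter (fun s => g ∣ s)).card : ℝ) ≤ (((2 * S) / g : ℕ) : ℝ) := by exact_mod_cast h1
  push_cast at h2
  linarith

open Classical in
private lemma Lgs_in (z : ℝ) (a : ℕ → ℕ → ℤ) (R S N r s1 s2 : ℕ) (P : Finset (ℕ × ℕ)) (F : ℕ → ℝ) (hR : 1 ≤ R)
    (hP : Pr a R S z P) (hF : ∀ g, 0 ≤ F g) (hr : r ∈ Ioc R (2 * R)) (hs1 : s1 ∈ Ioc S (2 * S)) :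
    ∑ n1 ∈ Ioc N (2 * N), ∑ n2 ∈ Ioc N (2 * N),
      (if (r, s1) ∈ P ∧ (r, s2) ∈ P ∧ 2 ≤ Nat.gcd s1 s2 ∧ Gg a (Nat.gcd s1 s2) r s1 s2 n1 n2 ∧
          ND (a r s1) (a r s2) (r * Nat.gcd s1 s2) N then F (Nat.gcd s1 s2) else 0) ≤
    ∑ g ∈ (Icc 2 (2 * S)).filter (fun g : ℕ => z < g),
      (if g ∣ s1 ∧ g ∣ s2 then F g * (36 * (N : ℝ) ^ 2 / ((R : ℝ) * g)) else 0) := by
  have hnn : ∀ g ∈ (Icc 2 (2 * S)).filter (fun g : ℕ => z < g),
      0 ≤ (if g ∣ s1 ∧ g ∣ s2 then F g * (36 * (N : ℝ) ^ 2 / ((R : ℝ) * g)) else 0) := by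
    intro g _
    split_ifs
    · exact mul_nonneg (hF g) (by positivity)
    · exact le_rfl
  by_cases hc : (r, s1) ∈ P ∧ (r, s2) ∈ P ∧ 2 ≤ Nat.gcd s1 s2 ∧ ND (a r s1) (a r s2) (r * Nat.gcd s1 s2) N
  · obtain ⟨c1, c2, c3, c4⟩ := hc
    set g := Nat.gcd s1 s2 with hg
    have hs1' := mem_Ioc.1 hs1
    have hr' := mem_Ioc.1 hr
    have hgs1 : g ∣ s1 := Nat.gcd_dvd_left _ _
    have hgs2 : g ∣ s2 := Nat.gcd_dvd_right _ _
    have hgle : g ≤ 2 * S := (Nat.le_of_dvd (by omega) hgs1).trans hs1'.2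
    have hz : z < g := by
      obtain ⟨p, hp, hpg⟩ := Nat.exists_prime_and_dvd (show g ≠ 1 by omega)
      have h1 := (hP _ c1).2.2.2.2.2.2 p hp (hpg.trans hgs1)
      have h2 : p ≤ g := Nat.le_of_dvd (by omega) hpg
      have h3 : (p : ℝ) ≤ g := by exact_mod_cast h2
      linarith
    have hgm : g ∈ (Icc 2 (2 * S)).filter (fun g : ℕ => z < g) :=
      mem_filter.2 ⟨mem_Icc.2 ⟨c3, hgle⟩, hz⟩
    refine le_trans ?_ (single_le_sum hnn hgm)
    rw [if_pos ⟨hgs1, hgs2⟩]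
    rw [← sum_product']
    have h4 : ∑ n ∈ (Ioc N (2 * N)) ×ˢ (Ioc N (2 * N)),
        (if (r, s1) ∈ P ∧ (r, s2) ∈ P ∧ 2 ≤ g ∧ Gg a g r s1 s2 n.1 n.2 ∧
          ND (a r s1) (a r s2) (r * g) N then F g else 0) ≤
        ∑ n ∈ (Ioc N (2 * N)) ×ˢ (Ioc N (2 * N)),
          (if ((r * g : ℕ) : ℤ) ∣ (n.1 : ℤ) * a r s2 - (n.2 : ℤ) * a r s1 then F g else 0) := by
      refine sum_le_sum fun n _ => ?_
      by_cases h5 : (r, s1) ∈ P ∧ (r, s2) ∈ P ∧ 2 ≤ g ∧ Gg a g r s1 s2 n.1 n.2 ∧ ND (a r s1) (a r s2) (r * g) N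
      · rw [if_pos h5, if_pos h5.2.2.2.1.2.2.2.2.2.2.2]
      · rw [if_neg h5]
        split_ifs
        · exact hF g
        · exact le_rfl
    refine h4.trans ?_
    rw [← sum_filter]
    change ∑ n ∈ La (a r s1) (a r s2) (r * g) N, F g ≤ _
    rw [sum_const, nsmul_eq_mul, mul_comm]
    refine mul_le_mul_of_nonneg_left ?_ (hF g)
    have hg0 : (0 : ℝ) < g := by
      have : 0 < g := by omega
      exact_mod_cast this
    have hR0 : (0 : ℝ) < R := by exact_mod_cast hR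
    rw [le_div_iff₀ (mul_pos hR0 hg0)]
    have h6 : R * g * (La (a r s1) (a r s2) (r * g) N).card ≤ 36 * N ^ 2 := by
      refine le_trans ?_ c4
      exact Nat.mul_le_mul_right _ (Nat.mul_le_mul_right _ hr'.1.le)
    have h7 : ((R * g * (La (a r s1) (a r s2) (r * g) N).card : ℕ) : ℝ) ≤ ((36 * N ^ 2 : ℕ) : ℝ) := by
      exact_mod_cast h6
    push_cast at h7
    linarith
  · refine le_trans (le_of_eq ?_) (sum_nonneg hnn)
    refine sum_eq_zero fun n1 _ => sum_eq_zero fun n2 _ => ?_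
    rw [if_neg]
    rintro ⟨c1, c2, c3, -, c4⟩
    exact hc ⟨c1, c2, c3, c4⟩

theorem tLgs : LgsStmt := by
  classical
  intro z a R S N P F hR hS hN hP hF
  have hR0 : (0 : ℝ) < R := by exact_mod_cast hR
  set G0 := (Icc 2 (2 * S)).filter (fun g : ℕ => z < g) with hG0
  have h1 : ∀ r ∈ Ioc R (2 * R),
      ∑ s1 ∈ Ioc S (2 * S), ∑ s2 ∈ Ioc S (2 * S), ∑ n1 ∈ Ioc N (2 * N), ∑ n2 ∈ Ioc N (2 * N),
      (if (r, s1) ∈ P ∧ (r, s2) ∈ P ∧ 2 ≤ Nat.gcd s1 s2 ∧ Gg a (Nat.gcd s1 s2) r s1 s2 n1 n2 ∧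
          ND (a r s1) (a r s2) (r * Nat.gcd s1 s2) N then F (Nat.gcd s1 s2) else 0) ≤
      ∑ g ∈ G0, F g * (36 * (N : ℝ) ^ 2 / ((R : ℝ) * g)) * (2 * (S : ℝ) / g) ^ 2 := by
    intro r hr
    calc _ ≤ ∑ s1 ∈ Ioc S (2 * S), ∑ s2 ∈ Ioc S (2 * S), ∑ g ∈ G0,
          (if g ∣ s1 ∧ g ∣ s2 then F g * (36 * (N : ℝ) ^ 2 / ((R : ℝ) * g)) else 0) := by
          refine sum_le_sum fun s1 hs1 => sum_le_sum fun s2 _ => ?_
          exact Lgs_in z a R S N r s1 s2 P F hR hP hF hr hs1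
      _ = ∑ g ∈ G0, ∑ s1 ∈ Ioc S (2 * S), ∑ s2 ∈ Ioc S (2 * S),
          (if g ∣ s1 ∧ g ∣ s2 then F g * (36 * (N : ℝ) ^ 2 / ((R : ℝ) * g)) else 0) := by
          rw [sum_comm]
          refine (sum_congr rfl fun s2 _ => sum_comm).trans ?_
          rw [sum_comm]
          refine sum_congr rfl fun g _ => ?_
          exact sum_comm
      _ ≤ _ := by
          refine sum_le_sum fun g _ => ?_
          have hc0 : 0 ≤ F g * (36 * (N : ℝ) ^ 2 / ((R : ℝ) * g)) := mul_nonneg (hF g) (by positivity)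
          have h2 : ∑ s1 ∈ Ioc S (2 * S), ∑ s2 ∈ Ioc S (2 * S),
              (if g ∣ s1 ∧ g ∣ s2 then F g * (36 * (N : ℝ) ^ 2 / ((R : ℝ) * g)) else 0) =
              F g * (36 * (N : ℝ) ^ 2 / ((R : ℝ) * g)) *
                ((((Ioc S (2 * S)).filter (fun s => g ∣ s)).card : ℝ) *
                  (((Ioc S (2 * S)).filter (fun s => g ∣ s)).card : ℝ)) := by
            have h3 : ∀ s1 ∈ Ioc S (2 * S), ∑ s2 ∈ Ioc S (2 * S),
                (if g ∣ s1 ∧ g ∣ s2 then F g * (36 * (N : ℝ) ^ 2 / ((R : ℝ) * g)) else 0) =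
                if g ∣ s1 then F g * (36 * (N : ℝ) ^ 2 / ((R : ℝ) * g)) *
                  (((Ioc S (2 * S)).filter (fun s => g ∣ s)).card : ℝ) else 0 := by
              intro s1 _
              by_cases h4 : g ∣ s1
              · rw [if_pos h4]
                simp only [h4, true_and]
                rw [← sum_filter, sum_const, nsmul_eq_mul, mul_comm]
              · rw [if_neg h4]
                refine sum_eq_zero fun s2 _ => ?_
                rw [if_neg fun h => h4 h.1]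
            rw [sum_congr rfl h3, ← sum_filter, sum_const, nsmul_eq_mul]
            ring
          rw [h2]
          refine mul_le_mul_of_nonneg_left ?_ hc0
          have h5 := Lgs_mult S g
          rw [sq]
          exact mul_le_mul h5 h5 (Nat.cast_nonneg _) (by positivity)
  calc _ ≤ ∑ r ∈ Ioc R (2 * R), ∑ g ∈ G0, F g * (36 * (N : ℝ) ^ 2 / ((R : ℝ) * g)) * (2 * (S : ℝ) / g) ^ 2 :=
        sum_le_sum h1
    _ = (R : ℝ) * ∑ g ∈ G0, F g * (36 * (N : ℝ) ^ 2 / ((R : ℝ) * g)) * (2 * (S : ℝ) / g) ^ 2 := by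
        rw [sum_const, nsmul_eq_mul, Nat.card_Ioc]
        congr 2
        omega
    _ = 144 * ((S : ℝ) ^ 2 * (N : ℝ) ^ 2) * ∑ g ∈ G0, F g / (g : ℝ) ^ 3 := by
        rw [mul_sum, mul_sum]
        refine sum_congr rfl fun g hg => ?_
        have hg2 : 2 ≤ g := (mem_Icc.1 (mem_filter.1 hg).1).1
        have hg0 : (g : ℝ) ≠ 0 := by
          have : g ≠ 0 := by omega
          exact_mod_cast this
        field_simp
        ring
    _ ≤ _ := le_rfl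

end Pool.Agent.Lib.SL
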