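import Pool.Agent.Lib.SL.SpecD

/-!
MP_00e23e_nt, directory Lib/SL, module Lid: the exact identity, g = 1.
-/

set_option autoImplicit false

namespace Pool.Agent.Lib.SL

open Finset Pool.Agent.Lib.EH3 Pool.Agent.Lib.TB Pool.Agent.Results.MP_00e23e_nt Pool.Agent.Lib.MI

private lemma Lid_iff {q m n : ℕ} {ν a : ℤ} (hn : n.Coprime q) (h : (q : ℤ) ∣ ν * n - a) :
    (q : ℤ) ∣ ((m * n : ℕ) : ℤ) - a ↔ (q : ℤ) ∣ (m : ℤ) - ν := by
  have e : ((m * n : ℕ) : ℤ) - a = ((m : ℤ) - ν) * n + (ν * n - a) := by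
    push_cast
    ring
  rw [e, dvd_add_left h]
  have hc : IsCoprime (q : ℤ) (n : ℤ) := Nat.isCoprime_iff_coprime.2 hn.symm
  exact ⟨fun h1 => hc.dvd_of_dvd_mul_right h1, fun h1 => dvd_mul_of_dvd_left h1 _⟩

theorem tLid (h1 : MI.DfoStmt) (h2 : LphStmt) : LidStmt := by
  intro a r s1 s2 n1 n2 m hG
  obtain ⟨ν, hν1, hν2, hν⟩ := h2 a 1 r s1 s2 n1 n2 hG
  obtain ⟨sq1, sq2, hc, hn1, hn2, -, -, -⟩ := hG
  rw [Nat.div_one] at hν
  have hrs1 : r * s1 ≠ 0 := sq1.ne_zero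
  have hrs2 : r * s2 ≠ 0 := sq2.ne_zero
  have hr0 : r ≠ 0 := left_ne_zero_of_mul hrs1
  have hs1 : s1 ≠ 0 := right_ne_zero_of_mul hrs1
  have hs2 : s2 ≠ 0 := right_ne_zero_of_mul hrs2
  have hfo := h1 r s1 s2 ((m : ℤ) - ν) (by omega) (by omega) (by omega) hc
  have hsum : ∑ h ∈ (range (r * s1 * s2)).filter (fun h => ¬ s1 ∣ h ∧ ¬ s2 ∣ h),
      en ((h : ℤ) * m) (r * s1 * s2) * fg a h 1 r s1 s2 n1 n2 =
      ∑ h ∈ (range (r * s1 * s2)).filter (fun h => ¬ s1 ∣ h ∧ ¬ s2 ∣ h),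
        en ((h : ℤ) * ((m : ℤ) - ν)) (r * s1 * s2) := by
    refine Finset.sum_congr rfl fun h _ => ?_
    rw [← hν (h : ℤ), ← en_add]
    congr 1
    ring
  rw [hsum, hfo]
  have d1 : (r : ℤ) ∣ ((r * s1 : ℕ) : ℤ) := Int.natCast_dvd_natCast.2 (dvd_mul_right _ _)
  have d2 : (r : ℤ) ∣ ((r * s2 : ℕ) : ℤ) := Int.natCast_dvd_natCast.2 (dvd_mul_right _ _)
  have e1 := Lid_iff (m := m) hn1 hν1
  have e2 := Lid_iff (m := m) hn2 hν2
  have e3 := Lid_iff (m := m) (Nat.Coprime.coprime_dvd_right (dvd_mul_right _ _) hn1) (d1.trans hν1)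
  have e4 := Lid_iff (m := m) (Nat.Coprime.coprime_dvd_right (dvd_mul_right _ _) hn2) (d2.trans hν2)
  have eK : ((r * s1 * s2 : ℕ) : ℤ) ∣ (m : ℤ) - ν ↔
      ((r * s1 : ℕ) : ℤ) ∣ (m : ℤ) - ν ∧ ((r * s2 : ℕ) : ℤ) ∣ (m : ℤ) - ν := by
    constructor
    · intro h
      exact ⟨(Int.natCast_dvd_natCast.2 (dvd_mul_right _ _)).trans h,
        (Int.natCast_dvd_natCast.2 ⟨s1, by ring⟩).trans h⟩
    · rintro ⟨h3, h4⟩
      have hcs : (r * s1).Coprime s2 := by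
        refine Nat.Coprime.mul_left ?_ hc
        exact Nat.coprime_of_squarefree_mul sq2
      have h5 : ((s2 : ℕ) : ℤ) ∣ (m : ℤ) - ν :=
        (Int.natCast_dvd_natCast.2 (dvd_mul_left _ _)).trans h4
      have h6 : IsCoprime ((r * s1 : ℕ) : ℤ) (s2 : ℤ) := Nat.isCoprime_iff_coprime.2 hcs
      have h7 := h6.mul_dvd h3 h5
      rwa [← Nat.cast_mul] at h7
  have f1 : Dl (a r s1) r s1 (m * n1) = (if ((r * s1 : ℕ) : ℤ) ∣ (m : ℤ) - ν then 1 else 0) -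
      (1 / (s1 : ℂ)) * (if (r : ℤ) ∣ (m : ℤ) - ν then 1 else 0) := by
    simp only [Dl, dl, e1, e3]
  have f2 : Dl (a r s2) r s2 (m * n2) = (if ((r * s2 : ℕ) : ℤ) ∣ (m : ℤ) - ν then 1 else 0) -
      (1 / (s2 : ℂ)) * (if (r : ℤ) ∣ (m : ℤ) - ν then 1 else 0) := by
    simp only [Dl, dl, e2, e4]
  rw [f1, f2]
  have hs1' : (s1 : ℂ) ≠ 0 := Nat.cast_ne_zero.2 hs1
  have hs2' : (s2 : ℂ) ≠ 0 := Nat.cast_ne_zero.2 hs2
  by_cases hA : ((r * s1 : ℕ) : ℤ) ∣ (m : ℤ) - ν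
  · have hR : (r : ℤ) ∣ (m : ℤ) - ν := d1.trans hA
    by_cases hB : ((r * s2 : ℕ) : ℤ) ∣ (m : ℤ) - ν
    · rw [if_pos hA, if_pos hR, if_pos hB, if_pos (eK.2 ⟨hA, hB⟩)]
      field_simp
      ring
    · rw [if_pos hA, if_pos hR, if_neg hB, if_neg (fun h => hB (eK.1 h).2)]
      field_simp
      ring
  · by_cases hB : ((r * s2 : ℕ) : ℤ) ∣ (m : ℤ) - ν
    · have hR : (r : ℤ) ∣ (m : ℤ) - ν := d2.trans hB
      rw [if_neg hA, if_pos hR, if_pos hB, if_neg (fun h => hA (eK.1 h).1)]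
      field_simp
      ring
    · rw [if_neg hA, if_neg hB, if_neg (fun h => hA (eK.1 h).1)]
      by_cases hR : (r : ℤ) ∣ (m : ℤ) - ν
      · rw [if_pos hR]
        field_simp
        ring
      · rw [if_neg hR]
        ring

end Pool.Agent.Lib.SL
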