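import Pool.Agent.Lib.SL.SpecD

set_option autoImplicit false

namespace Pool.Agent.Lib.SL

open Finset Pool.Agent.Lib.EH3 Pool.Agent.Lib.TB Pool.Agent.Results.MP_00e23e_nt Pool.Agent.Lib.MI

/-- division step: e1 is the larger coordinate -/
private theorem Lmv_step (e1 e2 w1 w2 : ℤ) (h1 : 1 ≤ |e1|) (h2 : |e2| ≤ |e1|) (hw : e1 * w2 = e2 * w1) :
    |w1 - w1 / e1 * e1| < |e1| ∧ |w2 - w1 / e1 * e2| < |e1| := by
  have he : e1 ≠ 0 := by
    rintro rfl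
    simp at h1
  have h3 : w1 - w1 / e1 * e1 = w1 % e1 := by
    have := Int.emod_add_mul_ediv w1 e1
    linarith [mul_comm e1 (w1 / e1)]
  have h4 : |w1 % e1| < |e1| := by
    rw [abs_of_nonneg (Int.emod_nonneg w1 he)]
    exact Int.emod_lt_abs w1 he
  refine ⟨by rw [h3]; exact h4, ?_⟩
  have h5 : e1 * (w2 - w1 / e1 * e2) = e2 * (w1 % e1) := by
    rw [← h3]
    linear_combination hw
  have h6 : |e1| * |w2 - w1 / e1 * e2| ≤ |e1| * |w1 % e1| := by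
    rw [← abs_mul, h5, abs_mul]
    exact mul_le_mul_of_nonneg_right h2 (abs_nonneg _)
  have h7 : |w2 - w1 / e1 * e2| ≤ |w1 % e1| := le_of_mul_le_mul_left h6 (by linarith)
  exact lt_of_le_of_lt h7 h4

theorem tLmv : LmvStmt := by
  intro q a1 a2 B w0 hw0 hB1 hB2 hq
  classical
  set K : Finset (ℤ × ℤ) := ((Icc (-B) B) ×ˢ (Icc (-B) B)).filter
    (fun w => w ≠ 0 ∧ (q : ℤ) ∣ w.1 * a2 - w.2 * a1) with hK
  have hmem : ∀ w : ℤ × ℤ, w ∈ K ↔ (|w.1| ≤ B ∧ |w.2| ≤ B) ∧ w ≠ 0 ∧ (q : ℤ) ∣ w.1 * a2 - w.2 * a1 := by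
    intro w
    rw [hK, mem_filter, mem_product, mem_Icc, mem_Icc, abs_le, abs_le]
  have hne : K.Nonempty := ⟨w0, (hmem w0).2 ⟨⟨hB1, hB2⟩, hw0, hq⟩⟩
  obtain ⟨e, heK, hmin⟩ := K.exists_min_image (fun w => max |w.1| |w.2|) hne
  obtain ⟨⟨he1, he2⟩, he0, heq⟩ := (hmem e).1 heK
  have hm1 : 1 ≤ max |e.1| |e.2| := by
    by_contra hcon
    have h1 : |e.1| < 1 := lt_of_le_of_lt (le_max_left _ _) (not_le.1 hcon)
    have h2 : |e.2| < 1 := lt_of_le_of_lt (le_max_right _ _) (not_le.1 hcon)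
    exact he0 (Prod.ext (Int.abs_lt_one_iff.1 h1) (Int.abs_lt_one_iff.1 h2))
  have hkey : ∀ w' : ℤ × ℤ, |w'.1| < max |e.1| |e.2| → |w'.2| < max |e.1| |e.2| →
      (q : ℤ) ∣ w'.1 * a2 - w'.2 * a1 → w' = 0 := by
    intro w' h1 h2 h3
    by_contra h4
    have hmB : max |e.1| |e.2| ≤ B := max_le he1 he2
    have h5 : w' ∈ K := (hmem w').2 ⟨⟨by linarith, by linarith⟩, h4, h3⟩
    have h6 := hmin w' h5
    exact absurd (max_lt h1 h2) (not_lt.2 h6)
  have hlat : ∀ (w : ℤ × ℤ) (t : ℤ), (q : ℤ) ∣ w.1 * a2 - w.2 * a1 →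
      (q : ℤ) ∣ (w.1 - t * e.1) * a2 - (w.2 - t * e.2) * a1 := by
    intro w t h
    have h1 : (w.1 - t * e.1) * a2 - (w.2 - t * e.2) * a1 =
        (w.1 * a2 - w.2 * a1) - t * (e.1 * a2 - e.2 * a1) := by ring
    rw [h1]
    exact dvd_sub h (dvd_mul_of_dvd_right heq t)
  refine ⟨e, hm1, max_le he1 he2, heq, fun w hw hcol => ?_⟩
  rcases le_total |e.2| |e.1| with hle | hle
  · have hmax : max |e.1| |e.2| = |e.1| := max_eq_left hle
    obtain ⟨h1, h2⟩ := Lmv_step e.1 e.2 w.1 w.2 (by rw [← hmax]; exact hm1) hle hcol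
    have h3 := hkey (w.1 - w.1 / e.1 * e.1, w.2 - w.1 / e.1 * e.2) (by rw [hmax]; exact h1)
      (by rw [hmax]; exact h2) (hlat w _ hw)
    refine ⟨w.1 / e.1, ?_, ?_⟩
    · have := congrArg Prod.fst h3
      simp only [Prod.fst_zero] at this
      linarith
    · have := congrArg Prod.snd h3
      simp only [Prod.snd_zero] at this
      linarith
  · have hmax : max |e.1| |e.2| = |e.2| := max_eq_right hle
    obtain ⟨h1, h2⟩ := Lmv_step e.2 e.1 w.2 w.1 (by rw [← hmax]; exact hm1) hle hcol.symm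
    have h3 := hkey (w.1 - w.2 / e.2 * e.1, w.2 - w.2 / e.2 * e.2) (by rw [hmax]; exact h2)
      (by rw [hmax]; exact h1) (hlat w _ hw)
    refine ⟨w.2 / e.2, ?_, ?_⟩
    · have := congrArg Prod.fst h3
      simp only [Prod.fst_zero] at this
      linarith
    · have := congrArg Prod.snd h3
      simp only [Prod.snd_zero] at this
      linarith

end Pool.Agent.Lib.SL
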