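import Pool.Agent.Lib.SL.SpecD

/-! MP_00e23e_nt, Lib/SL, module Lna: averages over m, n. -/

set_option autoImplicit false

namespace Pool.Agent.Lib.SL

open Finset Pool.Agent.Lib.EH3 Pool.Agent.Lib.TB Pool.Agent.Results.MP_00e23e_nt Pool.Agent.Lib.MI

open Classical in
/-- the exchange of the sums -/
private theorem Lna_gen (h1 : Pool.Agent.Lib.MJ.EcnStmt) {ι : Type} (Q : Finset ι) (q : ι → ℕ) (X T : ℝ) (a : ι → ℤ)
    (M N K : ℕ) (hT : Tau X T) (hT0 : 0 ≤ T) (hM : 8 ≤ M) (hN : 1 ≤ N) (hX : 6 * (M : ℝ) * N ≤ X)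
    (hK : 1 ≤ K) (hq : ∀ i ∈ Q, K ≤ q i) (hQ : Q.card ≤ K) (hKM : K ≤ M * N) :
    ∑ m ∈ Icc (M / 2) (3 * M), ∑ n ∈ Ioc N (2 * N),
      ((Q.filter (fun i => ((q i : ℕ) : ℤ) ∣ ((m * n : ℕ) : ℤ) - a i)).card : ℝ) ≤
        7 * T * ((M : ℝ) * N) := by
  have hK0 : (0 : ℝ) < K := by exact_mod_cast hK
  have e1 : ∑ m ∈ Icc (M / 2) (3 * M), ∑ n ∈ Ioc N (2 * N),
      ((Q.filter (fun i => ((q i : ℕ) : ℤ) ∣ ((m * n : ℕ) : ℤ) - a i)).card : ℝ) =
      ∑ i ∈ Q, (((Icc (M / 2) (3 * M) ×ˢ Ioc N (2 * N)).filter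
        (fun w => ((q i : ℕ) : ℤ) ∣ ((w.1 * w.2 : ℕ) : ℤ) - a i)).card : ℝ) := by
    rw [← Finset.sum_product']
    have e2 : ∀ w : ℕ × ℕ, ((Q.filter (fun i => ((q i : ℕ) : ℤ) ∣ ((w.1 * w.2 : ℕ) : ℤ) - a i)).card : ℝ) =
        ∑ i ∈ Q, if ((q i : ℕ) : ℤ) ∣ ((w.1 * w.2 : ℕ) : ℤ) - a i then (1 : ℝ) else 0 := by
      intro w
      rw [Finset.sum_boole]
    rw [Finset.sum_congr rfl fun w _ => e2 w, Finset.sum_comm]
    refine Finset.sum_congr rfl fun i _ => ?_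
    rw [Finset.sum_boole]
  rw [e1]
  have e3 : ∀ i ∈ Q, (((Icc (M / 2) (3 * M) ×ˢ Ioc N (2 * N)).filter
      (fun w => ((q i : ℕ) : ℤ) ∣ ((w.1 * w.2 : ℕ) : ℤ) - a i)).card : ℝ) ≤
      T * (6 * ((M : ℝ) * N) / K + 1) := by
    intro i hi
    have hqi : 1 ≤ q i := hK.trans (hq i hi)
    refine (h1 X T M N (q i) (a i) hT hqi hM hN hX).trans ?_
    have h2 : 6 * ((M : ℝ) * N) / (q i : ℝ) ≤ 6 * ((M : ℝ) * N) / K := by
      refine div_le_div_of_nonneg_left (by positivity) hK0 ?_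
      exact_mod_cast hq i hi
    exact mul_le_mul_of_nonneg_left (by linarith) hT0
  refine (Finset.sum_le_sum e3).trans ?_
  rw [Finset.sum_const, nsmul_eq_mul]
  have hQ' : (Q.card : ℝ) ≤ K := by exact_mod_cast hQ
  have hKM' : (K : ℝ) ≤ (M : ℝ) * N := by exact_mod_cast hKM
  calc (Q.card : ℝ) * (T * (6 * ((M : ℝ) * N) / K + 1))
      ≤ K * (T * (6 * ((M : ℝ) * N) / K + 1)) := by
        refine mul_le_mul_of_nonneg_right hQ' (by positivity)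
    _ = T * (6 * ((M : ℝ) * N) + K) := by field_simp
    _ ≤ T * (6 * ((M : ℝ) * N) + (M : ℝ) * N) := by gcongr
    _ = 7 * T * ((M : ℝ) * N) := by ring

/-- averages over m, n -/
theorem tLna (h1 : Pool.Agent.Lib.MJ.EcnStmt) : LnaStmt := by
  classical
  intro X T z a R S M N P hSz hPr
  obtain ⟨hT, hz, hR, hS, hN, hM, hRN, hX, hRS⟩ := hSz
  have hT1 : 1 ≤ T := hT.1
  have hRS1 : R * S ≤ R * S ^ 2 := by
    have : S ≤ S ^ 2 := Nat.le_self_pow two_ne_zero S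
    exact Nat.mul_le_mul_left R this
  have hR1 : R ≤ R * S ^ 2 := Nat.le_mul_of_pos_right R (by positivity)
  have hX6 : 6 * (M : ℝ) * N ≤ X := by
    refine le_trans ?_ hX
    have hR' : (1 : ℝ) ≤ R := by exact_mod_cast hR
    have hS' : (1 : ℝ) ≤ S := by exact_mod_cast hS
    have hN' : (1 : ℝ) ≤ N := by exact_mod_cast hN
    have hM' : (1 : ℝ) ≤ M := by
      have : 1 ≤ M := by omega
      exact_mod_cast this
    have a1 : (M : ℝ) ≤ (M : ℝ) ^ 2 := le_self_pow₀ hM' two_ne_zero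
    have a2 : (N : ℝ) ≤ (N : ℝ) ^ 2 := le_self_pow₀ hN' two_ne_zero
    have a3 : (1 : ℝ) ≤ (R : ℝ) ^ 2 := one_le_pow₀ hR'
    have a4 : (1 : ℝ) ≤ (S : ℝ) ^ 4 := one_le_pow₀ hS'
    calc 6 * (M : ℝ) * N = 6 * (M : ℝ) * N * 1 * 1 := by ring
      _ ≤ 100 * (M : ℝ) ^ 2 * (N : ℝ) ^ 2 * (R : ℝ) ^ 2 * (S : ℝ) ^ 4 := by
          gcongr
          norm_num
  constructor
  · refine Lna_gen h1 P (fun w => w.1 * w.2) X T (fun w => a w.1 w.2) M N (R * S) hT (by linarith) hM hN hX6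
      (Nat.mul_pos hR hS) ?_ ?_ (hRS1.trans hRS)
    · intro w hw
      obtain ⟨b1, -, b2, -⟩ := hPr w hw
      exact Nat.mul_le_mul b1.le b2.le
    · have hsub : P ⊆ Ioc R (2 * R) ×ˢ Ioc S (2 * S) := by
        intro w hw
        obtain ⟨b1, b2, b3, b4, -⟩ := hPr w hw
        rw [Finset.mem_product, Finset.mem_Ioc, Finset.mem_Ioc]
        exact ⟨⟨b1, b2⟩, ⟨b3, b4⟩⟩
      refine (Finset.card_le_card hsub).trans (le_of_eq ?_)
      rw [Finset.card_product, Nat.card_Ioc, Nat.card_Ioc]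
      have c1 : 2 * R - R = R := by omega
      have c2 : 2 * S - S = S := by omega
      rw [c1, c2]
  · intro s
    have h2 := Lna_gen h1 ((Ioc R (2 * R)).filter (fun r : ℕ => (r, s) ∈ P)) (fun r => r) X T (fun r => a r s)
      M N R hT (by linarith) hM hN hX6 hR (fun r hr => by
        rw [Finset.mem_filter, Finset.mem_Ioc] at hr
        exact hr.1.1.le) (by
        refine (Finset.card_filter_le _ _).trans (le_of_eq ?_)
        rw [Nat.card_Ioc]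
        omega) (hR1.trans hRS)
    refine le_of_eq_of_le ?_ h2
    refine Finset.sum_congr rfl fun m _ => Finset.sum_congr rfl fun n _ => ?_
    rw [Finset.filter_filter]

end Pool.Agent.Lib.SL
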