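import Pool.Agent.Lib.SL.Lph
import Pool.Agent.Lib.SL.Lid
import Pool.Agent.Lib.SL.Lff
import Pool.Agent.Lib.SL.Lta
import Pool.Agent.Lib.SL.Ltb
import Pool.Agent.Lib.SL.Lca
import Pool.Agent.Lib.SL.Lex
import Pool.Agent.Lib.SL.Lna
import Pool.Agent.Lib.SL.Lcn
import Pool.Agent.Lib.SL.Lcb
import Pool.Agent.Lib.SL.Lcc
import Pool.Agent.Lib.SL.Lcr
import Pool.Agent.Lib.SL.Lmv
import Pool.Agent.Lib.SL.Lnd
import Pool.Agent.Lib.SL.Ldc
import Pool.Agent.Lib.SL.Ldd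
import Pool.Agent.Lib.SL.Lgs
import Pool.Agent.Lib.SL.Lgl
import Pool.Agent.Lib.SL.Lco
import Pool.Agent.Lib.SL.Lgm
import Pool.Agent.Lib.SL.Lfu
import Pool.Agent.Lib.SL.Lgo
import Pool.Agent.Lib.SL.Lfi
import Pool.Agent.Lib.MI.Dfo
import Pool.Agent.Lib.MI.Dgg
import Pool.Agent.Lib.MI.Dtr
import Pool.Agent.Lib.MI.Dpr
import Pool.Agent.Lib.MJ.Ecn
import Pool.Agent.Lib.MJ.Egc

/-!
MP_00e23e_nt, project SL, chapter D (helper3): DspStmt without hypotheses.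
-/

namespace Pool.Agent.Lib.SL

/-- chapter D: the dispersion inequality for arbitrary classes modulo r s, with all its modules -/
theorem tDsp : DspStmt := by
  have hid : LidStmt := tLid MI.tDfo tLph
  have hta : LtaStmt := tLta hid MI.tDgg
  have htb : LtbStmt := tLtb (tLff tLph) MI.tDgg
  have hna : LnaStmt := tLna MJ.tEcn
  have hcr : LcrStmt := tLcr MI.tDtr (tLcb hna tLcn MI.tDpr) (tLcc hna tLcn MI.tDpr)
  have hdd : LddStmt := tLdd MI.tDtr (tLnd tLmv) tLdc MJ.tEgc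
  have hgl : LglStmt := tLgl MI.tDtr tLph tLgs
  have hco : LcoStmt := tLco MI.tDgg
  have hgm : LgmStmt := tLgm MI.tDgg htb tLgs hco
  exact tLfi (tLca MI.tDtr) tLex hcr (tLfu hdd hgl hgm) (tLgo hta hco)

end Pool.Agent.Lib.SL
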