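import Pool.Agent.Lib.SL.SpecE

/-!
MP_00e23e_nt, project SL, chapter E: module Ekf, the final statement in the Kloosterman case.
-/

namespace Pool.Agent.Lib.SL

open Finset Pool.Agent.Lib.EH3 Pool.Agent.Lib.TB Pool.Agent.Results.MP_00e23e_nt Pool.Agent.Lib.MI

/-- the algebra of the five terms -/
private lemma Ekf_alg (x a b u v g N : ℝ) (hx : 0 < x) (ha : 0 < a) (hb : 0 < b) (hu : 0 < u) (hv : 0 < v) :
    (a * b * u * g) * v * (1 + x * b * N / ((x * a ^ 2 * b ^ 2) * (u * v)) + N / ((x * a ^ 2 * b ^ 2) * u) +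
      N / ((x * a ^ 2 * b ^ 2) * v) + x * b * N ^ 2 / ((x * a ^ 2 * b ^ 2) ^ 2 * (u * v))) =
    g * (a * b * u * v + N / a + N * (a * b * v) / (x * a ^ 2 * b ^ 2) + N * (a * b * u) / (x * a ^ 2 * b ^ 2) +
      N ^ 2 / ((x * a ^ 2 * b ^ 2) * a)) := by
  field_simp

private lemma Ekf_sqrt (k : ℕ) : ((k : ℝ)) = Real.sqrt (k : ℝ) ^ 2 := (Real.sq_sqrt (Nat.cast_nonneg k)).symm

/-- Module Ekf -/
theorem tEkf (h1 : EsStmt) (h2 : EkhStmt) : EkStmt := by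
  obtain ⟨C, hC, A, hE⟩ := h1
  refine ⟨C, hC, A + 2, ?_⟩
  intro X T k1 k2 k3 W1 W2 N N1 N2 N3 N4 l1 l2 c1 c2 hT hM hsW1 hsW2 hN hN12 hN2 hN34 hN4 hX1 hX2
  obtain ⟨hsq, hW1, hW2, hcW1, hcW2, hl1, hl2⟩ := hM
  have hT1 : 1 ≤ T := hT.1
  have hT0 : 0 < T := lt_of_lt_of_le one_pos hT1
  have hk0 : k1 * k2 * k3 ≠ 0 := hsq.ne_zero
  have hk3 : k3 ≠ 0 := right_ne_zero_of_mul hk0
  have hk12 : k1 * k2 ≠ 0 := left_ne_zero_of_mul hk0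
  have hk1 : k1 ≠ 0 := left_ne_zero_of_mul hk12
  have hk2 : k2 ≠ 0 := right_ne_zero_of_mul hk12
  -- the hypotheses on the functions
  have hd : k2 * k3 ∣ k1 * k2 * k3 := ⟨k1, by ring⟩
  have hs1 : Squarefree (k2 * (k3 * W1)) := by
    rw [← mul_assoc]
    exact (Nat.squarefree_mul (hcW1.coprime_dvd_left hd)).2 ⟨hsq.squarefree_of_dvd hd, hsW1⟩
  have hX1' : ((k2 * (k3 * W1) : ℕ) : ℝ) ≤ X := by
    refine le_trans ?_ hX1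
    have h3 : k2 * (k3 * W1) ≤ k1 * k2 * k3 * W1 := by
      have h4 : k1 * k2 * k3 * W1 = k1 * (k2 * (k3 * W1)) := by ring
      rw [h4]
      exact Nat.le_mul_of_pos_left _ (Nat.pos_of_ne_zero hk1)
    exact_mod_cast h3
  have hX2' : ((1 * W2 : ℕ) : ℝ) ≤ X := by
    refine le_trans ?_ hX2
    have h3 : 1 * W2 ≤ k1 * k2 * k3 * W2 := Nat.mul_le_mul_right _ (Nat.pos_of_ne_zero hk0)
    exact_mod_cast h3
  set B1 : ℝ := T * Real.sqrt (((k2 * (k3 * W1) : ℕ) : ℝ) * (Int.gcd c1 k2 : ℝ)) with hB1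
  set B2 : ℝ := T * Real.sqrt (((1 * W2 : ℕ) : ℝ) * (Int.gcd c2 ((1 : ℕ) : ℤ) : ℝ)) with hB2
  have hB10 : 0 ≤ B1 := mul_nonneg hT0.le (Real.sqrt_nonneg _)
  have hB20 : 0 ≤ B2 := mul_nonneg hT0.le (Real.sqrt_nonneg _)
  have hPE : PE k2 k3 W1 W2 (t1g c1 (k2 * k3 * W1)) (t1g c2 W2) B1 B2 := by
    refine ⟨hB10, hB20, fun n => t1_g_add _ _ _, fun n => t1_g_add _ _ _, fun j => ?_, fun j => ?_⟩
    · have h3 := h2 X T k2 (k3 * W1) c1 j hT hs1 hX1'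
      rw [← hB1] at h3
      have h4 : k2 * (k3 * W1) = k2 * k3 * W1 := by ring
      rw [h4] at h3
      exact h3
    · have h3 := h2 X T 1 W2 c2 j hT (by rw [one_mul]; exact hsW2) hX2'
      rw [← hB2, one_mul] at h3
      exact h3
  have hmain := hE X T k1 k2 k3 W1 W2 N N1 N2 N3 N4 l1 l2 (t1g c1 (k2 * k3 * W1)) (t1g c2 W2) B1 B2 hT
    ⟨hsq, hW1, hW2, hcW1, hcW2, hl1, hl2⟩ hPE hN hN12 hN2 hN34 hN4 hX1 hX2
  refine hmain.trans (le_of_eq ?_)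
  -- the algebra
  set g : ℝ := Real.sqrt (Int.gcd c1 k2 : ℝ) with hg
  set a : ℝ := Real.sqrt (k2 : ℝ) with ha
  set b : ℝ := Real.sqrt (k3 : ℝ) with hb
  set u : ℝ := Real.sqrt (W1 : ℝ) with hu
  set v : ℝ := Real.sqrt (W2 : ℝ) with hv
  have hk2r : (0 : ℝ) < (k2 : ℝ) := by exact_mod_cast Nat.pos_of_ne_zero hk2
  have hk3r : (0 : ℝ) < (k3 : ℝ) := by exact_mod_cast Nat.pos_of_ne_zero hk3
  have hk1r : (0 : ℝ) < (k1 : ℝ) := by exact_mod_cast Nat.pos_of_ne_zero hk1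
  have hW1r : (0 : ℝ) < (W1 : ℝ) := by exact_mod_cast hW1
  have hW2r : (0 : ℝ) < (W2 : ℝ) := by exact_mod_cast hW2
  have ha0 : 0 < a := Real.sqrt_pos.2 hk2r
  have hb0 : 0 < b := Real.sqrt_pos.2 hk3r
  have hu0 : 0 < u := Real.sqrt_pos.2 hW1r
  have hv0 : 0 < v := Real.sqrt_pos.2 hW2r
  have hB1e : B1 = T * (a * b * u * g) := by
    rw [hB1]
    push_cast
    rw [Real.sqrt_mul (by positivity), Real.sqrt_mul hk2r.le, Real.sqrt_mul hk3r.le, ← ha, ← hb, ← hu, ← hg]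
    ring
  have hB2e : B2 = T * v := by
    rw [hB2]
    simp [hv]
  have hkk : ((k1 * k2 * k3 : ℕ) : ℝ) = (k1 : ℝ) * a ^ 2 * b ^ 2 := by
    push_cast
    rw [ha, hb, ← Ekf_sqrt, ← Ekf_sqrt]
  have e1 : Real.sqrt ((W1 : ℝ) * W2) = u * v := by rw [Real.sqrt_mul hW1r.le]
  have e2 : Real.sqrt ((k2 : ℝ) * k3 * W1 * W2) = a * b * u * v := by
    rw [Real.sqrt_mul (by positivity), Real.sqrt_mul (by positivity), Real.sqrt_mul hk2r.le]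
  have e3 : Real.sqrt ((k2 : ℝ) * k3 * W2) = a * b * v := by
    rw [Real.sqrt_mul (by positivity), Real.sqrt_mul hk2r.le]
  have e4 : Real.sqrt ((k2 : ℝ) * k3 * W1) = a * b * u := by
    rw [Real.sqrt_mul (by positivity), Real.sqrt_mul hk2r.le]
  rw [hB1e, hB2e, hkk, e1, e2, e3, e4]
  have h5 := Ekf_alg (k1 : ℝ) a b u v g (N : ℝ) hk1r ha0 hb0 hu0 hv0
  have h6 : C * T ^ (A + 2) * g * (a * b * u * v + (N : ℝ) / a + (N : ℝ) * (a * b * v) / ((k1 : ℝ) * a ^ 2 * b ^ 2) +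
      (N : ℝ) * (a * b * u) / ((k1 : ℝ) * a ^ 2 * b ^ 2) + (N : ℝ) ^ 2 / (((k1 : ℝ) * a ^ 2 * b ^ 2) * a)) =
      C * T ^ (A + 2) * (g * (a * b * u * v + (N : ℝ) / a + (N : ℝ) * (a * b * v) / ((k1 : ℝ) * a ^ 2 * b ^ 2) +
      (N : ℝ) * (a * b * u) / ((k1 : ℝ) * a ^ 2 * b ^ 2) + (N : ℝ) ^ 2 / (((k1 : ℝ) * a ^ 2 * b ^ 2) * a))) := by
    ring
  rw [h6, ← h5]
  ring

end Pool.Agent.Lib.SL
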