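import Pool.Agent.Lib.SL.SpecE

/-!
MP_00e23e_nt, project SL, chapter E, module Ekh: the complete sums of t1g.
-/

namespace Pool.Agent.Lib.SL

open Finset Pool.Agent.Lib.EH3 Pool.Agent.Lib.TB Pool.Agent.Results.MP_00e23e_nt Pool.Agent.Lib.MI

/-- the complete sum of t1g is a Kloosterman sum -/
private lemma Ekh_eq (q : ℕ) (c j : ℤ) : hE (t1g c q) q j = kl c j q := by
  unfold hE kl
  rw [sum_filter]
  apply sum_congr rfl
  intro n _
  unfold t1g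
  split_ifs with h
  · rw [← en_add]
    unfold en
    congr 1
    push_cast
    ring
  · simp

/-- the greatest common divisors -/
private lemma Ekh_gcd (m m' : ℕ) (c j : ℤ) (hm : 1 ≤ m) (hm' : 1 ≤ m') :
    Int.gcd ((Int.gcd c j : ℕ) : ℤ) ((m * m' : ℕ) : ℤ) ≤ Int.gcd c m * Int.gcd j (m' : ℤ) := by
  have hp1 : 0 < Int.gcd c m := Nat.pos_of_ne_zero fun h => by
    have := (Int.gcd_eq_zero_iff.1 h).2
    omega
  have hp2 : 0 < Int.gcd j (m' : ℤ) := Nat.pos_of_ne_zero fun h => by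
    have := (Int.gcd_eq_zero_iff.1 h).2
    omega
  apply Nat.le_of_dvd (Nat.mul_pos hp1 hp2)
  rw [Int.gcd_natCast_natCast]
  refine (Nat.gcd_mul_right_dvd_mul_gcd _ _ _).trans (mul_dvd_mul ?_ ?_)
  · have h1 : Nat.gcd (Int.gcd c j) m ∣ c.natAbs := (Nat.gcd_dvd_left _ _).trans (Nat.gcd_dvd_left _ _)
    have h2 : Nat.gcd (Int.gcd c j) m ∣ m := Nat.gcd_dvd_right _ _
    have h3 := Nat.dvd_gcd h1 h2
    simpa [Int.gcd] using h3
  · have h1 : Nat.gcd (Int.gcd c j) m' ∣ j.natAbs := (Nat.gcd_dvd_left _ _).trans (Nat.gcd_dvd_right _ _)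
    have h2 : Nat.gcd (Int.gcd c j) m' ∣ m' := Nat.gcd_dvd_right _ _
    have h3 := Nat.dvd_gcd h1 h2
    simpa [Int.gcd] using h3

theorem tEkh (h1 : EklStmt) : EkhStmt := by
  intro X T m m' c j hT hsq hX
  have hq0 : m * m' ≠ 0 := hsq.ne_zero
  have hq : 1 ≤ m * m' := Nat.one_le_iff_ne_zero.2 hq0
  have hm : 1 ≤ m := Nat.one_le_iff_ne_zero.2 (left_ne_zero_of_mul hq0)
  have hm' : 1 ≤ m' := Nat.one_le_iff_ne_zero.2 (right_ne_zero_of_mul hq0)
  rw [Ekh_eq]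
  refine (h1 (m * m') c j hq hsq).trans ?_
  have hτ : ((m * m').divisors.card : ℝ) ≤ T := hT.2.2 _ hq hX
  have hg : (Int.gcd ((Int.gcd c j : ℕ) : ℤ) ((m * m' : ℕ) : ℤ) : ℝ) ≤
      (Int.gcd c m : ℝ) * (Int.gcd j (m' : ℤ) : ℝ) := by
    exact_mod_cast Ekh_gcd m m' c j hm hm'
  rw [mul_assoc]
  refine mul_le_mul hτ ?_ (Real.sqrt_nonneg _) (le_trans (Nat.cast_nonneg _) hτ)
  rw [← Real.sqrt_mul (by positivity)]
  apply Real.sqrt_le_sqrt
  rw [mul_assoc]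
  exact mul_le_mul_of_nonneg_left hg (by positivity)

end Pool.Agent.Lib.SL
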