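import Pool.Agent.Lib.SL.SpecE
import Pool.Agent.Lib.TB.Kl

/-! MP_00e23e_nt, Lib/SL, module Ekl: Kloosterman sums for squarefree moduli with gcd(c, h, q). -/

set_option autoImplicit false

namespace Pool.Agent.Lib.SL

open Finset Pool.Agent.Lib.EH3 Pool.Agent.Lib.TB Pool.Agent.Results.MP_00e23e_nt Pool.Agent.Lib.MI

/-- the splitting of 1/(a b) -/
private lemma Ekl_split (a b : ℕ) (u v k : ℤ) (ha : 1 ≤ a) (hb : 1 ≤ b)
    (h : ((a * b : ℕ) : ℤ) ∣ k * (u * b + v * a - 1)) :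
    ee ((k : ℝ) / ((a * b : ℕ) : ℝ)) = ee (((u * k : ℤ) : ℝ) / (a : ℝ)) * ee (((v * k : ℤ) : ℝ) / (b : ℝ)) := by
  have ha' : (a : ℝ) ≠ 0 := by positivity
  have hb' : (b : ℝ) ≠ 0 := by positivity
  rw [← ee_add]
  have e1 : ((u * k : ℤ) : ℝ) / (a : ℝ) + ((v * k : ℤ) : ℝ) / (b : ℝ) =
      (((u * k * b + v * k * a : ℤ)) : ℝ) / ((a * b : ℕ) : ℝ) := by
    push_cast
    field_simp
  rw [e1]
  refine ee_congr ?_
  have e2 : k - (u * k * b + v * k * a) = - (k * (u * b + v * a - 1)) := by ring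
  rw [e2]
  exact (dvd_neg).2 h

/-- a character modulo a b is a product of characters -/
private lemma Ekl_ps (a b : ℕ) [NeZero a] [NeZero b] (hab : a.Coprime b) (u v : ℤ)
    (hu : (a : ℤ) ∣ u * b - 1) (hv : (b : ℤ) ∣ v * a - 1) (t : ZMod (a * b)) :
    have : NeZero (a * b) := ⟨Nat.mul_ne_zero (NeZero.ne a) (NeZero.ne b)⟩
    Pool.Lib.KF.ps t = Pool.Lib.KF.ps ((u : ZMod a) * (ZMod.chineseRemainder hab t).1) *
      Pool.Lib.KF.ps ((v : ZMod b) * (ZMod.chineseRemainder hab t).2) := by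
  have : NeZero (a * b) := ⟨Nat.mul_ne_zero (NeZero.ne a) (NeZero.ne b)⟩
  obtain ⟨k, rfl⟩ : ∃ k : ℤ, (k : ZMod (a * b)) = t := ⟨(t.val : ℤ), by simp⟩
  have h1 : ((ZMod.chineseRemainder hab) (k : ZMod (a * b))) = (((k : ℤ) : ZMod a), ((k : ℤ) : ZMod b)) := by
    rw [map_intCast]
    rfl
  rw [h1]
  have h2 : (u : ZMod a) * (k : ZMod a) = ((u * k : ℤ) : ZMod a) := by push_cast; ring
  have h3 : (v : ZMod b) * (k : ZMod b) = ((v * k : ℤ) : ZMod b) := by push_cast; ring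
  change Pool.Lib.KF.ps (k : ZMod (a * b)) = Pool.Lib.KF.ps ((u : ZMod a) * (k : ZMod a)) *
    Pool.Lib.KF.ps ((v : ZMod b) * (k : ZMod b))
  rw [h2, h3, ← Kl_ee_char, ← Kl_ee_char, ← Kl_ee_char]
  refine Ekl_split a b u v k (Nat.pos_of_ne_zero (NeZero.ne a)) (Nat.pos_of_ne_zero (NeZero.ne b)) ?_
  refine Dvd.dvd.mul_left ?_ k
  have hc : IsCoprime (a : ℤ) (b : ℤ) := Nat.isCoprime_iff_coprime.2 hab
  push_cast
  refine hc.mul_dvd ?_ ?_
  · have : u * b + v * a - 1 = (u * b - 1) + v * a := by ring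
    rw [this]
    exact dvd_add hu (Dvd.intro_left v rfl)
  · have : u * b + v * a - 1 = (v * a - 1) + u * b := by ring
    rw [this]
    exact dvd_add hv (Dvd.intro_left u rfl)

/-- twisted multiplicativity of Kloosterman sums -/
private lemma Ekl_mul (a b : ℕ) (ha : 1 ≤ a) (hb : 1 ≤ b) (hab : a.Coprime b) (c h u v : ℤ)
    (hu : (a : ℤ) ∣ u * b - 1) (hv : (b : ℤ) ∣ v * a - 1) :
    kl c h (a * b) = kl (u * c) (u * h) a * kl (v * c) (v * h) b := by
  have : NeZero a := ⟨by omega⟩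
  have : NeZero b := ⟨by omega⟩
  have : NeZero (a * b) := ⟨Nat.mul_ne_zero (NeZero.ne a) (NeZero.ne b)⟩
  rw [Kl_eq, Kl_eq, Kl_eq]
  unfold Pool.Lib.KF.Kl
  rw [sum_mul_sum, ← Fintype.sum_prod_type']
  refine Fintype.sum_equiv ((Units.mapEquiv (ZMod.chineseRemainder hab).toMulEquiv).trans MulEquiv.prodUnits).toEquiv
    _ _ (fun x => ?_)
  rw [Ekl_ps a b hab u v hu hv]
  have e1 : (ZMod.chineseRemainder hab) ((c : ZMod (a * b)) * Pool.Lib.KF.iv x + (h : ZMod (a * b)) * (x : ZMod (a * b))) =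
      ((c : ZMod a), (c : ZMod b)) * (ZMod.chineseRemainder hab) (Pool.Lib.KF.iv x) +
      ((h : ZMod a), (h : ZMod b)) * (ZMod.chineseRemainder hab) (x : ZMod (a * b)) := by
    rw [map_add, map_mul, map_mul, map_intCast, map_intCast]
    rfl
  rw [e1]
  congr 1
  · congr 1
    push_cast
    change (u : ZMod a) * ((c : ZMod a) * _ + (h : ZMod a) * _) = (u : ZMod a) * (c : ZMod a) * _ + (u : ZMod a) * (h : ZMod a) * _
    rw [mul_add, ← mul_assoc, ← mul_assoc]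
    rfl
  · congr 1
    push_cast
    change (v : ZMod b) * ((c : ZMod b) * _ + (h : ZMod b) * _) = (v : ZMod b) * (c : ZMod b) * _ + (v : ZMod b) * (h : ZMod b) * _
    rw [mul_add, ← mul_assoc, ← mul_assoc]
    rfl

private lemma Ekl_triv (c h : ℤ) (q : ℕ) : ‖kl c h q‖ ≤ q := by
  unfold kl
  refine (norm_sum_le _ _).trans ?_
  rw [sum_congr rfl (fun x _ => norm_ee _), sum_const, nsmul_eq_mul, mul_one]
  have := card_filter_le (range q) (fun x => x.Coprime q)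
  rw [card_range] at this
  exact_mod_cast this

private lemma Ekl_gcd2 (c h : ℤ) (n : ℕ) :
    Int.gcd ((Int.gcd c h : ℕ) : ℤ) (n : ℤ) = Nat.gcd (Nat.gcd c.natAbs h.natAbs) n := by
  rw [Int.gcd_def, Int.natAbs_natCast, Int.natAbs_natCast, Int.gcd_def]

private lemma Ekl_gcd (a : ℕ) (c h u b : ℤ) (hu : (a : ℤ) ∣ u * b - 1) :
    Int.gcd ((Int.gcd (u * c) (u * h) : ℕ) : ℤ) (a : ℤ) = Int.gcd ((Int.gcd c h : ℕ) : ℤ) (a : ℤ) := by
  have h1 : IsCoprime u (a : ℤ) := by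
    obtain ⟨z, hz⟩ := hu
    exact ⟨b, -z, by linear_combination hz⟩
  have h2 : Int.gcd u a = 1 := Int.isCoprime_iff_gcd_eq_one.1 h1
  rw [Int.gcd_def, Int.natAbs_natCast] at h2
  rw [Ekl_gcd2, Ekl_gcd2, Int.natAbs_mul, Int.natAbs_mul, Nat.gcd_mul_left]
  exact Nat.Coprime.gcd_mul_left_cancel _ h2

/-- the case p ∣ c, p ∤ h -/
private lemma Ekl_ram (p : ℕ) (hp : p.Prime) (c h : ℤ) (hc : (p : ℤ) ∣ c) (hh : ¬ (p : ℤ) ∣ h) :
    ‖kl c h p‖ ≤ 1 := by
  unfold kl
  have h1 : ∀ x ∈ (range p).filter (fun x => x.Coprime p),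
      ee (((c : ℝ) * (iv x p : ℝ) + (h : ℝ) * (x : ℝ)) / (p : ℝ)) = ee ((x : ℝ) * ((h : ℝ) / p)) := by
    intro x _
    have e1 : ((c : ℝ) * (iv x p : ℝ) + (h : ℝ) * (x : ℝ)) / (p : ℝ) =
        ((c * (iv x p : ℤ) + h * (x : ℤ) : ℤ) : ℝ) / ((p : ℕ) : ℝ) := by
      push_cast
      ring
    have e2 : (x : ℝ) * ((h : ℝ) / p) = ((h * (x : ℤ) : ℤ) : ℝ) / ((p : ℕ) : ℝ) := by
      push_cast
      ring
    rw [e1, e2]
    refine ee_congr ?_
    have e3 : c * (iv x p : ℤ) + h * (x : ℤ) - h * (x : ℤ) = c * (iv x p : ℤ) := by ring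
    rw [e3]
    exact Dvd.dvd.mul_right hc _
  rw [sum_congr rfl h1]
  have h2 : (range p).filter (fun x => x.Coprime p) = (range p).erase 0 := by
    ext x
    rw [mem_filter, mem_erase, mem_range]
    constructor
    · rintro ⟨hx, hx'⟩
      refine ⟨?_, hx⟩
      rintro rfl
      rw [Nat.coprime_zero_left] at hx'
      exact hp.one_lt.ne' hx'
    · rintro ⟨hx, hx'⟩
      refine ⟨hx', Nat.Coprime.symm ((Nat.Prime.coprime_iff_not_dvd hp).2 fun hd => ?_)⟩
      exact hx (Nat.eq_zero_of_dvd_of_lt hd hx')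
  have h3 := orth hp.pos h
  rw [if_neg hh, ← add_sum_erase _ _ (mem_range.2 hp.pos)] at h3
  rw [h2]
  have h4 : ∑ x ∈ (range p).erase 0, ee ((x : ℝ) * ((h : ℝ) / p)) = - ee (((0 : ℕ) : ℝ) * ((h : ℝ) / p)) := by
    linear_combination h3
  rw [h4, norm_neg, norm_ee]

theorem tEkl (hW : Pool.Agent.Lib.TN.WeilStmt) : EklStmt := by
  intro q
  induction q using Nat.strong_induction_on with
  | _ q ih =>
    intro c h hq hsq
    rcases Nat.lt_or_ge q 2 with hq2 | hq2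
    · have hq1 : q = 1 := by omega
      subst hq1
      have h1 := Ekl_triv c h 1
      rw [Ekl_gcd2, Nat.gcd_one_right]
      simpa using h1
    · set p := q.minFac with hp
      have hpp : p.Prime := Nat.minFac_prime (by omega)
      obtain ⟨m, hm⟩ : p ∣ q := Nat.minFac_dvd q
      have hm1 : 1 ≤ m := by
        rcases Nat.eq_zero_or_pos m with h0 | h0
        · rw [h0] at hm; omega
        · exact h0
      have hpm : p.Coprime m := by
        rw [hm] at hsq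
        exact Nat.coprime_of_squarefree_mul hsq
      have hmsq : Squarefree m := by
        rw [hm] at hsq
        exact hsq.of_mul_right
      have hmq : m < q := by
        rw [hm]
        nlinarith [hpp.two_le]
      have hc : IsCoprime (p : ℤ) (m : ℤ) := Nat.isCoprime_iff_coprime.2 hpm
      obtain ⟨v, u, huv⟩ := hc
      have hu : (p : ℤ) ∣ u * m - 1 := ⟨-v, by linear_combination huv⟩
      have hv : (m : ℤ) ∣ v * p - 1 := ⟨-u, by linear_combination huv⟩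
      have h1 : kl c h q = kl (u * c) (u * h) p * kl (v * c) (v * h) m := by
        rw [hm]
        exact Ekl_mul p m hpp.one_le hm1 hpm c h u v hu hv
      have h2 := ih m hmq (v * c) (v * h) hm1 hmsq
      have g1 := Ekl_gcd p c h u m hu
      have g2 := Ekl_gcd m c h v p hv
      rw [g2] at h2
      have hp0 : (0 : ℝ) < p := by exact_mod_cast hpp.pos
      have hp1 : (1 : ℝ) ≤ p := by exact_mod_cast hpp.one_le
      have hd : (p.divisors.card : ℝ) = 2 := by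
        rw [hpp.divisors, card_pair hpp.one_lt.ne]
        norm_num
      have hgpos : (1 : ℝ) ≤ (Int.gcd ((Int.gcd (u * c) (u * h) : ℕ) : ℤ) (p : ℤ) : ℝ) := by
        have : 0 < Int.gcd ((Int.gcd (u * c) (u * h) : ℕ) : ℤ) (p : ℤ) :=
          Int.gcd_pos_of_ne_zero_right _ (by exact_mod_cast hpp.pos.ne')
        exact_mod_cast this
      have hsqrt : Real.sqrt p ≤
          Real.sqrt ((p : ℝ) * (Int.gcd ((Int.gcd (u * c) (u * h) : ℕ) : ℤ) (p : ℤ) : ℝ)) := by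
        refine Real.sqrt_le_sqrt ?_
        calc (p : ℝ) = p * 1 := by ring
          _ ≤ _ := mul_le_mul_of_nonneg_left hgpos hp0.le
      have h3 : ‖kl (u * c) (u * h) p‖ ≤ (p.divisors.card : ℝ) *
          Real.sqrt ((p : ℝ) * (Int.gcd ((Int.gcd c h : ℕ) : ℤ) (p : ℤ) : ℝ)) := by
        rw [hd, ← g1]
        by_cases hcp : (p : ℤ) ∣ u * c
        · by_cases hhp : (p : ℤ) ∣ u * h
          · have hg : (Int.gcd ((Int.gcd (u * c) (u * h) : ℕ) : ℤ) (p : ℤ) : ℝ) = p := by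
              have h6 : (Int.gcd ((Int.gcd (u * c) (u * h) : ℕ) : ℤ) (p : ℤ) : ℤ) = p :=
                Int.gcd_eq_right (by positivity) (Int.dvd_coe_gcd hcp hhp)
              exact_mod_cast h6
            rw [hg, Real.sqrt_mul_self hp0.le]
            have ht := Ekl_triv (u * c) (u * h) p
            linarith
          · have ht := Ekl_ram p hpp (u * c) (u * h) hcp hhp
            have hs : 1 ≤ Real.sqrt p := Real.one_le_sqrt.2 hp1
            linarith
        · have ht := hW p (u * c) (u * h) hpp hcp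
          linarith
      rw [h1, norm_mul]
      clear_value p
      have e1 : (q.divisors.card : ℝ) = (p.divisors.card : ℝ) * (m.divisors.card : ℝ) := by
        have h8 : q.divisors.card = p.divisors.card * m.divisors.card := by
          rw [hm]; exact hpm.card_divisors_mul
        rw [h8, Nat.cast_mul]
      have e2 : (Int.gcd ((Int.gcd c h : ℕ) : ℤ) (q : ℤ) : ℝ) =
          (Int.gcd ((Int.gcd c h : ℕ) : ℤ) (p : ℤ) : ℝ) * (Int.gcd ((Int.gcd c h : ℕ) : ℤ) (m : ℤ) : ℝ) := by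
        have h9 : Int.gcd ((Int.gcd c h : ℕ) : ℤ) (q : ℤ) =
            Int.gcd ((Int.gcd c h : ℕ) : ℤ) (p : ℤ) * Int.gcd ((Int.gcd c h : ℕ) : ℤ) (m : ℤ) := by
          rw [Ekl_gcd2, Ekl_gcd2, Ekl_gcd2, hm]
          exact hpm.gcd_mul _
        rw [h9, Nat.cast_mul]
      have e3 : (q : ℝ) = (p : ℝ) * m := by
        have h7 : (q : ℝ) = ((p * m : ℕ) : ℝ) := congrArg _ hm
        rw [h7, Nat.cast_mul]
      have e4 : Real.sqrt ((q : ℝ) * (Int.gcd ((Int.gcd c h : ℕ) : ℤ) (q : ℤ) : ℝ)) =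
          Real.sqrt ((p : ℝ) * (Int.gcd ((Int.gcd c h : ℕ) : ℤ) (p : ℤ) : ℝ)) *
          Real.sqrt ((m : ℝ) * (Int.gcd ((Int.gcd c h : ℕ) : ℤ) (m : ℤ) : ℝ)) := by
        rw [← Real.sqrt_mul (by positivity), e2, e3]
        congr 1
        ring
      rw [e1, e4]
      calc ‖kl (u * c) (u * h) p‖ * ‖kl (v * c) (v * h) m‖
          ≤ ((p.divisors.card : ℝ) * Real.sqrt ((p : ℝ) * (Int.gcd ((Int.gcd c h : ℕ) : ℤ) (p : ℤ) : ℝ))) *
            ((m.divisors.card : ℝ) * Real.sqrt ((m : ℝ) * (Int.gcd ((Int.gcd c h : ℕ) : ℤ) (m : ℤ) : ℝ))) :=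
            mul_le_mul h3 h2 (norm_nonneg _) ((norm_nonneg _).trans h3)
        _ = _ := by ring

end Pool.Agent.Lib.SL
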