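import Pool.Agent.Lib.SL.AllEs
import Pool.Agent.Lib.SL.Ekl
import Pool.Agent.Lib.SL.Ekh
import Pool.Agent.Lib.SL.Ekf
import Pool.Agent.Lib.TN.AllW

/-!
MP_00e23e_nt, project SL, chapter E: completion in two variables, Kloosterman case (EkStmt), without hypotheses.
-/

namespace Pool.Agent.Lib.SL

/-- completion in two variables over a lattice, Kloosterman case -/
theorem aEk : EkStmt := tEkf aEs (tEkh (tEkl TN.tWeil))

end Pool.Agent.Lib.SL
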