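import Pool.Agent.Lib.SL.SpecE

/-!
MP_00e23e_nt, project SL, module Ecw: completion in two variables.
-/

namespace Pool.Agent.Lib.SL

open Finset Pool.Agent.Lib.EH3 Pool.Agent.Lib.TB Pool.Agent.Results.MP_00e23e_nt Pool.Agent.Lib.MI

private theorem Ecw_nonneg (N K : ℕ) (j : ℤ) : 0 ≤ wE N K j := by
  unfold wE
  split
  · positivity
  · exact le_min (by positivity) (by positivity)

/-- Module Ecw. -/
theorem tEcw (h1 : EcmStmt) : EcwStmt := by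
  intro F q1 q2 N N1 N2 N3 N4 hq1 hq2 h12 h12' h34 h34' hF1 hF2
  have a1 := h1 (fun n1 => ∑ n2 ∈ Ioc N3 N4, F n1 n2) q1 N N1 N2 hq1 h12 h12'
    (fun n => Finset.sum_congr rfl fun n2 _ => hF1 n n2)
  refine a1.trans (Finset.sum_le_sum fun j1 _ => ?_)
  have e1 : hE (fun n1 => ∑ n2 ∈ Ioc N3 N4, F n1 n2) q1 j1 =
      ∑ n2 ∈ Ioc N3 N4, ∑ n1 ∈ range q1, F n1 n2 * en (j1 * n1) q1 := by
    unfold hE
    rw [Finset.sum_comm]
    exact Finset.sum_congr rfl fun n1 _ => Finset.sum_mul _ _ _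
  have a2 := h1 (fun n2 => ∑ n1 ∈ range q1, F n1 n2 * en (j1 * n1) q1) q2 N N3 N4 hq2 h34 h34'
    (fun n => Finset.sum_congr rfl fun n1 _ => by rw [hF2 n1 n])
  have e2 : ∀ j2 : ℤ, hE (fun n2 => ∑ n1 ∈ range q1, F n1 n2 * en (j1 * n1) q1) q2 j2 =
      ∑ n1 ∈ range q1, ∑ n2 ∈ range q2, F n1 n2 * (en (j1 * n1) q1 * en (j2 * n2) q2) := by
    intro j2
    unfold hE
    rw [Finset.sum_comm]
    refine Finset.sum_congr rfl fun n2 _ => ?_
    rw [Finset.sum_mul]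
    exact Finset.sum_congr rfl fun n1 _ => by ring
  rw [e1]
  refine (mul_le_mul_of_nonneg_left a2 (Ecw_nonneg N q1 j1)).trans (le_of_eq ?_)
  rw [Finset.mul_sum]
  refine Finset.sum_congr rfl fun j2 _ => ?_
  rw [e2 j2]
  ring

end Pool.Agent.Lib.SL
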