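import Pool.Agent.Lib.SL.SpecE

/-!
MP_00e23e_nt, project SL: module Edd, the double sum over the lattice f ∣ a1 - κ a2.
-/

set_option autoImplicit false

namespace Pool.Agent.Lib.SL

open Finset Pool.Agent.Lib.EH3 Pool.Agent.Lib.TB Pool.Agent.Results.MP_00e23e_nt Pool.Agent.Lib.MI

private lemma Edd_nonneg (N K : ℕ) (j : ℤ) : 0 ≤ wE N K j := by
  unfold wE
  split_ifs
  · positivity
  · positivity

private lemma Edd_plus (f : ℕ) (hf : 1 ≤ f) (g : ℤ → ℝ) :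
    ∑ c ∈ range f, g (if c = 0 then (f : ℤ) else (c : ℤ)) = ∑ a ∈ Icc 1 f, g (a : ℤ) := by
  refine Finset.sum_nbij' (fun c => if c = 0 then f else c) (fun a => if a = f then 0 else a)
    ?_ ?_ ?_ ?_ ?_
  · intro c hc
    simp only [mem_range] at hc
    simp only [mem_Icc]
    split_ifs <;> omega
  · intro a ha
    simp only [mem_Icc] at ha
    simp only [mem_range]
    split_ifs <;> omega
  · intro c hc
    simp only [mem_range] at hc
    by_cases h0 : c = 0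
    · simp [h0]
    · simp only [h0, if_false]
      rw [if_neg (by omega)]
  · intro a ha
    simp only [mem_Icc] at ha
    by_cases h0 : a = f
    · simp [h0]
    · simp only [h0, if_false]
      rw [if_neg (by omega)]
  · intro c hc
    by_cases h0 : c = 0
    · simp [h0]
    · simp [h0]

private lemma Edd_minus (f : ℕ) (g : ℤ → ℝ) :
    ∑ c ∈ range f, g ((f : ℤ) - c) = ∑ a ∈ Icc 1 f, g (a : ℤ) := by
  refine Finset.sum_nbij' (fun c => f - c) (fun a => f - a) ?_ ?_ ?_ ?_ ?_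
  · intro c hc
    simp only [mem_range] at hc
    simp only [mem_Icc]
    omega
  · intro a ha
    simp only [mem_Icc] at ha
    simp only [mem_range]
    omega
  · intro c hc
    simp only [mem_range] at hc
    show f - (f - c) = c
    omega
  · intro a ha
    simp only [mem_Icc] at ha
    show f - (f - a) = a
    omega
  · intro c hc
    simp only [mem_range] at hc
    rw [Nat.cast_sub hc.le]

/-- the two large weights in the class c -/
private noncomputable def Edd_p (N K e f c : ℕ) : ℝ :=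
  wE N K ((e : ℤ) * (if c = 0 then (f : ℤ) else (c : ℤ))) + wE N K ((e : ℤ) * ((f : ℤ) - c))

private lemma Edd_p_nonneg (N K e f c : ℕ) : 0 ≤ Edd_p N K e f c :=
  add_nonneg (Edd_nonneg _ _ _) (Edd_nonneg _ _ _)

private lemma Edd_log {X T : ℝ} (hT : Tau X T) {J : ℕ} (hJ : (J : ℝ) ≤ X) : 1 + Real.log J ≤ T := by
  rcases Nat.eq_zero_or_pos J with h0 | h0
  · rw [h0, Nat.cast_zero, Real.log_zero, add_zero]
    exact hT.1
  · have h1 : (0 : ℝ) < J := by exact_mod_cast h0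
    have h2 := Real.log_le_log h1 hJ
    linarith [hT.2.1]

private lemma Edd_sum (h1 : EwaStmt) {X T : ℝ} (hT : Tau X T) (N K e f : ℕ) (hK : 1 ≤ K) (he : 1 ≤ e)
    (hf : 1 ≤ f) (hfX : (f : ℝ) ≤ X) : ∑ c ∈ range f, Edd_p N K e f c ≤ T / e := by
  have h3 := (h1 N K e f hK he hf).1
  have h4 := Edd_plus f hf (fun a => wE N K ((e : ℤ) * a))
  have h5 := Edd_minus f (fun a => wE N K ((e : ℤ) * a))
  have he' : (0 : ℝ) < e := by exact_mod_cast he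
  unfold Edd_p
  rw [sum_add_distrib, h4, h5]
  have h6 := Edd_log hT hfX
  have h7 : (1 + Real.log f) / (2 * (e : ℝ)) ≤ T / (2 * e) := by
    gcongr
  have h8 : T / (2 * (e : ℝ)) + T / (2 * e) = T / e := by
    field_simp
    ring
  linarith

private lemma Edd_sq (h1 : EwaStmt) {X T : ℝ} (hT : Tau X T) (N K e f : ℕ) (hK : 1 ≤ K) (he : 1 ≤ e)
    (hf : 1 ≤ f) (hfX : (f : ℝ) ≤ X) :
    ∑ c ∈ range f, Edd_p N K e f c ^ 2 ≤ 2 * T * ((N : ℝ) / (K * e)) := by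
  have h3 := (h1 N K e f hK he hf).2
  have h4 := Edd_plus f hf (fun a => wE N K ((e : ℤ) * a) ^ 2)
  have h5 := Edd_minus f (fun a => wE N K ((e : ℤ) * a) ^ 2)
  have he' : (0 : ℝ) < e := by exact_mod_cast he
  have hK' : (0 : ℝ) < K := by exact_mod_cast hK
  have h6 := Edd_log hT hfX
  have h9 : ∑ c ∈ range f, Edd_p N K e f c ^ 2 ≤ ∑ c ∈ range f,
      2 * (wE N K ((e : ℤ) * (if c = 0 then (f : ℤ) else (c : ℤ))) ^ 2 +
        wE N K ((e : ℤ) * ((f : ℤ) - c)) ^ 2) := by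
    refine sum_le_sum fun c _ => ?_
    unfold Edd_p
    nlinarith [sq_nonneg (wE N K ((e : ℤ) * (if c = 0 then (f : ℤ) else (c : ℤ))) -
      wE N K ((e : ℤ) * ((f : ℤ) - c)))]
  rw [← mul_sum, sum_add_distrib, h4, h5] at h9
  have h7 : (N : ℝ) / K * ((1 + Real.log f) / (2 * (e : ℝ))) ≤ (N : ℝ) / K * (T / (2 * e)) := by
    gcongr
  have h8 : (N : ℝ) / K * (T / (2 * e)) * 4 = 2 * T * ((N : ℝ) / (K * e)) := by
    field_simp
    ring
  linarith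

private lemma Edd_G (h2 : EwbStmt) {X T : ℝ} (hT : Tau X T) (N K e f J c : ℕ) (hK : 1 ≤ K)
    (he : 1 ≤ e) (hf : 1 ≤ f) (hJ : (J : ℝ) ≤ X) (hc : c < f) :
    ∑ a ∈ (Icc (-(J : ℤ)) (J : ℤ)).filter (fun a => a ≠ 0 ∧ (f : ℤ) ∣ a - c), wE N K ((e : ℤ) * a) ≤
      Edd_p N K e f c + T / ((e : ℝ) * f) := by
  have h3 := h2 N K e f J c hK he hf hc
  have he' : (0 : ℝ) < e := by exact_mod_cast he
  have hf' : (0 : ℝ) < f := by exact_mod_cast hf
  have h6 := Edd_log hT hJ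
  have h7 : (1 + Real.log J) / ((e : ℝ) * f) ≤ T / ((e : ℝ) * f) := by
    gcongr
  unfold Edd_p
  linarith

/-- multiplication by κ on the residues -/
private def Edd_s (f : ℕ) (κ : ℤ) (c : ℕ) : ℕ := (κ * c % f).toNat

private lemma Edd_s_cast (f : ℕ) (hf : 1 ≤ f) (κ : ℤ) (c : ℕ) : (Edd_s f κ c : ℤ) = κ * c % f := by
  unfold Edd_s
  exact Int.toNat_of_nonneg (Int.emod_nonneg _ (by omega))

private lemma Edd_s_lt (f : ℕ) (hf : 1 ≤ f) (κ : ℤ) (c : ℕ) : Edd_s f κ c < f := by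
  have h : (Edd_s f κ c : ℤ) < f := by
    rw [Edd_s_cast f hf]
    exact Int.emod_lt_of_pos _ (by omega)
  exact_mod_cast h

private lemma Edd_s_dvd (f : ℕ) (hf : 1 ≤ f) (κ : ℤ) (c : ℕ) : (f : ℤ) ∣ κ * c - Edd_s f κ c := by
  rw [Edd_s_cast f hf]
  exact Int.dvd_self_sub_emod

private lemma Edd_sum_s (f : ℕ) (hf : 1 ≤ f) (κ : ℤ) (hκ : Int.gcd κ f = 1) (h : ℕ → ℝ) :
    ∑ c ∈ range f, h (Edd_s f κ c) = ∑ c ∈ range f, h c := by
  have hinj : Set.InjOn (Edd_s f κ) (range f : Set ℕ) := by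
    intro c hc c' hc' hcc
    have hc1 : c < f := by simpa using hc
    have hc2 : c' < f := by simpa using hc'
    have h3 := Edd_s_dvd f hf κ c
    have h4 := Edd_s_dvd f hf κ c'
    rw [hcc] at h3
    have h5 : (f : ℤ) ∣ κ * ((c : ℤ) - c') := by
      have h6 := dvd_sub h3 h4
      have h7 : κ * (c : ℤ) - Edd_s f κ c' - (κ * (c' : ℤ) - Edd_s f κ c') = κ * ((c : ℤ) - c') := by
        ring
      rwa [h7] at h6
    have hco : IsCoprime (f : ℤ) κ := (Int.isCoprime_iff_gcd_eq_one.2 hκ).symm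
    have h8 : (f : ℤ) ∣ (c : ℤ) - c' := hco.dvd_of_dvd_mul_left h5
    have h9 := Int.eq_zero_of_abs_lt_dvd h8 (by rw [abs_lt]; constructor <;> omega)
    omega
  have himg : (range f).image (Edd_s f κ) = range f := by
    refine Finset.eq_of_subset_of_card_le ?_ ?_
    · intro x hx
      obtain ⟨c, _, rfl⟩ := mem_image.1 hx
      exact mem_range.2 (Edd_s_lt f hf κ c)
    · rw [card_image_of_injOn hinj]
  conv_rhs => rw [← himg]
  rw [sum_image hinj]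

private lemma Edd_lhs (N K1 K2 e1 e2 f J1 J2 : ℕ) (κ : ℤ) (hf : 1 ≤ f) :
    ∑ a1 ∈ (Icc (-(J1 : ℤ)) (J1 : ℤ)).filter (fun a => a ≠ 0),
      ∑ a2 ∈ (Icc (-(J2 : ℤ)) (J2 : ℤ)).filter (fun a => a ≠ 0),
      (if (f : ℤ) ∣ a1 - κ * a2 then wE N K1 ((e1 : ℤ) * a1) * wE N K2 ((e2 : ℤ) * a2) else 0) ≤
    ∑ c ∈ range f, (∑ a ∈ (Icc (-(J1 : ℤ)) (J1 : ℤ)).filter
        (fun a => a ≠ 0 ∧ (f : ℤ) ∣ a - (Edd_s f κ c : ℕ)), wE N K1 ((e1 : ℤ) * a)) *
      ∑ a ∈ (Icc (-(J2 : ℤ)) (J2 : ℤ)).filter (fun a => a ≠ 0 ∧ (f : ℤ) ∣ a - c),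
        wE N K2 ((e2 : ℤ) * a) := by
  have h1 : ∀ (J : ℕ) (K e c : ℕ), ∑ a ∈ (Icc (-(J : ℤ)) (J : ℤ)).filter
      (fun a => a ≠ 0 ∧ (f : ℤ) ∣ a - c), wE N K ((e : ℤ) * a) =
      ∑ a ∈ (Icc (-(J : ℤ)) (J : ℤ)).filter (fun a => a ≠ 0),
        if (f : ℤ) ∣ a - c then wE N K ((e : ℤ) * a) else 0 := by
    intro J K e c
    rw [← filter_filter, sum_filter (fun a => (f : ℤ) ∣ a - c)]
  simp only [h1]
  simp only [sum_mul_sum]
  refine le_trans ?_ (le_of_eq sum_comm)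
  refine sum_le_sum fun a1 _ => ?_
  refine le_trans ?_ (le_of_eq sum_comm)
  refine sum_le_sum fun a2 _ => ?_
  have hnn : ∀ c ∈ range f, 0 ≤ (if (f : ℤ) ∣ a1 - (Edd_s f κ c : ℕ) then wE N K1 ((e1 : ℤ) * a1) else 0) *
      (if (f : ℤ) ∣ a2 - c then wE N K2 ((e2 : ℤ) * a2) else 0) := by
    intro c _
    refine mul_nonneg ?_ ?_
    · split_ifs
      · exact Edd_nonneg _ _ _
      · exact le_rfl
    · split_ifs
      · exact Edd_nonneg _ _ _
      · exact le_rfl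
  split_ifs with h
  · have hc0 : (((a2 % f).toNat : ℕ) : ℤ) = a2 % f :=
      Int.toNat_of_nonneg (Int.emod_nonneg _ (by omega))
    have hc1 : (a2 % f).toNat ∈ range f := by
      rw [mem_range]
      have h3 : (((a2 % f).toNat : ℕ) : ℤ) < f := by
        rw [hc0]
        exact Int.emod_lt_of_pos _ (by omega)
      exact_mod_cast h3
    refine le_trans ?_ (single_le_sum hnn hc1)
    have h3 : (f : ℤ) ∣ a2 - ((a2 % f).toNat : ℕ) := by
      rw [hc0]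
      exact Int.dvd_self_sub_emod
    have h4 : (f : ℤ) ∣ a1 - (Edd_s f κ (a2 % f).toNat : ℕ) := by
      have h5 := Edd_s_dvd f hf κ (a2 % f).toNat
      have h6 := dvd_add (dvd_add h (Dvd.dvd.mul_left h3 κ)) h5
      have h7 : a1 - κ * a2 + κ * (a2 - ((a2 % f).toNat : ℕ)) +
          (κ * ((a2 % f).toNat : ℕ) - (Edd_s f κ (a2 % f).toNat : ℕ)) =
          a1 - (Edd_s f κ (a2 % f).toNat : ℕ) := by ring
      rwa [h7] at h6
    rw [if_pos h3, if_pos h4]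
  · exact sum_nonneg hnn

theorem tEdd (h1 : EwaStmt) (h2 : EwbStmt) : EddStmt := by
  intro X T N K1 K2 e1 e2 f J1 J2 κ hT hN hK1 hK2 he1 he2 hf hfX hJ1 hJ2 hκ
  refine (Edd_lhs N K1 K2 e1 e2 f J1 J2 κ hf).trans ?_
  have he1' : (0 : ℝ) < e1 := by exact_mod_cast he1
  have he2' : (0 : ℝ) < e2 := by exact_mod_cast he2
  have hf' : (0 : ℝ) < f := by exact_mod_cast hf
  have hK1' : (0 : ℝ) < K1 := by exact_mod_cast hK1
  have hK2' : (0 : ℝ) < K2 := by exact_mod_cast hK2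
  have hN' : (0 : ℝ) < N := by exact_mod_cast hN
  have hT0 : (0 : ℝ) < T := lt_of_lt_of_le one_pos hT.1
  obtain ⟨R1, hR1⟩ : ∃ R : ℝ, R = T / ((e1 : ℝ) * f) := ⟨_, rfl⟩
  obtain ⟨R2, hR2⟩ : ∃ R : ℝ, R = T / ((e2 : ℝ) * f) := ⟨_, rfl⟩
  have hR1n : 0 ≤ R1 := by rw [hR1]; positivity
  have hR2n : 0 ≤ R2 := by rw [hR2]; positivity
  have h3 : ∑ c ∈ range f, (∑ a ∈ (Icc (-(J1 : ℤ)) (J1 : ℤ)).filter
        (fun a => a ≠ 0 ∧ (f : ℤ) ∣ a - (Edd_s f κ c : ℕ)), wE N K1 ((e1 : ℤ) * a)) *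
      ∑ a ∈ (Icc (-(J2 : ℤ)) (J2 : ℤ)).filter (fun a => a ≠ 0 ∧ (f : ℤ) ∣ a - c),
        wE N K2 ((e2 : ℤ) * a) ≤
      ∑ c ∈ range f, (Edd_p N K1 e1 f (Edd_s f κ c) + R1) * (Edd_p N K2 e2 f c + R2) := by
    refine sum_le_sum fun c hc => ?_
    rw [hR1, hR2]
    refine mul_le_mul (Edd_G h2 hT N K1 e1 f J1 _ hK1 he1 hf hJ1 (Edd_s_lt f hf κ c))
      (Edd_G h2 hT N K2 e2 f J2 c hK2 he2 hf hJ2 (mem_range.1 hc))
      (sum_nonneg fun _ _ => Edd_nonneg _ _ _) ?_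
    exact add_nonneg (Edd_p_nonneg _ _ _ _ _) (by positivity)
  refine h3.trans ?_
  have h4 : ∑ c ∈ range f, (Edd_p N K1 e1 f (Edd_s f κ c) + R1) * (Edd_p N K2 e2 f c + R2) =
      ∑ c ∈ range f, Edd_p N K1 e1 f (Edd_s f κ c) * Edd_p N K2 e2 f c +
        R1 * ∑ c ∈ range f, Edd_p N K2 e2 f c + R2 * ∑ c ∈ range f, Edd_p N K1 e1 f c +
        f * (R1 * R2) := by
    rw [← Edd_sum_s f hf κ hκ (fun c => Edd_p N K1 e1 f c), mul_sum, mul_sum]
    have h5 : (f : ℝ) * (R1 * R2) = ∑ _c ∈ range f, R1 * R2 := by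
      rw [sum_const, card_range, nsmul_eq_mul]
    rw [h5, ← sum_add_distrib, ← sum_add_distrib, ← sum_add_distrib]
    refine sum_congr rfl fun c _ => ?_
    ring
  rw [h4]
  have h6 := Edd_sum h1 hT N K1 e1 f hK1 he1 hf hfX
  have h7 := Edd_sum h1 hT N K2 e2 f hK2 he2 hf hfX
  have h8 := Edd_sq h1 hT N K1 e1 f hK1 he1 hf hfX
  have h9 := Edd_sq h1 hT N K2 e2 f hK2 he2 hf hfX
  rw [← Edd_sum_s f hf κ hκ (fun c => Edd_p N K1 e1 f c ^ 2)] at h8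
  have h10 : ∑ c ∈ range f, Edd_p N K1 e1 f (Edd_s f κ c) * Edd_p N K2 e2 f c ≤
      2 * T * ((N : ℝ) / Real.sqrt ((K1 : ℝ) * K2 * ((e1 : ℝ) * e2))) := by
    have h11 := Finset.sum_mul_sq_le_sq_mul_sq (range f)
      (fun c => Edd_p N K1 e1 f (Edd_s f κ c)) (fun c => Edd_p N K2 e2 f c)
    have h12 : (∑ c ∈ range f, Edd_p N K1 e1 f (Edd_s f κ c) * Edd_p N K2 e2 f c) ^ 2 ≤
        (2 * T * ((N : ℝ) / (K1 * e1))) * (2 * T * ((N : ℝ) / (K2 * e2))) := by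
      refine h11.trans (mul_le_mul h8 h9 (sum_nonneg fun _ _ => sq_nonneg _) (by positivity))
    refine le_of_abs_le (abs_le_of_sq_le_sq ?_ (by positivity))
    refine h12.trans (le_of_eq ?_)
    rw [mul_pow, div_pow, Real.sq_sqrt (by positivity)]
    field_simp
  have h13 : R1 * ∑ c ∈ range f, Edd_p N K2 e2 f c ≤ T ^ 2 / ((e1 : ℝ) * e2 * f) := by
    refine (mul_le_mul_of_nonneg_left h7 hR1n).trans (le_of_eq ?_)
    rw [hR1]
    field_simp
  have h14 : R2 * ∑ c ∈ range f, Edd_p N K1 e1 f c ≤ T ^ 2 / ((e1 : ℝ) * e2 * f) := by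
    refine (mul_le_mul_of_nonneg_left h6 hR2n).trans (le_of_eq ?_)
    rw [hR2]
    field_simp
  have h15 : (f : ℝ) * (R1 * R2) = T ^ 2 / ((e1 : ℝ) * e2 * f) := by
    rw [hR1, hR2]
    field_simp
  have h16 : 3 * T ^ 2 / ((e1 : ℝ) * e2 * f) = T ^ 2 / ((e1 : ℝ) * e2 * f) +
      T ^ 2 / ((e1 : ℝ) * e2 * f) + T ^ 2 / ((e1 : ℝ) * e2 * f) := by ring
  rw [h15, h16]
  linarith

end Pool.Agent.Lib.SL
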