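import Pool.Agent.Lib.SL.SpecE

/-!
MP_00e23e_nt, project SL, chapter E, module Ede: the frequencies divisible by e1, e2 with f ∣ β.
-/

set_option autoImplicit false

namespace Pool.Agent.Lib.SL

open Finset Pool.Agent.Lib.EH3 Pool.Agent.Lib.TB Pool.Agent.Results.MP_00e23e_nt Pool.Agent.Lib.MI

private lemma Ede_wE_nonneg (N K : ℕ) (j : ℤ) : 0 ≤ wE N K j := by
  unfold wE
  split_ifs
  · positivity
  · exact le_min (by positivity) (by positivity)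

private lemma Ede_mult (J e : ℕ) (he : 1 ≤ e) (F : ℤ → ℝ) (hF : ∀ j, 0 ≤ F j) :
    ∑ j ∈ (Icc (-(J : ℤ)) (J : ℤ)).filter (fun a => a ≠ 0), (if (e : ℤ) ∣ j then F j else 0) ≤
      ∑ a ∈ (Icc (-(J : ℤ)) (J : ℤ)).filter (fun a => a ≠ 0), F ((e : ℤ) * a) := by
  have he0 : (e : ℤ) ≠ 0 := by positivity
  have he1 : (1 : ℤ) ≤ e := by exact_mod_cast he
  rw [← sum_filter]
  have h1 : ∑ j ∈ ((Icc (-(J : ℤ)) (J : ℤ)).filter (fun a => a ≠ 0)).filter (fun j => (e : ℤ) ∣ j), F j =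
      ∑ a ∈ (((Icc (-(J : ℤ)) (J : ℤ)).filter (fun a => a ≠ 0)).filter
        (fun j => (e : ℤ) ∣ j)).image (fun j => j / (e : ℤ)), F ((e : ℤ) * a) := by
    rw [sum_image]
    · refine sum_congr rfl fun j hj => ?_
      rw [mem_filter] at hj
      rw [Int.mul_ediv_cancel' hj.2]
    · intro j hj j' hj' h
      rw [mem_coe, mem_filter] at hj hj'
      have h2 : j / (e : ℤ) = j' / (e : ℤ) := h
      rw [← Int.mul_ediv_cancel' hj.2, ← Int.mul_ediv_cancel' hj'.2, h2]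
  rw [h1]
  refine sum_le_sum_of_subset_of_nonneg ?_ fun _ _ _ => hF _
  intro a ha
  rw [mem_image] at ha
  obtain ⟨j, hj, rfl⟩ := ha
  rw [mem_filter, mem_filter, mem_Icc] at hj
  obtain ⟨⟨⟨ha, hb⟩, h0⟩, c, hc⟩ := hj
  subst hc
  rw [Int.mul_ediv_cancel_left _ he0, mem_filter, mem_Icc]
  have hc0 : c ≠ 0 := by
    rintro rfl
    simp at h0
  refine ⟨⟨?_, ?_⟩, hc0⟩
  · by_contra hlt
    push Not at hlt
    have hneg : c < 0 := by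
      have : (0 : ℤ) ≤ J := by positivity
      linarith
    nlinarith
  · by_contra hlt
    push Not at hlt
    have hpos : 0 < c := by
      have : (0 : ℤ) ≤ J := by positivity
      linarith
    nlinarith

theorem tEde (h1 : EddStmt) : EdeStmt := by
  intro X T N K1 K2 e1 e2 f W1 W2 J1 J2 l1 l2 hT hN hK1 hK2 hW1 hW2 he1 he2 hf hfX hJ1 hJ2 hfW1 hfW2
    hl1 hl2
  have h1e1 : 1 ≤ e1 := Nat.pos_of_dvd_of_pos he1 hW1
  have h1e2 : 1 ≤ e2 := Nat.pos_of_dvd_of_pos he2 hW2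
  have cW1 : IsCoprime (W1 : ℤ) (f : ℤ) := (Nat.isCoprime_iff_coprime.2 hfW1).symm
  have cW2 : IsCoprime (W2 : ℤ) (f : ℤ) := (Nat.isCoprime_iff_coprime.2 hfW2).symm
  have ce1 : IsCoprime (e1 : ℤ) (f : ℤ) :=
    (Nat.isCoprime_iff_coprime.2 (Nat.Coprime.coprime_dvd_right he1 hfW1)).symm
  have ce2 : IsCoprime (e2 : ℤ) (f : ℤ) :=
    (Nat.isCoprime_iff_coprime.2 (Nat.Coprime.coprime_dvd_right he2 hfW2)).symm
  have cl1 : IsCoprime l1 (f : ℤ) := Int.isCoprime_iff_gcd_eq_one.2 hl1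
  have cl2 : IsCoprime l2 (f : ℤ) := Int.isCoprime_iff_gcd_eq_one.2 hl2
  obtain ⟨u, hu⟩ : ∃ u : ℤ, u = (e1 : ℤ) * (W2 * l2) := ⟨_, rfl⟩
  obtain ⟨v, hv⟩ : ∃ v : ℤ, v = (e2 : ℤ) * (W1 * l1) := ⟨_, rfl⟩
  have cu : IsCoprime u (f : ℤ) := by
    rw [hu]
    exact ce1.mul_left (cW2.mul_left cl2)
  have cv : IsCoprime v (f : ℤ) := by
    rw [hv]
    exact ce2.mul_left (cW1.mul_left cl1)
  obtain ⟨a, b, hab⟩ := cu
  have ca : IsCoprime a (f : ℤ) := ⟨u, b, by linarith [mul_comm a u]⟩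
  have hκ : Int.gcd (-(v * a)) f = 1 := Int.isCoprime_iff_gcd_eq_one.1 (cv.mul_left ca).neg_left
  have key : ∀ a1 a2 : ℤ, (f : ℤ) ∣ bE l1 l2 W1 W2 ((e1 : ℤ) * a1) ((e2 : ℤ) * a2) ↔
      (f : ℤ) ∣ a1 - (-(v * a)) * a2 := by
    intro a1 a2
    have e3 : bE l1 l2 W1 W2 ((e1 : ℤ) * a1) ((e2 : ℤ) * a2) = a1 * u + a2 * v := by
      rw [hu, hv]
      unfold bE
      ring
    rw [e3]
    constructor
    · rintro ⟨c, hc⟩
      refine ⟨a * c + a1 * b, ?_⟩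
      linear_combination a * hc - a1 * hab
    · rintro ⟨c, hc⟩
      refine ⟨u * c + a2 * v * b, ?_⟩
      linear_combination u * hc - a2 * v * hab
  refine le_trans ?_ (h1 X T N K1 K2 e1 e2 f J1 J2 (-(v * a)) hT hN hK1 hK2 h1e1 h1e2 hf hfX hJ1 hJ2 hκ)
  -- first variable
  have e4 : ∀ j1 j2 : ℤ, (if (e1 : ℤ) ∣ j1 ∧ (e2 : ℤ) ∣ j2 ∧ (f : ℤ) ∣ bE l1 l2 W1 W2 j1 j2 then
      wE N K1 j1 * wE N K2 j2 else 0) = (if (e1 : ℤ) ∣ j1 then (if (e2 : ℤ) ∣ j2 then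
        (if (f : ℤ) ∣ bE l1 l2 W1 W2 j1 j2 then wE N K1 j1 * wE N K2 j2 else 0) else 0) else 0) := by
    intro j1 j2
    by_cases hA : (e1 : ℤ) ∣ j1 <;> by_cases hB : (e2 : ℤ) ∣ j2 <;>
      by_cases hC : (f : ℤ) ∣ bE l1 l2 W1 W2 j1 j2 <;> simp [hA, hB, hC]
  have e5 : ∑ j1 ∈ (Icc (-(J1 : ℤ)) (J1 : ℤ)).filter (fun a => a ≠ 0),
      ∑ j2 ∈ (Icc (-(J2 : ℤ)) (J2 : ℤ)).filter (fun a => a ≠ 0),
      (if (e1 : ℤ) ∣ j1 ∧ (e2 : ℤ) ∣ j2 ∧ (f : ℤ) ∣ bE l1 l2 W1 W2 j1 j2 then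
        wE N K1 j1 * wE N K2 j2 else 0) =
      ∑ j1 ∈ (Icc (-(J1 : ℤ)) (J1 : ℤ)).filter (fun a => a ≠ 0), (if (e1 : ℤ) ∣ j1 then
        ∑ j2 ∈ (Icc (-(J2 : ℤ)) (J2 : ℤ)).filter (fun a => a ≠ 0), (if (e2 : ℤ) ∣ j2 then
        (if (f : ℤ) ∣ bE l1 l2 W1 W2 j1 j2 then wE N K1 j1 * wE N K2 j2 else 0) else 0) else 0) := by
    refine sum_congr rfl fun j1 _ => ?_
    simp_rw [e4]
    split_ifs
    · rfl
    · exact sum_const_zero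
  have hnn : ∀ j1 j2 : ℤ, 0 ≤ (if (f : ℤ) ∣ bE l1 l2 W1 W2 j1 j2 then wE N K1 j1 * wE N K2 j2 else 0) := by
    intro j1 j2
    split_ifs
    · exact mul_nonneg (Ede_wE_nonneg _ _ _) (Ede_wE_nonneg _ _ _)
    · exact le_refl 0
  rw [e5]
  refine (Ede_mult J1 e1 h1e1 (fun j1 => ∑ j2 ∈ (Icc (-(J2 : ℤ)) (J2 : ℤ)).filter (fun a => a ≠ 0),
    (if (e2 : ℤ) ∣ j2 then
      (if (f : ℤ) ∣ bE l1 l2 W1 W2 j1 j2 then wE N K1 j1 * wE N K2 j2 else 0) else 0)) ?_).trans ?_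
  · intro j1
    refine sum_nonneg fun j2 _ => ?_
    split_ifs
    · exact mul_nonneg (Ede_wE_nonneg _ _ _) (Ede_wE_nonneg _ _ _)
    · exact le_refl 0
    · exact le_refl 0
  refine sum_le_sum fun a1 _ => ?_
  refine (Ede_mult J2 e2 h1e2 (fun j2 => (if (f : ℤ) ∣ bE l1 l2 W1 W2 ((e1 : ℤ) * a1) j2 then
    wE N K1 ((e1 : ℤ) * a1) * wE N K2 j2 else 0)) (fun j2 => hnn _ _)).trans (le_of_eq ?_)
  refine sum_congr rfl fun a2 _ => ?_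
  by_cases hC : (f : ℤ) ∣ a1 - (-(v * a)) * a2
  · rw [if_pos hC, if_pos ((key a1 a2).2 hC)]
  · rw [if_neg hC, if_neg (fun h => hC ((key a1 a2).1 h))]

end Pool.Agent.Lib.SL
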