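import Pool.Agent.Lib.SL.SpecE

/-!
MP_00e23e_nt, project SL, module Efh (helper14): the bound of the complete sums.
-/

namespace Pool.Agent.Lib.SL

open Finset Pool.Agent.Lib.EH3 Pool.Agent.Lib.TB Pool.Agent.Results.MP_00e23e_nt Pool.Agent.Lib.MI

private lemma Efh_inner (hSn : EsnStmt) (k1 k2 k3 W1 W2 n1 : ℕ) (l1 l2 l2' j1 j2 : ℤ)
    (Φ1 Φ2 : ℕ → ℂ) (hk : 1 ≤ k1 * k2 * k3) (hW1 : 1 ≤ W1) (hW2 : 1 ≤ W2)
    (hc : (k1 * k2 * k3).Coprime W2) (hl : ((k1 * k2 * k3 : ℕ) : ℤ) ∣ l2 * l2' - 1)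
    (hΦ : ∀ n, Φ2 (n + W2) = Φ2 n) :
    ∑ n2 ∈ range (k1 * k2 * k3 * W2), fE k1 k2 k3 l1 l2 Φ1 Φ2 n1 n2 *
      (en (j1 * n1) (k1 * k2 * k3 * W1) * en (j2 * n2) (k1 * k2 * k3 * W2)) =
    (if n1.Coprime k1 then Φ1 n1 *
      en ((j1 + j2 * ((iv W2 (k1 * k2 * k3) : ℤ) * l1 * l2') * W1) * n1) (k1 * (k2 * k3 * W1))
      else 0) * hE Φ2 W2 (j2 * (iv (k1 * k2 * k3) W2 : ℤ)) := by
  by_cases hn : n1.Coprime k1
  · have e := hSn (k1 * k2 * k3) W2 n1 l1 l2 l2' j2 Φ2 hk hW2 hc hl hΦ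
    rw [if_pos hn]
    have e1 : ∑ n2 ∈ range (k1 * k2 * k3 * W2), fE k1 k2 k3 l1 l2 Φ1 Φ2 n1 n2 *
        (en (j1 * n1) (k1 * k2 * k3 * W1) * en (j2 * n2) (k1 * k2 * k3 * W2)) =
        Φ1 n1 * en (j1 * n1) (k1 * k2 * k3 * W1) * ∑ n2 ∈ range (k1 * k2 * k3 * W2),
          (if ((k1 * k2 * k3 : ℕ) : ℤ) ∣ l1 * n1 - l2 * n2 then
            Φ2 n2 * en (j2 * n2) (k1 * k2 * k3 * W2) else 0) := by
      rw [mul_sum]
      refine sum_congr rfl fun n2 _ => ?_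
      unfold fE
      by_cases hd : ((k1 * k2 * k3 : ℕ) : ℤ) ∣ l1 * n1 - l2 * n2
      · rw [if_pos ⟨hd, hn⟩, if_pos hd]
        ring
      · rw [if_neg (fun h => hd h.1), if_neg hd, zero_mul, mul_zero]
    rw [e1, e]
    have e2 : en (j1 * n1) (k1 * k2 * k3 * W1) *
        en (j2 * (iv W2 (k1 * k2 * k3) : ℤ) * l1 * l2' * n1) (k1 * k2 * k3) =
        en ((j1 + j2 * ((iv W2 (k1 * k2 * k3) : ℤ) * l1 * l2') * W1) * n1)
          (k1 * (k2 * k3 * W1)) := by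
      rw [← en_mul_left W1 _ (k1 * k2 * k3) hW1, show W1 * (k1 * k2 * k3) = k1 * k2 * k3 * W1 by ring,
        ← en_add, show k1 * (k2 * k3 * W1) = k1 * k2 * k3 * W1 by ring]
      congr 1
      ring
    rw [← e2]
    ring
  · rw [if_neg hn, zero_mul]
    refine sum_eq_zero fun n2 _ => ?_
    unfold fE
    rw [if_neg (fun h => hn h.2), zero_mul]

theorem tEfh (hSn : EsnStmt) (hFn : EfnStmt) (hRm : ErmStmt) (hGc : EgcStmt) : EfhStmt := by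
  intro k1 k2 k3 W1 W2 l1 l2 j1 j2 Φ1 Φ2 B1 B2 hME hPE
  obtain ⟨hsq, hW1, hW2, hcW1, hcW2, hl1, hl2⟩ := id hME
  obtain ⟨hB1, hB2, hΦ1, hΦ2, hH1, hH2⟩ := hPE
  have hk : 1 ≤ k1 * k2 * k3 := Nat.one_le_iff_ne_zero.2 hsq.ne_zero
  have hk1 : 1 ≤ k1 := by
    rcases Nat.eq_zero_or_pos k1 with h | h
    · rw [h, zero_mul, zero_mul] at hk
      omega
    · exact h
  have hk2 : 1 ≤ k2 := by
    rcases Nat.eq_zero_or_pos k2 with h | h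
    · rw [h, mul_zero, zero_mul] at hk
      omega
    · exact h
  have hk3 : 1 ≤ k3 := by
    rcases Nat.eq_zero_or_pos k3 with h | h
    · rw [h, mul_zero] at hk
      omega
    · exact h
  -- the inverse of l2
  obtain ⟨l2', hl⟩ : ∃ l2' : ℤ, ((k1 * k2 * k3 : ℕ) : ℤ) ∣ l2 * l2' - 1 := by
    refine ⟨Int.gcdA l2 ((k1 * k2 * k3 : ℕ) : ℤ), ?_⟩
    have h := Int.gcd_eq_gcd_ab l2 ((k1 * k2 * k3 : ℕ) : ℤ)
    rw [hl2] at h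
    refine ⟨-Int.gcdB l2 ((k1 * k2 * k3 : ℕ) : ℤ), ?_⟩
    rw [Nat.cast_one] at h
    linarith
  obtain ⟨g1, g2, g3⟩ := hGc k1 k2 k3 W1 W2 l1 l2 l2' j1 j2 hME hl
  have hcop : k1.Coprime (k2 * k3 * W1) := by
    have a1 : k1.Coprime (k2 * k3) := by
      have h := hsq
      rw [mul_assoc] at h
      exact Nat.coprime_of_squarefree_mul h
    have a2 : k1.Coprime W1 :=
      Nat.Coprime.coprime_dvd_left (Dvd.intro (k2 * k3) (by ring)) hcW1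
    exact Nat.Coprime.mul_right a1 a2
  have hK : 1 ≤ k2 * k3 * W1 := Nat.mul_pos (Nat.mul_pos hk2 hk3) hW1
  set J : ℤ := j1 + j2 * ((iv W2 (k1 * k2 * k3) : ℤ) * l1 * l2') * W1 with hJ
  have e1 : ∑ n1 ∈ range (k1 * k2 * k3 * W1), ∑ n2 ∈ range (k1 * k2 * k3 * W2),
      fE k1 k2 k3 l1 l2 Φ1 Φ2 n1 n2 *
        (en (j1 * n1) (k1 * k2 * k3 * W1) * en (j2 * n2) (k1 * k2 * k3 * W2)) =
      (∑ x ∈ (range k1).filter (fun x => x.Coprime k1), en (J * (iv (k2 * k3 * W1) k1 : ℤ) * x) k1) *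
        hE Φ1 (k2 * k3 * W1) (J * (iv k1 (k2 * k3 * W1) : ℤ)) *
        hE Φ2 W2 (j2 * (iv (k1 * k2 * k3) W2 : ℤ)) := by
    rw [← hFn k1 (k2 * k3 * W1) J Φ1 hk1 hK hcop hΦ1, sum_mul,
      show k1 * (k2 * k3 * W1) = k1 * k2 * k3 * W1 by ring]
    refine sum_congr rfl fun n1 _ => ?_
    rw [Efh_inner hSn k1 k2 k3 W1 W2 n1 l1 l2 l2' j1 j2 Φ1 Φ2 hk hW1 hW2 hcW2 hl hΦ2, ← hJ,
      show k1 * (k2 * k3 * W1) = k1 * k2 * k3 * W1 by ring]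
  rw [e1, norm_mul, norm_mul]
  have n1 := hRm k1 (J * (iv (k2 * k3 * W1) k1 : ℤ)) hk1
  have n2 := hH1 (J * (iv k1 (k2 * k3 * W1) : ℤ))
  have n3 := hH2 (j2 * (iv (k1 * k2 * k3) W2 : ℤ))
  rw [g1] at n1
  rw [g2, Nat.cast_mul, Real.sqrt_mul (Nat.cast_nonneg _)] at n2
  rw [g3] at n3
  refine (mul_le_mul (mul_le_mul n1 n2 (norm_nonneg _) (by positivity)) n3 (norm_nonneg _)
    (by positivity)).trans (le_of_eq ?_)
  ring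

end Pool.Agent.Lib.SL
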