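import Pool.Agent.Lib.SL.SpecE

/-! MP_00e23e_nt, Lib/SL, module Efi: final statement of chapter E (abstract form). -/

namespace Pool.Agent.Lib.SL

open Finset Pool.Agent.Lib.EH3 Pool.Agent.Lib.TB Pool.Agent.Results.MP_00e23e_nt Pool.Agent.Lib.MI

private lemma Efi_per {Φ : ℕ → ℂ} {P : ℕ} (h : ∀ n, Φ (n + P) = Φ n) (m n : ℕ) :
    Φ (n + m * P) = Φ n := by
  induction m with
  | zero => simp
  | succ m ih => rw [show n + (m + 1) * P = n + m * P + P by ring, h, ih]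

private lemma Efi_split (K : ℕ) (f : ℤ → ℝ) :
    ∑ j ∈ Icc (-(K : ℤ)) (K : ℤ), f j =
      f 0 + ∑ j ∈ (Icc (-(K : ℤ)) (K : ℤ)).filter (fun a => a ≠ 0), f j := by
  have h0 : (0 : ℤ) ∈ Icc (-(K : ℤ)) (K : ℤ) := by
    rw [mem_Icc]
    omega
  rw [← add_sum_erase _ _ h0]
  congr 1
  refine sum_congr ?_ fun _ _ => rfl
  ext j
  rw [mem_erase, mem_filter]
  exact and_comm

private lemma Efi_w (N K : ℕ) (j : ℤ) : 0 ≤ wE N K j := by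
  unfold wE
  split_ifs
  · positivity
  · exact le_min (by positivity) (by positivity)

/-- the summand -/
private noncomputable def Efi_S (N k1 k2 k3 W1 W2 : ℕ) (l1 l2 j1 j2 : ℤ) : ℝ :=
  wE N (k1 * k2 * k3 * W1) j1 * wE N (k1 * k2 * k3 * W2) j2 *
    ((Int.gcd (bE l1 l2 W1 W2 j1 j2) k1 : ℝ) * Real.sqrt (Int.gcd (bE l1 l2 W1 W2 j1 j2) k3 : ℝ) *
      Real.sqrt (Int.gcd j1 W1 : ℝ) * Real.sqrt (Int.gcd j2 W2 : ℝ))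

private lemma Efi_p1 {k1 k2 k3 W1 : ℕ} {l1 l2 : ℤ} {Φ1 Φ2 : ℕ → ℂ}
    (h : ∀ n, Φ1 (n + k2 * k3 * W1) = Φ1 n) (m n : ℕ) :
    fE k1 k2 k3 l1 l2 Φ1 Φ2 (m + k1 * k2 * k3 * W1) n = fE k1 k2 k3 l1 l2 Φ1 Φ2 m n := by
  unfold fE
  have e1 : Φ1 (m + k1 * k2 * k3 * W1) = Φ1 m := by
    rw [show m + k1 * k2 * k3 * W1 = m + k1 * (k2 * k3 * W1) by ring]
    exact Efi_per h k1 m
  have e2 : (((k1 * k2 * k3 : ℕ) : ℤ) ∣ l1 * ((m + k1 * k2 * k3 * W1 : ℕ) : ℤ) - l2 * n) ↔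
      (((k1 * k2 * k3 : ℕ) : ℤ) ∣ l1 * (m : ℤ) - l2 * n) := by
    have : l1 * ((m + k1 * k2 * k3 * W1 : ℕ) : ℤ) - l2 * n =
        (l1 * (m : ℤ) - l2 * n) + ((k1 * k2 * k3 : ℕ) : ℤ) * (l1 * W1) := by
      push_cast
      ring
    rw [this]
    exact dvd_add_left (dvd_mul_right _ _)
  have e3 : (m + k1 * k2 * k3 * W1).Coprime k1 ↔ m.Coprime k1 := by
    rw [show m + k1 * k2 * k3 * W1 = m + k1 * (k2 * k3 * W1) by ring]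
    exact Nat.coprime_add_mul_left_left _ _ _
  rw [e1]
  by_cases hc : ((k1 * k2 * k3 : ℕ) : ℤ) ∣ l1 * (m : ℤ) - l2 * n ∧ m.Coprime k1
  · rw [if_pos hc, if_pos ⟨e2.2 hc.1, e3.2 hc.2⟩]
  · rw [if_neg hc, if_neg fun h' => hc ⟨e2.1 h'.1, e3.1 h'.2⟩]

private lemma Efi_p2 {k1 k2 k3 W2 : ℕ} {l1 l2 : ℤ} {Φ1 Φ2 : ℕ → ℂ}
    (h : ∀ n, Φ2 (n + W2) = Φ2 n) (m n : ℕ) :
    fE k1 k2 k3 l1 l2 Φ1 Φ2 m (n + k1 * k2 * k3 * W2) = fE k1 k2 k3 l1 l2 Φ1 Φ2 m n := by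
  unfold fE
  have e1 : Φ2 (n + k1 * k2 * k3 * W2) = Φ2 n := Efi_per h (k1 * k2 * k3) n
  have e2 : (((k1 * k2 * k3 : ℕ) : ℤ) ∣ l1 * (m : ℤ) - l2 * ((n + k1 * k2 * k3 * W2 : ℕ) : ℤ)) ↔
      (((k1 * k2 * k3 : ℕ) : ℤ) ∣ l1 * (m : ℤ) - l2 * n) := by
    have : l1 * (m : ℤ) - l2 * ((n + k1 * k2 * k3 * W2 : ℕ) : ℤ) =
        (l1 * (m : ℤ) - l2 * n) + ((k1 * k2 * k3 : ℕ) : ℤ) * (-(l2 * W2)) := by
      push_cast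
      ring
    rw [this]
    exact dvd_add_left (dvd_mul_right _ _)
  rw [e1]
  by_cases hc : ((k1 * k2 * k3 : ℕ) : ℤ) ∣ l1 * (m : ℤ) - l2 * n ∧ m.Coprime k1
  · rw [if_pos hc, if_pos ⟨e2.2 hc.1, hc.2⟩]
  · rw [if_neg hc, if_neg fun h' => hc ⟨e2.1 h'.1, h'.2⟩]

theorem tEfi (hcw : EcwStmt) (hfh : EfhStmt) (hma : EmaStmt) (hza : EzaStmt) (hzb : EzbStmt) :
    EsStmt := by
  refine ⟨3, by norm_num, 7, ?_⟩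
  intro X T k1 k2 k3 W1 W2 N N1 N2 N3 N4 l1 l2 Φ1 Φ2 B1 B2 hTau hME hPE hN hN12 hN2 hN34 hN4 hX1 hX2
  obtain ⟨sqf, hW1, hW2, cW1, cW2, g1, g2⟩ := hME
  obtain ⟨hB1, hB2, per1, per2, b1, b2⟩ := hPE
  have hk : k1 * k2 * k3 ≠ 0 := sqf.ne_zero
  have hk1 : 1 ≤ k1 := by
    rcases Nat.eq_zero_or_pos k1 with h | h
    · exact absurd (by rw [h]; ring) hk
    · exact h
  have hkk : 1 ≤ k1 * k2 * k3 := Nat.one_le_iff_ne_zero.2 hk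
  have hK1 : 1 ≤ k1 * k2 * k3 * W1 := Nat.mul_pos hkk hW1
  have hK2 : 1 ≤ k1 * k2 * k3 * W2 := Nat.mul_pos hkk hW2
  have hT1 : 1 ≤ T := hTau.1
  have hT0 : 0 ≤ T := by linarith
  have hkX : ((k1 * k2 * k3 : ℕ) : ℝ) ≤ X := by
    refine le_trans ?_ hX1
    exact_mod_cast Nat.le_mul_of_pos_right _ hW1
  have hk1X : (k1 : ℝ) ≤ X := by
    refine le_trans ?_ hkX
    have : k1 ≤ k1 * k2 * k3 := Nat.le_of_dvd hkk ⟨k2 * k3, by ring⟩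
    exact_mod_cast this
  have hW1X : (W1 : ℝ) ≤ X := by
    refine le_trans ?_ hX1
    exact_mod_cast Nat.le_mul_of_pos_left W1 hkk
  have hW2X : (W2 : ℝ) ≤ X := by
    refine le_trans ?_ hX2
    exact_mod_cast Nat.le_mul_of_pos_left W2 hkk
  have hk0 : (0 : ℝ) < ((k1 * k2 * k3 : ℕ) : ℝ) := by exact_mod_cast hkk
  have hW10 : (0 : ℝ) < (W1 : ℝ) := by exact_mod_cast hW1
  have hW20 : (0 : ℝ) < (W2 : ℝ) := by exact_mod_cast hW2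
  have hME' : ME k1 k2 k3 W1 W2 l1 l2 := ⟨sqf, hW1, hW2, cW1, cW2, g1, g2⟩
  have hPE' : PE k2 k3 W1 W2 Φ1 Φ2 B1 B2 := ⟨hB1, hB2, per1, per2, b1, b2⟩
  have hBB : 0 ≤ B1 * B2 := mul_nonneg hB1 hB2
  have htau : (k1.divisors.card : ℝ) ≤ T := hTau.2.2 k1 hk1 hk1X
  refine (hcw (fE k1 k2 k3 l1 l2 Φ1 Φ2) (k1 * k2 * k3 * W1) (k1 * k2 * k3 * W2) N N1 N2 N3 N4 hK1 hK2
    hN12 hN2 hN34 hN4 (fun m n => Efi_p1 per1 m n) (fun m n => Efi_p2 per2 m n)).trans ?_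
  have hS0 : ∀ j1 j2 : ℤ, 0 ≤ Efi_S N k1 k2 k3 W1 W2 l1 l2 j1 j2 := by
    intro j1 j2
    unfold Efi_S
    exact mul_nonneg (mul_nonneg (Efi_w _ _ _) (Efi_w _ _ _)) (by positivity)
  have hterm : ∀ j1 j2 : ℤ, wE N (k1 * k2 * k3 * W1) j1 * wE N (k1 * k2 * k3 * W2) j2 *
      ‖∑ n1 ∈ range (k1 * k2 * k3 * W1), ∑ n2 ∈ range (k1 * k2 * k3 * W2),
        fE k1 k2 k3 l1 l2 Φ1 Φ2 n1 n2 *
          (en (j1 * n1) (k1 * k2 * k3 * W1) * en (j2 * n2) (k1 * k2 * k3 * W2))‖ ≤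
      T * (B1 * B2) * Efi_S N k1 k2 k3 W1 W2 l1 l2 j1 j2 := by
    intro j1 j2
    have h1 := hfh k1 k2 k3 W1 W2 l1 l2 j1 j2 Φ1 Φ2 B1 B2 hME' hPE'
    have hw : 0 ≤ wE N (k1 * k2 * k3 * W1) j1 * wE N (k1 * k2 * k3 * W2) j2 :=
      mul_nonneg (Efi_w _ _ _) (Efi_w _ _ _)
    refine (mul_le_mul_of_nonneg_left h1 hw).trans ?_
    have h2 : wE N (k1 * k2 * k3 * W1) j1 * wE N (k1 * k2 * k3 * W2) j2 *
        ((k1.divisors.card : ℝ) * (Int.gcd (bE l1 l2 W1 W2 j1 j2) k1 : ℝ) * (B1 * B2) *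
          Real.sqrt (Int.gcd (bE l1 l2 W1 W2 j1 j2) k3 : ℝ) * Real.sqrt (Int.gcd j1 W1 : ℝ) *
            Real.sqrt (Int.gcd j2 W2 : ℝ)) =
        (k1.divisors.card : ℝ) * ((B1 * B2) * Efi_S N k1 k2 k3 W1 W2 l1 l2 j1 j2) := by
      unfold Efi_S
      ring
    rw [h2, mul_assoc T]
    exact mul_le_mul_of_nonneg_right htau (mul_nonneg hBB (hS0 j1 j2))
  refine (sum_le_sum fun j1 _ => sum_le_sum fun j2 _ => hterm j1 j2).trans ?_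
  have e1 : ∑ j1 ∈ Icc (-((k1 * k2 * k3 * W1 : ℕ) : ℤ)) ((k1 * k2 * k3 * W1 : ℕ) : ℤ),
      ∑ j2 ∈ Icc (-((k1 * k2 * k3 * W2 : ℕ) : ℤ)) ((k1 * k2 * k3 * W2 : ℕ) : ℤ),
        T * (B1 * B2) * Efi_S N k1 k2 k3 W1 W2 l1 l2 j1 j2 =
      T * (B1 * B2) * ∑ j1 ∈ Icc (-((k1 * k2 * k3 * W1 : ℕ) : ℤ)) ((k1 * k2 * k3 * W1 : ℕ) : ℤ),
      ∑ j2 ∈ Icc (-((k1 * k2 * k3 * W2 : ℕ) : ℤ)) ((k1 * k2 * k3 * W2 : ℕ) : ℤ),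
        Efi_S N k1 k2 k3 W1 W2 l1 l2 j1 j2 := by
    rw [mul_sum]
    exact sum_congr rfl fun j1 _ => by rw [mul_sum]
  rw [e1]
  have e2 : ∑ j1 ∈ Icc (-((k1 * k2 * k3 * W1 : ℕ) : ℤ)) ((k1 * k2 * k3 * W1 : ℕ) : ℤ),
      ∑ j2 ∈ Icc (-((k1 * k2 * k3 * W2 : ℕ) : ℤ)) ((k1 * k2 * k3 * W2 : ℕ) : ℤ),
        Efi_S N k1 k2 k3 W1 W2 l1 l2 j1 j2 =
      Efi_S N k1 k2 k3 W1 W2 l1 l2 0 0 +
      ∑ j2 ∈ (Icc (-((k1 * k2 * k3 * W2 : ℕ) : ℤ)) ((k1 * k2 * k3 * W2 : ℕ) : ℤ)).filter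
        (fun a => a ≠ 0), Efi_S N k1 k2 k3 W1 W2 l1 l2 0 j2 +
      (∑ j1 ∈ (Icc (-((k1 * k2 * k3 * W1 : ℕ) : ℤ)) ((k1 * k2 * k3 * W1 : ℕ) : ℤ)).filter
        (fun a => a ≠ 0), Efi_S N k1 k2 k3 W1 W2 l1 l2 j1 0 +
      ∑ j1 ∈ (Icc (-((k1 * k2 * k3 * W1 : ℕ) : ℤ)) ((k1 * k2 * k3 * W1 : ℕ) : ℤ)).filter
        (fun a => a ≠ 0),
        ∑ j2 ∈ (Icc (-((k1 * k2 * k3 * W2 : ℕ) : ℤ)) ((k1 * k2 * k3 * W2 : ℕ) : ℤ)).filter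
          (fun a => a ≠ 0), Efi_S N k1 k2 k3 W1 W2 l1 l2 j1 j2) := by
    rw [Efi_split, Efi_split, ← sum_add_distrib]
    congr 1
    exact sum_congr rfl fun j1 _ => Efi_split _ _
  rw [e2]
  -- the four parts
  have q1 : Efi_S N k1 k2 k3 W1 W2 l1 l2 0 0 =
      (k1 : ℝ) * Real.sqrt k3 * (N : ℝ) ^ 2 /
        (((k1 * k2 * k3 : ℕ) : ℝ) ^ 2 * Real.sqrt ((W1 : ℝ) * W2)) := by
    unfold Efi_S wE bE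
    rw [if_pos rfl, if_pos rfl]
    have z : (0 : ℤ) * ((W2 : ℤ) * l2) + 0 * ((W1 : ℤ) * l1) = 0 := by ring
    rw [z, Int.gcd_zero_left, Int.gcd_zero_left, Int.gcd_zero_left, Int.gcd_zero_left,
      Int.natAbs_natCast, Int.natAbs_natCast, Int.natAbs_natCast, Int.natAbs_natCast]
    have hs : Real.sqrt ((W1 : ℝ) * W2) = Real.sqrt W1 * Real.sqrt W2 := Real.sqrt_mul hW10.le _
    have s1 : 0 < Real.sqrt (W1 : ℝ) := Real.sqrt_pos.2 hW10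
    have s2 : 0 < Real.sqrt (W2 : ℝ) := Real.sqrt_pos.2 hW20
    have r1 : (W1 : ℝ) = Real.sqrt W1 * Real.sqrt W1 := (Real.mul_self_sqrt hW10.le).symm
    have r2 : (W2 : ℝ) = Real.sqrt W2 * Real.sqrt W2 := (Real.mul_self_sqrt hW20.le).symm
    rw [hs, Nat.cast_mul (k1 * k2 * k3) W1, Nat.cast_mul (k1 * k2 * k3) W2]
    generalize ((k1 * k2 * k3 : ℕ) : ℝ) = k at *
    set u := Real.sqrt (W1 : ℝ) with hu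
    set v := Real.sqrt (W2 : ℝ) with hv
    rw [r1, r2]
    field_simp
  have q2 := hza X T k1 k2 k3 W1 W2 N (k1 * k2 * k3 * W2) l1 l2 hTau hME' hX2 hX2
  have q3 := hzb X T k1 k2 k3 W1 W2 N (k1 * k2 * k3 * W1) l1 l2 hTau hME' hX1 hX1
  have q4 := hma X T k1 k2 k3 W1 W2 N (k1 * k2 * k3 * W1) (k1 * k2 * k3 * W2) (k1 * k2 * k3 * W1)
    (k1 * k2 * k3 * W2) l1 l2 hTau hME' hN hK1 hK2 hkX hW1X hW2X hX1 hX2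
  have q5 : Real.sqrt (((k1 * k2 * k3 * W1 : ℕ) : ℝ) * ((k1 * k2 * k3 * W2 : ℕ) : ℝ)) =
      ((k1 * k2 * k3 : ℕ) : ℝ) * Real.sqrt ((W1 : ℝ) * W2) := by
    rw [Nat.cast_mul (k1 * k2 * k3) W1, Nat.cast_mul (k1 * k2 * k3) W2,
      show ((k1 * k2 * k3 : ℕ) : ℝ) * (W1 : ℝ) * (((k1 * k2 * k3 : ℕ) : ℝ) * (W2 : ℝ)) =
        ((k1 * k2 * k3 : ℕ) : ℝ) ^ 2 * ((W1 : ℝ) * W2) by ring,
      Real.sqrt_mul (by positivity), Real.sqrt_sq hk0.le]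
  rw [q5] at q4
  rw [q1]
  have q2' : ∑ j2 ∈ (Icc (-((k1 * k2 * k3 * W2 : ℕ) : ℤ)) ((k1 * k2 * k3 * W2 : ℕ) : ℤ)).filter
        (fun a => a ≠ 0), Efi_S N k1 k2 k3 W1 W2 l1 l2 0 j2 ≤
      T ^ 2 * ((N : ℝ) / (((k1 * k2 * k3 : ℕ) : ℝ) * Real.sqrt W1)) := q2
  have q3' : ∑ j1 ∈ (Icc (-((k1 * k2 * k3 * W1 : ℕ) : ℤ)) ((k1 * k2 * k3 * W1 : ℕ) : ℤ)).filter
        (fun a => a ≠ 0), Efi_S N k1 k2 k3 W1 W2 l1 l2 j1 0 ≤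
      T ^ 2 * ((N : ℝ) / (((k1 * k2 * k3 : ℕ) : ℝ) * Real.sqrt W2)) := q3
  have q4' : ∑ j1 ∈ (Icc (-((k1 * k2 * k3 * W1 : ℕ) : ℤ)) ((k1 * k2 * k3 * W1 : ℕ) : ℤ)).filter
        (fun a => a ≠ 0),
        ∑ j2 ∈ (Icc (-((k1 * k2 * k3 * W2 : ℕ) : ℤ)) ((k1 * k2 * k3 * W2 : ℕ) : ℤ)).filter
          (fun a => a ≠ 0), Efi_S N k1 k2 k3 W1 W2 l1 l2 j1 j2 ≤
      T ^ 4 * (2 * T * ((k1 : ℝ) * Real.sqrt k3 * N /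
        (((k1 * k2 * k3 : ℕ) : ℝ) * Real.sqrt ((W1 : ℝ) * W2))) + 3 * T ^ 2) := q4
  clear q2 q3 q4 q1 e1 e2 hterm
  set a1 : ℝ := (k1 : ℝ) * Real.sqrt k3 * N / (((k1 * k2 * k3 : ℕ) : ℝ) * Real.sqrt ((W1 : ℝ) * W2))
    with ha1
  set a2 : ℝ := (N : ℝ) / (((k1 * k2 * k3 : ℕ) : ℝ) * Real.sqrt W1) with ha2
  set a3 : ℝ := (N : ℝ) / (((k1 * k2 * k3 : ℕ) : ℝ) * Real.sqrt W2) with ha3
  set a4 : ℝ := (k1 : ℝ) * Real.sqrt k3 * (N : ℝ) ^ 2 /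
    (((k1 * k2 * k3 : ℕ) : ℝ) ^ 2 * Real.sqrt ((W1 : ℝ) * W2)) with ha4
  have p1 : 0 ≤ a1 := by positivity
  have p2 : 0 ≤ a2 := by positivity
  have p3 : 0 ≤ a3 := by positivity
  have p4 : 0 ≤ a4 := by positivity
  have t2 : T ^ 2 ≤ T ^ 6 := pow_le_pow_right₀ hT1 (by norm_num)
  have t5 : T ^ 5 ≤ T ^ 6 := pow_le_pow_right₀ hT1 (by norm_num)
  have t0 : 1 ≤ T ^ 6 := one_le_pow₀ hT1
  have t6 : 0 ≤ T ^ 6 := by positivity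
  have r2 : T ^ 2 * a2 ≤ 3 * T ^ 6 * a2 := by
    refine mul_le_mul_of_nonneg_right ?_ p2
    linarith
  have r3 : T ^ 2 * a3 ≤ 3 * T ^ 6 * a3 := by
    refine mul_le_mul_of_nonneg_right ?_ p3
    linarith
  have r4 : a4 ≤ 3 * T ^ 6 * a4 := by
    have := mul_le_mul_of_nonneg_right (show 1 ≤ 3 * T ^ 6 by linarith) p4
    linarith
  have r1 : T ^ 4 * (2 * T * a1 + 3 * T ^ 2) ≤ 3 * T ^ 6 * (1 + a1) := by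
    have : 2 * T ^ 5 * a1 ≤ 3 * T ^ 6 * a1 := by
      refine mul_le_mul_of_nonneg_right ?_ p1
      linarith
    calc T ^ 4 * (2 * T * a1 + 3 * T ^ 2) = 2 * T ^ 5 * a1 + 3 * T ^ 6 := by ring
      _ ≤ 3 * T ^ 6 * a1 + 3 * T ^ 6 := by linarith
      _ = 3 * T ^ 6 * (1 + a1) := by ring
  calc _ ≤ T * (B1 * B2) * (3 * T ^ 6 * (1 + a1 + a2 + a3 + a4)) := by
        refine mul_le_mul_of_nonneg_left ?_ (mul_nonneg hT0 hBB)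
        linarith
    _ = _ := by ring

end Pool.Agent.Lib.SL
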