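import Pool.Agent.Lib.SL.SpecE

/-!
MP_00e23e_nt, project SL, module Efn: the sum over n1.
-/

set_option autoImplicit false

namespace Pool.Agent.Lib.SL

open Finset Pool.Agent.Lib.EH3 Pool.Agent.Lib.TB Pool.Agent.Results.MP_00e23e_nt Pool.Agent.Lib.MI

private lemma Efn_en (b : ℤ) (q n : ℕ) :
    en (b * ((n + q : ℕ) : ℤ)) q = en (b * (n : ℤ)) q := by
  apply en_congr
  rw [← mul_sub]
  refine dvd_mul_of_dvd_right ⟨1, ?_⟩ _
  push_cast
  ring

theorem tEfn (hEcr : EcrStmt) : EfnStmt := by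
  intro k1 K J Φ1 hk hK hcop hper
  have key : ∀ n ∈ range (k1 * K), (if n.Coprime k1 then Φ1 n * en (J * n) (k1 * K) else 0) =
      (if n.Coprime k1 then en (J * (iv K k1 : ℤ) * n) k1 else 0) *
        (Φ1 n * en (J * (iv k1 K : ℤ) * n) K) := by
    intro n _
    by_cases hc : n.Coprime k1
    · rw [if_pos hc, if_pos hc, en_crt hcop hk hK,
        show J * (n : ℤ) * (iv K k1 : ℤ) = J * (iv K k1 : ℤ) * n by ring,
        show J * (n : ℤ) * (iv k1 K : ℤ) = J * (iv k1 K : ℤ) * n by ring]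
      ring
    · rw [if_neg hc, if_neg hc, zero_mul]
  rw [sum_congr rfl key, hEcr k1 K (fun n => if n.Coprime k1 then en (J * (iv K k1 : ℤ) * n) k1 else 0)
    (fun n => Φ1 n * en (J * (iv k1 K : ℤ) * n) K) hk hK hcop ?_ ?_, sum_filter]
  · rfl
  · intro n
    have e1 : (n + k1).Coprime k1 ↔ n.Coprime k1 := Nat.coprime_add_self_left
    simp only [e1, Efn_en]
  · intro n
    show Φ1 (n + K) * en (J * (iv k1 K : ℤ) * ((n + K : ℕ) : ℤ)) K = _
    rw [hper, Efn_en]

end Pool.Agent.Lib.SL
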