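import Pool.Agent.Lib.SL.SpecE

/-!
# SL, chapter E: module Egc (the gcd identities)
-/

namespace Pool.Agent.Lib.SL

open Finset Pool.Agent.Lib.EH3 Pool.Agent.Lib.TB Pool.Agent.Results.MP_00e23e_nt Pool.Agent.Lib.MI

private theorem Egc_iff {x y u v m g : ℤ} (hu : IsCoprime u m) (hv : IsCoprime v m)
    (h : m ∣ u * x - v * y) (hg : g ∣ m) : g ∣ x ↔ g ∣ y := by
  have h1 : g ∣ u * x - v * y := hg.trans h
  have hu' : IsCoprime g u := (hu.of_isCoprime_of_dvd_right hg).symm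
  have hv' : IsCoprime g v := (hv.of_isCoprime_of_dvd_right hg).symm
  constructor
  · intro hx
    have h2 := dvd_sub (Dvd.dvd.mul_left hx u) h1
    rw [sub_sub_cancel] at h2
    exact hv'.dvd_of_dvd_mul_left h2
  · intro hy
    have h2 := dvd_add h1 (Dvd.dvd.mul_left hy v)
    rw [sub_add_cancel] at h2
    exact hu'.dvd_of_dvd_mul_left h2

private theorem Egc_gcd {x y u v m : ℤ} (hu : IsCoprime u m) (hv : IsCoprime v m)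
    (h : m ∣ u * x - v * y) : Int.gcd x m = Int.gcd y m := by
  apply Nat.dvd_antisymm
  · rw [← Int.natCast_dvd_natCast, Int.dvd_coe_gcd_iff]
    exact ⟨(Egc_iff hu hv h (Int.gcd_dvd_right x m)).1 (Int.gcd_dvd_left x m),
      Int.gcd_dvd_right x m⟩
  · rw [← Int.natCast_dvd_natCast, Int.dvd_coe_gcd_iff]
    exact ⟨(Egc_iff hu hv h (Int.gcd_dvd_right y m)).2 (Int.gcd_dvd_left y m),
      Int.gcd_dvd_right y m⟩

theorem tEgc : EgcStmt := by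
  intro k1 k2 k3 W1 W2 l1 l2 l2' j1 j2 hM hl
  obtain ⟨hsq, hW1, hW2, hkW1, hkW2, hl1, hl2⟩ := hM
  have hk0 : k1 * k2 * k3 ≠ 0 := hsq.ne_zero
  have hk1 : 1 ≤ k1 := Nat.one_le_iff_ne_zero.2 (fun h => hk0 (by rw [h]; ring))
  have hk2 : 1 ≤ k2 := Nat.one_le_iff_ne_zero.2 (fun h => hk0 (by rw [h]; ring))
  have hk3 : 1 ≤ k3 := Nat.one_le_iff_ne_zero.2 (fun h => hk0 (by rw [h]; ring))
  have hk : 1 ≤ k1 * k2 * k3 := Nat.one_le_iff_ne_zero.2 hk0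
  have c1 : k1.Coprime (k2 * k3) := by
    have h := hsq
    rw [mul_assoc] at h
    exact (Nat.squarefree_mul_iff.1 h).1
  have d1 : k1 ∣ k1 * k2 * k3 := ⟨k2 * k3, by ring⟩
  have d3 : k3 ∣ k1 * k2 * k3 := ⟨k1 * k2, by ring⟩
  have c2 : k1.Coprime (k2 * k3 * W1) := Nat.Coprime.mul_right c1 (hkW1.coprime_dvd_left d1)
  have c3 : k3.Coprime W1 := hkW1.coprime_dvd_left d3
  have hK : 1 ≤ k2 * k3 * W1 := Nat.mul_pos (Nat.mul_pos hk2 hk3) hW1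
  obtain ⟨a, ha⟩ := iv_dvd hkW2.symm hk
  obtain ⟨b, hb⟩ := hl
  obtain ⟨c, hc⟩ := iv_dvd c2.symm hk1
  obtain ⟨d, hd⟩ := iv_dvd c2 hK
  obtain ⟨e, he⟩ := iv_dvd hkW2 hW2
  have u1 : IsCoprime (W2 : ℤ) ((k1 * k2 * k3 : ℕ) : ℤ) := Nat.isCoprime_iff_coprime.2 hkW2.symm
  have u2 : IsCoprime l2 ((k1 * k2 * k3 : ℕ) : ℤ) := Int.isCoprime_iff_gcd_eq_one.2 hl2
  have u3 : IsCoprime ((W2 : ℤ) * l2) ((k1 * k2 * k3 : ℕ) : ℤ) := u1.mul_left u2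
  have u4 : IsCoprime ((W2 : ℤ) * l2) (k1 : ℤ) :=
    u3.of_isCoprime_of_dvd_right (Int.natCast_dvd_natCast.2 d1)
  have u5 : IsCoprime ((W2 : ℤ) * l2) (k3 : ℤ) :=
    u3.of_isCoprime_of_dvd_right (Int.natCast_dvd_natCast.2 d3)
  have u6 : IsCoprime ((k2 * k3 * W1 : ℕ) : ℤ) (k1 : ℤ) := Nat.isCoprime_iff_coprime.2 c2.symm
  have u7 : IsCoprime (k1 : ℤ) ((k2 * k3 * W1 : ℕ) : ℤ) := Nat.isCoprime_iff_coprime.2 c2
  have u8 : IsCoprime (k1 : ℤ) (k3 : ℤ) :=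
    u7.of_isCoprime_of_dvd_right (Int.natCast_dvd_natCast.2 ⟨k2 * W1, by ring⟩)
  have u9 : IsCoprime (k1 : ℤ) (W1 : ℤ) :=
    u7.of_isCoprime_of_dvd_right (Int.natCast_dvd_natCast.2 ⟨k2 * k3, by ring⟩)
  have u10 : IsCoprime ((k1 * k2 * k3 : ℕ) : ℤ) (W2 : ℤ) := Nat.isCoprime_iff_coprime.2 hkW2
  have one1 : ∀ m : ℤ, IsCoprime (1 : ℤ) m := fun m => isCoprime_one_left
  refine ⟨?_, ?_, ?_⟩
  · refine Egc_gcd (u := (W2 : ℤ) * l2 * ((k2 * k3 * W1 : ℕ) : ℤ)) (v := 1) (u4.mul_left u6)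
      (one1 _) ?_
    unfold bE
    refine ⟨c * (W2 * l2 * (j1 + j2 * ((iv W2 (k1 * k2 * k3) : ℤ) * l1 * l2') * W1)) +
      k2 * k3 * j2 * W1 * l1 * (a * l2 * l2' + b), ?_⟩
    push_cast at ha hb hc ⊢
    linear_combination (W2 * l2 * (j1 + j2 * ((iv W2 (k1 * k2 * k3) : ℤ) * l1 * l2') * W1)) * hc
      + (j2 * W1 * l1 * l2 * l2') * ha + (j2 * W1 * l1) * hb
  · have hg : ∀ x : ℤ, Int.gcd x ((k3 * W1 : ℕ) : ℤ) = Int.gcd x k3 * Int.gcd x W1 := by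
      intro x
      simp only [Int.gcd, Int.natAbs_natCast]
      exact Nat.Coprime.gcd_mul _ c3
    rw [hg]
    have h1 : Int.gcd ((j1 + j2 * ((iv W2 (k1 * k2 * k3) : ℤ) * l1 * l2') * W1) *
        (iv k1 (k2 * k3 * W1) : ℤ)) k3 = Int.gcd (bE l1 l2 W1 W2 j1 j2) k3 := by
      refine Egc_gcd (u := (W2 : ℤ) * l2 * k1) (v := 1) (u5.mul_left u8) (one1 _) ?_
      unfold bE
      refine ⟨d * (W2 * l2 * (j1 + j2 * ((iv W2 (k1 * k2 * k3) : ℤ) * l1 * l2') * W1)) * k2 * W1 +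
        k1 * k2 * j2 * W1 * l1 * (a * l2 * l2' + b), ?_⟩
      push_cast at ha hb hd ⊢
      linear_combination (W2 * l2 * (j1 + j2 * ((iv W2 (k1 * k2 * k3) : ℤ) * l1 * l2') * W1)) * hd
        + (j2 * W1 * l1 * l2 * l2') * ha + (j2 * W1 * l1) * hb
    have h2 : Int.gcd ((j1 + j2 * ((iv W2 (k1 * k2 * k3) : ℤ) * l1 * l2') * W1) *
        (iv k1 (k2 * k3 * W1) : ℤ)) W1 = Int.gcd j1 W1 := by
      refine Egc_gcd (u := (k1 : ℤ)) (v := 1) u9 (one1 _) ?_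
      refine ⟨d * (j1 + j2 * ((iv W2 (k1 * k2 * k3) : ℤ) * l1 * l2') * W1) * k2 * k3 +
        j2 * ((iv W2 (k1 * k2 * k3) : ℤ) * l1 * l2'), ?_⟩
      push_cast at hd ⊢
      linear_combination (j1 + j2 * ((iv W2 (k1 * k2 * k3) : ℤ) * l1 * l2') * W1) * hd
    rw [h1, h2]
  · refine Egc_gcd (u := ((k1 * k2 * k3 : ℕ) : ℤ)) (v := 1) u10 (one1 _) ?_
    refine ⟨j2 * e, ?_⟩
    linear_combination j2 * he

end Pool.Agent.Lib.SL
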