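import Pool.Agent.Lib.SL.SpecE

/-! Module Ema (theorem tEma): both frequencies nonzero. -/

namespace Pool.Agent.Lib.SL

open Finset Pool.Agent.Lib.EH3 Pool.Agent.Lib.TB Pool.Agent.Results.MP_00e23e_nt Pool.Agent.Lib.MI

private lemma Ema_wE_nonneg (N K : ℕ) (j : ℤ) : 0 ≤ wE N K j := by
  unfold wE
  split_ifs
  · positivity
  · exact le_min (by positivity) (by positivity)

private lemma Ema_sqrt_le (n : ℕ) (hn : 1 ≤ n) : Real.sqrt (n : ℝ) ≤ n := by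
  have h1 : (1 : ℝ) ≤ n := by exact_mod_cast hn
  rw [Real.sqrt_le_left (by linarith)]
  nlinarith

/-- the coefficient -/
private noncomputable def Ema_c (p : ℕ × ℕ × ℕ × ℕ) : ℝ :=
  (p.1 : ℝ) * Real.sqrt (p.2.1 : ℝ) * Real.sqrt (p.2.2.1 : ℝ) * Real.sqrt (p.2.2.2 : ℝ)

private lemma Ema_c_nonneg (p : ℕ × ℕ × ℕ × ℕ) : 0 ≤ Ema_c p := by
  unfold Ema_c
  positivity

private lemma Ema_final (T : ℝ) (k1 k3 f1 f3 e1 e2 N K1 K2 : ℕ) (hT : 1 ≤ T) (hK1 : 1 ≤ K1)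
    (hK2 : 1 ≤ K2) (hf1 : 1 ≤ f1) (hf3 : 1 ≤ f3) (he1 : 1 ≤ e1) (he2 : 1 ≤ e2) (h1 : f1 ≤ k1)
    (h3 : f3 ≤ k3) :
    Ema_c (f1, f3, e1, e2) * (2 * T * ((N : ℝ) / Real.sqrt ((K1 : ℝ) * K2 * ((e1 : ℝ) * e2))) +
      3 * T ^ 2 / ((e1 : ℝ) * e2 * ((f1 * f3 : ℕ) : ℝ))) ≤
    2 * T * ((k1 : ℝ) * Real.sqrt k3 * N / Real.sqrt ((K1 : ℝ) * K2)) + 3 * T ^ 2 := by
  have hK1' : (0 : ℝ) < K1 := by exact_mod_cast hK1
  have hK2' : (0 : ℝ) < K2 := by exact_mod_cast hK2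
  have hf1' : (0 : ℝ) < f1 := by exact_mod_cast hf1
  have hf3' : (0 : ℝ) < f3 := by exact_mod_cast hf3
  have he1' : (0 : ℝ) < e1 := by exact_mod_cast he1
  have he2' : (0 : ℝ) < e2 := by exact_mod_cast he2
  have h1' : (f1 : ℝ) ≤ k1 := by exact_mod_cast h1
  have h3' : (f3 : ℝ) ≤ k3 := by exact_mod_cast h3
  have hs : Real.sqrt ((K1 : ℝ) * K2 * ((e1 : ℝ) * e2)) =
      Real.sqrt ((K1 : ℝ) * K2) * (Real.sqrt e1 * Real.sqrt e2) := by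
    rw [Real.sqrt_mul (by positivity), Real.sqrt_mul (by positivity) (e2 : ℝ)]
  have hse1 : 0 < Real.sqrt (e1 : ℝ) := Real.sqrt_pos.2 he1'
  have hse2 : 0 < Real.sqrt (e2 : ℝ) := Real.sqrt_pos.2 he2'
  have hsf3 : 0 < Real.sqrt (f3 : ℝ) := Real.sqrt_pos.2 hf3'
  have hsK : 0 < Real.sqrt ((K1 : ℝ) * K2) := Real.sqrt_pos.2 (by positivity)
  have hA : Ema_c (f1, f3, e1, e2) *
      (2 * T * ((N : ℝ) / Real.sqrt ((K1 : ℝ) * K2 * ((e1 : ℝ) * e2)))) =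
      2 * T * ((f1 : ℝ) * Real.sqrt f3 * N / Real.sqrt ((K1 : ℝ) * K2)) := by
    unfold Ema_c
    rw [hs]
    field_simp
  have hB : Ema_c (f1, f3, e1, e2) * (3 * T ^ 2 / ((e1 : ℝ) * e2 * ((f1 * f3 : ℕ) : ℝ))) =
      3 * T ^ 2 * ((Real.sqrt f3 / f3) * (Real.sqrt e1 / e1) * (Real.sqrt e2 / e2)) := by
    unfold Ema_c
    push_cast
    field_simp
  rw [mul_add, hA, hB]
  have hd : ∀ n : ℕ, 1 ≤ n → Real.sqrt (n : ℝ) / n ≤ 1 := by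
    intro n hn
    have : (0 : ℝ) < n := by exact_mod_cast hn
    rw [div_le_one this]
    exact Ema_sqrt_le n hn
  have hd0 : ∀ n : ℕ, 0 ≤ Real.sqrt (n : ℝ) / n := fun n => by positivity
  have h4 : (Real.sqrt f3 / f3) * (Real.sqrt e1 / e1) * (Real.sqrt e2 / e2) ≤ 1 := by
    have h5 : (Real.sqrt f3 / f3) * (Real.sqrt e1 / e1) ≤ 1 :=
      mul_le_one₀ (hd f3 hf3) (hd0 e1) (hd e1 he1)
    exact mul_le_one₀ h5 (hd0 e2) (hd e2 he2)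
  have h6 : (f1 : ℝ) * Real.sqrt f3 * N / Real.sqrt ((K1 : ℝ) * K2) ≤
      (k1 : ℝ) * Real.sqrt k3 * N / Real.sqrt ((K1 : ℝ) * K2) := by
    refine div_le_div_of_nonneg_right ?_ hsK.le
    refine mul_le_mul_of_nonneg_right ?_ (Nat.cast_nonneg N)
    exact mul_le_mul h1' (Real.sqrt_le_sqrt h3') hsf3.le (by positivity)
  have h7 : 2 * T * ((f1 : ℝ) * Real.sqrt f3 * N / Real.sqrt ((K1 : ℝ) * K2)) ≤
      2 * T * ((k1 : ℝ) * Real.sqrt k3 * N / Real.sqrt ((K1 : ℝ) * K2)) :=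
    mul_le_mul_of_nonneg_left h6 (by linarith)
  have h8 : 3 * T ^ 2 * ((Real.sqrt f3 / f3) * (Real.sqrt e1 / e1) * (Real.sqrt e2 / e2)) ≤
      3 * T ^ 2 * 1 := mul_le_mul_of_nonneg_left h4 (by positivity)
  linarith

theorem tEma (h1 : EdeStmt) : EmaStmt := by
  intro X T k1 k2 k3 W1 W2 N K1 K2 J1 J2 l1 l2 hT hM hN hK1 hK2 hk hW1X hW2X hJ1 hJ2
  classical
  obtain ⟨hsq, hW1, hW2, hcW1, hcW2, hl1, hl2⟩ := hM
  obtain ⟨hT1, hTlog, hTd⟩ := hT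
  have hk0 : k1 * k2 * k3 ≠ 0 := hsq.ne_zero
  have hk10 : 1 ≤ k1 := Nat.one_le_iff_ne_zero.2 fun h => hk0 (by rw [h]; ring)
  have hk20 : 1 ≤ k2 := Nat.one_le_iff_ne_zero.2 fun h => hk0 (by rw [h]; ring)
  have hk30 : 1 ≤ k3 := Nat.one_le_iff_ne_zero.2 fun h => hk0 (by rw [h]; ring)
  have hk13d : k1 * k3 ∣ k1 * k2 * k3 := ⟨k2, by ring⟩
  have hco13 : k1.Coprime k3 := Nat.coprime_of_squarefree_mul (hsq.squarefree_of_dvd hk13d)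
  have hk1X : (k1 : ℝ) ≤ X := by
    refine le_trans ?_ hk
    exact_mod_cast Nat.le_of_dvd (Nat.pos_of_ne_zero hk0) ⟨k2 * k3, by ring⟩
  have hk3X : (k3 : ℝ) ≤ X := by
    refine le_trans ?_ hk
    exact_mod_cast Nat.le_of_dvd (Nat.pos_of_ne_zero hk0) ⟨k1 * k2, by ring⟩
  set S : Finset (ℕ × ℕ × ℕ × ℕ) :=
    k1.divisors ×ˢ (k3.divisors ×ˢ (W1.divisors ×ˢ W2.divisors)) with hS
  set β : ℤ → ℤ → ℤ := fun j1 j2 => bE l1 l2 W1 W2 j1 j2 with hβ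
  set F : ℕ × ℕ × ℕ × ℕ → ℤ → ℤ → ℝ := fun p j1 j2 => Ema_c p *
    (if ((p.2.2.1 : ℕ) : ℤ) ∣ j1 ∧ ((p.2.2.2 : ℕ) : ℤ) ∣ j2 ∧ ((p.1 * p.2.1 : ℕ) : ℤ) ∣ β j1 j2
      then wE N K1 j1 * wE N K2 j2 else 0) with hF
  have hF0 : ∀ p j1 j2, 0 ≤ F p j1 j2 := by
    intro p j1 j2
    refine mul_nonneg (Ema_c_nonneg p) ?_
    split_ifs
    · exact mul_nonneg (Ema_wE_nonneg _ _ _) (Ema_wE_nonneg _ _ _)
    · exact le_refl 0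
  have hterm : ∀ j1 j2 : ℤ, wE N K1 j1 * wE N K2 j2 * ((Int.gcd (bE l1 l2 W1 W2 j1 j2) k1 : ℝ) *
        Real.sqrt (Int.gcd (bE l1 l2 W1 W2 j1 j2) k3 : ℝ) * Real.sqrt (Int.gcd j1 W1 : ℝ) *
          Real.sqrt (Int.gcd j2 W2 : ℝ)) ≤ ∑ p ∈ S, F p j1 j2 := by
    intro j1 j2
    have hg : ∀ (z : ℤ) (n : ℕ), 1 ≤ n → Int.gcd z (n : ℤ) ∈ n.divisors := by
      intro z n hn
      rw [Nat.mem_divisors]
      refine ⟨?_, by omega⟩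
      have := Int.gcd_dvd_natAbs_right z (n : ℤ)
      simpa using this
    have hmem : ((Int.gcd (β j1 j2) k1, Int.gcd (β j1 j2) k3, Int.gcd j1 W1, Int.gcd j2 W2) :
        ℕ × ℕ × ℕ × ℕ) ∈ S := by
      rw [hS, mem_product, mem_product, mem_product]
      exact ⟨hg _ _ hk10, hg _ _ hk30, hg _ _ hW1, hg _ _ hW2⟩
    have hdv : ((Int.gcd (β j1 j2) k1 * Int.gcd (β j1 j2) k3 : ℕ) : ℤ) ∣ β j1 j2 := by
      rw [Int.natCast_dvd]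
      refine Nat.Coprime.mul_dvd_of_dvd_of_dvd ?_ ?_ ?_
      · refine Nat.Coprime.of_dvd ?_ ?_ hco13
        · have := Int.gcd_dvd_natAbs_right (β j1 j2) (k1 : ℤ)
          simpa using this
        · have := Int.gcd_dvd_natAbs_right (β j1 j2) (k3 : ℤ)
          simpa using this
      · exact Int.gcd_dvd_natAbs_left _ _
      · exact Int.gcd_dvd_natAbs_left _ _
    have hle := single_le_sum (f := fun p => F p j1 j2) (fun p _ => hF0 p j1 j2) hmem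
    refine le_trans (le_of_eq ?_) hle
    have hc : ((Int.gcd j1 (W1 : ℤ) : ℕ) : ℤ) ∣ j1 ∧ ((Int.gcd j2 (W2 : ℤ) : ℕ) : ℤ) ∣ j2 ∧
        ((Int.gcd (β j1 j2) k1 * Int.gcd (β j1 j2) k3 : ℕ) : ℤ) ∣ β j1 j2 :=
      ⟨Int.gcd_dvd_left _ _, Int.gcd_dvd_left _ _, hdv⟩
    simp only [hF]
    rw [if_pos hc]
    unfold Ema_c
    simp only [hβ]
    ring
  have hsum : ∑ j1 ∈ (Icc (-(J1 : ℤ)) (J1 : ℤ)).filter (fun a => a ≠ 0),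
      ∑ j2 ∈ (Icc (-(J2 : ℤ)) (J2 : ℤ)).filter (fun a => a ≠ 0), ∑ p ∈ S, F p j1 j2 =
      ∑ p ∈ S, ∑ j1 ∈ (Icc (-(J1 : ℤ)) (J1 : ℤ)).filter (fun a => a ≠ 0),
        ∑ j2 ∈ (Icc (-(J2 : ℤ)) (J2 : ℤ)).filter (fun a => a ≠ 0), F p j1 j2 := by
    rw [sum_comm' (s' := fun _ => (Icc (-(J1 : ℤ)) (J1 : ℤ)).filter (fun a => a ≠ 0)) (t' := S)
      (f := fun j1 p => ∑ j2 ∈ (Icc (-(J2 : ℤ)) (J2 : ℤ)).filter (fun a => a ≠ 0), F p j1 j2)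
      (s := (Icc (-(J1 : ℤ)) (J1 : ℤ)).filter (fun a => a ≠ 0)) (t := fun _ => S)
      (by intro x y; tauto) |>.symm]
    refine sum_congr rfl fun j1 _ => ?_
    exact sum_comm
  have hp : ∀ p ∈ S, ∑ j1 ∈ (Icc (-(J1 : ℤ)) (J1 : ℤ)).filter (fun a => a ≠ 0),
        ∑ j2 ∈ (Icc (-(J2 : ℤ)) (J2 : ℤ)).filter (fun a => a ≠ 0), F p j1 j2 ≤
      2 * T * ((k1 : ℝ) * Real.sqrt k3 * N / Real.sqrt ((K1 : ℝ) * K2)) + 3 * T ^ 2 := by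
    rintro ⟨f1, f3, e1, e2⟩ hpS
    rw [hS, mem_product, mem_product, mem_product] at hpS
    obtain ⟨hf1, hf3, he1, he2⟩ := hpS
    simp only at hf1 hf3 he1 he2
    have hf1d := Nat.dvd_of_mem_divisors hf1
    have hf3d := Nat.dvd_of_mem_divisors hf3
    have he1d := Nat.dvd_of_mem_divisors he1
    have he2d := Nat.dvd_of_mem_divisors he2
    have hf1p : 1 ≤ f1 := Nat.pos_of_mem_divisors hf1
    have hf3p : 1 ≤ f3 := Nat.pos_of_mem_divisors hf3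
    have he1p : 1 ≤ e1 := Nat.pos_of_mem_divisors he1
    have he2p : 1 ≤ e2 := Nat.pos_of_mem_divisors he2
    have hfd : f1 * f3 ∣ k1 * k2 * k3 := (Nat.mul_dvd_mul hf1d hf3d).trans hk13d
    have hfX : ((f1 * f3 : ℕ) : ℝ) ≤ X := by
      refine le_trans ?_ hk
      exact_mod_cast Nat.le_of_dvd (Nat.pos_of_ne_zero hk0) hfd
    have hgl : ∀ l : ℤ, Int.gcd l ((k1 * k2 * k3 : ℕ) : ℤ) = 1 → Int.gcd l ((f1 * f3 : ℕ) : ℤ) = 1 := by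
      intro l hl
      have h2 : Int.gcd l ((f1 * f3 : ℕ) : ℤ) ∣ Int.gcd l ((k1 * k2 * k3 : ℕ) : ℤ) :=
        Int.gcd_dvd_gcd_of_dvd_right _ (by exact_mod_cast hfd)
      rw [hl] at h2
      exact Nat.dvd_one.1 h2
    have hE := h1 X T N K1 K2 e1 e2 (f1 * f3) W1 W2 J1 J2 l1 l2 ⟨hT1, hTlog, hTd⟩ hN hK1 hK2 hW1 hW2
      he1d he2d (Nat.mul_pos hf1p hf3p) hfX hJ1 hJ2 (Nat.Coprime.of_dvd_left hfd hcW1)
      (Nat.Coprime.of_dvd_left hfd hcW2) (hgl l1 hl1) (hgl l2 hl2)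
    have heq : ∑ j1 ∈ (Icc (-(J1 : ℤ)) (J1 : ℤ)).filter (fun a => a ≠ 0),
        ∑ j2 ∈ (Icc (-(J2 : ℤ)) (J2 : ℤ)).filter (fun a => a ≠ 0), F (f1, f3, e1, e2) j1 j2 =
        Ema_c (f1, f3, e1, e2) * ∑ j1 ∈ (Icc (-(J1 : ℤ)) (J1 : ℤ)).filter (fun a => a ≠ 0),
          ∑ j2 ∈ (Icc (-(J2 : ℤ)) (J2 : ℤ)).filter (fun a => a ≠ 0),
          (if (e1 : ℤ) ∣ j1 ∧ (e2 : ℤ) ∣ j2 ∧ ((f1 * f3 : ℕ) : ℤ) ∣ bE l1 l2 W1 W2 j1 j2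
            then wE N K1 j1 * wE N K2 j2 else 0) := by
      rw [mul_sum]
      refine sum_congr rfl fun j1 _ => ?_
      rw [mul_sum]
    rw [heq]
    refine (mul_le_mul_of_nonneg_left hE (Ema_c_nonneg _)).trans ?_
    exact Ema_final T k1 k3 f1 f3 e1 e2 N K1 K2 hT1 hK1 hK2 hf1p hf3p he1p he2p
      (Nat.le_of_dvd hk10 hf1d) (Nat.le_of_dvd hk30 hf3d)
  set M : ℝ := 2 * T * ((k1 : ℝ) * Real.sqrt k3 * N / Real.sqrt ((K1 : ℝ) * K2)) + 3 * T ^ 2 with hMd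
  have hM0 : 0 ≤ M := by positivity
  have hcard : (S.card : ℝ) ≤ T ^ 4 := by
    rw [hS, card_product, card_product, card_product]
    push_cast
    have a1 := hTd k1 hk10 hk1X
    have a2 := hTd k3 hk30 hk3X
    have a3 := hTd W1 hW1 hW1X
    have a4 := hTd W2 hW2 hW2X
    have hT0 : 0 ≤ T := by linarith
    calc (k1.divisors.card : ℝ) * ((k3.divisors.card : ℝ) * ((W1.divisors.card : ℝ) * (W2.divisors.card : ℝ)))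
        ≤ T * (T * (T * T)) := by
          refine mul_le_mul a1 ?_ (by positivity) hT0
          refine mul_le_mul a2 ?_ (by positivity) hT0
          exact mul_le_mul a3 a4 (by positivity) hT0
      _ = T ^ 4 := by ring
  calc ∑ j1 ∈ (Icc (-(J1 : ℤ)) (J1 : ℤ)).filter (fun a => a ≠ 0),
        ∑ j2 ∈ (Icc (-(J2 : ℤ)) (J2 : ℤ)).filter (fun a => a ≠ 0),
      wE N K1 j1 * wE N K2 j2 * ((Int.gcd (bE l1 l2 W1 W2 j1 j2) k1 : ℝ) *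
        Real.sqrt (Int.gcd (bE l1 l2 W1 W2 j1 j2) k3 : ℝ) * Real.sqrt (Int.gcd j1 W1 : ℝ) *
          Real.sqrt (Int.gcd j2 W2 : ℝ))
      ≤ ∑ j1 ∈ (Icc (-(J1 : ℤ)) (J1 : ℤ)).filter (fun a => a ≠ 0),
      ∑ j2 ∈ (Icc (-(J2 : ℤ)) (J2 : ℤ)).filter (fun a => a ≠ 0), ∑ p ∈ S, F p j1 j2 :=
        sum_le_sum fun j1 _ => sum_le_sum fun j2 _ => hterm j1 j2
    _ = ∑ p ∈ S, ∑ j1 ∈ (Icc (-(J1 : ℤ)) (J1 : ℤ)).filter (fun a => a ≠ 0),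
        ∑ j2 ∈ (Icc (-(J2 : ℤ)) (J2 : ℤ)).filter (fun a => a ≠ 0), F p j1 j2 := hsum
    _ ≤ ∑ _p ∈ S, M := sum_le_sum hp
    _ = (S.card : ℝ) * M := by rw [sum_const, nsmul_eq_mul]
    _ ≤ T ^ 4 * M := mul_le_mul_of_nonneg_right hcard hM0

end Pool.Agent.Lib.SL
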