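import Pool.Agent.Lib.SL.SpecE

/-! MP_00e23e_nt, Lib/SL: a bound for Ramanujan's sum. -/

namespace Pool.Agent.Lib.SL

open Finset Pool.Agent.Lib.EH3 Pool.Agent.Lib.TB Pool.Agent.Results.MP_00e23e_nt Pool.Agent.Lib.MI

private theorem Erm_mu (k x : ℕ) (hk : 1 ≤ k) :
    (if x.Coprime k then (1 : ℂ) else 0) =
      ∑ d ∈ k.divisors, if d ∣ x then ((ArithmeticFunction.moebius d : ℤ) : ℂ) else 0 := by
  rw [← Finset.sum_filter]
  have h1 : k.divisors.filter (fun d => d ∣ x) = (x.gcd k).divisors := by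
    ext d
    simp only [mem_filter, Nat.mem_divisors, Nat.dvd_gcd_iff]
    constructor
    · rintro ⟨⟨h1, h2⟩, h3⟩
      exact ⟨⟨h3, h1⟩, (Nat.gcd_pos_of_pos_right x hk).ne'⟩
    · rintro ⟨⟨h1, h2⟩, _⟩
      exact ⟨⟨h2, by omega⟩, h1⟩
  rw [h1, ← Int.cast_sum, ← ArithmeticFunction.coe_mul_zeta_apply,
    ArithmeticFunction.moebius_mul_coe_zeta, ArithmeticFunction.one_apply]
  by_cases h : x.Coprime k
  · rw [if_pos h, if_pos (h : x.gcd k = 1), Int.cast_one]
  · rw [if_neg h, if_neg (h : ¬ x.gcd k = 1), Int.cast_zero]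

private theorem Erm_part (k : ℕ) (J : ℤ) (hk : 1 ≤ k) (d : ℕ) (hd : d ∣ k) :
    ‖∑ x ∈ (range k).filter (fun x => d ∣ x), en (J * x) k‖ ≤ (Int.gcd J k : ℝ) := by
  obtain ⟨e, rfl⟩ := hd
  have hd0 : 1 ≤ d := Nat.pos_of_mul_pos_right hk
  have he0 : 0 < e := Nat.pos_of_mul_pos_left hk
  have h1 : ∑ x ∈ (range (d * e)).filter (fun x => d ∣ x), en (J * x) (d * e) =
      ∑ y ∈ range e, en (J * y) e := by
    symm
    refine Finset.sum_nbij (fun y => d * y) ?_ ?_ ?_ ?_
    · intro y hy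
      rw [mem_range] at hy
      exact mem_filter.mpr ⟨mem_range.mpr (Nat.mul_lt_mul_of_pos_left hy hd0), dvd_mul_right _ _⟩
    · intro y _ y' _ h
      exact Nat.eq_of_mul_eq_mul_left hd0 h
    · intro x hx
      obtain ⟨h2, h3⟩ := mem_filter.mp (mem_coe.mp hx)
      obtain ⟨y, rfl⟩ := h3
      rw [mem_range] at h2
      exact ⟨y, mem_coe.mpr (mem_range.mpr (Nat.lt_of_mul_lt_mul_left h2)), rfl⟩
    · intro y _
      have h2 := en_mul_left d (J * y) e hd0
      rw [← h2]
      congr 1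
      push_cast
      ring
  rw [h1]
  have h2 : ∀ y ∈ range e, en (J * y) e = ee (y * ((J : ℝ) / e)) := by
    intro y _
    unfold en
    congr 1
    push_cast
    ring
  rw [Finset.sum_congr rfl h2, orth he0 J]
  split_ifs with h
  · rw [Complex.norm_natCast]
    have h3 : e ∣ Int.gcd J ((d * e : ℕ) : ℤ) := by
      apply Int.dvd_gcd h
      push_cast
      exact dvd_mul_left _ _
    have h4 : 0 < Int.gcd J ((d * e : ℕ) : ℤ) := by
      apply Int.gcd_pos_of_ne_zero_right
      exact_mod_cast (by omega : d * e ≠ 0)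
    exact_mod_cast Nat.le_of_dvd h4 h3
  · rw [norm_zero]
    positivity

/-- Ramanujan's sum. -/
theorem tErm : ErmStmt := by
  intro k J hk
  have h1 : ∑ x ∈ (range k).filter (fun x => x.Coprime k), en (J * x) k =
      ∑ d ∈ k.divisors, ((ArithmeticFunction.moebius d : ℤ) : ℂ) *
        ∑ x ∈ (range k).filter (fun x => d ∣ x), en (J * x) k := by
    rw [Finset.sum_filter]
    have h2 : ∀ x ∈ range k, (if x.Coprime k then en (J * x) k else 0) =
        ∑ d ∈ k.divisors, (if d ∣ x then ((ArithmeticFunction.moebius d : ℤ) : ℂ) * en (J * x) k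
          else 0) := by
      intro x _
      have h3 := Erm_mu k x hk
      have h4 : (if x.Coprime k then en (J * x) k else 0) =
          (if x.Coprime k then (1 : ℂ) else 0) * en (J * x) k := by
        split_ifs <;> simp
      rw [h4, h3, Finset.sum_mul]
      refine Finset.sum_congr rfl fun d _ => ?_
      split_ifs <;> simp
    rw [Finset.sum_congr rfl h2, Finset.sum_comm]
    refine Finset.sum_congr rfl fun d _ => ?_
    rw [Finset.mul_sum, Finset.sum_filter]
  rw [h1]
  refine (norm_sum_le _ _).trans ?_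
  have h2 : ∀ d ∈ k.divisors, ‖((ArithmeticFunction.moebius d : ℤ) : ℂ) *
      ∑ x ∈ (range k).filter (fun x => d ∣ x), en (J * x) k‖ ≤ (Int.gcd J k : ℝ) := by
    intro d hd
    rw [norm_mul]
    have h3 : ‖((ArithmeticFunction.moebius d : ℤ) : ℂ)‖ ≤ 1 := by
      rw [Complex.norm_intCast]
      exact_mod_cast ArithmeticFunction.abs_moebius_le_one
    have h4 := Erm_part k J hk d (Nat.dvd_of_mem_divisors hd)
    calc _ ≤ 1 * (Int.gcd J k : ℝ) := mul_le_mul h3 h4 (norm_nonneg _) zero_le_one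
      _ = _ := one_mul _
  refine (Finset.sum_le_sum h2).trans ?_
  rw [Finset.sum_const, nsmul_eq_mul]

end Pool.Agent.Lib.SL
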