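import Pool.Agent.Lib.SL.SpecE

/-!
MP_00e23e_nt, project SL, module Esn: the sum over n2.
-/

namespace Pool.Agent.Lib.SL

open Finset Pool.Agent.Lib.EH3 Pool.Agent.Lib.TB Pool.Agent.Results.MP_00e23e_nt Pool.Agent.Lib.MI

/-- exactly one residue -/
private lemma Esn_one (k : ℕ) (a c l2 l2' : ℤ) (hk : 1 ≤ k) (hl : (k : ℤ) ∣ l2 * l2' - 1) :
    ∑ x ∈ range k, (if (k : ℤ) ∣ a - l2 * x then en (c * x) k else 0) =
      en (c * (a * l2')) k := by
  have hk0 : (0 : ℤ) < k := by exact_mod_cast hk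
  have h0 : 0 ≤ (a * l2') % (k : ℤ) := Int.emod_nonneg _ hk0.ne'
  have h1 : (a * l2') % (k : ℤ) < k := Int.emod_lt_of_pos _ hk0
  obtain ⟨x0, hx0⟩ := Int.eq_ofNat_of_zero_le h0
  have hx0k : x0 < k := by
    rw [hx0] at h1
    exact_mod_cast h1
  have hdx0 : (k : ℤ) ∣ a * l2' - x0 := by
    rw [← hx0]
    exact Int.dvd_self_sub_emod
  have hiff : ∀ x : ℤ, (k : ℤ) ∣ a - l2 * x ↔ (k : ℤ) ∣ a * l2' - x := by
    intro x
    constructor
    · intro h
      have h2 := (h.mul_left l2').add (hl.mul_left x)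
      have e : l2' * (a - l2 * x) + x * (l2 * l2' - 1) = a * l2' - x := by ring
      rwa [e] at h2
    · intro h
      have h2 := (h.mul_left l2).sub (hl.mul_left a)
      have e : l2 * (a * l2' - x) - a * (l2 * l2' - 1) = a - l2 * x := by ring
      rwa [e] at h2
  rw [sum_eq_single x0]
  · rw [if_pos ((hiff x0).2 hdx0)]
    apply en_congr
    have e : c * (x0 : ℤ) - c * (a * l2') = -c * (a * l2' - x0) := by ring
    rw [e]
    exact hdx0.mul_left _
  · intro x hx hne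
    rw [if_neg]
    intro h
    apply hne
    have h2 := (hiff x).1 h
    have h3 : (k : ℤ) ∣ (x : ℤ) - x0 := by
      have h4 := hdx0.sub h2
      have e : a * l2' - (x0 : ℤ) - (a * l2' - x) = x - x0 := by ring
      rwa [e] at h4
    have hxk := mem_range.1 hx
    have h5 : (x : ℤ) - x0 = 0 := by
      apply Int.eq_zero_of_abs_lt_dvd h3
      rw [abs_lt]
      constructor <;> omega
    omega
  · intro h
    exact absurd (mem_range.2 hx0k) h

theorem tEsn (h1 : EcrStmt) : EsnStmt := by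
  intro k W2 n1 l1 l2 l2' j2 Φ2 hk hW hcop hl hΦ
  have hterm : ∀ n2 ∈ range (k * W2),
      (if (k : ℤ) ∣ l1 * n1 - l2 * n2 then Φ2 n2 * en (j2 * n2) (k * W2) else 0) =
      (if (k : ℤ) ∣ l1 * n1 - l2 * n2 then en (j2 * (iv W2 k : ℤ) * n2) k else 0) *
        (Φ2 n2 * en (j2 * (iv k W2 : ℤ) * n2) W2) := by
    intro n2 _
    split_ifs with h
    · rw [en_crt hcop hk hW]
      have e1 : j2 * (n2 : ℤ) * (iv W2 k : ℤ) = j2 * (iv W2 k : ℤ) * n2 := by ring
      have e2 : j2 * (n2 : ℤ) * (iv k W2 : ℤ) = j2 * (iv k W2 : ℤ) * n2 := by ring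
      rw [e1, e2]
      ring
    · rw [zero_mul]
  rw [sum_congr rfl hterm, h1 k W2
    (fun n => if (k : ℤ) ∣ l1 * n1 - l2 * n then en (j2 * (iv W2 k : ℤ) * n) k else 0)
    (fun n => Φ2 n * en (j2 * (iv k W2 : ℤ) * n) W2) hk hW hcop ?_ ?_]
  · unfold hE
    rw [Esn_one k (l1 * n1) (j2 * (iv W2 k : ℤ)) l2 l2' hk hl]
    have e : j2 * (iv W2 k : ℤ) * l1 * l2' * n1 = j2 * (iv W2 k : ℤ) * (l1 * n1 * l2') := by ring
    rw [e]
  · intro n
    have e1 : l1 * (n1 : ℤ) - l2 * ((n + k : ℕ) : ℤ) = l1 * n1 - l2 * n - k * l2 := by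
      push_cast
      ring
    have e2 : (k : ℤ) ∣ l1 * (n1 : ℤ) - l2 * ((n + k : ℕ) : ℤ) ↔ (k : ℤ) ∣ l1 * n1 - l2 * n := by
      rw [e1]
      exact dvd_sub_left (dvd_mul_right _ _)
    have e3 : en (j2 * (iv W2 k : ℤ) * ((n + k : ℕ) : ℤ)) k = en (j2 * (iv W2 k : ℤ) * n) k := by
      apply en_congr
      have e : j2 * (iv W2 k : ℤ) * ((n + k : ℕ) : ℤ) - j2 * (iv W2 k : ℤ) * n =
          k * (j2 * (iv W2 k : ℤ)) := by
        push_cast
        ring
      rw [e]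
      exact dvd_mul_right _ _
    simp only [e2, e3]
  · intro n
    have e3 : en (j2 * (iv k W2 : ℤ) * ((n + W2 : ℕ) : ℤ)) W2 =
        en (j2 * (iv k W2 : ℤ) * n) W2 := by
      apply en_congr
      have e : j2 * (iv k W2 : ℤ) * ((n + W2 : ℕ) : ℤ) - j2 * (iv k W2 : ℤ) * n =
          W2 * (j2 * (iv k W2 : ℤ)) := by
        push_cast
        ring
      rw [e]
      exact dvd_mul_right _ _
    simp only [hΦ, e3]

end Pool.Agent.Lib.SL
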