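import Pool.Agent.Lib.SL.SpecE

/-!
MP_00e23e_nt, project SL: module Ewb, the weights in a residue class.
-/

set_option autoImplicit false

namespace Pool.Agent.Lib.SL

open Finset Pool.Agent.Lib.EH3 Pool.Agent.Lib.TB Pool.Agent.Results.MP_00e23e_nt Pool.Agent.Lib.MI

private lemma Ewb_nonneg (N K : ℕ) (j : ℤ) : 0 ≤ wE N K j := by
  unfold wE
  split_ifs
  · positivity
  · positivity

private lemma Ewb_even (N K : ℕ) (j : ℤ) : wE N K (-j) = wE N K j := by
  unfold wE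
  simp only [neg_eq_zero, Int.cast_neg, abs_neg]

private lemma Ewb_le (N K e f i b : ℕ) (he : 1 ≤ e) (hf : 1 ≤ f) (hi : 1 ≤ i) :
    wE N K ((e : ℤ) * ((b : ℤ) + f * i)) ≤ 1 / (2 * ((e : ℝ) * f)) * (i : ℝ)⁻¹ := by
  have he' : (1 : ℝ) ≤ e := by exact_mod_cast he
  have hf' : (1 : ℝ) ≤ f := by exact_mod_cast hf
  have hi' : (1 : ℝ) ≤ i := by exact_mod_cast hi
  have hpos : (0 : ℝ) < (e : ℝ) * f * i := by positivity
  have hcast : |(((e : ℤ) * ((b : ℤ) + f * i) : ℤ) : ℝ)| = (e : ℝ) * (b + f * i) := by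
    push_cast
    exact abs_of_nonneg (by positivity)
  have hne : ((e : ℤ) * ((b : ℤ) + f * i)) ≠ 0 := by
    intro h0
    rw [h0, Int.cast_zero, abs_zero] at hcast
    have hb : (0 : ℝ) ≤ (e : ℝ) * b := by positivity
    nlinarith
  unfold wE
  rw [if_neg hne, hcast]
  refine (min_le_right _ _).trans ?_
  rw [← one_div, div_mul_div_comm, mul_one]
  apply one_div_le_one_div_of_le (by positivity)
  have hb : (0 : ℝ) ≤ (e : ℝ) * b := by positivity
  nlinarith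

private lemma Ewb_harm (J : ℕ) :
    ∑ i ∈ range J, (((i + 1 : ℕ) : ℝ))⁻¹ ≤ 1 + Real.log J := by
  have h := harmonic_le_one_add_log J
  unfold harmonic at h
  push_cast at h ⊢
  exact h

private lemma Ewb_one (N K e f J b : ℕ) (he : 1 ≤ e) (hf : 1 ≤ f) (S : Finset ℤ)
    (hS : ∀ a ∈ S, ∃ i : ℕ, i ≤ J ∧ a = (b : ℤ) + f * i) :
    ∑ a ∈ S, wE N K ((e : ℤ) * a) ≤
      wE N K ((e : ℤ) * b) + 1 / (2 * ((e : ℝ) * f)) * (1 + Real.log J) := by
  have hinj : Set.InjOn (fun i : ℕ => (b : ℤ) + f * i) (range (J + 1) : Set ℕ) := by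
    intro i _ i' _ h
    simp only [add_right_inj] at h
    have hf0 : (f : ℤ) ≠ 0 := by omega
    exact_mod_cast mul_left_cancel₀ hf0 h
  have hsub : S ⊆ (range (J + 1)).image (fun i : ℕ => (b : ℤ) + f * i) := by
    intro a ha
    obtain ⟨i, hi, hia⟩ := hS a ha
    exact mem_image.mpr ⟨i, mem_range.mpr (by omega), hia.symm⟩
  calc ∑ a ∈ S, wE N K ((e : ℤ) * a)
      ≤ ∑ a ∈ (range (J + 1)).image (fun i : ℕ => (b : ℤ) + f * i), wE N K ((e : ℤ) * a) :=
        sum_le_sum_of_subset_of_nonneg hsub fun a _ _ => Ewb_nonneg _ _ _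
    _ = ∑ i ∈ range (J + 1), wE N K ((e : ℤ) * ((b : ℤ) + f * i)) := sum_image hinj
    _ = ∑ i ∈ range J, wE N K ((e : ℤ) * ((b : ℤ) + f * ((i + 1 : ℕ) : ℤ))) +
          wE N K ((e : ℤ) * ((b : ℤ) + f * ((0 : ℕ) : ℤ))) := sum_range_succ' _ _
    _ ≤ ∑ i ∈ range J, 1 / (2 * ((e : ℝ) * f)) * (((i + 1 : ℕ) : ℝ))⁻¹ +
          wE N K ((e : ℤ) * b) := by
        refine add_le_add (sum_le_sum fun i _ => Ewb_le N K e f (i + 1) b he hf (by omega)) ?_
        rw [Nat.cast_zero, mul_zero, add_zero]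
    _ ≤ wE N K ((e : ℤ) * b) + 1 / (2 * ((e : ℝ) * f)) * (1 + Real.log J) := by
        rw [← mul_sum, add_comm]
        exact add_le_add le_rfl (mul_le_mul_of_nonneg_left (Ewb_harm J) (by positivity))

theorem tEwb : EwbStmt := by
  intro N K e f J c hK he hf hc
  obtain ⟨U, hU⟩ : ∃ U, U = (Icc (-(J : ℤ)) (J : ℤ)).filter
      (fun a => a ≠ 0 ∧ (f : ℤ) ∣ a - c) := ⟨_, rfl⟩
  rw [← hU]
  have hmem : ∀ a, a ∈ U ↔ (-(J : ℤ) ≤ a ∧ a ≤ J) ∧ a ≠ 0 ∧ (f : ℤ) ∣ a - c := by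
    intro a
    rw [hU, mem_filter, mem_Icc]
  have hfJ : ∀ i : ℕ, (f : ℤ) * i ≤ J → i ≤ J := by
    intro i hi
    have h1 : f * i ≤ J := by exact_mod_cast hi
    exact (Nat.le_mul_of_pos_left i hf).trans h1
  have hpos := Ewb_one N K e f J (if c = 0 then f else c) he hf (U.filter (fun a => 0 < a)) (by
    intro a ha
    obtain ⟨haU, ha0⟩ := mem_filter.mp ha
    obtain ⟨⟨-, haJ⟩, -, k, hk⟩ := (hmem a).mp haU
    have hfz : (1 : ℤ) ≤ f := by exact_mod_cast hf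
    have hcz : (c : ℤ) < f := by exact_mod_cast hc
    split_ifs with hc0
    · subst hc0
      rw [Nat.cast_zero, sub_zero] at hk
      have hk1 : 1 ≤ k := by
        by_contra hk1
        have : (f : ℤ) * k ≤ 0 := mul_nonpos_of_nonneg_of_nonpos (by omega) (by omega)
        omega
      obtain ⟨i, hi⟩ : ∃ i : ℕ, k = i + 1 := ⟨(k - 1).toNat, by omega⟩
      refine ⟨i, hfJ i ?_, ?_⟩
      · have : (f : ℤ) * i + f = a := by rw [hk, hi]; ring
        omega
      · rw [hk, hi]; ring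
    · have hk0 : 0 ≤ k := by
        by_contra hk0
        have : (f : ℤ) * k ≤ f * (-1) := mul_le_mul_of_nonneg_left (by omega) (by omega)
        omega
      obtain ⟨i, rfl⟩ : ∃ i : ℕ, k = i := ⟨k.toNat, by omega⟩
      refine ⟨i, hfJ i (by omega), by omega⟩)
  have hneg := Ewb_one N K e f J (f - c) he hf ((U.filter (fun a => ¬ 0 < a)).image Neg.neg) (by
    intro a ha
    obtain ⟨a', ha', rfl⟩ := mem_image.mp ha
    obtain ⟨haU, ha0⟩ := mem_filter.mp ha'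
    obtain ⟨⟨haJ, -⟩, hane, k, hk⟩ := (hmem a').mp haU
    have hfz : (1 : ℤ) ≤ f := by exact_mod_cast hf
    have hcz : (c : ℤ) < f := by exact_mod_cast hc
    rw [Nat.cast_sub hc.le]
    have hk0 : k ≤ -1 := by
      by_contra hk0
      have : (0 : ℤ) ≤ f * k := mul_nonneg (by omega) (by omega)
      omega
    obtain ⟨i, hi⟩ : ∃ i : ℕ, k = -(i : ℤ) - 1 := ⟨(-k - 1).toNat, by omega⟩
    have h1 : (f : ℤ) * k = -(f * i) - f := by rw [hi]; ring
    refine ⟨i, hfJ i (by omega), by omega⟩)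
  rw [sum_image (fun a _ a' _ h => neg_injective h)] at hneg
  have e1 : ∑ a ∈ U.filter (fun a => ¬ 0 < a), wE N K ((e : ℤ) * -a) =
      ∑ a ∈ U.filter (fun a => ¬ 0 < a), wE N K ((e : ℤ) * a) :=
    sum_congr rfl fun a _ => by rw [mul_neg, Ewb_even]
  rw [e1, Nat.cast_sub hc.le] at hneg
  have e2 : (((if c = 0 then f else c : ℕ)) : ℤ) = if c = 0 then (f : ℤ) else (c : ℤ) := by
    split_ifs <;> rfl
  rw [e2] at hpos
  rw [← sum_filter_add_sum_filter_not U (fun a => 0 < a)]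
  have e3 : 1 / (2 * ((e : ℝ) * f)) * (1 + Real.log J) + 1 / (2 * ((e : ℝ) * f)) *
      (1 + Real.log J) = (1 + Real.log J) / ((e : ℝ) * f) := by
    have he' : (e : ℝ) ≠ 0 := by
      have : (1 : ℝ) ≤ e := by exact_mod_cast he
      positivity
    have hf' : (f : ℝ) ≠ 0 := by
      have : (1 : ℝ) ≤ f := by exact_mod_cast hf
      positivity
    field_simp
    ring
  linarith

end Pool.Agent.Lib.SL
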