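import Pool.Agent.Lib.SL.SpecE

/-!
MP_00e23e_nt, project SL, chapter E, module Eza: the frequencies j1 = 0, j2 ≠ 0.
-/

namespace Pool.Agent.Lib.SL

open Finset Pool.Agent.Lib.EH3 Pool.Agent.Lib.TB Pool.Agent.Results.MP_00e23e_nt Pool.Agent.Lib.MI

private lemma Eza_unit (k1 k2 k3 W1 : ℕ) (l1 : ℤ) (h1 : (k1 * k2 * k3).Coprime W1)
    (h2 : Int.gcd l1 ((k1 * k2 * k3 : ℕ) : ℤ) = 1) : Int.gcd ((W1 : ℤ) * l1) ((k1 * k3 : ℕ) : ℤ) = 1 := by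
  have hd : k1 * k3 ∣ k1 * k2 * k3 := ⟨k2, by ring⟩
  have a1 : IsCoprime l1 ((k1 * k3 : ℕ) : ℤ) := by
    have : IsCoprime l1 ((k1 * k2 * k3 : ℕ) : ℤ) := Int.isCoprime_iff_gcd_eq_one.2 h2
    exact this.of_isCoprime_of_dvd_right (by exact_mod_cast hd)
  have a2 : IsCoprime (W1 : ℤ) ((k1 * k3 : ℕ) : ℤ) := by
    rw [Nat.isCoprime_iff_coprime]
    exact (Nat.Coprime.coprime_dvd_left hd h1).symm
  exact Int.isCoprime_iff_gcd_eq_one.1 (a2.mul_left a1)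

theorem tEza (hg : EzgStmt) : EzaStmt := by
  intro X T k1 k2 k3 W1 W2 N J l1 l2 hT hM hX hJ
  obtain ⟨hsq, hW1, hW2, hc1, hc2, hl1, hl2⟩ := hM
  have hk : k1 * k2 * k3 ≠ 0 := hsq.ne_zero
  have hk12 : k1 * k2 ≠ 0 := left_ne_zero_of_mul hk
  have hk1 : k1 ≠ 0 := left_ne_zero_of_mul hk12
  have hk2 : k2 ≠ 0 := right_ne_zero_of_mul hk12
  have hk3 : k3 ≠ 0 := right_ne_zero_of_mul hk
  have hd1 : k1 ∣ k1 * k2 * k3 := ⟨k2 * k3, by ring⟩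
  have hd3 : k3 ∣ k1 * k2 * k3 := ⟨k1 * k2, by ring⟩
  have hd13 : k1 * k3 ∣ k1 * k2 * k3 := ⟨k2, by ring⟩
  have hcop13 : k1.Coprime k3 := by
    have : Squarefree (k1 * k3) := hsq.squarefree_of_dvd hd13
    exact Nat.coprime_of_squarefree_mul this
  have hKle : k1 * k3 * W2 ≤ k1 * k2 * k3 * W2 := by
    apply Nat.mul_le_mul_right
    exact Nat.le_of_dvd (Nat.pos_of_ne_zero hk) hd13
  have hX' : ((k1 * k3 * W2 : ℕ) : ℝ) ≤ X := le_trans (by exact_mod_cast hKle) hX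
  have key := hg X T k1 k3 W2 N (k1 * k2 * k3 * W2) J ((W1 : ℤ) * l1) hT (Nat.pos_of_ne_zero hk1)
    (Nat.pos_of_ne_zero hk3) hW2 (Nat.mul_pos (Nat.pos_of_ne_zero hk) hW2) hcop13
    (Nat.Coprime.coprime_dvd_left hd1 hc2) (Nat.Coprime.coprime_dvd_left hd3 hc2)
    (Eza_unit k1 k2 k3 W1 l1 hc1 hl1) hX' hJ
  have hW1r : (0 : ℝ) < W1 := by exact_mod_cast hW1
  have hkr : (0 : ℝ) < ((k1 * k2 * k3 : ℕ) : ℝ) := by exact_mod_cast Nat.pos_of_ne_zero hk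
  have hN : (0 : ℝ) ≤ N := Nat.cast_nonneg N
  set c : ℝ := (N : ℝ) / (((k1 * k2 * k3 : ℕ) : ℝ) * Real.sqrt W1) with hc
  have hc0 : 0 ≤ c := by rw [hc]; positivity
  have hcc : (N : ℝ) / ((k1 * k2 * k3 * W1 : ℕ) : ℝ) * Real.sqrt W1 = c := by
    have hs : Real.sqrt (W1 : ℝ) ≠ 0 := (Real.sqrt_pos.2 hW1r).ne'
    have hss : Real.sqrt (W1 : ℝ) * Real.sqrt (W1 : ℝ) = W1 := Real.mul_self_sqrt hW1r.le
    rw [hc, Nat.cast_mul (k1 * k2 * k3) W1, div_mul_eq_mul_div,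
      div_eq_div_iff (mul_ne_zero hkr.ne' hW1r.ne') (mul_ne_zero hkr.ne' hs)]
    calc (N : ℝ) * Real.sqrt W1 * (((k1 * k2 * k3 : ℕ) : ℝ) * Real.sqrt W1)
        = (N : ℝ) * (((k1 * k2 * k3 : ℕ) : ℝ) * (Real.sqrt W1 * Real.sqrt W1)) := by ring
      _ = (N : ℝ) * (((k1 * k2 * k3 : ℕ) : ℝ) * (W1 : ℝ)) := by rw [hss]
  have hb : ∀ j : ℤ, bE l1 l2 W1 W2 0 j = (W1 : ℤ) * l1 * j := by
    intro j
    unfold bE
    ring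
  have h0 : wE N (k1 * k2 * k3 * W1) 0 = (N : ℝ) / ((k1 * k2 * k3 * W1 : ℕ) : ℝ) := by
    unfold wE
    rw [if_pos rfl]
  have hg0 : Int.gcd 0 (W1 : ℤ) = W1 := by simp
  calc _ = ∑ j ∈ (Icc (-(J : ℤ)) (J : ℤ)).filter (fun a => a ≠ 0),
        c * (wE N (k1 * k2 * k3 * W2) j * ((Int.gcd ((W1 : ℤ) * l1 * j) k1 : ℝ) *
          Real.sqrt (Int.gcd ((W1 : ℤ) * l1 * j) k3 : ℝ) * Real.sqrt (Int.gcd j W2 : ℝ))) := by
        apply Finset.sum_congr rfl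
        intro j _
        rw [hb j, h0, hg0, ← hcc]
        ring
    _ = c * ∑ j ∈ (Icc (-(J : ℤ)) (J : ℤ)).filter (fun a => a ≠ 0),
        (wE N (k1 * k2 * k3 * W2) j * ((Int.gcd ((W1 : ℤ) * l1 * j) k1 : ℝ) *
          Real.sqrt (Int.gcd ((W1 : ℤ) * l1 * j) k3 : ℝ) * Real.sqrt (Int.gcd j W2 : ℝ))) := by
        rw [Finset.mul_sum]
    _ ≤ c * T ^ 2 := mul_le_mul_of_nonneg_left key hc0
    _ = T ^ 2 * c := by ring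

end Pool.Agent.Lib.SL
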