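import Pool.Agent.Lib.SL.SpecE

/-! MP_00e23e_nt, project SL, chapter E, module Ezg: one frequency is 0. -/

namespace Pool.Agent.Lib.SL

open Finset Pool.Agent.Lib.EH3 Pool.Agent.Lib.TB Pool.Agent.Results.MP_00e23e_nt Pool.Agent.Lib.MI

private lemma Ezg_sqrt (n : ℕ) (hn : 1 ≤ n) : Real.sqrt (n : ℝ) ≤ (n : ℝ) := by
  have h : (1 : ℝ) ≤ (n : ℝ) := by exact_mod_cast hn
  rw [Real.sqrt_le_left (by linarith)]
  nlinarith

/-- the product of the gcds -/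
private lemma Ezg_gcd (k1 k3 W : ℕ) (u j : ℤ) (h13 : k1.Coprime k3) (h1W : k1.Coprime W)
    (h3W : k3.Coprime W) (hu : Int.gcd u ((k1 * k3 : ℕ) : ℤ) = 1) :
    Int.gcd (u * j) k1 * Int.gcd (u * j) k3 * Int.gcd j W =
      Int.gcd ((k1 * k3 * W : ℕ) : ℤ) ((j.natAbs : ℕ) : ℤ) := by
  have hu' : Nat.Coprime u.natAbs (k1 * k3) := hu
  have a1 : Int.gcd (u * j) k1 = Nat.gcd j.natAbs k1 := by
    have : Int.gcd (u * j) k1 = Nat.gcd (u.natAbs * j.natAbs) k1 := by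
      rw [← Int.natAbs_mul]
      rfl
    rw [this]
    exact Nat.Coprime.gcd_mul_left_cancel _ (Nat.Coprime.coprime_mul_right_right hu')
  have a3 : Int.gcd (u * j) k3 = Nat.gcd j.natAbs k3 := by
    have : Int.gcd (u * j) k3 = Nat.gcd (u.natAbs * j.natAbs) k3 := by
      rw [← Int.natAbs_mul]
      rfl
    rw [this]
    exact Nat.Coprime.gcd_mul_left_cancel _ (Nat.Coprime.coprime_mul_left_right hu')
  have aW : Int.gcd j W = Nat.gcd j.natAbs W := rfl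
  have aZ : Int.gcd ((k1 * k3 * W : ℕ) : ℤ) ((j.natAbs : ℕ) : ℤ) =
      Nat.gcd (k1 * k3 * W) j.natAbs := rfl
  rw [a1, a3, aW, aZ, Nat.gcd_comm (k1 * k3 * W), Nat.Coprime.gcd_mul _ (Nat.Coprime.mul_left h1W h3W),
    Nat.Coprime.gcd_mul _ h13]

/-- the summand -/
private lemma Ezg_pt (k1 k3 W N K : ℕ) (u j : ℤ) (hj : j ≠ 0) (hk1 : 1 ≤ k1) (hk3 : 1 ≤ k3) (hW : 1 ≤ W)
    (h13 : k1.Coprime k3) (h1W : k1.Coprime W)
    (h3W : k3.Coprime W) (hu : Int.gcd u ((k1 * k3 : ℕ) : ℤ) = 1) :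
    wE N K j * ((Int.gcd (u * j) k1 : ℝ) * Real.sqrt (Int.gcd (u * j) k3 : ℝ) * Real.sqrt (Int.gcd j W : ℝ)) ≤
      (1 / 2) * ((Int.gcd ((k1 * k3 * W : ℕ) : ℤ) ((j.natAbs : ℕ) : ℤ) : ℝ) / ((j.natAbs : ℕ) : ℝ)) := by
  have hn : 1 ≤ j.natAbs := Nat.pos_of_ne_zero (Int.natAbs_ne_zero.2 hj)
  have hnR : (0 : ℝ) < ((j.natAbs : ℕ) : ℝ) := by exact_mod_cast hn
  have habs : |(j : ℝ)| = ((j.natAbs : ℕ) : ℝ) := by
    rw [Nat.cast_natAbs, Int.cast_abs]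
  have hw : wE N K j ≤ 1 / (2 * ((j.natAbs : ℕ) : ℝ)) := by
    unfold wE
    rw [if_neg hj, habs]
    exact min_le_right _ _
  have hw0 : 0 ≤ wE N K j := by
    unfold wE
    rw [if_neg hj]
    positivity
  have g3 : 1 ≤ Int.gcd (u * j) k3 :=
    Nat.pos_of_ne_zero fun h0 => by
      have := (Int.gcd_eq_zero_iff.1 h0).2
      have : k3 = 0 := by exact_mod_cast this
      omega
  have gW : 1 ≤ Int.gcd j W :=
    Nat.pos_of_ne_zero fun h0 => hj (Int.gcd_eq_zero_iff.1 h0).1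
  have e1 := Ezg_sqrt _ g3
  have e2 := Ezg_sqrt _ gW
  have hprod : (Int.gcd (u * j) k1 : ℝ) * Real.sqrt (Int.gcd (u * j) k3 : ℝ) * Real.sqrt (Int.gcd j W : ℝ) ≤
      (Int.gcd ((k1 * k3 * W : ℕ) : ℤ) ((j.natAbs : ℕ) : ℤ) : ℝ) := by
    have h := Ezg_gcd k1 k3 W u j h13 h1W h3W hu
    have h' : (Int.gcd (u * j) k1 : ℝ) * (Int.gcd (u * j) k3 : ℝ) * (Int.gcd j W : ℝ) =
        (Int.gcd ((k1 * k3 * W : ℕ) : ℤ) ((j.natAbs : ℕ) : ℤ) : ℝ) := by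
      exact_mod_cast h
    rw [← h']
    gcongr
  calc wE N K j * ((Int.gcd (u * j) k1 : ℝ) * Real.sqrt (Int.gcd (u * j) k3 : ℝ) * Real.sqrt (Int.gcd j W : ℝ))
      ≤ 1 / (2 * ((j.natAbs : ℕ) : ℝ)) *
        (Int.gcd ((k1 * k3 * W : ℕ) : ℤ) ((j.natAbs : ℕ) : ℤ) : ℝ) := by
        refine mul_le_mul hw hprod (by positivity) (by positivity)
    _ = (1 / 2) * ((Int.gcd ((k1 * k3 * W : ℕ) : ℤ) ((j.natAbs : ℕ) : ℤ) : ℝ) / ((j.natAbs : ℕ) : ℝ)) := by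
        field_simp

/-- both signs -/
private lemma Ezg_two (f : ℕ → ℝ) (hf : ∀ n, 0 ≤ f n) (J : ℕ) :
    ∑ j ∈ (Icc (-(J : ℤ)) (J : ℤ)).filter (fun a => a ≠ 0), f j.natAbs ≤ ∑ n ∈ Icc 1 J, 2 * f n := by
  classical
  have hmaps : ∀ j ∈ (Icc (-(J : ℤ)) (J : ℤ)).filter (fun a => a ≠ 0), j.natAbs ∈ Icc 1 J := by
    intro j hj
    rw [Finset.mem_filter, Finset.mem_Icc] at hj
    rw [Finset.mem_Icc]
    omega
  rw [← Finset.sum_fiberwise_of_maps_to hmaps]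
  refine Finset.sum_le_sum fun n _ => ?_
  rw [Finset.sum_congr rfl (g := fun _ => f n) (fun j hj => by rw [(Finset.mem_filter.1 hj).2]),
    Finset.sum_const, nsmul_eq_mul]
  refine mul_le_mul_of_nonneg_right ?_ (hf n)
  have hsub : ((Icc (-(J : ℤ)) (J : ℤ)).filter (fun a => a ≠ 0)).filter (fun j => j.natAbs = n) ⊆
      {(n : ℤ), -(n : ℤ)} := by
    intro j hj
    have := (Finset.mem_filter.1 hj).2
    rw [Finset.mem_insert, Finset.mem_singleton]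
    omega
  have hc := (Finset.card_le_card hsub).trans Finset.card_le_two
  exact_mod_cast hc

theorem tEzg (hGsj : MI.T1GsjStmt) : EzgStmt := by
  intro X T k1 k3 W N K J u hTau hk1 hk3 hW hK h13 h1W h3W hu hX hJ
  obtain ⟨hT1, hTl, hTd⟩ := hTau
  have hT0 : 0 ≤ T := by linarith
  have hZ1 : 1 ≤ k1 * k3 * W := Nat.mul_pos (Nat.mul_pos hk1 hk3) hW
  have hZ0 : ((k1 * k3 * W : ℕ) : ℤ) ≠ 0 := by exact_mod_cast (by omega : k1 * k3 * W ≠ 0)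
  have hs := hGsj ((k1 * k3 * W : ℕ) : ℤ) J hZ0
  rw [Int.natAbs_natCast] at hs
  have hτ : ((k1 * k3 * W).divisors.card : ℝ) ≤ T := hTd _ hZ1 hX
  have hlog : 1 + Real.log J ≤ T := by
    rcases Nat.eq_zero_or_pos J with h0 | h0
    · subst h0
      simpa using hT1
    · have hJ0 : (0 : ℝ) < J := by exact_mod_cast h0
      have := Real.log_le_log hJ0 hJ
      linarith
  have hlog0 : 0 ≤ 1 + Real.log J := by
    have := Real.log_natCast_nonneg J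
    linarith
  have hmain : ∑ j ∈ (Icc (-(J : ℤ)) (J : ℤ)).filter (fun a => a ≠ 0),
      wE N K j * ((Int.gcd (u * j) k1 : ℝ) *
        Real.sqrt (Int.gcd (u * j) k3 : ℝ) * Real.sqrt (Int.gcd j W : ℝ)) ≤
      ∑ j ∈ (Icc (-(J : ℤ)) (J : ℤ)).filter (fun a => a ≠ 0),
        (1 / 2) * ((Int.gcd ((k1 * k3 * W : ℕ) : ℤ) ((j.natAbs : ℕ) : ℤ) : ℝ) / ((j.natAbs : ℕ) : ℝ)) :=
    Finset.sum_le_sum fun j hj =>
      Ezg_pt k1 k3 W N K u j (Finset.mem_filter.1 hj).2 hk1 hk3 hW h13 h1W h3W hu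
  refine hmain.trans ?_
  refine (Ezg_two (fun n => (1 / 2) * ((Int.gcd ((k1 * k3 * W : ℕ) : ℤ) ((n : ℕ) : ℤ) : ℝ) / ((n : ℕ) : ℝ)))
    (fun n => by positivity) J).trans ?_
  have heq : ∑ n ∈ Icc 1 J, 2 * ((1 / 2) * ((Int.gcd ((k1 * k3 * W : ℕ) : ℤ) ((n : ℕ) : ℤ) : ℝ) / ((n : ℕ) : ℝ))) =
      ∑ n ∈ Icc 1 J, (Int.gcd ((k1 * k3 * W : ℕ) : ℤ) ((n : ℕ) : ℤ) : ℝ) / ((n : ℕ) : ℝ) :=
    Finset.sum_congr rfl fun n _ => by ring
  rw [heq]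
  refine hs.trans ?_
  calc ((k1 * k3 * W).divisors.card : ℝ) * (1 + Real.log J) ≤ T * T :=
        mul_le_mul hτ hlog hlog0 hT0
    _ = T ^ 2 := by ring

end Pool.Agent.Lib.SL
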