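import Pool.Agent.Lib.SL.Ecm
import Pool.Agent.Lib.SL.Ecw
import Pool.Agent.Lib.SL.Ecr
import Pool.Agent.Lib.SL.Esn
import Pool.Agent.Lib.SL.Efn
import Pool.Agent.Lib.SL.Erm
import Pool.Agent.Lib.SL.Egc
import Pool.Agent.Lib.SL.Efh
import Pool.Agent.Lib.SL.Ewa
import Pool.Agent.Lib.SL.Ewb
import Pool.Agent.Lib.SL.Edd
import Pool.Agent.Lib.SL.Ede
import Pool.Agent.Lib.SL.Ema
import Pool.Agent.Lib.SL.Ezg
import Pool.Agent.Lib.SL.Eza
import Pool.Agent.Lib.SL.Ezb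
import Pool.Agent.Lib.SL.Efi
import Pool.Agent.Lib.MI.T1Gsj

/-!
MP_00e23e_nt, project SL, chapter E: completion in two variables, abstract form (EsStmt), without hypotheses.
-/

namespace Pool.Agent.Lib.SL

theorem aEzg : EzgStmt := tEzg MI.tT1Gsj

theorem aEfh : EfhStmt := tEfh (tEsn tEcr) (tEfn tEcr) tErm tEgc

theorem aEma : EmaStmt := tEma (tEde (tEdd tEwa tEwb))

/-- completion in two variables over a lattice -/
theorem aEs : EsStmt := tEfi (tEcw tEcm) aEfh aEma (tEza aEzg) (tEzb aEzg)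

end Pool.Agent.Lib.SL
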