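import Pool.Agent.Lib.SL.SpecCK

/-!
MP_00e23e_nt, project SL, phase 2 (helper3): module CouK, the number of outer variables with colours.
-/

set_option autoImplicit false

namespace Pool.Agent.Lib.SL

open Finset Pool.Agent.Lib.EH3 Pool.Agent.Lib.TB Pool.Agent.Results.MP_00e23e_nt Pool.Agent.Lib.MI

theorem tCouK (h1 : CouStmt) : CouKStmt := by
  classical
  intro a b ρ v col K g R S N R0 V g1 g2 hN hR0 hV hRN hg1 hg2
  choose O hO hO' using fun c : ℕ × ℕ =>
    h1 a (fun m u => b m u c.1) (fun m u => b m u c.2) ρ v g R S N R0 V g1 g2 hN hR0 hV hRN hg1 hg2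
  set B : ℝ := 12 * ((S : ℝ) ^ 2 * (N : ℝ) ^ 2) / ((V : ℝ) ^ 2 * g1 * g2) with hB
  refine ⟨(range K ×ˢ range K).biUnion (fun c => (O c).image
    (fun t => ((t.1.1, t.1.2.1 * K + c.1, t.1.2.2 * K + c.2), t.2))), ?_, ?_⟩
  · have e1 : (((range K ×ˢ range K).biUnion (fun c => (O c).image
        (fun t => ((t.1.1, t.1.2.1 * K + c.1, t.1.2.2 * K + c.2), t.2)))).card : ℝ) ≤
        ∑ c ∈ range K ×ˢ range K, ((O c).card : ℝ) := by
      have e2 := (card_biUnion_le (s := range K ×ˢ range K) (t := fun c => (O c).image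
        (fun t => ((t.1.1, t.1.2.1 * K + c.1, t.1.2.2 * K + c.2), t.2)))).trans
          (sum_le_sum fun c _ => card_image_le)
      exact_mod_cast e2
    refine e1.trans ((sum_le_card_nsmul _ _ B (fun c _ => hO c)).trans (le_of_eq ?_))
    rw [card_product, card_range, nsmul_eq_mul]
    push_cast
    ring
  · intro r s1 s2 n1 n2 hSu hd1 hd2 hn1 hn2 hG
    have k1 : col r s1 < K := hSu.2.2.2.2.2.2.1.1
    have k2 : col r s2 < K := hSu.2.2.2.2.2.2.2.1.1
    have k3 := hO' (col r s1, col r s2) r s1 s2 n1 n2 (SuK_Su hSu) hd1 hd2 hn1 hn2 hG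
    rw [mem_biUnion]
    refine ⟨(col r s1, col r s2), mem_product.2 ⟨mem_range.2 k1, mem_range.2 k2⟩, ?_⟩
    rw [mem_image]
    exact ⟨_, k3, rfl⟩

end Pool.Agent.Lib.SL
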