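import Pool.Agent.Lib.SL.SpecCK

/-!
MP_00e23e_nt, project SL, phase 2: module Cp0K, the diagonal with the same key (copy of Cp0).
-/

set_option autoImplicit false

namespace Pool.Agent.Lib.SL

open Finset Pool.Agent.Lib.EH3 Pool.Agent.Lib.TB Pool.Agent.Results.MP_00e23e_nt Pool.Agent.Lib.MI

/-- the algebra of the constants -/
private lemma Cp0K_alg (S V g1 g2 R0 N R g T H m1 m2 : ℝ) (hV : 0 < V) (hg1 : 0 < g1)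
    (hg2 : 0 < g2) (hR0 : 0 < R0) (hR : 0 < R) (hg : 0 < g) (hm1 : m1 = g / g1)
    (hm2 : m2 = g / g2) :
    (2 * S / (V * g1)) * (2 * S / (V * g2)) * (R0 * (36 * N ^ 2 / (R * g) *
      (16 * T ^ 6 * (H * R * V ^ 2 / (R0 * m1 * m2))))) =
      2304 * T ^ 6 * (S ^ 2 * N ^ 2 * H / g ^ 3) := by
  subst hm1 hm2
  field_simp
  ring

private lemma Cp0K_sum (R R0 V m1 m2 : ℕ) (Hs : Finset ℤ) (c : ℝ) :
    ∑ _ϱ ∈ Ioc R0 (2 * R0), ∑ x ∈ QQ R R0 V Hs m1 m2, ∑ x' ∈ QQ R R0 V Hs m1 m2,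
      (if Tx x x' = 0 then c else 0) =
    R0 * (c * ∑ x ∈ QQ R R0 V Hs m1 m2, ∑ x' ∈ QQ R R0 V Hs m1 m2,
      (if Tx x x' = 0 then (1 : ℝ) else 0)) := by
  have e1 : 2 * R0 - R0 = R0 := by omega
  have e2 : ∑ x ∈ QQ R R0 V Hs m1 m2, ∑ x' ∈ QQ R R0 V Hs m1 m2, (if Tx x x' = 0 then c else 0) =
      c * ∑ x ∈ QQ R R0 V Hs m1 m2, ∑ x' ∈ QQ R R0 V Hs m1 m2,
        (if Tx x x' = 0 then (1 : ℝ) else 0) := by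
    rw [mul_sum]
    refine sum_congr rfl fun x _ => ?_
    rw [mul_sum]
    refine sum_congr rfl fun x' _ => ?_
    rw [mul_ite, mul_one, mul_zero]
  rw [sum_const, Nat.card_Ioc, nsmul_eq_mul, e1, e2]

private lemma Cp0K_one (h3 : CdcStmt) (X T : ℝ) (R R0 V H S N g g1 g2 : ℕ) (Hs : Finset ℤ)
    (hT : Tau X T) (hR0 : 1 ≤ R0) (hV : 1 ≤ V) (hR : 1 ≤ R) (hg : 1 ≤ g)
    (hHs : ∀ h ∈ Hs, h ≠ 0 ∧ |h| ≤ (H : ℤ)) (hX : 16 * ((H : ℝ) * R * (V : ℝ) ^ 2) ≤ X)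
    (hg1 : g1 ∣ g) (hg2 : g2 ∣ g) :
    (2 * (S : ℝ) / (V * g1)) * (2 * (S : ℝ) / (V * g2)) *
      ∑ _ϱ ∈ Ioc R0 (2 * R0), ∑ x ∈ QQ R R0 V Hs (g / g1) (g / g2),
        ∑ x' ∈ QQ R R0 V Hs (g / g1) (g / g2),
          (if Tx x x' = 0 then 36 * (N : ℝ) ^ 2 / ((R : ℝ) * g) else 0) ≤
    2304 * T ^ 6 * ((S : ℝ) ^ 2 * (N : ℝ) ^ 2 * H / (g : ℝ) ^ 3) := by
  have p1 : 0 < g1 := Nat.pos_of_dvd_of_pos hg1 hg
  have p2 : 0 < g2 := Nat.pos_of_dvd_of_pos hg2 hg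
  have q1 : 1 ≤ g / g1 := Nat.div_pos (Nat.le_of_dvd hg hg1) p1
  have q2 : 1 ≤ g / g2 := Nat.div_pos (Nat.le_of_dvd hg hg2) p2
  have r1 : (0 : ℝ) < g1 := by exact_mod_cast p1
  have r2 : (0 : ℝ) < g2 := by exact_mod_cast p2
  have r3 : (0 : ℝ) < V := by exact_mod_cast hV
  have r4 : (0 : ℝ) < R0 := by exact_mod_cast hR0
  have r5 : (0 : ℝ) < R := by exact_mod_cast hR
  have r6 : (0 : ℝ) < g := by exact_mod_cast hg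
  have c1 : ((g / g1 : ℕ) : ℝ) = (g : ℝ) / g1 := Nat.cast_div hg1 r1.ne'
  have c2 : ((g / g2 : ℕ) : ℝ) = (g : ℝ) / g2 := Nat.cast_div hg2 r2.ne'
  have key := h3 X T R R0 V H (g / g1) (g / g2) Hs hT hR0 hV q1 q2 hHs hX
  rw [Cp0K_sum]
  rw [← Cp0K_alg S V g1 g2 R0 N R g T H ((g / g1 : ℕ) : ℝ) ((g / g2 : ℕ) : ℝ) r3 r1 r2 r4 r5 r6
    c1 c2]
  exact mul_le_mul_of_nonneg_left (mul_le_mul_of_nonneg_left
    (mul_le_mul_of_nonneg_left key (by positivity)) r4.le) (by positivity)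

open Classical in
private lemma Cp0K_term (h1 : CnuStmt) (a : ℕ → ℕ → ℤ) (b : ℕ → ℕ → ℕ → ℤ) (ρ : ℕ → ℕ) (v col : ℕ → ℕ → ℕ)
    (K g R0 V R S N g1 g2 : ℕ) (Hs : Finset ℤ) (I : Finset (ℤ × ℕ × ℕ × ℕ)) (hg : 1 ≤ g) (hR : 1 ≤ R) (hRN : R ≤ N)
    (hI : IgK a b ρ v col K g R0 V R S N g1 g2 Hs I) (p p' : ℤ × ℕ × ℕ × ℕ) (hp : p ∈ I) (hp' : p' ∈ I) :
    (if KpK ρ v col K p = KpK ρ v col K p' ∧ Tx (Ix ρ v p) (Ix ρ v p') = 0 then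
      ‖∑ n ∈ (Ioc N (2 * N)) ×ˢ (Ioc N (2 * N)), Fp a g p.1 p.2.1 p.2.2.1 p.2.2.2 n.1 n.2 *
        (starRingEnd ℂ) (Fp a g p'.1 p'.2.1 p'.2.2.1 p'.2.2.2 n.1 n.2)‖ else 0) ≤
    (if Kp ρ v p = Kp ρ v p' then (if Tx (Ix ρ v p) (Ix ρ v p') = 0 then
      36 * (N : ℝ) ^ 2 / ((R : ℝ) * g) else 0) else 0) := by
  by_cases e1 : KpK ρ v col K p = KpK ρ v col K p'
  · have e2 := (KpK_Kp hI hp hp' e1).1
    by_cases e3 : Tx (Ix ρ v p) (Ix ρ v p') = 0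
    · rw [if_pos ⟨e1, e3⟩, if_pos e2, if_pos e3, sum_product]
      exact h1 a _ _ ρ v g R0 V R S N p.1 p'.1 p.2.1 p.2.2.1 p.2.2.2 p'.2.1 p'.2.2.1 p'.2.2.2
        hg hR hRN (SuK_Su (hI p hp).2.2.1)
    · rw [if_neg (fun h => e3 h.2), if_pos e2, if_neg e3]
  · rw [if_neg (fun h => e1 h.1)]
    split_ifs
    · positivity
    · exact le_rfl
    · exact le_rfl

private lemma Cp0K_size (S V s1 v : ℕ) (hS : S < s1) (hS2 : s1 ≤ 2 * S) (hv : v ∣ s1)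
    (hV : V < v) : V ≤ 2 * S := by
  have h0 : 0 < s1 := by omega
  have h2 : v ≤ s1 := Nat.le_of_dvd h0 hv
  omega

private lemma Cp0K_X (X : ℝ) (H R S V : ℕ) (hX : 64 * ((H : ℝ) * R * (S : ℝ) ^ 2) ≤ X)
    (hV : V ≤ 2 * S) : 16 * ((H : ℝ) * R * (V : ℝ) ^ 2) ≤ X := by
  have h5 : (V : ℝ) ≤ 2 * S := by exact_mod_cast hV
  have h0 : (0 : ℝ) ≤ V := Nat.cast_nonneg _
  have h7 : (V : ℝ) ^ 2 ≤ 4 * (S : ℝ) ^ 2 := by nlinarith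
  have h10 : (H : ℝ) * R * (V : ℝ) ^ 2 ≤ (H : ℝ) * R * (4 * (S : ℝ) ^ 2) :=
    mul_le_mul_of_nonneg_left h7 (by positivity)
  linarith

theorem tCp0K (h1 : CnuStmt) (h2 : CprStmt) (h3 : CdcStmt) : Cp0KStmt := by
  classical
  intro X T a b ρ v col K g R0 V R S N H g1 g2 Hs I hT hg hR hS hN hH hR0 hV hRN hX hHs hI
  have hT1 : 1 ≤ T := hT.1
  have hT0 : (0 : ℝ) ≤ T := by linarith
  rcases I.eq_empty_or_nonempty with rfl | ⟨p0, hp0⟩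
  · rw [sum_empty]
    positivity
  obtain ⟨-, hgcd, hSu, hg1, hg2⟩ := hI p0 hp0
  have hVS := Cp0K_size S V p0.2.2.1 (v p0.2.1 p0.2.2.1) hSu.2.1.1 hSu.2.1.2
    hSu.2.2.2.2.1.1 hSu.2.2.2.2.1.2.1
  have hX' := Cp0K_X X H R S V hX hVS
  have hg1' : g1 ∣ g := by
    rw [← hg1]
    exact Nat.gcd_dvd_left _ _
  have hg2' : g2 ∣ g := by
    rw [← hg2]
    exact Nat.gcd_dvd_left _ _
  have step1 : ∑ p ∈ I, ∑ p' ∈ I, (if KpK ρ v col K p = KpK ρ v col K p' ∧ Tx (Ix ρ v p) (Ix ρ v p') = 0 then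
      ‖∑ n ∈ (Ioc N (2 * N)) ×ˢ (Ioc N (2 * N)), Fp a g p.1 p.2.1 p.2.2.1 p.2.2.2 n.1 n.2 *
        (starRingEnd ℂ) (Fp a g p'.1 p'.2.1 p'.2.2.1 p'.2.2.2 n.1 n.2)‖ else 0) ≤
      ∑ p ∈ I, ∑ p' ∈ I, (if Kp ρ v p = Kp ρ v p' then
        (fun (_ : ℕ) (x x' : ℕ × ℕ × ℕ × ℤ) => if Tx x x' = 0 then
          36 * (N : ℝ) ^ 2 / ((R : ℝ) * g) else 0) (ρ p.2.1) (Ix ρ v p) (Ix ρ v p') else 0) :=
    sum_le_sum fun p hp => sum_le_sum fun p' hp' =>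
      Cp0K_term h1 a b ρ v col K g R0 V R S N g1 g2 Hs I hg hR hRN hI p p' hp hp'
  have step2 := h2 (fun _ _ => 0) (fun _ _ => 0) (fun _ _ => 0) ρ v g R0 V R S 0 g1 g2 Hs I
    (fun (_ : ℕ) (x x' : ℕ × ℕ × ℕ × ℤ) => if Tx x x' = 0 then
      36 * (N : ℝ) ^ 2 / ((R : ℝ) * g) else 0) hg hR0 hV
    (fun _ x x' => by
      show (0 : ℝ) ≤ if Tx x x' = 0 then 36 * (N : ℝ) ^ 2 / ((R : ℝ) * g) else 0
      split_ifs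
      · positivity
      · exact le_rfl) (IgK_Ig hI)
  exact step1.trans (step2.trans
    (Cp0K_one h3 X T R R0 V H S N g g1 g2 Hs hT hR0 hV hR hg hHs hX' hg1' hg2'))

end Pool.Agent.Lib.SL
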