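import Pool.Agent.Lib.SL.SpecCK

/-!
MP_00e23e_nt, project SL, phase 2: module CseK, the final statement SecKStmt (copy of Cse).
-/

set_option autoImplicit false

namespace Pool.Agent.Lib.SL

open Finset Pool.Agent.Lib.EH3 Pool.Agent.Lib.TB Pool.Agent.Results.MP_00e23e_nt Pool.Agent.Lib.MI

open Classical in
/-- all indices -/
private noncomputable def CseK_I (g R S : ℕ) (Hs : Finset ℤ) (γ : ℤ → ℕ → ℕ → ℕ → ℂ) :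
    Finset (ℤ × ℕ × ℕ × ℕ) :=
  (Hs ×ˢ (Ioc R (2 * R) ×ˢ (Ioc S (2 * S) ×ˢ Ioc S (2 * S)))).filter
    (fun p => γ p.1 p.2.1 p.2.2.1 p.2.2.2 ≠ 0 ∧ Nat.gcd p.2.2.1 p.2.2.2 = g)

open Classical in
private lemma CseK_in (a : ℕ → ℕ → ℤ) (g : ℕ) (h : ℤ) (r s1 s2 N : ℕ) (ω : ℕ → ℕ → ℂ) :
    (∑ n1 ∈ Ioc N (2 * N), ∑ n2 ∈ Ioc N (2 * N),
      if Gg a g r s1 s2 n1 n2 then ω n1 n2 * fg a h g r s1 s2 n1 n2 else 0) =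
    ∑ n ∈ (Ioc N (2 * N)) ×ˢ (Ioc N (2 * N)), ω n.1 n.2 * Fp a g h r s1 s2 n.1 n.2 := by
  rw [sum_product]
  refine sum_congr rfl fun n1 _ => sum_congr rfl fun n2 _ => ?_
  rw [Fp, mul_ite, mul_zero]

private lemma CseK_split (a : ℕ → ℕ → ℤ) (g R S N : ℕ) (Hs : Finset ℤ)
    (γ : ℤ → ℕ → ℕ → ℕ → ℂ) (ω : ℕ → ℕ → ℂ) :
    ∑ h ∈ Hs, TG a g h R S N (γ h) ω =
    ∑ p ∈ CseK_I g R S Hs γ, γ p.1 p.2.1 p.2.2.1 p.2.2.2 *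
      ∑ n ∈ (Ioc N (2 * N)) ×ˢ (Ioc N (2 * N)),
        ω n.1 n.2 * Fp a g p.1 p.2.1 p.2.2.1 p.2.2.2 n.1 n.2 := by
  classical
  rw [CseK_I, sum_filter_of_ne, sum_product]
  · refine sum_congr rfl fun h _ => ?_
    rw [TG, sum_product]
    refine sum_congr rfl fun r _ => ?_
    rw [sum_product]
    refine sum_congr rfl fun s1 _ => sum_congr rfl fun s2 _ => ?_
    rw [CseK_in]
  · intro p _ hp
    have h1 := left_ne_zero_of_mul hp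
    have h2 := right_ne_zero_of_mul hp
    refine ⟨h1, ?_⟩
    obtain ⟨n, _, hn⟩ := exists_ne_zero_of_sum_ne_zero h2
    have h3 := right_ne_zero_of_mul hn
    rw [Fp] at h3
    split_ifs at h3 with hG
    · exact hG.2.2.1
    · exact absurd rfl h3

private lemma CseK_cls (I : Finset (ℤ × ℕ × ℕ × ℕ)) (D : Finset (ℕ × ℕ))
    (κ : ℤ × ℕ × ℕ × ℕ → ℕ × ℕ) (hκ : ∀ p ∈ I, κ p ∈ D) (t : ℤ × ℕ × ℕ × ℕ → ℂ) (B : ℝ)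
    (hB : ∀ c ∈ D, ‖∑ p ∈ I.filter (fun p => κ p = c), t p‖ ^ 2 ≤ B) :
    ‖∑ p ∈ I, t p‖ ^ 2 ≤ (D.card : ℝ) ^ 2 * B := by
  rw [← sum_fiberwise_of_maps_to hκ t]
  have h1 : ‖∑ c ∈ D, ∑ p ∈ I.filter (fun p => κ p = c), t p‖ ^ 2 ≤
      (∑ c ∈ D, ‖∑ p ∈ I.filter (fun p => κ p = c), t p‖) ^ 2 :=
    pow_le_pow_left₀ (norm_nonneg _) (norm_sum_le _ _) 2
  have h2 := sq_sum_le_card_mul_sum_sq (s := D)
    (f := fun c => ‖∑ p ∈ I.filter (fun p => κ p = c), t p‖)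
  have h3 : ∑ c ∈ D, ‖∑ p ∈ I.filter (fun p => κ p = c), t p‖ ^ 2 ≤ D.card • B :=
    sum_le_card_nsmul _ _ _ hB
  rw [nsmul_eq_mul] at h3
  have h4 := mul_le_mul_of_nonneg_left h3 (Nat.cast_nonneg D.card : (0 : ℝ) ≤ D.card)
  have h5 : (D.card : ℝ) * ((D.card : ℝ) * B) = (D.card : ℝ) ^ 2 * B := by ring
  rw [h5] at h4
  exact h1.trans (h2.trans h4)

private lemma CseK_alg (K T S N H V g R D R0 g1 g2 o s0 s1 : ℝ) (hT : 1 ≤ T)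
    (hN : 0 < N) (hH : 0 ≤ H) (hV : 0 < V) (hg : 0 < g) (hD : 0 ≤ D) (hR0 : 0 < R0)
    (hg1 : 1 ≤ g1) (hg2 : 1 ≤ g2) (ho : 0 ≤ o)
    (ho' : o ≤ K ^ 2 * (12 * (S ^ 2 * N ^ 2) / (V ^ 2 * g1 * g2)))
    (hs0 : s0 ≤ 2304 * T ^ 6 * (S ^ 2 * N ^ 2 * H / g ^ 3))
    (hs1 : s1 ≤ 2048 * T * (D * (S ^ 2 * R ^ 2 * H ^ 2 * V ^ 2 * g1 * g2 / (R0 * g ^ 4)))) :
    o * (s0 + s1) ≤ K ^ 2 * (27648 * T ^ 6 * (S ^ 2 * N ^ 2) ^ 2 *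
      (H / (V ^ 2 * g ^ 3) + H ^ 2 / g ^ 4 * (R ^ 2 * D / (R0 * N ^ 2)))) := by
  have hT0 : 0 < T := by linarith
  have p1 : 0 < g1 := by linarith
  have p2 : 0 < g2 := by linarith
  set b0 : ℝ := 2304 * T ^ 6 * (S ^ 2 * N ^ 2 * H / g ^ 3) with hb0
  set b1 : ℝ := 2048 * T * (D * (S ^ 2 * R ^ 2 * H ^ 2 * V ^ 2 * g1 * g2 / (R0 * g ^ 4))) with hb1
  set O' : ℝ := 12 * (S ^ 2 * N ^ 2) / (V ^ 2 * g1 * g2) with hO'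
  have n0 : 0 ≤ b0 := by positivity
  have n1 : 0 ≤ b1 := by positivity
  have e0 : O' * b0 = 27648 * T ^ 6 * (S ^ 2 * N ^ 2) ^ 2 * (H / (V ^ 2 * g ^ 3)) *
      (1 / (g1 * g2)) := by
    rw [hb0, hO']
    field_simp
    ring
  have e1 : O' * b1 = 24576 * T * ((S ^ 2 * N ^ 2) ^ 2 *
      (H ^ 2 / g ^ 4 * (R ^ 2 * D / (R0 * N ^ 2)))) := by
    rw [hb1, hO']
    field_simp
    ring
  have f0 : 1 / (g1 * g2) ≤ 1 := by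
    rw [div_le_one (by positivity)]
    nlinarith
  have f1 : T ≤ T ^ 6 := le_self_pow₀ hT (by norm_num)
  have q0 : O' * b0 ≤ 27648 * T ^ 6 * (S ^ 2 * N ^ 2) ^ 2 * (H / (V ^ 2 * g ^ 3)) := by
    rw [e0]
    exact mul_le_of_le_one_right (by positivity) f0
  have q1 : O' * b1 ≤ 27648 * T ^ 6 * ((S ^ 2 * N ^ 2) ^ 2 *
      (H ^ 2 / g ^ 4 * (R ^ 2 * D / (R0 * N ^ 2)))) := by
    rw [e1]
    refine mul_le_mul_of_nonneg_right ?_ (by positivity)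
    linarith
  have hK : 0 ≤ K ^ 2 := sq_nonneg K
  calc o * (s0 + s1) ≤ o * (b0 + b1) := mul_le_mul_of_nonneg_left (add_le_add hs0 hs1) ho
    _ ≤ K ^ 2 * O' * (b0 + b1) := mul_le_mul_of_nonneg_right ho' (add_nonneg n0 n1)
    _ = K ^ 2 * (O' * b0 + O' * b1) := by ring
    _ ≤ _ := mul_le_mul_of_nonneg_left (add_le_add q0 q1) hK
    _ = _ := by ring

open Classical in
private lemma CseK_term (D : ℝ) (a : ℕ → ℕ → ℤ) (b : ℕ → ℕ → ℕ → ℤ) (ρ : ℕ → ℕ) (v col : ℕ → ℕ → ℕ)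
    (K g R S N R0 V g1 g2 : ℕ) (Hs : Finset ℤ) (γ : ℤ → ℕ → ℕ → ℕ → ℂ)
    (hpair : ∀ h h' r s1 s2 r' s1' s2', h ∈ Hs → h' ∈ Hs → γ h r s1 s2 ≠ 0 → γ h' r' s1' s2' ≠ 0 →
      Nat.gcd s1 s2 = g → Nat.gcd s1' s2' = g → SuK a b ρ v col K g R0 V R S N r s1 s2 →
      SuK a b ρ v col K g R0 V R S N r' s1' s2' →
      KyK ρ v col r s1 s2 = KyK ρ v col r' s1' s2' → Th ρ v h h' r s1 s2 r' s1' s2' ≠ 0 →
      ‖∑ n1 ∈ Ioc N (2 * N), ∑ n2 ∈ Ioc N (2 * N),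
        Fp a g h r s1 s2 n1 n2 * (starRingEnd ℂ) (Fp a g h' r' s1' s2' n1 n2)‖ ≤
        D * (Int.gcd (Th ρ v h h' r s1 s2 r' s1' s2') (ρ r) : ℝ))
    (I : Finset (ℤ × ℕ × ℕ × ℕ)) (hI : IgK a b ρ v col K g R0 V R S N g1 g2 Hs I)
    (hI0 : ∀ p ∈ I, γ p.1 p.2.1 p.2.2.1 p.2.2.2 ≠ 0)
    (p p' : ℤ × ℕ × ℕ × ℕ) (hp : p ∈ I) (hp' : p' ∈ I) :
    (if KpK ρ v col K p = KpK ρ v col K p' then
      ‖∑ n ∈ (Ioc N (2 * N)) ×ˢ (Ioc N (2 * N)), Fp a g p.1 p.2.1 p.2.2.1 p.2.2.2 n.1 n.2 *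
        (starRingEnd ℂ) (Fp a g p'.1 p'.2.1 p'.2.2.1 p'.2.2.2 n.1 n.2)‖ else 0) ≤
    (if KpK ρ v col K p = KpK ρ v col K p' ∧ Tx (Ix ρ v p) (Ix ρ v p') = 0 then
      ‖∑ n ∈ (Ioc N (2 * N)) ×ˢ (Ioc N (2 * N)), Fp a g p.1 p.2.1 p.2.2.1 p.2.2.2 n.1 n.2 *
        (starRingEnd ℂ) (Fp a g p'.1 p'.2.1 p'.2.2.1 p'.2.2.2 n.1 n.2)‖ else 0) +
    (if KpK ρ v col K p = KpK ρ v col K p' ∧ Tx (Ix ρ v p) (Ix ρ v p') ≠ 0 then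
      D * (Int.gcd (Tx (Ix ρ v p) (Ix ρ v p')) (ρ p.2.1) : ℝ) else 0) := by
  by_cases e1 : KpK ρ v col K p = KpK ρ v col K p'
  · by_cases e2 : Tx (Ix ρ v p) (Ix ρ v p') = 0
    · rw [if_pos e1, if_pos ⟨e1, e2⟩, if_neg (fun h => h.2 e2), add_zero]
    · rw [if_pos e1, if_neg (fun h => e2 h.2), if_pos ⟨e1, e2⟩, zero_add, sum_product]
      exact hpair p.1 p'.1 p.2.1 p.2.2.1 p.2.2.2 p'.2.1 p'.2.2.1 p'.2.2.2 (hI p hp).1 (hI p' hp').1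
        (hI0 p hp) (hI0 p' hp') (hI p hp).2.1 (hI p' hp').2.1
        (hI p hp).2.2.1 (hI p' hp').2.2.1 (KpK_Kp hI hp hp' e1).2 e2
  · rw [if_neg e1, if_neg (fun h => e1 h.1), if_neg (fun h => e1 h.1), add_zero]

private lemma CseK_one (h1 : CcsStmt) (h2 : CouKStmt) (h3 : Cp0KStmt) (h4 : Cp1KStmt) (X T D : ℝ)
    (a : ℕ → ℕ → ℤ) (b : ℕ → ℕ → ℕ → ℤ) (ρ : ℕ → ℕ) (v col : ℕ → ℕ → ℕ)
    (K g R S N H R0 V : ℕ) (Hs : Finset ℤ) (γ : ℤ → ℕ → ℕ → ℕ → ℂ) (ω : ℕ → ℕ → ℂ)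
    (hT : Tau X T) (hD : 0 ≤ D) (hg : 1 ≤ g) (hR : 1 ≤ R)
    (hS : 1 ≤ S) (hN : 1 ≤ N) (hH : 1 ≤ H) (hR0 : 1 ≤ R0) (hV : 1 ≤ V) (hRN : R ≤ N)
    (hX : 64 * ((H : ℝ) * R * (S : ℝ) ^ 2) ≤ X)
    (hHs : ∀ h ∈ Hs, h ≠ 0 ∧ |h| ≤ (H : ℤ)) (hγ : ∀ h r s1 s2, ‖γ h r s1 s2‖ ≤ 1)
    (hω : ∀ n1 n2, ‖ω n1 n2‖ ≤ 1)
    (hpair : ∀ h h' r s1 s2 r' s1' s2', h ∈ Hs → h' ∈ Hs → γ h r s1 s2 ≠ 0 → γ h' r' s1' s2' ≠ 0 →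
      Nat.gcd s1 s2 = g → Nat.gcd s1' s2' = g → SuK a b ρ v col K g R0 V R S N r s1 s2 →
      SuK a b ρ v col K g R0 V R S N r' s1' s2' →
      KyK ρ v col r s1 s2 = KyK ρ v col r' s1' s2' → Th ρ v h h' r s1 s2 r' s1' s2' ≠ 0 →
      ‖∑ n1 ∈ Ioc N (2 * N), ∑ n2 ∈ Ioc N (2 * N),
        Fp a g h r s1 s2 n1 n2 * (starRingEnd ℂ) (Fp a g h' r' s1' s2' n1 n2)‖ ≤
        D * (Int.gcd (Th ρ v h h' r s1 s2 r' s1' s2') (ρ r) : ℝ))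
    (g1 g2 : ℕ) (hg1 : 1 ≤ g1) (hg2 : 1 ≤ g2) (I : Finset (ℤ × ℕ × ℕ × ℕ))
    (hI : IgK a b ρ v col K g R0 V R S N g1 g2 Hs I)
    (hI0 : ∀ p ∈ I, γ p.1 p.2.1 p.2.2.1 p.2.2.2 ≠ 0) :
    ‖∑ p ∈ I, γ p.1 p.2.1 p.2.2.1 p.2.2.2 * ∑ n ∈ (Ioc N (2 * N)) ×ˢ (Ioc N (2 * N)),
      ω n.1 n.2 * Fp a g p.1 p.2.1 p.2.2.1 p.2.2.2 n.1 n.2‖ ^ 2 ≤
    (K : ℝ) ^ 2 * (27648 * T ^ 6 * ((S : ℝ) ^ 2 * (N : ℝ) ^ 2) ^ 2 * ((H : ℝ) / ((V : ℝ) ^ 2 * (g : ℝ) ^ 3) +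
      (H : ℝ) ^ 2 / (g : ℝ) ^ 4 * ((R : ℝ) ^ 2 * D / ((R0 : ℝ) * (N : ℝ) ^ 2)))) := by
  classical
  obtain ⟨O, hO, hO'⟩ := h2 a b ρ v col K g R S N R0 V g1 g2 hN hR0 hV hRN hg1 hg2
  have c1 := h1 I ((Ioc N (2 * N)) ×ˢ (Ioc N (2 * N))) O (KpK ρ v col K)
    (fun p => γ p.1 p.2.1 p.2.2.1 p.2.2.2) (fun n => ω n.1 n.2)
    (fun p n => Fp a g p.1 p.2.1 p.2.2.1 p.2.2.2 n.1 n.2) (by
      intro p hp n hn hne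
      obtain ⟨k1, k2, k3, k4, k5⟩ := hI p hp
      rw [mem_product] at hn
      have hG : Gg a g p.2.1 p.2.2.1 p.2.2.2 n.1 n.2 := by
        by_contra hG
        apply hne
        show Fp a g p.1 p.2.1 p.2.2.1 p.2.2.2 n.1 n.2 = 0
        rw [Fp, if_neg hG]
      have d1 : g1 ∣ p.2.2.1 / v p.2.1 p.2.2.1 := by
        rw [← k4]
        exact Nat.gcd_dvd_right _ _
      have d2 : g2 ∣ p.2.2.2 / v p.2.1 p.2.2.2 := by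
        rw [← k5]
        exact Nat.gcd_dvd_right _ _
      exact hO' p.2.1 p.2.2.1 p.2.2.2 n.1 n.2 k3 d1 d2 hn.1 hn.2 hG)
    (fun p => hγ _ _ _ _) (fun n => hω _ _)
  have c2 := sum_le_sum fun p (hp : p ∈ I) => sum_le_sum fun p' (hp' : p' ∈ I) =>
    CseK_term D a b ρ v col K g R S N R0 V g1 g2 Hs γ hpair I hI hI0 p p' hp hp'
  simp only [sum_add_distrib] at c2
  have c3 := h3 X T a b ρ v col K g R0 V R S N H g1 g2 Hs I hT hg hR hS hN hH hR0 hV hRN hX hHs hI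
  have c4 := h4 X T D a b ρ v col K g R0 V R S N H g1 g2 Hs I hT hD hg hR hS hN hH hR0 hV hX hHs hI
  refine (c1.trans (mul_le_mul_of_nonneg_left c2 (Nat.cast_nonneg _))).trans ?_
  refine CseK_alg K T S N H V g R D R0 g1 g2 O.card _ _ hT.1 ?_
    (Nat.cast_nonneg _) ?_ ?_ hD ?_ ?_ ?_ (Nat.cast_nonneg _) hO c3 c4
  · exact_mod_cast hN
  · exact_mod_cast hV
  · exact_mod_cast hg
  · exact_mod_cast hR0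
  · exact_mod_cast hg1
  · exact_mod_cast hg2

private lemma CseK_size (X : ℝ) (R S N H : ℕ) (hR : 1 ≤ R) (hS : 1 ≤ S) (hN : 1 ≤ N) (hH : 1 ≤ H)
    (hX : 100 * (R : ℝ) ^ 2 * (S : ℝ) ^ 4 * (N : ℝ) ^ 2 * (H : ℝ) ^ 2 ≤ X) :
    64 * ((H : ℝ) * R * (S : ℝ) ^ 2) ≤ X ∧ 2 * (S : ℝ) ≤ X := by
  have r1 : (1 : ℝ) ≤ R := by exact_mod_cast hR
  have s1 : (1 : ℝ) ≤ S := by exact_mod_cast hS
  have n1 : (1 : ℝ) ≤ N := by exact_mod_cast hN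
  have h1 : (1 : ℝ) ≤ H := by exact_mod_cast hH
  set A : ℝ := (H : ℝ) * R * (S : ℝ) ^ 2 with hA
  have u1 : 1 ≤ (H : ℝ) * R := one_le_mul_of_one_le_of_one_le h1 r1
  have u2 : (S : ℝ) ≤ (S : ℝ) ^ 2 := le_self_pow₀ s1 (by norm_num)
  have u3 : (S : ℝ) ≤ A := by
    rw [hA]
    calc (S : ℝ) ≤ (S : ℝ) ^ 2 := u2
      _ = 1 * (S : ℝ) ^ 2 := (one_mul _).symm
      _ ≤ _ := mul_le_mul_of_nonneg_right u1 (by positivity)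
  have u4 : 1 ≤ A := s1.trans u3
  have u5 : (1 : ℝ) ≤ (N : ℝ) ^ 2 := one_le_pow₀ n1
  have u6 : A ≤ A ^ 2 := le_self_pow₀ u4 (by norm_num)
  have u7 : A ^ 2 ≤ A ^ 2 * (N : ℝ) ^ 2 := le_mul_of_one_le_right (by positivity) u5
  have u8 : 100 * (R : ℝ) ^ 2 * (S : ℝ) ^ 4 * (N : ℝ) ^ 2 * (H : ℝ) ^ 2 =
      100 * (A ^ 2 * (N : ℝ) ^ 2) := by
    rw [hA]
    ring
  rw [u8] at hX
  constructor <;> linarith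

theorem tCseK (h1 : CcsStmt) (h2 : CouKStmt) (h3 : Cp0KStmt) (h4 : Cp1KStmt) : SecKStmt := by
  classical
  refine ⟨27648, by norm_num, 10, ?_⟩
  intro X T D a b ρ v col K g R S N H R0 V Hs γ ω hT hD _ hg hR hS hN hH hR0 hV hRN hX hHs hγ hω
    hSu hpair
  have hT1 : 1 ≤ T := hT.1
  have hT0 : (0 : ℝ) ≤ T := by linarith
  obtain ⟨hX1, hX2⟩ := CseK_size X R S N H hR hS hN hH hX
  rw [CseK_split]
  set I := CseK_I g R S Hs γ with hIdef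
  have hmem : ∀ p ∈ I, p.1 ∈ Hs ∧ p.2.1 ∈ Ioc R (2 * R) ∧ p.2.2.1 ∈ Ioc S (2 * S) ∧
      p.2.2.2 ∈ Ioc S (2 * S) ∧ γ p.1 p.2.1 p.2.2.1 p.2.2.2 ≠ 0 ∧
      Nat.gcd p.2.2.1 p.2.2.2 = g := by
    intro p hp
    rw [hIdef, CseK_I, mem_filter, mem_product, mem_product, mem_product] at hp
    exact ⟨hp.1.1, hp.1.2.1, hp.1.2.2.1, hp.1.2.2.2, hp.2.1, hp.2.2⟩
  set E : ℝ := ((H : ℝ) / ((V : ℝ) ^ 2 * (g : ℝ) ^ 3) + (H : ℝ) ^ 2 / (g : ℝ) ^ 4 *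
    ((R : ℝ) ^ 2 * D / ((R0 : ℝ) * (N : ℝ) ^ 2))) with hE
  have hE0 : 0 ≤ E := by positivity
  rcases I.eq_empty_or_nonempty with hI0 | ⟨p0, hp0⟩
  · rw [hI0, sum_empty, norm_zero, zero_pow two_ne_zero]
    positivity
  have hcard : ((g.divisors.card : ℕ) : ℝ) ≤ T := by
    refine hT.2.2 g hg ?_
    obtain ⟨-, -, k1, -, -, k2⟩ := hmem p0 hp0
    rw [mem_Ioc] at k1
    have k3 : g ≤ p0.2.2.1 := by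
      rw [← k2]
      exact Nat.le_of_dvd (by omega) (Nat.gcd_dvd_left _ _)
    have k4 : g ≤ 2 * S := k3.trans k1.2
    have k5 : (g : ℝ) ≤ 2 * S := by exact_mod_cast k4
    linarith
  have hcls := CseK_cls I (g.divisors ×ˢ g.divisors)
    (fun p => (Nat.gcd g (p.2.2.1 / v p.2.1 p.2.2.1), Nat.gcd g (p.2.2.2 / v p.2.1 p.2.2.2)))
    (by
      intro p _
      rw [mem_product, Nat.mem_divisors, Nat.mem_divisors]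
      exact ⟨⟨Nat.gcd_dvd_left _ _, by omega⟩, ⟨Nat.gcd_dvd_left _ _, by omega⟩⟩)
    (fun p => γ p.1 p.2.1 p.2.2.1 p.2.2.2 *
      ∑ n ∈ (Ioc N (2 * N)) ×ˢ (Ioc N (2 * N)),
        ω n.1 n.2 * Fp a g p.1 p.2.1 p.2.2.1 p.2.2.2 n.1 n.2)
    ((K : ℝ) ^ 2 * (27648 * T ^ 6 * ((S : ℝ) ^ 2 * (N : ℝ) ^ 2) ^ 2 * E)) (by
      intro c hc
      rw [mem_product] at hc
      refine CseK_one h1 h2 h3 h4 X T D a b ρ v col K g R S N H R0 V Hs γ ω hT hD hg hR hS hN hH hR0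
        hV hRN hX1 hHs hγ hω hpair c.1 c.2 (Nat.pos_of_mem_divisors hc.1)
        (Nat.pos_of_mem_divisors hc.2) _ ?_ ?_
      · intro p hp
        rw [mem_filter] at hp
        obtain ⟨k1, k2, k3, k4, k5, k6⟩ := hmem p hp.1
        exact ⟨k1, k6, hSu _ _ _ _ k1 k2 k3 k4 k5, congrArg Prod.fst hp.2,
          congrArg Prod.snd hp.2⟩
      · intro p hp
        rw [mem_filter] at hp
        exact (hmem p hp.1).2.2.2.2.1)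
  refine hcls.trans ?_
  rw [card_product, Nat.cast_mul]
  have e1 : ((g.divisors.card : ℝ) * (g.divisors.card : ℝ)) ^ 2 ≤ T ^ 4 := by
    have e2 : ((g.divisors.card : ℝ) * (g.divisors.card : ℝ)) ^ 2 = (g.divisors.card : ℝ) ^ 4 := by
      ring
    rw [e2]
    exact pow_le_pow_left₀ (Nat.cast_nonneg _) hcard 4
  calc ((g.divisors.card : ℝ) * (g.divisors.card : ℝ)) ^ 2 *
      ((K : ℝ) ^ 2 * (27648 * T ^ 6 * ((S : ℝ) ^ 2 * (N : ℝ) ^ 2) ^ 2 * E)) ≤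
      T ^ 4 * ((K : ℝ) ^ 2 * (27648 * T ^ 6 * ((S : ℝ) ^ 2 * (N : ℝ) ^ 2) ^ 2 * E)) :=
        mul_le_mul_of_nonneg_right e1 (by positivity)
    _ = 27648 * T ^ 10 * (K : ℝ) ^ 2 * ((S : ℝ) ^ 2 * (N : ℝ) ^ 2) ^ 2 * E := by ring

end Pool.Agent.Lib.SL
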