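import Pool.Agent.Lib.SL.AllC
import Pool.Agent.Lib.SL.CouK
import Pool.Agent.Lib.SL.Cp0K
import Pool.Agent.Lib.SL.Cp1K
import Pool.Agent.Lib.SL.CseK

/-!
MP_00e23e_nt, project SL, phase 2 (helper3): SecKStmt without hypotheses.
-/

namespace Pool.Agent.Lib.SL

/-- the second Cauchy inequality with colours, with all its modules -/
theorem tSecK : SecKStmt :=
  tCseK tCcs (tCouK tCou) (tCp0K tCnu tCpr tCdc) (tCp1K tCpr (tCgv MI.tT1Gsa))

end Pool.Agent.Lib.SL
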