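import Pool.Agent.Lib.SL.SpecC

/-!
MP_00e23e_nt, directory Lib/SL, module Ccs: Cauchy's inequality with outer variables (key, n).
-/

set_option autoImplicit false

namespace Pool.Agent.Lib.SL

open Finset Pool.Agent.Lib.EH3 Pool.Agent.Lib.TB Pool.Agent.Results.MP_00e23e_nt Pool.Agent.Lib.MI

open Classical in
/-- Expanding a square: one value of the key. -/
private lemma Ccs_one {α β : Type} (I : Finset α) (J : Finset β) (γ : α → ℂ) (F : α → β → ℂ)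
    (hγ : ∀ p, ‖γ p‖ ≤ 1) :
    ∑ n ∈ J, ‖∑ p ∈ I, γ p * F p n‖ ^ 2 ≤
      ∑ p ∈ I, ∑ p' ∈ I, ‖∑ n ∈ J, F p n * (starRingEnd ℂ) (F p' n)‖ := by
  have h1 : ((∑ n ∈ J, ‖∑ p ∈ I, γ p * F p n‖ ^ 2 : ℝ) : ℂ) =
      ∑ p ∈ I, ∑ p' ∈ I, γ p * (starRingEnd ℂ) (γ p') *
        ∑ n ∈ J, F p n * (starRingEnd ℂ) (F p' n) := by
    rw [Complex.ofReal_sum]
    have h2 : ∀ n ∈ J, ((‖∑ p ∈ I, γ p * F p n‖ ^ 2 : ℝ) : ℂ) =
        ∑ p ∈ I, ∑ p' ∈ I, γ p * (starRingEnd ℂ) (γ p') *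
          (F p n * (starRingEnd ℂ) (F p' n)) := by
      intro n _
      rw [Complex.ofReal_pow, ← Complex.mul_conj', map_sum, Finset.sum_mul_sum]
      refine Finset.sum_congr rfl fun p _ => Finset.sum_congr rfl fun p' _ => ?_
      rw [map_mul]
      ring
    rw [Finset.sum_congr rfl h2, Finset.sum_comm]
    refine Finset.sum_congr rfl fun p _ => ?_
    rw [Finset.sum_comm]
    refine Finset.sum_congr rfl fun p' _ => ?_
    rw [Finset.mul_sum]
  have h3 : (0 : ℝ) ≤ ∑ n ∈ J, ‖∑ p ∈ I, γ p * F p n‖ ^ 2 :=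
    Finset.sum_nonneg fun n _ => by positivity
  calc ∑ n ∈ J, ‖∑ p ∈ I, γ p * F p n‖ ^ 2
      = ‖((∑ n ∈ J, ‖∑ p ∈ I, γ p * F p n‖ ^ 2 : ℝ) : ℂ)‖ := by
        rw [Complex.norm_real, Real.norm_of_nonneg h3]
    _ = ‖∑ p ∈ I, ∑ p' ∈ I, γ p * (starRingEnd ℂ) (γ p') *
        ∑ n ∈ J, F p n * (starRingEnd ℂ) (F p' n)‖ := by rw [h1]
    _ ≤ ∑ p ∈ I, ∑ p' ∈ I, ‖∑ n ∈ J, F p n * (starRingEnd ℂ) (F p' n)‖ := by
        refine (norm_sum_le _ _).trans (Finset.sum_le_sum fun p _ => ?_)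
        refine (norm_sum_le _ _).trans (Finset.sum_le_sum fun p' _ => ?_)
        rw [norm_mul, norm_mul, RCLike.norm_conj]
        have h4 : ‖γ p‖ * ‖γ p'‖ ≤ 1 := mul_le_one₀ (hγ p) (norm_nonneg _) (hγ p')
        exact mul_le_of_le_one_left (norm_nonneg _) h4

open Classical in
theorem tCcs : CcsStmt := by
  intro I J O key γ ω F hO hγ hω
  set K := I.image key with hK
  let Z : (ℕ × ℕ × ℕ) → (ℕ × ℕ) → ℂ := fun k n =>
    ∑ p ∈ I.filter (fun p => key p = k), γ p * F p n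
  have hmem : ∀ p ∈ I, key p ∈ K := fun p hp => Finset.mem_image_of_mem _ hp
  -- the sum as a sum over the outer variables
  have hS : ∑ p ∈ I, γ p * ∑ n ∈ J, ω n * F p n = ∑ x ∈ K ×ˢ J, ω x.2 * Z x.1 x.2 := by
    rw [Finset.sum_product, ← Finset.sum_fiberwise_of_maps_to hmem]
    refine Finset.sum_congr rfl fun k _ => ?_
    have h1 : ∀ n ∈ J, ω n * Z k n =
        ∑ p ∈ I.filter (fun p => key p = k), γ p * (ω n * F p n) := by
      intro n _
      change ω n * (∑ p ∈ I.filter (fun p => key p = k), γ p * F p n) = _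
      rw [Finset.mul_sum]
      refine Finset.sum_congr rfl fun p _ => ?_
      ring
    rw [Finset.sum_congr rfl h1, Finset.sum_comm]
    refine Finset.sum_congr rfl fun p _ => ?_
    rw [Finset.mul_sum]
  have hZ : ∀ k, ∀ n ∈ J, (k, n) ∉ O → Z k n = 0 := by
    intro k n hn hkn
    refine Finset.sum_eq_zero fun p hp => ?_
    rw [Finset.mem_filter] at hp
    by_cases hF : F p n = 0
    · rw [hF, mul_zero]
    · exfalso
      apply hkn
      rw [← hp.2]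
      exact hO p hp.1 n hn hF
  have hS2 : ∑ x ∈ K ×ˢ J, ω x.2 * Z x.1 x.2 =
      ∑ x ∈ (K ×ˢ J).filter (fun x => x ∈ O), ω x.2 * Z x.1 x.2 := by
    rw [Finset.sum_filter]
    refine Finset.sum_congr rfl fun x hx => ?_
    split_ifs with h
    · rfl
    · rw [hZ x.1 x.2 (Finset.mem_product.1 hx).2 h, mul_zero]
  have hT : (((K ×ˢ J).filter (fun x => x ∈ O)).card : ℝ) ≤ (O.card : ℝ) := by
    exact_mod_cast Finset.card_le_card fun x hx => (Finset.mem_filter.1 hx).2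
  have hc : ‖∑ p ∈ I, γ p * ∑ n ∈ J, ω n * F p n‖ ≤
      ∑ x ∈ (K ×ˢ J).filter (fun x => x ∈ O), ‖Z x.1 x.2‖ := by
    rw [hS, hS2]
    refine (norm_sum_le _ _).trans (Finset.sum_le_sum fun x _ => ?_)
    rw [norm_mul]
    exact mul_le_of_le_one_left (norm_nonneg _) (hω _)
  have hsq : ∑ x ∈ (K ×ˢ J).filter (fun x => x ∈ O), ‖Z x.1 x.2‖ ^ 2 ≤
      ∑ p ∈ I, ∑ p' ∈ I, (if key p = key p' then
        ‖∑ n ∈ J, F p n * (starRingEnd ℂ) (F p' n)‖ else 0) := by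
    refine (Finset.sum_le_sum_of_subset_of_nonneg (Finset.filter_subset _ _)
      fun x _ _ => by positivity).trans ?_
    rw [Finset.sum_product]
    rw [← Finset.sum_fiberwise_of_maps_to hmem (fun p => ∑ p' ∈ I, (if key p = key p' then
        ‖∑ n ∈ J, F p n * (starRingEnd ℂ) (F p' n)‖ else 0))]
    refine Finset.sum_le_sum fun k _ => ?_
    refine (Ccs_one (I.filter (fun p => key p = k)) J γ F hγ).trans (le_of_eq ?_)
    refine Finset.sum_congr rfl fun p hp => ?_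
    rw [Finset.mem_filter] at hp
    rw [Finset.sum_filter]
    refine Finset.sum_congr rfl fun p' _ => ?_
    rw [hp.2]
    by_cases h : key p' = k
    · rw [if_pos h, if_pos h.symm]
    · rw [if_neg h, if_neg (fun h' => h h'.symm)]
  calc ‖∑ p ∈ I, γ p * ∑ n ∈ J, ω n * F p n‖ ^ 2
      ≤ (∑ x ∈ (K ×ˢ J).filter (fun x => x ∈ O), ‖Z x.1 x.2‖) ^ 2 :=
        pow_le_pow_left₀ (norm_nonneg _) hc 2
    _ ≤ (((K ×ˢ J).filter (fun x => x ∈ O)).card : ℝ) *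
        ∑ x ∈ (K ×ˢ J).filter (fun x => x ∈ O), ‖Z x.1 x.2‖ ^ 2 := sq_sum_le_card_mul_sum_sq
    _ ≤ (O.card : ℝ) * ∑ p ∈ I, ∑ p' ∈ I, (if key p = key p' then
        ‖∑ n ∈ J, F p n * (starRingEnd ℂ) (F p' n)‖ else 0) := by
        refine mul_le_mul hT hsq (Finset.sum_nonneg fun x _ => by positivity) (Nat.cast_nonneg _)

end Pool.Agent.Lib.SL
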