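import Pool.Agent.Lib.SL.SpecD
import Pool.Agent.Lib.MI.T1Base

/-!
MP_00e23e_nt, project SL, chapter C (second Cauchy inequality and phase identity; helper3, helper12, helper34): definitions and
the two interface statements SecStmt (SpecC.lean, helper3) and PhStmt (SpecP.lean, helper12). The form of the support is the one
of helper90 (Lib/SLB/StmT.lean: Lt, Tz).
-/

namespace Pool.Agent.Lib.SL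

open Finset Pool.Agent.Lib.EH3 Pool.Agent.Lib.TB Pool.Agent.Results.MP_00e23e_nt Pool.Agent.Lib.MI

open Classical in
/-- the term of the index p = (h, r, s1, s2) at (n1, n2) -/
noncomputable def Fp (a : ℕ → ℕ → ℤ) (g : ℕ) (h : ℤ) (r s1 s2 n1 n2 : ℕ) : ℂ :=
  if Gg a g r s1 s2 n1 n2 then fg a h g r s1 s2 n1 n2 else 0

/-- the support of the coefficients: ρ r ∣ r, ρ r ~ R0; v r s ∣ s, v r s ~ V; the classes modulo ρ r of the first (second)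
modulus depend only on ρ r and s1/v r s1 (s2/v r s2); for g > 1 the lattice has few points -/
def Su (a b1 b2 : ℕ → ℕ → ℤ) (ρ : ℕ → ℕ) (v : ℕ → ℕ → ℕ) (g R0 V R S N r s1 s2 : ℕ) : Prop :=
  (R < r ∧ r ≤ 2 * R) ∧ (S < s1 ∧ s1 ≤ 2 * S) ∧ (S < s2 ∧ s2 ≤ 2 * S) ∧
  (ρ r ∣ r ∧ R0 < ρ r ∧ ρ r ≤ 2 * R0) ∧ (v r s1 ∣ s1 ∧ V < v r s1 ∧ v r s1 ≤ 2 * V) ∧
  (v r s2 ∣ s2 ∧ V < v r s2 ∧ v r s2 ≤ 2 * V) ∧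
  (ρ r : ℤ) ∣ a r s1 - b1 (ρ r) (s1 / v r s1) ∧ (ρ r : ℤ) ∣ a r s2 - b2 (ρ r) (s2 / v r s2) ∧
  (2 ≤ g → ND (a r s1) (a r s2) (r * g) N)

/-- the key of p (outer variables of the second Cauchy inequality) -/
def Ky (ρ : ℕ → ℕ) (v : ℕ → ℕ → ℕ) (r s1 s2 : ℕ) : ℕ × ℕ × ℕ := (ρ r, s1 / v r s1, s2 / v r s2)

/-- Theta = h q' v1' v2' - h' q v1 v2, q = r / ρ r -/
def Th (ρ : ℕ → ℕ) (v : ℕ → ℕ → ℕ) (h h' : ℤ) (r s1 s2 r' s1' s2' : ℕ) : ℤ :=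
  h * ((r' / ρ r' * v r' s1' * v r' s2' : ℕ) : ℤ) - h' * ((r / ρ r * v r s1 * v r s2 : ℕ) : ℤ)

/-- The second Cauchy inequality, the diagonal and all averages; only the sums of pairs with Theta ≠ 0 are left. -/
def SecStmt : Prop := ∃ C : ℝ, 0 < C ∧ ∃ A : ℕ, ∀ (X T D : ℝ) (a b1 b2 : ℕ → ℕ → ℤ) (ρ : ℕ → ℕ) (v : ℕ → ℕ → ℕ)
    (g R S N H R0 V : ℕ) (Hs : Finset ℤ) (γ : ℤ → ℕ → ℕ → ℕ → ℂ) (ω : ℕ → ℕ → ℂ), Tau X T → 0 ≤ D → 1 ≤ g → 1 ≤ R →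
  1 ≤ S → 1 ≤ N → 1 ≤ H → 1 ≤ R0 → 1 ≤ V → R ≤ N →
  100 * (R : ℝ) ^ 2 * (S : ℝ) ^ 4 * (N : ℝ) ^ 2 * (H : ℝ) ^ 2 ≤ X →
  (∀ h ∈ Hs, h ≠ 0 ∧ |h| ≤ (H : ℤ)) → (∀ h r s1 s2, ‖γ h r s1 s2‖ ≤ 1) → (∀ n1 n2, ‖ω n1 n2‖ ≤ 1) →
  (∀ h r s1 s2, h ∈ Hs → r ∈ Ioc R (2 * R) → s1 ∈ Ioc S (2 * S) → s2 ∈ Ioc S (2 * S) → γ h r s1 s2 ≠ 0 →
    Su a b1 b2 ρ v g R0 V R S N r s1 s2) →
  (∀ h h' r s1 s2 r' s1' s2', h ∈ Hs → h' ∈ Hs → γ h r s1 s2 ≠ 0 → γ h' r' s1' s2' ≠ 0 →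
    Nat.gcd s1 s2 = g → Nat.gcd s1' s2' = g → Su a b1 b2 ρ v g R0 V R S N r s1 s2 → Su a b1 b2 ρ v g R0 V R S N r' s1' s2' →
    Ky ρ v r s1 s2 = Ky ρ v r' s1' s2' → Th ρ v h h' r s1 s2 r' s1' s2' ≠ 0 →
    ‖∑ n1 ∈ Ioc N (2 * N), ∑ n2 ∈ Ioc N (2 * N),
      Fp a g h r s1 s2 n1 n2 * (starRingEnd ℂ) (Fp a g h' r' s1' s2' n1 n2)‖ ≤
      D * (Int.gcd (Th ρ v h h' r s1 s2 r' s1' s2') (ρ r) : ℝ)) →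
  ‖∑ h ∈ Hs, TG a g h R S N (γ h) ω‖ ^ 2 ≤ C * T ^ A * ((S : ℝ) ^ 2 * (N : ℝ) ^ 2) ^ 2 *
    ((H : ℝ) / ((V : ℝ) ^ 2 * (g : ℝ) ^ 3) + (H : ℝ) ^ 2 / (g : ℝ) ^ 4 * ((R : ℝ) ^ 2 * D / ((R0 : ℝ) * (N : ℝ) ^ 2)))

/-- The phase identity of a pair with the same key. -/
def PhStmt : Prop := ∀ (a b1 b2 : ℕ → ℕ → ℤ) (ρ : ℕ → ℕ) (v : ℕ → ℕ → ℕ) (g R0 V R S N : ℕ) (h h' : ℤ)
    (r s1 s2 r' s1' s2' : ℕ), 1 ≤ g → 1 ≤ R0 → 1 ≤ V →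
  Su a b1 b2 ρ v g R0 V R S N r s1 s2 → Su a b1 b2 ρ v g R0 V R S N r' s1' s2' →
  Ky ρ v r s1 s2 = Ky ρ v r' s1' s2' →
  (∀ n1 n2 : ℕ, Fp a g h r s1 s2 n1 n2 * (starRingEnd ℂ) (Fp a g h' r' s1' s2' n1 n2) = 0) ∨
  ∃ (B w1 w2 : ℕ) (l c1 c2 : ℤ), B = ρ r * (g * Nat.lcm (r / ρ r) (r' / ρ r')) ∧
    B * w1 = Nat.lcm (r * s1) (r' * s1') ∧ B * w2 = Nat.lcm (r * s2) (r' * s2') ∧ Squarefree (B * w1) ∧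
    Squarefree (B * w2) ∧ Int.gcd l B = 1 ∧ 1 ≤ w1 ∧ 1 ≤ w2 ∧ g * w1 ≤ 4 * S * V ∧ g * w2 ≤ 4 * S * V ∧
    R * g < B ∧ B * R0 ≤ 4 * R ^ 2 * g ∧
    (∀ F : ℕ, F ∣ ρ r → Int.gcd c1 F = Int.gcd (Th ρ v h h' r s1 s2 r' s1' s2') F) ∧
    ∀ n1 n2 : ℕ, 1 ≤ n1 → 1 ≤ n2 → Fp a g h r s1 s2 n1 n2 * (starRingEnd ℂ) (Fp a g h' r' s1' s2' n1 n2) =
      if (B : ℤ) ∣ (n1 : ℤ) - l * n2 then t1g c1 (B * w1) n1 * t1g c2 w2 n2 else 0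

end Pool.Agent.Lib.SL
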