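import Pool.Agent.Lib.SL.DefC

/-!
MP_00e23e_nt, project SL, phase 2 (helper3): the second Cauchy inequality with colours. The class modulo ρ r depends on ρ r,
s / v r s and a colour col r s < K; the colours belong to the key. SecKStmt = SecStmt with the factor K^2. The phase identity
PhStmt is used as it is: for a pair with the same key KyK the colours are equal, take b1 := b · · c1, b2 := b · · c2 (SuK_Su).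
-/

namespace Pool.Agent.Lib.SL

open Finset Pool.Agent.Lib.EH3 Pool.Agent.Lib.TB Pool.Agent.Results.MP_00e23e_nt Pool.Agent.Lib.MI

/-- the support of the coefficients, with colours -/
def SuK (a : ℕ → ℕ → ℤ) (b : ℕ → ℕ → ℕ → ℤ) (ρ : ℕ → ℕ) (v col : ℕ → ℕ → ℕ) (K g R0 V R S N r s1 s2 : ℕ) : Prop :=
  (R < r ∧ r ≤ 2 * R) ∧ (S < s1 ∧ s1 ≤ 2 * S) ∧ (S < s2 ∧ s2 ≤ 2 * S) ∧
  (ρ r ∣ r ∧ R0 < ρ r ∧ ρ r ≤ 2 * R0) ∧ (v r s1 ∣ s1 ∧ V < v r s1 ∧ v r s1 ≤ 2 * V) ∧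
  (v r s2 ∣ s2 ∧ V < v r s2 ∧ v r s2 ≤ 2 * V) ∧
  (col r s1 < K ∧ (ρ r : ℤ) ∣ a r s1 - b (ρ r) (s1 / v r s1) (col r s1)) ∧
  (col r s2 < K ∧ (ρ r : ℤ) ∣ a r s2 - b (ρ r) (s2 / v r s2) (col r s2)) ∧
  (2 ≤ g → ND (a r s1) (a r s2) (r * g) N)

/-- the key with colours -/
def KyK (ρ : ℕ → ℕ) (v col : ℕ → ℕ → ℕ) (r s1 s2 : ℕ) : ℕ × ℕ × ℕ × ℕ × ℕ :=
  (ρ r, s1 / v r s1, col r s1, s2 / v r s2, col r s2)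

/-- SuK gives Su with the two colours fixed -/
theorem SuK_Su {a : ℕ → ℕ → ℤ} {b : ℕ → ℕ → ℕ → ℤ} {ρ : ℕ → ℕ} {v col : ℕ → ℕ → ℕ} {K g R0 V R S N r s1 s2 : ℕ}
    (h : SuK a b ρ v col K g R0 V R S N r s1 s2) :
    Su a (fun m u => b m u (col r s1)) (fun m u => b m u (col r s2)) ρ v g R0 V R S N r s1 s2 := by
  obtain ⟨h1, h2, h3, h4, h5, h6, h7, h8, h9⟩ := h
  exact ⟨h1, h2, h3, h4, h5, h6, h7.2, h8.2, h9⟩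

/-- the second element of a pair with the same key, with the colours of the first one -/
theorem SuK_Su' {a : ℕ → ℕ → ℤ} {b : ℕ → ℕ → ℕ → ℤ} {ρ : ℕ → ℕ} {v col : ℕ → ℕ → ℕ}
    {K g R0 V R S N r s1 s2 r' s1' s2' : ℕ} (h : SuK a b ρ v col K g R0 V R S N r' s1' s2')
    (hk : KyK ρ v col r s1 s2 = KyK ρ v col r' s1' s2') :
    Su a (fun m u => b m u (col r s1)) (fun m u => b m u (col r s2)) ρ v g R0 V R S N r' s1' s2' ∧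
      Ky ρ v r s1 s2 = Ky ρ v r' s1' s2' := by
  simp only [KyK, Prod.mk.injEq] at hk
  obtain ⟨k1, k2, k3, k4, k5⟩ := hk
  refine ⟨?_, ?_⟩
  · rw [k3, k5]
    exact SuK_Su h
  · simp only [Ky, k1, k2, k4]

/-- The second Cauchy inequality with colours, the diagonal and all averages; only the sums of pairs with Theta ≠ 0 are left. -/
def SecKStmt : Prop := ∃ C : ℝ, 0 < C ∧ ∃ A : ℕ, ∀ (X T D : ℝ) (a : ℕ → ℕ → ℤ) (b : ℕ → ℕ → ℕ → ℤ) (ρ : ℕ → ℕ)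
    (v col : ℕ → ℕ → ℕ) (K g R S N H R0 V : ℕ) (Hs : Finset ℤ) (γ : ℤ → ℕ → ℕ → ℕ → ℂ) (ω : ℕ → ℕ → ℂ), Tau X T →
  0 ≤ D → 1 ≤ K → 1 ≤ g → 1 ≤ R → 1 ≤ S → 1 ≤ N → 1 ≤ H → 1 ≤ R0 → 1 ≤ V → R ≤ N →
  100 * (R : ℝ) ^ 2 * (S : ℝ) ^ 4 * (N : ℝ) ^ 2 * (H : ℝ) ^ 2 ≤ X →
  (∀ h ∈ Hs, h ≠ 0 ∧ |h| ≤ (H : ℤ)) → (∀ h r s1 s2, ‖γ h r s1 s2‖ ≤ 1) → (∀ n1 n2, ‖ω n1 n2‖ ≤ 1) →
  (∀ h r s1 s2, h ∈ Hs → r ∈ Ioc R (2 * R) → s1 ∈ Ioc S (2 * S) → s2 ∈ Ioc S (2 * S) → γ h r s1 s2 ≠ 0 →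
    SuK a b ρ v col K g R0 V R S N r s1 s2) →
  (∀ h h' r s1 s2 r' s1' s2', h ∈ Hs → h' ∈ Hs → γ h r s1 s2 ≠ 0 → γ h' r' s1' s2' ≠ 0 →
    Nat.gcd s1 s2 = g → Nat.gcd s1' s2' = g → SuK a b ρ v col K g R0 V R S N r s1 s2 →
    SuK a b ρ v col K g R0 V R S N r' s1' s2' →
    KyK ρ v col r s1 s2 = KyK ρ v col r' s1' s2' → Th ρ v h h' r s1 s2 r' s1' s2' ≠ 0 →
    ‖∑ n1 ∈ Ioc N (2 * N), ∑ n2 ∈ Ioc N (2 * N),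
      Fp a g h r s1 s2 n1 n2 * (starRingEnd ℂ) (Fp a g h' r' s1' s2' n1 n2)‖ ≤
      D * (Int.gcd (Th ρ v h h' r s1 s2 r' s1' s2') (ρ r) : ℝ)) →
  ‖∑ h ∈ Hs, TG a g h R S N (γ h) ω‖ ^ 2 ≤ C * T ^ A * (K : ℝ) ^ 2 * ((S : ℝ) ^ 2 * (N : ℝ) ^ 2) ^ 2 *
    ((H : ℝ) / ((V : ℝ) ^ 2 * (g : ℝ) ^ 3) + (H : ℝ) ^ 2 / (g : ℝ) ^ 4 * ((R : ℝ) ^ 2 * D / ((R0 : ℝ) * (N : ℝ) ^ 2)))

/-- the encoded key -/
def Ke (ρ : ℕ → ℕ) (v col : ℕ → ℕ → ℕ) (K r s1 s2 : ℕ) : ℕ × ℕ × ℕ :=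
  (ρ r, s1 / v r s1 * K + col r s1, s2 / v r s2 * K + col r s2)

theorem Ke_inj {ρ : ℕ → ℕ} {v col : ℕ → ℕ → ℕ} {K r s1 s2 r' s1' s2' : ℕ} (h1 : col r s1 < K) (h2 : col r s2 < K)
    (h1' : col r' s1' < K) (h2' : col r' s2' < K) (h : Ke ρ v col K r s1 s2 = Ke ρ v col K r' s1' s2') :
    KyK ρ v col r s1 s2 = KyK ρ v col r' s1' s2' := by
  have key : ∀ u c u' c' : ℕ, c < K → c' < K → u * K + c = u' * K + c' → u = u' ∧ c = c' := by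
    intro u c u' c' hc hc' h
    have hK : 0 < K := by omega
    have e1 : (u * K + c) / K = u := by
      rw [mul_comm, Nat.mul_add_div hK, Nat.div_eq_of_lt hc, add_zero]
    have e2 : (u' * K + c') / K = u' := by
      rw [mul_comm, Nat.mul_add_div hK, Nat.div_eq_of_lt hc', add_zero]
    have e3 : u = u' := by rw [← e1, h, e2]
    refine ⟨e3, ?_⟩
    rw [e3] at h
    omega
  simp only [Ke, Prod.mk.injEq] at h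
  obtain ⟨k1, k2, k3⟩ := h
  obtain ⟨m1, m2⟩ := key _ _ _ _ h1 h1' k2
  obtain ⟨m3, m4⟩ := key _ _ _ _ h2 h2' k3
  simp only [KyK, k1, m1, m2, m3, m4]

end Pool.Agent.Lib.SL
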