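import Pool.Agent.Lib.SL.SpecE

/-!
Module Ezb of project SL: the frequencies with `j2 = 0`.
-/

namespace Pool.Agent.Lib.SL

open Finset Pool.Agent.Lib.EH3 Pool.Agent.Lib.TB Pool.Agent.Results.MP_00e23e_nt Pool.Agent.Lib.MI

private theorem Ezb_const (N k W : ℕ) (hk : 1 ≤ k) (hW : 1 ≤ W) :
    wE N (k * W) 0 * Real.sqrt (Int.gcd 0 (W : ℤ) : ℝ) = (N : ℝ) / ((k : ℝ) * Real.sqrt W) := by
  have h1 : wE N (k * W) 0 = (N : ℝ) / ((k * W : ℕ) : ℝ) := if_pos rfl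
  have h2 : (Int.gcd 0 (W : ℤ)) = W := by simp
  rw [h1, h2]
  have hk' : (0 : ℝ) < k := by exact_mod_cast hk
  have hW' : (0 : ℝ) < W := by exact_mod_cast hW
  have hs : 0 < Real.sqrt (W : ℝ) := Real.sqrt_pos.2 hW'
  have hss : Real.sqrt (W : ℝ) * Real.sqrt W = W := Real.mul_self_sqrt hW'.le
  push_cast
  rw [div_mul_eq_mul_div, div_eq_div_iff (by positivity) (by positivity)]
  linear_combination ((N : ℝ) * k) * hss

theorem tEzb (h1 : EzgStmt) : EzbStmt := by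
  intro X T k1 k2 k3 W1 W2 N J l1 l2 hT hM hX hJ
  obtain ⟨hsq, hW1, hW2, hc1, hc2, hl1, hl2⟩ := hM
  have hk0 : k1 * k2 * k3 ≠ 0 := hsq.ne_zero
  have hk3 : k3 ≠ 0 := right_ne_zero_of_mul hk0
  have hk12 : k1 * k2 ≠ 0 := left_ne_zero_of_mul hk0
  have hk1 : k1 ≠ 0 := left_ne_zero_of_mul hk12
  have hk2 : k2 ≠ 0 := right_ne_zero_of_mul hk12
  have hd1 : k1 ∣ k1 * k2 * k3 := ⟨k2 * k3, by ring⟩
  have hd3 : k3 ∣ k1 * k2 * k3 := ⟨k1 * k2, by ring⟩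
  have hd13 : k1 * k3 ∣ k1 * k2 * k3 := ⟨k2, by ring⟩
  have hc13 : k1.Coprime k3 := Nat.coprime_of_squarefree_mul (hsq.squarefree_of_dvd hd13)
  have hcW1 : k1.Coprime W1 := Nat.Coprime.coprime_dvd_left hd1 hc1
  have hcW3 : k3.Coprime W1 := Nat.Coprime.coprime_dvd_left hd3 hc1
  have hu : Int.gcd ((W2 : ℤ) * l2) ((k1 * k3 : ℕ) : ℤ) = 1 := by
    have a1 : IsCoprime (W2 : ℤ) ((k1 * k3 : ℕ) : ℤ) := by
      rw [Int.isCoprime_iff_gcd_eq_one, Int.gcd_natCast_natCast]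
      exact (Nat.Coprime.coprime_dvd_left hd13 hc2).symm
    have a2 : IsCoprime l2 ((k1 * k3 : ℕ) : ℤ) := by
      have : IsCoprime l2 ((k1 * k2 * k3 : ℕ) : ℤ) := Int.isCoprime_iff_gcd_eq_one.2 hl2
      exact this.of_isCoprime_of_dvd_right (by exact_mod_cast hd13)
    exact Int.isCoprime_iff_gcd_eq_one.1 (a1.mul_left a2)
  have hX' : ((k1 * k3 * W1 : ℕ) : ℝ) ≤ X := by
    refine le_trans ?_ hX
    have : k1 * k3 * W1 ≤ k1 * k2 * k3 * W1 :=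
      Nat.mul_le_mul_right _ (Nat.le_of_dvd (Nat.pos_of_ne_zero hk0) hd13)
    exact_mod_cast this
  have hK : 1 ≤ k1 * k2 * k3 * W1 := Nat.one_le_iff_ne_zero.2 (Nat.mul_ne_zero hk0 (by omega))
  have key := h1 X T k1 k3 W1 N (k1 * k2 * k3 * W1) J ((W2 : ℤ) * l2) hT
    (Nat.pos_of_ne_zero hk1) (Nat.pos_of_ne_zero hk3) hW1 hK hc13 hcW1 hcW3 hu hX' hJ
  have hconst := Ezb_const N (k1 * k2 * k3) W2 (Nat.pos_of_ne_zero hk0) hW2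
  have e : ∀ j : ℤ, wE N (k1 * k2 * k3 * W1) j * wE N (k1 * k2 * k3 * W2) 0 *
        ((Int.gcd (bE l1 l2 W1 W2 j 0) k1 : ℝ) * Real.sqrt (Int.gcd (bE l1 l2 W1 W2 j 0) k3 : ℝ) *
          Real.sqrt (Int.gcd j W1 : ℝ) * Real.sqrt (Int.gcd 0 W2 : ℝ)) =
      (wE N (k1 * k2 * k3 * W2) 0 * Real.sqrt (Int.gcd 0 (W2 : ℤ) : ℝ)) *
        (wE N (k1 * k2 * k3 * W1) j * ((Int.gcd ((W2 : ℤ) * l2 * j) k1 : ℝ) *
          Real.sqrt (Int.gcd ((W2 : ℤ) * l2 * j) k3 : ℝ) * Real.sqrt (Int.gcd j W1 : ℝ))) := by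
    intro j
    have hb : bE l1 l2 W1 W2 j 0 = (W2 : ℤ) * l2 * j := by
      unfold bE; ring
    rw [hb]
    ring
  rw [Finset.sum_congr rfl fun j _ => e j, ← Finset.mul_sum, hconst, mul_comm (T ^ 2)]
  exact mul_le_mul_of_nonneg_left key (by positivity)

end Pool.Agent.Lib.SL
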