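import Pool.Agent.Lib.SL.SpecD

/-!
MP_00e23e_nt, project SL, module Ldd: all degenerate lattices.
-/

set_option autoImplicit false

namespace Pool.Agent.Lib.SL

open Finset Pool.Agent.Lib.EH3 Pool.Agent.Lib.TB Pool.Agent.Results.MP_00e23e_nt Pool.Agent.Lib.MI

open Classical in
private theorem Ldd_dl (a : ℤ) (q t : ℕ) :
    ‖dl a q t‖ = if (q : ℤ) ∣ (t : ℤ) - a then (1 : ℝ) else 0 := by
  unfold dl
  by_cases h : (q : ℤ) ∣ (t : ℤ) - a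
  · simp [h]
  · simp [h]

private theorem Ldd_ten (M : ℕ) (F : ℕ → ℂ) : ‖Ten M F‖ ≤ TR M (fun m => ‖F m‖) := by
  unfold Ten TR
  rw [norm_mul]
  have h1 : ‖(4 / (M : ℂ))‖ = 4 / (M : ℝ) := by
    rw [norm_div]
    simp
  rw [h1]
  refine mul_le_mul_of_nonneg_left ?_ (by positivity)
  exact (norm_sum_le _ _).trans (Finset.sum_le_sum fun i _ => norm_sum_le _ _)

open Classical in
private theorem Ldd_ps (h1 : MI.DtrStmt) (a : ℕ → ℕ → ℤ) (M r s1 s2 n1 n2 : ℕ) (hM : 8 ≤ M) :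
    ‖Ps a M r s1 s2 n1 n2‖ ≤ 4 * ∑ m ∈ Icc (M / 2) (3 * M),
      (if ((r * s1 : ℕ) : ℤ) ∣ ((m * n1 : ℕ) : ℤ) - a r s1 ∧
        ((r * s2 : ℕ) : ℤ) ∣ ((m * n2 : ℕ) : ℤ) - a r s2 then (1 : ℝ) else 0) := by
  have h2 := (h1 M (fun m => (if ((r * s1 : ℕ) : ℤ) ∣ ((m * n1 : ℕ) : ℤ) - a r s1 ∧
        ((r * s2 : ℕ) : ℤ) ∣ ((m * n2 : ℕ) : ℤ) - a r s2 then (1 : ℝ) else 0)) hM
        (fun m => by split_ifs <;> norm_num)).2
  refine le_trans ?_ h2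
  unfold Ps
  refine (Ldd_ten M _).trans (le_of_eq ?_)
  congr 1
  funext m
  rw [norm_mul, Ldd_dl, Ldd_dl]
  by_cases hA : ((r * s1 : ℕ) : ℤ) ∣ ((m * n1 : ℕ) : ℤ) - a r s1
  · by_cases hB : ((r * s2 : ℕ) : ℤ) ∣ ((m * n2 : ℕ) : ℤ) - a r s2
    · rw [if_pos hA, if_pos hB, if_pos ⟨hA, hB⟩, mul_one]
    · rw [if_pos hA, if_neg hB, if_neg (fun h => hB h.2), mul_zero]
  · rw [if_neg hA, zero_mul]
    exact (if_neg fun h => hA h.1).symm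

private theorem Ldd_gcd (b : ℤ) (q q' : ℕ) (h : q ∣ q') (hb : Int.gcd b (q' : ℤ) = 1) :
    Int.gcd b (q : ℤ) = 1 := by
  have h1 : Int.gcd b (q : ℤ) ∣ Int.gcd b (q' : ℤ) :=
    Int.gcd_dvd_gcd_of_dvd_right _ (Int.natCast_dvd_natCast.2 h)
  rw [hb] at h1
  exact Nat.dvd_one.1 h1

open Classical in
private theorem Ldd_in (h1 : MI.DtrStmt) (h2 : LndStmt) (h3 : LdcStmt) (X T z : ℝ)
    (a : ℕ → ℕ → ℤ) (R S M N : ℕ) (P : Finset (ℕ × ℕ)) (hS : Sz X T z R S M N)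
    (hP : Pr a R S z P) (hX : 6 * (M : ℝ) * N ≤ X) (r s1 s2 : ℕ) (hr : r ∈ Ioc R (2 * R))
    (hs1 : s1 ∈ Ioc S (2 * S)) (hs2 : s2 ∈ Ioc S (2 * S)) :
    ∑ n1 ∈ Ioc N (2 * N), ∑ n2 ∈ Ioc N (2 * N),
      (if (r, s1) ∈ P ∧ (r, s2) ∈ P ∧ Gg a (Nat.gcd s1 s2) r s1 s2 n1 n2 ∧
          ¬ ND (a r s1) (a r s2) (r * Nat.gcd s1 s2) N then ‖Ps a M r s1 s2 n1 n2‖ else 0) ≤
    4 * (T * (6 * ((M : ℝ) * N) / R * (1 / ((Nat.lcm s1 s2 : ℕ) : ℝ)) + 1)) := by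
  obtain ⟨hT, hz, hR, hS1, hN, hM, hRN, hX2, hRS⟩ := hS
  rw [mem_Ioc] at hr hs1 hs2
  have hT0 : (0 : ℝ) ≤ T := zero_le_one.trans hT.1
  have hR0 : (0 : ℝ) < R := by exact_mod_cast hR
  have hl0 : 0 < Nat.lcm s1 s2 := Nat.lcm_pos (by omega) (by omega)
  have hl0' : (0 : ℝ) < (Nat.lcm s1 s2 : ℕ) := by exact_mod_cast hl0
  by_cases hc : (r, s1) ∈ P ∧ (r, s2) ∈ P ∧ ¬ ND (a r s1) (a r s2) (r * Nat.gcd s1 s2) N
  · obtain ⟨hc1, hc2, hc3⟩ := hc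
    have hp1 := hP _ hc1
    have hp2 := hP _ hc2
    have hg1 : Int.gcd (a r s1) ((r * s1 : ℕ) : ℤ) = 1 := hp1.2.2.2.2.2.1
    have hg2 : Int.gcd (a r s2) ((r * s2 : ℕ) : ℤ) = 1 := hp2.2.2.2.2.2.1
    have hgpos : 0 < Nat.gcd s1 s2 := Nat.gcd_pos_of_pos_left _ (by omega)
    have hcol := (h2 (r * Nat.gcd s1 s2) N (a r s1) (a r s2)
      (Nat.mul_pos (by omega) hgpos) hN
      (Ldd_gcd _ _ _ (Nat.mul_dvd_mul_left r (Nat.gcd_dvd_left s1 s2)) hg1)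
      (Ldd_gcd _ _ _ (Nat.mul_dvd_mul_left r (Nat.gcd_dvd_right s1 s2)) hg2)).resolve_left hc3
    have hcard := h3 X T M N (r * s1) (r * s2) (a r s1) (a r s2)
      (La (a r s1) (a r s2) (r * Nat.gcd s1 s2) N) hT hM hN
      (Nat.mul_pos (by omega) (by omega)) (Nat.mul_pos (by omega) (by omega)) hX hg1 hg2
      (Finset.filter_subset _ _) hcol
    set L := La (a r s1) (a r s2) (r * Nat.gcd s1 s2) N with hL
    have e1 : ∑ n1 ∈ Ioc N (2 * N), ∑ n2 ∈ Ioc N (2 * N),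
        (if (r, s1) ∈ P ∧ (r, s2) ∈ P ∧ Gg a (Nat.gcd s1 s2) r s1 s2 n1 n2 ∧
          ¬ ND (a r s1) (a r s2) (r * Nat.gcd s1 s2) N then ‖Ps a M r s1 s2 n1 n2‖ else 0) ≤
        ∑ n ∈ L, 4 * ∑ m ∈ Icc (M / 2) (3 * M),
          (if ((r * s1 : ℕ) : ℤ) ∣ ((m * n.1 : ℕ) : ℤ) - a r s1 ∧
            ((r * s2 : ℕ) : ℤ) ∣ ((m * n.2 : ℕ) : ℤ) - a r s2 then (1 : ℝ) else 0) := by
      rw [← Finset.sum_product', hL, La, Finset.sum_filter]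
      refine Finset.sum_le_sum fun n _ => ?_
      by_cases hn : (r, s1) ∈ P ∧ (r, s2) ∈ P ∧ Gg a (Nat.gcd s1 s2) r s1 s2 n.1 n.2 ∧
          ¬ ND (a r s1) (a r s2) (r * Nat.gcd s1 s2) N
      · rw [if_pos hn, if_pos hn.2.2.1.2.2.2.2.2.2.2]
        exact Ldd_ps h1 a M r s1 s2 n.1 n.2 hM
      · rw [if_neg hn]
        split_ifs
        · positivity
        · exact le_refl _
    have e2 : ∑ n ∈ L, 4 * ∑ m ∈ Icc (M / 2) (3 * M),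
          (if ((r * s1 : ℕ) : ℤ) ∣ ((m * n.1 : ℕ) : ℤ) - a r s1 ∧
            ((r * s2 : ℕ) : ℤ) ∣ ((m * n.2 : ℕ) : ℤ) - a r s2 then (1 : ℝ) else 0) =
        4 * (((Icc (M / 2) (3 * M) ×ˢ L).filter (fun w =>
          ((r * s1 : ℕ) : ℤ) ∣ ((w.1 * w.2.1 : ℕ) : ℤ) - a r s1 ∧
          ((r * s2 : ℕ) : ℤ) ∣ ((w.1 * w.2.2 : ℕ) : ℤ) - a r s2)).card : ℝ) := by
      rw [← Finset.mul_sum, ← Finset.sum_boole, Finset.sum_product_right]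
    have hlcm : Nat.lcm (r * s1) (r * s2) = r * Nat.lcm s1 s2 :=
      Nat.lcm_mul_left _ _ _
    rw [hlcm] at hcard
    have e3 : 6 * ((M : ℝ) * N) / ((r * Nat.lcm s1 s2 : ℕ) : ℝ) ≤
        6 * ((M : ℝ) * N) / R * (1 / ((Nat.lcm s1 s2 : ℕ) : ℝ)) := by
      rw [div_mul_div_comm, mul_one]
      refine div_le_div_of_nonneg_left (by positivity) (by positivity) ?_
      push_cast
      refine mul_le_mul_of_nonneg_right ?_ (by positivity)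
      exact_mod_cast hr.1.le
    rw [e2] at e1
    refine e1.trans ?_
    refine mul_le_mul_of_nonneg_left ?_ (by norm_num)
    refine hcard.trans (mul_le_mul_of_nonneg_left ?_ hT0)
    linarith
  · rw [Finset.sum_eq_zero fun n1 _ => Finset.sum_eq_zero fun n2 _ =>
      if_neg fun h => hc ⟨h.1, h.2.1, h.2.2.2⟩]
    positivity

theorem tLdd (h1 : MI.DtrStmt) (h2 : LndStmt) (h3 : LdcStmt) (h4 : MJ.EgcStmt) : LddStmt := by
  classical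
  intro X T z a R S M N P hS hP
  have hS' := hS
  obtain ⟨hT, hz, hR, hS1, hN, hM, hRN, hX2, hRS⟩ := hS'
  have hT1 : (1 : ℝ) ≤ T := hT.1
  have hT0 : (0 : ℝ) ≤ T := zero_le_one.trans hT1
  have hR1 : (1 : ℝ) ≤ R := by exact_mod_cast hR
  have hS1' : (1 : ℝ) ≤ S := by exact_mod_cast hS1
  have hN1 : (1 : ℝ) ≤ N := by exact_mod_cast hN
  have hM1 : (8 : ℝ) ≤ M := by exact_mod_cast hM
  have hRS' : (R : ℝ) * (S : ℝ) ^ 2 ≤ (M : ℝ) * N := by exact_mod_cast hRS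
  have hMN : (1 : ℝ) ≤ (M : ℝ) * N := one_le_mul_of_one_le_of_one_le (by linarith) hN1
  have hbig : 100 * ((M : ℝ) * N) ≤ X := by
    refine le_trans ?_ hX2
    have q1 : (M : ℝ) * N ≤ ((M : ℝ) * N) ^ 2 := by nlinarith
    have q2 : (1 : ℝ) ≤ (R : ℝ) ^ 2 * (S : ℝ) ^ 4 :=
      one_le_mul_of_one_le_of_one_le (one_le_pow₀ hR1) (one_le_pow₀ hS1')
    calc 100 * ((M : ℝ) * N) ≤ 100 * ((M : ℝ) * N) ^ 2 := by linarith
      _ = 100 * ((M : ℝ) * N) ^ 2 * 1 := by ring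
      _ ≤ 100 * ((M : ℝ) * N) ^ 2 * ((R : ℝ) ^ 2 * (S : ℝ) ^ 4) :=
        mul_le_mul_of_nonneg_left q2 (by positivity)
      _ = 100 * (M : ℝ) ^ 2 * (N : ℝ) ^ 2 * (R : ℝ) ^ 2 * (S : ℝ) ^ 4 := by ring
  have hX : 6 * (M : ℝ) * N ≤ X := by nlinarith
  have hSX : 2 * (S : ℝ) ≤ X := by
    have q3 : (S : ℝ) ≤ (R : ℝ) * (S : ℝ) ^ 2 := by nlinarith
    linarith
  have hE : ∑ s1 ∈ Ioc S (2 * S), ∑ s2 ∈ Ioc S (2 * S), 1 / ((Nat.lcm s1 s2 : ℕ) : ℝ) ≤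
      4 * T := by
    have q4 := h4 X T S 1 hT le_rfl hSX
    rw [Finset.filter_true_of_mem fun s _ => one_dvd s] at q4
    simpa using q4
  set A : ℝ := 6 * ((M : ℝ) * N) / R with hA
  have hA0 : 0 ≤ A := by positivity
  have hcS : ((Ioc S (2 * S)).card : ℝ) = S := by
    rw [Nat.card_Ioc]
    congr 1
    omega
  have hcR : ((Ioc R (2 * R)).card : ℝ) = R := by
    rw [Nat.card_Ioc]
    congr 1
    omega
  calc ∑ r ∈ Ioc R (2 * R), ∑ s1 ∈ Ioc S (2 * S), ∑ s2 ∈ Ioc S (2 * S),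
        ∑ n1 ∈ Ioc N (2 * N), ∑ n2 ∈ Ioc N (2 * N),
        (if (r, s1) ∈ P ∧ (r, s2) ∈ P ∧ Gg a (Nat.gcd s1 s2) r s1 s2 n1 n2 ∧
          ¬ ND (a r s1) (a r s2) (r * Nat.gcd s1 s2) N then ‖Ps a M r s1 s2 n1 n2‖ else 0)
      ≤ ∑ r ∈ Ioc R (2 * R), ∑ s1 ∈ Ioc S (2 * S), ∑ s2 ∈ Ioc S (2 * S),
          4 * (T * (A * (1 / ((Nat.lcm s1 s2 : ℕ) : ℝ)) + 1)) :=
        Finset.sum_le_sum fun r hr => Finset.sum_le_sum fun s1 hs1 => Finset.sum_le_sum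
          fun s2 hs2 => Ldd_in h1 h2 h3 X T z a R S M N P hS hP hX r s1 s2 hr hs1 hs2
    _ = 4 * (T * (R * A * (∑ s1 ∈ Ioc S (2 * S), ∑ s2 ∈ Ioc S (2 * S),
          1 / ((Nat.lcm s1 s2 : ℕ) : ℝ)) + R * (S * S))) := by
        rw [Finset.sum_const, nsmul_eq_mul, hcR]
        simp only [← Finset.mul_sum, Finset.sum_add_distrib, Finset.sum_const, nsmul_eq_mul, hcS]
        ring
    _ ≤ 4 * (T * (R * A * (4 * T) + (M : ℝ) * N)) := by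
        refine mul_le_mul_of_nonneg_left (mul_le_mul_of_nonneg_left ?_ hT0) (by norm_num)
        refine add_le_add (mul_le_mul_of_nonneg_left hE (by positivity)) ?_
        rw [← pow_two]
        exact hRS'
    _ = 4 * (T * (24 * T * ((M : ℝ) * N) + (M : ℝ) * N)) := by
        have hR0 : (R : ℝ) ≠ 0 := by linarith
        rw [hA]
        field_simp
        ring
    _ ≤ 100 * T ^ 2 * ((M : ℝ) * N) := by
        have q5 : (M : ℝ) * N ≤ T * ((M : ℝ) * N) := le_mul_of_one_le_left (by linarith) hT1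
        have q6 : T * (24 * T * ((M : ℝ) * N) + (M : ℝ) * N) ≤ T * (25 * T * ((M : ℝ) * N)) :=
          mul_le_mul_of_nonneg_left (by linarith) hT0
        calc 4 * (T * (24 * T * ((M : ℝ) * N) + (M : ℝ) * N))
            ≤ 4 * (T * (25 * T * ((M : ℝ) * N))) := by linarith
          _ = 100 * T ^ 2 * ((M : ℝ) * N) := by ring

end Pool.Agent.Lib.SL
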