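import Pool.Agent.Lib.SL.SpecD

/-!
MP_00e23e_nt, directory Lib/SL, module Lph (helper43): the class ν and the phase, free residue classes.
-/

set_option autoImplicit false

namespace Pool.Agent.Lib.SL

open Finset Pool.Agent.Lib.EH3 Pool.Agent.Lib.TB Pool.Agent.Results.MP_00e23e_nt Pool.Agent.Lib.MI

private theorem Lph_cop {s1 s2 g s3 : ℕ} (hsq : Squarefree s2) (hg : Nat.gcd s1 s2 = g) (h3 : s2 = g * s3) :
    s1.Coprime s3 := by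
  have h1 : Nat.gcd s1 s3 ∣ s1 := Nat.gcd_dvd_left _ _
  have h2 : Nat.gcd s1 s3 ∣ s3 := Nat.gcd_dvd_right _ _
  have h4 : Nat.gcd s1 s3 ∣ g := by
    rw [← hg]
    exact Nat.dvd_gcd h1 (by rw [h3]; exact dvd_mul_of_dvd_right h2 g)
  have h5 : Nat.gcd s1 s3 * Nat.gcd s1 s3 ∣ s2 := by
    rw [h3]
    exact mul_dvd_mul h4 h2
  exact Nat.isUnit_iff.1 (hsq _ h5)

/-- **Lph**: the class ν and the phase -/
theorem tLph : LphStmt := by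
  intro a g r s1 s2 n1 n2 hG
  obtain ⟨hsq1, hsq2, hg, hn1, hn2, _, _, hrn⟩ := hG
  have hrs2 : r.Coprime s2 := (Nat.squarefree_mul_iff.1 hsq2).1
  have hss2 : Squarefree s2 := (Nat.squarefree_mul_iff.1 hsq2).2.2
  have hq1pos : 1 ≤ r * s1 := Nat.one_le_iff_ne_zero.2 hsq1.ne_zero
  have hs2pos : 1 ≤ s2 := Nat.one_le_iff_ne_zero.2 hss2.ne_zero
  have hgs2 : g ∣ s2 := by rw [← hg]; exact Nat.gcd_dvd_right _ _
  have hgs1 : g ∣ s1 := by rw [← hg]; exact Nat.gcd_dvd_left _ _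
  unfold fg
  obtain ⟨s3, hs3⟩ : ∃ s3, s3 = s2 / g := ⟨_, rfl⟩
  rw [← hs3]
  have h3 : s2 = g * s3 := by rw [hs3]; exact (Nat.mul_div_cancel' hgs2).symm
  have hs3s2 : s3 ∣ s2 := by rw [h3]; exact dvd_mul_left s3 g
  have hs3pos : 1 ≤ s3 := Nat.pos_of_dvd_of_pos hs3s2 hs2pos
  have hcop : (r * s1).Coprime s3 := Nat.Coprime.mul_left (hrs2.coprime_dvd_right hs3s2) (Lph_cop hss2 hg h3)
  have hn2s : n2.Coprime s3 := hn2.coprime_dvd_right (hs3s2.trans (dvd_mul_left s2 r))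
  obtain ⟨q, hq⟩ : ∃ q, q = r * s1 := ⟨_, rfl⟩
  have hrq' : r * g ∣ q := by
    rw [hq]
    exact mul_dvd_mul_left r hgs1
  have hrq : ((r * g : ℕ) : ℤ) ∣ (q : ℤ) := Int.natCast_dvd_natCast.2 hrq'
  obtain ⟨a1, ha1⟩ : ∃ a1 : ℤ, a1 = a r s1 := ⟨_, rfl⟩
  obtain ⟨a2, ha2⟩ : ∃ a2 : ℤ, a2 = a r s2 := ⟨_, rfl⟩
  rw [← ha1, ← ha2] at hrn ⊢
  rw [← hq] at hq1pos hcop hn1 ⊢
  obtain ⟨u1, hu1⟩ : ∃ u : ℤ, u = (iv n1 q : ℤ) := ⟨_, rfl⟩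
  obtain ⟨v1, hv1⟩ : ∃ u : ℤ, u = (iv s3 q : ℤ) := ⟨_, rfl⟩
  obtain ⟨u2, hu2⟩ : ∃ u : ℤ, u = (iv n2 s3 : ℤ) := ⟨_, rfl⟩
  obtain ⟨v2, hv2⟩ : ∃ u : ℤ, u = (iv q s3 : ℤ) := ⟨_, rfl⟩
  have F1 : (q : ℤ) ∣ u1 * n1 - 1 := by rw [hu1]; exact iv_dvd hn1 hq1pos
  have E1 : (q : ℤ) ∣ v1 * s3 - 1 := by rw [hv1]; exact iv_dvd hcop.symm hq1pos
  have F2 : (s3 : ℤ) ∣ u2 * n2 - 1 := by rw [hu2]; exact iv_dvd hn2s hs3pos
  have E2 : (s3 : ℤ) ∣ v2 * q - 1 := by rw [hv2]; exact iv_dvd hcop hs3pos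
  have M1 : (q : ℤ) ∣ (iv (n1 * s3) q : ℤ) - u1 * v1 := by
    rw [hu1, hv1]
    exact iv_mul_mul hn1 hcop.symm hq1pos
  have M2 : (s3 : ℤ) ∣ (iv (n2 * q) s3 : ℤ) - u2 * v2 := by
    rw [hu2, hv2]
    exact iv_mul_mul hn2s hcop hs3pos
  obtain ⟨ν, hν⟩ : ∃ ν : ℤ, ν = a1 * u1 * (v1 * s3) + a2 * u2 * (v2 * q) := ⟨_, rfl⟩
  have G1 : (q : ℤ) ∣ ν - a1 * u1 := by
    have e : ν - a1 * u1 = (a1 * u1) * (v1 * s3 - 1) + (q : ℤ) * (a2 * u2 * v2) := by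
      rw [hν]
      ring
    rw [e]
    exact dvd_add (dvd_mul_of_dvd_right E1 _) (dvd_mul_right _ _)
  have G2 : (s3 : ℤ) ∣ ν - a2 * u2 := by
    have e : ν - a2 * u2 = (a2 * u2) * (v2 * q - 1) + (s3 : ℤ) * (a1 * u1 * v1) := by
      rw [hν]
      ring
    rw [e]
    exact dvd_add (dvd_mul_of_dvd_right E2 _) (dvd_mul_right _ _)
  have H1 : (q : ℤ) ∣ ν * n1 - a1 := by
    have e : ν * n1 - a1 = (ν - a1 * u1) * n1 + a1 * (u1 * n1 - 1) := by ring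
    rw [e]
    exact dvd_add (dvd_mul_of_dvd_left G1 _) (dvd_mul_of_dvd_right F1 _)
  have H2 : (s3 : ℤ) ∣ ν * n2 - a2 := by
    have e : ν * n2 - a2 = (ν - a2 * u2) * n2 + a2 * (u2 * n2 - 1) := by ring
    rw [e]
    exact dvd_add (dvd_mul_of_dvd_left G2 _) (dvd_mul_of_dvd_right F2 _)
  have H3 : ((r * g : ℕ) : ℤ) ∣ ν * n2 - a2 := by
    have e : (n1 : ℤ) * (ν * n2 - a2) = n2 * (ν * n1 - a1) - ((n1 : ℤ) * a2 - n2 * a1) := by ring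
    have h : ((r * g : ℕ) : ℤ) ∣ (n1 : ℤ) * (ν * n2 - a2) := by
      rw [e]
      exact dvd_sub (dvd_mul_of_dvd_right (hrq.trans H1) _) hrn
    have c : IsCoprime ((r * g : ℕ) : ℤ) (n1 : ℤ) :=
      Nat.isCoprime_iff_coprime.2 (hn1.coprime_dvd_right hrq').symm
    exact c.dvd_of_dvd_mul_left h
  refine ⟨ν, H1, ?_, ?_⟩
  · have c : IsCoprime ((r * g : ℕ) : ℤ) (s3 : ℤ) :=
      Nat.isCoprime_iff_coprime.2 (hcop.coprime_dvd_left hrq')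
    have e : ((r * s2 : ℕ) : ℤ) = ((r * g : ℕ) : ℤ) * (s3 : ℤ) := by
      rw [h3]
      push_cast
      ring
    rw [e]
    exact c.mul_dvd H3 H2
  · intro h
    rw [en_crt hcop hq1pos hs3pos, ← hv1, ← hv2]
    have P1 : en (-(h * ν) * v1) q = en (-(h * a1 * (iv (n1 * s3) q : ℤ))) q := by
      apply en_congr
      have e : -(h * ν) * v1 - -(h * a1 * (iv (n1 * s3) q : ℤ)) =
          (-(h * v1)) * (ν - a1 * u1) + (h * a1) * ((iv (n1 * s3) q : ℤ) - u1 * v1) := by ring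
      rw [e]
      exact dvd_add (dvd_mul_of_dvd_right G1 _) (dvd_mul_of_dvd_right M1 _)
    have P2 : en (-(h * ν) * v2) s3 = en (-(h * a2 * (iv (n2 * q) s3 : ℤ))) s3 := by
      apply en_congr
      have e : -(h * ν) * v2 - -(h * a2 * (iv (n2 * q) s3 : ℤ)) =
          (-(h * v2)) * (ν - a2 * u2) + (h * a2) * ((iv (n2 * q) s3 : ℤ) - u2 * v2) := by ring
      rw [e]
      exact dvd_add (dvd_mul_of_dvd_right G2 _) (dvd_mul_of_dvd_right M2 _)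
    rw [P1, P2]

end Pool.Agent.Lib.SL
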