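import Pool.Agent.Lib.SL.DefC
import Pool.Agent.Lib.MI.T1Base

/-!
MP_00e23e_nt, project SL: the phase identity for a pair of tuples with the same key (helper12). The tuples are
(h, ρ q, g a1 v1, g a2 v2) and (h', ρ q', g a1 v1', g a2 v2'); Θ = h q' v1' v2' - h' q v1 v2.
-/

set_option autoImplicit false

namespace Pool.Agent.Lib.SL

open Finset Pool.Agent.Lib.EH3 Pool.Agent.Lib.TB Pool.Agent.Results.MP_00e23e_nt Pool.Agent.Lib.MI

/-! ### arithmetic -/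

lemma pha_sq {A B : ℕ} (hA : Squarefree A) (hB : Squarefree B) : Squarefree (Nat.lcm A B) := by
  rw [Nat.squarefree_iff_factorization_le_one (Nat.lcm_ne_zero hA.ne_zero hB.ne_zero)]
  intro p
  rw [Nat.factorization_lcm hA.ne_zero hB.ne_zero]
  simp only [Finsupp.sup_apply, sup_le_iff]
  exact ⟨(Nat.squarefree_iff_factorization_le_one hA.ne_zero).1 hA p,
    (Nat.squarefree_iff_factorization_le_one hB.ne_zero).1 hB p⟩

lemma pha_cop {Q A B : ℕ} {n : ℕ} (h1 : n.Coprime A) (h2 : n.Coprime B) (hQ : Q ∣ A * B) : n.Coprime Q :=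
  Nat.Coprime.coprime_dvd_right hQ (Nat.Coprime.mul_right h1 h2)

lemma pha_lcm_mul (A B : ℕ) : Nat.lcm A B ∣ A * B := Nat.lcm_dvd (dvd_mul_right _ _) (dvd_mul_left _ _)

/-- change of the modulus -/
lemma pha_mod {m Q n : ℕ} (A : ℤ) (hm : m ∣ Q) (hQ : 1 ≤ Q) (hn : n.Coprime Q) :
    en (A * (iv n m : ℤ)) m = en (A * ((Q / m : ℕ) : ℤ) * (iv n Q : ℤ)) Q := by
  obtain ⟨k, rfl⟩ := hm
  have hm1 : 1 ≤ m := Nat.pos_of_ne_zero (by rintro rfl; simp at hQ)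
  have hk1 : 1 ≤ k := Nat.pos_of_ne_zero (by rintro rfl; simp at hQ)
  rw [Nat.mul_div_cancel_left _ (by omega : 0 < m)]
  have h1 := en_mul_left k (A * (iv n m : ℤ)) m hk1
  rw [← h1, mul_comm k m]
  apply en_congr
  have h2 : (m : ℤ) ∣ (iv n (m * k) : ℤ) - (iv n m : ℤ) := iv_dvd_dvd hn (dvd_mul_right _ _) hQ
  obtain ⟨t, ht⟩ := h2
  refine ⟨-(A * t), ?_⟩
  have h3 : (iv n (m * k) : ℤ) = (iv n m : ℤ) + m * t := by linarith
  rw [h3]
  push_cast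
  ring

/-- equal gcds from a congruence with units -/
lemma pha_gcd {x y u w : ℤ} {F : ℕ} (hu : Int.gcd u F = 1) (hw : Int.gcd w F = 1) (h : (F : ℤ) ∣ x * u - y * w) :
    Int.gcd x F = Int.gcd y F := by
  have key : ∀ {x y u w : ℤ}, Int.gcd w F = 1 → (F : ℤ) ∣ x * u - y * w → (Int.gcd x F : ℤ) ∣ Int.gcd y F := by
    intro x y u w hw h
    refine Int.dvd_coe_gcd ?_ (Int.gcd_dvd_right _ _)
    have h1 : (Int.gcd x F : ℤ) ∣ x := Int.gcd_dvd_left _ _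
    have h2 : (Int.gcd x F : ℤ) ∣ F := Int.gcd_dvd_right _ _
    have h3 : (Int.gcd x F : ℤ) ∣ y * w := by
      have h4 := dvd_sub (dvd_mul_of_dvd_left h1 u) (h2.trans h)
      have h5 : x * u - (x * u - y * w) = y * w := by ring
      rwa [h5] at h4
    have h6 : IsCoprime (Int.gcd x F : ℤ) w := by
      have h7 : IsCoprime w (F : ℤ) := Int.isCoprime_iff_gcd_eq_one.2 hw
      exact (IsCoprime.of_isCoprime_of_dvd_right h7 h2).symm
    exact h6.dvd_of_dvd_mul_right h3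
  have h1 := key (x := x) (y := y) (u := u) (w := w) hw h
  have h2 := key (x := y) (y := x) (u := w) (w := u) hu (by
    have := dvd_neg.2 h
    have e : -(x * u - y * w) = y * w - x * u := by ring
    rwa [e] at this)
  exact Nat.dvd_antisymm (by exact_mod_cast h1) (by exact_mod_cast h2)

/-! ### the phase of one tuple -/

/-- the coefficient modulo r s1 -/
noncomputable def phK1 (A1 h : ℤ) (m g2 : ℕ) : ℤ := -(h * A1) * (iv g2 m : ℤ)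
/-- the coefficient modulo s2/g -/
noncomputable def phK2 (A2 h : ℤ) (m g2 : ℕ) : ℤ := -(h * A2) * (iv m g2 : ℤ)

lemma pha_cop2 {a : ℕ → ℕ → ℤ} {g r s1 s2 n1 n2 : ℕ} (hG : Gg a g r s1 s2 n1 n2) :
    (s2 / g).Coprime (r * s1) ∧ 1 ≤ r * s1 ∧ 1 ≤ s2 / g ∧ 1 ≤ g ∧ g ∣ s1 ∧ g ∣ s2 := by
  obtain ⟨q1, q2, hg, -, -, -, -, -⟩ := hG
  have p1 : 0 < r * s1 := Nat.pos_of_ne_zero q1.ne_zero
  have p2 : 0 < r * s2 := Nat.pos_of_ne_zero q2.ne_zero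
  have hs1 : 0 < s1 := Nat.pos_of_mul_pos_left p1 |> fun h => by
    rcases Nat.eq_zero_or_pos s1 with h0 | h0
    · rw [h0, mul_zero] at p1
      omega
    · exact h0
  have hs2 : 0 < s2 := by
    rcases Nat.eq_zero_or_pos s2 with h0 | h0
    · rw [h0, mul_zero] at p2
      omega
    · exact h0
  have hg0 : 0 < g := by
    rw [← hg]
    exact Nat.gcd_pos_of_pos_left _ hs1
  have d1 : g ∣ s1 := by
    rw [← hg]
    exact Nat.gcd_dvd_left _ _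
  have d2 : g ∣ s2 := by
    rw [← hg]
    exact Nat.gcd_dvd_right _ _
  have e2 : g * (s2 / g) = s2 := Nat.mul_div_cancel' d2
  have e1 : g * (s1 / g) = s1 := Nat.mul_div_cancel' d1
  have c1 : (s2 / g).Coprime (s1 / g) := by
    have := Nat.coprime_div_gcd_div_gcd (m := s1) (n := s2) (by rw [hg]; exact hg0)
    rw [hg] at this
    exact this.symm
  have q2' : Squarefree (r * (g * (s2 / g))) := by
    rw [e2]
    exact q2
  have c2 : (s2 / g).Coprime r := by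
    have h1 := (Nat.squarefree_mul_iff.1 q2').1
    exact (Nat.Coprime.coprime_dvd_right (dvd_mul_left _ _) h1).symm
  have c3 : (s2 / g).Coprime g := (Nat.squarefree_mul_iff.1 (Nat.squarefree_mul_iff.1 q2').2.2).1.symm
  refine ⟨?_, p1, Nat.div_pos (Nat.le_of_dvd hs2 d2) hg0, hg0, d1, d2⟩
  refine Nat.Coprime.mul_right c2 ?_
  rw [← e1]
  exact Nat.Coprime.mul_right c3 c1

lemma pha_one {a : ℕ → ℕ → ℤ} {h : ℤ} {g r s1 s2 n1 n2 : ℕ} (hG : Gg a g r s1 s2 n1 n2) :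
    fg a h g r s1 s2 n1 n2 =
      en (phK1 (a r s1) h (r * s1) (s2 / g) * (iv n1 (r * s1) : ℤ)) (r * s1) *
        en (phK2 (a r s2) h (r * s1) (s2 / g) * (iv n2 (s2 / g) : ℤ)) (s2 / g) := by
  obtain ⟨c0, p1, p2, hg0, d1, d2⟩ := pha_cop2 hG
  obtain ⟨q1, q2, hg, cn1, cn2, -, -, -⟩ := hG
  have cn2' : n2.Coprime (s2 / g) :=
    Nat.Coprime.coprime_dvd_right ((Nat.div_dvd_of_dvd d2).trans (dvd_mul_left _ _)) cn2
  unfold fg phK1 phK2
  congr 1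
  · apply en_congr
    obtain ⟨t, ht⟩ := iv_mul_mul cn1 c0 p1
    refine ⟨-(h * a r s1 * t), ?_⟩
    have e : (iv (n1 * (s2 / g)) (r * s1) : ℤ) =
        (iv n1 (r * s1) : ℤ) * (iv (s2 / g) (r * s1) : ℤ) + ((r * s1 : ℕ) : ℤ) * t := by linarith
    rw [e]
    ring
  · apply en_congr
    obtain ⟨t, ht⟩ := iv_mul_mul cn2' c0.symm p2
    refine ⟨-(h * a r s2 * t), ?_⟩
    have e : (iv (n2 * (r * s1)) (s2 / g) : ℤ) =
        (iv n2 (s2 / g) : ℤ) * (iv (r * s1) (s2 / g) : ℤ) + ((s2 / g : ℕ) : ℤ) * t := by linarith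
    rw [e]
    ring

/-- the phases of a pair, product form -/
lemma pha_split2 {Q1 Q2 B w1 w2 n1 n2 : ℕ} (C1 C2 l : ℤ) (hQ1 : Q1 = B * w1) (hQ2 : Q2 = B * w2)
    (s1 : Squarefree Q1) (s2 : Squarefree Q2) (c1 : n1.Coprime Q1) (c2 : n2.Coprime Q2)
    (hl : (B : ℤ) ∣ (n1 : ℤ) - l * n2) :
    en (C1 * (iv n1 Q1 : ℤ)) Q1 * en (C2 * (iv n2 Q2 : ℤ)) Q2 =
      en ((C1 + l * C2 * (iv w2 B : ℤ) * w1) * (iv n1 (B * w1) : ℤ)) (B * w1) *
        en (C2 * (iv B w2 : ℤ) * (iv n2 w2 : ℤ)) w2 := by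
  subst hQ1 hQ2
  have b1 := Nat.squarefree_mul_iff.1 s1
  have b2 := Nat.squarefree_mul_iff.1 s2
  have hB1 : 1 ≤ B := Nat.pos_of_ne_zero b1.2.1.ne_zero
  have hw2 : 1 ≤ w2 := Nat.pos_of_ne_zero b2.2.2.ne_zero
  have p1 : 1 ≤ B * w1 := Nat.pos_of_ne_zero s1.ne_zero
  have p2 : 1 ≤ B * w2 := Nat.pos_of_ne_zero s2.ne_zero
  have n1B : n1.Coprime B := Nat.Coprime.coprime_dvd_right (dvd_mul_right _ _) c1
  have n2B : n2.Coprime B := Nat.Coprime.coprime_dvd_right (dvd_mul_right _ _) c2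
  rw [en_crt b2.1 hB1 hw2]
  have e2 : en (C2 * (iv n2 (B * w2) : ℤ) * (iv B w2 : ℤ)) w2 = en (C2 * (iv B w2 : ℤ) * (iv n2 w2 : ℤ)) w2 := by
    apply en_congr
    obtain ⟨t, ht⟩ := iv_dvd_dvd c2 (dvd_mul_left w2 B) p2
    refine ⟨C2 * (iv B w2 : ℤ) * t, ?_⟩
    have e : (iv n2 (B * w2) : ℤ) = (iv n2 w2 : ℤ) + w2 * t := by linarith
    rw [e]
    ring
  have e3 : en (C2 * (iv n2 (B * w2) : ℤ) * (iv w2 B : ℤ)) B =
      en (l * C2 * (iv w2 B : ℤ) * w1 * (iv n1 (B * w1) : ℤ)) (B * w1) := by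
    have h0 : en (l * C2 * (iv w2 B : ℤ) * (iv n1 B : ℤ)) B =
        en (l * C2 * (iv w2 B : ℤ) * w1 * (iv n1 (B * w1) : ℤ)) (B * w1) := by
      have h1 := pha_mod (l * C2 * (iv w2 B : ℤ)) (dvd_mul_right B w1) p1 c1
      rw [Nat.mul_div_cancel_left _ (by omega : 0 < B)] at h1
      exact h1
    rw [← h0]
    apply en_congr
    obtain ⟨t2, ht2⟩ := iv_dvd_dvd c2 (dvd_mul_right B w2) p2
    have h5 : (B : ℤ) ∣ l * (iv n1 B : ℤ) - (iv n2 B : ℤ) := by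
      refine iv_unique n2B hB1 ?_
      obtain ⟨t3, ht3⟩ := hl
      obtain ⟨t4, ht4⟩ := iv_dvd n1B hB1
      refine ⟨t4 - (iv n1 B : ℤ) * t3, ?_⟩
      have e : l * (n2 : ℤ) = n1 - B * t3 := by linarith
      have e' : l * (iv n1 B : ℤ) * n2 = (iv n1 B : ℤ) * (l * n2) := by ring
      rw [e', e]
      linear_combination ht4
    obtain ⟨t5, ht5⟩ := h5
    have e5 : (iv n2 (B * w2) : ℤ) = (iv n2 B : ℤ) + B * t2 := by linarith
    have e6 : (iv n2 B : ℤ) = l * (iv n1 B : ℤ) - B * t5 := by linarith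
    refine ⟨C2 * (iv w2 B : ℤ) * (t2 - t5), ?_⟩
    rw [e5, e6]
    ring
  rw [e2, e3, add_mul, en_add]
  ring

/-- the phases of a pair -/
lemma pha_two {a : ℕ → ℕ → ℤ} {h h' : ℤ} {g r s1 s2 r' s1' s2' n1 n2 Q1 Q2 B w1 w2 : ℕ} {l : ℤ}
    (hG : Gg a g r s1 s2 n1 n2) (hG' : Gg a g r' s1' s2' n1 n2) (d1 : r * s1 ∣ Q1) (d1' : r' * s1' ∣ Q1)
    (d2 : r * s2 ∣ Q2) (d2' : r' * s2' ∣ Q2) (hQ1 : Q1 = B * w1) (hQ2 : Q2 = B * w2) (s1q : Squarefree Q1)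
    (s2q : Squarefree Q2) (c1 : n1.Coprime Q1) (c2 : n2.Coprime Q2) (hl : (B : ℤ) ∣ (n1 : ℤ) - l * n2) (C1 C2 : ℤ)
    (hC1 : C1 = phK1 (a r s1) h (r * s1) (s2 / g) * ((Q1 / (r * s1) : ℕ) : ℤ) -
      phK1 (a r' s1') h' (r' * s1') (s2' / g) * ((Q1 / (r' * s1') : ℕ) : ℤ))
    (hC2 : C2 = phK2 (a r s2) h (r * s1) (s2 / g) * ((Q2 / (s2 / g) : ℕ) : ℤ) -
      phK2 (a r' s2') h' (r' * s1') (s2' / g) * ((Q2 / (s2' / g) : ℕ) : ℤ)) :
    fg a h g r s1 s2 n1 n2 * (starRingEnd ℂ) (fg a h' g r' s1' s2' n1 n2) =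
      en ((C1 + l * C2 * (iv w2 B : ℤ) * w1) * (iv n1 (B * w1) : ℤ)) (B * w1) *
        en (C2 * (iv B w2 : ℤ) * (iv n2 w2 : ℤ)) w2 := by
  have x := pha_cop2 hG
  have x' := pha_cop2 hG'
  have p1 : 1 ≤ Q1 := Nat.pos_of_ne_zero s1q.ne_zero
  have p2 : 1 ≤ Q2 := Nat.pos_of_ne_zero s2q.ne_zero
  have e2 : s2 / g ∣ Q2 := ((Nat.div_dvd_of_dvd x.2.2.2.2.2).trans (dvd_mul_left _ _)).trans d2
  have e2' : s2' / g ∣ Q2 := ((Nat.div_dvd_of_dvd x'.2.2.2.2.2).trans (dvd_mul_left _ _)).trans d2'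
  rw [← pha_split2 C1 C2 l hQ1 hQ2 s1q s2q c1 c2 hl, pha_one hG, pha_one hG', map_mul, conj_en, conj_en,
    pha_mod _ d1 p1 c1, pha_mod _ e2 p2 c2]
  have f1 := pha_mod (n := n1) (-(phK1 (a r' s1') h' (r' * s1') (s2' / g))) d1' p1 c1
  have f2 := pha_mod (n := n2) (-(phK2 (a r' s2') h' (r' * s1') (s2' / g))) e2' p2 c2
  rw [← neg_mul, ← neg_mul, f1, f2]
  have g1 : en (C1 * (iv n1 Q1 : ℤ)) Q1 =
      en (phK1 (a r s1) h (r * s1) (s2 / g) * ((Q1 / (r * s1) : ℕ) : ℤ) * (iv n1 Q1 : ℤ)) Q1 *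
        en (-(phK1 (a r' s1') h' (r' * s1') (s2' / g)) * ((Q1 / (r' * s1') : ℕ) : ℤ) * (iv n1 Q1 : ℤ)) Q1 := by
    rw [← en_add, hC1]
    congr 1
    ring
  have g2 : en (C2 * (iv n2 Q2 : ℤ)) Q2 =
      en (phK2 (a r s2) h (r * s1) (s2 / g) * ((Q2 / (s2 / g) : ℕ) : ℤ) * (iv n2 Q2 : ℤ)) Q2 *
        en (-(phK2 (a r' s2') h' (r' * s1') (s2' / g)) * ((Q2 / (s2' / g) : ℕ) : ℤ) * (iv n2 Q2 : ℤ)) Q2 := by
    rw [← en_add, hC2]
    congr 1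
    ring
  rw [g1, g2]
  ring

/-! ### the lattice -/

lemma pha_lat1 {A1 A2 l : ℤ} {m1 m2 : ℤ} {u : ℕ} (h1 : (u : ℤ) ∣ m1 * A2 - m2 * A1) (h2 : (u : ℤ) ∣ l * m2 - m1)
    (h3 : IsCoprime (u : ℤ) A2) (h4 : IsCoprime (u : ℤ) m2) (n1 n2 : ℤ) :
    (u : ℤ) ∣ n1 * A2 - n2 * A1 ↔ (u : ℤ) ∣ n1 - l * n2 := by
  have h5 : (u : ℤ) ∣ A1 - l * A2 := by
    have h6 : (u : ℤ) ∣ m2 * (A1 - l * A2) := by
      have e : m2 * (A1 - l * A2) = -(m1 * A2 - m2 * A1) - (l * m2 - m1) * A2 := by ring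
      rw [e]
      exact dvd_sub (dvd_neg.2 h1) (dvd_mul_of_dvd_left h2 _)
    exact h4.dvd_of_dvd_mul_left h6
  have e : n1 * A2 - n2 * A1 = A2 * (n1 - l * n2) - n2 * (A1 - l * A2) := by ring
  constructor
  · intro h
    rw [e] at h
    have h6 : (u : ℤ) ∣ A2 * (n1 - l * n2) := by
      have := dvd_add h (dvd_mul_of_dvd_right h5 n2)
      rwa [sub_add_cancel] at this
    exact h3.dvd_of_dvd_mul_left h6
  · intro h
    rw [e]
    exact dvd_sub (dvd_mul_of_dvd_right h _) (dvd_mul_of_dvd_right h5 _)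

/-- the conditions of a pair of tuples -/
lemma pha_lat {a : ℕ → ℕ → ℤ} {g r s1 s2 r' s1' s2' m1 m2 B : ℕ} {l : ℤ}
    (hG : Gg a g r s1 s2 m1 m2) (hG' : Gg a g r' s1' s2' m1 m2) (hB : B = Nat.lcm (r * g) (r' * g))
    (hl : (B : ℤ) ∣ l * m2 - m1) (n1 n2 : ℕ) :
    (Gg a g r s1 s2 n1 n2 ∧ Gg a g r' s1' s2' n1 n2) ↔
      (n1.Coprime (Nat.lcm (r * s1) (r' * s1')) ∧ n2.Coprime (Nat.lcm (r * s2) (r' * s2')) ∧
        (B : ℤ) ∣ (n1 : ℤ) - l * n2) := by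
  have x := pha_cop2 hG
  have x' := pha_cop2 hG'
  have dd : ∀ {r s : ℕ}, g ∣ s → r * g ∣ r * s := fun h => Nat.mul_dvd_mul_left _ h
  have y : ∀ (n1 n2 : ℕ), (((r * g : ℕ) : ℤ) ∣ (n1 : ℤ) * a r s2 - (n2 : ℤ) * a r s1 ↔
      ((r * g : ℕ) : ℤ) ∣ (n1 : ℤ) - l * n2) := by
    intro n1 n2
    refine pha_lat1 hG.2.2.2.2.2.2.2 ((Int.natCast_dvd_natCast.2 ?_).trans hl) ?_ ?_ n1 n2
    · rw [hB]
      exact Nat.dvd_lcm_left _ _
    · have h1 := Int.isCoprime_iff_gcd_eq_one.2 hG.2.2.2.2.2.2.1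
      exact (IsCoprime.of_isCoprime_of_dvd_right h1 (Int.natCast_dvd_natCast.2 (dd x.2.2.2.2.2))).symm
    · have h1 := Nat.isCoprime_iff_coprime.2 hG.2.2.2.2.1
      exact (IsCoprime.of_isCoprime_of_dvd_right h1 (Int.natCast_dvd_natCast.2 (dd x.2.2.2.2.2))).symm
  have y' : ∀ (n1 n2 : ℕ), (((r' * g : ℕ) : ℤ) ∣ (n1 : ℤ) * a r' s2' - (n2 : ℤ) * a r' s1' ↔
      ((r' * g : ℕ) : ℤ) ∣ (n1 : ℤ) - l * n2) := by
    intro n1 n2
    refine pha_lat1 hG'.2.2.2.2.2.2.2 ((Int.natCast_dvd_natCast.2 ?_).trans hl) ?_ ?_ n1 n2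
    · rw [hB]
      exact Nat.dvd_lcm_right _ _
    · have h1 := Int.isCoprime_iff_gcd_eq_one.2 hG'.2.2.2.2.2.2.1
      exact (IsCoprime.of_isCoprime_of_dvd_right h1 (Int.natCast_dvd_natCast.2 (dd x'.2.2.2.2.2))).symm
    · have h1 := Nat.isCoprime_iff_coprime.2 hG'.2.2.2.2.1
      exact (IsCoprime.of_isCoprime_of_dvd_right h1 (Int.natCast_dvd_natCast.2 (dd x'.2.2.2.2.2))).symm
  constructor
  · rintro ⟨h, h'⟩
    refine ⟨pha_cop h.2.2.2.1 h'.2.2.2.1 (pha_lcm_mul _ _), pha_cop h.2.2.2.2.1 h'.2.2.2.2.1 (pha_lcm_mul _ _), ?_⟩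
    have e1 := (y n1 n2).1 h.2.2.2.2.2.2.2
    have e2 := (y' n1 n2).1 h'.2.2.2.2.2.2.2
    rw [hB]
    rw [Int.natCast_dvd] at e1 e2 ⊢
    exact Nat.lcm_dvd e1 e2
  · rintro ⟨h1, h2, h3⟩
    refine ⟨⟨hG.1, hG.2.1, hG.2.2.1, Nat.Coprime.coprime_dvd_right (Nat.dvd_lcm_left _ _) h1,
      Nat.Coprime.coprime_dvd_right (Nat.dvd_lcm_left _ _) h2, hG.2.2.2.2.2.1, hG.2.2.2.2.2.2.1, ?_⟩,
      ⟨hG'.1, hG'.2.1, hG'.2.2.1, Nat.Coprime.coprime_dvd_right (Nat.dvd_lcm_right _ _) h1,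
      Nat.Coprime.coprime_dvd_right (Nat.dvd_lcm_right _ _) h2, hG'.2.2.2.2.2.1, hG'.2.2.2.2.2.2.1, ?_⟩⟩
    · refine (y n1 n2).2 ((Int.natCast_dvd_natCast.2 ?_).trans h3)
      rw [hB]
      exact Nat.dvd_lcm_left _ _
    · refine (y' n1 n2).2 ((Int.natCast_dvd_natCast.2 ?_).trans h3)
      rw [hB]
      exact Nat.dvd_lcm_right _ _

/-! ### the gcd -/

/-- the coefficient modulo B w1 at the divisors of ρ -/
lemma pha_th {A1 A1' A2 A2' h h' l C1 C2 : ℤ} {g ρ q q' G1 G1' G2 G2' Q1 Q2 B w1 w2 F : ℕ}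
    (sq1 : Squarefree (ρ * q * (g * G1))) (sq1' : Squarefree (ρ * q' * (g * G1')))
    (cc : G2.Coprime (ρ * q * (g * G1))) (cc' : G2'.Coprime (ρ * q' * (g * G1')))
    (d1 : ρ * q * (g * G1) ∣ Q1) (d1' : ρ * q' * (g * G1') ∣ Q1)
    (d2 : ρ * q * (g * G2) ∣ Q2) (d2' : ρ * q' * (g * G2') ∣ Q2)
    (s1q : Squarefree Q1) (hA1 : Int.gcd A1 ((ρ * q * (g * G1) : ℕ) : ℤ) = 1) (hk1 : (ρ : ℤ) ∣ A1 - A1')
    (hC1 : C1 = phK1 A1 h (ρ * q * (g * G1)) G2 * ((Q1 / (ρ * q * (g * G1)) : ℕ) : ℤ) -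
      phK1 A1' h' (ρ * q' * (g * G1')) G2' * ((Q1 / (ρ * q' * (g * G1')) : ℕ) : ℤ))
    (hC2 : C2 = phK2 A2 h (ρ * q * (g * G1)) G2 * ((Q2 / G2 : ℕ) : ℤ) -
      phK2 A2' h' (ρ * q' * (g * G1')) G2' * ((Q2 / G2' : ℕ) : ℤ)) (hF : F ∣ ρ) :
    Int.gcd (C1 + l * C2 * (iv w2 B : ℤ) * w1) F =
      Int.gcd (h * ((q' * G1' * G2' : ℕ) : ℤ) - h' * ((q * G1 * G2 : ℕ) : ℤ)) F := by
  set m := ρ * q * (g * G1) with hm
  set m' := ρ * q' * (g * G1') with hm'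
  set X := q * (g * G1) with hX
  set X' := q' * (g * G1') with hX'
  have em : m = ρ * X := by rw [hm, hX]; ring
  have em' : m' = ρ * X' := by rw [hm', hX']; ring
  have p1 : 0 < Q1 := Nat.pos_of_ne_zero s1q.ne_zero
  have hρ1 : ρ ∣ Q1 := (Dvd.intro X em.symm).trans d1
  have hρ0 : 0 < ρ := Nat.pos_of_dvd_of_pos hρ1 p1
  set Z := Q1 / ρ with hZ
  have eZ : ρ * Z = Q1 := Nat.mul_div_cancel' hρ1
  have hm1 : 1 ≤ m := Nat.pos_of_ne_zero sq1.ne_zero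
  have hm1' : 1 ≤ m' := Nat.pos_of_ne_zero sq1'.ne_zero
  -- the units
  have uX : X.Coprime ρ := (Nat.squarefree_mul_iff.1 (em ▸ sq1 : Squarefree (ρ * X))).1.symm
  have uX' : X'.Coprime ρ := (Nat.squarefree_mul_iff.1 (em' ▸ sq1' : Squarefree (ρ * X'))).1.symm
  have uG : G2.Coprime ρ := Nat.Coprime.coprime_dvd_right (Dvd.intro X em.symm) cc
  have uG' : G2'.Coprime ρ := Nat.Coprime.coprime_dvd_right (Dvd.intro X' em'.symm) cc'
  have uZ : Z.Coprime ρ := (Nat.squarefree_mul_iff.1 (eZ.symm ▸ s1q : Squarefree (ρ * Z))).1.symm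
  have ug : g.Coprime ρ := Nat.Coprime.coprime_dvd_left (by rw [hX]; exact ⟨q * G1, by ring⟩) uX
  have uA : Int.gcd A1 (ρ : ℤ) = 1 := by
    have h1 := Int.isCoprime_iff_gcd_eq_one.2 hA1
    exact Int.isCoprime_iff_gcd_eq_one.1
      (IsCoprime.of_isCoprime_of_dvd_right h1 (Int.natCast_dvd_natCast.2 (Dvd.intro X em.symm)))
  have toF : ∀ {x : ℤ}, IsCoprime x (ρ : ℤ) → Int.gcd x F = 1 := fun hx =>
    Int.isCoprime_iff_gcd_eq_one.1 (IsCoprime.of_isCoprime_of_dvd_right hx (Int.natCast_dvd_natCast.2 hF))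
  have nc : ∀ {x : ℕ}, x.Coprime ρ → IsCoprime (x : ℤ) (ρ : ℤ) := fun hx => Nat.isCoprime_iff_coprime.2 hx
  refine pha_gcd (u := (X : ℤ) * X' * G2 * G2') (w := -(Z * A1 * g)) ?_ ?_ ?_
  · apply toF
    exact ((((nc uX).mul_left (nc uX')).mul_left (nc uG)).mul_left (nc uG'))
  · apply toF
    exact (((nc uZ).mul_left (Int.isCoprime_iff_gcd_eq_one.2 uA)).mul_left (nc ug)).neg_left
  · refine (Int.natCast_dvd_natCast.2 hF).trans ?_
    have k2 : (ρ : ℤ) ∣ C2 := by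
      have t : ∀ {G M : ℕ}, ρ * G ∣ M → M ∣ Q2 → (ρ : ℤ) ∣ ((Q2 / G : ℕ) : ℤ) := by
        intro G M h1 h2
        apply Int.natCast_dvd_natCast.2
        exact Nat.dvd_div_of_mul_dvd (by
          rw [mul_comm G ρ]
          exact h1.trans h2)
      rw [hC2]
      exact dvd_sub (dvd_mul_of_dvd_right (t ⟨q * g, by ring⟩ d2) _)
        (dvd_mul_of_dvd_right (t ⟨q' * g, by ring⟩ d2') _)
    have k3 : (ρ : ℤ) ∣ phK1 A1 h m G2 * G2 + h * A1 := by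
      have h1 : (ρ : ℤ) ∣ (iv G2 m : ℤ) * G2 - 1 :=
        (Int.natCast_dvd_natCast.2 (Dvd.intro X em.symm)).trans (iv_dvd cc hm1)
      obtain ⟨t, ht⟩ := h1
      refine ⟨-(h * A1) * t, ?_⟩
      unfold phK1
      linear_combination (-(h * A1)) * ht
    have k4 : (ρ : ℤ) ∣ phK1 A1' h' m' G2' * G2' + h' * A1 := by
      have h1 : (ρ : ℤ) ∣ (iv G2' m' : ℤ) * G2' - 1 :=
        (Int.natCast_dvd_natCast.2 (Dvd.intro X' em'.symm)).trans (iv_dvd cc' hm1')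
      obtain ⟨t, ht⟩ := h1
      obtain ⟨t', ht'⟩ := hk1
      refine ⟨-(h' * A1') * t + h' * t', ?_⟩
      unfold phK1
      linear_combination (-(h' * A1')) * ht + h' * ht'
    have k5 : ((Q1 / m : ℕ) : ℤ) * X = Z := by
      have h1 : m * (Q1 / m) = Q1 := Nat.mul_div_cancel' d1
      have h2 : ρ * (Q1 / m * X) = ρ * Z := by
        rw [eZ, ← h1, em]
        have : 0 < ρ * X := by rw [← em]; exact hm1
        rw [Nat.mul_div_cancel_left _ this]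
        ring
      have h3 := Nat.eq_of_mul_eq_mul_left hρ0 h2
      exact_mod_cast h3
    have k6 : ((Q1 / m' : ℕ) : ℤ) * X' = Z := by
      have h1 : m' * (Q1 / m') = Q1 := Nat.mul_div_cancel' d1'
      have h2 : ρ * (Q1 / m' * X') = ρ * Z := by
        rw [eZ, ← h1, em']
        have : 0 < ρ * X' := by rw [← em']; exact hm1'
        rw [Nat.mul_div_cancel_left _ this]
        ring
      have h3 := Nat.eq_of_mul_eq_mul_left hρ0 h2
      exact_mod_cast h3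
    have k7 : (X' : ℤ) * G2' = g * ((q' * G1' * G2' : ℕ) : ℤ) := by
      rw [hX']
      push_cast
      ring
    have k8 : (X : ℤ) * G2 = g * ((q * G1 * G2 : ℕ) : ℤ) := by
      rw [hX]
      push_cast
      ring
    obtain ⟨t2, e2⟩ := k2
    obtain ⟨t3, e3⟩ := k3
    obtain ⟨t4, e4⟩ := k4
    set K := phK1 A1 h m G2 with hK
    set K' := phK1 A1' h' m' G2' with hK'
    set U := ((Q1 / m : ℕ) : ℤ) with hU
    set U' := ((Q1 / m' : ℕ) : ℤ) with hU'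
    set Y := ((q' * G1' * G2' : ℕ) : ℤ) with hY
    set Y' := ((q * G1 * G2 : ℕ) : ℤ) with hY'
    clear_value K K' U U' Y Y' Z X X'
    refine ⟨l * t2 * (iv w2 B : ℤ) * (w1 * (X * X' * G2 * G2')) +
      (Z : ℤ) * X' * G2' * t3 - (Z : ℤ) * X * G2 * t4, ?_⟩
    rw [hC1]
    linear_combination (l * (iv w2 B : ℤ) * (w1 * (X * X' * G2 * G2'))) * e2 +
      (Z : ℤ) * X' * G2' * e3 - (Z : ℤ) * X * G2 * e4 + K * X' * G2 * G2' * k5 - K' * X * G2 * G2' * k6 -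
      (Z : ℤ) * h * A1 * k7 + (Z : ℤ) * h' * A1 * k8

/-! ### the pair -/

lemma pha_w {ρ g q q' G G' w : ℕ}
    (h : ρ * (g * Nat.lcm q q') * w = Nat.lcm (ρ * q * (g * G)) (ρ * q' * (g * G')))
    (hp : 0 < ρ * (g * Nat.lcm q q')) : w ∣ Nat.lcm G G' := by
  have h1 : Nat.lcm (ρ * q * (g * G)) (ρ * q' * (g * G')) ∣ ρ * (g * Nat.lcm q q') * Nat.lcm G G' := by
    refine Nat.lcm_dvd ?_ ?_
    · obtain ⟨t, ht⟩ := Nat.dvd_lcm_left q q'
      obtain ⟨u, hu⟩ := Nat.dvd_lcm_left G G'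
      exact ⟨t * u, by rw [ht, hu]; ring⟩
    · obtain ⟨t, ht⟩ := Nat.dvd_lcm_right q q'
      obtain ⟨u, hu⟩ := Nat.dvd_lcm_right G G'
      exact ⟨t * u, by rw [ht, hu]; ring⟩
  rw [← h] at h1
  exact Nat.dvd_of_mul_dvd_mul_left hp h1

lemma pha_core {a : ℕ → ℕ → ℤ} {h h' : ℤ} {g ρ q q' G1 G1' G2 G2' r s1 s2 r' s1' s2' m1 m2 : ℕ}
    (er : r = ρ * q) (er' : r' = ρ * q') (es1 : s1 = g * G1) (es1' : s1' = g * G1')
    (es2 : s2 = g * G2) (es2' : s2' = g * G2') (hG : Gg a g r s1 s2 m1 m2)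
    (hG' : Gg a g r' s1' s2' m1 m2) (hk1 : (ρ : ℤ) ∣ a r s1 - a r' s1') :
    ∃ (B w1 w2 : ℕ) (l c1 c2 : ℤ), B = ρ * (g * Nat.lcm q q') ∧
      B * w1 = Nat.lcm (r * s1) (r' * s1') ∧ B * w2 = Nat.lcm (r * s2) (r' * s2') ∧ Squarefree (B * w1) ∧
      Squarefree (B * w2) ∧ Int.gcd l B = 1 ∧ 1 ≤ w1 ∧ 1 ≤ w2 ∧ w1 ∣ Nat.lcm G1 G1' ∧ w2 ∣ Nat.lcm G2 G2' ∧
      (∀ F : ℕ, F ∣ ρ → Int.gcd c1 F =
        Int.gcd (h * ((q' * G1' * G2' : ℕ) : ℤ) - h' * ((q * G1 * G2 : ℕ) : ℤ)) F) ∧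
      ∀ n1 n2 : ℕ, Fp a g h r s1 s2 n1 n2 * (starRingEnd ℂ) (Fp a g h' r' s1' s2' n1 n2) =
        if (B : ℤ) ∣ (n1 : ℤ) - l * n2 then t1g c1 (B * w1) n1 * t1g c2 w2 n2 else 0 := by
  subst er er' es1 es1' es2 es2'
  have x := pha_cop2 hG
  have x' := pha_cop2 hG'
  have hg0 : 0 < g := x.2.2.2.1
  have eG : g * G2 / g = G2 := Nat.mul_div_cancel_left _ hg0
  have eG' : g * G2' / g = G2' := Nat.mul_div_cancel_left _ hg0
  set Q1 := Nat.lcm (ρ * q * (g * G1)) (ρ * q' * (g * G1')) with hQ1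
  set Q2 := Nat.lcm (ρ * q * (g * G2)) (ρ * q' * (g * G2')) with hQ2
  have s1q : Squarefree Q1 := pha_sq hG.1 hG'.1
  have s2q : Squarefree Q2 := pha_sq hG.2.1 hG'.2.1
  have d1 : ρ * q * (g * G1) ∣ Q1 := Nat.dvd_lcm_left _ _
  have d1' : ρ * q' * (g * G1') ∣ Q1 := Nat.dvd_lcm_right _ _
  have d2 : ρ * q * (g * G2) ∣ Q2 := Nat.dvd_lcm_left _ _
  have d2' : ρ * q' * (g * G2') ∣ Q2 := Nat.dvd_lcm_right _ _
  set B := ρ * (g * Nat.lcm q q') with hBd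
  have hBl : B = Nat.lcm (ρ * q * g) (ρ * q' * g) := by
    have e1 : ρ * q * g = ρ * g * q := by ring
    have e2 : ρ * q' * g = ρ * g * q' := by ring
    rw [e1, e2, Nat.lcm_mul_left, hBd]
    ring
  have hB1 : B ∣ Q1 := by
    rw [hBl]
    exact Nat.lcm_dvd (Dvd.dvd.trans ⟨G1, by ring⟩ d1) (Dvd.dvd.trans ⟨G1', by ring⟩ d1')
  have hB2 : B ∣ Q2 := by
    rw [hBl]
    exact Nat.lcm_dvd (Dvd.dvd.trans ⟨G2, by ring⟩ d2) (Dvd.dvd.trans ⟨G2', by ring⟩ d2')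
  obtain ⟨w1, hw1⟩ := hB1
  obtain ⟨w2, hw2⟩ := hB2
  have sB1 : Squarefree (B * w1) := hw1 ▸ s1q
  have sB2 : Squarefree (B * w2) := hw2 ▸ s2q
  have pB : 0 < B := Nat.pos_of_ne_zero (Nat.squarefree_mul_iff.1 sB1).2.1.ne_zero
  have pw1 : 1 ≤ w1 := Nat.pos_of_ne_zero (Nat.squarefree_mul_iff.1 sB1).2.2.ne_zero
  have pw2 : 1 ≤ w2 := Nat.pos_of_ne_zero (Nat.squarefree_mul_iff.1 sB2).2.2.ne_zero
  -- coprimality of m1, m2
  have m1B : m1.Coprime B := by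
    have h1 : m1.Coprime Q1 := pha_cop hG.2.2.2.1 hG'.2.2.2.1 (pha_lcm_mul _ _)
    exact Nat.Coprime.coprime_dvd_right ⟨w1, hw1⟩ h1
  have m2B : m2.Coprime B := by
    have h1 : m2.Coprime Q2 := pha_cop hG.2.2.2.2.1 hG'.2.2.2.2.1 (pha_lcm_mul _ _)
    exact Nat.Coprime.coprime_dvd_right ⟨w2, hw2⟩ h1
  set l : ℤ := (m1 : ℤ) * (iv m2 B : ℤ) with hld
  have hl : (B : ℤ) ∣ l * m2 - m1 := by
    obtain ⟨t, ht⟩ := iv_dvd m2B pB
    refine ⟨m1 * t, ?_⟩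
    rw [hld]
    linear_combination (m1 : ℤ) * ht
  have hlg : Int.gcd l B = 1 := by
    have h1 : Int.gcd (m1 : ℤ) (B : ℤ) = 1 := by
      rw [Int.gcd_natCast_natCast]
      exact m1B
    have h2 : Int.gcd (m2 : ℤ) (B : ℤ) = 1 := by
      rw [Int.gcd_natCast_natCast]
      exact m2B
    rw [pha_gcd (y := (m1 : ℤ)) (u := (m2 : ℤ)) (w := 1) h2 (by simp) (by simpa using hl)]
    exact h1
  set C1 : ℤ := phK1 (a (ρ * q) (g * G1)) h (ρ * q * (g * G1)) G2 * ((Q1 / (ρ * q * (g * G1)) : ℕ) : ℤ) -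
      phK1 (a (ρ * q') (g * G1')) h' (ρ * q' * (g * G1')) G2' * ((Q1 / (ρ * q' * (g * G1')) : ℕ) : ℤ) with hC1
  set C2 : ℤ := phK2 (a (ρ * q) (g * G2)) h (ρ * q * (g * G1)) G2 * ((Q2 / G2 : ℕ) : ℤ) -
      phK2 (a (ρ * q') (g * G2')) h' (ρ * q' * (g * G1')) G2' * ((Q2 / G2' : ℕ) : ℤ) with hC2
  refine ⟨B, w1, w2, l, C1 + l * C2 * (iv w2 B : ℤ) * w1, C2 * (iv B w2 : ℤ), rfl,
    hw1.symm, hw2.symm, sB1, sB2, hlg, pw1, pw2, pha_w hw1.symm pB, pha_w hw2.symm pB, ?_, ?_⟩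
  · intro F hF
    refine pha_th hG.1 hG'.1 ?_ ?_ d1 d1' d2 d2' s1q hG.2.2.2.2.2.1 hk1 hC1 hC2 hF
    · have := x.1
      rwa [eG] at this
    · have := x'.1
      rwa [eG'] at this
  · intro n1 n2
    have hiff := pha_lat hG hG' hBl hl n1 n2
    rw [← hQ1, ← hQ2, hw1, hw2] at hiff
    by_cases hc : n1.Coprime (B * w1) ∧ n2.Coprime (B * w2) ∧ (B : ℤ) ∣ (n1 : ℤ) - l * n2
    · rw [if_pos hc.2.2]
      obtain ⟨gg, gg'⟩ := hiff.2 hc
      unfold Fp t1g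
      rw [if_pos gg, if_pos gg', if_pos hc.1,
        if_pos (Nat.Coprime.coprime_dvd_right (dvd_mul_left _ _) hc.2.1)]
      refine pha_two gg gg' d1 d1' d2 d2' hw1 hw2 s1q s2q ?_ ?_ hc.2.2 C1 C2 ?_ ?_
      · rw [hw1]
        exact hc.1
      · rw [hw2]
        exact hc.2.1
      · rw [eG, eG']
      · rw [eG, eG']
    · have h0 : Fp a g h (ρ * q) (g * G1) (g * G2) n1 n2 *
          (starRingEnd ℂ) (Fp a g h' (ρ * q') (g * G1') (g * G2') n1 n2) = 0 := by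
        unfold Fp
        by_cases gg : Gg a g (ρ * q) (g * G1) (g * G2) n1 n2
        · by_cases gg' : Gg a g (ρ * q') (g * G1') (g * G2') n1 n2
          · exact absurd (hiff.1 ⟨gg, gg'⟩) hc
          · rw [if_neg gg', map_zero, mul_zero]
        · rw [if_neg gg, zero_mul]
      rw [h0]
      by_cases h1 : (B : ℤ) ∣ (n1 : ℤ) - l * n2
      · rw [if_pos h1]
        unfold t1g
        by_cases h2 : n1.Coprime (B * w1)
        · by_cases h3 : n2.Coprime w2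
          · exfalso
            apply hc
            refine ⟨h2, ?_, h1⟩
            refine Nat.Coprime.mul_right ?_ h3
            have h4 : IsCoprime (n1 : ℤ) (B : ℤ) :=
              Nat.isCoprime_iff_coprime.2 (Nat.Coprime.coprime_dvd_right (dvd_mul_right _ _) h2)
            obtain ⟨t, ht⟩ := h1
            have h5 : IsCoprime (l * (n2 : ℤ)) (B : ℤ) := by
              have e : l * (n2 : ℤ) = (n1 : ℤ) + (B : ℤ) * (-t) := by linarith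
              rw [e]
              exact h4.add_mul_left_left (-t)
            exact Nat.isCoprime_iff_coprime.1 (IsCoprime.of_mul_left_right h5)
          · rw [if_neg h3, mul_zero]
        · rw [if_neg h2, zero_mul]
      · rw [if_neg h1]

/-! ### the sizes and the statement -/

lemma pha_sz {g w G G' s s' v v' S V : ℕ} (hw : w ∣ Nat.lcm G G') (es : s = g * G) (es' : s' = g * G')
    (hv : v ∣ s) (hv' : v' ∣ s') (k : s / v = s' / v') (h1 : s ≤ 2 * S) (h2 : v' ≤ 2 * V) (hs : 0 < s)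
    (hs' : 0 < s') : g * w ≤ 4 * S * V := by
  have hv0 : 0 < v' := Nat.pos_of_dvd_of_pos hv' hs'
  have e : s / v * v = s := Nat.div_mul_cancel hv
  have e' : s / v * v' = s' := by
    rw [k]
    exact Nat.div_mul_cancel hv'
  have d : g * w ∣ s * v' := by
    refine (Nat.mul_dvd_mul_left g hw).trans ?_
    rw [← Nat.lcm_mul_left, ← es, ← es']
    refine Nat.lcm_dvd (dvd_mul_right _ _) ⟨v, ?_⟩
    calc s * v' = (s / v * v) * v' := by rw [e]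
      _ = (s / v * v') * v := by ring
      _ = s' * v := by rw [e']
  calc g * w ≤ s * v' := Nat.le_of_dvd (Nat.mul_pos hs hv0) d
    _ ≤ (2 * S) * (2 * V) := Nat.mul_le_mul h1 h2
    _ = 4 * S * V := by ring

theorem tPh : PhStmt := by
  intro a b1 b2 rho v g R0 V R S N h h' r s1 s2 r' s1' s2' hg hR0 hV hS hS' hK
  by_cases H : ∀ n1 n2 : ℕ, Fp a g h r s1 s2 n1 n2 * (starRingEnd ℂ) (Fp a g h' r' s1' s2' n1 n2) = 0
  · exact Or.inl H
  · right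
    simp only [not_forall] at H
    obtain ⟨m1, m2, hne⟩ := H
    have hG : Gg a g r s1 s2 m1 m2 := by
      by_contra hc
      exact hne (by unfold Fp; rw [if_neg hc, zero_mul])
    have hG' : Gg a g r' s1' s2' m1 m2 := by
      by_contra hc
      exact hne (by unfold Fp; rw [if_neg hc, map_zero, mul_zero])
    obtain ⟨⟨r1, r2⟩, ⟨s11, s12⟩, ⟨s21, s22⟩, ⟨ρ1, ρ2, ρ3⟩, ⟨u1, u2, u3⟩, ⟨z1, z2, z3⟩, y1, y2, -⟩ := hS
    obtain ⟨⟨r1', r2'⟩, ⟨s11', s12'⟩, ⟨s21', s22'⟩, ⟨ρ1', ρ2', ρ3'⟩, ⟨u1', u2', u3'⟩, ⟨z1', z2', z3'⟩, y1', y2',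
      -⟩ := hS'
    simp only [Ky, Prod.mk.injEq] at hK
    obtain ⟨k1, k2, k3⟩ := hK
    have x := pha_cop2 hG
    have x' := pha_cop2 hG'
    have er : r = rho r * (r / rho r) := (Nat.mul_div_cancel' ρ1).symm
    have er' : r' = rho r * (r' / rho r') := by
      rw [k1]
      exact (Nat.mul_div_cancel' ρ1').symm
    have es1 : s1 = g * (s1 / g) := (Nat.mul_div_cancel' x.2.2.2.2.1).symm
    have es2 : s2 = g * (s2 / g) := (Nat.mul_div_cancel' x.2.2.2.2.2).symm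
    have es1' : s1' = g * (s1' / g) := (Nat.mul_div_cancel' x'.2.2.2.2.1).symm
    have es2' : s2' = g * (s2' / g) := (Nat.mul_div_cancel' x'.2.2.2.2.2).symm
    have hk1 : (rho r : ℤ) ∣ a r s1 - a r' s1' := by
      have e1 : (rho r : ℤ) ∣ a r' s1' - b1 (rho r) (s1 / v r s1) := by
        rw [k1, k2]
        exact y1'
      have e2 := dvd_sub y1 e1
      have e3 : a r s1 - b1 (rho r) (s1 / v r s1) - (a r' s1' - b1 (rho r) (s1 / v r s1)) = a r s1 - a r' s1' := by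
        ring
      rwa [e3] at e2
    obtain ⟨B, w1, w2, l, c1, c2, f1, f2, f3, f4, f5, f6, f7, f8, f9, f10, f11, f12⟩ :=
      pha_core (h := h) (h' := h') er er' es1 es1' es2 es2' hG hG' hk1
    have q0 : 0 < r / rho r := by
      rcases Nat.eq_zero_or_pos (r / rho r) with h0 | h0
      · rw [h0, mul_zero] at er
        omega
      · exact h0
    have q0' : 0 < r' / rho r' := by
      rcases Nat.eq_zero_or_pos (r' / rho r') with h0 | h0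
      · rw [h0, mul_zero] at er'
        omega
      · exact h0
    refine ⟨B, w1, w2, l, c1, c2, f1, f2, f3, f4, f5, f6, f7, f8, ?_, ?_, ?_, ?_, ?_, fun n1 n2 _ _ => f12 n1 n2⟩
    · exact pha_sz f9 es1 es1' u1 u1' k2 s12 u3' (by omega) (by omega)
    · exact pha_sz f10 es2 es2' z1 z1' k3 s22 z3' (by omega) (by omega)
    · -- R g < B
      have h1 : r / rho r ≤ Nat.lcm (r / rho r) (r' / rho r') :=
        Nat.le_of_dvd (Nat.lcm_pos q0 q0') (Nat.dvd_lcm_left _ _)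
      calc R * g < r * g := Nat.mul_lt_mul_of_pos_right r1 hg
        _ = rho r * (g * (r / rho r)) := by
          conv_lhs => rw [er]
          ring
        _ ≤ rho r * (g * Nat.lcm (r / rho r) (r' / rho r')) :=
          Nat.mul_le_mul_left _ (Nat.mul_le_mul_left _ h1)
        _ = B := f1.symm
    · have h1 : Nat.lcm (r / rho r) (r' / rho r') ≤ (r / rho r) * (r' / rho r') :=
        Nat.le_of_dvd (Nat.mul_pos q0 q0') (pha_lcm_mul _ _)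
      calc B * R0 ≤ B * rho r := Nat.mul_le_mul_left _ ρ2.le
        _ = rho r * (g * Nat.lcm (r / rho r) (r' / rho r')) * rho r := by rw [f1]
        _ ≤ rho r * (g * ((r / rho r) * (r' / rho r'))) * rho r :=
          Nat.mul_le_mul_right _ (Nat.mul_le_mul_left _ (Nat.mul_le_mul_left _ h1))
        _ = (rho r * (r / rho r)) * (rho r * (r' / rho r')) * g := by ring
        _ = r * r' * g := by rw [← er, ← er']
        _ ≤ (2 * R) * (2 * R) * g := Nat.mul_le_mul_right _ (Nat.mul_le_mul r2 r2')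
        _ = 4 * R ^ 2 * g := by ring
    · intro F hF
      rw [f11 F hF]
      have c1 : s1.Coprime r := (Nat.squarefree_mul_iff.1 hG.1).1.symm
      have c2 : s2.Coprime r := (Nat.squarefree_mul_iff.1 hG.2.1).1.symm
      have hFr : F ∣ r := hF.trans ρ1
      have toF : ∀ {x s : ℕ}, x ∣ s → s.Coprime r → IsCoprime (x : ℤ) (F : ℤ) := fun hx hs =>
        Nat.isCoprime_iff_coprime.2 (Nat.Coprime.coprime_dvd_left hx (Nat.Coprime.coprime_dvd_right hFr hs))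
      have cg := toF x.2.2.2.2.1 c1
      have cu1 := toF (Nat.div_dvd_of_dvd u1) c1
      have cu2 := toF (Nat.div_dvd_of_dvd z1) c2
      refine pha_gcd (u := (g : ℤ) * g) (w := ((s1 / v r s1 : ℕ) : ℤ) * ((s2 / v r s2 : ℕ) : ℤ))
        (Int.isCoprime_iff_gcd_eq_one.1 (cg.mul_left cg)) (Int.isCoprime_iff_gcd_eq_one.1 (cu1.mul_left cu2)) ?_
      have a1 : (g : ℤ) * ((s1 / g : ℕ) : ℤ) = ((s1 / v r s1 : ℕ) : ℤ) * (v r s1 : ℤ) := by
        rw [← Nat.cast_mul, ← Nat.cast_mul, Nat.mul_div_cancel' x.2.2.2.2.1, Nat.div_mul_cancel u1]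
      have a2 : (g : ℤ) * ((s2 / g : ℕ) : ℤ) = ((s2 / v r s2 : ℕ) : ℤ) * (v r s2 : ℤ) := by
        rw [← Nat.cast_mul, ← Nat.cast_mul, Nat.mul_div_cancel' x.2.2.2.2.2, Nat.div_mul_cancel z1]
      have a1' : (g : ℤ) * ((s1' / g : ℕ) : ℤ) = ((s1 / v r s1 : ℕ) : ℤ) * (v r' s1' : ℤ) := by
        rw [k2, ← Nat.cast_mul, ← Nat.cast_mul, Nat.mul_div_cancel' x'.2.2.2.2.1, Nat.div_mul_cancel u1']
      have a2' : (g : ℤ) * ((s2' / g : ℕ) : ℤ) = ((s2 / v r s2 : ℕ) : ℤ) * (v r' s2' : ℤ) := by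
        rw [k3, ← Nat.cast_mul, ← Nat.cast_mul, Nat.mul_div_cancel' x'.2.2.2.2.2, Nat.div_mul_cancel z1']
      refine ⟨0, ?_⟩
      unfold Th
      rw [Nat.cast_mul, Nat.cast_mul, Nat.cast_mul, Nat.cast_mul, Nat.cast_mul, Nat.cast_mul, Nat.cast_mul, Nat.cast_mul]
      generalize ((s1 / g : ℕ) : ℤ) = G1 at *
      generalize ((s2 / g : ℕ) : ℤ) = G2 at *
      generalize ((s1' / g : ℕ) : ℤ) = G1' at *
      generalize ((s2' / g : ℕ) : ℤ) = G2' at *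
      generalize ((s1 / v r s1 : ℕ) : ℤ) = U1 at *
      generalize ((s2 / v r s2 : ℕ) : ℤ) = U2 at *
      generalize ((r / rho r : ℕ) : ℤ) = q at *
      generalize ((r' / rho r' : ℕ) : ℤ) = q' at *
      linear_combination (h * q' * g * G2') * a1' + (h * q' * U1 * (v r' s1' : ℤ)) * a2' -
        (h' * q * g * G2) * a1 - (h' * q * U1 * (v r s1 : ℤ)) * a2

end Pool.Agent.Lib.SL
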