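import Pool.Agent.Lib.SL.Pha

/-!
MP_00e23e_nt, project SL: the factor of w1, w2 of PhStmt which comes from the common outer part u of s = u v, s' = u v' (helper12),
for module Ttw: w = (u / gcd(u, g)) lcm(x, x'), x = v / gcd(v, g).
-/

set_option autoImplicit false

namespace Pool.Agent.Lib.SL

/-- g = gcd(u, g) gcd(v, g) for g ∣ u v -/
lemma phw_split {g u v : ℕ} (hg : g ∣ u * v) (hq : Squarefree (u * v)) : Nat.gcd u g * Nat.gcd v g = g := by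
  have h1 : Nat.Coprime u v := (Nat.squarefree_mul_iff.1 hq).1
  have h2 : Nat.gcd g (u * v) = Nat.gcd g u * Nat.gcd g v := Nat.Coprime.gcd_mul g h1
  rw [Nat.gcd_eq_left hg] at h2
  rw [Nat.gcd_comm u g, Nat.gcd_comm v g]
  exact h2.symm

lemma phw_gcd {g u v v' : ℕ} (hg0 : 0 < g) (hg : g ∣ u * v) (hg' : g ∣ u * v') (hq : Squarefree (u * v))
    (hq' : Squarefree (u * v')) : Nat.gcd v g = Nat.gcd v' g := by
  have h1 := phw_split hg hq
  have h2 := phw_split hg' hq'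
  have h3 : 0 < Nat.gcd u g := Nat.gcd_pos_of_pos_right _ hg0
  exact Nat.eq_of_mul_eq_mul_left h3 (h1.trans h2.symm)

/-- w = (u / gcd(u, g)) lcm(v / gcd(v, g), v' / gcd(v', g)) -/
lemma phw_lcm {g u v v' w : ℕ} (hg0 : 0 < g) (hw : g * w = Nat.lcm (u * v) (u * v')) (hg : g ∣ u * v)
    (hg' : g ∣ u * v') (hq : Squarefree (u * v)) (hq' : Squarefree (u * v')) :
    w = (u / Nat.gcd u g) * Nat.lcm (v / Nat.gcd v g) (v' / Nat.gcd v' g) := by
  have h1 := phw_split hg hq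
  have h2 := phw_gcd hg0 hg hg' hq hq'
  have e1 : Nat.gcd u g * (u / Nat.gcd u g) = u := Nat.mul_div_cancel' (Nat.gcd_dvd_left _ _)
  have e2 : Nat.gcd v g * (v / Nat.gcd v g) = v := Nat.mul_div_cancel' (Nat.gcd_dvd_left _ _)
  have e3 : Nat.gcd v g * (v' / Nat.gcd v' g) = v' := by
    rw [h2]
    exact Nat.mul_div_cancel' (Nat.gcd_dvd_left _ _)
  apply Nat.eq_of_mul_eq_mul_left hg0
  rw [hw, Nat.lcm_mul_left]
  calc u * Nat.lcm v v' = (Nat.gcd u g * (u / Nat.gcd u g)) *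
        Nat.lcm (Nat.gcd v g * (v / Nat.gcd v g)) (Nat.gcd v g * (v' / Nat.gcd v' g)) := by rw [e1, e2, e3]
    _ = (Nat.gcd u g * Nat.gcd v g) * ((u / Nat.gcd u g) * Nat.lcm (v / Nat.gcd v g) (v' / Nat.gcd v' g)) := by
        rw [Nat.lcm_mul_left]
        ring
    _ = g * ((u / Nat.gcd u g) * Nat.lcm (v / Nat.gcd v g) (v' / Nat.gcd v' g)) := by rw [h1]

/-- gcd(v, g)^2 lcm(x, x') ≤ 4 V^2 -/
lemma phw_le {g u v v' V : ℕ} (hg0 : 0 < g) (hg : g ∣ u * v) (hg' : g ∣ u * v') (hq : Squarefree (u * v))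
    (hq' : Squarefree (u * v')) (h1 : v ≤ 2 * V) (h2 : v' ≤ 2 * V) :
    Nat.gcd v g ^ 2 * Nat.lcm (v / Nat.gcd v g) (v' / Nat.gcd v' g) ≤ 4 * V ^ 2 := by
  have h3 := phw_gcd hg0 hg hg' hq hq'
  have e2 : Nat.gcd v g * (v / Nat.gcd v g) = v := Nat.mul_div_cancel' (Nat.gcd_dvd_left _ _)
  have e3 : Nat.gcd v g * (v' / Nat.gcd v' g) = v' := by
    rw [h3]
    exact Nat.mul_div_cancel' (Nat.gcd_dvd_left _ _)
  have e4 : Nat.lcm (v / Nat.gcd v g) (v' / Nat.gcd v' g) ≤ (v / Nat.gcd v g) * (v' / Nat.gcd v' g) := by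
    rcases Nat.eq_zero_or_pos ((v / Nat.gcd v g) * (v' / Nat.gcd v' g)) with h | h
    · rcases Nat.mul_eq_zero.1 h with h' | h' <;> simp [h']
    · exact Nat.le_of_dvd h (pha_lcm_mul _ _)
  calc Nat.gcd v g ^ 2 * Nat.lcm (v / Nat.gcd v g) (v' / Nat.gcd v' g)
      ≤ Nat.gcd v g ^ 2 * ((v / Nat.gcd v g) * (v' / Nat.gcd v' g)) := Nat.mul_le_mul_left _ e4
    _ = (Nat.gcd v g * (v / Nat.gcd v g)) * (Nat.gcd v g * (v' / Nat.gcd v' g)) := by ring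
    _ = v * v' := by rw [e2, e3]
    _ ≤ (2 * V) * (2 * V) := Nat.mul_le_mul h1 h2
    _ = 4 * V ^ 2 := by ring

/-- f / gcd(f, g) divides u / gcd(u, g) for f ∣ u, u squarefree -/
lemma phw_dvd {f g u : ℕ} (hf : f ∣ u) (hq : Squarefree u) : f / Nat.gcd f g ∣ u / Nat.gcd u g := by
  obtain ⟨k, rfl⟩ := hf
  have hc : Nat.Coprime f k := (Nat.squarefree_mul_iff.1 hq).1
  have h1 : Nat.gcd (f * k) g = Nat.gcd f g * Nat.gcd k g := by
    rw [Nat.gcd_comm, Nat.gcd_comm f g, Nat.gcd_comm k g]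
    exact Nat.Coprime.gcd_mul g hc
  rw [h1, Nat.mul_div_mul_comm (Nat.gcd_dvd_left _ _) (Nat.gcd_dvd_left _ _)]
  exact dvd_mul_right _ _

/-- the lattice modulus of the case ρ r = r: g w = lcm(s, s') -/
lemma phw_mul {r g w s s' B : ℕ} (hr : 0 < r) (hB : B = r * (g * Nat.lcm (r / r) (r / r)))
    (hw : B * w = Nat.lcm (r * s) (r * s')) : B = r * g ∧ g * w = Nat.lcm s s' := by
  rw [Nat.div_self hr, Nat.lcm_self, mul_one] at hB
  refine ⟨hB, ?_⟩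
  rw [hB, Nat.lcm_mul_left, mul_assoc] at hw
  exact Nat.eq_of_mul_eq_mul_left hr hw

end Pool.Agent.Lib.SL
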