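import Pool.Agent.Lib.SL.DefC
import Pool.Agent.Lib.MI.SpecT1

/-!
MP_00e23e_nt, project SL, chapter C part 1 (helper3): the second Cauchy inequality. Final statement SecStmt (SL/DefC.lean).
The index is p = (h, r, s1, s2) : ℤ × ℕ × ℕ × ℕ; q = r/ρ r, u_i = s_i/v r s_i; outer variables: the key Ky = (ρ, u1, u2) and (n1, n2);
inner variables (q, v1, v2, h).

RULES. Module X: file Pool/Agent/Lib/SL/X.lean, first line `import Pool.Agent.Lib.SL.SpecC`, then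
`namespace Pool.Agent.Lib.SL` and `open Finset Pool.Agent.Lib.EH3 Pool.Agent.Lib.TB Pool.Agent.Results.MP_00e23e_nt Pool.Agent.Lib.MI`
(the names of SL win over those of MI), private lemmas with names starting with X_, final theorem
`theorem tX (h1 : AStmt) ... : XStmt`; the statements listed under Uses are hypotheses of your theorem, in this order. The
docstring contains a complete proof. Never use congr!. Every module below 60 s. The constants are generous.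
-/

namespace Pool.Agent.Lib.SL

open Finset Pool.Agent.Lib.EH3 Pool.Agent.Lib.TB Pool.Agent.Results.MP_00e23e_nt Pool.Agent.Lib.MI

/-- the box of the inner variables x = (q, v1, v2, h) with m1 ∣ v1, m2 ∣ v2 -/
def QQ (R R0 V : ℕ) (Hs : Finset ℤ) (m1 m2 : ℕ) : Finset (ℕ × ℕ × ℕ × ℤ) :=
  Icc 1 (2 * R / R0) ×ˢ ((Ioc V (2 * V)).filter (fun v => m1 ∣ v) ×ˢ ((Ioc V (2 * V)).filter (fun v => m2 ∣ v) ×ˢ Hs))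

/-- Theta for the inner variables x, x' -/
def Tx (x x' : ℕ × ℕ × ℕ × ℤ) : ℤ :=
  x.2.2.2 * ((x'.1 * x'.2.1 * x'.2.2.1 : ℕ) : ℤ) - x'.2.2.2 * ((x.1 * x.2.1 * x.2.2.1 : ℕ) : ℤ)

/-- the inner variables of p = (h, r, s1, s2) -/
def Ix (ρ : ℕ → ℕ) (v : ℕ → ℕ → ℕ) (p : ℤ × ℕ × ℕ × ℕ) : ℕ × ℕ × ℕ × ℤ :=
  (p.2.1 / ρ p.2.1, v p.2.1 p.2.2.1, v p.2.1 p.2.2.2, p.1)

/-- the key of p = (h, r, s1, s2) -/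
def Kp (ρ : ℕ → ℕ) (v : ℕ → ℕ → ℕ) (p : ℤ × ℕ × ℕ × ℕ) : ℕ × ℕ × ℕ := Ky ρ v p.2.1 p.2.2.1 p.2.2.2

open Classical in
/-- Module Ccs (theorem tCcs; Cauchy's inequality with outer variables (key, n)). Uses: nothing.
Proof. Let K = I.image key, Z(k,n) = ∑_{p ∈ I, key p = k} γ p F p n. The sum is ∑_{k ∈ K} ∑_{n ∈ J} ω n Z(k,n), and Z(k,n) = 0 if (k,n) ∉ O. So by Cauchy its square is ≤ card O · ∑_{k ∈ K} ∑_{n ∈ J} ‖Z(k,n)‖^2 (‖ω‖ ≤ 1; the nonzero terms have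
(k,n) ∈ O). ∑_{n ∈ J} ‖Z(k,n)‖^2 = ∑_{p, p' ∈ I, key p = key p' = k} γ p conj (γ p') ∑_{n ∈ J} F p n conj (F p' n) (as complex numbers), so it is ≤ ∑_{p,p'} ‖∑_n F p n conj (F p' n)‖; sum over k ∈ K. -/
def CcsStmt : Prop := ∀ (I : Finset (ℤ × ℕ × ℕ × ℕ)) (J : Finset (ℕ × ℕ))
    (O : Finset ((ℕ × ℕ × ℕ) × (ℕ × ℕ))) (key : ℤ × ℕ × ℕ × ℕ → ℕ × ℕ × ℕ)
    (γ : ℤ × ℕ × ℕ × ℕ → ℂ) (ω : ℕ × ℕ → ℂ) (F : ℤ × ℕ × ℕ × ℕ → ℕ × ℕ → ℂ),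
  (∀ p ∈ I, ∀ n ∈ J, F p n ≠ 0 → (key p, n) ∈ O) → (∀ p, ‖γ p‖ ≤ 1) → (∀ n, ‖ω n‖ ≤ 1) →
  ‖∑ p ∈ I, γ p * ∑ n ∈ J, ω n * F p n‖ ^ 2 ≤
    (O.card : ℝ) * ∑ p ∈ I, ∑ p' ∈ I, (if key p = key p' then
      ‖∑ n ∈ J, F p n * (starRingEnd ℂ) (F p' n)‖ else 0)

open Classical in
/-- Module Cou (theorem tCou; the number of outer variables in one class (g1, g2)). Uses: nothing.
Proof. If 2N ≤ R0 take O = ∅ (Su gives R0 < ρ r ≤ r ≤ 2R ≤ 2N). Otherwise O = the set of all ((ϱ, u1, u2), (n1, n2)) with ϱ ∈ Ioc R0 2R0, u_i ∈ Icc 1 (2S/V) (natural division) with g_i ∣ u_i, n1, n2 ∈ Ioc N 2N, Int.gcd (b1 ϱ u1) ϱ = 1 and ϱ ∣ n1 b2 ϱ u2 - n2 b1 ϱ u1. Count: for fixed ϱ, u_i, n1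
the n2 form at most one class modulo ϱ: ≤ N/ϱ + 1 ≤ 3N/R0 (R0 < 2N). Total ≤ R0 (2S/(V g1)) (2S/(V g2)) N 3N/R0 = 12 S^2 N^2/(V^2 g1 g2). Membership: u_i = s_i/v_i satisfies u_i v_i = s_i, so u_i ≥ 1 and u_i V ≤ s_i ≤ 2S. ϱ = ρ r ∣ r divides n1 a2 - n2 a1 (Gg: r g does), a1 ≡ b1 ϱ u1,
a2 ≡ b2 ϱ u2 mod ϱ; a1 is coprime to r s1, so to ϱ. -/
def CouStmt : Prop := ∀ (a b1 b2 : ℕ → ℕ → ℤ) (ρ : ℕ → ℕ) (v : ℕ → ℕ → ℕ) (g R S N R0 V g1 g2 : ℕ),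
  1 ≤ N → 1 ≤ R0 → 1 ≤ V → R ≤ N → 1 ≤ g1 → 1 ≤ g2 →
  ∃ O : Finset ((ℕ × ℕ × ℕ) × (ℕ × ℕ)),
    (O.card : ℝ) ≤ 12 * ((S : ℝ) ^ 2 * (N : ℝ) ^ 2) / ((V : ℝ) ^ 2 * g1 * g2) ∧
    ∀ r s1 s2 n1 n2 : ℕ, Su a b1 b2 ρ v g R0 V R S N r s1 s2 → g1 ∣ s1 / v r s1 → g2 ∣ s2 / v r s2 →
      n1 ∈ Ioc N (2 * N) → n2 ∈ Ioc N (2 * N) →
      Gg a g r s1 s2 n1 n2 → (Ky ρ v r s1 s2, (n1, n2)) ∈ O

open Classical in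
/-- Module Cnu (theorem tCnu; the number of (n1, n2) for one index). Uses: nothing.
Proof. ‖Fp‖ ≤ 1 (fg is a product of two numbers of norm 1, norm_en), and Fp = 0 unless Gg holds; so the norm is ≤ the number of (n1,n2) with Gg. g ≥ 2: they are in La a1 a2 (r g) N (last condition of Gg), and ND: r g card ≤ 36 N^2, r > R. g = 1: for each n1 the n2 with r ∣ n1 a2 - n2 a1 form at most
one class modulo r (a1 is coprime to r s1): ≤ N/r + 1 ≤ 2N/R; total ≤ 2N^2/R. -/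
def CnuStmt : Prop := ∀ (a b1 b2 : ℕ → ℕ → ℤ) (ρ : ℕ → ℕ) (v : ℕ → ℕ → ℕ) (g R0 V R S N : ℕ) (h h' : ℤ)
    (r s1 s2 r' s1' s2' : ℕ), 1 ≤ g → 1 ≤ R → R ≤ N → Su a b1 b2 ρ v g R0 V R S N r s1 s2 →
  ‖∑ n1 ∈ Ioc N (2 * N), ∑ n2 ∈ Ioc N (2 * N),
      Fp a g h r s1 s2 n1 n2 * (starRingEnd ℂ) (Fp a g h' r' s1' s2' n1 n2)‖ ≤
    36 * (N : ℝ) ^ 2 / ((R : ℝ) * g)

/-- the indices of the class (g1, g2): gcd(s1,s2) = g, support condition, gcd(g, u_i) = g_i for u_i = s_i/v r s_i -/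
def Ig (a b1 b2 : ℕ → ℕ → ℤ) (ρ : ℕ → ℕ) (v : ℕ → ℕ → ℕ) (g R0 V R S N g1 g2 : ℕ) (Hs : Finset ℤ)
    (I : Finset (ℤ × ℕ × ℕ × ℕ)) : Prop :=
  ∀ p ∈ I, p.1 ∈ Hs ∧ Nat.gcd p.2.2.1 p.2.2.2 = g ∧ Su a b1 b2 ρ v g R0 V R S N p.2.1 p.2.2.1 p.2.2.2 ∧
    Nat.gcd g (p.2.2.1 / v p.2.1 p.2.2.1) = g1 ∧ Nat.gcd g (p.2.2.2 / v p.2.1 p.2.2.2) = g2

open Classical in
/-- Module Cpr (theorem tCpr; parametrization of the pairs with the same key). Uses: nothing.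
Proof. For p = (h, r, s1, s2) ∈ I put ϱ = ρ r, q = r/ϱ, v_i = v r s_i, u_i = s_i/v_i. Then r = ϱ q, s_i = u_i v_i, so p is determined by (ϱ, u1, u2) and Ix p = (q, v1, v2, h). 1 ≤ q, q R0 ≤ q ϱ = r ≤ 2R, so q ∈ Icc 1 (2R/R0) (natural division); u_i V ≤ s_i ≤ 2S, u_i ≥ 1. g_i = gcd(g, u_i) divides u_i and
g/g_i ∣ v_i (g ∣ s_i = u_i v_i, so g/g_i divides (u_i/g_i) v_i and it is coprime to u_i/g_i: Nat.coprime_div_gcd_div_gcd). So (p, p') ↦ (u1, u2, ϱ, Ix p, Ix p') is injective on the pairs with Kp p = Kp p' and goes into the set of all tuples with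
u_i ∈ Icc 1 (2S/V), g_i ∣ u_i, ϱ ∈ Ioc R0 2R0, Ix p, Ix p' ∈ QQ R R0 V Hs (g/g1) (g/g2): the sum is ≤ the sum of G (≥ 0) over them. The number of u ∈ Icc 1 (2S/V) with g_i ∣ u is ≤ 2S/(V g_i) (real division). (I empty: 0 ≤ right side.) -/
def CprStmt : Prop := ∀ (a b1 b2 : ℕ → ℕ → ℤ) (ρ : ℕ → ℕ) (v : ℕ → ℕ → ℕ) (g R0 V R S N g1 g2 : ℕ) (Hs : Finset ℤ)
    (I : Finset (ℤ × ℕ × ℕ × ℕ)) (G : ℕ → ℕ × ℕ × ℕ × ℤ → ℕ × ℕ × ℕ × ℤ → ℝ), 1 ≤ g → 1 ≤ R0 → 1 ≤ V →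
  (∀ ϱ x x', 0 ≤ G ϱ x x') → Ig a b1 b2 ρ v g R0 V R S N g1 g2 Hs I →
  ∑ p ∈ I, ∑ p' ∈ I, (if Kp ρ v p = Kp ρ v p' then G (ρ p.2.1) (Ix ρ v p) (Ix ρ v p') else 0) ≤
    (2 * (S : ℝ) / (V * g1)) * (2 * (S : ℝ) / (V * g2)) *
      ∑ ϱ ∈ Ioc R0 (2 * R0), ∑ x ∈ QQ R R0 V Hs (g / g1) (g / g2), ∑ x' ∈ QQ R R0 V Hs (g / g1) (g / g2), G ϱ x x'

open Classical in
/-- Module Cdc (theorem tCdc; the pairs with Theta = 0). Uses: nothing.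
Proof. x = (q, v1, v2, h), A = q v1 v2, A' = q' v1' v2', 1 ≤ A, A' ≤ (2R/R0)(2V)^2 = 8 R V^2/R0, m1 m2 ∣ A, A'. Tx x x' = 0 means h A' = h' A =: Z, an integer ≠ 0 with |Z| ≤ Zm = 8 H R V^2/R0 ≤ X, m1 m2 ∣ Z. For given Z: A' ∣ Z (at most τ(|Z|) ≤ T values, h is then determined), A ∣ Z (T values, h' is
determined); for given A: q ∣ A, v1 ∣ A (at most T^2 triples, A ≤ |Z| ≤ X), the same for A'. The number of Z is ≤ 2 Zm/(m1 m2). Total ≤ 2 Zm T^2 T^4/(m1 m2) = 16 T^6 H R V^2/(R0 m1 m2). -/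
def CdcStmt : Prop := ∀ (X T : ℝ) (R R0 V H m1 m2 : ℕ) (Hs : Finset ℤ), Tau X T → 1 ≤ R0 → 1 ≤ V → 1 ≤ m1 → 1 ≤ m2 →
  (∀ h ∈ Hs, h ≠ 0 ∧ |h| ≤ (H : ℤ)) → 16 * ((H : ℝ) * R * (V : ℝ) ^ 2) ≤ X →
  ∑ x ∈ QQ R R0 V Hs m1 m2, ∑ x' ∈ QQ R R0 V Hs m1 m2, (if Tx x x' = 0 then (1 : ℝ) else 0) ≤
    16 * T ^ 6 * ((H : ℝ) * R * (V : ℝ) ^ 2 / (R0 * m1 * m2))

open Classical in
/-- Module Cgv (theorem tCgv; the average of gcd(Theta, ϱ)). Uses: MI.T1GsaStmt.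
Proof. For fixed x, x' ∈ QQ with Θ = Tx x x' ≠ 0: |Θ| ≤ 2 H 8 R V^2/R0 ≤ X, so ∑_{ϱ ∈ Ioc R0 2R0} gcd(Θ, ϱ) ≤ 2 R0 τ(|Θ|) ≤ 2 R0 T (T1Gsa, first part, R := R0). card QQ ≤ (2R/R0) (2V/m1) (2V/m2) (2H) (multiples of m in Ioc V 2V: at most 2V/m; Hs ⊆ [-H, H] without 0). Total ≤ 2 R0 T (16 R H V^2/(R0 m1 m2))^2. -/
def CgvStmt : Prop := ∀ (X T : ℝ) (R R0 V H m1 m2 : ℕ) (Hs : Finset ℤ), Tau X T → 1 ≤ R0 → 1 ≤ V → 1 ≤ m1 → 1 ≤ m2 →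
  (∀ h ∈ Hs, h ≠ 0 ∧ |h| ≤ (H : ℤ)) → 16 * ((H : ℝ) * R * (V : ℝ) ^ 2) ≤ X →
  ∑ ϱ ∈ Ioc R0 (2 * R0), ∑ x ∈ QQ R R0 V Hs m1 m2, ∑ x' ∈ QQ R R0 V Hs m1 m2,
    (if Tx x x' ≠ 0 then (Int.gcd (Tx x x') ϱ : ℝ) else 0) ≤
    512 * T * (((R : ℝ) * H * (V : ℝ) ^ 2 / (m1 * m2)) ^ 2 / R0)

open Classical in
/-- Module Cp0 (theorem tCp0; the diagonal with the same key). Uses: CnuStmt, CprStmt, CdcStmt.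
Proof. I empty: 0. Otherwise g_i ∣ g, g ≥ 1, so g_i ≥ 1 and m_i = g/g_i ≥ 1; V < v r s1 ≤ s1 ≤ 2S, so 16 H R V^2 ≤ 64 H R S^2 ≤ X. A summand is ≤ 36 N^2/(R g) if Tx (Ix p) (Ix p') = 0 (Cnu), 0 otherwise. Cpr with G ϱ x x' = 36 N^2/(R g) [Tx x x' = 0], Cdc, 1/(m1 m2) = g1 g2/g^2:
≤ (4 S^2/(V^2 g1 g2)) R0 (36 N^2/(R g)) 16 T^6 H R V^2 g1 g2/(R0 g^2) = 2304 T^6 S^2 N^2 H/g^3. -/
def Cp0Stmt : Prop := ∀ (X T : ℝ) (a b1 b2 : ℕ → ℕ → ℤ) (ρ : ℕ → ℕ) (v : ℕ → ℕ → ℕ) (g R0 V R S N H g1 g2 : ℕ)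
    (Hs : Finset ℤ) (I : Finset (ℤ × ℕ × ℕ × ℕ)), Tau X T → 1 ≤ g → 1 ≤ R → 1 ≤ S → 1 ≤ N → 1 ≤ H → 1 ≤ R0 → 1 ≤ V →
  R ≤ N → 64 * ((H : ℝ) * R * (S : ℝ) ^ 2) ≤ X → (∀ h ∈ Hs, h ≠ 0 ∧ |h| ≤ (H : ℤ)) →
  Ig a b1 b2 ρ v g R0 V R S N g1 g2 Hs I →
  ∑ p ∈ I, ∑ p' ∈ I, (if Kp ρ v p = Kp ρ v p' ∧ Tx (Ix ρ v p) (Ix ρ v p') = 0 then
    ‖∑ n ∈ (Ioc N (2 * N)) ×ˢ (Ioc N (2 * N)), Fp a g p.1 p.2.1 p.2.2.1 p.2.2.2 n.1 n.2 *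
      (starRingEnd ℂ) (Fp a g p'.1 p'.2.1 p'.2.2.1 p'.2.2.2 n.1 n.2)‖ else 0) ≤
    2304 * T ^ 6 * ((S : ℝ) ^ 2 * (N : ℝ) ^ 2 * H / (g : ℝ) ^ 3)

open Classical in
/-- Module Cp1 (theorem tCp1; the pairs with the same key and Theta ≠ 0). Uses: CprStmt, CgvStmt.
Proof. As Cp0: Cpr with G ϱ x x' = D gcd(Tx x x', ϱ) [Tx x x' ≠ 0] and Cgv with m_i = g/g_i: ≤ (4 S^2/(V^2 g1 g2)) D 512 T (R H V^2 g1 g2/g^2)^2/R0 = 2048 T D S^2 R^2 H^2 V^2 g1 g2/(R0 g^4). -/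
def Cp1Stmt : Prop := ∀ (X T D : ℝ) (a b1 b2 : ℕ → ℕ → ℤ) (ρ : ℕ → ℕ) (v : ℕ → ℕ → ℕ) (g R0 V R S N H g1 g2 : ℕ)
    (Hs : Finset ℤ) (I : Finset (ℤ × ℕ × ℕ × ℕ)), Tau X T → 0 ≤ D → 1 ≤ g → 1 ≤ R → 1 ≤ S → 1 ≤ N → 1 ≤ H → 1 ≤ R0 →
  1 ≤ V → 64 * ((H : ℝ) * R * (S : ℝ) ^ 2) ≤ X → (∀ h ∈ Hs, h ≠ 0 ∧ |h| ≤ (H : ℤ)) →
  Ig a b1 b2 ρ v g R0 V R S N g1 g2 Hs I →
  ∑ p ∈ I, ∑ p' ∈ I, (if Kp ρ v p = Kp ρ v p' ∧ Tx (Ix ρ v p) (Ix ρ v p') ≠ 0 then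
    D * (Int.gcd (Tx (Ix ρ v p) (Ix ρ v p')) (ρ p.2.1) : ℝ) else 0) ≤
    2048 * T * (D * ((S : ℝ) ^ 2 * (R : ℝ) ^ 2 * (H : ℝ) ^ 2 * (V : ℝ) ^ 2 * g1 * g2 / (R0 * (g : ℝ) ^ 4)))

/-- Module Cse (theorem tCse). FINAL STATEMENT SecStmt (SL/DefC.lean). Uses: CcsStmt, CouStmt, Cp0Stmt, Cp1Stmt.
Proof. I = the set of p = (h, r, s1, s2) ∈ Hs × Ioc R 2R × Ioc S 2S × Ioc S 2S with γ ≠ 0 and gcd(s1,s2) = g; J = Ioc N 2N × Ioc N 2N; F p n = Fp a g h r s1 s2 n.1 n.2. ∑_h TG a g h R S N (γ h) ω = ∑_{p ∈ I} γ p ∑_{n ∈ J} ω n F p n (the other terms vanish: Gg contains gcd(s1,s2) = g).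
Split I into the classes I(g1,g2), g1, g2 ∈ g.divisors, g_i = gcd(g, s_i/v r s_i): τ(g)^2 ≤ T^2 classes (I empty: 0 = 0; otherwise g ≤ s1 ≤ 2S ≤ X), so the square is ≤ T^2 ∑_{g1,g2} ‖sum over I(g1,g2)‖^2. For one class: O from Cou (F p n ≠ 0 implies Gg; g_i ∣ u_i). Ccs: the square is
≤ card O (Σ0 + Σ1), Σ0 the pairs with the same key and Tx = 0 (Th = Tx (Ix p) (Ix p') and Ky = Kp by definition), Σ1 those with Tx ≠ 0. Σ0 ≤ 2304 T^6 S^2 N^2 H/g^3 (Cp0), Σ1 ≤ 2048 T D S^2 R^2 H^2 V^2 g1 g2/(R0 g^4) (hypothesis and Cp1). Times card O ≤ 12 S^2 N^2/(V^2 g1 g2) (g1 g2 ≥ 1 in the first term):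
≤ 27648 T^6 (S^2 N^2)^2 (H/(V^2 g^3) + (H^2/g^4) R^2 D/(R0 N^2)). Sum over the classes: T^2 T^2. C = 27648, A = 10 (T ≥ 1). 64 H R S^2 ≤ 100 R^2 S^4 N^2 H^2 ≤ X. -/
def CseStmt : Prop := SecStmt

end Pool.Agent.Lib.SL
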