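import Pool.Agent.Lib.SL.DefK
import Pool.Agent.Lib.SL.SpecC

/-!
MP_00e23e_nt, project SL, phase 2 (helper3): the modules CouK, Cp0K, Cp1K, CseK of chapter C with colours.
-/

namespace Pool.Agent.Lib.SL

open Finset Pool.Agent.Lib.EH3 Pool.Agent.Lib.TB Pool.Agent.Results.MP_00e23e_nt Pool.Agent.Lib.MI

/-- the encoded key of p = (h, r, s1, s2) -/
def KpK (ρ : ℕ → ℕ) (v col : ℕ → ℕ → ℕ) (K : ℕ) (p : ℤ × ℕ × ℕ × ℕ) : ℕ × ℕ × ℕ :=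
  Ke ρ v col K p.2.1 p.2.2.1 p.2.2.2

open Classical in
/-- Module CouK: the number of outer variables. Uses: CouStmt. -/
def CouKStmt : Prop := ∀ (a : ℕ → ℕ → ℤ) (b : ℕ → ℕ → ℕ → ℤ) (ρ : ℕ → ℕ) (v col : ℕ → ℕ → ℕ)
    (K g R S N R0 V g1 g2 : ℕ), 1 ≤ N → 1 ≤ R0 → 1 ≤ V → R ≤ N → 1 ≤ g1 → 1 ≤ g2 →
  ∃ O : Finset ((ℕ × ℕ × ℕ) × (ℕ × ℕ)),
    (O.card : ℝ) ≤ (K : ℝ) ^ 2 * (12 * ((S : ℝ) ^ 2 * (N : ℝ) ^ 2) / ((V : ℝ) ^ 2 * g1 * g2)) ∧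
    ∀ r s1 s2 n1 n2 : ℕ, SuK a b ρ v col K g R0 V R S N r s1 s2 → g1 ∣ s1 / v r s1 → g2 ∣ s2 / v r s2 →
      n1 ∈ Ioc N (2 * N) → n2 ∈ Ioc N (2 * N) →
      Gg a g r s1 s2 n1 n2 → (Ke ρ v col K r s1 s2, (n1, n2)) ∈ O

/-- the indices of the class (g1, g2) -/
def IgK (a : ℕ → ℕ → ℤ) (b : ℕ → ℕ → ℕ → ℤ) (ρ : ℕ → ℕ) (v col : ℕ → ℕ → ℕ) (K g R0 V R S N g1 g2 : ℕ)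
    (Hs : Finset ℤ) (I : Finset (ℤ × ℕ × ℕ × ℕ)) : Prop :=
  ∀ p ∈ I, p.1 ∈ Hs ∧ Nat.gcd p.2.2.1 p.2.2.2 = g ∧ SuK a b ρ v col K g R0 V R S N p.2.1 p.2.2.1 p.2.2.2 ∧
    Nat.gcd g (p.2.2.1 / v p.2.1 p.2.2.1) = g1 ∧ Nat.gcd g (p.2.2.2 / v p.2.1 p.2.2.2) = g2

/-- the lock does not enter in the parametrization of the pairs -/
theorem IgK_Ig {a : ℕ → ℕ → ℤ} {b : ℕ → ℕ → ℕ → ℤ} {ρ : ℕ → ℕ} {v col : ℕ → ℕ → ℕ} {K g R0 V R S N g1 g2 : ℕ}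
    {Hs : Finset ℤ} {I : Finset (ℤ × ℕ × ℕ × ℕ)} (h : IgK a b ρ v col K g R0 V R S N g1 g2 Hs I) :
    Ig (fun _ _ => 0) (fun _ _ => 0) (fun _ _ => 0) ρ v g R0 V R S 0 g1 g2 Hs I := by
  intro p hp
  obtain ⟨h1, h2, ⟨k1, k2, k3, k4, k5, k6, k7, k8, k9⟩, h4, h5⟩ := h p hp
  refine ⟨h1, h2, ⟨k1, k2, k3, k4, k5, k6, by simp, by simp, ?_⟩, h4, h5⟩
  intro _
  simp [ND, La]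

/-- equal encoded keys give equal keys -/
theorem KpK_Kp {a : ℕ → ℕ → ℤ} {b : ℕ → ℕ → ℕ → ℤ} {ρ : ℕ → ℕ} {v col : ℕ → ℕ → ℕ} {K g R0 V R S N g1 g2 : ℕ}
    {Hs : Finset ℤ} {I : Finset (ℤ × ℕ × ℕ × ℕ)} (h : IgK a b ρ v col K g R0 V R S N g1 g2 Hs I)
    {p p' : ℤ × ℕ × ℕ × ℕ} (hp : p ∈ I) (hp' : p' ∈ I) (hk : KpK ρ v col K p = KpK ρ v col K p') :
    Kp ρ v p = Kp ρ v p' ∧ KyK ρ v col p.2.1 p.2.2.1 p.2.2.2 = KyK ρ v col p'.2.1 p'.2.2.1 p'.2.2.2 := by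
  obtain ⟨-, -, ⟨-, -, -, -, -, -, ⟨k7, -⟩, ⟨k8, -⟩, -⟩, -, -⟩ := h p hp
  obtain ⟨-, -, ⟨-, -, -, -, -, -, ⟨k7', -⟩, ⟨k8', -⟩, -⟩, -, -⟩ := h p' hp'
  have e := Ke_inj k7 k8 k7' k8' hk
  refine ⟨?_, e⟩
  simp only [KyK, Prod.mk.injEq] at e
  obtain ⟨e1, e2, -, e4, -⟩ := e
  simp only [Kp, Ky, e1, e2, e4]

open Classical in
/-- Module Cp0K. Uses: CnuStmt, CprStmt, CdcStmt. -/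
def Cp0KStmt : Prop := ∀ (X T : ℝ) (a : ℕ → ℕ → ℤ) (b : ℕ → ℕ → ℕ → ℤ) (ρ : ℕ → ℕ) (v col : ℕ → ℕ → ℕ)
    (K g R0 V R S N H g1 g2 : ℕ)
    (Hs : Finset ℤ) (I : Finset (ℤ × ℕ × ℕ × ℕ)), Tau X T → 1 ≤ g → 1 ≤ R → 1 ≤ S → 1 ≤ N → 1 ≤ H → 1 ≤ R0 → 1 ≤ V →
  R ≤ N → 64 * ((H : ℝ) * R * (S : ℝ) ^ 2) ≤ X → (∀ h ∈ Hs, h ≠ 0 ∧ |h| ≤ (H : ℤ)) →
  IgK a b ρ v col K g R0 V R S N g1 g2 Hs I →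
  ∑ p ∈ I, ∑ p' ∈ I, (if KpK ρ v col K p = KpK ρ v col K p' ∧ Tx (Ix ρ v p) (Ix ρ v p') = 0 then
    ‖∑ n ∈ (Ioc N (2 * N)) ×ˢ (Ioc N (2 * N)), Fp a g p.1 p.2.1 p.2.2.1 p.2.2.2 n.1 n.2 *
      (starRingEnd ℂ) (Fp a g p'.1 p'.2.1 p'.2.2.1 p'.2.2.2 n.1 n.2)‖ else 0) ≤
    2304 * T ^ 6 * ((S : ℝ) ^ 2 * (N : ℝ) ^ 2 * H / (g : ℝ) ^ 3)

open Classical in
/-- Module Cp1K. Uses: CprStmt, CgvStmt. -/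
def Cp1KStmt : Prop := ∀ (X T D : ℝ) (a : ℕ → ℕ → ℤ) (b : ℕ → ℕ → ℕ → ℤ) (ρ : ℕ → ℕ) (v col : ℕ → ℕ → ℕ)
    (K g R0 V R S N H g1 g2 : ℕ)
    (Hs : Finset ℤ) (I : Finset (ℤ × ℕ × ℕ × ℕ)), Tau X T → 0 ≤ D → 1 ≤ g → 1 ≤ R → 1 ≤ S → 1 ≤ N → 1 ≤ H → 1 ≤ R0 →
  1 ≤ V → 64 * ((H : ℝ) * R * (S : ℝ) ^ 2) ≤ X → (∀ h ∈ Hs, h ≠ 0 ∧ |h| ≤ (H : ℤ)) →
  IgK a b ρ v col K g R0 V R S N g1 g2 Hs I →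
  ∑ p ∈ I, ∑ p' ∈ I, (if KpK ρ v col K p = KpK ρ v col K p' ∧ Tx (Ix ρ v p) (Ix ρ v p') ≠ 0 then
    D * (Int.gcd (Tx (Ix ρ v p) (Ix ρ v p')) (ρ p.2.1) : ℝ) else 0) ≤
    2048 * T * (D * ((S : ℝ) ^ 2 * (R : ℝ) ^ 2 * (H : ℝ) ^ 2 * (V : ℝ) ^ 2 * g1 * g2 / (R0 * (g : ℝ) ^ 4)))

end Pool.Agent.Lib.SL
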