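import Pool.Agent.Lib.MI.SpecD
import Pool.Agent.Lib.MJ.SpecE

/-!
MP_00e23e_nt, project SL (single lock; architect helper34), chapter D (helper3): the first Cauchy inequality with FREE residue
classes a r s modulo r s, the exact Fourier identity, all bad terms. Final statement DspStmt. The lock does not enter here.

The tuples (r, s1, s2, n1, n2), g = gcd(s1, s2). g = 1: the main terms cancel exactly. g > 1: the terms with an averaged factor are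
bounded trivially; in the terms with two full congruences (n1, n2) lies in the lattice n1 a2 ≡ n2 a1 mod r g. Either all its points in
the box lie on one line through 0, then they are counted directly (m n1 and m n2 are multiples of one number y = m t, which is
in one class modulo r lcm(s1, s2)), or their number is ≤ 36 N^2/(r g): then g > G is trivial and g ≤ G is again a sum TG.

RULES. Module X: file Pool/Agent/Lib/SL/X.lean, first line `import Pool.Agent.Lib.SL.SpecD`, then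
`namespace Pool.Agent.Lib.SL` and `open Finset Pool.Agent.Lib.EH3 Pool.Agent.Lib.TB Pool.Agent.Results.MP_00e23e_nt Pool.Agent.Lib.MI`
(the names of SL win over those of MI), private lemmas with names starting with X_, final theorem
`theorem tX (h1 : AStmt) ... : XStmt`; the statements listed under Uses are hypotheses of your theorem, in this order. The
docstring contains a complete proof. Basic lemmas: MI/Basic.lean (en_congr, en_add, conj_en, norm_en, en_mul_left, en_of_dvd,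
en_crt, iv_mul_mul, iv_dvd_dvd, dl_nonneg_norm), TB/Basic.lean (iv_dvd, iv_unique, iv_congr), EH3/LS1.lean (ee, GG, norm_GG_le,
norm_GG_mul_le). Never use congr!. Every module below 60 s. The constants are generous.
-/

namespace Pool.Agent.Lib.SL

open Finset Pool.Agent.Lib.EH3 Pool.Agent.Lib.TB Pool.Agent.Results.MP_00e23e_nt Pool.Agent.Lib.MI

/-- the pairs (r, s) of the dispersion and the reduced classes a r s modulo r s; all primes of s are > z -/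
def Pr (a : ℕ → ℕ → ℤ) (R S : ℕ) (z : ℝ) (P : Finset (ℕ × ℕ)) : Prop :=
  ∀ w ∈ P, R < w.1 ∧ w.1 ≤ 2 * R ∧ S < w.2 ∧ w.2 ≤ 2 * S ∧ Squarefree (w.1 * w.2) ∧
    Int.gcd (a w.1 w.2) ((w.1 * w.2 : ℕ) : ℤ) = 1 ∧ ∀ p : ℕ, p.Prime → p ∣ w.2 → z < p

/-- the points of the box (N, 2N]^2 in the lattice n1 a2 ≡ n2 a1 mod q -/
def La (a1 a2 : ℤ) (q N : ℕ) : Finset (ℕ × ℕ) :=
  ((Ioc N (2 * N)) ×ˢ (Ioc N (2 * N))).filter (fun n => (q : ℤ) ∣ (n.1 : ℤ) * a2 - (n.2 : ℤ) * a1)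

/-- the lattice has at most 36 N^2/q points in the box -/
def ND (a1 a2 : ℤ) (q N : ℕ) : Prop := q * (La a1 a2 q N).card ≤ 36 * N ^ 2

/-- tuples with gcd(s1, s2) = g for which the two congruences modulo r s1, r s2 are compatible -/
def Gg (a : ℕ → ℕ → ℤ) (g r s1 s2 n1 n2 : ℕ) : Prop :=
  Squarefree (r * s1) ∧ Squarefree (r * s2) ∧ Nat.gcd s1 s2 = g ∧ n1.Coprime (r * s1) ∧ n2.Coprime (r * s2) ∧
    Int.gcd (a r s1) ((r * s1 : ℕ) : ℤ) = 1 ∧ Int.gcd (a r s2) ((r * s2 : ℕ) : ℤ) = 1 ∧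
    ((r * g : ℕ) : ℤ) ∣ (n1 : ℤ) * a r s2 - (n2 : ℤ) * a r s1

/-- e(-h ν/(r s1 s3)), s3 = s2/g, with ν ≡ a(r,s1)/n1 mod r s1 and ν ≡ a(r,s2)/n2 mod s3 -/
noncomputable def fg (a : ℕ → ℕ → ℤ) (h : ℤ) (g r s1 s2 n1 n2 : ℕ) : ℂ :=
  en (-(h * a r s1 * (iv (n1 * (s2 / g)) (r * s1) : ℤ))) (r * s1) *
    en (-(h * a r s2 * (iv (n2 * (r * s1)) (s2 / g) : ℤ))) (s2 / g)

open Classical in
/-- the sums of the dispersion with gcd(s1, s2) = g -/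
noncomputable def TG (a : ℕ → ℕ → ℤ) (g : ℕ) (h : ℤ) (R S N : ℕ) (γ : ℕ → ℕ → ℕ → ℂ) (ω : ℕ → ℕ → ℂ) : ℂ :=
  ∑ r ∈ Ioc R (2 * R), ∑ s1 ∈ Ioc S (2 * S), ∑ s2 ∈ Ioc S (2 * S), γ r s1 s2 *
    ∑ n1 ∈ Ioc N (2 * N), ∑ n2 ∈ Ioc N (2 * N),
      if Gg a g r s1 s2 n1 n2 then ω n1 n2 * fg a h g r s1 s2 n1 n2 else 0

/-- admissible coefficients: no h = 0; supported on the pairs of P, for g > 1 on the lattices modulo r g with at most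
36 N^2/(r g) points in the box; decay in h -/
def Cg (a : ℕ → ℕ → ℤ) (P : Finset (ℕ × ℕ)) (g R S M N : ℕ) (γ : ℤ → ℕ → ℕ → ℕ → ℂ) : Prop :=
  (∀ r s1 s2, γ 0 r s1 s2 = 0) ∧
  (∀ h r s1 s2, γ h r s1 s2 ≠ 0 → (r, s1) ∈ P ∧ (r, s2) ∈ P ∧ (2 ≤ g → ND (a r s1) (a r s2) (r * g) N)) ∧
  ∀ h r s1 s2, ‖γ h r s1 s2‖ ≤ 4 * ((M : ℝ) * g) / ((R : ℝ) * (S : ℝ) ^ 2) *
    min 1 ((4 * ((R : ℝ) * (S : ℝ) ^ 2) / ((M : ℝ) * g * |(h : ℝ)|)) ^ 2)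

/-- Chapter D. The dispersion method with free classes. -/
def DspStmt : Prop := ∃ C : ℝ, 0 < C ∧ ∃ A : ℕ, ∀ (X T z : ℝ) (a : ℕ → ℕ → ℤ) (R S M N H G : ℕ)
    (P : Finset (ℕ × ℕ)) (α β : ℕ → ℂ) (B : ℕ → ℝ), Tau X T → 1 ≤ z → (∀ g, 0 ≤ B g) → 1 ≤ S → 1 ≤ N → 8 ≤ M →
  1 ≤ H → 1 ≤ G → R ≤ N → 2 * H < R →
  100 * (M : ℝ) ^ 2 * (N : ℝ) ^ 2 * (R : ℝ) ^ 2 * (S : ℝ) ^ 4 ≤ X → R * S ^ 2 ≤ M * N →
  Pr a R S z P → (∀ m, ‖α m‖ ≤ 1) → (∀ n, ‖β n‖ ≤ 1) →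
  (∀ g : ℕ, 1 ≤ g → g ≤ G → ∀ (γ : ℤ → ℕ → ℕ → ℕ → ℂ) (ω : ℕ → ℕ → ℂ), Cg a P g R S M N γ →
    (∀ n1 n2, ‖ω n1 n2‖ ≤ 1) → ‖∑ h ∈ Icc (-(H : ℤ)) H, TG a g h R S N (γ h) ω‖ ≤ B g) →
  (∑ w ∈ P, ‖∑ m ∈ Ioc M (2 * M), ∑ n ∈ Ioc N (2 * N), α m * β n * Dl (a w.1 w.2) w.1 w.2 (m * n)‖) ^ 2 ≤
    C * T ^ A * ((R : ℝ) * (M : ℝ) ^ 2 * N + (M : ℝ) ^ 2 * (N : ℝ) ^ 2 / z + (M : ℝ) ^ 2 * (N : ℝ) ^ 2 / G +
      (R : ℝ) * M * (N : ℝ) ^ 2 * (S : ℝ) ^ 2 / (G : ℝ) ^ 2 + (R : ℝ) ^ 2 * (S : ℝ) ^ 4 * (N : ℝ) ^ 2 / H +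
      (R : ℝ) * M * ∑ g ∈ Icc 1 G, B g)

/-- the hypotheses on the sizes -/
def Sz (X T z : ℝ) (R S M N : ℕ) : Prop :=
  Tau X T ∧ 1 ≤ z ∧ 1 ≤ R ∧ 1 ≤ S ∧ 1 ≤ N ∧ 8 ≤ M ∧ R ≤ N ∧
    100 * (M : ℝ) ^ 2 * (N : ℝ) ^ 2 * (R : ℝ) ^ 2 * (S : ℝ) ^ 4 ≤ X ∧ R * S ^ 2 ≤ M * N

/-- the smoothed correlation of two discrepancies -/
noncomputable def Ph (a : ℕ → ℕ → ℤ) (M r s1 s2 n1 n2 : ℕ) : ℂ :=
  Ten M (fun m => Dl (a r s1) r s1 (m * n1) * Dl (a r s2) r s2 (m * n2))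

/-- the smoothed number of m with both full congruences -/
noncomputable def Ps (a : ℕ → ℕ → ℤ) (M r s1 s2 n1 n2 : ℕ) : ℂ :=
  Ten M (fun m => dl (a r s1) (r * s1) (m * n1) * dl (a r s2) (r * s2) (m * n2))

/-- the smoothed terms with at least one averaged factor -/
noncomputable def Cr (a : ℕ → ℕ → ℤ) (M r s1 s2 n1 n2 : ℕ) : ℝ :=
  TR M (fun m => D1 (a r s1) r s1 (m * n1) * D2 (a r s2) r s2 (m * n2) +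
    D2 (a r s1) r s1 (m * n1) * D1 (a r s2) r s2 (m * n2) + D2 (a r s1) r s1 (m * n1) * D2 (a r s2) r s2 (m * n2))

/-- bad tuples -/
def Bd (a : ℕ → ℕ → ℤ) (P : Finset (ℕ × ℕ)) (r s1 s2 n1 n2 : ℕ) : Prop :=
  (r, s1) ∈ P ∧ (r, s2) ∈ P ∧ ¬ Gg a 1 r s1 s2 n1 n2

/-! ### The Fourier identity -/

/-- Module Lph (theorem tLph; the class ν and the phase). Uses: nothing. MODEL: Lib/MI/Dph.lean.
Proof. s3 = s2/g, s2 = g s3. q1 = r s1 and s3 are coprime: (r, s3) = 1 since r s2 is squarefree; a prime dividing s1 and s3 divides g = gcd(s1,s2), so its square divides s2. Chinese remainder theorem: ν with q1 ∣ ν - a1 iv n1 q1 and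
s3 ∣ ν - a2 iv n2 s3 (a1 = a r s1, a2 = a r s2; n2 coprime to s3). Then q1 ∣ ν n1 - a1 and s3 ∣ ν n2 - a2. r g ∣ q1, n1 (ν n2 - a2) = n2 (ν n1 - a1) - (n1 a2 - n2 a1) is divisible by r g and n1 is coprime to r g: r g ∣ ν n2 - a2.
r g and s3 are coprime, r g s3 = r s2. Phase: en_crt for q1, s3: en (-(h ν)) (q1 s3) = en (-(h ν) iv s3 q1) q1 * en (-(h ν) iv q1 s3) s3, and ν iv s3 q1 ≡ a1 iv (n1 s3) q1, ν iv q1 s3 ≡ a2 iv (n2 q1) s3 (iv_mul_mul), en_congr. -/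
def LphStmt : Prop := ∀ (a : ℕ → ℕ → ℤ) (g r s1 s2 n1 n2 : ℕ), Gg a g r s1 s2 n1 n2 → ∃ ν : ℤ,
  ((r * s1 : ℕ) : ℤ) ∣ ν * n1 - a r s1 ∧ ((r * s2 : ℕ) : ℤ) ∣ ν * n2 - a r s2 ∧
    ∀ h : ℤ, en (-(h * ν)) (r * s1 * (s2 / g)) = fg a h g r s1 s2 n1 n2

/-- Module Lid (theorem tLid; the exact identity, g = 1). Uses: MI.DfoStmt, LphStmt. MODEL: Lib/MI/Did.lean.
Proof. s2/1 = s2. ν of Lph, z = m - ν. r s1 ∣ m n1 - a1 iff r s1 ∣ z (m n1 - a1 = z n1 + (ν n1 - a1), n1 coprime to r s1); r ∣ m n1 - a1 iff r ∣ z; r s2 ∣ m n2 - a2 iff r s2 ∣ z; r ∣ m n2 - a2 iff r ∣ z. The rest as in the MODEL. -/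
def LidStmt : Prop := ∀ (a : ℕ → ℕ → ℤ) (r s1 s2 n1 n2 m : ℕ), Gg a 1 r s1 s2 n1 n2 →
  Dl (a r s1) r s1 (m * n1) * Dl (a r s2) r s2 (m * n2) = (1 / ((r * s1 * s2 : ℕ) : ℂ)) *
    ∑ h ∈ (range (r * s1 * s2)).filter (fun h => ¬ s1 ∣ h ∧ ¬ s2 ∣ h),
      en ((h : ℤ) * m) (r * s1 * s2) * fg a h 1 r s1 s2 n1 n2

/-- Module Lff (theorem tLff; two full congruences, every g). Uses: LphStmt.
Proof. K = r s1 (s2/g). ν of Lph. r s1 ∣ m n1 - a1 iff r s1 ∣ m - ν; r s2 ∣ m n2 - a2 iff r s2 ∣ m - ν; both iff K ∣ m - ν (K = (r s1) s3 with coprime factors, s3 ∣ s2, and r s2 = (r g) s3 divides K). So the left side is 1 if K ∣ m - ν, else 0, and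
∑_{h < K} en (h (m - ν)) K = K or 0 (geometric series, see Lib/MI/Dfo.lean), en (h (m - ν)) K = en (h m) K * en (-(h ν)) K = en (h m) K * fg. -/
def LffStmt : Prop := ∀ (a : ℕ → ℕ → ℤ) (g r s1 s2 n1 n2 m : ℕ), Gg a g r s1 s2 n1 n2 →
  dl (a r s1) (r * s1) (m * n1) * dl (a r s2) (r * s2) (m * n2) = (1 / ((r * s1 * (s2 / g) : ℕ) : ℂ)) *
    ∑ h ∈ range (r * s1 * (s2 / g)), en ((h : ℤ) * m) (r * s1 * (s2 / g)) * fg a h g r s1 s2 n1 n2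

open Classical in
/-- Module Lta (theorem tLta; frequencies above H, g = 1). Uses: LidStmt, MI.DggStmt. MODEL: Lib/MI/Dta.lean. -/
def LtaStmt : Prop := ∀ (a : ℕ → ℕ → ℤ) (M H r s1 s2 n1 n2 : ℕ), Gg a 1 r s1 s2 n1 n2 → 1 ≤ M → 1 ≤ H →
  2 * H < r * s1 * s2 →
  ‖Ph a M r s1 s2 n1 n2 - (1 / ((r * s1 * s2 : ℕ) : ℂ)) *
      ∑ h ∈ (Icc (-(H : ℤ)) H).filter (fun h => ¬ (s1 : ℤ) ∣ h ∧ ¬ (s2 : ℤ) ∣ h),
        Ten M (fun m => en (h * m) (r * s1 * s2)) * fg a h 1 r s1 s2 n1 n2‖ ≤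
    2 * ((r : ℝ) * s1 * s2) / ((M : ℝ) * H)

/-- Module Ltb (theorem tLtb; frequencies above H, two full congruences). Uses: LffStmt, MI.DggStmt. MODEL: Lib/MI/Dta.lean
(all h < K instead of the filtered ones; K = r s1 (s2/g); the h' of absolute value > H are ≠ 0; fg depends only on h modulo K: r s1 ∣ K, s2/g ∣ K). -/
def LtbStmt : Prop := ∀ (a : ℕ → ℕ → ℤ) (g M H r s1 s2 n1 n2 : ℕ), Gg a g r s1 s2 n1 n2 → 1 ≤ M → 1 ≤ H →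
  2 * H < r * s1 * (s2 / g) →
  ‖Ps a M r s1 s2 n1 n2 - (1 / ((r * s1 * (s2 / g) : ℕ) : ℂ)) *
      ∑ h ∈ Icc (-(H : ℤ)) H, Ten M (fun m => en (h * m) (r * s1 * (s2 / g))) * fg a h g r s1 s2 n1 n2‖ ≤
    2 * ((r * s1 * (s2 / g) : ℕ) : ℝ) / ((M : ℝ) * H)

/-! ### Cauchy's inequality -/

/-- Module Lca (theorem tLca; Cauchy). Uses: MI.DtrStmt. MODEL: Lib/MI/Dca.lean (a r s in place of a). -/
def LcaStmt : Prop := ∀ (a : ℕ → ℕ → ℤ) (R S M N : ℕ) (P : Finset (ℕ × ℕ)) (α β : ℕ → ℂ), 8 ≤ M →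
  (∀ w ∈ P, R < w.1 ∧ w.1 ≤ 2 * R ∧ S < w.2 ∧ w.2 ≤ 2 * S) → (∀ m, ‖α m‖ ≤ 1) →
  ∃ c : ℕ × ℕ → ℂ, (∀ w, ‖c w‖ ≤ 1) ∧ (∀ w, w ∉ P → c w = 0) ∧
    (∑ w ∈ P, ‖∑ m ∈ Ioc M (2 * M), ∑ n ∈ Ioc N (2 * N), α m * β n * Dl (a w.1 w.2) w.1 w.2 (m * n)‖) ^ 2 ≤
      (R : ℝ) * M * ∑ r ∈ Ioc R (2 * R), TR M (fun m =>
        ‖∑ s ∈ Ioc S (2 * S), c (r, s) * ∑ n ∈ Ioc N (2 * N), β n * Dl (a r s) r s (m * n)‖ ^ 2)

open Classical in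
/-- Module Lex (theorem tLex; opening the square). Uses: nothing. MODEL: Lib/MI/Dex.lean.
Proof. As there the left side is the sum over r, s1, s2, n1, n2 of c(r,s1) conj c(r,s2) β n1 conj (β n2) Ph. Split the tuples into those with Gg 1 and the others; a tuple of the second kind with nonzero coefficient is Bd. For it Ph = Ps + (Ph - Ps), and
‖Ph - Ps‖ ≤ Cr (Dl = dl(r s) - (1/s) dl(r), so the product of the two Dl minus the product of the two dl is a sum of three terms with norms D1 D2, D2 D1, D2 D2; norm of Ten ≤ TR of the norms). If Ps ≠ 0 there is an m with r s1 ∣ m n1 - a1, r s2 ∣ m n2 - a2; by Pr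
a1 is coprime to r s1 and a2 to r s2, so n1, n2 are coprime to r s1, r s2, and n1 a2 - n2 a1 ≡ n1 (m n2) - n2 (m n1) = 0 modulo r g, g = gcd s1 s2 (r g divides r s1 and r s2): Gg g holds, and g ≥ 2 because Gg 1 fails (g ≥ 1 as s1 ≥ 1). -/
def LexStmt : Prop := ∀ (z : ℝ) (a : ℕ → ℕ → ℤ) (R S M N : ℕ) (P : Finset (ℕ × ℕ)) (β : ℕ → ℂ) (c : ℕ × ℕ → ℂ), 8 ≤ M →
  Pr a R S z P → (∀ n, ‖β n‖ ≤ 1) → (∀ w, ‖c w‖ ≤ 1) → (∀ w, w ∉ P → c w = 0) →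
  ∑ r ∈ Ioc R (2 * R), TR M (fun m =>
      ‖∑ s ∈ Ioc S (2 * S), c (r, s) * ∑ n ∈ Ioc N (2 * N), β n * Dl (a r s) r s (m * n)‖ ^ 2) ≤
    ‖∑ r ∈ Ioc R (2 * R), ∑ s1 ∈ Ioc S (2 * S), ∑ s2 ∈ Ioc S (2 * S), ∑ n1 ∈ Ioc N (2 * N), ∑ n2 ∈ Ioc N (2 * N),
      (if Gg a 1 r s1 s2 n1 n2 then
        c (r, s1) * (starRingEnd ℂ) (c (r, s2)) * (β n1 * (starRingEnd ℂ) (β n2)) * Ph a M r s1 s2 n1 n2 else 0)‖ +
    ‖∑ r ∈ Ioc R (2 * R), ∑ s1 ∈ Ioc S (2 * S), ∑ s2 ∈ Ioc S (2 * S), ∑ n1 ∈ Ioc N (2 * N), ∑ n2 ∈ Ioc N (2 * N),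
      (if 2 ≤ Nat.gcd s1 s2 ∧ Gg a (Nat.gcd s1 s2) r s1 s2 n1 n2 then
        c (r, s1) * (starRingEnd ℂ) (c (r, s2)) * (β n1 * (starRingEnd ℂ) (β n2)) * Ps a M r s1 s2 n1 n2 else 0)‖ +
    ∑ r ∈ Ioc R (2 * R), ∑ s1 ∈ Ioc S (2 * S), ∑ s2 ∈ Ioc S (2 * S), ∑ n1 ∈ Ioc N (2 * N), ∑ n2 ∈ Ioc N (2 * N),
      (if Bd a P r s1 s2 n1 n2 then Cr a M r s1 s2 n1 n2 else 0)

/-! ### The averaged bad terms -/

open Classical in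
/-- Module Lna (theorem tLna; averages over m, n). Uses: MJ.EcnStmt. MODEL: Lib/MJ/Ena.lean.
Proof. First: exchange the sums: ∑_{w ∈ P} (number of (m,n) with w.1 w.2 ∣ m n - a w) ≤ card P · T (6 M N/(R S) + 1), card P ≤ R S ≤ R S^2 ≤ M N: ≤ 7 T M N. Second (s fixed): at most R values of r, each T (6 M N/R + 1): ≤ 7 T M N (R ≤ N ≤ M N).
(MJ.EcnStmt for the integer a r s; 6 M N ≤ X.) -/
def LnaStmt : Prop := ∀ (X T z : ℝ) (a : ℕ → ℕ → ℤ) (R S M N : ℕ) (P : Finset (ℕ × ℕ)), Sz X T z R S M N → Pr a R S z P →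
  ∑ m ∈ Icc (M / 2) (3 * M), ∑ n ∈ Ioc N (2 * N),
    ((P.filter (fun w => ((w.1 * w.2 : ℕ) : ℤ) ∣ ((m * n : ℕ) : ℤ) - a w.1 w.2)).card : ℝ) ≤ 7 * T * ((M : ℝ) * N) ∧
  ∀ s : ℕ, ∑ m ∈ Icc (M / 2) (3 * M), ∑ n ∈ Ioc N (2 * N),
    (((Ioc R (2 * R)).filter (fun r : ℕ => (r, s) ∈ P ∧ (r : ℤ) ∣ ((m * n : ℕ) : ℤ) - a r s)).card : ℝ) ≤
      7 * T * ((M : ℝ) * N)

open Classical in
/-- Module Lcn (theorem tLcn; n in a class with a common factor). Uses: nothing.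
Proof. r s is squarefree, so r and s are coprime. If there is an n with r ∣ m n - b then m and n are coprime to r (b is), and the n with r ∣ m n - b form one class modulo r: at most N/r + 1 ≤ N/R + 1 of them in Ioc N 2N. If n is not coprime to s there is a prime p ∣ s, p ∣ n,
and z < p: n is in one class modulo r p (r, p coprime): at most N/(r p) + 1 ≤ N/(R z) + 1; the number of the primes p ∣ s is ≤ τ(s) ≤ T (s ≤ X). -/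
def LcnStmt : Prop := ∀ (X T z : ℝ) (R N m r s : ℕ) (b : ℤ), Tau X T → 1 ≤ z → 1 ≤ R → R < r → 1 ≤ s → (s : ℝ) ≤ X →
  Squarefree (r * s) → Int.gcd b r = 1 → (∀ p : ℕ, p.Prime → p ∣ s → z < p) →
  (((Ioc N (2 * N)).filter (fun n : ℕ => (r : ℤ) ∣ ((m * n : ℕ) : ℤ) - b)).card : ℝ) ≤ (N : ℝ) / R + 1 ∧
  (((Ioc N (2 * N)).filter (fun n : ℕ => (r : ℤ) ∣ ((m * n : ℕ) : ℤ) - b ∧ ¬ n.Coprime s)).card : ℝ) ≤
    T * ((N : ℝ) / (R * z) + 1)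

open Classical in
/-- Module Lcb (theorem tLcb; first full, second averaged). Uses: LnaStmt, LcnStmt, MI.DprStmt.
Proof. A nonzero term has (r,s1), (r,s2) ∈ P, r s1 ∣ m n1 - a1, r ∣ m n2 - a2: n1, m are coprime to r s1, n2 to r, and n1 a2 ≡ n1 m n2 ≡ n2 a1 mod r. So Bd forces: s1, s2 not coprime, or n2, s2 not coprime. For fixed m, n1, (r,s1) (at most 7 T M N triples in total by Lna, first part):
the sum over s2 not coprime to s1 and all n2 of 1/s2 is ≤ (2T/z) (N/R + 1) (Dpr with Z = s1, Lcn), and (N/R + 1)/z ≤ N/(R z) + 1; the sum over all s2 and the n2 not coprime to s2 is ≤ T (N/(R z) + 1) (∑_{s2 ∈ Ioc S 2S} 1/s2 ≤ 1). Total ≤ 21 T^2 M N (1 + N/(R z)). -/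
def LcbStmt : Prop := ∀ (X T z : ℝ) (a : ℕ → ℕ → ℤ) (R S M N : ℕ) (P : Finset (ℕ × ℕ)), Sz X T z R S M N → Pr a R S z P →
  ∑ m ∈ Icc (M / 2) (3 * M), ∑ r ∈ Ioc R (2 * R), ∑ s1 ∈ Ioc S (2 * S), ∑ s2 ∈ Ioc S (2 * S),
    ∑ n1 ∈ Ioc N (2 * N), ∑ n2 ∈ Ioc N (2 * N),
      (if Bd a P r s1 s2 n1 n2 then D1 (a r s1) r s1 (m * n1) * D2 (a r s2) r s2 (m * n2) else 0) ≤
    21 * T ^ 2 * ((M : ℝ) * N * (1 + N / ((R : ℝ) * z)))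

open Classical in
/-- Module Lcc (theorem tLcc; both averaged). Uses: LnaStmt, LcnStmt, MI.DprStmt.
Proof. A nonzero term has (r,s1), (r,s2) ∈ P, r ∣ m n1 - a1, r ∣ m n2 - a2; the condition modulo r of Gg 1 holds as in Lcb. So Bd forces: (i) s1, s2 not coprime, or (ii) n2, s2 not coprime, or (iii) n1, s1 not coprime. For fixed s1 the number of (m, n1, r) with r ∣ m n1 - a r s1, (r,s1) ∈ P is
≤ 7 T M N (Lna, second part). (i): the sum over s2, n2 of 1/s2 is ≤ (2T/z) (N/R + 1) ≤ 2T (1 + N/(R z)); (ii): ≤ T (1 + N/(R z)); then ∑ 1/s1 ≤ 1: together ≤ 21 T^2 M N (1 + N/(R z)). (iii) is (ii) with 1 and 2 exchanged (sum first over s2, m, n2, r): 7 T^2 M N (1 + N/(R z)). -/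
def LccStmt : Prop := ∀ (X T z : ℝ) (a : ℕ → ℕ → ℤ) (R S M N : ℕ) (P : Finset (ℕ × ℕ)), Sz X T z R S M N → Pr a R S z P →
  ∑ m ∈ Icc (M / 2) (3 * M), ∑ r ∈ Ioc R (2 * R), ∑ s1 ∈ Ioc S (2 * S), ∑ s2 ∈ Ioc S (2 * S),
    ∑ n1 ∈ Ioc N (2 * N), ∑ n2 ∈ Ioc N (2 * N),
      (if Bd a P r s1 s2 n1 n2 then D2 (a r s1) r s1 (m * n1) * D2 (a r s2) r s2 (m * n2) else 0) ≤
    28 * T ^ 2 * ((M : ℝ) * N * (1 + N / ((R : ℝ) * z)))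

open Classical in
/-- Module Lcr (theorem tLcr; the averaged bad terms). Uses: MI.DtrStmt, LcbStmt, LccStmt. MODEL: Lib/MI/Dba.lean.
Proof. Cr ≤ 4 ∑_{m ∈ Icc (M/2) 3M} (three terms) (Dtr); exchange the sums; D2 D1 from Lcb by exchanging (s1, n1) and (s2, n2): Bd is symmetric (Gg 1 is: gcd, and n2 a1 - n1 a2 = -(n1 a2 - n2 a1)). 4 (21 + 21 + 28) = 280. -/
def LcrStmt : Prop := ∀ (X T z : ℝ) (a : ℕ → ℕ → ℤ) (R S M N : ℕ) (P : Finset (ℕ × ℕ)), Sz X T z R S M N → Pr a R S z P →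
  ∑ r ∈ Ioc R (2 * R), ∑ s1 ∈ Ioc S (2 * S), ∑ s2 ∈ Ioc S (2 * S), ∑ n1 ∈ Ioc N (2 * N), ∑ n2 ∈ Ioc N (2 * N),
      (if Bd a P r s1 s2 n1 n2 then Cr a M r s1 s2 n1 n2 else 0) ≤
    280 * T ^ 2 * ((M : ℝ) * N * (1 + N / ((R : ℝ) * z)))

/-! ### Two full congruences, gcd(s1, s2) > 1 -/

/-- Module Lmv (theorem tLmv; a shortest vector). Uses: nothing.
Here a lattice is given by q, a1, a2: the integer vectors w with q ∣ w.1 a2 - w.2 a1. Proof. The set of the nonzero vectors of the lattice with both coordinates of absolute value ≤ B is finite and nonempty; take e in it with max(|e.1|,|e.2|) =: m minimal (1 ≤ m ≤ B). Let w be a vector of the lattice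
with e.1 w.2 = e.2 w.1. Say |e.1| = m (the other case is the same). Let t = w.1 / e.1 (Int.ediv) and w' = w - t e, so w'.1 = w.1 % e.1, |w'.1| < m; e.1 w'.2 = e.2 w'.1, so m |w'.2| = |e.2| |w'.1| ≤ m |w'.1|, |w'.2| < m. w' is in the lattice; by minimality w' = 0. -/
def LmvStmt : Prop := ∀ (q : ℕ) (a1 a2 B : ℤ) (w0 : ℤ × ℤ), w0 ≠ 0 → |w0.1| ≤ B → |w0.2| ≤ B →
  (q : ℤ) ∣ w0.1 * a2 - w0.2 * a1 →
  ∃ e : ℤ × ℤ, 1 ≤ max |e.1| |e.2| ∧ max |e.1| |e.2| ≤ B ∧ (q : ℤ) ∣ e.1 * a2 - e.2 * a1 ∧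
    ∀ w : ℤ × ℤ, (q : ℤ) ∣ w.1 * a2 - w.2 * a1 → e.1 * w.2 = e.2 * w.1 → ∃ t : ℤ, w.1 = t * e.1 ∧ w.2 = t * e.2

/-- Module Lnd (theorem tLnd; degenerate or few points). Uses: LmvStmt.
Proof. Let u, v ∈ La with u.1 v.2 ≠ u.2 v.1. (1) For w, w' in the lattice q ∣ w.1 w'.2 - w.2 w'.1: multiplied by a1 it is ≡ w.1 (w'.1 a2) - (w.1 a2) w'.1 = 0, and a1 is coprime to q. (2) e from Lmv with w0 = u, B = 2N; m = max |e.1| |e.2| ≤ 2N. (3) D(w) = e.1 w.2 - e.2 w.1 for w ∈ La is a multiple of q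
with |D(w)| ≤ 4 m N: at most 8 m N/q + 1 values. D(u), D(v) are not both 0 (else u and v are multiples of e), so 4 m N ≥ q and the number of values is ≤ 12 m N/q. (4) A fibre of D: w, w' ∈ La with D(w) = D(w'): w - w' is in the lattice with D = 0, so w - w' = t e, |t| m < N. Fix w' with t minimal:
the t are in [0, N/m]: at most N/m + 1 ≤ 3N/m. (In order to avoid the choice: the map w ↦ the coordinate w.i, |e.i| = m, is injective on the fibre and its values are in Ioc N 2N and congruent modulo m.) Total ≤ 36 N^2/q. -/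
def LndStmt : Prop := ∀ (q N : ℕ) (a1 a2 : ℤ), 1 ≤ q → 1 ≤ N → Int.gcd a1 q = 1 → Int.gcd a2 q = 1 →
  ND a1 a2 q N ∨ ∀ u ∈ La a1 a2 q N, ∀ v ∈ La a1 a2 q N, u.1 * v.2 = u.2 * v.1

open Classical in
/-- Module Ldc (theorem tLdc; the number of solutions for a degenerate lattice). Uses: nothing.
Proof. If there is no solution the left side is 0. Otherwise let (m0, n0) be one; d = gcd(n0.1, n0.2), p = (n0.1/d, n0.2/d) coprime. For every n ∈ L: n.1 p.2 = n.2 p.1, so n = t p with a natural number t ≥ 1. For a solution (m, n) put y = m t: y p.1 = m n.1, y p.2 = m n.2, 1 ≤ y ≤ (3M)(2N) ≤ 6 M N ≤ X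
(m ≥ M/2 ≥ 1, p.1 ≥ 1). q1 ∣ y p.1 - a1 and q1 ∣ y0 p.1 - a1 give q1 ∣ (y - y0) p.1, p.1 is coprime to q1 (y p.1 ≡ a1 is): q1 ∣ y - y0; the same for q2; so K = lcm(q1,q2) ∣ y - y0. The number of such y in Icc 1 (6 M N) is ≤ 6 M N/K + 1, and (m, n) is determined by y and the divisor m of y: at most τ(y) ≤ T. -/
def LdcStmt : Prop := ∀ (X T : ℝ) (M N q1 q2 : ℕ) (a1 a2 : ℤ) (L : Finset (ℕ × ℕ)), Tau X T → 8 ≤ M → 1 ≤ N → 1 ≤ q1 → 1 ≤ q2 →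
  6 * (M : ℝ) * N ≤ X → Int.gcd a1 q1 = 1 → Int.gcd a2 q2 = 1 → L ⊆ (Ioc N (2 * N)) ×ˢ (Ioc N (2 * N)) →
  (∀ u ∈ L, ∀ v ∈ L, u.1 * v.2 = u.2 * v.1) →
  (((Icc (M / 2) (3 * M) ×ˢ L).filter (fun w => (q1 : ℤ) ∣ ((w.1 * w.2.1 : ℕ) : ℤ) - a1 ∧
    (q2 : ℤ) ∣ ((w.1 * w.2.2 : ℕ) : ℤ) - a2)).card : ℝ) ≤ T * (6 * ((M : ℝ) * N) / (Nat.lcm q1 q2 : ℕ) + 1)

open Classical in
/-- Module Ldd (theorem tLdd; all degenerate lattices). Uses: MI.DtrStmt, LndStmt, LdcStmt, MJ.EgcStmt.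
Proof. ‖Ps‖ ≤ 4 ∑_{m ∈ Icc (M/2) 3M} (both congruences) (Dtr for the real function, norms of dl). For fixed (r,s1), (r,s2) ∈ P with not ND the n = (n1, n2) of the inner sum are in L = La (a r s1) (a r s2) (r g) N, g = gcd s1 s2, all collinear with 0 (Lnd). Ldc with q1 = r s1, q2 = r s2, lcm = r lcm(s1,s2) > R lcm(s1,s2):
≤ T (6 M N/(R lcm(s1,s2)) + 1). Sum over r (R values), s1, s2: ∑ 1/lcm(s1,s2) ≤ 4T (Egc with p = 1), number of (r,s1,s2) ≤ R S^2 ≤ M N: ≤ T (24 T M N + M N) ≤ 25 T^2 M N; times 4. -/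
def LddStmt : Prop := ∀ (X T z : ℝ) (a : ℕ → ℕ → ℤ) (R S M N : ℕ) (P : Finset (ℕ × ℕ)), Sz X T z R S M N →
  Pr a R S z P →
  ∑ r ∈ Ioc R (2 * R), ∑ s1 ∈ Ioc S (2 * S), ∑ s2 ∈ Ioc S (2 * S), ∑ n1 ∈ Ioc N (2 * N), ∑ n2 ∈ Ioc N (2 * N),
      (if (r, s1) ∈ P ∧ (r, s2) ∈ P ∧ Gg a (Nat.gcd s1 s2) r s1 s2 n1 n2 ∧
          ¬ ND (a r s1) (a r s2) (r * Nat.gcd s1 s2) N then ‖Ps a M r s1 s2 n1 n2‖ else 0) ≤
    100 * T ^ 2 * ((M : ℝ) * N)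

open Classical in
/-- Module Lgs (theorem tLgs; summation over the pairs with gcd g). Uses: nothing.
Proof. For fixed r, s1, s2 with g = gcd s1 s2 and ND: the number of (n1,n2) with Gg g is ≤ card La ≤ 36 N^2/(r g) ≤ 36 N^2/(R g) (the last condition of Gg is membership in La). The number of (s1, s2) with gcd g is ≤ (2S/g)^2 ≤ 4 S^2/g^2 (multiples of g in Ioc S 2S: at most 2S/g), of r: R.
So the sum over the tuples with gcd(s1,s2) = g of a number F g ≥ 0 is ≤ R (4 S^2/g^2) (36 N^2/(R g)) F g = 144 S^2 N^2 F g/g^3; sum over the g with 2 ≤ g ≤ 2S. (A g = gcd(s1,s2) ≥ 2 of pairs in P has a prime factor > z, so g > z.) -/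
def LgsStmt : Prop := ∀ (z : ℝ) (a : ℕ → ℕ → ℤ) (R S N : ℕ) (P : Finset (ℕ × ℕ)) (F : ℕ → ℝ), 1 ≤ R → 1 ≤ S → 1 ≤ N →
  Pr a R S z P → (∀ g, 0 ≤ F g) →
  ∑ r ∈ Ioc R (2 * R), ∑ s1 ∈ Ioc S (2 * S), ∑ s2 ∈ Ioc S (2 * S), ∑ n1 ∈ Ioc N (2 * N), ∑ n2 ∈ Ioc N (2 * N),
      (if (r, s1) ∈ P ∧ (r, s2) ∈ P ∧ 2 ≤ Nat.gcd s1 s2 ∧ Gg a (Nat.gcd s1 s2) r s1 s2 n1 n2 ∧
          ND (a r s1) (a r s2) (r * Nat.gcd s1 s2) N then F (Nat.gcd s1 s2) else 0) ≤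
    144 * ((S : ℝ) ^ 2 * (N : ℝ) ^ 2) *
      ∑ g ∈ (Icc 2 (2 * S)).filter (fun g : ℕ => z < g), F g / (g : ℝ) ^ 3

open Classical in
/-- Module Lgl (theorem tLgl; g > G). Uses: MI.DtrStmt, LphStmt, LgsStmt.
Proof. For a tuple with Gg g, K = r s1 (s2/g) ≥ R S^2/g: the m with both congruences satisfy K ∣ m - ν (Lph), so at most 3M/K + 1 of them are in Icc (M/2) (3M) (M ≥ 8), ‖Ps‖ ≤ 4 (3 M g/(R S^2) + 1) (Dtr). Lgs with F g = 4 (3 M g/(R S^2) + 1) if g > G, else 0: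
144 S^2 N^2 ∑_{g > G} (12 M/(R S^2 g^2) + 4/g^3) ≤ 144 S^2 N^2 (12 M/(R S^2 G) + 4/G^2) (∑_{g > G} 1/g^2 ≤ 1/G, ∑_{g > G} 1/g^3 ≤ 1/G^2). -/
def LglStmt : Prop := ∀ (X T z : ℝ) (a : ℕ → ℕ → ℤ) (R S M N G : ℕ) (P : Finset (ℕ × ℕ)), Sz X T z R S M N → 1 ≤ G →
  Pr a R S z P →
  ∑ r ∈ Ioc R (2 * R), ∑ s1 ∈ Ioc S (2 * S), ∑ s2 ∈ Ioc S (2 * S), ∑ n1 ∈ Ioc N (2 * N), ∑ n2 ∈ Ioc N (2 * N),
      (if (r, s1) ∈ P ∧ (r, s2) ∈ P ∧ 2 ≤ Nat.gcd s1 s2 ∧ Gg a (Nat.gcd s1 s2) r s1 s2 n1 n2 ∧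
          ND (a r s1) (a r s2) (r * Nat.gcd s1 s2) N ∧ G < Nat.gcd s1 s2 then ‖Ps a M r s1 s2 n1 n2‖ else 0) ≤
    1728 * ((M : ℝ) * (N : ℝ) ^ 2 / ((R : ℝ) * G)) + 576 * ((S : ℝ) ^ 2 * (N : ℝ) ^ 2 / (G : ℝ) ^ 2)

open Classical in
/-- the coefficients of the main part, g = 1 -/
noncomputable def ga (c : ℕ × ℕ → ℂ) (M H : ℕ) (h : ℤ) (r s1 s2 : ℕ) : ℂ :=
  if |h| ≤ (H : ℤ) ∧ ¬ (s1 : ℤ) ∣ h ∧ ¬ (s2 : ℤ) ∣ h then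
    c (r, s1) * (starRingEnd ℂ) (c (r, s2)) * ((1 / ((r * s1 * s2 : ℕ) : ℂ)) * Ten M (fun m => en (h * m) (r * s1 * s2)))
  else 0

open Classical in
/-- the coefficients of the main part, g ≥ 2 -/
noncomputable def gb (a : ℕ → ℕ → ℤ) (c : ℕ × ℕ → ℂ) (g M H N : ℕ) (h : ℤ) (r s1 s2 : ℕ) : ℂ :=
  if |h| ≤ (H : ℤ) ∧ h ≠ 0 ∧ Nat.gcd s1 s2 = g ∧ ND (a r s1) (a r s2) (r * g) N then
    c (r, s1) * (starRingEnd ℂ) (c (r, s2)) *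
      ((1 / ((r * s1 * (s2 / g) : ℕ) : ℂ)) * Ten M (fun m => en (h * m) (r * s1 * (s2 / g))))
  else 0

/-- Module Lco (theorem tLco; the coefficients are admissible). Uses: MI.DggStmt. MODEL: Lib/MI/Dco.lean.
Proof. First: as in the MODEL (g = 1, 2 ≤ 1 is false). Second: if gb ≠ 0 then (r,s1), (r,s2) ∈ P, g = gcd s1 s2 divides s2, K = r s1 (s2/g) satisfies R S^2/g ≤ K ≤ 8 R S^2/g (as real numbers K = r s1 s2/g) and 2|h| ≤ 2H < R ≤ K (s1 (s2/g) ≥ 1). Norm: ≤ ‖Ten‖/K ≤ 4M/K ≤ 4 M g/(R S^2) and ≤ K/(M h^2) ≤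
8 R S^2/(g M h^2) ≤ (4 M g/(R S^2)) (4 R S^2/(M g |h|))^2 = 64 R S^2/(M g h^2). -/
def LcoStmt : Prop := ∀ (a : ℕ → ℕ → ℤ) (R S M N H : ℕ) (P : Finset (ℕ × ℕ)) (c : ℕ × ℕ → ℂ), 1 ≤ R → 1 ≤ S → 1 ≤ M →
  2 * H < R → (∀ w ∈ P, R < w.1 ∧ w.1 ≤ 2 * R ∧ S < w.2 ∧ w.2 ≤ 2 * S) → (∀ w, ‖c w‖ ≤ 1) → (∀ w, w ∉ P → c w = 0) →
  Cg a P 1 R S M N (ga c M H) ∧ ∀ g : ℕ, 2 ≤ g → Cg a P g R S M N (gb a c g M H N)

open Classical in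
/-- Module Lgm (theorem tLgm; 2 ≤ g ≤ G). Uses: MI.DggStmt, LtbStmt, LgsStmt, LcoStmt.
Proof. For a tuple of the sum, K = r s1 (s2/g) ≥ R > 2H: Ltb: Ps = (1/K) ∑_{|h| ≤ H} Ten fg + error ≤ 2K/(M H) ≤ 16 R S^2/(g M H). The term h = 0 has norm ≤ 4M/K ≤ 4 M g/(R S^2). Error and h = 0 by Lgs: 144 S^2 N^2 ∑_{g > z, g ≥ 2} (16 R S^2/(M H g^4) + 4M/(R S^2 g^2)) ≤ 2304 R S^4 N^2/(M H) + 1152 M N^2/(R z)
(∑_{g ≥ 2} 1/g^4 ≤ 1; ∑_{g > z} 1/g^2 ≤ 2/z for z ≥ 1). The terms h ≠ 0 with gcd(s1,s2) = g form ∑_{|h| ≤ H} TG a g h R S N (gb a c g M H N h) ω with ω n1 n2 = β n1 conj (β n2) (note gb 0 = 0), of norm ≤ B g by hypothesis and Lco; sum over 2 ≤ g ≤ G. -/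
def LgmStmt : Prop := ∀ (X T z : ℝ) (a : ℕ → ℕ → ℤ) (R S M N H G : ℕ) (P : Finset (ℕ × ℕ)) (β : ℕ → ℂ) (c : ℕ × ℕ → ℂ)
    (B : ℕ → ℝ), Sz X T z R S M N → 1 ≤ H → 2 * H < R → Pr a R S z P → (∀ n, ‖β n‖ ≤ 1) → (∀ w, ‖c w‖ ≤ 1) →
  (∀ w, w ∉ P → c w = 0) →
  (∀ g : ℕ, 2 ≤ g → g ≤ G → ∀ (γ : ℤ → ℕ → ℕ → ℕ → ℂ) (ω : ℕ → ℕ → ℂ), Cg a P g R S M N γ →
    (∀ n1 n2, ‖ω n1 n2‖ ≤ 1) → ‖∑ h ∈ Icc (-(H : ℤ)) H, TG a g h R S N (γ h) ω‖ ≤ B g) →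
  ‖∑ r ∈ Ioc R (2 * R), ∑ s1 ∈ Ioc S (2 * S), ∑ s2 ∈ Ioc S (2 * S), ∑ n1 ∈ Ioc N (2 * N), ∑ n2 ∈ Ioc N (2 * N),
      (if 2 ≤ Nat.gcd s1 s2 ∧ Gg a (Nat.gcd s1 s2) r s1 s2 n1 n2 ∧
          ND (a r s1) (a r s2) (r * Nat.gcd s1 s2) N ∧ Nat.gcd s1 s2 ≤ G then
        c (r, s1) * (starRingEnd ℂ) (c (r, s2)) * (β n1 * (starRingEnd ℂ) (β n2)) * Ps a M r s1 s2 n1 n2 else 0)‖ ≤
    ∑ g ∈ Icc 2 G, B g + 2304 * ((R : ℝ) * (S : ℝ) ^ 4 * (N : ℝ) ^ 2 / ((M : ℝ) * H)) +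
      1152 * ((M : ℝ) * (N : ℝ) ^ 2 / ((R : ℝ) * z))

open Classical in
/-- Module Lfu (theorem tLfu; all terms with two full congruences). Uses: LddStmt, LglStmt, LgmStmt.
Proof. Split the tuples with nonzero coefficient (so (r,s1), (r,s2) ∈ P): not ND (Ldd), ND and g > G (Lgl), ND and g ≤ G (Lgm). -/
def LfuStmt : Prop := ∀ (X T z : ℝ) (a : ℕ → ℕ → ℤ) (R S M N H G : ℕ) (P : Finset (ℕ × ℕ)) (β : ℕ → ℂ) (c : ℕ × ℕ → ℂ)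
    (B : ℕ → ℝ), Sz X T z R S M N → 1 ≤ H → 1 ≤ G → 2 * H < R → Pr a R S z P → (∀ n, ‖β n‖ ≤ 1) → (∀ w, ‖c w‖ ≤ 1) →
  (∀ w, w ∉ P → c w = 0) →
  (∀ g : ℕ, 2 ≤ g → g ≤ G → ∀ (γ : ℤ → ℕ → ℕ → ℕ → ℂ) (ω : ℕ → ℕ → ℂ), Cg a P g R S M N γ →
    (∀ n1 n2, ‖ω n1 n2‖ ≤ 1) → ‖∑ h ∈ Icc (-(H : ℤ)) H, TG a g h R S N (γ h) ω‖ ≤ B g) →
  ‖∑ r ∈ Ioc R (2 * R), ∑ s1 ∈ Ioc S (2 * S), ∑ s2 ∈ Ioc S (2 * S), ∑ n1 ∈ Ioc N (2 * N), ∑ n2 ∈ Ioc N (2 * N),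
      (if 2 ≤ Nat.gcd s1 s2 ∧ Gg a (Nat.gcd s1 s2) r s1 s2 n1 n2 then
        c (r, s1) * (starRingEnd ℂ) (c (r, s2)) * (β n1 * (starRingEnd ℂ) (β n2)) * Ps a M r s1 s2 n1 n2 else 0)‖ ≤
    ∑ g ∈ Icc 2 G, B g + 2304 * ((R : ℝ) * (S : ℝ) ^ 4 * (N : ℝ) ^ 2 / ((M : ℝ) * H)) +
      1152 * ((M : ℝ) * (N : ℝ) ^ 2 / ((R : ℝ) * z)) + 1728 * ((M : ℝ) * (N : ℝ) ^ 2 / ((R : ℝ) * G)) +
      576 * ((S : ℝ) ^ 2 * (N : ℝ) ^ 2 / (G : ℝ) ^ 2) + 100 * T ^ 2 * ((M : ℝ) * N)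

/-! ### The good terms -/

open Classical in
/-- Module Lgo (theorem tLgo; the good terms). Uses: LtaStmt, LcoStmt.
Proof. For a tuple with Gg 1 and c(r,s1) ≠ 0 ≠ c(r,s2) (so R < r ≤ 2R, S < s_i ≤ 2S, 2H < R ≤ K = r s1 s2 ≤ 8 R S^2) Lta: Ph = (1/K) ∑_{h ∈ filtered Icc} Ten fg + O(2K/(M H)), 2K/(M H) ≤ 16 R S^2/(M H). Multiplied by the coefficient the main term is the sum over h ∈ Icc (-H) H of ga c M H h r s1 s2 ω n1 n2 fg with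
ω n1 n2 = β n1 conj (β n2), in total ∑_h TG a 1 h R S N (ga c M H h) ω, norm ≤ B1 (Lco). The number of tuples: r: R, (s1, s2): S^2, n1: N, n2 in one class modulo r (n2 a1 ≡ n1 a2, a1 coprime to r): ≤ N/r + 1 ≤ 2N/R: ≤ 2 S^2 N^2, so the error is ≤ 32 R S^4 N^2/(M H). -/
def LgoStmt : Prop := ∀ (B1 z : ℝ) (a : ℕ → ℕ → ℤ) (R S M N H : ℕ) (P : Finset (ℕ × ℕ)) (β : ℕ → ℂ) (c : ℕ × ℕ → ℂ),
  0 ≤ B1 → 1 ≤ R → 1 ≤ S → 1 ≤ N → 8 ≤ M → 1 ≤ H → R ≤ N → 2 * H < R → Pr a R S z P → (∀ n, ‖β n‖ ≤ 1) →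
  (∀ w, ‖c w‖ ≤ 1) → (∀ w, w ∉ P → c w = 0) →
  (∀ (γ : ℤ → ℕ → ℕ → ℕ → ℂ) (ω : ℕ → ℕ → ℂ), Cg a P 1 R S M N γ → (∀ n1 n2, ‖ω n1 n2‖ ≤ 1) →
    ‖∑ h ∈ Icc (-(H : ℤ)) H, TG a 1 h R S N (γ h) ω‖ ≤ B1) →
  ‖∑ r ∈ Ioc R (2 * R), ∑ s1 ∈ Ioc S (2 * S), ∑ s2 ∈ Ioc S (2 * S), ∑ n1 ∈ Ioc N (2 * N), ∑ n2 ∈ Ioc N (2 * N),
      (if Gg a 1 r s1 s2 n1 n2 then
        c (r, s1) * (starRingEnd ℂ) (c (r, s2)) * (β n1 * (starRingEnd ℂ) (β n2)) * Ph a M r s1 s2 n1 n2 else 0)‖ ≤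
    B1 + 32 * ((R : ℝ) * (S : ℝ) ^ 4 * (N : ℝ) ^ 2) / ((M : ℝ) * H)

/-- Module Lfi (theorem tLfi). FINAL STATEMENT DspStmt. Uses: LcaStmt, LexStmt, LcrStmt, LfuStmt, LgoStmt.
Proof. 2H < R gives R ≥ 3; Sz holds. Lca, Lex, Lgo (B1 = B 1), Lfu, Lcr: the square is ≤ R M (∑_{1 ≤ g ≤ G} B g + 2336 R S^4 N^2/(M H) + 1152 M N^2/(R z) + 1728 M N^2/(R G) + 576 S^2 N^2/G^2 + 100 T^2 M N + 280 T^2 M N (1 + N/(R z))). C = 3000, A = 2, T ≥ 1. -/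
def LfiStmt : Prop := DspStmt

end Pool.Agent.Lib.SL
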