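import Pool.Agent.Lib.MI.SpecT1

/-!
MP_00e23e_nt, project SL (single lock; architect helper34), chapter V (helper28): the van der Corput step for sums over a lattice
in two variables with an arbitrary (adversarial) class. Final statement EvStmt.

IDEA. n1, n2 in (N, 2N], F D | l1 n1 - l2 n2. The shifts are D a, a in a set A0 of pairs of [0, T0)^2 for which l1 a1 - l2 a2 is in one
fixed class modulo F (pigeonhole: at least T0^2/F pairs, T0 = min(F, N/D)). The phase modulo D is not changed by the shifts and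
drops out; two different elements of A0 differ in both coordinates; the correlations are estimated by completion (EsStmt of
SpecE), using only the phase modulo F and the length of the complete sums modulo w1, w2 (the coefficients c1, c2 may be 0).

RULES. Module X: file Pool/Agent/Lib/SL/X.lean, first line `import Pool.Agent.Lib.SL.SpecV`, then
`namespace Pool.Agent.Lib.SL` and `open Finset Pool.Agent.Lib.EH3 Pool.Agent.Lib.TB Pool.Agent.Results.MP_00e23e_nt Pool.Agent.Lib.MI`,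
private lemmas with names starting with X_, final theorem `theorem tX (h1 : AStmt) ... : XStmt`; the statements listed under Uses
are hypotheses of your theorem, in this order. The docstring contains a complete proof. Definitions: MI/Defs.lean (en, SS, Tau),
MI/T1Base.lean (t1g). Basic lemmas: MI/Basic.lean (norm_en, en_congr, en_add, conj_en, en_mul_left, en_of_dvd, en_crt, iv_mul_mul,
iv_dvd_dvd, Tau.mono), MI/T1Base.lean (t1_g_add, t1_g_add_mul, t1_g_congr, t1_g_mul_conj, t1_norm_g), TB/Basic.lean (iv_mul, iv_dvd,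
iv_lt, iv_congr, iv_unique). Never use congr!. Every module below 60 s.
-/

namespace Pool.Agent.Lib.SL

open Finset Pool.Agent.Lib.EH3 Pool.Agent.Lib.TB Pool.Agent.Results.MP_00e23e_nt Pool.Agent.Lib.MI

/-- the summand after the phase modulo D has been removed -/
noncomputable def vG (F D w1 w2 : ℕ) (c c1 c2 : ℤ) (n1 n2 : ℕ) : ℂ :=
  (if n1.Coprime D then 1 else 0) * (t1g c F n1 * t1g c1 w1 n1) * t1g c2 w2 n2

/-- g on the box (N, 2N]^2, 0 elsewhere -/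
noncomputable def vBox (N : ℕ) (g : ℕ → ℕ → ℂ) (n1 n2 : ℕ) : ℂ :=
  if (N < n1 ∧ n1 ≤ 2 * N) ∧ N < n2 ∧ n2 ≤ 2 * N then g n1 n2 else 0

/-- Module VPgn (theorem tVPgn; pigeonhole). Uses: nothing.
Proof. Map a ∈ range T0 ×ˢ range T0 to ((l1 a.1 - l2 a.2) mod F).toNat ∈ range F (Int.emod, F ≥ 1). The T0^2 elements are distributed over F
fibres; if every fibre had F * card < T0^2, then F * T0^2 = F * ∑_fibres card < F * T0^2 (card_eq_sum_card_fiberwise), a contradiction (T0 = 0: take A0 = ∅). A0 = a fibre with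
T0^2 ≤ F * card, c0 = its class. -/
def VPgnStmt : Prop := ∀ (F T0 : ℕ) (l1 l2 : ℤ), 1 ≤ F → ∃ (A0 : Finset (ℕ × ℕ)) (c0 : ℤ),
  A0 ⊆ range T0 ×ˢ range T0 ∧ T0 ^ 2 ≤ F * A0.card ∧ ∀ a ∈ A0, (F : ℤ) ∣ l1 * a.1 - l2 * a.2 - c0

/-- Module VDif (theorem tVDif; differences of the elements of A0). Uses: nothing.
Proof. Let a, a' ∈ A0. Then F | l1 (a'.1 - a.1) - l2 (a'.2 - a.2). If a'.1 = a.1, then F | a'.2 - a.2 (l2 is coprime to F) and |a'.2 - a.2| < T0 ≤ F, so a'.2 = a.2. So a' ↦ a'.1 is injective on A0, with values in range T0, and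
∑_{a' ≠ a} sqrt(gcd(a'.1 - a.1, F)) ≤ ∑_{x ∈ range T0, x ≠ a.1} sqrt(gcd(x - a.1, F)). sqrt(gcd(z, F)) ≤ ∑_{g | F, g | z} sqrt g, and for g | F the number of x ∈ range T0, x ≠ a.1, with g | x - a.1 is at most a.1/g + (T0 - 1 - a.1)/g ≤ T0/g
(x = a.1 + k g or a.1 - k g with k ≥ 1). So the sum is ≤ ∑_{g | F} sqrt g T0/g ≤ T0 τ(F) ≤ T0 T. -/
def VDifStmt : Prop := ∀ (X T : ℝ) (F T0 : ℕ) (l1 l2 c0 : ℤ) (A0 : Finset (ℕ × ℕ)), Tau X T → (F : ℝ) ≤ X → 1 ≤ F →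
  T0 ≤ F → Int.gcd l2 (F : ℤ) = 1 → A0 ⊆ range T0 ×ˢ range T0 →
  (∀ a ∈ A0, (F : ℤ) ∣ l1 * a.1 - l2 * a.2 - c0) → ∀ a ∈ A0,
  ∑ a' ∈ A0.erase a, Real.sqrt (Int.gcd ((a'.1 : ℤ) - a.1) (F : ℤ) : ℝ) ≤ (T0 : ℝ) * T

open Classical in
/-- Module VVdc (theorem tVVdc; van der Corput's inequality for a finite set of shifts). Uses: nothing.
Proof. For every a ∈ A0: ∑_{n1, n2 ∈ Ioc N (2N), P n} φ n g n = ∑_{m1, m2 ∈ range (2N+1), M m} φ m G(m + D a), G = vBox N g: put n = m + D a; the terms with m + D a outside the box vanish; for n in the box n_i - D a_i is in range (2N+1) (D a_i ≤ N < n_i);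
P (m + D a) ↔ M m, φ (m + D a) = φ m. Sum over a ∈ A0: |A0| * S = ∑_{m, M m} φ m ∑_{a ∈ A0} G(m + D a). Cauchy (at most K values of m, ‖φ‖ ≤ 1): |A0|^2 ‖S‖^2 ≤ K ∑_{m, M m} ‖∑_a G(m + D a)‖^2 = K Re ∑_{a, a'} ∑_{m, M m} G(m + D a) conj G(m + D a')
≤ K ∑_{a,a'} ‖..‖. -/
def VVdcStmt : Prop := ∀ (N D : ℕ) (A0 : Finset (ℕ × ℕ)) (P M : ℕ → ℕ → Prop) (φ g : ℕ → ℕ → ℂ) (K : ℝ),
  (∀ a ∈ A0, D * a.1 ≤ N ∧ D * a.2 ≤ N) →
  (∀ a ∈ A0, ∀ m1 m2, (P (m1 + D * a.1) (m2 + D * a.2) ↔ M m1 m2) ∧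
    φ (m1 + D * a.1) (m2 + D * a.2) = φ m1 m2) → (∀ m1 m2, ‖φ m1 m2‖ ≤ 1) →
  (((range (2 * N + 1) ×ˢ range (2 * N + 1)).filter (fun m => M m.1 m.2)).card : ℝ) ≤ K →
  (A0.card : ℝ) ^ 2 * ‖∑ n1 ∈ Ioc N (2 * N), ∑ n2 ∈ Ioc N (2 * N), if P n1 n2 then φ n1 n2 * g n1 n2 else 0‖ ^ 2 ≤
    K * ∑ a ∈ A0, ∑ a' ∈ A0, ‖∑ m1 ∈ range (2 * N + 1), ∑ m2 ∈ range (2 * N + 1),
      if M m1 m2 then vBox N g (m1 + D * a.1) (m2 + D * a.2) *
        (starRingEnd ℂ) (vBox N g (m1 + D * a'.1) (m2 + D * a'.2)) else 0‖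

open Classical in
/-- Module VCnt (theorem tVCnt; number of lattice points). Uses: nothing.
Proof. For every m2 ∈ range (2N+1) (2N + 1 ≤ 3N values) the condition puts m1 into one class modulo B (l1 is invertible modulo B); an interval of 2N + 1 ≤ 3N consecutive integers contains at most 3N/B + 1 elements of a class. Total ≤ 3N (3N/B + 1) ≤ 9 N (N/B + 1). -/
def VCntStmt : Prop := ∀ (B N : ℕ) (l1 l2 c0 : ℤ), 1 ≤ B → 1 ≤ N → Int.gcd l1 (B : ℤ) = 1 →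
  (((range (2 * N + 1) ×ˢ range (2 * N + 1)).filter
    (fun m => (B : ℤ) ∣ l1 * m.1 - l2 * m.2 - c0)).card : ℝ) ≤ 9 * (N : ℝ) * ((N : ℝ) / B + 1)

/-- Module VPha (theorem tVPha; splitting a phase). Uses: nothing.
Proof. n is coprime to F D iff it is coprime to F and to D; otherwise both sides are 0. For n coprime to F D: en_crt with q1 = F, q2 = D gives en (c iv n (F D)) (F D) = en (c iv n (F D) iv D F) F * en (c iv n (F D) iv F D) D, and iv n (F D) ≡ iv n F modulo F, ≡ iv n D modulo D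
(iv_dvd_dvd, en_congr). -/
def VPhaStmt : Prop := ∀ (c : ℤ) (F D n : ℕ), 1 ≤ F → 1 ≤ D → F.Coprime D →
  t1g c (F * D) n = t1g (c * (iv D F : ℤ)) F n * t1g (c * (iv F D : ℤ)) D n

/-- Module VCpl (theorem tVCpl; the complete sums). Uses: SsbStmt, T1FhtStmt.
Proof. T1FhtStmt with q = F, s = w, e = 0, c' = c1 (t1g c1 w (n + 0), t1g c1 w (n + t + 0)): the left side is ‖SS c (j iv w F) F t‖ ‖SS c1 (j iv F w) w t‖. SsbStmt: the first factor is ≤ τ(F)^2 (F gcd(gcd(c t, ..), F))^(1/2) ≤ T^2 (F gcd(c t, F))^(1/2), because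
gcd(gcd(A, B), F) divides gcd(A, F) (positive, F ≥ 1); the second one is ≤ τ(w)^2 (w gcd(gcd(.., j iv F w), w))^(1/2) ≤ T^2 (w gcd(j, w))^(1/2): gcd(j iv F w, w) = gcd(j, w), since iv F w is coprime to w (iv_dvd). -/
def VCplStmt : Prop := ∀ (T : ℝ) (c c1 j : ℤ) (F w t : ℕ), 1 ≤ F → 1 ≤ w → Squarefree F → Squarefree w →
  F.Coprime w → (F.divisors.card : ℝ) ≤ T → (w.divisors.card : ℝ) ≤ T →
  ‖∑ n ∈ range (F * w), t1g c F n * t1g c1 w n * (starRingEnd ℂ) (t1g c F (n + t) * t1g c1 w (n + t)) *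
      en (j * n) (F * w)‖ ≤
    T ^ 4 * Real.sqrt ((F : ℝ) * w * (Int.gcd (c * t) (F : ℤ) : ℝ)) * Real.sqrt (Int.gcd j (w : ℤ) : ℝ)

open Classical in
/-- Module VCor (theorem tVCor : EsStmt → VCplStmt → VCorStmt; the correlations; helper28 writes this module himself). -/
def VCorStmt : Prop := ∃ C : ℝ, 0 < C ∧ ∃ A : ℕ, ∀ (X T e : ℝ) (F D w1 w2 N : ℕ) (l c c1 c2 : ℤ) (a a' : ℕ × ℕ), Tau X T →
  Squarefree (F * D) → Squarefree w1 → Squarefree w2 → (F * D).Coprime w1 → (F * D).Coprime w2 →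
  Int.gcd l ((F * D : ℕ) : ℤ) = 1 → 1 ≤ N → 100 * ((F : ℝ) * D * w1 * w2 * (N : ℝ) ^ 2) ≤ X →
  1 / Real.sqrt F ≤ e → Real.sqrt ((F : ℝ) * w1 * w2) * ((F : ℝ) * D) / (N : ℝ) ^ 2 ≤ e →
  Real.sqrt ((F : ℝ) * w1) / N ≤ e → Real.sqrt ((F : ℝ) * w2) / N ≤ e →
  D * a.1 ≤ N → D * a.2 ≤ N → D * a'.1 ≤ N → D * a'.2 ≤ N →
  ‖∑ m1 ∈ range (2 * N + 1), ∑ m2 ∈ range (2 * N + 1),
      if ((F * D : ℕ) : ℤ) ∣ ((m1 + D * a.1 : ℕ) : ℤ) - l * ((m2 + D * a.2 : ℕ) : ℤ) then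
        vBox N (vG F D w1 w2 c c1 c2) (m1 + D * a.1) (m2 + D * a.2) *
        (starRingEnd ℂ) (vBox N (vG F D w1 w2 c c1 c2) (m1 + D * a'.1) (m2 + D * a'.2)) else 0‖ ≤
    C * T ^ A * ((N : ℝ) * ((N : ℝ) / ((F : ℝ) * D) + 1)) * e *
      Real.sqrt ((Int.gcd c (F : ℤ) : ℝ) * (Int.gcd ((a'.1 : ℤ) - a.1) (F : ℤ) : ℝ))

/-- THE RESULT OF THE CHAPTER. The sum over the lattice F D | n1 - l n2 with the phases c/n1 modulo F D, c1/n1 modulo w1, c2/n2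
modulo w2. F is the modulus which is used; nothing is assumed about c, c1, c2 (only gcd(c, F) enters); w1, w2 need not be coprime
to each other. -/
def EvStmt : Prop := ∃ C : ℝ, 0 < C ∧ ∃ A : ℕ, ∀ (X T e : ℝ) (F D w1 w2 N : ℕ) (l c c1 c2 : ℤ), Tau X T →
  Squarefree (F * D) → Squarefree w1 → Squarefree w2 → (F * D).Coprime w1 → (F * D).Coprime w2 →
  Int.gcd l ((F * D : ℕ) : ℤ) = 1 → 1 ≤ N → D ≤ N → 100 * ((F : ℝ) * D * w1 * w2 * (N : ℝ) ^ 2) ≤ X →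
  1 / Real.sqrt F ≤ e → Real.sqrt ((F : ℝ) * w1 * w2) * ((F : ℝ) * D) / (N : ℝ) ^ 2 ≤ e →
  Real.sqrt ((F : ℝ) * w1) / N ≤ e → Real.sqrt ((F : ℝ) * w2) / N ≤ e →
  ‖∑ n1 ∈ Ioc N (2 * N), ∑ n2 ∈ Ioc N (2 * N), if ((F * D : ℕ) : ℤ) ∣ (n1 : ℤ) - l * n2 then
      t1g c (F * D) n1 * t1g c1 w1 n1 * t1g c2 w2 n2 else 0‖ ≤
    C * T ^ A * ((N : ℝ) ^ 2 / ((F : ℝ) * D)) * (1 + (F : ℝ) * D / N) ^ 2 *
      Real.sqrt (e * Real.sqrt (Int.gcd c (F : ℤ) : ℝ))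

/-- Module VEv (theorem tVEv : VEvStmt). 
Proof. B := F D, T0 := min F (N / D) (ℕ division), T0 ≥ 1. VPgn with l1 = 1, l2 = l: A0, c0, |A0| ≥ T0^2/F > 0. VPha: t1g c (F D) n1 = t1g c' F n1 * t1g c'' D n1, c' = c iv D F, c'' = c iv F D. The summand is φ n1 n2 * g n1 n2 with
φ n1 n2 = t1g c'' D n1 and g = vG F D w1 w2 c' c1 c2: if n1 is coprime to D both sides agree, otherwise φ = 0. ‖φ‖ ≤ 1 (t1_norm_g), φ is unchanged by n1 ↦ n1 + D a (t1_g_add_mul).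
P n1 n2 := B | n1 - l n2, M m1 m2 := B | m1 - l m2 + D c0 (that is, 1 * m1 - l m2 - (-D c0)): for a ∈ A0, (m1 + D a.1) - l (m2 + D a.2) - (m1 - l m2 + D c0) = D (a.1 - l a.2 - c0) is divisible by D F. D a.i ≤ D (N/D) ≤ N. VVdc with K = 9 Λ, Λ = N (N/B + 1) (VCnt, l1 = 1):
|A0|^2 ‖S‖^2 ≤ 9 Λ ∑_{a,a'} ‖X(a,a')‖. a' = a: at most 9 Λ terms of norm ≤ 1: ‖X(a,a)‖ ≤ 9 Λ. a' ≠ a: VCor (its condition B | (m1 + D a.1) - l (m2 + D a.2) is equivalent to M m1 m2): ‖X(a,a')‖ ≤ C T^A Λ e (γ gcd(a'.1 - a.1, F))^(1/2), γ = gcd(c', F) = gcd(c, F) (iv D F is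
coprime to F). With VDif: ∑_{a'} ‖X(a,a')‖ ≤ 9 Λ + C T^A Λ e γ^(1/2) T0 T. So ‖S‖^2 ≤ 9 Λ^2 (9 + C T^(A+1) e γ^(1/2) T0)/|A0| ≤ 9 Λ^2 (9 F/T0^2 + C T^(A+1) e γ^(1/2) F/T0) (|A0| ≥ T0^2/F). F/T0 ≤ 2 (1 + B/N): T0 = F, or T0 = N/D ≥ N/(2D) as D ≤ N. So
F/T0^2 ≤ (4/F)(1 + B/N)^2, and 1/F ≤ 1/sqrt F ≤ e ≤ e γ^(1/2) (F, γ ≥ 1): ‖S‖^2 ≤ 9 Λ^2 (36 + 2C) T^(A+1) e γ^(1/2) (1 + B/N)^2. Take the square root; Λ = (N^2/B)(1 + B/N), T^(A+1) ≥ 1. -/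
def VEvStmt : Prop := VPgnStmt → VDifStmt → VVdcStmt → VCntStmt → VPhaStmt → VCorStmt → EvStmt

end Pool.Agent.Lib.SL
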