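import Pool.Agent.Lib.SL.SpecE
import Pool.Agent.Lib.SL.SpecV

/-!
MP_00e23e_nt, project SL (single lock; architect helper34), chapter W (helper78): the van der Corput step with shifts divisible by
divisors F1 of the modulus in n1 and F2 of the modulus in n2, completion modulo the whole lattice modulus. Final statement EwStmt.
It gives 84 δ + 48 κ < 1 instead of 108 δ.

IDEA. n1, n2 in (N, 2N], B = k2 k3 ∣ n1 - l n2, phases c/n1 modulo B, c1/n1 modulo F1 u1, c2/n2 modulo F2 u2. Shifts (F1 b1, F2 b2),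
b in a set A0 ⊆ [0, T1) × [0, T2) for which F1 b1 - l F2 b2 is in one fixed class modulo B (pigeonhole: at least T1 T2/B pairs). The phases
modulo F1, F2 are not changed by the shifts and drop out by Cauchy. Two different elements of A0 differ in b1. The correlations are
estimated by WCorStmt (proved by helper28 in SL/WCor.lean).

RULES. Module X: file Pool/Agent/Lib/SL/X.lean, first line `import Pool.Agent.Lib.SL.SpecW`, then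
`namespace Pool.Agent.Lib.SL` and `open Finset Pool.Agent.Lib.EH3 Pool.Agent.Lib.TB Pool.Agent.Results.MP_00e23e_nt Pool.Agent.Lib.MI`,
private lemmas with names starting with X_, final theorem `theorem tX (h1 : AStmt) ... : XStmt`; the statements listed under Uses
are hypotheses of your theorem, in this order. The docstring contains a complete proof. Definitions: MI/Defs.lean (en, SS, Tau),
MI/T1Base.lean (t1g), SL/SpecV.lean (vBox). Basic lemmas: MI/Basic.lean, MI/T1Base.lean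
(t1_g_add, t1_g_add_mul, t1_g_congr, t1_norm_g), TB/Basic.lean (iv_mul, iv_dvd, iv_congr, iv_unique). Never use congr!.
Every module below 60 s. The constants are generous. MODEL: copy the file and change it.
-/

namespace Pool.Agent.Lib.SL

open Finset Pool.Agent.Lib.EH3 Pool.Agent.Lib.TB Pool.Agent.Results.MP_00e23e_nt Pool.Agent.Lib.MI

/-- the summand after the phases modulo F1, F2 have been removed -/
noncomputable def wG (B u1 u2 : ℕ) (c c1 c2 : ℤ) (n1 n2 : ℕ) : ℂ := t1g c B n1 * t1g c1 u1 n1 * t1g c2 u2 n2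

/-- Module WPgn (theorem tWPgn; pigeonhole in a rectangle). Uses: nothing. MODEL: Lib/SL/VPgn.lean.
Proof. As in the MODEL with range T1 ×ˢ range T2 (T1 T2 elements). -/
def WPgnStmt : Prop := ∀ (B T1 T2 : ℕ) (l1 l2 : ℤ), 1 ≤ B → ∃ (A0 : Finset (ℕ × ℕ)) (c0 : ℤ),
  A0 ⊆ range T1 ×ˢ range T2 ∧ T1 * T2 ≤ B * A0.card ∧ ∀ b ∈ A0, (B : ℤ) ∣ l1 * b.1 - l2 * b.2 - c0

/-- Module WDif (theorem tWDif; differences of the elements of A0). Uses: nothing. MODEL: Lib/SL/VDif.lean.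
Proof. As in the MODEL: for b, b' ∈ A0 with b'.1 = b.1: B ∣ l2 (b'.2 - b.2), l2 is coprime to B, |b'.2 - b.2| < T2 ≤ B, so b' = b: b' ↦ b'.1 is injective on A0 with values in range T1. √gcd(z, k) ≤ ∑_{d ∣ k, d ∣ z} √d, so the sum is
≤ ∑_{d ∣ k} √d n_d, n_d = the number of b' ∈ A0, b' ≠ b, with d ∣ b'.1 - b.1: n_d ≤ T1/d (VDif_cnt) and n_d ≤ card A0. So (√d n_d)^2 = (d n_d) n_d ≤ T1 card A0, √d n_d ≤ √(T1 card A0), and there are τ(k) ≤ T terms. (k is arbitrary, k = k2 in the application.) -/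
def WDifStmt : Prop := ∀ (X T : ℝ) (B k T1 T2 : ℕ) (l1 l2 c0 : ℤ) (A0 : Finset (ℕ × ℕ)), Tau X T → (k : ℝ) ≤ X → 1 ≤ k →
  1 ≤ B → T2 ≤ B → Int.gcd l2 (B : ℤ) = 1 → A0 ⊆ range T1 ×ˢ range T2 →
  (∀ b ∈ A0, (B : ℤ) ∣ l1 * b.1 - l2 * b.2 - c0) → ∀ b ∈ A0,
  ∑ b' ∈ A0.erase b, Real.sqrt (Int.gcd ((b'.1 : ℤ) - b.1) (k : ℤ) : ℝ) ≤ Real.sqrt ((T1 : ℝ) * (A0.card : ℝ)) * T

open Classical in
/-- Module WCor (PROVED by helper28, Lib/SL/WCor.lean: theorem tWCor : EsStmt → SsbStmt → T1FhtStmt → WCorStmt; the correlations of two shifts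
a, a'). -/
def WCorStmt : Prop := ∃ C : ℝ, 0 < C ∧ ∃ A : ℕ, ∀ (X T : ℝ) (k2 k3 u1 u2 N : ℕ) (l c c1 c2 : ℤ) (a a' : ℕ × ℕ), Tau X T →
  Squarefree (k2 * k3) → Squarefree u1 → Squarefree u2 → (k2 * k3).Coprime u1 → (k2 * k3).Coprime u2 →
  Int.gcd l ((k2 * k3 : ℕ) : ℤ) = 1 → 1 ≤ N → (k2 : ℝ) * k3 * u1 * u2 ≤ X →
  a.1 ≤ N → a.2 ≤ N → a'.1 ≤ N → a'.2 ≤ N →
  ‖∑ m1 ∈ range (2 * N + 1), ∑ m2 ∈ range (2 * N + 1),
      if ((k2 * k3 : ℕ) : ℤ) ∣ ((m1 + a.1 : ℕ) : ℤ) - l * ((m2 + a.2 : ℕ) : ℤ) then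
        vBox N (wG (k2 * k3) u1 u2 c c1 c2) (m1 + a.1) (m2 + a.2) *
        (starRingEnd ℂ) (vBox N (wG (k2 * k3) u1 u2 c c1 c2) (m1 + a'.1) (m2 + a'.2)) else 0‖ ≤
    C * T ^ A * (Real.sqrt ((k2 : ℝ) * k3 * u1 * u2) + (N : ℝ) * Real.sqrt ((u1 : ℝ) / ((k2 : ℝ) * k3)) +
      (N : ℝ) * Real.sqrt ((u2 : ℝ) / ((k2 : ℝ) * k3)) +
      ((N : ℝ) + (N : ℝ) ^ 2 / ((k2 : ℝ) * k3)) *
        Real.sqrt ((Int.gcd c (k2 : ℤ) : ℝ) * (Int.gcd ((a'.1 : ℤ) - a.1) (k2 : ℤ) : ℝ) * k3 / ((k2 : ℝ) * k3)))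

/-- THE RESULT OF THE CHAPTER. B = k2 k3 is the modulus of the lattice, k2 = the part with a known numerator, k3 = the part with an
arbitrary one; F1, F2 = the divisors which are removed by the shifts. The form of the phases is the one of PhStmt (SL/DefC). -/
def EwStmt : Prop := ∃ C : ℝ, 0 < C ∧ ∃ A : ℕ, ∀ (X T e : ℝ) (k2 k3 F1 u1 F2 u2 T1 T2 N : ℕ) (l c1 c2 : ℤ), Tau X T →
  Squarefree (k2 * k3 * (F1 * u1)) → Squarefree (k2 * k3 * (F2 * u2)) → Int.gcd l ((k2 * k3 : ℕ) : ℤ) = 1 → 1 ≤ N →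
  1 ≤ T1 → 1 ≤ T2 → F1 * T1 ≤ N → F2 * T2 ≤ N → T2 ≤ k2 * k3 →
  100 * ((k2 : ℝ) * k3 * u1 * u2 * (N : ℝ) ^ 2) ≤ X →
  (k2 : ℝ) * k3 / ((T1 : ℝ) * T2) ≤ e → Real.sqrt ((k2 : ℝ) * k3 * u1 * u2) * ((k2 : ℝ) * k3) / (N : ℝ) ^ 2 ≤ e →
  Real.sqrt ((k2 : ℝ) * k3 * u1) / N ≤ e → Real.sqrt ((k2 : ℝ) * k3 * u2) / N ≤ e → Real.sqrt ((k3 : ℝ) / T2) ≤ e →
  ‖∑ n1 ∈ Ioc N (2 * N), ∑ n2 ∈ Ioc N (2 * N), if ((k2 * k3 : ℕ) : ℤ) ∣ (n1 : ℤ) - l * n2 then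
      t1g c1 (k2 * k3 * (F1 * u1)) n1 * t1g c2 (F2 * u2) n2 else 0‖ ≤
    C * T ^ A * ((N : ℝ) ^ 2 / ((k2 : ℝ) * k3)) * (1 + (k2 : ℝ) * k3 / N) *
      Real.sqrt (e * Real.sqrt (Int.gcd c1 (k2 : ℤ) : ℝ))

/-- Module WEw (theorem tWEw : WEwStmt). MODEL: Lib/SL/VEv.lean (many lemmas can be copied: norms, diagonal, gcd, root).
Proof. B = k2 k3, k2, k3, F_i, u_i ≥ 1 (squarefree). B, F1, u1 are pairwise coprime, also B, F2, u2. VPha twice for the first phase: t1g c1 (B (F1 u1)) n = t1g c B n * (t1g c' F1 n * t1g c'' u1 n), c = c1 iv (F1 u1) B, gcd(c, k2) = gcd(c1, k2) (iv (F1 u1) B is coprime to B), and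
t1g c2 (F2 u2) n = t1g d' F2 n * t1g d'' u2 n. The summand is φ n1 n2 * g n1 n2, φ n1 n2 = t1g c' F1 n1 * t1g d' F2 n2, g = wG B u1 u2 c c'' d''. WPgn with l1 = F1, l2 = l F2: A0 ⊆ range T1 ×ˢ range T2, c0, |A0| ≥ T1 T2/B > 0.
A1 := the image of A0 under b ↦ (F1 b.1, F2 b.2) (injective), or use VVdc with A0 and write the sums over A1. VVdc with D = 1, A0 := A1, P n1 n2 := B ∣ n1 - l n2, M m1 m2 := B ∣ 1 m1 - l m2 - (-c0): for a = (F1 b1, F2 b2) ∈ A1 (m1 + a.1) - l (m2 + a.2) - (m1 - l m2 + c0) = F1 b1 - l F2 b2 - c0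
is divisible by B; φ (m + a) = φ m (t1_g_add_mul: F1 ∣ a.1, F2 ∣ a.2); a.1 ≤ F1 T1 ≤ N, a.2 ≤ F2 T2 ≤ N; ‖φ‖ ≤ 1. K = 9 Λ, Λ = N (N/B + 1) = N^2/B + N (VCnt, l1 = 1). So |A0|^2 ‖S‖^2 ≤ 9 Λ ∑_{a,a' ∈ A1} ‖X(a,a')‖. a' = a: ≤ 9 Λ terms of norm ≤ 1: ‖X(a,a)‖ ≤ 9 Λ.
a' ≠ a: WCor (its condition is equivalent to M m1 m2; √(γ d k3/(k2 k3)) = √(γ/k2) √d); with γ = gcd(c, k2) and gcd(F1 b1' - F1 b1, k2) = gcd(b1' - b1, k2) (F1 is coprime to k2): ‖X(a,a')‖ ≤ C T^A Λ (3 e + √(γ/k2) √gcd(b1' - b1, k2)), since √(B u1 u2) ≤ e N^2/B ≤ e Λ and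
N √(u_i/B) = (N^2/B) (√(B u_i)/N) ≤ e Λ. WDif (k = k2, l1 = F1, l2 = l F2, coprime to B): ∑_{a' ≠ a} ‖X(a,a')‖ ≤ C T^A Λ (3 e |A0| + √(γ/k2) √(T1 |A0|) T). So ‖S‖^2 ≤ 9 Λ^2 (9/|A0| + C T^A (3 e + √γ T √(T1/(|A0| k2)))).
1/|A0| ≤ B/(T1 T2) ≤ e, T1/(|A0| k2) ≤ B/(T2 k2) = k3/T2, so √(..) ≤ e. γ ≥ 1: ‖S‖^2 ≤ 9 Λ^2 (9 + 4 C) T^(A+1) e √γ. Take the square root; Λ = (N^2/B)(1 + B/N), T ≥ 1. -/
def WEwStmt : Prop := WPgnStmt → WDifStmt → VVdcStmt → VCntStmt → VPhaStmt → WCorStmt → EwStmt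

end Pool.Agent.Lib.SL
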