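import Pool.Agent.Lib.SL.SpecW

/-!
MP_00e23e_nt, project SL: superseded by SpecW.lean (this file is intentionally empty).
-/
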