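import Pool.Agent.Lib.SL.Tonp

/-!
MP_00e23e_nt, project SL (single lock): T1Stmt of Lib/SLB/StmT.lean from SecStmt, PhStmt and EvStmt (helper83).
-/

namespace Pool.Agent.Lib.SL

open Finset Pool.Agent.Lib.EH3 Pool.Agent.Lib.TB Pool.Agent.Results.MP_00e23e_nt Pool.Agent.Lib.MI

theorem tTone (h1 : SecStmt) (h2 : PhStmt) (h3 : EvStmt) : SLB.T1Stmt := by
  obtain ⟨C1, hC1, A1, hSec⟩ := h1
  obtain ⟨C3, hC3, A3, hP⟩ := Tone_pair h2 h3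
  refine ⟨C1 * (1 + 9 * C3), by positivity, A1 + A3, ?_⟩
  intro X T a b1 b2 v r2 g R S N H V L L' Hs γ ω hTz hLt hL hLL hgL hLSV hr2
  obtain ⟨hT, ⟨hg, hR, hS, hN, hH, -, hV, -, hVS, hRN⟩, hX, hHs, hγ, hω, hND⟩ := hTz
  have hT1 : 1 ≤ T := hT.1
  have hT0 : 0 ≤ T := by linarith
  have hRR : (1 : ℝ) ≤ R := by exact_mod_cast hR
  have hSR : (1 : ℝ) ≤ S := by exact_mod_cast hS
  have hNR : (1 : ℝ) ≤ N := by exact_mod_cast hN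
  have hHR : (1 : ℝ) ≤ H := by exact_mod_cast hH
  have hVR : (1 : ℝ) ≤ V := by exact_mod_cast hV
  have hgR : (1 : ℝ) ≤ g := by exact_mod_cast hg
  have hLR : (2 : ℝ) ≤ L := by exact_mod_cast hL
  have hsL : 0 < Real.sqrt L := Real.sqrt_pos.2 (by linarith)
  have hssL : 0 < Real.sqrt (Real.sqrt L) := Real.sqrt_pos.2 hsL
  have hX2 : 4096 * ((R : ℝ) * (S : ℝ) ^ 2 * N * H) ^ 2 ≤ X := by
    refine le_trans ?_ hX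
    have h1 : (1 : ℝ) ≤ (R : ℝ) * (S : ℝ) ^ 2 * N * H := by
      have : (1 : ℝ) ≤ (S : ℝ) ^ 2 := one_le_pow₀ hSR
      have h2 : (1 : ℝ) ≤ (R : ℝ) * (S : ℝ) ^ 2 := one_le_mul_of_one_le_of_one_le hRR this
      exact one_le_mul_of_one_le_of_one_le (one_le_mul_of_one_le_of_one_le h2 hNR) hHR
    calc 4096 * ((R : ℝ) * (S : ℝ) ^ 2 * N * H) ^ 2
        ≤ 4096 * ((R : ℝ) * (S : ℝ) ^ 2 * N * H) ^ 12 := by
          apply mul_le_mul_of_nonneg_left _ (by norm_num)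
          exact pow_le_pow_right₀ h1 (by norm_num)
      _ = (2 * (R : ℝ) * (S : ℝ) ^ 2 * N * H) ^ 12 := by ring
  have hXa : 100 * (R : ℝ) ^ 2 * (S : ℝ) ^ 4 * (N : ℝ) ^ 2 * (H : ℝ) ^ 2 ≤ X := by
    refine le_trans ?_ hX2
    have : (0 : ℝ) ≤ ((R : ℝ) * (S : ℝ) ^ 2 * N * H) ^ 2 := by positivity
    calc 100 * (R : ℝ) ^ 2 * (S : ℝ) ^ 4 * (N : ℝ) ^ 2 * (H : ℝ) ^ 2
        = 100 * ((R : ℝ) * (S : ℝ) ^ 2 * N * H) ^ 2 := by ring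
      _ ≤ _ := by nlinarith
  have hXb : 3200 * ((R : ℝ) * (S : ℝ) ^ 4 * (N : ℝ) ^ 2) ≤ X := by
    refine le_trans ?_ hX2
    have e1 : (R : ℝ) * (S : ℝ) ^ 4 * (N : ℝ) ^ 2 ≤ ((R : ℝ) * (S : ℝ) ^ 2 * N * H) ^ 2 := by
      calc (R : ℝ) * (S : ℝ) ^ 4 * (N : ℝ) ^ 2 = (R * 1) * ((S : ℝ) ^ 4 * (N : ℝ) ^ 2) * 1 := by ring
        _ ≤ (R * R) * ((S : ℝ) ^ 4 * (N : ℝ) ^ 2) * (H * H) := by
            gcongr
            nlinarith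
        _ = _ := by ring
    have e2 : (0 : ℝ) ≤ (R : ℝ) * (S : ℝ) ^ 4 * (N : ℝ) ^ 2 := by positivity
    nlinarith
  set D : ℝ := C3 * T ^ A3 * ((N : ℝ) ^ 2 / (R * g)) * (9 * (g : ℝ) ^ 2) * (1 / Real.sqrt (Real.sqrt L)) with hD
  have hD0 : 0 ≤ D := by rw [hD]; positivity
  have hSu : ∀ h r s1 s2, r ∈ Ioc R (2 * R) → s1 ∈ Ioc S (2 * S) → s2 ∈ Ioc S (2 * S) → γ h r s1 s2 ≠ 0 →
      Su a b1 b2 (fun r => r) v g R V R S N r s1 s2 := by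
    intro h r s1 s2 hr hs1 hs2 h0
    obtain ⟨q1, q2, q3, q4, q5⟩ := hLt h r s1 s2 h0
    rw [mem_Ioc] at hr hs1 hs2
    exact ⟨hr, hs1, hs2, q1, q2, q3, q4, q5, hND h r s1 s2 h0⟩
  have hfin := hSec X T D a b1 b2 (fun r => r) v g R S N H R V Hs γ ω hT hD0 hg hR hS hN hH hR hV hRN hXa hHs hγ hω
    (fun h r s1 s2 _ hr hs1 hs2 h0 => hSu h r s1 s2 hr hs1 hs2 h0)
    (by
      intro h h' r s1 s2 r' s1' s2' _ _ h0 h0' _ _ hSu1 hSu2 hKy hTh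
      have hrr : r = r' := congrArg Prod.fst hKy
      subst hrr
      obtain ⟨k1, k2, k3⟩ := hr2 h r s1 s2 h0
      exact hP X T a b1 b2 v g R S N V L L' (r2 r) h h' r s1 s2 s1' s2' hT hg hR hS hN hV hVS hRN hXb hL hLL hgL hLSV
        k1 k2 k3 hSu1 hSu2 hKy hTh)
  refine hfin.trans ?_
  have hTA : (1 : ℝ) ≤ T ^ A3 := one_le_pow₀ hT1
  have e1 : (H : ℝ) ^ 2 / (g : ℝ) ^ 4 * ((R : ℝ) ^ 2 * D / ((R : ℝ) * (N : ℝ) ^ 2)) ≤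
      9 * C3 * T ^ A3 * (((H : ℝ) / g) ^ 2 * (1 / Real.sqrt (Real.sqrt L))) := by
    have e2 : (H : ℝ) ^ 2 / (g : ℝ) ^ 4 * ((R : ℝ) ^ 2 * D / ((R : ℝ) * (N : ℝ) ^ 2)) =
        9 * C3 * T ^ A3 * (((H : ℝ) / g) ^ 2 * (1 / Real.sqrt (Real.sqrt L))) * (1 / g) := by
      rw [hD]
      have : (R : ℝ) ≠ 0 := by positivity
      have : (N : ℝ) ≠ 0 := by positivity
      have : (g : ℝ) ≠ 0 := by positivity
      field_simp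
    rw [e2]
    have h5 : 0 ≤ 9 * C3 * T ^ A3 * (((H : ℝ) / g) ^ 2 * (1 / Real.sqrt (Real.sqrt L))) := by positivity
    have h6 : 1 / (g : ℝ) ≤ 1 := by
      rw [div_le_one (by linarith)]
      exact hgR
    calc _ ≤ 9 * C3 * T ^ A3 * (((H : ℝ) / g) ^ 2 * (1 / Real.sqrt (Real.sqrt L))) * 1 :=
          mul_le_mul_of_nonneg_left h6 h5
      _ = _ := mul_one _
  have e3 : (H : ℝ) / ((V : ℝ) ^ 2 * (g : ℝ) ^ 3) ≤ T ^ A3 * ((H : ℝ) / ((V : ℝ) ^ 2 * (g : ℝ) ^ 3)) := by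
    have : 0 ≤ (H : ℝ) / ((V : ℝ) ^ 2 * (g : ℝ) ^ 3) := by positivity
    nlinarith
  set P := (H : ℝ) / ((V : ℝ) ^ 2 * (g : ℝ) ^ 3) with hP'
  set Q := ((H : ℝ) / g) ^ 2 * (1 / Real.sqrt (Real.sqrt L)) with hQ'
  have hP0 : 0 ≤ P := by rw [hP']; positivity
  have hQ0 : 0 ≤ Q := by rw [hQ']; positivity
  have e4 : P + (H : ℝ) ^ 2 / (g : ℝ) ^ 4 * ((R : ℝ) ^ 2 * D / ((R : ℝ) * (N : ℝ) ^ 2)) ≤
      (1 + 9 * C3) * T ^ A3 * (P + Q) := by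
    calc _ ≤ T ^ A3 * P + 9 * C3 * T ^ A3 * Q := add_le_add e3 e1
      _ ≤ (1 + 9 * C3) * T ^ A3 * (P + Q) := by
          have : 0 ≤ T ^ A3 := by positivity
          have h7 : 0 ≤ T ^ A3 * P := by positivity
          have h8 : 0 ≤ T ^ A3 * Q := by positivity
          have h9 : 0 ≤ C3 * (T ^ A3 * P) := by positivity
          nlinarith
  calc C1 * T ^ A1 * ((S : ℝ) ^ 2 * (N : ℝ) ^ 2) ^ 2 *
        (P + (H : ℝ) ^ 2 / (g : ℝ) ^ 4 * ((R : ℝ) ^ 2 * D / ((R : ℝ) * (N : ℝ) ^ 2)))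
      ≤ C1 * T ^ A1 * ((S : ℝ) ^ 2 * (N : ℝ) ^ 2) ^ 2 * ((1 + 9 * C3) * T ^ A3 * (P + Q)) :=
        mul_le_mul_of_nonneg_left e4 (by positivity)
    _ = C1 * (1 + 9 * C3) * T ^ (A1 + A3) * ((S : ℝ) ^ 2 * (N : ℝ) ^ 2) ^ 2 * (P + Q) := by
        rw [pow_add]; ring

end Pool.Agent.Lib.SL
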