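import Pool.Agent.Lib.SL.DefC
import Pool.Agent.Lib.SL.VPha
import Pool.Agent.Lib.SLB.StmT

/-!
MP_00e23e_nt, project SL (single lock): the pair sums of case II (for Tone.lean; helper83).
-/

namespace Pool.Agent.Lib.SL

open Finset Pool.Agent.Lib.EH3 Pool.Agent.Lib.TB Pool.Agent.Results.MP_00e23e_nt Pool.Agent.Lib.MI

/-- the numerator modulo a divisor F of B is not changed by the unit iv w B -/
lemma Tone_gcd {c : ℤ} {B w F : ℕ} (hB : 1 ≤ B) (hw : w.Coprime B) (hF : F ∣ B) :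
    Int.gcd (c * (iv w B : ℤ)) F = Int.gcd c F := by
  have h1 : (B : ℤ) ∣ (iv w B : ℤ) * w - 1 := iv_dvd hw hB
  have h2 : (F : ℤ) ∣ (iv w B : ℤ) * w - 1 := (Int.natCast_dvd_natCast.2 hF).trans h1
  have h3 : IsCoprime (iv w B : ℤ) (F : ℤ) := by
    obtain ⟨k, hk⟩ := h2
    exact ⟨w, -k, by linear_combination hk⟩
  have h4 : Nat.Coprime (iv w B) F := Nat.isCoprime_iff_coprime.1 h3
  rw [Int.gcd_comm, Int.gcd_comm c]
  unfold Int.gcd
  rw [Int.natAbs_mul, Int.natAbs_natCast, Int.natAbs_natCast]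
  exact Nat.Coprime.gcd_mul_right_cancel_right _ h4

/-- the sum of a pair in case II -/
lemma Tone_pair (h2 : PhStmt) (h3 : EvStmt) : ∃ C : ℝ, 0 < C ∧ ∃ A : ℕ, ∀ (X T : ℝ) (a b1 b2 : ℕ → ℕ → ℤ)
    (v : ℕ → ℕ → ℕ) (g R S N V L L' F : ℕ) (h h' : ℤ) (r s1 s2 s1' s2' : ℕ), Tau X T → 1 ≤ g → 1 ≤ R → 1 ≤ S → 1 ≤ N →
    1 ≤ V → V ≤ S → R ≤ N → 3200 * ((R : ℝ) * (S : ℝ) ^ 4 * (N : ℝ) ^ 2) ≤ X → 2 ≤ L → L ≤ L' → g ^ 4 ≤ L →
    16 * L' * S * V ≤ N → F ∣ r → L < F → F ≤ L' →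
    Su a b1 b2 (fun r => r) v g R V R S N r s1 s2 → Su a b1 b2 (fun r => r) v g R V R S N r s1' s2' →
    Ky (fun r => r) v r s1 s2 = Ky (fun r => r) v r s1' s2' →
    Th (fun r => r) v h h' r s1 s2 r s1' s2' ≠ 0 →
    ‖∑ n1 ∈ Ioc N (2 * N), ∑ n2 ∈ Ioc N (2 * N),
      Fp a g h r s1 s2 n1 n2 * (starRingEnd ℂ) (Fp a g h' r s1' s2' n1 n2)‖ ≤
      C * T ^ A * ((N : ℝ) ^ 2 / (R * g)) * (9 * (g : ℝ) ^ 2) * (1 / Real.sqrt (Real.sqrt L)) *
        (Int.gcd (Th (fun r => r) v h h' r s1 s2 r s1' s2') r : ℝ) := by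
  obtain ⟨C, hC, A, hEv⟩ := h3
  refine ⟨C, hC, A, ?_⟩
  intro X T a b1 b2 v g R S N V L L' F h h' r s1 s2 s1' s2' hT hg hR hS hN hV hVS hRN hX hL hLL hgL hLSV hFr hFL hFL'
    hSu hSu' hKy hTh
  have hT0 : 0 ≤ T := by linarith [hT.1]
  have hRR : (1 : ℝ) ≤ R := by exact_mod_cast hR
  have hSR : (1 : ℝ) ≤ S := by exact_mod_cast hS
  have hNR : (1 : ℝ) ≤ N := by exact_mod_cast hN
  have hVR : (1 : ℝ) ≤ V := by exact_mod_cast hV
  have hgR : (1 : ℝ) ≤ g := by exact_mod_cast hg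
  have hLR : (2 : ℝ) ≤ L := by exact_mod_cast hL
  have hr1 : R < r := hSu.1.1
  have hr2 : r ≤ 2 * R := hSu.1.2
  have hrpos : 0 < r := by omega
  have hγ : 1 ≤ Int.gcd (Th (fun r => r) v h h' r s1 s2 r s1' s2') r :=
    Int.gcd_pos_of_ne_zero_left _ hTh
  have hγR : (1 : ℝ) ≤ (Int.gcd (Th (fun r => r) v h h' r s1 s2 r s1' s2') r : ℝ) := by exact_mod_cast hγ
  rcases h2 a b1 b2 (fun r => r) v g R V R S N h h' r s1 s2 r s1' s2' hg hR hV hSu hSu' hKy with h0 | hex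
  · have : ∑ n1 ∈ Ioc N (2 * N), ∑ n2 ∈ Ioc N (2 * N),
        Fp a g h r s1 s2 n1 n2 * (starRingEnd ℂ) (Fp a g h' r s1' s2' n1 n2) = 0 :=
      sum_eq_zero fun n1 _ => sum_eq_zero fun n2 _ => h0 n1 n2
    rw [this, norm_zero]
    positivity
  · obtain ⟨B, w1, w2, l, c1, c2, hB, hBw1, hBw2, hsq1, hsq2, hl, hw1, hw2, hgw1, hgw2, hRgB, -, hcg, hprod⟩ := hex
    have hB' : B = r * g := by
      rw [hB, Nat.div_self hrpos, Nat.lcm_self, mul_one]
    -- the factorisation B = F D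
    obtain ⟨E, hE⟩ := hFr
    set D := E * g with hD
    have hFD : F * D = B := by rw [hD, hB', hE]; ring
    have hFpos : 0 < F := by omega
    have hBpos : 0 < B := by omega
    have hsB : Squarefree B := hsq1.squarefree_of_dvd (dvd_mul_right _ _)
    have hsw1 : Squarefree w1 := hsq1.squarefree_of_dvd (dvd_mul_left _ _)
    have hsw2 : Squarefree w2 := hsq2.squarefree_of_dvd (dvd_mul_left _ _)
    have hc1 : B.Coprime w1 := Nat.coprime_of_squarefree_mul hsq1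
    have hc2 : B.Coprime w2 := Nat.coprime_of_squarefree_mul hsq2
    have hDN : D ≤ N := by
      have h2g : 2 * g ≤ F := by
        rcases Nat.lt_or_ge g 2 with hg2 | hg2
        · omega
        · have : 2 * g ≤ g ^ 4 := by
            calc 2 * g ≤ g * g := Nat.mul_le_mul_right _ hg2
              _ = g ^ 2 := by ring
              _ ≤ g ^ 4 := Nat.pow_le_pow_right (by omega) (by norm_num)
          omega
      have h5 : F * D ≤ F * N := by
        calc F * D = r * g := by rw [hFD, hB']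
          _ ≤ (2 * R) * g := Nat.mul_le_mul_right _ hr2
          _ = R * (2 * g) := by ring
          _ ≤ N * F := Nat.mul_le_mul hRN h2g
          _ = F * N := by ring
      exact Nat.le_of_mul_le_mul_left h5 hFpos
    have hBR : (B : ℝ) = r * g := by rw [hB']; push_cast; ring
    have hrR : (r : ℝ) ≤ 2 * R := by exact_mod_cast hr2
    have hrR' : (R : ℝ) ≤ r := by exact_mod_cast hr1.le
    have hRNR : (R : ℝ) ≤ N := by exact_mod_cast hRN
    have hBle : (B : ℝ) ≤ 2 * N * g := by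
      rw [hBR]
      have : (r : ℝ) ≤ 2 * N := by linarith
      exact mul_le_mul_of_nonneg_right this (by linarith)
    have hBge : (R : ℝ) * g ≤ B := by
      rw [hBR]
      exact mul_le_mul_of_nonneg_right hrR' (by linarith)
    have hBpR : (0 : ℝ) < B := by exact_mod_cast hBpos
    have hgw1R : (g : ℝ) * w1 ≤ 4 * S * V := by exact_mod_cast hgw1
    have hgw2R : (g : ℝ) * w2 ≤ 4 * S * V := by exact_mod_cast hgw2
    have hw1R : (1 : ℝ) ≤ w1 := by exact_mod_cast hw1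
    have hw2R : (1 : ℝ) ≤ w2 := by exact_mod_cast hw2
    have hw1le : (w1 : ℝ) ≤ 4 * S * V := by nlinarith
    have hw2le : (w2 : ℝ) ≤ 4 * S * V := by nlinarith
    have hLSVR : 16 * (L' : ℝ) * S * V ≤ N := by exact_mod_cast hLSV
    have hFR : (F : ℝ) ≤ L' := by exact_mod_cast hFL'
    have hFR' : (L : ℝ) ≤ F := by exact_mod_cast hFL.le
    have hLL' : (L : ℝ) ≤ L' := by exact_mod_cast hLL
    have hFpR : (0 : ℝ) < F := by linarith
    have hSV1 : (1 : ℝ) ≤ (S : ℝ) * V := by nlinarith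
    have hVSR : (V : ℝ) ≤ S := by exact_mod_cast hVS
    have hsL : 0 < Real.sqrt L := Real.sqrt_pos.2 (by linarith)
    have hssL : 0 < Real.sqrt (Real.sqrt L) := Real.sqrt_pos.2 hsL
    -- the two phases
    have hph : ∀ n : ℕ, t1g c1 (B * w1) n = t1g (c1 * (iv w1 B : ℤ)) (F * D) n * t1g (c1 * (iv B w1 : ℤ)) w1 n := by
      intro n
      rw [hFD]
      exact tVPha c1 B w1 n hBpos hw1 hc1
    have hsum : ∑ n1 ∈ Ioc N (2 * N), ∑ n2 ∈ Ioc N (2 * N),
        Fp a g h r s1 s2 n1 n2 * (starRingEnd ℂ) (Fp a g h' r s1' s2' n1 n2) =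
        ∑ n1 ∈ Ioc N (2 * N), ∑ n2 ∈ Ioc N (2 * N), if ((F * D : ℕ) : ℤ) ∣ (n1 : ℤ) - l * n2 then
          t1g (c1 * (iv w1 B : ℤ)) (F * D) n1 * t1g (c1 * (iv B w1 : ℤ)) w1 n1 * t1g c2 w2 n2 else 0 := by
      refine sum_congr rfl fun n1 hn1 => sum_congr rfl fun n2 hn2 => ?_
      rw [mem_Ioc] at hn1 hn2
      rw [hprod n1 n2 (by omega) (by omega), hFD, hph n1, hFD]
    have hXX : 100 * ((F : ℝ) * D * w1 * w2 * (N : ℝ) ^ 2) ≤ X := by
      refine le_trans ?_ hX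
      have e1 : (F : ℝ) * D = r * g := by
        rw [← hBR, ← hFD]; push_cast; ring
      have e2 : (F : ℝ) * D * w1 * w2 ≤ 32 * (R * (S : ℝ) ^ 4) := by
        calc (F : ℝ) * D * w1 * w2 = r * ((g * w1) * w2) := by rw [e1]; ring
          _ ≤ (2 * R) * ((4 * S * V) * (4 * S * V)) := by
              apply mul_le_mul hrR _ (by positivity) (by positivity)
              exact mul_le_mul hgw1R hw2le (by positivity) (by positivity)
          _ = 32 * (R * ((S : ℝ) ^ 2 * ((V : ℝ) ^ 2))) := by ring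
          _ ≤ 32 * (R * ((S : ℝ) ^ 2 * ((S : ℝ) ^ 2))) := by gcongr
          _ = 32 * (R * (S : ℝ) ^ 4) := by ring
      calc 100 * ((F : ℝ) * D * w1 * w2 * (N : ℝ) ^ 2) ≤ 100 * (32 * (R * (S : ℝ) ^ 4) * (N : ℝ) ^ 2) := by gcongr
        _ = 3200 * ((R : ℝ) * (S : ℝ) ^ 4 * (N : ℝ) ^ 2) := by ring
    have hsqLN : Real.sqrt L ≤ Real.sqrt N := by
      apply Real.sqrt_le_sqrt
      have : (L' : ℝ) ≤ 16 * (L' : ℝ) * S * V := by
        have : (0 : ℝ) ≤ L' := by linarith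
        nlinarith
      linarith
    have hsN : 0 < Real.sqrt N := Real.sqrt_pos.2 (by linarith)
    have hone : ∀ w : ℝ, 0 ≤ w → w ≤ 4 * S * V → Real.sqrt ((F : ℝ) * w) / N ≤ 1 / Real.sqrt L := by
      intro w hw0 hw
      have e1 : (F : ℝ) * w ≤ N := by
        calc (F : ℝ) * w ≤ L' * (4 * S * V) := mul_le_mul hFR hw hw0 (by linarith)
          _ ≤ 16 * (L' : ℝ) * S * V := by
              have : (0 : ℝ) ≤ L' * (S * V) := by positivity
              nlinarith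
          _ ≤ N := hLSVR
      have e2 : Real.sqrt ((F : ℝ) * w) ≤ Real.sqrt N := Real.sqrt_le_sqrt e1
      calc Real.sqrt ((F : ℝ) * w) / N ≤ Real.sqrt N / N := by gcongr
        _ = 1 / Real.sqrt N := by
            rw [div_eq_div_iff (by linarith) (by linarith), one_mul]
            exact Real.mul_self_sqrt (by linarith)
        _ ≤ 1 / Real.sqrt L := one_div_le_one_div_of_le hsL hsqLN
    have hc3 : Real.sqrt ((F : ℝ) * w1 * w2) * ((F : ℝ) * D) / (N : ℝ) ^ 2 ≤ 1 / Real.sqrt L := by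
      have e1 : (F : ℝ) * D = B := by rw [← hFD]; push_cast; ring
      have e2 : Real.sqrt ((F : ℝ) * w1 * w2) * g ≤ Real.sqrt F * (4 * S * V) := by
        have e3 : Real.sqrt ((F : ℝ) * w1 * w2) * g = Real.sqrt F * Real.sqrt ((g * w1) * (g * w2)) := by
          have k1 : Real.sqrt F * Real.sqrt ((g * w1) * (g * w2)) = Real.sqrt ((F : ℝ) * ((g * w1) * (g * w2))) :=
            (Real.sqrt_mul (by linarith) _).symm
          have k2 : (F : ℝ) * ((g * w1) * (g * w2)) = ((F : ℝ) * w1 * w2) * ((g : ℝ) * g) := by ring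
          have k3 : (0 : ℝ) ≤ (F : ℝ) * w1 * w2 := by positivity
          rw [k1, k2, Real.sqrt_mul k3 ((g : ℝ) * g), Real.sqrt_mul_self (by linarith)]
        rw [e3]
        apply mul_le_mul_of_nonneg_left _ (Real.sqrt_nonneg _)
        calc Real.sqrt ((g * w1) * (g * w2)) ≤ Real.sqrt ((4 * S * V) * (4 * S * V)) :=
              Real.sqrt_le_sqrt (mul_le_mul hgw1R hgw2R (by positivity) (by positivity))
          _ = 4 * S * V := Real.sqrt_mul_self (by positivity)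
      have e4 : Real.sqrt ((F : ℝ) * w1 * w2) * B ≤ 2 * N * (Real.sqrt F * (4 * S * V)) := by
        calc Real.sqrt ((F : ℝ) * w1 * w2) * B ≤ Real.sqrt ((F : ℝ) * w1 * w2) * (2 * N * g) :=
              mul_le_mul_of_nonneg_left hBle (Real.sqrt_nonneg _)
          _ = 2 * N * (Real.sqrt ((F : ℝ) * w1 * w2) * g) := by ring
          _ ≤ _ := mul_le_mul_of_nonneg_left e2 (by linarith)
      have e5 : Real.sqrt F * Real.sqrt L ≤ L' := by
        calc Real.sqrt F * Real.sqrt L ≤ Real.sqrt L' * Real.sqrt L' :=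
              mul_le_mul (Real.sqrt_le_sqrt hFR) (Real.sqrt_le_sqrt hLL') (Real.sqrt_nonneg _) (Real.sqrt_nonneg _)
          _ = L' := Real.mul_self_sqrt (by linarith)
      rw [e1, div_le_div_iff₀ (by positivity) hsL, one_mul]
      calc Real.sqrt ((F : ℝ) * w1 * w2) * B * Real.sqrt L
          ≤ (2 * N * (Real.sqrt F * (4 * S * V))) * Real.sqrt L := mul_le_mul_of_nonneg_right e4 hsL.le
        _ = 8 * N * ((S * V) * (Real.sqrt F * Real.sqrt L)) := by ring
        _ ≤ 8 * N * ((S * V) * L') := by gcongr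
        _ = N * (8 * (L' : ℝ) * S * V) := by ring
        _ ≤ N * N := by
            apply mul_le_mul_of_nonneg_left _ (by linarith)
            have : (0 : ℝ) ≤ (L' : ℝ) * S * V := by positivity
            nlinarith
        _ = (N : ℝ) ^ 2 := by ring
    have hmain := hEv X T (1 / Real.sqrt L) F D w1 w2 N l (c1 * (iv w1 B : ℤ)) (c1 * (iv B w1 : ℤ)) c2 hT
      (by rw [hFD]; exact hsB) hsw1 hsw2 (by rw [hFD]; exact hc1) (by rw [hFD]; exact hc2) (by rw [hFD]; exact hl)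
      hN hDN hXX
      (one_div_le_one_div_of_le hsL (Real.sqrt_le_sqrt hFR')) hc3
      (hone w1 (by linarith) hw1le) (hone w2 (by linarith) hw2le)
    rw [hsum]
    refine hmain.trans ?_
    have hgg : Int.gcd (c1 * (iv w1 B : ℤ)) F = Int.gcd (Th (fun r => r) v h h' r s1 s2 r s1' s2') F := by
      have hFB : F ∣ B := ⟨D, hFD.symm⟩
      rw [Tone_gcd hBpos hc1.symm hFB]
      exact hcg F ⟨E, hE⟩
    have hgle : (Int.gcd (c1 * (iv w1 B : ℤ)) F : ℝ) ≤ (Int.gcd (Th (fun r => r) v h h' r s1 s2 r s1' s2') r : ℝ) := by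
      rw [hgg]
      have hdv : Int.gcd (Th (fun r => r) v h h' r s1 s2 r s1' s2') F ∣
          Int.gcd (Th (fun r => r) v h h' r s1 s2 r s1' s2') r := by
        unfold Int.gcd
        rw [Int.natAbs_natCast, Int.natAbs_natCast]
        exact Nat.gcd_dvd_gcd_of_dvd_right _ ⟨E, hE⟩
      exact_mod_cast Nat.le_of_dvd hγ hdv
    have e1 : (F : ℝ) * D = B := by rw [← hFD]; push_cast; ring
    rw [e1]
    have f1 : (N : ℝ) ^ 2 / B ≤ (N : ℝ) ^ 2 / (R * g) := by
      apply div_le_div_of_nonneg_left (by positivity) (by positivity) hBge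
    have f2 : (1 + (B : ℝ) / N) ^ 2 ≤ 9 * (g : ℝ) ^ 2 := by
      have : (B : ℝ) / N ≤ 2 * g := by
        rw [div_le_iff₀ (by linarith)]
        linarith
      have h3 : 1 + (B : ℝ) / N ≤ 3 * g := by linarith
      calc (1 + (B : ℝ) / N) ^ 2 ≤ (3 * (g : ℝ)) ^ 2 := by gcongr
        _ = 9 * (g : ℝ) ^ 2 := by ring
    have f3 : Real.sqrt (1 / Real.sqrt L * Real.sqrt (Int.gcd (c1 * (iv w1 B : ℤ)) F : ℝ)) ≤
        1 / Real.sqrt (Real.sqrt L) * (Int.gcd (Th (fun r => r) v h h' r s1 s2 r s1' s2') r : ℝ) := by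
      rw [Real.sqrt_mul (by positivity)]
      have g1 : Real.sqrt (1 / Real.sqrt L) = 1 / Real.sqrt (Real.sqrt L) := by
        rw [Real.sqrt_div zero_le_one, Real.sqrt_one]
      rw [g1]
      apply mul_le_mul_of_nonneg_left _ (by positivity)
      have g2 : Real.sqrt (Int.gcd (c1 * (iv w1 B : ℤ)) F : ℝ) ≤
          (Int.gcd (Th (fun r => r) v h h' r s1 s2 r s1' s2') r : ℝ) := by
        rw [Real.sqrt_le_left (by linarith)]
        nlinarith
      rw [Real.sqrt_le_left (by linarith)]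
      nlinarith
    calc C * T ^ A * ((N : ℝ) ^ 2 / B) * (1 + (B : ℝ) / N) ^ 2 *
          Real.sqrt (1 / Real.sqrt L * Real.sqrt (Int.gcd (c1 * (iv w1 B : ℤ)) F : ℝ))
        ≤ C * T ^ A * ((N : ℝ) ^ 2 / (R * g)) * (9 * (g : ℝ) ^ 2) *
          (1 / Real.sqrt (Real.sqrt L) * (Int.gcd (Th (fun r => r) v h h' r s1 s2 r s1' s2') r : ℝ)) := by
          gcongr
      _ = _ := by ring

end Pool.Agent.Lib.SL
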