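import Pool.Agent.Lib.SL.DefK
import Pool.Agent.Lib.SL.SpecW
import Pool.Agent.Lib.SLB.StmK

/-!
MP_00e23e_nt, project SL, chapter T, phase 2 (helper54; copy of Ttw.lean): TwKStmt (case II, lock with colours) from the second Cauchy
inequality (SecKStmt), the phase identity (PhStmt) and the van der Corput step EwStmt with k2 = r, k3 = g, F1 = u1/gcd(u1, g), F2 = f/gcd(f, g).
-/

namespace Pool.Agent.Lib.SL

open Finset Pool.Agent.Lib.EH3 Pool.Agent.Lib.TB Pool.Agent.Results.MP_00e23e_nt Pool.Agent.Lib.MI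

/-! ### arithmetic -/

private lemma TtwK_cop {f g : ℕ} (hf : Squarefree f) : (f / Nat.gcd f g).Coprime g := by
  have hf0 : 0 < f := Nat.pos_of_ne_zero hf.ne_zero
  have hd : 0 < Nat.gcd f g := Nat.gcd_pos_of_pos_left _ hf0
  have h1 : Nat.gcd f g * (f / Nat.gcd f g) = f := Nat.mul_div_cancel' (Nat.gcd_dvd_left f g)
  have h2 : (Nat.gcd f g).Coprime (f / Nat.gcd f g) := by
    rw [← h1] at hf
    exact (Nat.squarefree_mul_iff.1 hf).1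
  have h3 : (f / Nat.gcd f g).Coprime (g / Nat.gcd f g) := Nat.coprime_div_gcd_div_gcd hd
  have h4 : Nat.gcd f g * (g / Nat.gcd f g) = g := Nat.mul_div_cancel' (Nat.gcd_dvd_right f g)
  have h5 : (f / Nat.gcd f g).Coprime (Nat.gcd f g * (g / Nat.gcd f g)) := Nat.Coprime.mul_right h2.symm h3
  rwa [h4] at h5

private lemma TtwK_dvd {f g s s' r w : ℕ} (hr : 1 ≤ r) (hf : Squarefree f) (hfs : f ∣ s)
    (hw : r * g * w = Nat.lcm (r * s) (r * s')) : f / Nat.gcd f g ∣ w := by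
  have h1 : f / Nat.gcd f g ∣ s := (Nat.div_dvd_of_dvd (Nat.gcd_dvd_left f g)).trans hfs
  have h2 : r * (f / Nat.gcd f g) ∣ r * (g * w) := by
    rw [← mul_assoc r g w, hw]
    exact (Nat.mul_dvd_mul_left r h1).trans (Nat.dvd_lcm_left _ _)
  have h3 : f / Nat.gcd f g ∣ g * w := Nat.dvd_of_mul_dvd_mul_left (by omega) h2
  exact (TtwK_cop hf).dvd_of_dvd_mul_left h3

private lemma TtwK_size {u v1 v1' g w x V r : ℕ} (hr : 1 ≤ r) (hg : 1 ≤ g) (hu : 1 ≤ u)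
    (hw : r * g * w = Nat.lcm (r * (u * v1)) (r * (u * v1'))) (hx : w = u / Nat.gcd u g * x) (h1 : v1 ≤ 2 * V)
    (h2 : v1' ≤ 2 * V) : x ≤ 4 * V ^ 2 := by
  have hd0 : 0 < Nat.gcd u g := Nat.gcd_pos_of_pos_left _ hu
  have hdg : Nat.gcd u g ≤ g := Nat.gcd_le_right _ hg
  have e1 : Nat.gcd u g * (u / Nat.gcd u g) = u := Nat.mul_div_cancel' (Nat.gcd_dvd_left u g)
  have hF0 : 0 < u / Nat.gcd u g := Nat.div_pos (Nat.gcd_le_left _ hu) hd0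
  have e2 : Nat.lcm (r * (u * v1)) (r * (u * v1')) = r * (u * Nat.lcm v1 v1') := by
    rw [Nat.lcm_mul_left, Nat.lcm_mul_left]
  have e3 : g * w = u * Nat.lcm v1 v1' := by
    rw [e2, mul_assoc] at hw
    exact Nat.eq_of_mul_eq_mul_left (by omega) hw
  have e4 : Nat.lcm v1 v1' ≤ v1 * v1' := by
    rcases Nat.eq_zero_or_pos v1 with h0 | h0
    · rw [h0]
      simp
    · rcases Nat.eq_zero_or_pos v1' with h0' | h0'
      · rw [h0']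
        simp
      · exact Nat.le_of_dvd (Nat.mul_pos h0 h0') (Nat.lcm_dvd_mul _ _)
  have e5 : v1 * v1' ≤ 4 * V ^ 2 := by
    calc v1 * v1' ≤ (2 * V) * (2 * V) := Nat.mul_le_mul h1 h2
      _ = 4 * V ^ 2 := by ring
  obtain ⟨F, hF⟩ : ∃ F, F = u / Nat.gcd u g := ⟨_, rfl⟩
  rw [← hF] at hF0 e1 hx
  have e6 : (g * F) * x ≤ (g * F) * (4 * V ^ 2) := by
    calc (g * F) * x = g * w := by rw [hx]; ring
      _ = u * Nat.lcm v1 v1' := e3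
      _ ≤ u * (4 * V ^ 2) := Nat.mul_le_mul_left _ (e4.trans e5)
      _ = (Nat.gcd u g * F) * (4 * V ^ 2) := by rw [e1]
      _ ≤ (g * F) * (4 * V ^ 2) := Nat.mul_le_mul_right _ (Nat.mul_le_mul_right _ hdg)
  exact Nat.le_of_mul_le_mul_left e6 (Nat.mul_pos (by omega) hF0)

private lemma TtwK_div {R F : ℕ} (hF : 1 ≤ F) (hFR : F ≤ R) : 1 ≤ R / F ∧ R ≤ 2 * F * (R / F) ∧ F * (R / F) ≤ R := by
  have h1 : 1 ≤ R / F := Nat.div_pos hFR hF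
  refine ⟨h1, ?_, Nat.mul_div_le R F⟩
  have h2 : R < F * (R / F + 1) := Nat.lt_mul_div_succ R hF
  nlinarith

/-! ### the size of e -/

private lemma TtwK_e {r g F1 x1 F2 x2 T1 T2 R S N V L L' : ℕ} (hR : 1 ≤ R) (hg : 1 ≤ g) (hN : 1 ≤ N) (hV : 1 ≤ V)
    (hL : 1 ≤ L) (hr : r ≤ 2 * R) (hF1 : F1 * V ≤ 2 * S) (hx1 : x1 ≤ 4 * V ^ 2) (hx2 : L * x2 ≤ 4 * S * V)
    (hF2 : F2 ≤ L') (hT1 : 1 ≤ T1) (hT2 : 1 ≤ T2) (hRT1 : R ≤ 2 * F1 * T1) (hRT2 : R ≤ 2 * F2 * T2) :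
    (r : ℝ) * g / ((T1 : ℝ) * T2) ≤ 16 * (g : ℝ) ^ 2 * SLB.EW R S N V L L' ∧
    Real.sqrt ((r : ℝ) * g * x1 * x2) * ((r : ℝ) * g) / (N : ℝ) ^ 2 ≤ 16 * (g : ℝ) ^ 2 * SLB.EW R S N V L L' ∧
    Real.sqrt ((r : ℝ) * g * x1) / N ≤ 16 * (g : ℝ) ^ 2 * SLB.EW R S N V L L' ∧
    Real.sqrt ((r : ℝ) * g * x2) / N ≤ 16 * (g : ℝ) ^ 2 * SLB.EW R S N V L L' ∧
    Real.sqrt ((g : ℝ) / T2) ≤ 16 * (g : ℝ) ^ 2 * SLB.EW R S N V L L' := by
  have hR' : (1 : ℝ) ≤ R := by exact_mod_cast hR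
  have hg' : (1 : ℝ) ≤ g := by exact_mod_cast hg
  have hN' : (1 : ℝ) ≤ N := by exact_mod_cast hN
  have hV' : (1 : ℝ) ≤ V := by exact_mod_cast hV
  have hL' : (1 : ℝ) ≤ L := by exact_mod_cast hL
  have hr' : (r : ℝ) ≤ 2 * R := by exact_mod_cast hr
  have hF1' : (F1 : ℝ) * V ≤ 2 * S := by exact_mod_cast hF1
  have hx1' : (x1 : ℝ) ≤ 4 * (V : ℝ) ^ 2 := by exact_mod_cast hx1
  have hx2' : (L : ℝ) * x2 ≤ 4 * S * V := by exact_mod_cast hx2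
  have hF2' : (F2 : ℝ) ≤ L' := by exact_mod_cast hF2
  have hT1' : (1 : ℝ) ≤ T1 := by exact_mod_cast hT1
  have hT2' : (1 : ℝ) ≤ T2 := by exact_mod_cast hT2
  have hRT1' : (R : ℝ) ≤ 2 * F1 * T1 := by exact_mod_cast hRT1
  have hRT2' : (R : ℝ) ≤ 2 * F2 * T2 := by exact_mod_cast hRT2
  have R0 : (0 : ℝ) < R := by linarith
  have g0 : (0 : ℝ) < g := by linarith
  have N0 : (0 : ℝ) < N := by linarith
  have V0 : (0 : ℝ) < V := by linarith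
  have L0 : (0 : ℝ) < L := by linarith
  have T10 : (0 : ℝ) < T1 := by linarith
  have T20 : (0 : ℝ) < T2 := by linarith
  have S0 : (0 : ℝ) ≤ S := Nat.cast_nonneg _
  have gg : (g : ℝ) ≤ (g : ℝ) ^ 2 := by nlinarith
  have sR : 0 < Real.sqrt (R : ℝ) := Real.sqrt_pos.2 R0
  have sL : 0 < Real.sqrt (L : ℝ) := Real.sqrt_pos.2 L0
  obtain ⟨t1, ht1⟩ : ∃ t : ℝ, t = (S : ℝ) * L' / ((V : ℝ) * R) := ⟨_, rfl⟩
  obtain ⟨t2, ht2⟩ : ∃ t : ℝ, t = (R : ℝ) * Real.sqrt R * Real.sqrt S * ((V : ℝ) * Real.sqrt V) /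
    (Real.sqrt L * (N : ℝ) ^ 2) := ⟨_, rfl⟩
  obtain ⟨t3, ht3⟩ : ∃ t : ℝ, t = Real.sqrt ((R : ℝ) * S * V / L) / N := ⟨_, rfl⟩
  obtain ⟨t4, ht4⟩ : ∃ t : ℝ, t = Real.sqrt R * V / N := ⟨_, rfl⟩
  obtain ⟨t5, ht5⟩ : ∃ t : ℝ, t = Real.sqrt ((L' : ℝ) / R) := ⟨_, rfl⟩
  have p1 : 0 ≤ t1 := by rw [ht1]; positivity
  have p2 : 0 ≤ t2 := by rw [ht2]; positivity
  have p3 : 0 ≤ t3 := by rw [ht3]; positivity
  have p4 : 0 ≤ t4 := by rw [ht4]; positivity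
  have p5 : 0 ≤ t5 := by rw [ht5]; positivity
  have hEW : SLB.EW R S N V L L' = t1 + t2 + t3 + t4 + t5 := by
    unfold SLB.EW
    rw [ht1, ht2, ht3, ht4, ht5]
  rw [hEW]
  have fin : ∀ {c t : ℝ}, 0 ≤ t → c ≤ 16 → t ≤ t1 + t2 + t3 + t4 + t5 →
      c * (g : ℝ) ^ 2 * t ≤ 16 * (g : ℝ) ^ 2 * (t1 + t2 + t3 + t4 + t5) := by
    intro c t h0 hc ht
    have : 0 ≤ (g : ℝ) ^ 2 * t := by positivity
    calc c * (g : ℝ) ^ 2 * t = c * ((g : ℝ) ^ 2 * t) := by ring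
      _ ≤ 16 * ((g : ℝ) ^ 2 * t) := by gcongr
      _ = 16 * (g : ℝ) ^ 2 * t := by ring
      _ ≤ _ := by gcongr
  refine ⟨?_, ?_, ?_, ?_, ?_⟩
  · have a1 : (r : ℝ) * g / ((T1 : ℝ) * T2) ≤ 16 * g * t1 := by
      rw [div_le_iff₀ (by positivity), ht1]
      have b1 : (R : ℝ) * R ≤ (2 * F1 * T1) * (2 * F2 * T2) := by gcongr
      have b2 : (R : ℝ) * R * V ≤ 8 * S * L' * (T1 * T2) := by
        calc (R : ℝ) * R * V ≤ ((2 * F1 * T1) * (2 * F2 * T2)) * V := by gcongr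
          _ = 4 * (F1 * V) * F2 * (T1 * T2) := by ring
          _ ≤ 4 * (2 * S) * L' * (T1 * T2) := by gcongr
          _ = _ := by ring
      have b3 : (R : ℝ) ≤ 8 * S * L' * (T1 * T2) / (V * R) := by
        rw [le_div_iff₀ (by positivity)]
        calc (R : ℝ) * (V * R) = R * R * V := by ring
          _ ≤ _ := b2
      calc (r : ℝ) * g ≤ (2 * R) * g := by gcongr
        _ ≤ (2 * (8 * S * L' * (T1 * T2) / (V * R))) * g := by gcongr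
        _ = _ := by ring
    calc _ ≤ 16 * g * t1 := a1
      _ ≤ 16 * (g : ℝ) ^ 2 * t1 := by gcongr
      _ ≤ _ := fin p1 le_rfl (by linarith)
  · have a1 : Real.sqrt ((r : ℝ) * g * x1 * x2) ≤
        6 * g * (Real.sqrt R * Real.sqrt S * ((V : ℝ) * Real.sqrt V) / Real.sqrt L) := by
      rw [Real.sqrt_le_iff]
      refine ⟨by positivity, ?_⟩
      have b1 : (6 * g * (Real.sqrt R * Real.sqrt S * ((V : ℝ) * Real.sqrt V) / Real.sqrt L)) ^ 2 =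
          36 * (g : ℝ) ^ 2 * (R * S * (V : ℝ) ^ 3) / L := by
        rw [mul_pow, mul_pow, div_pow, mul_pow, mul_pow, mul_pow, Real.sq_sqrt R0.le, Real.sq_sqrt S0,
          Real.sq_sqrt V0.le, Real.sq_sqrt L0.le]
        ring
      rw [b1, le_div_iff₀ L0]
      calc (r : ℝ) * g * x1 * x2 * L = r * g * x1 * (L * x2) := by ring
        _ ≤ (2 * R) * g * (4 * (V : ℝ) ^ 2) * (4 * S * V) := by gcongr
        _ = 32 * g * (R * S * (V : ℝ) ^ 3) := by ring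
        _ ≤ 36 * (g : ℝ) ^ 2 * (R * S * (V : ℝ) ^ 3) := by gcongr; norm_num
    calc Real.sqrt ((r : ℝ) * g * x1 * x2) * ((r : ℝ) * g) / (N : ℝ) ^ 2
        ≤ (6 * g * (Real.sqrt R * Real.sqrt S * ((V : ℝ) * Real.sqrt V) / Real.sqrt L)) * ((2 * R) * g) /
          (N : ℝ) ^ 2 := by gcongr
      _ = 12 * (g : ℝ) ^ 2 * t2 := by
          rw [ht2]
          field_simp
          ring
      _ ≤ _ := fin p2 (by norm_num) (by linarith)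
  · have a1 : Real.sqrt ((r : ℝ) * g * x1) ≤ 3 * g * (Real.sqrt R * V) := by
      rw [Real.sqrt_le_iff]
      refine ⟨by positivity, ?_⟩
      have b1 : (3 * g * (Real.sqrt R * V)) ^ 2 = 9 * (g : ℝ) ^ 2 * (R * (V : ℝ) ^ 2) := by
        rw [mul_pow, mul_pow, mul_pow, Real.sq_sqrt R0.le]
        ring
      rw [b1]
      calc (r : ℝ) * g * x1 ≤ (2 * R) * g * (4 * (V : ℝ) ^ 2) := by gcongr
        _ = 8 * g * (R * (V : ℝ) ^ 2) := by ring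
        _ ≤ 9 * (g : ℝ) ^ 2 * (R * (V : ℝ) ^ 2) := by gcongr; norm_num
    calc Real.sqrt ((r : ℝ) * g * x1) / N ≤ (3 * g * (Real.sqrt R * V)) / N := by gcongr
      _ = 3 * g * t4 := by rw [ht4]; ring
      _ ≤ 3 * (g : ℝ) ^ 2 * t4 := by gcongr
      _ ≤ _ := fin p4 (by norm_num) (by linarith)
  · have a1 : Real.sqrt ((r : ℝ) * g * x2) ≤ 3 * g * Real.sqrt ((R : ℝ) * S * V / L) := by
      rw [Real.sqrt_le_iff]
      refine ⟨by positivity, ?_⟩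
      have b1 : (3 * g * Real.sqrt ((R : ℝ) * S * V / L)) ^ 2 = 9 * (g : ℝ) ^ 2 * (R * S * V) / L := by
        rw [mul_pow, mul_pow, Real.sq_sqrt (by positivity)]
        ring
      rw [b1, le_div_iff₀ L0]
      calc (r : ℝ) * g * x2 * L = r * g * (L * x2) := by ring
        _ ≤ (2 * R) * g * (4 * S * V) := by gcongr
        _ = 8 * g * (R * S * V) := by ring
        _ ≤ 9 * (g : ℝ) ^ 2 * (R * S * V) := by gcongr; norm_num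
    calc Real.sqrt ((r : ℝ) * g * x2) / N ≤ (3 * g * Real.sqrt ((R : ℝ) * S * V / L)) / N := by gcongr
      _ = 3 * g * t3 := by rw [ht3]; ring
      _ ≤ 3 * (g : ℝ) ^ 2 * t3 := by gcongr
      _ ≤ _ := fin p3 (by norm_num) (by linarith)
  · have a2 : (1 : ℝ) / T2 ≤ 2 * L' / R := by
      rw [div_le_div_iff₀ T20 R0]
      calc (1 : ℝ) * R = R := one_mul _
        _ ≤ 2 * F2 * T2 := hRT2'
        _ ≤ 2 * L' * T2 := by gcongr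
    have a3 : Real.sqrt ((g : ℝ) / T2) ≤ 2 * g * Real.sqrt ((L' : ℝ) / R) := by
      rw [Real.sqrt_le_iff]
      refine ⟨by positivity, ?_⟩
      have b1 : (2 * g * Real.sqrt ((L' : ℝ) / R)) ^ 2 = 4 * (g : ℝ) ^ 2 * (L' / R) := by
        rw [mul_pow, mul_pow, Real.sq_sqrt (by positivity)]
        ring
      rw [b1]
      calc (g : ℝ) / T2 = g * (1 / T2) := by ring
        _ ≤ g * (2 * L' / R) := by gcongr
        _ = 2 * g * (L' / R) := by ring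
        _ ≤ 4 * (g : ℝ) ^ 2 * (L' / R) := by gcongr; norm_num
    calc _ ≤ 2 * g * Real.sqrt ((L' : ℝ) / R) := a3
      _ = 2 * g * t5 := by rw [ht5]
      _ ≤ 2 * (g : ℝ) ^ 2 * t5 := by gcongr
      _ ≤ _ := fin p5 (by norm_num) (by linarith)

private lemma TtwK_sqrt {n : ℕ} (h : 1 ≤ n) {e : ℝ} (he : 0 ≤ e) :
    Real.sqrt (e * Real.sqrt (n : ℝ)) ≤ Real.sqrt e * n := by
  have h1 : (1 : ℝ) ≤ n := by exact_mod_cast h
  have h2 : Real.sqrt (n : ℝ) ≤ (n : ℝ) ^ 2 := by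
    rw [Real.sqrt_le_iff]
    refine ⟨by positivity, ?_⟩
    calc (n : ℝ) = (n : ℝ) ^ 1 := by ring
      _ ≤ (n : ℝ) ^ 4 := pow_le_pow_right₀ h1 (by norm_num)
      _ = ((n : ℝ) ^ 2) ^ 2 := by ring
  calc Real.sqrt (e * Real.sqrt (n : ℝ)) ≤ Real.sqrt (e * (n : ℝ) ^ 2) := by gcongr
    _ = Real.sqrt e * n := by rw [Real.sqrt_mul he, Real.sqrt_sq (by positivity)]

/-- N²/B (1 + B/N) ≤ 2 N²/R -/
private lemma TtwK_B {r g R N : ℕ} (hR : 1 ≤ R) (hg : 1 ≤ g) (hRN : R ≤ N) (hr : R < r) :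
    (N : ℝ) ^ 2 / ((r : ℝ) * g) * (1 + (r : ℝ) * g / N) ≤ 2 * ((N : ℝ) ^ 2 / R) := by
  have hR' : (1 : ℝ) ≤ R := by exact_mod_cast hR
  have hg' : (1 : ℝ) ≤ g := by exact_mod_cast hg
  have hRN' : (R : ℝ) ≤ N := by exact_mod_cast hRN
  have hr' : (R : ℝ) ≤ r := by exact_mod_cast hr.le
  have R0 : (0 : ℝ) < R := by linarith
  have N0 : (0 : ℝ) < N := by linarith
  have r0 : (0 : ℝ) < r := by linarith
  have g0 : (0 : ℝ) < g := by linarith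
  have h1 : (N : ℝ) ^ 2 / ((r : ℝ) * g) * (1 + (r : ℝ) * g / N) = (N : ℝ) ^ 2 / ((r : ℝ) * g) + N := by
    field_simp
  have h2 : (N : ℝ) ^ 2 / ((r : ℝ) * g) ≤ (N : ℝ) ^ 2 / R := by
    have : (R : ℝ) ≤ r * g := by nlinarith
    gcongr
  have h3 : (N : ℝ) ≤ (N : ℝ) ^ 2 / R := by
    rw [le_div_iff₀ R0]
    nlinarith
  rw [h1]
  linarith

private lemma TtwK_EW0 (R S N V L L' : ℕ) : 0 ≤ SLB.EW R S N V L L' := by
  unfold SLB.EW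
  positivity

/-- the sum of one pair with the same key -/
private lemma TtwK_pair (hPh : PhStmt) {C2 : ℝ} (hC2 : 0 < C2) {A2 : ℕ}
    (hEw : ∀ (X T e : ℝ) (k2 k3 F1 u1 F2 u2 T1 T2 N : ℕ) (l c1 c2 : ℤ), Tau X T →
      Squarefree (k2 * k3 * (F1 * u1)) → Squarefree (k2 * k3 * (F2 * u2)) → Int.gcd l ((k2 * k3 : ℕ) : ℤ) = 1 →
      1 ≤ N → 1 ≤ T1 → 1 ≤ T2 → F1 * T1 ≤ N → F2 * T2 ≤ N → T2 ≤ k2 * k3 →
      100 * ((k2 : ℝ) * k3 * u1 * u2 * (N : ℝ) ^ 2) ≤ X →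
      (k2 : ℝ) * k3 / ((T1 : ℝ) * T2) ≤ e →
      Real.sqrt ((k2 : ℝ) * k3 * u1 * u2) * ((k2 : ℝ) * k3) / (N : ℝ) ^ 2 ≤ e →
      Real.sqrt ((k2 : ℝ) * k3 * u1) / N ≤ e → Real.sqrt ((k2 : ℝ) * k3 * u2) / N ≤ e →
      Real.sqrt ((k3 : ℝ) / T2) ≤ e →
      ‖∑ n1 ∈ Ioc N (2 * N), ∑ n2 ∈ Ioc N (2 * N), if ((k2 * k3 : ℕ) : ℤ) ∣ (n1 : ℤ) - l * n2 then
          t1g c1 (k2 * k3 * (F1 * u1)) n1 * t1g c2 (F2 * u2) n2 else 0‖ ≤
        C2 * T ^ A2 * ((N : ℝ) ^ 2 / ((k2 : ℝ) * k3)) * (1 + (k2 : ℝ) * k3 / N) *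
          Real.sqrt (e * Real.sqrt (Int.gcd c1 (k2 : ℤ) : ℝ)))
    {X T D E y : ℝ} {a b1 b2 : ℕ → ℕ → ℤ} {v : ℕ → ℕ → ℕ} {g R S N V L L' : ℕ} (hTau : Tau X T) (hg : 1 ≤ g)
    (hR : 1 ≤ R) (hN : 1 ≤ N) (hV : 1 ≤ V) (hVS : V ≤ S) (hRN : R ≤ N) (hL : 1 ≤ L) (hLR : L' ≤ R)
    (hSR : 4 * S ≤ R) (hRSy : (R : ℝ) * (S : ℝ) ^ 2 * N ≤ y) (hXy : 4096 * y ^ 2 ≤ X) (hE : E = SLB.EW R S N V L L')
    (hD : D = C2 * T ^ A2 * (8 * g * ((N : ℝ) ^ 2 / R) * Real.sqrt E)) {h h' : ℤ} {r s1 s2 s1' s2' f : ℕ}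
    (hf1 : f ∣ s2 / v r s2) (hf2 : L ≤ f) (hf3 : f ≤ L')
    (hsu : Su a b1 b2 (fun r => r) v g R V R S N r s1 s2) (hsu' : Su a b1 b2 (fun r => r) v g R V R S N r s1' s2')
    (hky : Ky (fun r => r) v r s1 s2 = Ky (fun r => r) v r s1' s2') :
    ‖∑ n1 ∈ Ioc N (2 * N), ∑ n2 ∈ Ioc N (2 * N),
      Fp a g h r s1 s2 n1 n2 * (starRingEnd ℂ) (Fp a g h' r s1' s2' n1 n2)‖ ≤
      D * (Int.gcd (Th (fun r => r) v h h' r s1 s2 r s1' s2') (r : ℤ) : ℝ) := by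
  have hT1 : 1 ≤ T := hTau.1
  have hT0 : 0 < T := by linarith
  have hS : 1 ≤ S := hV.trans hVS
  have hEW0 : 0 ≤ E := by
    rw [hE]
    exact TtwK_EW0 R S N V L L'
  have hD0 : 0 ≤ D := by
    rw [hD]
    positivity
  have hsu0 := hsu
  have hsu0' := hsu'
  obtain ⟨hr, hs1, hs2, hρ, hv1, hv2, -⟩ := hsu0
  obtain ⟨-, hs1', hs2', -, hv1', hv2', -⟩ := hsu0'
  have hkey := hky
  unfold Ky at hkey
  simp only [Prod.mk.injEq] at hkey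
  obtain ⟨-, k2, k3⟩ := hkey
  rcases hPh a b1 b2 (fun r => r) v g R V R S N h h' r s1 s2 r s1' s2' hg hR hV hsu hsu' hky with hz | hP
  · have h0 : (∑ n1 ∈ Ioc N (2 * N), ∑ n2 ∈ Ioc N (2 * N),
        Fp a g h r s1 s2 n1 n2 * (starRingEnd ℂ) (Fp a g h' r s1' s2' n1 n2)) = 0 :=
      sum_eq_zero fun n1 _ => sum_eq_zero fun n2 _ => hz n1 n2
    rw [h0, norm_zero]
    exact mul_nonneg hD0 (Nat.cast_nonneg _)
  · obtain ⟨B, w1, w2, l, c1, c2, hBe, hBw1, hBw2, hsq1, hsq2, hl, hw1, hw2, hgw1, hgw2, hRg, hBR, hcg, hF⟩ := hP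
    have hr1 : 1 ≤ r := by omega
    have hB : B = r * g := by
      rw [hBe]
      simp only [Nat.div_self (show 0 < r by omega), Nat.lcm_self, mul_one]
    subst hB
    have hrg : 1 ≤ r * g := Nat.mul_pos hr1 hg
    have hco1 := Nat.squarefree_mul_iff.1 hsq1
    have hco2 := Nat.squarefree_mul_iff.1 hsq2
    -- the outer parts
    obtain ⟨u1, hu1⟩ : ∃ u, u = s1 / v r s1 := ⟨_, rfl⟩
    obtain ⟨u2, hu2⟩ : ∃ u, u = s2 / v r s2 := ⟨_, rfl⟩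
    have es1 : s1 = u1 * v r s1 := by rw [hu1, Nat.div_mul_cancel hv1.1]
    have es1' : s1' = u1 * v r s1' := by rw [hu1, k2, Nat.div_mul_cancel hv1'.1]
    rw [← hu2] at hf1
    have es2 : s2 = u2 * v r s2 := by rw [hu2, Nat.div_mul_cancel hv2.1]
    have hsqs1 : Squarefree s1 := by
      have hh : s1 ∣ r * g * w1 := by
        rw [hBw1]
        exact (dvd_mul_left s1 r).trans (Nat.dvd_lcm_left _ _)
      exact hsq1.squarefree_of_dvd hh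
    have hsqs2 : Squarefree s2 := by
      have hh : s2 ∣ r * g * w2 := by
        rw [hBw2]
        exact (dvd_mul_left s2 r).trans (Nat.dvd_lcm_left _ _)
      exact hsq2.squarefree_of_dvd hh
    have hu1s : u1 ∣ s1 := ⟨_, es1⟩
    have hu2s : u2 ∣ s2 := ⟨_, es2⟩
    have hsqu1 : Squarefree u1 := hsqs1.squarefree_of_dvd hu1s
    have hu1pos : 1 ≤ u1 := Nat.pos_of_ne_zero hsqu1.ne_zero
    have hffs : f ∣ s2 := hf1.trans hu2s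
    have hsqf : Squarefree f := hsqs2.squarefree_of_dvd hffs
    have hfpos : 1 ≤ f := Nat.pos_of_ne_zero hsqf.ne_zero
    -- F1 and F2
    obtain ⟨F1, hF1⟩ : ∃ F, F = u1 / Nat.gcd u1 g := ⟨_, rfl⟩
    obtain ⟨F2, hF2⟩ : ∃ F, F = f / Nat.gcd f g := ⟨_, rfl⟩
    obtain ⟨x1, hx1⟩ : F1 ∣ w1 := hF1 ▸ TtwK_dvd hr1 hsqu1 hu1s hBw1
    obtain ⟨x2, hx2⟩ : F2 ∣ w2 := hF2 ▸ TtwK_dvd hr1 hsqf hffs hBw2
    have hF1pos : 1 ≤ F1 := by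
      rw [hF1]
      exact Nat.div_pos (Nat.gcd_le_left _ hu1pos) (Nat.gcd_pos_of_pos_left _ hu1pos)
    have hF2pos : 1 ≤ F2 := by
      rw [hF2]
      exact Nat.div_pos (Nat.gcd_le_left _ hfpos) (Nat.gcd_pos_of_pos_left _ hfpos)
    have hF1V : F1 * V ≤ 2 * S := by
      calc F1 * V ≤ u1 * v r s1 := Nat.mul_le_mul (hF1 ▸ Nat.div_le_self _ _) hv1.2.1.le
        _ = s1 := es1.symm
        _ ≤ 2 * S := hs1.2
    have hx1V : x1 ≤ 4 * V ^ 2 := by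
      refine TtwK_size (u := u1) (v1 := v r s1) (v1' := v r s1') hr1 hg hu1pos ?_ (hF1 ▸ hx1) hv1.2.2 hv1'.2.2
      rw [← es1, ← es1']
      exact hBw1
    have hF2L : L ≤ g * F2 := by
      calc L ≤ f := hf2
        _ = Nat.gcd f g * F2 := by rw [hF2, Nat.mul_div_cancel' (Nat.gcd_dvd_left f g)]
        _ ≤ g * F2 := Nat.mul_le_mul_right _ (Nat.gcd_le_right _ hg)
    have hx2V : L * x2 ≤ 4 * S * V := by
      calc L * x2 ≤ (g * F2) * x2 := Nat.mul_le_mul_right _ hF2L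
        _ = g * w2 := by rw [hx2]; ring
        _ ≤ 4 * S * V := hgw2
    have hgx2 : g * x2 ≤ 4 * S * V := by
      calc g * x2 = g * (1 * x2) := by ring
        _ ≤ g * (F2 * x2) := Nat.mul_le_mul_left _ (Nat.mul_le_mul_right _ hF2pos)
        _ = g * w2 := by rw [hx2]
        _ ≤ 4 * S * V := hgw2
    have hF2L' : F2 ≤ L' := (hF2 ▸ Nat.div_le_self _ _ : F2 ≤ f).trans hf3
    have hF1R : F1 ≤ R := by
      have a1 : F1 * 1 ≤ F1 * V := Nat.mul_le_mul_left _ hV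
      omega
    have hF2R : F2 ≤ R := hF2L'.trans hLR
    obtain ⟨d1, d2, d3⟩ := TtwK_div hF1pos hF1R
    obtain ⟨e1, e2, e3⟩ := TtwK_div hF2pos hF2R
    obtain ⟨q1, q2, q3, q4, q5⟩ := TtwK_e (r := r) (F1 := F1) (x1 := x1) (F2 := F2) (x2 := x2) (N := N) hR hg hN hV
      hL hr.2 hF1V hx1V hx2V hF2L' d1 e1 d2 e2
    rw [← hE] at q1 q2 q3 q4 q5
    have hsum : (∑ n1 ∈ Ioc N (2 * N), ∑ n2 ∈ Ioc N (2 * N),
        Fp a g h r s1 s2 n1 n2 * (starRingEnd ℂ) (Fp a g h' r s1' s2' n1 n2)) =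
        ∑ n1 ∈ Ioc N (2 * N), ∑ n2 ∈ Ioc N (2 * N), if ((r * g : ℕ) : ℤ) ∣ (n1 : ℤ) - l * n2 then
          t1g c1 (r * g * (F1 * x1)) n1 * t1g c2 (F2 * x2) n2 else 0 := by
      refine sum_congr rfl fun n1 hn1 => sum_congr rfl fun n2 hn2 => ?_
      rw [mem_Ioc] at hn1 hn2
      rw [hF n1 n2 (by omega) (by omega), ← hx1, ← hx2]
    have hXw : 100 * ((r : ℝ) * g * x1 * x2 * (N : ℝ) ^ 2) ≤ X := by
      have a1 : (r : ℝ) ≤ 2 * R := by exact_mod_cast hr.2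
      have b1 : (x1 : ℝ) ≤ 4 * (V : ℝ) ^ 2 := by exact_mod_cast hx1V
      have b2 : (g : ℝ) * x2 ≤ 4 * S * V := by exact_mod_cast hgx2
      have b3 : (V : ℝ) ≤ S := by exact_mod_cast hVS
      have h1 : (1 : ℝ) ≤ R := by exact_mod_cast hR
      have b4 : (R : ℝ) * (S : ℝ) ^ 4 * (N : ℝ) ^ 2 ≤ y ^ 2 := by
        calc (R : ℝ) * (S : ℝ) ^ 4 * (N : ℝ) ^ 2 = 1 * (R * (S : ℝ) ^ 4 * (N : ℝ) ^ 2) := by ring
          _ ≤ R * (R * (S : ℝ) ^ 4 * (N : ℝ) ^ 2) := by gcongr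
          _ = (R * (S : ℝ) ^ 2 * N) ^ 2 := by ring
          _ ≤ y ^ 2 := by gcongr
      have b5 : 0 ≤ y ^ 2 := sq_nonneg y
      calc 100 * ((r : ℝ) * g * x1 * x2 * (N : ℝ) ^ 2) = 100 * (r * (g * x2) * x1 * (N : ℝ) ^ 2) := by ring
        _ ≤ 100 * ((2 * R) * (4 * S * V) * (4 * (V : ℝ) ^ 2) * (N : ℝ) ^ 2) := by gcongr
        _ = 3200 * (R * S * (V : ℝ) ^ 3 * (N : ℝ) ^ 2) := by ring
        _ ≤ 3200 * (R * S * (S : ℝ) ^ 3 * (N : ℝ) ^ 2) := by gcongr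
        _ = 3200 * (R * (S : ℝ) ^ 4 * (N : ℝ) ^ 2) := by ring
        _ ≤ 3200 * y ^ 2 := by gcongr
        _ ≤ 4096 * y ^ 2 := by linarith
        _ ≤ X := hXy
    have hT2B : R / F2 ≤ r * g := by
      calc R / F2 ≤ R := Nat.div_le_self _ _
        _ ≤ r := by omega
        _ = r * 1 := (mul_one r).symm
        _ ≤ r * g := Nat.mul_le_mul_left _ hg
    have hEwr := hEw X T (16 * (g : ℝ) ^ 2 * E) r g F1 x1 F2 x2 (R / F1) (R / F2) N l c1 c2 hTau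
      (hx1 ▸ hsq1) (hx2 ▸ hsq2) hl hN d1 e1 (d3.trans hRN) (e3.trans hRN) hT2B hXw q1 q2 q3 q4 q5
    have hgcd : Int.gcd c1 (r : ℤ) = Int.gcd (Th (fun r => r) v h h' r s1 s2 r s1' s2') (r : ℤ) := hcg r dvd_rfl
    rw [hsum]
    refine hEwr.trans ?_
    rw [hgcd]
    have hgp : 1 ≤ Int.gcd (Th (fun r => r) v h h' r s1 s2 r s1' s2') (r : ℤ) := by
      refine Nat.one_le_iff_ne_zero.2 fun h0 => ?_
      rw [Int.gcd_eq_zero_iff] at h0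
      have := h0.2
      omega
    have hs := TtwK_sqrt hgp (e := 16 * (g : ℝ) ^ 2 * E) (by positivity)
    have hBB := TtwK_B (g := g) (N := N) hR hg hRN hr.1
    have hs2 : Real.sqrt (16 * (g : ℝ) ^ 2 * E) = 4 * g * Real.sqrt E := by
      rw [show 16 * (g : ℝ) ^ 2 * E = (4 * g) ^ 2 * E by ring, Real.sqrt_mul (by positivity),
        Real.sqrt_sq (by positivity)]
    rw [hs2] at hs
    calc _ = C2 * T ^ A2 * ((N : ℝ) ^ 2 / ((r : ℝ) * g) * (1 + (r : ℝ) * g / N)) *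
          Real.sqrt (16 * (g : ℝ) ^ 2 * E *
            Real.sqrt (Int.gcd (Th (fun r => r) v h h' r s1 s2 r s1' s2') (r : ℤ) : ℝ)) := by ring
      _ ≤ C2 * T ^ A2 * (2 * ((N : ℝ) ^ 2 / R)) *
          (4 * g * Real.sqrt E * (Int.gcd (Th (fun r => r) v h h' r s1 s2 r s1' s2') (r : ℤ) : ℝ)) := by gcongr
      _ = _ := by rw [hD]; ring

theorem tTtwK (hSec : SecKStmt) (hPh : PhStmt) (hEw : EwStmt) : SLB.TwKStmt := by
  obtain ⟨C1, hC1, A1, hSec⟩ := hSec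
  obtain ⟨C2, hC2, A2, hEw⟩ := hEw
  refine ⟨C1 * (1 + 8 * C2), by positivity, A1 + A2, ?_⟩
  intro X T a b v f col K g R S N H V L L' Hs γ ω hK1 hTz hLt hL hLR hSR hf
  obtain ⟨hTau, ⟨hg, hR, hS, hN, hH, hR0, hV, hR0R, hVS, hRN⟩, hX, hHs, hγ, hω, hND⟩ := hTz
  have hT1 : 1 ≤ T := hTau.1
  have hT0 : 0 < T := by linarith
  have h1 : (1 : ℝ) ≤ R := by exact_mod_cast hR
  have h2 : (1 : ℝ) ≤ S := by exact_mod_cast hS
  have h3 : (1 : ℝ) ≤ N := by exact_mod_cast hN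
  have h4 : (1 : ℝ) ≤ H := by exact_mod_cast hH
  have h5 : (1 : ℝ) ≤ V := by exact_mod_cast hV
  have hg1 : (1 : ℝ) ≤ g := by exact_mod_cast hg
  -- sizes
  obtain ⟨y, hy⟩ : ∃ y : ℝ, y = (R : ℝ) * (S : ℝ) ^ 2 * N * H := ⟨_, rfl⟩
  have hRSy : (R : ℝ) * (S : ℝ) ^ 2 * N ≤ y := by
    calc (R : ℝ) * (S : ℝ) ^ 2 * N = R * (S : ℝ) ^ 2 * N * 1 := by ring
      _ ≤ R * (S : ℝ) ^ 2 * N * H := by gcongr
      _ = y := by rw [hy]
  have hy1 : (1 : ℝ) ≤ y := by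
    rw [hy]
    exact one_le_mul_of_one_le_of_one_le (one_le_mul_of_one_le_of_one_le
      (one_le_mul_of_one_le_of_one_le h1 (one_le_pow₀ h2)) h3) h4
  have hXy : 4096 * y ^ 2 ≤ X := by
    have hb : (2 * y) ^ 12 ≤ X := by
      calc (2 * y) ^ 12 = (2 * (R : ℝ) * (S : ℝ) ^ 2 * N * H) ^ 12 := by rw [hy]; ring
        _ ≤ X := hX
    have hc : y ^ 2 ≤ y ^ 12 := pow_le_pow_right₀ hy1 (by norm_num)
    calc 4096 * y ^ 2 ≤ 4096 * y ^ 12 := by linarith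
      _ = (2 * y) ^ 12 := by ring
      _ ≤ X := hb
  have hXs : 100 * (R : ℝ) ^ 2 * (S : ℝ) ^ 4 * (N : ℝ) ^ 2 * (H : ℝ) ^ 2 ≤ X := by
    calc 100 * (R : ℝ) ^ 2 * (S : ℝ) ^ 4 * (N : ℝ) ^ 2 * (H : ℝ) ^ 2 = 100 * y ^ 2 := by rw [hy]; ring
      _ ≤ 4096 * y ^ 2 := by nlinarith [sq_nonneg y]
      _ ≤ X := hXy
  have hEW0 := TtwK_EW0 R S N V L L'
  obtain ⟨E, hE⟩ : ∃ E : ℝ, E = SLB.EW R S N V L L' := ⟨_, rfl⟩
  rw [← hE] at hEW0 ⊢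
  -- the bound of the pairs
  obtain ⟨D, hD⟩ : ∃ D : ℝ, D = C2 * T ^ A2 * (8 * g * ((N : ℝ) ^ 2 / R) * Real.sqrt E) := ⟨_, rfl⟩
  have hD0 : 0 ≤ D := by rw [hD]; positivity
  have hmain := hSec X T D a b (fun r => r) v col K g R S N H R V Hs γ ω hTau hD0 hK1 hg hR hS hN hH
    hR0 hV hRN hXs hHs hγ hω ?_ ?_
  · refine hmain.trans ?_
    have hTA1 : 1 ≤ T ^ A1 := one_le_pow₀ hT1
    have hTA2 : 1 ≤ T ^ A2 := one_le_pow₀ hT1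
    have hR0' : (0 : ℝ) < R := by linarith
    have hN0' : (0 : ℝ) < N := by linarith
    have e2 : (R : ℝ) ^ 2 * D / ((R : ℝ) * (N : ℝ) ^ 2) = 8 * C2 * T ^ A2 * (g * Real.sqrt E) := by
      rw [hD]
      field_simp
    have e3 : (H : ℝ) ^ 2 / (g : ℝ) ^ 4 * (8 * C2 * T ^ A2 * (g * Real.sqrt E)) ≤
        8 * C2 * T ^ A2 * (((H : ℝ) / g) ^ 2 * Real.sqrt E) := by
      have e4 : (H : ℝ) ^ 2 / (g : ℝ) ^ 4 * g ≤ ((H : ℝ) / g) ^ 2 := by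
        have e5 : (H : ℝ) ^ 2 / (g : ℝ) ^ 4 * g = (H : ℝ) ^ 2 / (g : ℝ) ^ 3 := by
          field_simp
        rw [e5, div_pow]
        have : (g : ℝ) ^ 2 ≤ (g : ℝ) ^ 3 := pow_le_pow_right₀ hg1 (by norm_num)
        gcongr
      calc _ = 8 * C2 * T ^ A2 * (((H : ℝ) ^ 2 / (g : ℝ) ^ 4 * g) * Real.sqrt E) := by ring
        _ ≤ _ := by gcongr
    rw [e2]
    have p1 : 0 ≤ (H : ℝ) / ((V : ℝ) ^ 2 * (g : ℝ) ^ 3) := by positivity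
    have p2 : 0 ≤ ((H : ℝ) / g) ^ 2 * Real.sqrt E := by positivity
    calc C1 * T ^ A1 * (K : ℝ) ^ 2 * ((S : ℝ) ^ 2 * (N : ℝ) ^ 2) ^ 2 * ((H : ℝ) / ((V : ℝ) ^ 2 * (g : ℝ) ^ 3) +
          (H : ℝ) ^ 2 / (g : ℝ) ^ 4 * (8 * C2 * T ^ A2 * (g * Real.sqrt E)))
        ≤ C1 * T ^ A1 * (K : ℝ) ^ 2 * ((S : ℝ) ^ 2 * (N : ℝ) ^ 2) ^ 2 * ((H : ℝ) / ((V : ℝ) ^ 2 * (g : ℝ) ^ 3) +
          8 * C2 * T ^ A2 * (((H : ℝ) / g) ^ 2 * Real.sqrt E)) := by gcongr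
      _ ≤ C1 * T ^ A1 * (K : ℝ) ^ 2 * ((S : ℝ) ^ 2 * (N : ℝ) ^ 2) ^ 2 *
          ((1 + 8 * C2) * T ^ A2 * ((H : ℝ) / ((V : ℝ) ^ 2 * (g : ℝ) ^ 3) +
            ((H : ℝ) / g) ^ 2 * Real.sqrt E)) := by
          gcongr
          have q1 : (H : ℝ) / ((V : ℝ) ^ 2 * (g : ℝ) ^ 3) ≤
              (1 + 8 * C2) * T ^ A2 * ((H : ℝ) / ((V : ℝ) ^ 2 * (g : ℝ) ^ 3)) := by
            have : 1 ≤ (1 + 8 * C2) * T ^ A2 := by nlinarith
            nlinarith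
          have q2 : 8 * C2 * T ^ A2 * (((H : ℝ) / g) ^ 2 * Real.sqrt E) ≤
              (1 + 8 * C2) * T ^ A2 * (((H : ℝ) / g) ^ 2 * Real.sqrt E) := by
            gcongr
            linarith
          calc _ ≤ _ := add_le_add q1 q2
            _ = _ := by ring
      _ = _ := by rw [pow_add]; ring
  · -- the support
    intro h r s1 s2 _ hr hs1 hs2 hne
    rw [mem_Ioc] at hr hs1 hs2
    obtain ⟨l1, l2, l3, l4, l5⟩ := hLt h r s1 s2 hne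
    exact ⟨hr, hs1, hs2, l1, l2, l3, l4, l5, hND h r s1 s2 hne⟩
  · -- the pairs
    intro h h' r s1 s2 r' s1' s2' _ _ hne _ hgc hgc' hsuK hsuK' hkyK _
    have hsu := SuK_Su hsuK
    obtain ⟨hsu', hky⟩ := SuK_Su' hsuK' hkyK
    have hkey := hky
    unfold Ky at hkey
    simp only [Prod.mk.injEq] at hkey
    obtain ⟨k1, -, -⟩ := hkey
    subst k1
    obtain ⟨hf1, hf2, hf3⟩ := hf h r s1 s2 hne
    exact TtwK_pair hPh hC2 hEw hTau hg hR hN hV hVS hRN hL hLR hSR hRSy hXy hE hD hf1 hf2 hf3 hsu hsu' hky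

end Pool.Agent.Lib.SL
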