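import Pool.Agent.Lib.SL.DefK
import Pool.Agent.Lib.SL.SpecE
import Pool.Agent.Lib.SLB.StmK

/-!
MP_00e23e_nt, project SL, chapter T, phase 2 (helper54): T0KStmt (lock with colours) from the second Cauchy inequality (SecKStmt), the
phase identity (PhStmt) and completion (EkStmt) with k1 = 1, k2 = ρ r, k3 = g lcm(q, q'). Copy of Tzero.lean.
-/

namespace Pool.Agent.Lib.SL

open Finset Pool.Agent.Lib.EH3 Pool.Agent.Lib.TB Pool.Agent.Results.MP_00e23e_nt Pool.Agent.Lib.MI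

/-- the size of the sums of the pairs in case I -/
private noncomputable def Tz0K_E (R S N R0 V : ℕ) : ℝ :=
  8 * ((R : ℝ) * S * V) / Real.sqrt R0 + (N : ℝ) / Real.sqrt R0 +
    4 * ((N : ℝ) * Real.sqrt ((S : ℝ) * V)) / Real.sqrt R + (N : ℝ) ^ 2 / ((R : ℝ) * Real.sqrt R0)

private lemma Tz0K_nonneg (R S N R0 V : ℕ) : 0 ≤ Tz0K_E R S N R0 V := by
  unfold Tz0K_E
  positivity

/-- N √(B w)/B ≤ 2 N √(S V)/√R -/
private lemma Tz0K_mid {B w g R S N V : ℕ} (hg : 1 ≤ g) (hR : 1 ≤ R) (hB : R * g < B) (hw : g * w ≤ 4 * S * V) :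
    (N : ℝ) * Real.sqrt ((B : ℝ) * w) / (B : ℝ) ≤ 2 * ((N : ℝ) * Real.sqrt ((S : ℝ) * V)) / Real.sqrt R := by
  have hR' : (0 : ℝ) < R := by exact_mod_cast hR
  have hg' : (1 : ℝ) ≤ g := by exact_mod_cast hg
  have hB' : (R : ℝ) * g < B := by exact_mod_cast hB
  have hB0 : (0 : ℝ) < B := lt_trans (by positivity) hB'
  have hw' : (g : ℝ) * w ≤ 4 * S * V := by exact_mod_cast hw
  have h1 : Real.sqrt ((B : ℝ) * w) / (B : ℝ) = Real.sqrt ((w : ℝ) / B) := by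
    rw [Real.sqrt_mul hB0.le, Real.sqrt_div' _ hB0.le]
    have h2 : (B : ℝ) = Real.sqrt B * Real.sqrt B := (Real.mul_self_sqrt hB0.le).symm
    have h3 : Real.sqrt (B : ℝ) ≠ 0 := (Real.sqrt_pos.2 hB0).ne'
    rw [div_eq_div_iff hB0.ne' h3]
    nth_rewrite 3 [h2]
    ring
  have h4 : (w : ℝ) / B ≤ (2 : ℝ) ^ 2 * ((S : ℝ) * V) / R := by
    rw [div_le_div_iff₀ hB0 hR']
    have hw0 : (0 : ℝ) ≤ w := Nat.cast_nonneg _
    have h6 : (0 : ℝ) ≤ (S : ℝ) * V := by positivity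
    have h5 : (w : ℝ) ≤ 4 * S * V := by nlinarith
    calc (w : ℝ) * R ≤ (4 * S * V) * R := by gcongr
      _ ≤ (4 * S * V) * B := by
          have : (R : ℝ) ≤ B := by nlinarith
          gcongr
      _ = 2 ^ 2 * ((S : ℝ) * V) * B := by ring
  calc (N : ℝ) * Real.sqrt ((B : ℝ) * w) / (B : ℝ) = N * (Real.sqrt ((B : ℝ) * w) / (B : ℝ)) := by ring
    _ = N * Real.sqrt ((w : ℝ) / B) := by rw [h1]
    _ ≤ N * Real.sqrt ((2 : ℝ) ^ 2 * ((S : ℝ) * V) / R) := by gcongr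
    _ = N * (2 * Real.sqrt ((S : ℝ) * V) / Real.sqrt R) := by
        rw [Real.sqrt_div' _ hR'.le, Real.sqrt_mul (by norm_num), Real.sqrt_sq (by norm_num)]
    _ = _ := by ring

/-- the five terms of EkStmt -/
private lemma Tz0K_terms {ρ k3 B w1 w2 g R S N R0 V : ℕ} (hg : 1 ≤ g) (hR : 1 ≤ R) (hR0 : 1 ≤ R0) (hρ : R0 < ρ)
    (hBe : B = ρ * k3) (hB : R * g < B) (hB2 : B * R0 ≤ 4 * R ^ 2 * g) (hw1 : g * w1 ≤ 4 * S * V)
    (hw2 : g * w2 ≤ 4 * S * V) :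
    Real.sqrt ((ρ : ℝ) * k3 * w1 * w2) + (N : ℝ) / Real.sqrt ρ +
        (N : ℝ) * Real.sqrt ((ρ : ℝ) * k3 * w2) / ((1 * ρ * k3 : ℕ) : ℝ) +
        (N : ℝ) * Real.sqrt ((ρ : ℝ) * k3 * w1) / ((1 * ρ * k3 : ℕ) : ℝ) +
        (N : ℝ) ^ 2 / (((1 * ρ * k3 : ℕ) : ℝ) * Real.sqrt ρ) ≤ Tz0K_E R S N R0 V := by
  have hR' : (0 : ℝ) < R := by exact_mod_cast hR
  have hR0' : (0 : ℝ) < R0 := by exact_mod_cast hR0
  have hg' : (1 : ℝ) ≤ g := by exact_mod_cast hg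
  have hB' : (R : ℝ) * g < B := by exact_mod_cast hB
  have hB0 : (0 : ℝ) < B := lt_trans (by positivity) hB'
  have hB2' : (B : ℝ) * R0 ≤ 4 * (R : ℝ) ^ 2 * g := by exact_mod_cast hB2
  have hw1' : (g : ℝ) * w1 ≤ 4 * S * V := by exact_mod_cast hw1
  have hw2' : (g : ℝ) * w2 ≤ 4 * S * V := by exact_mod_cast hw2
  have hρ' : (R0 : ℝ) ≤ ρ := by exact_mod_cast hρ.le
  have hsρ : Real.sqrt R0 ≤ Real.sqrt ρ := Real.sqrt_le_sqrt hρ'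
  have hs0 : 0 < Real.sqrt (R0 : ℝ) := Real.sqrt_pos.2 hR0'
  have e1 : (ρ : ℝ) * k3 = B := by rw [hBe]; push_cast; ring
  have e2 : ((1 * ρ * k3 : ℕ) : ℝ) = B := by rw [hBe, one_mul]
  rw [e1, e2]
  have t1 : Real.sqrt ((B : ℝ) * w1 * w2) ≤ 8 * ((R : ℝ) * S * V) / Real.sqrt R0 := by
    have h1 : (B : ℝ) * w1 * w2 ≤ (8 * ((R : ℝ) * S * V)) ^ 2 / R0 := by
      rw [le_div_iff₀ hR0']
      have h2 : (g : ℝ) * w1 * (g * w2) ≤ (4 * S * V) * (4 * S * V) := by gcongr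
      have h3 : (g : ℝ) * ((B : ℝ) * w1 * w2 * R0) ≤ (g : ℝ) * ((8 * ((R : ℝ) * S * V)) ^ 2) := by
        calc (g : ℝ) * ((B : ℝ) * w1 * w2 * R0) = ((B : ℝ) * R0) * (g * (w1 * w2)) := by ring
          _ ≤ (4 * (R : ℝ) ^ 2 * g) * (g * (w1 * w2)) := by gcongr
          _ = 4 * (R : ℝ) ^ 2 * ((g : ℝ) * w1 * (g * w2)) := by ring
          _ ≤ 4 * (R : ℝ) ^ 2 * ((4 * S * V) * (4 * S * V)) := by gcongr
          _ = 1 * (8 * ((R : ℝ) * S * V)) ^ 2 := by ring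
          _ ≤ (g : ℝ) * ((8 * ((R : ℝ) * S * V)) ^ 2) := by gcongr
      exact le_of_mul_le_mul_left h3 (by linarith)
    calc Real.sqrt ((B : ℝ) * w1 * w2) ≤ Real.sqrt ((8 * ((R : ℝ) * S * V)) ^ 2 / R0) := Real.sqrt_le_sqrt h1
      _ = _ := by rw [Real.sqrt_div' _ hR0'.le, Real.sqrt_sq (by positivity)]
  have t2 : (N : ℝ) / Real.sqrt ρ ≤ (N : ℝ) / Real.sqrt R0 := by gcongr
  have t3 := Tz0K_mid (N := N) hg hR hB hw2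
  have t4 := Tz0K_mid (N := N) hg hR hB hw1
  have t5 : (N : ℝ) ^ 2 / ((B : ℝ) * Real.sqrt ρ) ≤ (N : ℝ) ^ 2 / ((R : ℝ) * Real.sqrt R0) := by
    have : (R : ℝ) ≤ B := by nlinarith
    gcongr
  unfold Tz0K_E
  calc _ ≤ 8 * ((R : ℝ) * S * V) / Real.sqrt R0 + (N : ℝ) / Real.sqrt R0 +
        2 * ((N : ℝ) * Real.sqrt ((S : ℝ) * V)) / Real.sqrt R + 2 * ((N : ℝ) * Real.sqrt ((S : ℝ) * V)) / Real.sqrt R +
        (N : ℝ) ^ 2 / ((R : ℝ) * Real.sqrt R0) := by gcongr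
    _ = _ := by ring

/-- R² D/(R0 N²) -/
private lemma Tz0K_final {R S N R0 V : ℕ} (hR : 1 ≤ R) (hN : 1 ≤ N) (hR0 : 1 ≤ R0) :
    (R : ℝ) ^ 2 * Tz0K_E R S N R0 V / ((R0 : ℝ) * (N : ℝ) ^ 2) ≤
      8 * ((R : ℝ) ^ 3 * S * V / (R0 * Real.sqrt R0 * (N : ℝ) ^ 2) + (R : ℝ) ^ 2 / (R0 * Real.sqrt R0 * N) +
        R * Real.sqrt R * Real.sqrt ((S : ℝ) * V) / ((R0 : ℝ) * N) + R / (R0 * Real.sqrt R0)) := by
  have hR' : (0 : ℝ) < R := by exact_mod_cast hR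
  have hR0' : (0 : ℝ) < R0 := by exact_mod_cast hR0
  have hN' : (0 : ℝ) < N := by exact_mod_cast hN
  have hs0 : 0 < Real.sqrt (R0 : ℝ) := Real.sqrt_pos.2 hR0'
  have hsR : 0 < Real.sqrt (R : ℝ) := Real.sqrt_pos.2 hR'
  have hRR : (R : ℝ) = Real.sqrt R * Real.sqrt R := (Real.mul_self_sqrt hR'.le).symm
  have h1 : (R : ℝ) ^ 2 / Real.sqrt R = R * Real.sqrt R := by
    rw [div_eq_iff hsR.ne']
    calc (R : ℝ) ^ 2 = R * R := by ring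
      _ = R * (Real.sqrt R * Real.sqrt R) := by rw [← hRR]
      _ = _ := by ring
  have key : (R : ℝ) ^ 2 * Tz0K_E R S N R0 V / ((R0 : ℝ) * (N : ℝ) ^ 2) =
      8 * ((R : ℝ) ^ 3 * S * V / (R0 * Real.sqrt R0 * (N : ℝ) ^ 2)) + (R : ℝ) ^ 2 / (R0 * Real.sqrt R0 * N) +
        4 * ((R : ℝ) ^ 2 / Real.sqrt R * Real.sqrt ((S : ℝ) * V) / ((R0 : ℝ) * N)) + R / (R0 * Real.sqrt R0) := by
    unfold Tz0K_E
    field_simp
  rw [key, h1]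
  have p1 : 0 ≤ (R : ℝ) ^ 2 / (R0 * Real.sqrt R0 * N) := by positivity
  have p2 : 0 ≤ R * Real.sqrt R * Real.sqrt ((S : ℝ) * V) / ((R0 : ℝ) * N) := by positivity
  have p3 : 0 ≤ (R : ℝ) / (R0 * Real.sqrt R0) := by positivity
  linarith

private lemma Tz0K_sqrt {n : ℕ} (h : 1 ≤ n) : Real.sqrt (n : ℝ) ≤ n := by
  have h1 : (1 : ℝ) ≤ n := by exact_mod_cast h
  rw [Real.sqrt_le_left (by linarith)]
  nlinarith

theorem tTzeroK (hSec : SecKStmt) (hPh : PhStmt) (hEk : EkStmt) : SLB.T0KStmt := by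
  obtain ⟨C1, hC1, A1, hSec⟩ := hSec
  obtain ⟨C2, hC2, A2, hEk⟩ := hEk
  refine ⟨C1 * (1 + 8 * C2), by positivity, A1 + A2, ?_⟩
  intro X T a b ρ v col K g R S N H R0 V Hs γ ω hK1 hTz hLt
  obtain ⟨hTau, ⟨hg, hR, hS, hN, hH, hR0, hV, hR0R, hVS, hRN⟩, hX, hHs, hγ, hω, hND⟩ := hTz
  have hT1 : 1 ≤ T := hTau.1
  have hT0 : 0 < T := by linarith
  have h1 : (1 : ℝ) ≤ R := by exact_mod_cast hR
  have h2 : (1 : ℝ) ≤ S := by exact_mod_cast hS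
  have h3 : (1 : ℝ) ≤ N := by exact_mod_cast hN
  have h4 : (1 : ℝ) ≤ H := by exact_mod_cast hH
  have h5 : (1 : ℝ) ≤ V := by exact_mod_cast hV
  have hg1 : (1 : ℝ) ≤ g := by exact_mod_cast hg
  -- sizes
  obtain ⟨y, hy⟩ : ∃ y : ℝ, y = (R : ℝ) * (S : ℝ) ^ 2 * N * H := ⟨_, rfl⟩
  have hS2 : (S : ℝ) ≤ (S : ℝ) ^ 2 := by nlinarith
  have hRSy : (R : ℝ) * S ≤ y := by
    have ha : (1 : ℝ) ≤ N * H := by nlinarith
    calc (R : ℝ) * S ≤ R * (S : ℝ) ^ 2 := by gcongr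
      _ = R * (S : ℝ) ^ 2 * 1 := by ring
      _ ≤ R * (S : ℝ) ^ 2 * (N * H) := by gcongr
      _ = y := by rw [hy]; ring
  have hy1 : (1 : ℝ) ≤ y := by nlinarith
  have hXy : 4096 * y ^ 2 ≤ X := by
    have hb : (2 * y) ^ 12 ≤ X := by
      calc (2 * y) ^ 12 = (2 * (R : ℝ) * (S : ℝ) ^ 2 * N * H) ^ 12 := by rw [hy]; ring
        _ ≤ X := hX
    have hc : y ^ 2 ≤ y ^ 12 := pow_le_pow_right₀ hy1 (by norm_num)
    calc 4096 * y ^ 2 ≤ 4096 * y ^ 12 := by linarith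
      _ = (2 * y) ^ 12 := by ring
      _ ≤ X := hb
  have hXs : 100 * (R : ℝ) ^ 2 * (S : ℝ) ^ 4 * (N : ℝ) ^ 2 * (H : ℝ) ^ 2 ≤ X := by
    calc 100 * (R : ℝ) ^ 2 * (S : ℝ) ^ 4 * (N : ℝ) ^ 2 * (H : ℝ) ^ 2 = 100 * y ^ 2 := by rw [hy]; ring
      _ ≤ 4096 * y ^ 2 := by nlinarith [sq_nonneg y]
      _ ≤ X := hXy
  have hXB : 16 * ((R : ℝ) * S) ^ 2 ≤ X := by
    have hd : ((R : ℝ) * S) ^ 2 ≤ y ^ 2 := by gcongr
    nlinarith [sq_nonneg y]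
  -- the bound of the pairs
  have hD0 : 0 ≤ C2 * T ^ A2 * Tz0K_E R S N R0 V := by
    have := Tz0K_nonneg R S N R0 V
    positivity
  have hmain := hSec X T (C2 * T ^ A2 * Tz0K_E R S N R0 V) a b ρ v col K g R S N H R0 V Hs γ ω hTau hD0 hK1 hg hR hS hN hH
    hR0 hV hRN hXs hHs hγ hω ?_ ?_
  · refine hmain.trans ?_
    have hfin := Tz0K_final (R := R) (S := S) (N := N) (R0 := R0) (V := V) hR hN hR0
    obtain ⟨Kb, hK⟩ : ∃ Kb : ℝ, Kb = (R : ℝ) ^ 3 * S * V / (R0 * Real.sqrt R0 * (N : ℝ) ^ 2) +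
        (R : ℝ) ^ 2 / (R0 * Real.sqrt R0 * N) + R * Real.sqrt R * Real.sqrt ((S : ℝ) * V) / ((R0 : ℝ) * N) +
          R / (R0 * Real.sqrt R0) := ⟨_, rfl⟩
    rw [← hK] at hfin ⊢
    have hK0 : 0 ≤ Kb := by rw [hK]; positivity
    have hTA1 : 1 ≤ T ^ A1 := one_le_pow₀ hT1
    have hTA2 : 1 ≤ T ^ A2 := one_le_pow₀ hT1
    have e1 : (H : ℝ) ^ 2 / (g : ℝ) ^ 4 ≤ ((H : ℝ) / g) ^ 2 := by
      rw [div_pow]
      have : (g : ℝ) ^ 2 ≤ (g : ℝ) ^ 4 := pow_le_pow_right₀ hg1 (by norm_num)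
      gcongr
    have e2 : (R : ℝ) ^ 2 * (C2 * T ^ A2 * Tz0K_E R S N R0 V) / ((R0 : ℝ) * (N : ℝ) ^ 2) ≤ 8 * C2 * T ^ A2 * Kb := by
      calc (R : ℝ) ^ 2 * (C2 * T ^ A2 * Tz0K_E R S N R0 V) / ((R0 : ℝ) * (N : ℝ) ^ 2) =
          C2 * T ^ A2 * ((R : ℝ) ^ 2 * Tz0K_E R S N R0 V / ((R0 : ℝ) * (N : ℝ) ^ 2)) := by ring
        _ ≤ C2 * T ^ A2 * (8 * Kb) := by gcongr
        _ = _ := by ring
    have e0 : 0 ≤ (R : ℝ) ^ 2 * (C2 * T ^ A2 * Tz0K_E R S N R0 V) / ((R0 : ℝ) * (N : ℝ) ^ 2) := by positivity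
    have e3 : (H : ℝ) ^ 2 / (g : ℝ) ^ 4 *
        ((R : ℝ) ^ 2 * (C2 * T ^ A2 * Tz0K_E R S N R0 V) / ((R0 : ℝ) * (N : ℝ) ^ 2)) ≤
        ((H : ℝ) / g) ^ 2 * (8 * C2 * T ^ A2 * Kb) := by
      gcongr
    have p1 : 0 ≤ (H : ℝ) / ((V : ℝ) ^ 2 * (g : ℝ) ^ 3) := by positivity
    have p2 : 0 ≤ ((H : ℝ) / g) ^ 2 * Kb := by positivity
    calc C1 * T ^ A1 * (K : ℝ) ^ 2 * ((S : ℝ) ^ 2 * (N : ℝ) ^ 2) ^ 2 * ((H : ℝ) / ((V : ℝ) ^ 2 * (g : ℝ) ^ 3) +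
          (H : ℝ) ^ 2 / (g : ℝ) ^ 4 *
            ((R : ℝ) ^ 2 * (C2 * T ^ A2 * Tz0K_E R S N R0 V) / ((R0 : ℝ) * (N : ℝ) ^ 2)))
        ≤ C1 * T ^ A1 * (K : ℝ) ^ 2 * ((S : ℝ) ^ 2 * (N : ℝ) ^ 2) ^ 2 * ((H : ℝ) / ((V : ℝ) ^ 2 * (g : ℝ) ^ 3) +
          ((H : ℝ) / g) ^ 2 * (8 * C2 * T ^ A2 * Kb)) := by gcongr
      _ ≤ C1 * T ^ A1 * (K : ℝ) ^ 2 * ((S : ℝ) ^ 2 * (N : ℝ) ^ 2) ^ 2 *
          ((1 + 8 * C2) * T ^ A2 * ((H : ℝ) / ((V : ℝ) ^ 2 * (g : ℝ) ^ 3) + ((H : ℝ) / g) ^ 2 * Kb)) := by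
          gcongr
          have q1 : (H : ℝ) / ((V : ℝ) ^ 2 * (g : ℝ) ^ 3) ≤
              (1 + 8 * C2) * T ^ A2 * ((H : ℝ) / ((V : ℝ) ^ 2 * (g : ℝ) ^ 3)) := by
            have : 1 ≤ (1 + 8 * C2) * T ^ A2 := by nlinarith
            nlinarith
          have q2 : ((H : ℝ) / g) ^ 2 * (8 * C2 * T ^ A2 * Kb) ≤ (1 + 8 * C2) * T ^ A2 * (((H : ℝ) / g) ^ 2 * Kb) := by
            have : 0 ≤ T ^ A2 * (((H : ℝ) / g) ^ 2 * Kb) := by positivity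
            nlinarith
          calc _ ≤ _ := add_le_add q1 q2
            _ = _ := by ring
      _ = _ := by rw [pow_add]; ring
  · -- the support
    intro h r s1 s2 _ hr hs1 hs2 hne
    rw [mem_Ioc] at hr hs1 hs2
    obtain ⟨l1, l2, l3, l4, l5⟩ := hLt h r s1 s2 hne
    exact ⟨hr, hs1, hs2, l1, l2, l3, l4, l5, hND h r s1 s2 hne⟩
  · -- the pairs
    intro h h' r s1 s2 r' s1' s2' _ _ _ _ _ _ hsuK hsuK' hkyK _
    have hsu := SuK_Su hsuK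
    obtain ⟨hsu', hky⟩ := SuK_Su' hsuK' hkyK
    have hsu0 := hsu
    have hsu0' := hsu'
    obtain ⟨hr, hs1, hs2, hρ, -⟩ := hsu0
    obtain ⟨hr', hs1', hs2', -⟩ := hsu0'
    rcases hPh a _ _ ρ v g R0 V R S N h h' r s1 s2 r' s1' s2' hg hR0 hV hsu hsu' hky with hz | hP
    · have h0 : (∑ n1 ∈ Ioc N (2 * N), ∑ n2 ∈ Ioc N (2 * N),
          Fp a g h r s1 s2 n1 n2 * (starRingEnd ℂ) (Fp a g h' r' s1' s2' n1 n2)) = 0 :=
        sum_eq_zero fun n1 _ => sum_eq_zero fun n2 _ => hz n1 n2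
      rw [h0, norm_zero]
      exact mul_nonneg hD0 (Nat.cast_nonneg _)
    · obtain ⟨B, w1, w2, l, c1, c2, hBe, hBw1, hBw2, hsq1, hsq2, hl, hw1, hw2, hgw1, hgw2, hRg, hBR, hcg, hF⟩ := hP
      obtain ⟨k3, hk3⟩ : ∃ k3 : ℕ, k3 = g * Nat.lcm (r / ρ r) (r' / ρ r') := ⟨_, rfl⟩
      rw [← hk3] at hBe
      have hco1 := Nat.squarefree_mul_iff.1 hsq1
      have hco2 := Nat.squarefree_mul_iff.1 hsq2
      have hsum : (∑ n1 ∈ Ioc N (2 * N), ∑ n2 ∈ Ioc N (2 * N),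
          Fp a g h r s1 s2 n1 n2 * (starRingEnd ℂ) (Fp a g h' r' s1' s2' n1 n2)) =
          ∑ n1 ∈ Ioc N (2 * N), ∑ n2 ∈ Ioc N (2 * N),
            fE 1 (ρ r) k3 1 l (t1g c1 (ρ r * k3 * w1)) (t1g c2 w2) n1 n2 := by
        refine sum_congr rfl fun n1 hn1 => sum_congr rfl fun n2 hn2 => ?_
        rw [mem_Ioc] at hn1 hn2
        rw [hF n1 n2 (by omega) (by omega), hBe]
        unfold fE
        simp only [one_mul, Nat.coprime_one_right_eq_true, and_true]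
      have hXw : ∀ w s s' : ℕ, s ≤ 2 * S → s' ≤ 2 * S → B * w = Nat.lcm (r * s) (r' * s') →
          ((1 * ρ r * k3 * w : ℕ) : ℝ) ≤ X := by
        intro w s s' hs hs' hw
        have e1 : 1 * ρ r * k3 * w = Nat.lcm (r * s) (r' * s') := by rw [← hw, hBe, one_mul]
        have e2 : Nat.lcm (r * s) (r' * s') ≤ (r * s) * (r' * s') := by
          have : Nat.gcd (r * s) (r' * s') * Nat.lcm (r * s) (r' * s') = (r * s) * (r' * s') :=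
            Nat.gcd_mul_lcm _ _
          rcases Nat.eq_zero_or_pos (Nat.gcd (r * s) (r' * s')) with h0 | h0
          · rw [Nat.gcd_eq_zero_iff] at h0
            rw [h0.1]
            simp
          · nlinarith [Nat.zero_le (Nat.lcm (r * s) (r' * s'))]
        have e3 : (r * s) * (r' * s') ≤ 16 * (R * S) ^ 2 := by
          calc (r * s) * (r' * s') ≤ ((2 * R) * (2 * S)) * ((2 * R) * (2 * S)) :=
              Nat.mul_le_mul (Nat.mul_le_mul hr.2 hs) (Nat.mul_le_mul hr'.2 hs')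
            _ = _ := by ring
        calc ((1 * ρ r * k3 * w : ℕ) : ℝ) ≤ ((16 * (R * S) ^ 2 : ℕ) : ℝ) := by
              exact_mod_cast (e1.le.trans e2).trans e3
          _ = 16 * ((R : ℝ) * S) ^ 2 := by push_cast; ring
          _ ≤ X := hXB
      have hE := hEk X T 1 (ρ r) k3 w1 w2 N N (2 * N) N (2 * N) 1 l c1 c2 hTau
        ⟨by rw [one_mul, ← hBe]; exact hco1.2.1, hw1, hw2, by rw [one_mul, ← hBe]; exact hco1.1,
          by rw [one_mul, ← hBe]; exact hco2.1, Int.one_gcd, by rw [one_mul, ← hBe]; exact hl⟩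
        hco1.2.2 hco2.2.2 hN (by omega) (by omega) (by omega) (by omega)
        (hXw w1 s1 s1' hs1.2 hs1'.2 hBw1) (hXw w2 s2 s2' hs2.2 hs2'.2 hBw2)
      have hterms := Tz0K_terms (N := N) hg hR hR0 hρ.2.1 hBe hRg hBR hgw1 hgw2
      have hρ1 : 1 ≤ ρ r := by omega
      have hgc : Int.gcd c1 (ρ r : ℤ) = Int.gcd (Th ρ v h h' r s1 s2 r' s1' s2') (ρ r : ℤ) := hcg (ρ r) dvd_rfl
      have hg0 : 1 ≤ Int.gcd (Th ρ v h h' r s1 s2 r' s1' s2') (ρ r : ℤ) := by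
        refine Nat.one_le_iff_ne_zero.2 fun h0 => ?_
        rw [Int.gcd_eq_zero_iff] at h0
        have := h0.2
        omega
      rw [hsum]
      refine hE.trans ?_
      rw [hgc]
      have hsq := Tz0K_sqrt hg0
      have hE0 := Tz0K_nonneg R S N R0 V
      calc _ ≤ C2 * T ^ A2 * (Int.gcd (Th ρ v h h' r s1 s2 r' s1' s2') (ρ r : ℤ) : ℝ) * Tz0K_E R S N R0 V := by
            gcongr
        _ = _ := by ring

end Pool.Agent.Lib.SL
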