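import Pool.Agent.Lib.SL.SpecV

set_option autoImplicit false

namespace Pool.Agent.Lib.SL

open Finset Pool.Agent.Lib.EH3 Pool.Agent.Lib.TB Pool.Agent.Results.MP_00e23e_nt Pool.Agent.Lib.MI

/-- One class modulo B in an initial interval. -/
private theorem VCnt_inj (B : ℕ) (l1 k : ℤ) (hg : Int.gcd l1 (B : ℤ) = 1)
    (x y : ℕ) (hx : (B : ℤ) ∣ l1 * x - k) (hy : (B : ℤ) ∣ l1 * y - k) (hd : x / B = y / B) :
    x = y := by
  have h1 : (B : ℤ) ∣ l1 * ((x : ℤ) - y) := by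
    have h := dvd_sub hx hy
    have e : l1 * (x : ℤ) - k - (l1 * y - k) = l1 * ((x : ℤ) - y) := by ring
    rwa [e] at h
  have hco : IsCoprime (B : ℤ) l1 := by
    have h := (Int.isCoprime_iff_gcd_eq_one.mpr hg)
    exact h.symm
  have h2 : (B : ℤ) ∣ (x : ℤ) - y := hco.dvd_of_dvd_mul_left h1
  have h3 : (y : ℤ) ≡ (x : ℤ) [ZMOD (B : ℤ)] := Int.modEq_iff_dvd.mpr h2
  have h4 : y ≡ x [MOD B] := (Int.natCast_modEq_iff).mp h3
  have h5 : y % B = x % B := h4
  have e1 := Nat.div_add_mod x B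
  have e2 := Nat.div_add_mod y B
  rw [← e1, ← e2, hd, h5]

theorem tVCnt : VCntStmt := by
  classical
  intro B N l1 l2 c0 hB hN hg
  have hBpos : 0 < B := hB
  have hBr : (1 : ℝ) ≤ (B : ℝ) := by exact_mod_cast hB
  have hNr : (1 : ℝ) ≤ (N : ℝ) := by exact_mod_cast hN
  have hlast : (((2 * N / B + 1) * (range (2 * N + 1)).card : ℕ) : ℝ)
      ≤ 9 * (N : ℝ) * ((N : ℝ) / B + 1) := by
    rw [Finset.card_range]
    have h1 : ((2 * N / B : ℕ) : ℝ) ≤ ((2 * N : ℕ) : ℝ) / (B : ℝ) := Nat.cast_div_le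
    have h2 : (0 : ℝ) ≤ (N : ℝ) / B := by positivity
    have h3 : ((2 * N / B + 1 : ℕ) : ℝ) ≤ 2 * ((N : ℝ) / B) + 1 := by
      push_cast at h1 ⊢
      have e : 2 * (N : ℝ) / B = 2 * ((N : ℝ) / B) := by ring
      linarith
    have h4 : ((2 * N + 1 : ℕ) : ℝ) ≤ 3 * (N : ℝ) := by
      push_cast
      linarith
    have h5 : (0 : ℝ) ≤ ((2 * N + 1 : ℕ) : ℝ) := Nat.cast_nonneg _
    calc (((2 * N / B + 1) * (2 * N + 1) : ℕ) : ℝ)
        = ((2 * N / B + 1 : ℕ) : ℝ) * ((2 * N + 1 : ℕ) : ℝ) := by push_cast; ring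
      _ ≤ (2 * ((N : ℝ) / B) + 1) * (3 * (N : ℝ)) := by
          apply mul_le_mul h3 h4 h5
          positivity
      _ ≤ 9 * (N : ℝ) * ((N : ℝ) / B + 1) := by
          nlinarith [mul_nonneg (le_trans zero_le_one hNr) h2]
  refine le_trans (Nat.cast_le.mpr (Finset.card_le_mul_card_image_of_maps_to
    (f := Prod.snd) (t := range (2 * N + 1)) ?_ (2 * N / B + 1) ?_)) hlast
  · intro a ha
    exact (Finset.mem_product.mp (Finset.mem_filter.mp ha).1).2
  · intro b _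
    have hcr : (2 * N / B + 1) = (range (2 * N / B + 1)).card := (Finset.card_range _).symm
    rw [hcr]
    refine Finset.card_le_card_of_injOn (fun a => a.1 / B) ?_ ?_
    · intro a ha
      have ha1 := Finset.mem_filter.mp (Finset.mem_coe.mp ha)
      have ha2 := Finset.mem_filter.mp ha1.1
      have ha3 := Finset.mem_range.mp (Finset.mem_product.mp ha2.1).1
      apply Finset.mem_coe.mpr
      apply Finset.mem_range.mpr
      have : a.1 / B ≤ 2 * N / B := Nat.div_le_div_right (by omega)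
      exact Nat.lt_succ_of_le this
    · intro a ha a' ha' hq
      have ha1 := Finset.mem_filter.mp (Finset.mem_coe.mp ha)
      have hb1 := Finset.mem_filter.mp (Finset.mem_coe.mp ha')
      have ha2 := (Finset.mem_filter.mp ha1.1).2
      have hb2 := (Finset.mem_filter.mp hb1.1).2
      have ea : a.2 = b := ha1.2
      have eb : a'.2 = b := hb1.2
      have h1 : (B : ℤ) ∣ l1 * (a.1 : ℤ) - (l2 * (b : ℤ) + c0) := by
        have e : l1 * (a.1 : ℤ) - (l2 * (b : ℤ) + c0) = l1 * a.1 - l2 * a.2 - c0 := by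
          rw [ea]; ring
        rw [e]; exact ha2
      have h2 : (B : ℤ) ∣ l1 * (a'.1 : ℤ) - (l2 * (b : ℤ) + c0) := by
        have e : l1 * (a'.1 : ℤ) - (l2 * (b : ℤ) + c0) = l1 * a'.1 - l2 * a'.2 - c0 := by
          rw [eb]; ring
        rw [e]; exact hb2
      have h3 : a.1 = a'.1 := VCnt_inj B l1 _ hg _ _ h1 h2 hq
      exact Prod.ext h3 (ea.trans eb.symm)

end Pool.Agent.Lib.SL
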