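import Pool.Agent.Lib.SL.SpecV
import Pool.Agent.Lib.SL.SpecE

/-!
MP_00e23e_nt, project SL, module VCor (helper28): the correlations.
-/

set_option autoImplicit false

namespace Pool.Agent.Lib.SL

open Finset Pool.Agent.Lib.EH3 Pool.Agent.Lib.TB Pool.Agent.Results.MP_00e23e_nt Pool.Agent.Lib.MI

/-- shifting the variable of summation -/
private theorem VCor_shift (N x x' : ℕ) (hx : x ≤ N) (hx' : x' ≤ N) (f : ℕ → ℂ) :
    ∑ m ∈ range (2 * N + 1), (if (N < m + x ∧ m + x ≤ 2 * N) ∧ (N < m + x' ∧ m + x' ≤ 2 * N)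
      then f (m + x) else 0) =
      ∑ n ∈ Ioc (N + (x - x')) (2 * N - (x' - x)), f n := by
  rw [← Finset.sum_filter]
  refine Finset.sum_nbij' (fun m => m + x) (fun n => n - x) ?_ ?_ ?_ ?_ ?_
  · intro m hm
    rw [mem_filter, mem_range] at hm
    rw [mem_Ioc]
    omega
  · intro n hn
    rw [mem_Ioc] at hn
    rw [mem_filter, mem_range]
    omega
  · intro m _
    show m + x - x = m
    omega
  · intro n hn
    rw [mem_Ioc] at hn
    show n - x + x = n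
    omega
  · intro m _
    rfl

/-- the shift as a natural number -/
private def VCor_t (D q a a' : ℕ) : ℕ := D * a' + (q - 1) * (D * a)

private theorem VCor_teq {q : ℕ} (hq : 1 ≤ q) (D a a' m : ℕ) :
    m + D * a + VCor_t D q a a' = m + D * a' + (D * a) * q := by
  unfold VCor_t
  obtain ⟨r, rfl⟩ : ∃ r, q = r + 1 := ⟨q - 1, by omega⟩
  rw [Nat.add_sub_cancel]
  ring

private theorem VCor_tint {q : ℕ} (hq : 1 ≤ q) (D a a' : ℕ) :
    ((VCor_t D q a a' : ℕ) : ℤ) = D * ((a' : ℤ) - a) + (D * a) * q := by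
  have h := VCor_teq hq D a a' 0
  have h2 : ((0 + D * a + VCor_t D q a a' : ℕ) : ℤ) = ((0 + D * a' + (D * a) * q : ℕ) : ℤ) := by
    rw [h]
  push_cast at h2
  linarith

private theorem VCor_cop (D a a' m : ℕ) : (m + D * a).Coprime D ↔ (m + D * a').Coprime D := by
  rw [Nat.coprime_add_mul_left_left, Nat.coprime_add_mul_left_left]

private theorem VCor_one (c : ℤ) (n : ℕ) : t1g c 1 n = 1 := by
  unfold t1g
  rw [if_pos (Nat.coprime_one_right n)]
  exact en_of_dvd (by simp)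

/-- the gcd -/
private theorem VCor_gcd (c : ℤ) (F D q x : ℕ) (y : ℤ) (t : ℕ) (hF : 1 ≤ F) (hc : F.Coprime D)
    (ht : (t : ℤ) = D * y + (x * q) * F) :
    (Int.gcd (c * t) F : ℕ) ≤ Int.gcd c F * Int.gcd y F := by
  have h1 : Int.gcd (c * t) F ∣ Int.gcd c F * Int.gcd (t : ℤ) F := by
    have h := Int.gcd_mul_right_dvd_mul_gcd (F : ℤ) c t
    rw [Int.gcd_comm (F : ℤ) (c * t), Int.gcd_comm (F : ℤ) c, Int.gcd_comm (F : ℤ) t] at h
    exact h
  have h2 : Int.gcd (t : ℤ) F ∣ Int.gcd y F := by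
    have hg1 : ((Int.gcd (t : ℤ) F : ℕ) : ℤ) ∣ (F : ℤ) := Int.gcd_dvd_right _ _
    have hg2 : ((Int.gcd (t : ℤ) F : ℕ) : ℤ) ∣ (t : ℤ) := Int.gcd_dvd_left _ _
    have hg3 : ((Int.gcd (t : ℤ) F : ℕ) : ℤ) ∣ (D : ℤ) * y := by
      have e : (D : ℤ) * y = (t : ℤ) - (x * q) * F := by rw [ht]; ring
      rw [e]
      exact dvd_sub hg2 (dvd_mul_of_dvd_right hg1 _)
    have hcop : IsCoprime ((Int.gcd (t : ℤ) F : ℕ) : ℤ) (D : ℤ) := by
      have : (Int.gcd (t : ℤ) F).Coprime D :=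
        Nat.Coprime.coprime_dvd_left (Int.natCast_dvd_natCast.1 hg1) hc
      exact Nat.isCoprime_iff_coprime.2 this
    exact Int.dvd_gcd (hcop.dvd_of_dvd_mul_left hg3) hg1
  have hpos : 0 < Int.gcd y F := Int.gcd_pos_of_ne_zero_right _ (by exact_mod_cast (by omega : F ≠ 0))
  have hpos2 : 0 < Int.gcd c F := Int.gcd_pos_of_ne_zero_right _ (by exact_mod_cast (by omega : F ≠ 0))
  calc Int.gcd (c * t) F ≤ Int.gcd c F * Int.gcd (t : ℤ) F :=
        Nat.le_of_dvd (Nat.mul_pos hpos2 (Int.gcd_pos_of_ne_zero_right _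
          (by exact_mod_cast (by omega : F ≠ 0)))) h1
    _ ≤ Int.gcd c F * Int.gcd y F := Nat.mul_le_mul_left _ (Nat.le_of_dvd hpos h2)

/-- the two factors of the correlation -/
private noncomputable def VCor_P1 (F w : ℕ) (c c1 : ℤ) (t n : ℕ) : ℂ :=
  t1g c F n * t1g c1 w n * (starRingEnd ℂ) (t1g c F (n + t) * t1g c1 w (n + t))

/-- the pointwise identity -/
private theorem VCor_point (F D w1 w2 : ℕ) (l c c1 c2 : ℤ) (N m1 m2 : ℕ) (a a' : ℕ × ℕ) (hF : 1 ≤ F)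
    (hw1 : 1 ≤ w1) (hw2 : 1 ≤ w2) :
    (if ((F * D : ℕ) : ℤ) ∣ ((m1 + D * a.1 : ℕ) : ℤ) - l * ((m2 + D * a.2 : ℕ) : ℤ) then
        vBox N (vG F D w1 w2 c c1 c2) (m1 + D * a.1) (m2 + D * a.2) *
        (starRingEnd ℂ) (vBox N (vG F D w1 w2 c c1 c2) (m1 + D * a'.1) (m2 + D * a'.2)) else 0) =
    (if (N < m1 + D * a.1 ∧ m1 + D * a.1 ≤ 2 * N) ∧ (N < m1 + D * a'.1 ∧ m1 + D * a'.1 ≤ 2 * N)
      then (if (N < m2 + D * a.2 ∧ m2 + D * a.2 ≤ 2 * N) ∧
          (N < m2 + D * a'.2 ∧ m2 + D * a'.2 ≤ 2 * N)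
        then fE D F 1 1 l (VCor_P1 F w1 c c1 (VCor_t D (F * w1) a.1 a'.1))
          (VCor_P1 1 w2 0 c2 (VCor_t D (1 * w2) a.2 a'.2)) (m1 + D * a.1) (m2 + D * a.2) else 0)
      else 0) := by
  by_cases h1 : (N < m1 + D * a.1 ∧ m1 + D * a.1 ≤ 2 * N) ∧
      (N < m1 + D * a'.1 ∧ m1 + D * a'.1 ≤ 2 * N)
  · by_cases h2 : (N < m2 + D * a.2 ∧ m2 + D * a.2 ≤ 2 * N) ∧
      (N < m2 + D * a'.2 ∧ m2 + D * a'.2 ≤ 2 * N)
    · rw [if_pos h1, if_pos h2]
      have v1 : vBox N (vG F D w1 w2 c c1 c2) (m1 + D * a.1) (m2 + D * a.2) =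
        vG F D w1 w2 c c1 c2 (m1 + D * a.1) (m2 + D * a.2) := if_pos ⟨h1.1, h2.1⟩
      have v2 : vBox N (vG F D w1 w2 c c1 c2) (m1 + D * a'.1) (m2 + D * a'.2) =
        vG F D w1 w2 c c1 c2 (m1 + D * a'.1) (m2 + D * a'.2) := if_pos ⟨h1.2, h2.2⟩
      rw [v1, v2]
      unfold fE
      have e1 : ((D * F * 1 : ℕ) : ℤ) = ((F * D : ℕ) : ℤ) := by push_cast; ring
      have e2 : (1 : ℤ) * ((m1 + D * a.1 : ℕ) : ℤ) - l * ((m2 + D * a.2 : ℕ) : ℤ) =
        ((m1 + D * a.1 : ℕ) : ℤ) - l * ((m2 + D * a.2 : ℕ) : ℤ) := by ring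
      rw [e1, e2]
      by_cases h3 : ((F * D : ℕ) : ℤ) ∣ ((m1 + D * a.1 : ℕ) : ℤ) - l * ((m2 + D * a.2 : ℕ) : ℤ)
      · by_cases h4 : (m1 + D * a.1).Coprime D
        · rw [if_pos h3, if_pos ⟨h3, h4⟩]
          have h5 := (VCor_cop D a.1 a'.1 m1).1 h4
          unfold vG VCor_P1
          rw [if_pos h4, if_pos h5, VCor_one, VCor_one]
          have q1 : 1 ≤ F * w1 := Nat.mul_pos hF hw1
          have q2 : 1 ≤ 1 * w2 := by omega
          rw [VCor_teq q1, VCor_teq q2]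
          have f1 : t1g c F (m1 + D * a'.1 + D * a.1 * (F * w1)) = t1g c F (m1 + D * a'.1) := by
            rw [show D * a.1 * (F * w1) = (D * a.1 * w1) * F by ring, t1_g_add_mul]
          have f2 : t1g c1 w1 (m1 + D * a'.1 + D * a.1 * (F * w1)) = t1g c1 w1 (m1 + D * a'.1) := by
            rw [show D * a.1 * (F * w1) = (D * a.1 * F) * w1 by ring, t1_g_add_mul]
          have f3 : t1g c2 w2 (m2 + D * a'.2 + D * a.2 * (1 * w2)) = t1g c2 w2 (m2 + D * a'.2) := by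
            rw [one_mul, t1_g_add_mul]
          rw [f1, f2, f3]
          simp only [map_mul, one_mul]
          ring
        · have h5 : ¬ (m1 + D * a'.1).Coprime D := fun h => h4 ((VCor_cop D a.1 a'.1 m1).2 h)
          rw [if_pos h3, if_neg (fun h => h4 h.2)]
          unfold vG
          rw [if_neg h4]
          simp
      · rw [if_neg h3, if_neg (fun h => h3 h.1)]
    · rw [if_pos h1, if_neg h2]
      have : vBox N (vG F D w1 w2 c c1 c2) (m1 + D * a.1) (m2 + D * a.2) *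
        (starRingEnd ℂ) (vBox N (vG F D w1 w2 c c1 c2) (m1 + D * a'.1) (m2 + D * a'.2)) = 0 := by
        unfold vBox
        by_cases h3 : N < m2 + D * a.2 ∧ m2 + D * a.2 ≤ 2 * N
        · rw [if_neg (fun h : (N < m1 + D * a'.1 ∧ m1 + D * a'.1 ≤ 2 * N) ∧
            N < m2 + D * a'.2 ∧ m2 + D * a'.2 ≤ 2 * N => h2 ⟨h3, h.2⟩)]
          simp
        · rw [if_neg (fun h : (N < m1 + D * a.1 ∧ m1 + D * a.1 ≤ 2 * N) ∧
            N < m2 + D * a.2 ∧ m2 + D * a.2 ≤ 2 * N => h3 h.2)]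
          simp
      rw [this]
      simp
  · rw [if_neg h1]
    have : vBox N (vG F D w1 w2 c c1 c2) (m1 + D * a.1) (m2 + D * a.2) *
        (starRingEnd ℂ) (vBox N (vG F D w1 w2 c c1 c2) (m1 + D * a'.1) (m2 + D * a'.2)) = 0 := by
      unfold vBox
      by_cases h3 : N < m1 + D * a.1 ∧ m1 + D * a.1 ≤ 2 * N
      · rw [if_neg (fun h : (N < m1 + D * a'.1 ∧ m1 + D * a'.1 ≤ 2 * N) ∧
          N < m2 + D * a'.2 ∧ m2 + D * a'.2 ≤ 2 * N => h1 ⟨h3, h.1⟩)]
        simp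
      · rw [if_neg (fun h : (N < m1 + D * a.1 ∧ m1 + D * a.1 ≤ 2 * N) ∧
          N < m2 + D * a.2 ∧ m2 + D * a.2 ≤ 2 * N => h3 h.1)]
        simp
    rw [this]
    simp

private theorem VCor_per (F w : ℕ) (c c1 : ℤ) (t n : ℕ) :
    VCor_P1 F w c c1 t (n + F * w) = VCor_P1 F w c c1 t n := by
  unfold VCor_P1
  have f1 : ∀ m, t1g c F (m + F * w) = t1g c F m := by
    intro m
    rw [mul_comm F w, t1_g_add_mul]
  have f2 : ∀ m, t1g c1 w (m + F * w) = t1g c1 w m := by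
    intro m
    rw [t1_g_add_mul]
  rw [show n + F * w + t = (n + t) + F * w by ring, f1, f2, f1, f2]

/-- the final inequality -/
private theorem VCor_fin (T e Γ γ C : ℝ) (A : ℕ) (F D w1 w2 N : ℝ) (hT : 1 ≤ T) (hC : 0 < C) (hF : 1 ≤ F)
    (hD : 1 ≤ D) (hw1 : 1 ≤ w1) (hw2 : 1 ≤ w2) (hN : 1 ≤ N) (hΓγ : Γ ≤ γ)
    (he1 : 1 / Real.sqrt F ≤ e) (he2 : Real.sqrt (F * w1 * w2) * (F * D) / N ^ 2 ≤ e)
    (he3 : Real.sqrt (F * w1) / N ≤ e) (he4 : Real.sqrt (F * w2) / N ≤ e) :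
    C * T ^ A * ((T ^ 4 * Real.sqrt (F * w1 * Γ)) * (T ^ 4 * Real.sqrt (1 * w2 * 1))) *
      (1 + D * Real.sqrt 1 * N / ((D * F * 1) * Real.sqrt (w1 * w2)) +
      N / ((D * F * 1) * Real.sqrt w1) + N / ((D * F * 1) * Real.sqrt w2) +
      D * Real.sqrt 1 * N ^ 2 / ((D * F * 1) ^ 2 * Real.sqrt (w1 * w2))) ≤
    5 * C * T ^ (A + 8) * (N * (N / (F * D) + 1)) * e * Real.sqrt γ := by
  have hF0 : 0 < F := by linarith
  have hD0 : 0 < D := by linarith
  have hN0 : 0 < N := by linarith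
  have hw10 : 0 < w1 := by linarith
  have hw20 : 0 < w2 := by linarith
  have sF : 0 < Real.sqrt F := Real.sqrt_pos.2 hF0
  have s1 : 0 < Real.sqrt w1 := Real.sqrt_pos.2 hw10
  have s2 : 0 < Real.sqrt w2 := Real.sqrt_pos.2 hw20
  have qF : Real.sqrt F * Real.sqrt F = F := Real.mul_self_sqrt hF0.le
  have q1 : Real.sqrt w1 * Real.sqrt w1 = w1 := Real.mul_self_sqrt hw10.le
  have q2 : Real.sqrt w2 * Real.sqrt w2 = w2 := Real.mul_self_sqrt hw20.le
  set f := Real.sqrt F with hf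
  set u := Real.sqrt w1 with hu
  set v := Real.sqrt w2 with hv
  have e1 : Real.sqrt (F * w1 * Γ) = f * u * Real.sqrt Γ := by
    rw [Real.sqrt_mul (by positivity), Real.sqrt_mul hF0.le]
  have e2 : Real.sqrt (1 * w2 * 1) = v := by rw [one_mul, mul_one]
  have e3 : Real.sqrt (w1 * w2) = u * v := by rw [Real.sqrt_mul hw10.le]
  have e4 : Real.sqrt (F * w1 * w2) = f * u * v := by
    rw [Real.sqrt_mul (by positivity), Real.sqrt_mul hF0.le]
  have e5 : Real.sqrt (F * w1) = f * u := by rw [Real.sqrt_mul hF0.le]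
  have e6 : Real.sqrt (F * w2) = f * v := by rw [Real.sqrt_mul hF0.le]
  rw [e4] at he2
  rw [e5] at he3
  rw [e6] at he4
  rw [e1, e2, e3, Real.sqrt_one]
  have he0 : 0 ≤ e := le_trans (by positivity) he1
  set L := N * (N / (F * D) + 1) with hL
  have hL1 : N ≤ L := by
    rw [hL]
    have : 0 ≤ N / (F * D) := by positivity
    nlinarith
  have hL2 : N ^ 2 / (F * D) ≤ L := by
    rw [hL]
    have : N * (N / (F * D) + 1) = N ^ 2 / (F * D) + N := by
      field_simp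
    rw [this]
    linarith
  have hL0 : 0 < L := lt_of_lt_of_le hN0 hL1
  have t1 : f * u * v ≤ e * L := by
    rw [div_le_iff₀ (by positivity)] at he2
    have h : f * u * v ≤ e * (N ^ 2 / (F * D)) := by
      rw [mul_div_assoc', le_div_iff₀ (by positivity)]
      exact he2
    exact h.trans (mul_le_mul_of_nonneg_left hL2 he0)
  have t2 : f * u * v * (D * 1 * N / ((D * F * 1) * (u * v))) ≤ e * L := by
    have h : f * u * v * (D * 1 * N / ((D * F * 1) * (u * v))) = (1 / f) * N := by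
      have : (1 / f) * N = f * N / F := by
        rw [← qF]; field_simp
      rw [this]
      field_simp
    rw [h]
    exact mul_le_mul he1 hL1 hN0.le he0
  have t3 : f * u * v * (N / ((D * F * 1) * u)) ≤ e * L := by
    have h : f * u * v * (N / ((D * F * 1) * u)) = (f * v / N) * (N ^ 2 / (F * D)) := by
      field_simp
    rw [h]
    exact mul_le_mul he4 hL2 (by positivity) he0
  have t4 : f * u * v * (N / ((D * F * 1) * v)) ≤ e * L := by
    have h : f * u * v * (N / ((D * F * 1) * v)) = (f * u / N) * (N ^ 2 / (F * D)) := by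
      field_simp
    rw [h]
    exact mul_le_mul he3 hL2 (by positivity) he0
  have t5 : f * u * v * (D * 1 * N ^ 2 / ((D * F * 1) ^ 2 * (u * v))) ≤ e * L := by
    have h : f * u * v * (D * 1 * N ^ 2 / ((D * F * 1) ^ 2 * (u * v))) =
        (1 / f) * (N ^ 2 / (F * D)) := by
      have : (1 / f) * (N ^ 2 / (F * D)) = f * N ^ 2 / (F * (F * D)) := by
        rw [← qF]; field_simp
      rw [this]
      field_simp
    rw [h]
    exact mul_le_mul he1 hL2 (by positivity) he0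
  have hsum : f * u * v * (1 + D * 1 * N / ((D * F * 1) * (u * v)) +
      N / ((D * F * 1) * u) + N / ((D * F * 1) * v) +
      D * 1 * N ^ 2 / ((D * F * 1) ^ 2 * (u * v))) ≤ 5 * (e * L) := by
    have : f * u * v * (1 + D * 1 * N / ((D * F * 1) * (u * v)) +
      N / ((D * F * 1) * u) + N / ((D * F * 1) * v) +
      D * 1 * N ^ 2 / ((D * F * 1) ^ 2 * (u * v))) = f * u * v +
      f * u * v * (D * 1 * N / ((D * F * 1) * (u * v))) + f * u * v * (N / ((D * F * 1) * u)) +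
      f * u * v * (N / ((D * F * 1) * v)) +
      f * u * v * (D * 1 * N ^ 2 / ((D * F * 1) ^ 2 * (u * v))) := by ring
    rw [this]
    linarith
  have hs : Real.sqrt Γ ≤ Real.sqrt γ := Real.sqrt_le_sqrt hΓγ
  have hp : 0 ≤ C * T ^ (A + 8) := by positivity
  calc C * T ^ A * ((T ^ 4 * (f * u * Real.sqrt Γ)) * (T ^ 4 * v)) *
      (1 + D * 1 * N / ((D * F * 1) * (u * v)) + N / ((D * F * 1) * u) + N / ((D * F * 1) * v) +
      D * 1 * N ^ 2 / ((D * F * 1) ^ 2 * (u * v)))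
      = C * T ^ (A + 8) * (Real.sqrt Γ * (f * u * v *
        (1 + D * 1 * N / ((D * F * 1) * (u * v)) + N / ((D * F * 1) * u) + N / ((D * F * 1) * v) +
        D * 1 * N ^ 2 / ((D * F * 1) ^ 2 * (u * v))))) := by
        rw [pow_add]; ring
    _ ≤ C * T ^ (A + 8) * (Real.sqrt γ * (5 * (e * L))) := by
        refine mul_le_mul_of_nonneg_left ?_ hp
        refine mul_le_mul hs hsum (by positivity) (Real.sqrt_nonneg _)
    _ = 5 * C * T ^ (A + 8) * L * e * Real.sqrt γ := by ring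

open Classical in
theorem tVCor (h1 : EsStmt) (h2 : VCplStmt) : VCorStmt := by
  obtain ⟨C, hC, A, hE⟩ := h1
  refine ⟨5 * C, by positivity, A + 8, ?_⟩
  intro X T e F D w1 w2 N l c c1 c2 a a' hT hsq hs1 hs2 hc1 hc2 hl hN hX he1 he2 he3 he4 ha1 ha2
    ha1' ha2'
  have hT1 : 1 ≤ T := hT.1
  have hFD : F.Coprime D := Nat.coprime_of_squarefree_mul hsq
  have hF : 1 ≤ F := Nat.pos_of_ne_zero fun h => by
    rw [h, zero_mul] at hsq; exact not_squarefree_zero hsq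
  have hD : 1 ≤ D := Nat.pos_of_ne_zero fun h => by
    rw [h, mul_zero] at hsq; exact not_squarefree_zero hsq
  have hw1 : 1 ≤ w1 := Nat.pos_of_ne_zero fun h => by
    rw [h] at hs1; exact not_squarefree_zero hs1
  have hw2 : 1 ≤ w2 := Nat.pos_of_ne_zero fun h => by
    rw [h] at hs2; exact not_squarefree_zero hs2
  have hFr : (1 : ℝ) ≤ F := by exact_mod_cast hF
  have hDr : (1 : ℝ) ≤ D := by exact_mod_cast hD
  have hw1r : (1 : ℝ) ≤ w1 := by exact_mod_cast hw1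
  have hw2r : (1 : ℝ) ≤ w2 := by exact_mod_cast hw2
  have hNr : (1 : ℝ) ≤ N := by exact_mod_cast hN
  have hN2 : (1 : ℝ) ≤ (N : ℝ) ^ 2 := one_le_pow₀ hNr
  have hXw1 : (F : ℝ) * D * w1 ≤ X := by
    have : (F : ℝ) * D * w1 ≤ F * D * w1 * w2 * (N : ℝ) ^ 2 := by
      have h3 : 0 ≤ (F : ℝ) * D * w1 := by positivity
      calc (F : ℝ) * D * w1 ≤ F * D * w1 * w2 := le_mul_of_one_le_right h3 hw2r
        _ ≤ F * D * w1 * w2 * (N : ℝ) ^ 2 := le_mul_of_one_le_right (by positivity) hN2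
    have h4 : 0 ≤ (F : ℝ) * D * w1 * w2 * (N : ℝ) ^ 2 := by positivity
    linarith
  have hXw2 : (F : ℝ) * D * w2 ≤ X := by
    have : (F : ℝ) * D * w2 ≤ F * D * w1 * w2 * (N : ℝ) ^ 2 := by
      have h3 : 0 ≤ (F : ℝ) * D * w2 := by positivity
      calc (F : ℝ) * D * w2 ≤ F * D * w2 * w1 := le_mul_of_one_le_right h3 hw1r
        _ = F * D * w1 * w2 := by ring
        _ ≤ F * D * w1 * w2 * (N : ℝ) ^ 2 := le_mul_of_one_le_right (by positivity) hN2
    have h4 : 0 ≤ (F : ℝ) * D * w1 * w2 * (N : ℝ) ^ 2 := by positivity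
    linarith
  have hXF : (F : ℝ) ≤ X := by
    refine le_trans ?_ hXw1
    have h3 : 0 ≤ (F : ℝ) := by positivity
    calc (F : ℝ) ≤ F * D := le_mul_of_one_le_right h3 hDr
      _ ≤ F * D * w1 := le_mul_of_one_le_right (by positivity) hw1r
  have hX1 : (w1 : ℝ) ≤ X := by
    refine le_trans ?_ hXw1
    have h3 : 0 ≤ (w1 : ℝ) := by positivity
    have h4 : (1 : ℝ) ≤ F * D := by nlinarith
    nlinarith
  have hX2 : (w2 : ℝ) ≤ X := by
    refine le_trans ?_ hXw2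
    have h3 : 0 ≤ (w2 : ℝ) := by positivity
    have h4 : (1 : ℝ) ≤ F * D := by nlinarith
    nlinarith
  have tF := hT.2.2 F hF hXF
  have tw1 := hT.2.2 w1 hw1 hX1
  have tw2 := hT.2.2 w2 hw2 hX2
  have sqF : Squarefree F := Squarefree.of_mul_left hsq
  have copF1 : F.Coprime w1 := Nat.Coprime.coprime_dvd_left (dvd_mul_right F D) hc1
  have copF2 : F.Coprime w2 := Nat.Coprime.coprime_dvd_left (dvd_mul_right F D) hc2
  set t1 := VCor_t D (F * w1) a.1 a'.1 with ht1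
  set t2 := VCor_t D (1 * w2) a.2 a'.2 with ht2
  set Γ : ℝ := (Int.gcd (c * t1) (F : ℤ) : ℝ) with hΓ
  set B1 : ℝ := T ^ 4 * Real.sqrt ((F : ℝ) * w1 * Γ) with hB1
  set B2 : ℝ := T ^ 4 * Real.sqrt (1 * (w2 : ℝ) * 1) with hB2
  have hΓγ : Γ ≤ (Int.gcd c (F : ℤ) : ℝ) * (Int.gcd ((a'.1 : ℤ) - a.1) (F : ℤ) : ℝ) := by
    have q1 : 1 ≤ F * w1 := Nat.mul_pos hF hw1
    have h3 := VCor_gcd c F D w1 (D * a.1) ((a'.1 : ℤ) - a.1) t1 hF hFD (by
      rw [ht1, VCor_tint q1]; push_cast; ring)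
    rw [hΓ]
    exact_mod_cast h3
  -- the hypotheses of EsStmt
  have hME : ME D F 1 w1 w2 1 l := by
    have e1 : D * F * 1 = F * D := by ring
    refine ⟨by rw [e1]; exact hsq, hw1, hw2, by rw [e1]; exact hc1, by rw [e1]; exact hc2, ?_, ?_⟩
    · exact Int.gcd_one_left _
    · rw [e1]; exact hl
  have hPE : PE F 1 w1 w2 (VCor_P1 F w1 c c1 t1) (VCor_P1 1 w2 0 c2 t2) B1 B2 := by
    refine ⟨by positivity, by positivity, ?_, ?_, ?_, ?_⟩
    · intro n
      rw [mul_one]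
      exact VCor_per F w1 c c1 t1 n
    · intro n
      have := VCor_per 1 w2 0 c2 t2 n
      rw [one_mul] at this
      exact this
    · intro j
      rw [mul_one, one_mul]
      exact h2 T c c1 j F w1 t1 hF hw1 sqF hs1 copF1 tF tw1
    · intro j
      have h3 := h2 T 0 c2 j 1 w2 t2 le_rfl hw2 squarefree_one hs2 (Nat.coprime_one_left w2)
        (by simpa using hT1) tw2
      have e1 : (Int.gcd (0 * t2) ((1 : ℕ) : ℤ) : ℝ) = 1 := by simp
      rw [e1, one_mul, Nat.cast_one] at h3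
      exact h3
  -- the sum
  have hsum : (∑ m1 ∈ range (2 * N + 1), ∑ m2 ∈ range (2 * N + 1),
      if ((F * D : ℕ) : ℤ) ∣ ((m1 + D * a.1 : ℕ) : ℤ) - l * ((m2 + D * a.2 : ℕ) : ℤ) then
        vBox N (vG F D w1 w2 c c1 c2) (m1 + D * a.1) (m2 + D * a.2) *
        (starRingEnd ℂ) (vBox N (vG F D w1 w2 c c1 c2) (m1 + D * a'.1) (m2 + D * a'.2)) else 0) =
      ∑ n1 ∈ Ioc (N + (D * a.1 - D * a'.1)) (2 * N - (D * a'.1 - D * a.1)),
        ∑ n2 ∈ Ioc (N + (D * a.2 - D * a'.2)) (2 * N - (D * a'.2 - D * a.2)),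
        fE D F 1 1 l (VCor_P1 F w1 c c1 t1) (VCor_P1 1 w2 0 c2 t2) n1 n2 := by
    rw [← VCor_shift N (D * a.1) (D * a'.1) ha1 ha1']
    refine Finset.sum_congr rfl fun m1 _ => ?_
    by_cases h3 : (N < m1 + D * a.1 ∧ m1 + D * a.1 ≤ 2 * N) ∧
      (N < m1 + D * a'.1 ∧ m1 + D * a'.1 ≤ 2 * N)
    · rw [if_pos h3, ← VCor_shift N (D * a.2) (D * a'.2) ha2 ha2']
      refine Finset.sum_congr rfl fun m2 _ => ?_
      rw [VCor_point F D w1 w2 l c c1 c2 N m1 m2 a a' hF hw1 hw2, if_pos h3]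
    · rw [if_neg h3]
      refine Finset.sum_eq_zero fun m2 _ => ?_
      rw [VCor_point F D w1 w2 l c c1 c2 N m1 m2 a a' hF hw1 hw2, if_neg h3]
  rw [hsum]
  have key := hE X T D F 1 w1 w2 N (N + (D * a.1 - D * a'.1)) (2 * N - (D * a'.1 - D * a.1))
    (N + (D * a.2 - D * a'.2)) (2 * N - (D * a'.2 - D * a.2)) 1 l (VCor_P1 F w1 c c1 t1)
    (VCor_P1 1 w2 0 c2 t2) B1 B2 hT hME hPE hN (by omega) (by omega) (by omega) (by omega)
    (by push_cast; linarith) (by push_cast; linarith)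
  refine key.trans ?_
  have hfin := VCor_fin T e Γ ((Int.gcd c (F : ℤ) : ℝ) * (Int.gcd ((a'.1 : ℤ) - a.1) (F : ℤ) : ℝ)) C A
    F D w1 w2 N hT1 hC hFr hDr hw1r hw2r hNr hΓγ he1 he2 he3 he4
  refine le_trans (le_of_eq ?_) hfin
  rw [hB1, hB2]
  push_cast
  ring

end Pool.Agent.Lib.SL
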