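import Pool.Agent.Lib.SL.SpecV

/-!
MP_00e23e_nt, project SL, chapter V, module VCpl: the complete sums.
-/

set_option autoImplicit false

namespace Pool.Agent.Lib.SL

open Finset Pool.Agent.Lib.EH3 Pool.Agent.Lib.TB Pool.Agent.Results.MP_00e23e_nt Pool.Agent.Lib.MI

private theorem VCpl_iff (g : ℕ) (A B q : ℤ) :
    g ∣ Int.gcd ((Int.gcd A B : ℕ) : ℤ) q ↔ (g : ℤ) ∣ A ∧ (g : ℤ) ∣ B ∧ (g : ℤ) ∣ q := by
  rw [← Int.natCast_dvd_natCast, Int.dvd_coe_gcd_iff, Int.dvd_coe_gcd_iff, and_assoc]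

private theorem VCpl_iff2 (g : ℕ) (A q : ℤ) : g ∣ Int.gcd A q ↔ (g : ℤ) ∣ A ∧ (g : ℤ) ∣ q := by
  rw [← Int.natCast_dvd_natCast, Int.dvd_coe_gcd_iff]

private theorem VCpl_pos {q : ℕ} (hq : 1 ≤ q) (A : ℤ) : 0 < Int.gcd A (q : ℤ) :=
  Int.gcd_pos_of_ne_zero_right _ (by exact_mod_cast Nat.one_le_iff_ne_zero.1 hq)

private theorem VCpl_left {q : ℕ} (hq : 1 ≤ q) (A B : ℤ) :
    Int.gcd ((Int.gcd A B : ℕ) : ℤ) (q : ℤ) ≤ Int.gcd A (q : ℤ) := by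
  refine Nat.le_of_dvd (VCpl_pos hq A) ?_
  rw [VCpl_iff2]
  have h1 := (VCpl_iff _ A B q).1 (dvd_refl _)
  exact ⟨h1.1, h1.2.2⟩

private theorem VCpl_right {q u : ℕ} (hq : 1 ≤ q) (A j : ℤ) (hu : u.Coprime q) :
    Int.gcd ((Int.gcd A (j * (iv u q : ℤ)) : ℕ) : ℤ) (q : ℤ) ≤ Int.gcd j (q : ℤ) := by
  refine Nat.le_of_dvd (VCpl_pos hq j) ?_
  rw [VCpl_iff2]
  obtain ⟨-, h2, h3⟩ := (VCpl_iff _ A (j * (iv u q : ℤ)) q).1 (dvd_refl _)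
  refine ⟨?_, h3⟩
  obtain ⟨k, hk⟩ := iv_dvd hu hq
  have hc : IsCoprime (iv u q : ℤ) (q : ℤ) := by
    refine ⟨(u : ℤ), -k, ?_⟩
    linear_combination hk
  have hg := (hc.of_isCoprime_of_dvd_right h3).symm
  exact hg.dvd_of_dvd_mul_right h2

private theorem VCpl_one {T : ℝ} {q t : ℕ} {c b : ℤ} (h1 : SsbStmt) (hq : 1 ≤ q) (hs : Squarefree q)
    (hT : (q.divisors.card : ℝ) ≤ T) {G : ℕ} (hG : Int.gcd ((Int.gcd (c * t) b : ℕ) : ℤ) (q : ℤ) ≤ G) :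
    ‖SS c b q t‖ ≤ T ^ 2 * Real.sqrt ((q : ℝ) * (G : ℝ)) := by
  refine (h1 q t c b hq hs).trans ?_
  have h2 : ((q.divisors.card : ℝ)) ^ 2 ≤ T ^ 2 := by
    gcongr
  have h3 : Real.sqrt ((q : ℝ) * (Int.gcd ((Int.gcd (c * t) b : ℕ) : ℤ) q : ℝ)) ≤
      Real.sqrt ((q : ℝ) * (G : ℝ)) := by
    apply Real.sqrt_le_sqrt
    gcongr
  exact mul_le_mul h2 h3 (Real.sqrt_nonneg _) (sq_nonneg _)

theorem tVCpl (h1 : SsbStmt) (h2 : T1FhtStmt) : VCplStmt := by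
  intro T c c1 j F w t hF hw sF sw hcop hTF hTw
  have h3 := h2 c c1 j F w 0 t hF hw hcop
  simp only [Nat.add_zero] at h3
  rw [h3]
  have h4 : ‖SS c (j * (iv w F : ℤ)) F t‖ ≤ T ^ 2 * Real.sqrt ((F : ℝ) * (Int.gcd (c * t) (F : ℤ) : ℝ)) :=
    VCpl_one h1 hF sF hTF (VCpl_left hF _ _)
  have h5 : ‖SS c1 (j * (iv F w : ℤ)) w t‖ ≤ T ^ 2 * Real.sqrt ((w : ℝ) * (Int.gcd j (w : ℤ) : ℝ)) :=
    VCpl_one h1 hw sw hTw (VCpl_right hw _ _ hcop)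
  have h6 : Real.sqrt ((F : ℝ) * (Int.gcd (c * t) (F : ℤ) : ℝ)) * Real.sqrt ((w : ℝ) * (Int.gcd j (w : ℤ) : ℝ)) =
      Real.sqrt ((F : ℝ) * w * (Int.gcd (c * t) (F : ℤ) : ℝ)) * Real.sqrt (Int.gcd j (w : ℤ) : ℝ) := by
    rw [← Real.sqrt_mul (by positivity), ← Real.sqrt_mul (by positivity)]
    congr 1
    ring
  calc ‖SS c (j * (iv w F : ℤ)) F t‖ * ‖SS c1 (j * (iv F w : ℤ)) w t‖
      ≤ (T ^ 2 * Real.sqrt ((F : ℝ) * (Int.gcd (c * t) (F : ℤ) : ℝ))) *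
        (T ^ 2 * Real.sqrt ((w : ℝ) * (Int.gcd j (w : ℤ) : ℝ))) :=
        mul_le_mul h4 h5 (norm_nonneg _) (by positivity)
    _ = T ^ 4 * (Real.sqrt ((F : ℝ) * (Int.gcd (c * t) (F : ℤ) : ℝ)) *
        Real.sqrt ((w : ℝ) * (Int.gcd j (w : ℤ) : ℝ))) := by ring
    _ = _ := by rw [h6]; ring

end Pool.Agent.Lib.SL
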