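import Pool.Agent.Lib.SL.SpecV

/-!
MP_00e23e_nt, project SL, module VDif: differences of the elements of a coset.
-/

set_option autoImplicit false

namespace Pool.Agent.Lib.SL

open Finset Pool.Agent.Lib.EH3 Pool.Agent.Lib.TB Pool.Agent.Results.MP_00e23e_nt Pool.Agent.Lib.MI

private lemma VDif_gcd (z : ℤ) (F : ℕ) (hF : 1 ≤ F) :
    Real.sqrt (Int.gcd z (F : ℤ) : ℝ) ≤
      ∑ g ∈ F.divisors, if (g : ℤ) ∣ z then Real.sqrt (g : ℝ) else 0 := by
  have h1 : Int.gcd z (F : ℤ) ∈ F.divisors := by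
    rw [Nat.mem_divisors]
    exact ⟨Int.natCast_dvd_natCast.mp (Int.gcd_dvd_right z (F : ℤ)), by omega⟩
  have h2 : ((Int.gcd z (F : ℤ) : ℕ) : ℤ) ∣ z := Int.gcd_dvd_left z (F : ℤ)
  have h3 := Finset.single_le_sum
    (f := fun g : ℕ => if (g : ℤ) ∣ z then Real.sqrt (g : ℝ) else 0)
    (fun g _ => by
      split_ifs
      · exact Real.sqrt_nonneg _
      · exact le_refl _) h1
  rw [if_pos h2] at h3
  exact h3

private lemma VDif_cnt (g T0 x0 : ℕ) (hg : 1 ≤ g) (hx : x0 < T0) :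
    (((range T0).erase x0).filter (fun x : ℕ => (g : ℤ) ∣ (x : ℤ) - x0)).card * g ≤ T0 := by
  have h0 : (range T0).filter (fun x => x ≡ x0 [MOD g]) =
      insert x0 (((range T0).erase x0).filter (fun x : ℕ => (g : ℤ) ∣ (x : ℤ) - x0)) := by
    ext x
    rw [mem_insert, mem_filter, mem_filter, mem_erase, mem_range]
    have h1 : x ≡ x0 [MOD g] ↔ (g : ℤ) ∣ (x : ℤ) - x0 := by
      rw [Nat.ModEq.comm, Nat.modEq_iff_dvd]
    rw [h1]
    constructor
    · rintro ⟨h2, h3⟩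
      by_cases h4 : x = x0
      · exact Or.inl h4
      · exact Or.inr ⟨⟨h4, h2⟩, h3⟩
    · rintro (h2 | ⟨⟨_, h2⟩, h3⟩)
      · subst h2
        exact ⟨hx, by simp⟩
      · exact ⟨h2, h3⟩
  have h1 : ((range T0).filter (fun x => x ≡ x0 [MOD g])).card ≤ T0 / g + 1 := by
    have h2 := Nat.count_modEq_card T0 (v := x0) (r := g) (by omega)
    rw [Nat.count_eq_card_filter_range] at h2
    rw [h2]
    split_ifs <;> omega
  rw [h0, card_insert_of_notMem (by simp)] at h1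
  calc _ ≤ (T0 / g) * g := Nat.mul_le_mul_right g (by omega)
    _ ≤ T0 := Nat.div_mul_le_self T0 g

private lemma VDif_sum (F T0 x0 : ℕ) (T : ℝ) (hF : 1 ≤ F) (hx : x0 < T0)
    (hT : (F.divisors.card : ℝ) ≤ T) :
    ∑ x ∈ (range T0).erase x0, Real.sqrt (Int.gcd ((x : ℤ) - x0) (F : ℤ) : ℝ) ≤
      (T0 : ℝ) * T := by
  calc ∑ x ∈ (range T0).erase x0, Real.sqrt (Int.gcd ((x : ℤ) - x0) (F : ℤ) : ℝ)
      ≤ ∑ x ∈ (range T0).erase x0, ∑ g ∈ F.divisors,
        (if (g : ℤ) ∣ (x : ℤ) - x0 then Real.sqrt (g : ℝ) else 0) :=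
        Finset.sum_le_sum fun x _ => VDif_gcd _ F hF
    _ = ∑ g ∈ F.divisors, ∑ x ∈ (range T0).erase x0,
        (if (g : ℤ) ∣ (x : ℤ) - x0 then Real.sqrt (g : ℝ) else 0) := Finset.sum_comm
    _ ≤ ∑ g ∈ F.divisors, (T0 : ℝ) := by
        refine Finset.sum_le_sum fun g hg => ?_
        have hg1 : 1 ≤ g := Nat.pos_of_mem_divisors hg
        rw [← Finset.sum_filter, Finset.sum_const, nsmul_eq_mul]
        have h1 := VDif_cnt g T0 x0 hg1 hx
        have h2 : ((((range T0).erase x0).filter (fun x : ℕ => (g : ℤ) ∣ (x : ℤ) - x0)).card : ℝ) *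
            (g : ℝ) ≤ (T0 : ℝ) := by exact_mod_cast h1
        have h3 : Real.sqrt (g : ℝ) ≤ (g : ℝ) := by
          have h4 : (1 : ℝ) ≤ (g : ℝ) := by exact_mod_cast hg1
          rw [Real.sqrt_le_left (by linarith)]
          nlinarith
        calc _ ≤ ((((range T0).erase x0).filter
              (fun x : ℕ => (g : ℤ) ∣ (x : ℤ) - x0)).card : ℝ) * (g : ℝ) :=
              mul_le_mul_of_nonneg_left h3 (Nat.cast_nonneg _)
          _ ≤ (T0 : ℝ) := h2
    _ = (T0 : ℝ) * (F.divisors.card : ℝ) := by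
        rw [Finset.sum_const, nsmul_eq_mul, mul_comm]
    _ ≤ (T0 : ℝ) * T := mul_le_mul_of_nonneg_left hT (Nat.cast_nonneg _)

theorem tVDif : VDifStmt := by
  intro X T F T0 l1 l2 c0 A0 hTau hFX hF hT0 hl2 hA0 hcls a ha
  have hT : (F.divisors.card : ℝ) ≤ T := hTau.2.2 F hF hFX
  have hinj : ∀ u ∈ A0, ∀ v ∈ A0, u.1 = v.1 → u = v := by
    intro u hu v hv huv
    have h1 := hcls u hu
    have h2 := hcls v hv
    have h3 : (F : ℤ) ∣ l2 * ((u.2 : ℤ) - v.2) := by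
      have h4 := dvd_sub h2 h1
      rw [huv] at h4
      have h5 : l1 * (v.1 : ℤ) - l2 * v.2 - c0 - (l1 * (v.1 : ℤ) - l2 * u.2 - c0) =
          l2 * ((u.2 : ℤ) - v.2) := by ring
      rwa [h5] at h4
    have h4 : (F : ℤ) ∣ (u.2 : ℤ) - v.2 :=
      IsCoprime.dvd_of_dvd_mul_left (Int.isCoprime_iff_gcd_eq_one.mpr hl2).symm h3
    have h5 := (mem_product.mp (hA0 hu)).2
    have h6 := (mem_product.mp (hA0 hv)).2
    rw [mem_range] at h5 h6
    have h7 : (u.2 : ℤ) - v.2 = 0 := by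
      apply Int.eq_zero_of_abs_lt_dvd h4
      rw [abs_lt]
      constructor <;> omega
    exact Prod.ext huv (by omega)
  have ha1 : a.1 < T0 := mem_range.mp (mem_product.mp (hA0 ha)).1
  have hsum : ∑ a' ∈ A0.erase a, Real.sqrt (Int.gcd ((a'.1 : ℤ) - a.1) (F : ℤ) : ℝ) =
      ∑ x ∈ (A0.erase a).image Prod.fst, Real.sqrt (Int.gcd ((x : ℤ) - a.1) (F : ℤ) : ℝ) := by
    rw [Finset.sum_image]
    intro u hu v hv huv
    exact hinj u (mem_of_mem_erase hu) v (mem_of_mem_erase hv) huv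
  rw [hsum]
  refine le_trans (Finset.sum_le_sum_of_subset_of_nonneg ?_ ?_) (VDif_sum F T0 a.1 T hF ha1 hT)
  · intro x hx
    rw [mem_image] at hx
    obtain ⟨u, hu, rfl⟩ := hx
    rw [mem_erase] at hu
    rw [mem_erase, mem_range]
    refine ⟨fun h => hu.1 (hinj u hu.2 a ha h), ?_⟩
    exact mem_range.mp (mem_product.mp (hA0 hu.2)).1
  · intro x _ _
    exact Real.sqrt_nonneg _

end Pool.Agent.Lib.SL
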