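import Pool.Agent.Lib.SL.SpecV

/-! MP_00e23e_nt, Lib/SL, chapter V, module VEv: the final statement EvStmt from the other modules. -/

set_option autoImplicit false

namespace Pool.Agent.Lib.SL

open Finset Pool.Agent.Lib.EH3 Pool.Agent.Lib.TB Pool.Agent.Results.MP_00e23e_nt Pool.Agent.Lib.MI

private lemma VEv_norm_vG (F D w1 w2 : ℕ) (c c1 c2 : ℤ) (n1 n2 : ℕ) :
    ‖vG F D w1 w2 c c1 c2 n1 n2‖ ≤ 1 := by
  unfold vG
  rw [norm_mul, norm_mul, norm_mul]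
  have h1 : ‖(if n1.Coprime D then (1 : ℂ) else 0)‖ ≤ 1 := by split_ifs <;> simp
  have h2 := t1_norm_g c F n1
  have h3 := t1_norm_g c1 w1 n1
  have h4 := t1_norm_g c2 w2 n2
  exact mul_le_one₀ (mul_le_one₀ h1 (by positivity) (mul_le_one₀ h2 (norm_nonneg _) h3))
    (norm_nonneg _) h4

private lemma VEv_norm_vBox (N : ℕ) (g : ℕ → ℕ → ℂ) (h : ∀ n1 n2, ‖g n1 n2‖ ≤ 1) (n1 n2 : ℕ) :
    ‖vBox N g n1 n2‖ ≤ 1 := by
  unfold vBox
  split_ifs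
  · exact h _ _
  · simp

private lemma VEv_spl (hPha : VPhaStmt) (F D w1 w2 : ℕ) (c c1 c2 : ℤ) (n1 n2 : ℕ) (hF : 1 ≤ F)
    (hD : 1 ≤ D) (hFD : F.Coprime D) :
    t1g c (F * D) n1 * t1g c1 w1 n1 * t1g c2 w2 n2 =
      t1g (c * (iv F D : ℤ)) D n1 * vG F D w1 w2 (c * (iv D F : ℤ)) c1 c2 n1 n2 := by
  rw [hPha c F D n1 hF hD hFD]
  unfold vG
  by_cases h : n1.Coprime D
  · rw [if_pos h]
    ring
  · rw [if_neg h]
    have h0 : t1g (c * (iv F D : ℤ)) D n1 = 0 := if_neg h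
    rw [h0]
    ring

private lemma VEv_gcd (c : ℤ) (E F : ℕ) (hF : 1 ≤ F) (h : E.Coprime F) :
    Int.gcd (c * (iv E F : ℤ)) (F : ℤ) = Int.gcd c (F : ℤ) := by
  have h1 := iv_dvd h hF
  have h2 : IsCoprime (iv E F : ℤ) (F : ℤ) := by
    obtain ⟨t, ht⟩ := h1
    exact ⟨E, -t, by linear_combination ht⟩
  have h3 : Int.gcd (iv E F : ℤ) (F : ℤ) = 1 := Int.isCoprime_iff_gcd_eq_one.1 h2
  have h4 : Nat.Coprime (iv E F : ℤ).natAbs (F : ℤ).natAbs := h3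
  show Nat.gcd (c * (iv E F : ℤ)).natAbs (F : ℤ).natAbs = Nat.gcd c.natAbs (F : ℤ).natAbs
  rw [Int.natAbs_mul]
  exact Nat.Coprime.gcd_mul_right_cancel _ h4

private lemma VEv_diag (N : ℕ) (M : ℕ → ℕ → Prop) [∀ a b, Decidable (M a b)] (G : ℕ → ℕ → ℂ)
    (hG : ∀ m1 m2, ‖G m1 m2‖ ≤ 1) :
    ‖∑ m1 ∈ range N, ∑ m2 ∈ range N, if M m1 m2 then G m1 m2 else 0‖ ≤
     (((range N ×ˢ range N).filter (fun m => M m.1 m.2)).card : ℝ) := by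
  have e : ∑ m1 ∈ range N, ∑ m2 ∈ range N, (if M m1 m2 then G m1 m2 else 0) =
      ∑ m ∈ range N ×ˢ range N, (if M m.1 m.2 then G m.1 m.2 else 0) :=
    (Finset.sum_product' _ _ (fun m1 m2 => if M m1 m2 then G m1 m2 else 0)).symm
  rw [e, ← sum_filter]
  refine (norm_sum_le _ _).trans ((sum_le_card_nsmul _ _ 1 fun m _ => hG _ _).trans ?_)
  rw [nsmul_eq_mul, mul_one]

private lemma VEv_num {n S L T0 F b Y q C : ℝ} (hn : 0 < n) (hT0 : 0 < T0)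
    (hF : 0 < F) (hb : 1 ≤ b) (hY : 1 ≤ Y) (hq : 0 ≤ q) (hC : 0 ≤ C)
    (h1 : n ^ 2 * S ^ 2 ≤ 9 * L * (n * (L * (9 + C * Y * q * T0))))
    (h2 : T0 ^ 2 ≤ F * n) (h3 : F ≤ 2 * b * T0) (h4 : 1 ≤ F * q) :
    S ^ 2 ≤ 9 * L ^ 2 * (36 + 2 * C) * Y * q * b ^ 2 := by
  have h5 : n * S ^ 2 ≤ 9 * L * (L * (9 + C * Y * q * T0)) := by
    refine le_of_mul_le_mul_left ?_ hn
    calc n * (n * S ^ 2) = n ^ 2 * S ^ 2 := by ring
      _ ≤ 9 * L * (n * (L * (9 + C * Y * q * T0))) := h1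
      _ = _ := by ring
  have h6 : T0 ^ 2 * S ^ 2 ≤ F * (9 * L * (L * (9 + C * Y * q * T0))) := by
    calc T0 ^ 2 * S ^ 2 ≤ F * n * S ^ 2 := mul_le_mul_of_nonneg_right h2 (sq_nonneg _)
      _ = F * (n * S ^ 2) := by ring
      _ ≤ _ := mul_le_mul_of_nonneg_left h5 hF.le
  have h7 : 9 * F ≤ 36 * (T0 ^ 2 * b ^ 2 * q * Y) := by
    have e1 : F ^ 2 ≤ (2 * b * T0) ^ 2 := pow_le_pow_left₀ hF.le h3 2
    have e2 : F ≤ F ^ 2 * q := by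
      calc F = F * 1 := by ring
        _ ≤ F * (F * q) := mul_le_mul_of_nonneg_left h4 hF.le
        _ = _ := by ring
    have e3 : F ^ 2 * q ≤ (2 * b * T0) ^ 2 * q := mul_le_mul_of_nonneg_right e1 hq
    have e4 : (2 * b * T0) ^ 2 * q * 1 ≤ (2 * b * T0) ^ 2 * q * Y :=
      mul_le_mul_of_nonneg_left hY (by positivity)
    calc 9 * F ≤ 9 * ((2 * b * T0) ^ 2 * q * Y) := by linarith
      _ = _ := by ring
  have h8 : C * Y * q * T0 * F ≤ 2 * C * (T0 ^ 2 * b ^ 2 * q * Y) := by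
    have e1 : C * Y * q * T0 * F ≤ C * Y * q * T0 * (2 * b * T0) :=
      mul_le_mul_of_nonneg_left h3 (by positivity)
    have e2 : 2 * C * (T0 ^ 2 * q * Y) * b ≤ 2 * C * (T0 ^ 2 * q * Y) * b ^ 2 := by
      refine mul_le_mul_of_nonneg_left ?_ (by positivity)
      nlinarith
    calc C * Y * q * T0 * F ≤ C * Y * q * T0 * (2 * b * T0) := e1
      _ = 2 * C * (T0 ^ 2 * q * Y) * b := by ring
      _ ≤ 2 * C * (T0 ^ 2 * q * Y) * b ^ 2 := e2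
      _ = _ := by ring
  refine le_of_mul_le_mul_left ?_ (show 0 < T0 ^ 2 by positivity)
  calc T0 ^ 2 * S ^ 2 ≤ F * (9 * L * (L * (9 + C * Y * q * T0))) := h6
    _ = 9 * L ^ 2 * (9 * F + C * Y * q * T0 * F) := by ring
    _ ≤ 9 * L ^ 2 * (36 * (T0 ^ 2 * b ^ 2 * q * Y) + 2 * C * (T0 ^ 2 * b ^ 2 * q * Y)) :=
      mul_le_mul_of_nonneg_left (add_le_add h7 h8) (by positivity)
    _ = _ := by ring

private lemma VEv_root {S Q b Y q C : ℝ} (hQ : 0 ≤ Q) (hb : 1 ≤ b) (hY : 1 ≤ Y)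
    (hq : 0 ≤ q) (hC : 0 ≤ C) (h : S ^ 2 ≤ 9 * (Q * b) ^ 2 * (36 + 2 * C) * Y * q * b ^ 2) :
    S ≤ 9 * (36 + 2 * C) * Y * Q * b ^ 2 * Real.sqrt q := by
  have hs : Real.sqrt q ^ 2 = q := Real.sq_sqrt hq
  refine le_of_sq_le_sq ?_ (by positivity)
  have e1 : (1 : ℝ) ≤ 9 * (36 + 2 * C) := by linarith
  have e2 : 1 ≤ 9 * (36 + 2 * C) * Y := one_le_mul_of_one_le_of_one_le e1 hY
  have e3 : 0 ≤ 9 * (36 + 2 * C) * Y * (Q ^ 2 * b ^ 4 * q) := by positivity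
  calc S ^ 2 ≤ 9 * (Q * b) ^ 2 * (36 + 2 * C) * Y * q * b ^ 2 := h
    _ = 1 * (9 * (36 + 2 * C) * Y * (Q ^ 2 * b ^ 4 * q)) := by ring
    _ ≤ (9 * (36 + 2 * C) * Y) * (9 * (36 + 2 * C) * Y * (Q ^ 2 * b ^ 4 * q)) :=
      mul_le_mul_of_nonneg_right e2 e3
    _ = (9 * (36 + 2 * C) * Y * Q * b ^ 2) ^ 2 * q := by ring
    _ = (9 * (36 + 2 * C) * Y * Q * b ^ 2) ^ 2 * Real.sqrt q ^ 2 := by rw [hs]
    _ = _ := by ring

theorem tVEv : VEvStmt := by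
  classical
  intro hPgn hDif hVdc hCnt hPha hCor
  obtain ⟨C, hC, A, hCor⟩ := hCor
  refine ⟨9 * (36 + 2 * C), by positivity, A + 1, ?_⟩
  intro X T e F D w1 w2 N l c c1 c2 hT hsq hw1 hw2 hcw1 hcw2 hl hN hEk hX he1 he2 he3 he4
  have hT1 : 1 ≤ T := hT.1
  have hFD0 : F * D ≠ 0 := hsq.ne_zero
  have hF : 1 ≤ F := Nat.one_le_iff_ne_zero.2 fun h => hFD0 (by rw [h]; ring)
  have hD1 : 1 ≤ D := Nat.one_le_iff_ne_zero.2 fun h => hFD0 (by rw [h]; ring)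
  have hw1p : 1 ≤ w1 := Nat.one_le_iff_ne_zero.2 hw1.ne_zero
  have hw2p : 1 ≤ w2 := Nat.one_le_iff_ne_zero.2 hw2.ne_zero
  have hFD : F.Coprime D := (Nat.squarefree_mul_iff.1 hsq).1
  have hFr : (0 : ℝ) < F := by exact_mod_cast hF
  have hF1 : (1 : ℝ) ≤ F := by exact_mod_cast hF
  have hNr : (0 : ℝ) < N := by exact_mod_cast hN
  have hDr : (0 : ℝ) < D := by exact_mod_cast hD1
  have he0 : 0 < e := lt_of_lt_of_le (by positivity) he1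
  -- X
  have hFX : (F : ℝ) ≤ X := by
    refine le_trans ?_ hX
    have e1 : (1 : ℝ) ≤ w1 := by exact_mod_cast hw1p
    have e2 : (1 : ℝ) ≤ w2 := by exact_mod_cast hw2p
    have e3 : (1 : ℝ) ≤ N := by exact_mod_cast hN
    have e4 : (1 : ℝ) ≤ D := by exact_mod_cast hD1
    have e5 : (1 : ℝ) ≤ (N : ℝ) ^ 2 := one_le_pow₀ e3
    have e6 : (1 : ℝ) ≤ (D : ℝ) * w1 * w2 * (N : ℝ) ^ 2 :=
      one_le_mul_of_one_le_of_one_le (one_le_mul_of_one_le_of_one_le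
        (one_le_mul_of_one_le_of_one_le e4 e1) e2) e5
    calc (F : ℝ) = F * 1 := by ring
      _ ≤ F * ((D : ℝ) * w1 * w2 * (N : ℝ) ^ 2) := mul_le_mul_of_nonneg_left e6 hFr.le
      _ = 1 * ((F : ℝ) * D * w1 * w2 * (N : ℝ) ^ 2) := by ring
      _ ≤ 100 * ((F : ℝ) * D * w1 * w2 * (N : ℝ) ^ 2) :=
        mul_le_mul_of_nonneg_right (by norm_num) (by positivity)
  have hlF : Int.gcd l (F : ℤ) = 1 := by
    have e1 : IsCoprime l (((F * D : ℕ)) : ℤ) := Int.isCoprime_iff_gcd_eq_one.2 hl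
    rw [Nat.cast_mul] at e1
    exact Int.isCoprime_iff_gcd_eq_one.1 e1.of_mul_right_left
  -- T0
  obtain ⟨T0, hT0⟩ : ∃ T0, T0 = min F (N / D) := ⟨_, rfl⟩
  have hT0F : T0 ≤ F := by rw [hT0]; exact min_le_left _ _
  have hND : 1 ≤ N / D := (Nat.one_le_div_iff hD1).2 hEk
  have hT01 : 1 ≤ T0 := by rw [hT0]; exact le_min hF hND
  have hT0r : (0 : ℝ) < T0 := by exact_mod_cast hT01
  have hDT0 : D * T0 ≤ N := by
    calc D * T0 ≤ D * (N / D) := Nat.mul_le_mul_left _ (by rw [hT0]; exact min_le_right _ _)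
      _ ≤ N := Nat.mul_div_le _ _
  obtain ⟨A0, c0, hA0, hcard, hcls⟩ := hPgn F T0 1 l hF
  have hdif := hDif X T F T0 1 l c0 A0 hT hFX hF hT0F hlF hA0 hcls
  have hDa : ∀ a ∈ A0, D * a.1 ≤ N ∧ D * a.2 ≤ N := by
    intro a ha
    have h1 := mem_product.1 (hA0 ha)
    have h2 := mem_range.1 h1.1
    have h3 := mem_range.1 h1.2
    exact ⟨(Nat.mul_le_mul_left _ h2.le).trans hDT0, (Nat.mul_le_mul_left _ h3.le).trans hDT0⟩
  obtain ⟨c', hc'⟩ : ∃ c', c' = c * (iv D F : ℤ) := ⟨_, rfl⟩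
  have hgc : Int.gcd c' (F : ℤ) = Int.gcd c (F : ℤ) := by
    rw [hc']
    exact VEv_gcd c D F hF hFD.symm
  obtain ⟨M, hM⟩ : ∃ M : ℕ → ℕ → Prop, M = fun (m1 m2 : ℕ) =>
      ((F * D : ℕ) : ℤ) ∣ (1 : ℤ) * (m1 : ℤ) - l * (m2 : ℤ) - (-((D : ℤ) * c0)) := ⟨_, rfl⟩
  have hPM : ∀ a ∈ A0, ∀ m1 m2 : ℕ, (((F * D : ℕ) : ℤ) ∣ ((m1 + D * a.1 : ℕ) : ℤ) -
      l * ((m2 + D * a.2 : ℕ) : ℤ)) ↔ M m1 m2 := by
    intro a ha m1 m2
    rw [hM]
    have h1 : ((F * D : ℕ) : ℤ) ∣ (D : ℤ) * (1 * (a.1 : ℤ) - l * (a.2 : ℤ) - c0) := by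
      rw [Nat.cast_mul, mul_comm (F : ℤ)]
      exact mul_dvd_mul_left _ (hcls a ha)
    have h2 : ((m1 + D * a.1 : ℕ) : ℤ) - l * ((m2 + D * a.2 : ℕ) : ℤ) =
        (1 * (m1 : ℤ) - l * (m2 : ℤ) - (-((D : ℤ) * c0))) +
          (D : ℤ) * (1 * (a.1 : ℤ) - l * (a.2 : ℤ) - c0) := by
      push_cast
      ring
    rw [h2]
    exact (dvd_add_left h1)
  obtain ⟨K, hK⟩ : ∃ K : ℝ, K = 9 * (N : ℝ) * ((N : ℝ) / ((F * D : ℕ) : ℝ) + 1) := ⟨_, rfl⟩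
  have hKc : (((range (2 * N + 1) ×ˢ range (2 * N + 1)).filter (fun m => M m.1 m.2)).card : ℝ) ≤ K := by
    have h1 := hCnt (F * D) N 1 l (-((D : ℤ) * c0)) (Nat.mul_pos hF hD1) hN (by simp)
    rw [hK]
    refine le_trans (le_of_eq ?_) h1
    congr 2
    ext m
    rw [mem_filter, mem_filter, hM]
  obtain ⟨P, hP⟩ : ∃ P : ℕ → ℕ → Prop, P = fun (n1 n2 : ℕ) =>
      ((F * D : ℕ) : ℤ) ∣ (n1 : ℤ) - l * (n2 : ℤ) := ⟨_, rfl⟩
  obtain ⟨φ, hφ⟩ : ∃ φ : ℕ → ℕ → ℂ, φ = fun (n1 _ : ℕ) =>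
      t1g (c * (iv F D : ℤ)) D n1 := ⟨_, rfl⟩
  have hv := hVdc N D A0 P M φ (vG F D w1 w2 c' c1 c2) K hDa
    (fun a ha m1 m2 => ⟨by rw [hP]; exact hPM a ha m1 m2, by
      rw [hφ]
      show t1g (c * (iv F D : ℤ)) D (m1 + D * a.1) = t1g (c * (iv F D : ℤ)) D m1
      rw [mul_comm D a.1]
      exact t1_g_add_mul _ _ _ _⟩)
    (fun m1 m2 => by
      rw [hφ]
      exact t1_norm_g _ _ _) hKc
  -- the sum
  obtain ⟨S, hS⟩ : ∃ S : ℂ, S = ∑ n1 ∈ Ioc N (2 * N), ∑ n2 ∈ Ioc N (2 * N),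
      if ((F * D : ℕ) : ℤ) ∣ (n1 : ℤ) - l * n2 then
      t1g c (F * D) n1 * t1g c1 w1 n1 * t1g c2 w2 n2 else 0 := ⟨_, rfl⟩
  rw [← hS]
  have hSe : S = ∑ n1 ∈ Ioc N (2 * N), ∑ n2 ∈ Ioc N (2 * N),
      if P n1 n2 then φ n1 n2 * vG F D w1 w2 c' c1 c2 n1 n2 else 0 := by
    rw [hS, hP, hφ]
    refine sum_congr rfl fun n1 _ => sum_congr rfl fun n2 _ => ?_
    have e1 := VEv_spl hPha F D w1 w2 c c1 c2 n1 n2 hF hD1 hFD
    rw [← hc'] at e1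
    by_cases h : ((F * D : ℕ) : ℤ) ∣ (n1 : ℤ) - l * (n2 : ℤ)
    · rw [if_pos h, if_pos h, e1]
    · rw [if_neg h, if_neg h]
  rw [← hSe] at hv
  obtain ⟨q, hq⟩ : ∃ q : ℝ, q = e * Real.sqrt (Int.gcd c (F : ℤ) : ℝ) := ⟨_, rfl⟩
  have hq0 : 0 ≤ q := by rw [hq]; positivity
  obtain ⟨L, hL⟩ : ∃ L : ℝ, L = (N : ℝ) * ((N : ℝ) / ((F : ℝ) * D) + 1) := ⟨_, rfl⟩
  have hL0 : 0 ≤ L := by rw [hL]; positivity
  have hKL : K = 9 * L := by
    rw [hK, hL]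
    push_cast
    ring
  have hK0 : 0 ≤ K := by rw [hKL]; positivity
  have hGn : ∀ n1 n2, ‖vBox N (vG F D w1 w2 c' c1 c2) n1 n2‖ ≤ 1 :=
    VEv_norm_vBox N _ (VEv_norm_vG F D w1 w2 c' c1 c2)
  -- the rows
  have hrow : ∀ a ∈ A0, ∑ a' ∈ A0, ‖∑ m1 ∈ range (2 * N + 1), ∑ m2 ∈ range (2 * N + 1),
      if M m1 m2 then vBox N (vG F D w1 w2 c' c1 c2) (m1 + D * a.1) (m2 + D * a.2) *
        (starRingEnd ℂ) (vBox N (vG F D w1 w2 c' c1 c2) (m1 + D * a'.1) (m2 + D * a'.2)) else 0‖ ≤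
      L * (9 + C * T ^ (A + 1) * q * T0) := by
    intro a ha
    rw [← add_sum_erase _ _ ha]
    have h1 : ‖∑ m1 ∈ range (2 * N + 1), ∑ m2 ∈ range (2 * N + 1),
        if M m1 m2 then vBox N (vG F D w1 w2 c' c1 c2) (m1 + D * a.1) (m2 + D * a.2) *
          (starRingEnd ℂ) (vBox N (vG F D w1 w2 c' c1 c2) (m1 + D * a.1) (m2 + D * a.2)) else 0‖ ≤ 9 * L := by
      rw [← hKL]
      refine le_trans (VEv_diag (2 * N + 1) M _ ?_) hKc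
      intro m1 m2
      rw [norm_mul, Complex.norm_conj]
      exact mul_le_one₀ (hGn _ _) (norm_nonneg _) (hGn _ _)
    have h2 : ∀ a' ∈ A0.erase a, ‖∑ m1 ∈ range (2 * N + 1), ∑ m2 ∈ range (2 * N + 1),
        if M m1 m2 then vBox N (vG F D w1 w2 c' c1 c2) (m1 + D * a.1) (m2 + D * a.2) *
          (starRingEnd ℂ) (vBox N (vG F D w1 w2 c' c1 c2) (m1 + D * a'.1) (m2 + D * a'.2)) else 0‖ ≤
        C * T ^ A * L * q * Real.sqrt (Int.gcd ((a'.1 : ℤ) - a.1) (F : ℤ) : ℝ) := by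
      intro a' ha'
      have ha'' := mem_of_mem_erase ha'
      have h3 := hCor X T e F D w1 w2 N l c' c1 c2 a a' hT hsq hw1 hw2 hcw1 hcw2 hl hN hX he1 he2 he3 he4
        (hDa a ha).1 (hDa a ha).2 (hDa a' ha'').1 (hDa a' ha'').2
      have h4 : Real.sqrt ((Int.gcd c' (F : ℤ) : ℝ) * (Int.gcd ((a'.1 : ℤ) - a.1) (F : ℤ) : ℝ)) =
          Real.sqrt (Int.gcd c (F : ℤ) : ℝ) * Real.sqrt (Int.gcd ((a'.1 : ℤ) - a.1) (F : ℤ) : ℝ) := by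
        rw [hgc, Real.sqrt_mul (by positivity)]
      rw [h4, ← hL] at h3
      refine le_trans (le_of_eq ?_) (h3.trans (le_of_eq ?_))
      · congr 1
        refine sum_congr rfl fun m1 _ => sum_congr rfl fun m2 _ => ?_
        by_cases h : M m1 m2
        · rw [if_pos h, if_pos ((hPM a ha m1 m2).2 h)]
        · rw [if_neg h, if_neg (fun h' => h ((hPM a ha m1 m2).1 h'))]
      · rw [hq]
        ring
    have h5 := sum_le_sum h2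
    rw [← mul_sum] at h5
    have h6 : C * T ^ A * L * q * ∑ a' ∈ A0.erase a, Real.sqrt (Int.gcd ((a'.1 : ℤ) - a.1) (F : ℤ) : ℝ) ≤
        C * T ^ A * L * q * ((T0 : ℝ) * T) :=
      mul_le_mul_of_nonneg_left (hdif a ha) (by positivity)
    calc _ ≤ 9 * L + C * T ^ A * L * q * ((T0 : ℝ) * T) := add_le_add h1 (h5.trans h6)
      _ = _ := by ring
  have hall := sum_le_card_nsmul _ _ _ hrow
  rw [nsmul_eq_mul] at hall
  have hcardr : (T0 : ℝ) ^ 2 ≤ F * (A0.card : ℝ) := by exact_mod_cast hcard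
  have hn : (0 : ℝ) < A0.card := by
    have h1 : 0 < (F : ℝ) * (A0.card : ℝ) := lt_of_lt_of_le (by positivity) hcardr
    exact (pos_iff_pos_of_mul_pos h1).1 hFr
  have hmain : (A0.card : ℝ) ^ 2 * ‖S‖ ^ 2 ≤
      9 * L * ((A0.card : ℝ) * (L * (9 + C * T ^ (A + 1) * q * T0))) := by
    rw [← hKL]
    exact hv.trans (mul_le_mul_of_nonneg_left hall hK0)
  -- b
  obtain ⟨b, hb⟩ : ∃ b : ℝ, b = 1 + (F : ℝ) * D / N := ⟨_, rfl⟩
  have hb1 : 1 ≤ b := by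
    rw [hb]
    have : 0 ≤ (F : ℝ) * D / N := by positivity
    linarith
  have hFb : (F : ℝ) ≤ 2 * b * T0 := by
    rcases min_choice F (N / D) with h | h
    · rw [← hT0] at h
      rw [h]
      nlinarith
    · rw [← hT0] at h
      have h1 : N ≤ 2 * D * T0 := by
        have h2 : N < D * (N / D) + D := by
          have := Nat.div_add_mod N D
          have := Nat.mod_lt N hD1
          omega
        rw [← h] at h2
        have h3 : D ≤ D * T0 := Nat.le_mul_of_pos_right _ hT01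
        calc N ≤ D * T0 + D * T0 := by omega
          _ = _ := by ring
      have h1r : (N : ℝ) ≤ 2 * D * T0 := by exact_mod_cast h1
      have h4 : (F : ℝ) ≤ 2 * ((F : ℝ) * D / N) * T0 := by
        have h5 : 2 * ((F : ℝ) * D / N) * T0 = (F * (2 * D * T0)) / N := by ring
        rw [h5, le_div_iff₀ hNr]
        exact mul_le_mul_of_nonneg_left h1r hFr.le
      have h6 : 2 * ((F : ℝ) * D / N) * T0 ≤ 2 * b * T0 := by
        refine mul_le_mul_of_nonneg_right ?_ hT0r.le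
        rw [hb]
        linarith
      exact h4.trans h6
  have hFq : 1 ≤ (F : ℝ) * q := by
    have h1 : (1 : ℝ) ≤ (Int.gcd c (F : ℤ) : ℝ) := by
      have : 0 < Int.gcd c (F : ℤ) := Int.gcd_pos_of_ne_zero_right _ (by omega)
      exact_mod_cast this
    have h2 : 1 / (F : ℝ) ≤ q := by
      have h3 : 1 / (F : ℝ) ≤ 1 / Real.sqrt F := by
        refine one_div_le_one_div_of_le (Real.sqrt_pos.2 hFr) ?_
        rw [Real.sqrt_le_left hFr.le]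
        nlinarith
      have h4 : 1 ≤ Real.sqrt (Int.gcd c (F : ℤ) : ℝ) := Real.one_le_sqrt.2 h1
      rw [hq]
      calc 1 / (F : ℝ) ≤ e := h3.trans he1
        _ = e * 1 := by ring
        _ ≤ _ := mul_le_mul_of_nonneg_left h4 he0.le
    calc (1 : ℝ) = F * (1 / F) := by field_simp
      _ ≤ F * q := mul_le_mul_of_nonneg_left h2 hFr.le
  have hfin := VEv_num (S := ‖S‖) (Y := T ^ (A + 1)) hn hT0r hFr hb1 (one_le_pow₀ hT1) hq0 hC.le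
    hmain hcardr hFb hFq
  have hLb : L = (N : ℝ) ^ 2 / ((F : ℝ) * D) * b := by
    rw [hL, hb]
    field_simp
  rw [hLb] at hfin
  have hend := VEv_root (by positivity) hb1 (one_le_pow₀ hT1) hq0 hC.le hfin
  rw [← hb, ← hq]
  exact hend

end Pool.Agent.Lib.SL
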