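import Pool.Agent.Lib.SL.SpecV

/-!
MP_00e23e_nt, project SL, module VVdc: van der Corput inequality for a finite set of shifts.
-/

set_option autoImplicit false

namespace Pool.Agent.Lib.SL

open Finset Pool.Agent.Lib.EH3 Pool.Agent.Lib.TB Pool.Agent.Results.MP_00e23e_nt Pool.Agent.Lib.MI

open Classical in
private theorem VVdc_shift (N D : ℕ) (P M : ℕ → ℕ → Prop) (φ g : ℕ → ℕ → ℂ) (a : ℕ × ℕ)
    (ha : D * a.1 ≤ N ∧ D * a.2 ≤ N)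
    (h : ∀ m1 m2, (P (m1 + D * a.1) (m2 + D * a.2) ↔ M m1 m2) ∧
      φ (m1 + D * a.1) (m2 + D * a.2) = φ m1 m2) :
    ∑ n1 ∈ Ioc N (2 * N), ∑ n2 ∈ Ioc N (2 * N), (if P n1 n2 then φ n1 n2 * g n1 n2 else 0) =
      ∑ m ∈ (range (2 * N + 1) ×ˢ range (2 * N + 1)).filter (fun m => M m.1 m.2),
        φ m.1 m.2 * vBox N g (m.1 + D * a.1) (m.2 + D * a.2) := by
  rw [← Finset.sum_product', ← Finset.sum_filter]
  have e : ∀ m : ℕ × ℕ, φ m.1 m.2 * vBox N g (m.1 + D * a.1) (m.2 + D * a.2) =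
      if (N < m.1 + D * a.1 ∧ m.1 + D * a.1 ≤ 2 * N) ∧
        N < m.2 + D * a.2 ∧ m.2 + D * a.2 ≤ 2 * N then
        φ (m.1 + D * a.1) (m.2 + D * a.2) * g (m.1 + D * a.1) (m.2 + D * a.2) else 0 := by
    intro m
    rw [vBox, (h m.1 m.2).2]
    split_ifs
    · rfl
    · rw [mul_zero]
  rw [Finset.sum_congr rfl fun m _ => e m, ← Finset.sum_filter, Finset.filter_filter]
  symm
  refine Finset.sum_bij (fun m _ => (m.1 + D * a.1, m.2 + D * a.2)) ?_ ?_ ?_ ?_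
  · intro m hm
    rw [Finset.mem_filter] at hm
    rw [Finset.mem_filter, Finset.mem_product, Finset.mem_Ioc, Finset.mem_Ioc]
    exact ⟨hm.2.2, (h m.1 m.2).1.2 hm.2.1⟩
  · intro m _ m' _ hmm
    have h1 := congrArg Prod.fst hmm
    have h2 := congrArg Prod.snd hmm
    exact Prod.ext (Nat.add_right_cancel h1) (Nat.add_right_cancel h2)
  · intro n hn
    rw [Finset.mem_filter, Finset.mem_product, Finset.mem_Ioc, Finset.mem_Ioc] at hn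
    obtain ⟨⟨⟨hn1, hn2⟩, hn3, hn4⟩, hnP⟩ := hn
    have e1 : n.1 - D * a.1 + D * a.1 = n.1 := by omega
    have e2 : n.2 - D * a.2 + D * a.2 = n.2 := by omega
    refine ⟨(n.1 - D * a.1, n.2 - D * a.2), ?_, ?_⟩
    · rw [Finset.mem_filter, Finset.mem_product, Finset.mem_range, Finset.mem_range]
      refine ⟨⟨?_, ?_⟩, ?_, ?_⟩
      · show n.1 - D * a.1 < 2 * N + 1
        omega
      · show n.2 - D * a.2 < 2 * N + 1
        omega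
      · have h1 := (h (n.1 - D * a.1) (n.2 - D * a.2)).1
        rw [e1, e2] at h1
        exact h1.1 hnP
      · show (N < n.1 - D * a.1 + D * a.1 ∧ n.1 - D * a.1 + D * a.1 ≤ 2 * N) ∧
          N < n.2 - D * a.2 + D * a.2 ∧ n.2 - D * a.2 + D * a.2 ≤ 2 * N
        rw [e1, e2]
        exact ⟨⟨hn1, hn2⟩, hn3, hn4⟩
    · exact Prod.ext e1 e2
  · intro m _
    rfl

theorem tVVdc : VVdcStmt := by
  classical
  intro N D A0 P M φ g K hA hPM hφ hK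
  obtain ⟨S, hS⟩ : ∃ S, S = ∑ n1 ∈ Ioc N (2 * N), ∑ n2 ∈ Ioc N (2 * N),
    (if P n1 n2 then φ n1 n2 * g n1 n2 else 0) := ⟨_, rfl⟩
  obtain ⟨W, hW⟩ : ∃ W, W = (range (2 * N + 1) ×ˢ range (2 * N + 1)).filter
    (fun m : ℕ × ℕ => M m.1 m.2) := ⟨_, rfl⟩
  obtain ⟨G, hG⟩ : ∃ G : ℕ × ℕ → ℕ × ℕ → ℂ, G = fun m a =>
    vBox N g (m.1 + D * a.1) (m.2 + D * a.2) := ⟨_, rfl⟩
  obtain ⟨H, hH⟩ : ∃ H : ℕ × ℕ → ℂ, H = fun m => ∑ a ∈ A0, G m a := ⟨_, rfl⟩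
  -- the shifted sums
  have h1 : (A0.card : ℂ) * S = ∑ m ∈ W, φ m.1 m.2 * H m := by
    have e1 : ∑ _a ∈ A0, S = (A0.card : ℂ) * S := by
      rw [Finset.sum_const, nsmul_eq_mul]
    rw [← e1, hH]
    have e2 : ∀ a ∈ A0, S = ∑ m ∈ W, φ m.1 m.2 * G m a := fun a ha => by
      rw [hS, VVdc_shift N D P M φ g a (hA a ha) (hPM a ha), hW, hG]
    rw [Finset.sum_congr rfl e2, Finset.sum_comm]
    exact Finset.sum_congr rfl fun m _ => (Finset.mul_sum _ _ _).symm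
  have h2 : ‖(A0.card : ℂ) * S‖ ^ 2 ≤ K * ∑ m ∈ W, ‖H m‖ ^ 2 := by
    have e1 : ‖(A0.card : ℂ) * S‖ ≤ ∑ m ∈ W, ‖H m‖ := by
      rw [h1]
      refine (norm_sum_le _ _).trans (Finset.sum_le_sum fun m _ => ?_)
      rw [norm_mul]
      exact mul_le_of_le_one_left (norm_nonneg _) (hφ _ _)
    have e2 : (∑ m ∈ W, ‖H m‖) ^ 2 ≤ (W.card : ℝ) * ∑ m ∈ W, ‖H m‖ ^ 2 :=
      sq_sum_le_card_mul_sum_sq
    refine (pow_le_pow_left₀ (norm_nonneg _) e1 2).trans (e2.trans ?_)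
    refine mul_le_mul_of_nonneg_right ?_ (Finset.sum_nonneg fun i _ => sq_nonneg _)
    rw [hW]
    exact hK
  -- the correlations
  have h3 : ((∑ m ∈ W, ‖H m‖ ^ 2 : ℝ) : ℂ) =
      ∑ a ∈ A0, ∑ a' ∈ A0, ∑ m ∈ W, G m a * (starRingEnd ℂ) (G m a') := by
    have e1 : ∀ m, ((‖H m‖ ^ 2 : ℝ) : ℂ) = ∑ a ∈ A0, ∑ a' ∈ A0,
        G m a * (starRingEnd ℂ) (G m a') := by
      intro m
      rw [Complex.ofReal_pow, ← Complex.mul_conj', hH]
      simp only [map_sum]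
      rw [Finset.sum_mul_sum]
    rw [Complex.ofReal_sum, Finset.sum_congr rfl fun m _ => e1 m, Finset.sum_comm]
    exact Finset.sum_congr rfl fun a _ => Finset.sum_comm
  have h4 : ∑ m ∈ W, ‖H m‖ ^ 2 ≤ ∑ a ∈ A0, ∑ a' ∈ A0,
      ‖∑ m ∈ W, G m a * (starRingEnd ℂ) (G m a')‖ := by
    have e0 : 0 ≤ ∑ m ∈ W, ‖H m‖ ^ 2 := Finset.sum_nonneg fun i _ => sq_nonneg _
    have e1 : ∑ m ∈ W, ‖H m‖ ^ 2 = ‖((∑ m ∈ W, ‖H m‖ ^ 2 : ℝ) : ℂ)‖ := by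
      rw [Complex.norm_real, Real.norm_of_nonneg e0]
    rw [e1, h3]
    refine (norm_sum_le _ _).trans (Finset.sum_le_sum fun a _ => ?_)
    exact norm_sum_le _ _
  have h5 : ∀ a a' : ℕ × ℕ, ∑ m ∈ W, G m a * (starRingEnd ℂ) (G m a') =
      ∑ m1 ∈ range (2 * N + 1), ∑ m2 ∈ range (2 * N + 1),
        (if M m1 m2 then vBox N g (m1 + D * a.1) (m2 + D * a.2) *
          (starRingEnd ℂ) (vBox N g (m1 + D * a'.1) (m2 + D * a'.2)) else 0) := by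
    intro a a'
    rw [hW, hG, Finset.sum_filter, Finset.sum_product]
  have hK0 : 0 ≤ K := (Nat.cast_nonneg _).trans hK
  rw [← hS]
  have e1 : ‖(A0.card : ℂ) * S‖ ^ 2 = (A0.card : ℝ) ^ 2 * ‖S‖ ^ 2 := by
    rw [norm_mul, Complex.norm_natCast, mul_pow]
  rw [← e1]
  refine h2.trans (mul_le_mul_of_nonneg_left ?_ hK0)
  refine h4.trans (le_of_eq ?_)
  exact Finset.sum_congr rfl fun a _ => Finset.sum_congr rfl fun a' _ => by rw [h5 a a']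

end Pool.Agent.Lib.SL
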