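import Pool.Agent.Lib.SL.VPgn
import Pool.Agent.Lib.SL.VDif
import Pool.Agent.Lib.SL.VVdc
import Pool.Agent.Lib.SL.VCnt
import Pool.Agent.Lib.SL.VPha
import Pool.Agent.Lib.SL.VCpl
import Pool.Agent.Lib.SL.VCor
import Pool.Agent.Lib.SL.VEv
import Pool.Agent.Lib.MI.WAll
import Pool.Agent.Lib.MI.T1Fht

/-!
MP_00e23e_nt, project SL, chapter V closed (helper28): EvStmt from EsStmt.
-/

set_option autoImplicit false

namespace Pool.Agent.Lib.SL

open Pool.Agent.Lib.MI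

theorem tVAll (h : EsStmt) : EvStmt :=
  tVEv tVPgn tVDif tVVdc tVCnt tVPha (tVCor h (tVCpl tSsb tT1Fht))

end Pool.Agent.Lib.SL
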