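import Pool.Agent.Lib.SL.SpecV

set_option autoImplicit false

namespace Pool.Agent.Lib.SL

open Finset Pool.Agent.Lib.EH3 Pool.Agent.Lib.TB Pool.Agent.Results.MP_00e23e_nt Pool.Agent.Lib.MI

theorem tVPgn : VPgnStmt := by
  classical
  intro F T0 l1 l2 hF
  let f : ℕ × ℕ → ℕ := fun a => ((l1 * a.1 - l2 * a.2) % (F : ℤ)).toNat
  have hF0 : (0 : ℤ) < (F : ℤ) := by exact_mod_cast hF
  have hf : ∀ a ∈ range T0 ×ˢ range T0, f a ∈ range F := by
    intro a _
    have h1 := Int.emod_nonneg (l1 * a.1 - l2 * a.2) hF0.ne'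
    have h2 := Int.emod_lt_of_pos (l1 * a.1 - l2 * a.2) hF0
    show ((l1 * a.1 - l2 * a.2) % (F : ℤ)).toNat ∈ range F
    rw [mem_range]
    omega
  have hd : ∀ c : ℕ, ∀ a ∈ (range T0 ×ˢ range T0).filter (fun a => f a = c),
      (F : ℤ) ∣ l1 * a.1 - l2 * a.2 - (c : ℤ) := by
    intro c a ha
    obtain ⟨_, h2⟩ := mem_filter.1 ha
    have h3 : ((l1 * a.1 - l2 * a.2) % (F : ℤ)).toNat = c := h2
    have h1 := Int.emod_nonneg (l1 * a.1 - l2 * a.2) hF0.ne'
    have h4 : (l1 * a.1 - l2 * a.2) % (F : ℤ) = (c : ℤ) := by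
      rw [← h3]; exact (Int.toNat_of_nonneg h1).symm
    rw [← h4]
    exact Int.dvd_self_sub_emod
  by_contra hcon
  push Not at hcon
  have hlt : ∀ c ∈ range F, F * ((range T0 ×ˢ range T0).filter (fun a => f a = c)).card < T0 ^ 2 := by
    intro c _
    by_contra hc
    push Not at hc
    obtain ⟨a, ha, hna⟩ := hcon _ (c : ℤ) (filter_subset _ _) hc
    exact hna (hd c a ha)
  have hcard := card_eq_sum_card_fiberwise (f := f) (s := range T0 ×ˢ range T0) (t := range F) hf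
  have hne : (range F).Nonempty := ⟨0, mem_range.2 (by omega)⟩
  have hs := sum_lt_sum_of_nonempty hne hlt
  rw [← mul_sum, ← hcard, card_product, card_range, sum_const, card_range, smul_eq_mul] at hs
  have : F * (T0 * T0) = F * T0 ^ 2 := by ring
  omega

end Pool.Agent.Lib.SL
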