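import Pool.Agent.Lib.SL.SpecW

/-!
MP_00e23e_nt, project SL, module WCor (helper28): the correlations with general shifts (directly from EsStmt, SsbStmt, T1FhtStmt).
-/

set_option autoImplicit false

namespace Pool.Agent.Lib.SL

open Finset Pool.Agent.Lib.EH3 Pool.Agent.Lib.TB Pool.Agent.Results.MP_00e23e_nt Pool.Agent.Lib.MI

/-- shifting the variable of summation -/
private theorem WCor_shift (N x x' : ℕ) (hx : x ≤ N) (hx' : x' ≤ N) (f : ℕ → ℂ) :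
    ∑ m ∈ range (2 * N + 1), (if (N < m + x ∧ m + x ≤ 2 * N) ∧ (N < m + x' ∧ m + x' ≤ 2 * N)
      then f (m + x) else 0) =
      ∑ n ∈ Ioc (N + (x - x')) (2 * N - (x' - x)), f n := by
  rw [← Finset.sum_filter]
  refine Finset.sum_nbij' (fun m => m + x) (fun n => n - x) ?_ ?_ ?_ ?_ ?_
  · intro m hm
    rw [mem_filter, mem_range] at hm
    rw [mem_Ioc]
    omega
  · intro n hn
    rw [mem_Ioc] at hn
    rw [mem_filter, mem_range]
    omega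
  · intro m _
    show m + x - x = m
    omega
  · intro n hn
    rw [mem_Ioc] at hn
    show n - x + x = n
    omega
  · intro m _
    rfl

/-- the shift as a natural number -/
private def WCor_t (q x x' : ℕ) : ℕ := x' + (q - 1) * x

private theorem WCor_teq {q : ℕ} (hq : 1 ≤ q) (x x' m : ℕ) :
    m + x + WCor_t q x x' = m + x' + x * q := by
  unfold WCor_t
  obtain ⟨r, rfl⟩ : ∃ r, q = r + 1 := ⟨q - 1, by omega⟩
  rw [Nat.add_sub_cancel]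
  ring

private theorem WCor_tint {q : ℕ} (hq : 1 ≤ q) (x x' : ℕ) :
    ((WCor_t q x x' : ℕ) : ℤ) = ((x' : ℤ) - x) + x * q := by
  have h := WCor_teq hq x x' 0
  have h2 : ((0 + x + WCor_t q x x' : ℕ) : ℤ) = ((0 + x' + x * q : ℕ) : ℤ) := by
    rw [h]
  push_cast at h2
  linarith

private theorem WCor_one (c : ℤ) (n : ℕ) : t1g c 1 n = 1 := by
  unfold t1g
  rw [if_pos (Nat.coprime_one_right n)]
  exact en_of_dvd (by simp)

/-- the two factors of the correlation -/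
private noncomputable def WCor_P1 (F w : ℕ) (c c1 : ℤ) (t n : ℕ) : ℂ :=
  t1g c F n * t1g c1 w n * (starRingEnd ℂ) (t1g c F (n + t) * t1g c1 w (n + t))

private theorem WCor_per (F w : ℕ) (c c1 : ℤ) (t n : ℕ) :
    WCor_P1 F w c c1 t (n + F * w) = WCor_P1 F w c c1 t n := by
  unfold WCor_P1
  have f1 : ∀ m, t1g c F (m + F * w) = t1g c F m := by
    intro m
    rw [mul_comm F w, t1_g_add_mul]
  have f2 : ∀ m, t1g c1 w (m + F * w) = t1g c1 w m := by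
    intro m
    rw [t1_g_add_mul]
  rw [show n + F * w + t = (n + t) + F * w by ring, f1, f2, f1, f2]

/-- the complete sums -/
private theorem WCor_cpl (hS : SsbStmt) (hT : T1FhtStmt) (T : ℝ) (c c1 j : ℤ) (k2 k3 w t : ℕ)
    (hsq : Squarefree (k2 * k3)) (hw : Squarefree w) (hc : (k2 * k3).Coprime w)
    (hg : Int.gcd (c * t) (k2 : ℤ) = 1) (t1 : ((k2 * k3).divisors.card : ℝ) ≤ T)
    (t2 : (w.divisors.card : ℝ) ≤ T) :
    ‖hE (WCor_P1 (k2 * k3) w c c1 t) (k2 * k3 * w) j‖ ≤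
      (T ^ 4 * Real.sqrt ((k2 : ℝ) * k3 * w)) * Real.sqrt (Int.gcd j ((k3 * w : ℕ) : ℤ) : ℝ) := by
  have hB1 : 1 ≤ k2 * k3 := Nat.pos_of_ne_zero fun h => by
    rw [h] at hsq; exact not_squarefree_zero hsq
  have hw1 : 1 ≤ w := Nat.pos_of_ne_zero fun h => by
    rw [h] at hw; exact not_squarefree_zero hw
  have hk3 : 1 ≤ k3 := Nat.pos_of_ne_zero fun h => by
    rw [h, mul_zero] at hB1; omega
  have hk2 : 1 ≤ k2 := Nat.pos_of_ne_zero fun h => by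
    rw [h, zero_mul] at hB1; omega
  set B := k2 * k3 with hB
  have e := hT c c1 j B w 0 t hB1 hw1 hc
  have e1 : ‖hE (WCor_P1 B w c c1 t) (B * w) j‖ =
      ‖SS c (j * (iv w B : ℤ)) B t‖ * ‖SS c1 (j * (iv B w : ℤ)) w t‖ := by
    rw [← e]
    unfold hE WCor_P1
    simp only [add_zero]
  rw [e1]
  have s1 := hS B t c (j * (iv w B : ℤ)) hB1 hsq
  have s2 := hS w t c1 (j * (iv B w : ℤ)) hw1 hw
  -- the gcd modulo B
  have g1 : Int.gcd ((Int.gcd (c * t) (j * (iv w B : ℤ)) : ℕ) : ℤ) B ≤ Int.gcd j (k3 : ℤ) := by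
    set d := Int.gcd ((Int.gcd (c * t) (j * (iv w B : ℤ)) : ℕ) : ℤ) B with hd
    have d1 : (d : ℤ) ∣ ((Int.gcd (c * t) (j * (iv w B : ℤ)) : ℕ) : ℤ) := Int.gcd_dvd_left _ _
    have d2 : (d : ℤ) ∣ (B : ℤ) := Int.gcd_dvd_right _ _
    have d3 : (d : ℤ) ∣ c * t := d1.trans (Int.gcd_dvd_left _ _)
    have d4 : (d : ℤ) ∣ j * (iv w B : ℤ) := d1.trans (Int.gcd_dvd_right _ _)
    have d5 : d.Coprime k2 := by
      have h3 : Nat.gcd d k2 ∣ 1 := by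
        rw [← hg]
        exact Int.dvd_gcd ((Int.natCast_dvd_natCast.2 (Nat.gcd_dvd_left d k2)).trans d3)
          (Int.natCast_dvd_natCast.2 (Nat.gcd_dvd_right d k2))
      exact Nat.dvd_one.1 h3
    have d6 : d ∣ k3 := by
      have h3 : d ∣ k2 * k3 := Int.natCast_dvd_natCast.1 d2
      exact d5.dvd_of_dvd_mul_left h3
    have d7 : (d : ℤ) ∣ j := by
      have h3 : (B : ℤ) ∣ (iv w B : ℤ) * w - 1 := iv_dvd hc.symm hB1
      have h4 : IsCoprime (B : ℤ) (iv w B : ℤ) := by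
        obtain ⟨z, hz⟩ := h3
        exact ⟨-z, w, by linear_combination (-1 : ℤ) * (-hz)⟩
      have h5 : IsCoprime (d : ℤ) (iv w B : ℤ) := h4.of_isCoprime_of_dvd_left d2
      exact h5.dvd_of_dvd_mul_right d4
    have h6 : d ∣ Int.gcd j (k3 : ℤ) := Int.dvd_gcd d7 (Int.natCast_dvd_natCast.2 d6)
    exact Nat.le_of_dvd (Int.gcd_pos_of_ne_zero_right _ (by exact_mod_cast (by omega : k3 ≠ 0))) h6
  have g2 : Int.gcd ((Int.gcd (c1 * t) (j * (iv B w : ℤ)) : ℕ) : ℤ) w ≤ Int.gcd j (w : ℤ) := by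
    set d := Int.gcd ((Int.gcd (c1 * t) (j * (iv B w : ℤ)) : ℕ) : ℤ) w with hd
    have d1 : (d : ℤ) ∣ ((Int.gcd (c1 * t) (j * (iv B w : ℤ)) : ℕ) : ℤ) := Int.gcd_dvd_left _ _
    have d2 : (d : ℤ) ∣ (w : ℤ) := Int.gcd_dvd_right _ _
    have d4 : (d : ℤ) ∣ j * (iv B w : ℤ) := d1.trans (Int.gcd_dvd_right _ _)
    have d7 : (d : ℤ) ∣ j := by
      have h3 : (w : ℤ) ∣ (iv B w : ℤ) * B - 1 := iv_dvd hc hw1
      have h4 : IsCoprime (w : ℤ) (iv B w : ℤ) := by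
        obtain ⟨z, hz⟩ := h3
        exact ⟨-z, B, by linear_combination (-1 : ℤ) * (-hz)⟩
      have h5 : IsCoprime (d : ℤ) (iv B w : ℤ) := h4.of_isCoprime_of_dvd_left d2
      exact h5.dvd_of_dvd_mul_right d4
    have h6 : d ∣ Int.gcd j (w : ℤ) := Int.dvd_gcd d7 d2
    exact Nat.le_of_dvd (Int.gcd_pos_of_ne_zero_right _ (by exact_mod_cast (by omega : w ≠ 0))) h6
  have g3 : Int.gcd j ((k3 * w : ℕ) : ℤ) = Int.gcd j (k3 : ℤ) * Int.gcd j (w : ℤ) := by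
    have h3 : k3.Coprime w := Nat.Coprime.coprime_dvd_left (dvd_mul_left k3 k2) hc
    rw [Int.gcd_eq_natAbs, Int.gcd_eq_natAbs, Int.gcd_eq_natAbs]
    simp only [Int.natAbs_natCast]
    exact Nat.Coprime.gcd_mul _ h3
  have hT0 : 0 ≤ T := le_trans (by positivity) t1
  have p1 : ‖SS c (j * (iv w B : ℤ)) B t‖ ≤ T ^ 2 * Real.sqrt ((B : ℝ) * (Int.gcd j (k3 : ℤ) : ℝ)) := by
    refine s1.trans ?_
    refine mul_le_mul (pow_le_pow_left₀ (by positivity) t1 2) (Real.sqrt_le_sqrt ?_)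
      (Real.sqrt_nonneg _) (by positivity)
    refine mul_le_mul_of_nonneg_left ?_ (by positivity)
    exact_mod_cast g1
  have p2 : ‖SS c1 (j * (iv B w : ℤ)) w t‖ ≤ T ^ 2 * Real.sqrt ((w : ℝ) * (Int.gcd j (w : ℤ) : ℝ)) := by
    refine s2.trans ?_
    refine mul_le_mul (pow_le_pow_left₀ (by positivity) t2 2) (Real.sqrt_le_sqrt ?_)
      (Real.sqrt_nonneg _) (by positivity)
    refine mul_le_mul_of_nonneg_left ?_ (by positivity)
    exact_mod_cast g2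
  refine (mul_le_mul p1 p2 (norm_nonneg _) (by positivity)).trans (le_of_eq ?_)
  have q1 : Real.sqrt ((B : ℝ) * (Int.gcd j (k3 : ℤ) : ℝ)) * Real.sqrt ((w : ℝ) * (Int.gcd j (w : ℤ) : ℝ)) =
      Real.sqrt ((k2 : ℝ) * k3 * w) * Real.sqrt (Int.gcd j ((k3 * w : ℕ) : ℤ) : ℝ) := by
    rw [← Real.sqrt_mul (by positivity), ← Real.sqrt_mul (by positivity), g3]
    congr 1
    rw [hB]
    push_cast
    ring
  calc T ^ 2 * Real.sqrt ((B : ℝ) * (Int.gcd j (k3 : ℤ) : ℝ)) *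
        (T ^ 2 * Real.sqrt ((w : ℝ) * (Int.gcd j (w : ℤ) : ℝ)))
      = T ^ 4 * (Real.sqrt ((B : ℝ) * (Int.gcd j (k3 : ℤ) : ℝ)) *
        Real.sqrt ((w : ℝ) * (Int.gcd j (w : ℤ) : ℝ))) := by ring
    _ = _ := by rw [q1]; ring

/-- the pointwise identity -/
private theorem WCor_point (k2 k3 u1 u2 : ℕ) (l c c1 c2 : ℤ) (N m1 m2 x y x' y' : ℕ) (hB : 1 ≤ k2 * k3)
    (hu1 : 1 ≤ u1) (hu2 : 1 ≤ u2) :
    (if ((k2 * k3 : ℕ) : ℤ) ∣ ((m1 + x : ℕ) : ℤ) - l * ((m2 + y : ℕ) : ℤ) then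
        vBox N (wG (k2 * k3) u1 u2 c c1 c2) (m1 + x) (m2 + y) *
        (starRingEnd ℂ) (vBox N (wG (k2 * k3) u1 u2 c c1 c2) (m1 + x') (m2 + y')) else 0) =
    (if (N < m1 + x ∧ m1 + x ≤ 2 * N) ∧ (N < m1 + x' ∧ m1 + x' ≤ 2 * N)
      then (if (N < m2 + y ∧ m2 + y ≤ 2 * N) ∧
          (N < m2 + y' ∧ m2 + y' ≤ 2 * N)
        then fE 1 k2 k3 1 l (WCor_P1 (k2 * k3) u1 c c1 (WCor_t (k2 * k3 * u1) x x'))
          (WCor_P1 1 u2 0 c2 (WCor_t (1 * u2) y y')) (m1 + x) (m2 + y) else 0)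
      else 0) := by
  by_cases h1 : (N < m1 + x ∧ m1 + x ≤ 2 * N) ∧ (N < m1 + x' ∧ m1 + x' ≤ 2 * N)
  · by_cases h2 : (N < m2 + y ∧ m2 + y ≤ 2 * N) ∧ (N < m2 + y' ∧ m2 + y' ≤ 2 * N)
    · rw [if_pos h1, if_pos h2]
      have v1 : vBox N (wG (k2 * k3) u1 u2 c c1 c2) (m1 + x) (m2 + y) =
        wG (k2 * k3) u1 u2 c c1 c2 (m1 + x) (m2 + y) := if_pos ⟨h1.1, h2.1⟩
      have v2 : vBox N (wG (k2 * k3) u1 u2 c c1 c2) (m1 + x') (m2 + y') =
        wG (k2 * k3) u1 u2 c c1 c2 (m1 + x') (m2 + y') := if_pos ⟨h1.2, h2.2⟩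
      rw [v1, v2]
      unfold fE
      have e1 : ((1 * k2 * k3 : ℕ) : ℤ) = ((k2 * k3 : ℕ) : ℤ) := by push_cast; ring
      have e2 : (1 : ℤ) * ((m1 + x : ℕ) : ℤ) - l * ((m2 + y : ℕ) : ℤ) =
        ((m1 + x : ℕ) : ℤ) - l * ((m2 + y : ℕ) : ℤ) := by ring
      rw [e1, e2]
      by_cases h3 : ((k2 * k3 : ℕ) : ℤ) ∣ ((m1 + x : ℕ) : ℤ) - l * ((m2 + y : ℕ) : ℤ)
      · rw [if_pos h3, if_pos ⟨h3, Nat.coprime_one_right _⟩]
        unfold wG WCor_P1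
        rw [WCor_one, WCor_one]
        have q1 : 1 ≤ k2 * k3 * u1 := Nat.mul_pos hB hu1
        have q2 : 1 ≤ 1 * u2 := by omega
        rw [WCor_teq q1, WCor_teq q2]
        have f1 : t1g c (k2 * k3) (m1 + x' + x * (k2 * k3 * u1)) = t1g c (k2 * k3) (m1 + x') := by
          rw [show x * (k2 * k3 * u1) = (x * u1) * (k2 * k3) by ring, t1_g_add_mul]
        have f2 : t1g c1 u1 (m1 + x' + x * (k2 * k3 * u1)) = t1g c1 u1 (m1 + x') := by
          rw [show x * (k2 * k3 * u1) = (x * (k2 * k3)) * u1 by ring, t1_g_add_mul]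
        have f3 : t1g c2 u2 (m2 + y' + y * (1 * u2)) = t1g c2 u2 (m2 + y') := by
          rw [one_mul, t1_g_add_mul]
        rw [f1, f2, f3]
        simp only [map_mul, one_mul]
        ring
      · rw [if_neg h3, if_neg (fun h => h3 h.1)]
    · rw [if_pos h1, if_neg h2]
      have : vBox N (wG (k2 * k3) u1 u2 c c1 c2) (m1 + x) (m2 + y) *
        (starRingEnd ℂ) (vBox N (wG (k2 * k3) u1 u2 c c1 c2) (m1 + x') (m2 + y')) = 0 := by
        unfold vBox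
        by_cases h3 : N < m2 + y ∧ m2 + y ≤ 2 * N
        · rw [if_neg (fun h : (N < m1 + x' ∧ m1 + x' ≤ 2 * N) ∧
            N < m2 + y' ∧ m2 + y' ≤ 2 * N => h2 ⟨h3, h.2⟩)]
          simp
        · rw [if_neg (fun h : (N < m1 + x ∧ m1 + x ≤ 2 * N) ∧
            N < m2 + y ∧ m2 + y ≤ 2 * N => h3 h.2)]
          simp
      rw [this]
      simp
  · rw [if_neg h1]
    have : vBox N (wG (k2 * k3) u1 u2 c c1 c2) (m1 + x) (m2 + y) *
        (starRingEnd ℂ) (vBox N (wG (k2 * k3) u1 u2 c c1 c2) (m1 + x') (m2 + y')) = 0 := by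
      unfold vBox
      by_cases h3 : N < m1 + x ∧ m1 + x ≤ 2 * N
      · rw [if_neg (fun h : (N < m1 + x' ∧ m1 + x' ≤ 2 * N) ∧
          N < m2 + y' ∧ m2 + y' ≤ 2 * N => h1 ⟨h3, h.1⟩)]
        simp
      · rw [if_neg (fun h : (N < m1 + x ∧ m1 + x ≤ 2 * N) ∧
          N < m2 + y ∧ m2 + y ≤ 2 * N => h3 h.1)]
        simp
    rw [this]
    simp

/-- the final identity -/
private theorem WCor_fin (T C : ℝ) (A : ℕ) (k2 k3 u1 u2 N : ℝ) (hk2 : 0 < k2) (hk3 : 0 < k3)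
    (hu1 : 0 < u1) (hu2 : 0 < u2) :
    C * T ^ A * ((T ^ 4 * Real.sqrt (k2 * k3 * u1)) * (T ^ 4 * Real.sqrt (1 * 1 * u2))) *
      (1 + 1 * Real.sqrt k3 * N / ((1 * k2 * k3) * Real.sqrt (u1 * u2)) +
      N / ((1 * k2 * k3) * Real.sqrt u1) + N / ((1 * k2 * k3) * Real.sqrt u2) +
      1 * Real.sqrt k3 * N ^ 2 / ((1 * k2 * k3) ^ 2 * Real.sqrt (u1 * u2))) =
    C * T ^ (A + 8) * (Real.sqrt (k2 * k3 * u1 * u2) + N * Real.sqrt (u1 / (k2 * k3)) +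
      N * Real.sqrt (u2 / (k2 * k3)) + (N + N ^ 2 / (k2 * k3)) / Real.sqrt k2) := by
  have a1 : 0 < Real.sqrt k2 := Real.sqrt_pos.2 hk2
  have a2 : 0 < Real.sqrt k3 := Real.sqrt_pos.2 hk3
  have a3 : 0 < Real.sqrt u1 := Real.sqrt_pos.2 hu1
  have a4 : 0 < Real.sqrt u2 := Real.sqrt_pos.2 hu2
  have b1 : k2 = Real.sqrt k2 * Real.sqrt k2 := (Real.mul_self_sqrt hk2.le).symm
  have b2 : k3 = Real.sqrt k3 * Real.sqrt k3 := (Real.mul_self_sqrt hk3.le).symm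
  have b3 : u1 = Real.sqrt u1 * Real.sqrt u1 := (Real.mul_self_sqrt hu1.le).symm
  have b4 : u2 = Real.sqrt u2 * Real.sqrt u2 := (Real.mul_self_sqrt hu2.le).symm
  have e1 : Real.sqrt (k2 * k3 * u1) = Real.sqrt k2 * Real.sqrt k3 * Real.sqrt u1 := by
    rw [Real.sqrt_mul (by positivity), Real.sqrt_mul hk2.le]
  have e2 : Real.sqrt (1 * 1 * u2) = Real.sqrt u2 := by rw [one_mul, one_mul]
  have e3 : Real.sqrt (u1 * u2) = Real.sqrt u1 * Real.sqrt u2 := by rw [Real.sqrt_mul hu1.le]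
  have e4 : Real.sqrt (k2 * k3 * u1 * u2) =
      Real.sqrt k2 * Real.sqrt k3 * Real.sqrt u1 * Real.sqrt u2 := by
    rw [Real.sqrt_mul (by positivity), e1]
  have e5 : Real.sqrt (u1 / (k2 * k3)) = Real.sqrt u1 / (Real.sqrt k2 * Real.sqrt k3) := by
    rw [Real.sqrt_div hu1.le, Real.sqrt_mul hk2.le]
  have e6 : Real.sqrt (u2 / (k2 * k3)) = Real.sqrt u2 / (Real.sqrt k2 * Real.sqrt k3) := by
    rw [Real.sqrt_div hu2.le, Real.sqrt_mul hk2.le]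
  rw [e1, e2, e3, e4, e5, e6]
  set p := Real.sqrt k2 with hp
  set q := Real.sqrt k3 with hq
  set u := Real.sqrt u1 with hu
  set v := Real.sqrt u2 with hv
  rw [b1, b2, pow_add]
  field_simp
  ring

open Classical in
/-- the estimate when k2 is coprime to c (x' - x) -/
private theorem WCor_main (h1 : EsStmt) (h2 : SsbStmt) (h3 : T1FhtStmt) :
    ∃ C : ℝ, 0 < C ∧ ∃ A : ℕ, ∀ (X T : ℝ) (k2 k3 u1 u2 N x y x' y' : ℕ) (l c c1 c2 : ℤ), Tau X T →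
  Squarefree (k2 * k3) → Squarefree u1 → Squarefree u2 → (k2 * k3).Coprime u1 → (k2 * k3).Coprime u2 →
  Int.gcd l ((k2 * k3 : ℕ) : ℤ) = 1 → 1 ≤ N → x ≤ N → y ≤ N → x' ≤ N → y' ≤ N →
  Int.gcd (c * ((x' : ℤ) - x)) (k2 : ℤ) = 1 → (k2 : ℝ) * k3 * u1 * u2 ≤ X →
  ‖∑ m1 ∈ range (2 * N + 1), ∑ m2 ∈ range (2 * N + 1),
      if ((k2 * k3 : ℕ) : ℤ) ∣ ((m1 + x : ℕ) : ℤ) - l * ((m2 + y : ℕ) : ℤ) then
        vBox N (wG (k2 * k3) u1 u2 c c1 c2) (m1 + x) (m2 + y) *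
        (starRingEnd ℂ) (vBox N (wG (k2 * k3) u1 u2 c c1 c2) (m1 + x') (m2 + y')) else 0‖ ≤
    C * T ^ A * (Real.sqrt ((k2 : ℝ) * k3 * u1 * u2) + (N : ℝ) * Real.sqrt ((u1 : ℝ) / ((k2 : ℝ) * k3)) +
      (N : ℝ) * Real.sqrt ((u2 : ℝ) / ((k2 : ℝ) * k3)) +
      ((N : ℝ) + (N : ℝ) ^ 2 / ((k2 : ℝ) * k3)) / Real.sqrt k2) := by
  obtain ⟨C, hC, A, hE⟩ := h1
  refine ⟨C, hC, A + 8, ?_⟩
  intro X T k2 k3 u1 u2 N x y x' y' l c c1 c2 hT hsq hs1 hs2 hc1 hc2 hl hN hx hy hx' hy' hg hX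
  have hT1 : 1 ≤ T := hT.1
  have hB1 : 1 ≤ k2 * k3 := Nat.pos_of_ne_zero fun h => by
    rw [h] at hsq; exact not_squarefree_zero hsq
  have hk3 : 1 ≤ k3 := Nat.pos_of_ne_zero fun h => by
    rw [h, mul_zero] at hB1; omega
  have hk2 : 1 ≤ k2 := Nat.pos_of_ne_zero fun h => by
    rw [h, zero_mul] at hB1; omega
  have hu1 : 1 ≤ u1 := Nat.pos_of_ne_zero fun h => by
    rw [h] at hs1; exact not_squarefree_zero hs1
  have hu2 : 1 ≤ u2 := Nat.pos_of_ne_zero fun h => by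
    rw [h] at hs2; exact not_squarefree_zero hs2
  have hk2r : (1 : ℝ) ≤ k2 := by exact_mod_cast hk2
  have hk3r : (1 : ℝ) ≤ k3 := by exact_mod_cast hk3
  have hu1r : (1 : ℝ) ≤ u1 := by exact_mod_cast hu1
  have hu2r : (1 : ℝ) ≤ u2 := by exact_mod_cast hu2
  have hNr : (1 : ℝ) ≤ N := by exact_mod_cast hN
  have hBr : (1 : ℝ) ≤ (k2 : ℝ) * k3 := by nlinarith
  have hXw1 : (k2 : ℝ) * k3 * u1 ≤ X :=
    le_trans (le_mul_of_one_le_right (by positivity) hu2r) hX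
  have hXw2 : (k2 : ℝ) * k3 * u2 ≤ X := by
    refine le_trans ?_ hX
    have h4 : (k2 : ℝ) * k3 * u2 ≤ k2 * k3 * u2 * u1 := le_mul_of_one_le_right (by positivity) hu1r
    calc (k2 : ℝ) * k3 * u2 ≤ k2 * k3 * u2 * u1 := h4
      _ = k2 * k3 * u1 * u2 := by ring
  have hXB : ((k2 * k3 : ℕ) : ℝ) ≤ X := by
    push_cast
    refine le_trans ?_ hXw1
    exact le_mul_of_one_le_right (by positivity) hu1r
  have hX1 : (u1 : ℝ) ≤ X := by
    refine le_trans ?_ hXw1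
    have h3 : 0 ≤ (u1 : ℝ) := by positivity
    nlinarith
  have hX2 : (u2 : ℝ) ≤ X := by
    refine le_trans ?_ hXw2
    have h3 : 0 ≤ (u2 : ℝ) := by positivity
    nlinarith
  have tB := hT.2.2 (k2 * k3) hB1 hXB
  have tw1 := hT.2.2 u1 hu1 hX1
  have tw2 := hT.2.2 u2 hu2 hX2
  set t1 := WCor_t (k2 * k3 * u1) x x' with ht1
  set t2 := WCor_t (1 * u2) y y' with ht2
  have q1 : 1 ≤ k2 * k3 * u1 := Nat.mul_pos hB1 hu1
  have hg' : Int.gcd (c * t1) (k2 : ℤ) = 1 := by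
    have e1 : c * (t1 : ℤ) = c * ((x' : ℤ) - x) + (c * x * k3 * u1) * k2 := by
      rw [ht1, WCor_tint q1]; push_cast; ring
    rw [e1, Int.gcd_add_mul_right_left]
    exact hg
  have hME : ME 1 k2 k3 u1 u2 1 l := by
    have e1 : 1 * k2 * k3 = k2 * k3 := by ring
    refine ⟨by rw [e1]; exact hsq, hu1, hu2, by rw [e1]; exact hc1, by rw [e1]; exact hc2, ?_, ?_⟩
    · exact Int.gcd_one_left _
    · rw [e1]; exact hl
  have hPE : PE k2 k3 u1 u2 (WCor_P1 (k2 * k3) u1 c c1 t1) (WCor_P1 1 u2 0 c2 t2)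
      (T ^ 4 * Real.sqrt ((k2 : ℝ) * k3 * u1)) (T ^ 4 * Real.sqrt (1 * 1 * (u2 : ℝ))) := by
    refine ⟨by positivity, by positivity, ?_, ?_, ?_, ?_⟩
    · intro n
      exact WCor_per (k2 * k3) u1 c c1 t1 n
    · intro n
      have := WCor_per 1 u2 0 c2 t2 n
      rw [one_mul] at this
      exact this
    · intro j
      exact WCor_cpl h2 h3 T c c1 j k2 k3 u1 t1 hsq hs1 hc1 hg' tB tw1
    · intro j
      have h4 := WCor_cpl h2 h3 T 0 c2 j 1 1 u2 t2 (by simp) hs2 (by simp) (by simp)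
        (by simpa using hT1) tw2
      simp only [one_mul, Nat.cast_one] at h4 ⊢
      exact h4
  have hsum : (∑ m1 ∈ range (2 * N + 1), ∑ m2 ∈ range (2 * N + 1),
      if ((k2 * k3 : ℕ) : ℤ) ∣ ((m1 + x : ℕ) : ℤ) - l * ((m2 + y : ℕ) : ℤ) then
        vBox N (wG (k2 * k3) u1 u2 c c1 c2) (m1 + x) (m2 + y) *
        (starRingEnd ℂ) (vBox N (wG (k2 * k3) u1 u2 c c1 c2) (m1 + x') (m2 + y')) else 0) =
      ∑ n1 ∈ Ioc (N + (x - x')) (2 * N - (x' - x)), ∑ n2 ∈ Ioc (N + (y - y')) (2 * N - (y' - y)),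
        fE 1 k2 k3 1 l (WCor_P1 (k2 * k3) u1 c c1 t1) (WCor_P1 1 u2 0 c2 t2) n1 n2 := by
    rw [← WCor_shift N x x' hx hx']
    refine Finset.sum_congr rfl fun m1 _ => ?_
    by_cases h4 : (N < m1 + x ∧ m1 + x ≤ 2 * N) ∧ (N < m1 + x' ∧ m1 + x' ≤ 2 * N)
    · rw [if_pos h4, ← WCor_shift N y y' hy hy']
      refine Finset.sum_congr rfl fun m2 _ => ?_
      rw [WCor_point k2 k3 u1 u2 l c c1 c2 N m1 m2 x y x' y' hB1 hu1 hu2, if_pos h4]
    · rw [if_neg h4]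
      refine Finset.sum_eq_zero fun m2 _ => ?_
      rw [WCor_point k2 k3 u1 u2 l c c1 c2 N m1 m2 x y x' y' hB1 hu1 hu2, if_neg h4]
  rw [hsum]
  have key := hE X T 1 k2 k3 u1 u2 N (N + (x - x')) (2 * N - (x' - x)) (N + (y - y'))
    (2 * N - (y' - y)) 1 l (WCor_P1 (k2 * k3) u1 c c1 t1) (WCor_P1 1 u2 0 c2 t2)
    (T ^ 4 * Real.sqrt ((k2 : ℝ) * k3 * u1)) (T ^ 4 * Real.sqrt (1 * 1 * (u2 : ℝ))) hT hME hPE hN
    (by omega) (by omega) (by omega) (by omega) (by push_cast; linarith) (by push_cast; linarith)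
  refine key.trans (le_of_eq ?_)
  rw [← WCor_fin T C A k2 k3 u1 u2 N (by linarith) (by linarith) (by linarith) (by linarith)]
  push_cast
  ring

open Classical in
theorem tWCor (h1 : EsStmt) (h2 : SsbStmt) (h3 : T1FhtStmt) : WCorStmt := by
  obtain ⟨C, hC, A, hM⟩ := WCor_main h1 h2 h3
  refine ⟨C, hC, A, ?_⟩
  intro X T k2 k3 u1 u2 N l c c1 c2 a a' hT hsq hs1 hs2 hc1 hc2 hl hN hX ha1 ha2 ha1' ha2'
  have hT0 : 0 ≤ T := le_trans zero_le_one hT.1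
  have hB1 : 1 ≤ k2 * k3 := Nat.pos_of_ne_zero fun h => by
    rw [h] at hsq; exact not_squarefree_zero hsq
  have hk3 : 1 ≤ k3 := Nat.pos_of_ne_zero fun h => by
    rw [h, mul_zero] at hB1; omega
  have hk2 : 1 ≤ k2 := Nat.pos_of_ne_zero fun h => by
    rw [h, zero_mul] at hB1; omega
  have sq2 : Squarefree k2 := Squarefree.of_mul_left hsq
  set z : ℤ := (a'.1 : ℤ) - a.1 with hz
  set g := Int.gcd (c * z) (k2 : ℤ) with hg
  have gpos : 0 < g := Int.gcd_pos_of_ne_zero_right _ (by exact_mod_cast (by omega : k2 ≠ 0))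
  have gdvd : g ∣ k2 := Int.natCast_dvd_natCast.1 (Int.gcd_dvd_right _ _)
  obtain ⟨k', hk'⟩ := gdvd
  have hk'1 : 1 ≤ k' := Nat.pos_of_ne_zero fun h => by
    rw [h, mul_zero] at hk'; omega
  have e1 : k' * (g * k3) = k2 * k3 := by rw [hk']; ring
  have cop : Int.gcd (c * z) (k' : ℤ) = 1 := by
    have d1 : Int.gcd (c * z) (k' : ℤ) ∣ g := by
      rw [hg]
      refine Int.dvd_gcd (Int.gcd_dvd_left _ _) ?_
      have h4 : ((Int.gcd (c * z) (k' : ℤ) : ℕ) : ℤ) ∣ (k' : ℤ) := Int.gcd_dvd_right _ _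
      refine h4.trans ?_
      exact Int.natCast_dvd_natCast.2 ⟨g, by rw [hk']; ring⟩
    have d2 : Int.gcd (c * z) (k' : ℤ) ∣ k' := Int.natCast_dvd_natCast.1 (Int.gcd_dvd_right _ _)
    have h5 : g.Coprime k' := Nat.coprime_of_squarefree_mul (hk' ▸ sq2)
    have h6 : Int.gcd (c * z) (k' : ℤ) ∣ Nat.gcd g k' := Nat.dvd_gcd d1 d2
    rw [h5] at h6
    exact Nat.dvd_one.1 h6
  have er : (k' : ℝ) * ((g * k3 : ℕ) : ℝ) = (k2 : ℝ) * k3 := by exact_mod_cast e1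
  have key := hM X T k' (g * k3) u1 u2 N a.1 a.2 a'.1 a'.2 l c c1 c2 hT (by rw [e1]; exact hsq) hs1
    hs2 (by rw [e1]; exact hc1) (by rw [e1]; exact hc2) (by rw [e1]; exact hl) hN ha1 ha2 ha1' ha2'
    cop (by rw [er]; exact hX)
  rw [e1, er] at key
  refine key.trans ?_
  refine mul_le_mul_of_nonneg_left ?_ (mul_nonneg hC.le (pow_nonneg hT0 _))
  have hg2 : (g : ℝ) ≤ (Int.gcd c (k2 : ℤ) : ℝ) * (Int.gcd z (k2 : ℤ) : ℝ) := by
    have h4 : g ∣ Int.gcd c (k2 : ℤ) * Int.gcd z (k2 : ℤ) := by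
      have h := Int.gcd_mul_right_dvd_mul_gcd (k2 : ℤ) c z
      rw [Int.gcd_comm (k2 : ℤ) (c * z), Int.gcd_comm (k2 : ℤ) c, Int.gcd_comm (k2 : ℤ) z] at h
      exact h
    have h5 : 0 < Int.gcd c (k2 : ℤ) * Int.gcd z (k2 : ℤ) :=
      Nat.mul_pos (Int.gcd_pos_of_ne_zero_right _ (by exact_mod_cast (by omega : k2 ≠ 0)))
        (Int.gcd_pos_of_ne_zero_right _ (by exact_mod_cast (by omega : k2 ≠ 0)))
    exact_mod_cast Nat.le_of_dvd h5 h4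
  have hk'r : (0 : ℝ) < k' := by exact_mod_cast hk'1
  have hk3r : (0 : ℝ) < k3 := by exact_mod_cast hk3
  have hk2r : (0 : ℝ) < k2 := by exact_mod_cast hk2
  have hk2e : (k2 : ℝ) = g * k' := by exact_mod_cast hk'
  have last : ((N : ℝ) + (N : ℝ) ^ 2 / ((k2 : ℝ) * k3)) / Real.sqrt k' ≤
      ((N : ℝ) + (N : ℝ) ^ 2 / ((k2 : ℝ) * k3)) *
        Real.sqrt ((Int.gcd c (k2 : ℤ) : ℝ) * (Int.gcd z (k2 : ℤ) : ℝ) * k3 / ((k2 : ℝ) * k3)) := by
    rw [div_eq_mul_inv, ← Real.sqrt_inv]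
    refine mul_le_mul_of_nonneg_left (Real.sqrt_le_sqrt ?_) (by positivity)
    have h6 : (k' : ℝ)⁻¹ = (g : ℝ) * k3 / ((k2 : ℝ) * k3) := by
      have g0 : (0 : ℝ) < g := by exact_mod_cast gpos
      rw [hk2e]
      field_simp
    rw [h6]
    refine div_le_div_of_nonneg_right ?_ (by positivity)
    exact mul_le_mul_of_nonneg_right hg2 hk3r.le
  linarith

end Pool.Agent.Lib.SL
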