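import Pool.Agent.Lib.SL.SpecW

/-! MP_00e23e_nt, Lib/SL, chapter W, module WEw: the final statement EwStmt from the other modules. -/

set_option autoImplicit false

namespace Pool.Agent.Lib.SL

open Finset Pool.Agent.Lib.EH3 Pool.Agent.Lib.TB Pool.Agent.Results.MP_00e23e_nt Pool.Agent.Lib.MI

private lemma WEw_norm_wG (B u1 u2 : ℕ) (c c1 c2 : ℤ) (n1 n2 : ℕ) : ‖wG B u1 u2 c c1 c2 n1 n2‖ ≤ 1 := by
  unfold wG
  rw [norm_mul, norm_mul]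
  have h2 := t1_norm_g c B n1
  have h3 := t1_norm_g c1 u1 n1
  have h4 := t1_norm_g c2 u2 n2
  exact mul_le_one₀ (mul_le_one₀ h2 (norm_nonneg _) h3) (norm_nonneg _) h4

private lemma WEw_norm_vBox (N : ℕ) (g : ℕ → ℕ → ℂ) (h : ∀ n1 n2, ‖g n1 n2‖ ≤ 1) (n1 n2 : ℕ) :
    ‖vBox N g n1 n2‖ ≤ 1 := by
  unfold vBox
  split_ifs
  · exact h _ _
  · simp

private lemma WEw_gcd (c : ℤ) (E B k : ℕ) (hB : 1 ≤ B) (h : E.Coprime B) (hk : k ∣ B) :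
    Int.gcd (c * (iv E B : ℤ)) (k : ℤ) = Int.gcd c (k : ℤ) := by
  have h1 := iv_dvd h hB
  have h2 : IsCoprime (iv E B : ℤ) (B : ℤ) := by
    obtain ⟨t, ht⟩ := h1
    exact ⟨E, -t, by linear_combination ht⟩
  have h2' : IsCoprime (iv E B : ℤ) (k : ℤ) := h2.of_isCoprime_of_dvd_right (by exact_mod_cast hk)
  have h3 : Int.gcd (iv E B : ℤ) (k : ℤ) = 1 := Int.isCoprime_iff_gcd_eq_one.1 h2'
  have h4 : Nat.Coprime (iv E B : ℤ).natAbs (k : ℤ).natAbs := h3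
  show Nat.gcd (c * (iv E B : ℤ)).natAbs (k : ℤ).natAbs = Nat.gcd c.natAbs (k : ℤ).natAbs
  rw [Int.natAbs_mul]
  exact Nat.Coprime.gcd_mul_right_cancel _ h4

private lemma WEw_gcd2 (F k x y : ℕ) (h : F.Coprime k) :
    Int.gcd (((F * x : ℕ) : ℤ) - ((F * y : ℕ) : ℤ)) (k : ℤ) = Int.gcd ((x : ℤ) - y) (k : ℤ) := by
  have e : ((F * x : ℕ) : ℤ) - ((F * y : ℕ) : ℤ) = (F : ℤ) * ((x : ℤ) - y) := by
    push_cast
    ring
  rw [e]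
  show Nat.gcd ((F : ℤ) * ((x : ℤ) - y)).natAbs (k : ℤ).natAbs = Nat.gcd ((x : ℤ) - y).natAbs (k : ℤ).natAbs
  rw [Int.natAbs_mul, Int.natAbs_natCast, Int.natAbs_natCast]
  exact Nat.Coprime.gcd_mul_left_cancel _ h

private lemma WEw_diag (N : ℕ) (M : ℕ → ℕ → Prop) [∀ a b, Decidable (M a b)] (G : ℕ → ℕ → ℂ)
    (hG : ∀ m1 m2, ‖G m1 m2‖ ≤ 1) :
    ‖∑ m1 ∈ range N, ∑ m2 ∈ range N, if M m1 m2 then G m1 m2 else 0‖ ≤
     (((range N ×ˢ range N).filter (fun m => M m.1 m.2)).card : ℝ) := by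
  have e : ∑ m1 ∈ range N, ∑ m2 ∈ range N, (if M m1 m2 then G m1 m2 else 0) =
      ∑ m ∈ range N ×ˢ range N, (if M m.1 m.2 then G m.1 m.2 else 0) :=
    (Finset.sum_product' _ _ (fun m1 m2 => if M m1 m2 then G m1 m2 else 0)).symm
  rw [e, ← sum_filter]
  refine (norm_sum_le _ _).trans ((sum_le_card_nsmul _ _ 1 fun m _ => hG _ _).trans ?_)
  rw [nsmul_eq_mul, mul_one]

/-- The final inequality. -/
private lemma WEw_num {n S L e g T Y s C : ℝ} (hn : 0 < n) (hL : 0 ≤ L) (he : 0 ≤ e) (hT : 1 ≤ T) (hY : 1 ≤ Y)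
    (hs : 1 ≤ s) (hC : 0 ≤ C) (h1 : n ^ 2 * S ^ 2 ≤ 9 * L * (n * (9 * L + C * Y * L * (3 * e * n + g * T))))
    (h2 : 1 ≤ e * n) (h3 : g ≤ n * e * s) : S ^ 2 ≤ 9 * L ^ 2 * (9 + 4 * C) * (Y * T) * (e * s) := by
  refine le_of_mul_le_mul_left ?_ (show 0 < n ^ 2 by positivity)
  have hYT : 1 ≤ Y * T := one_le_mul_of_one_le_of_one_le hY hT
  have a1 : 9 * L ≤ 9 * L * (e * n) := le_mul_of_one_le_right (by positivity) h2
  have a2 : 9 * L * (e * n) ≤ 9 * L * (e * n) * (Y * T * s) :=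
    le_mul_of_one_le_right (by positivity) (one_le_mul_of_one_le_of_one_le hYT hs)
  have a3 : 3 * e * n ≤ 3 * e * n * (s * T) :=
    le_mul_of_one_le_right (by positivity) (one_le_mul_of_one_le_of_one_le hs hT)
  have a4 : g * T ≤ n * e * s * T := mul_le_mul_of_nonneg_right h3 (by linarith)
  have a5 : C * Y * L * (3 * e * n + g * T) ≤ C * Y * L * (4 * (n * e * s * T)) := by
    refine mul_le_mul_of_nonneg_left ?_ (by positivity)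
    calc 3 * e * n + g * T ≤ 3 * e * n * (s * T) + n * e * s * T := add_le_add a3 a4
      _ = _ := by ring
  calc n ^ 2 * S ^ 2 ≤ 9 * L * (n * (9 * L + C * Y * L * (3 * e * n + g * T))) := h1
    _ ≤ 9 * L * (n * (9 * L * (e * n) * (Y * T * s) + C * Y * L * (4 * (n * e * s * T)))) := by
        refine mul_le_mul_of_nonneg_left (mul_le_mul_of_nonneg_left (add_le_add (a1.trans a2) a5) hn.le)
          (by positivity)
    _ = n ^ 2 * (9 * L ^ 2 * (9 + 4 * C) * (Y * T) * (e * s)) := by ring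

private lemma WEw_root {S Q b Y q C : ℝ} (hQ : 0 ≤ Q) (hb : 1 ≤ b) (hY : 1 ≤ Y)
    (hq : 0 ≤ q) (hC : 0 ≤ C) (h : S ^ 2 ≤ 9 * (Q * b) ^ 2 * (9 + 4 * C) * Y * q) :
    S ≤ 9 * (9 + 4 * C) * Y * Q * b * Real.sqrt q := by
  have hs : Real.sqrt q ^ 2 = q := Real.sq_sqrt hq
  refine le_of_sq_le_sq ?_ (by positivity)
  have e1 : (1 : ℝ) ≤ 9 * (9 + 4 * C) := by linarith
  have e2 : 1 ≤ 9 * (9 + 4 * C) * Y := one_le_mul_of_one_le_of_one_le e1 hY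
  have e3 : 0 ≤ 9 * (9 + 4 * C) * Y * (Q ^ 2 * b ^ 2 * q) := by positivity
  calc S ^ 2 ≤ 9 * (Q * b) ^ 2 * (9 + 4 * C) * Y * q := h
    _ = 1 * (9 * (9 + 4 * C) * Y * (Q ^ 2 * b ^ 2 * q)) := by ring
    _ ≤ (9 * (9 + 4 * C) * Y) * (9 * (9 + 4 * C) * Y * (Q ^ 2 * b ^ 2 * q)) :=
      mul_le_mul_of_nonneg_right e2 e3
    _ = (9 * (9 + 4 * C) * Y * Q * b) ^ 2 * q := by ring
    _ = (9 * (9 + 4 * C) * Y * Q * b) ^ 2 * Real.sqrt q ^ 2 := by rw [hs]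
    _ = _ := by ring

/-- The bound of one correlation. -/
private lemma WEw_off {C Y N B u1 u2 e G L : ℝ} (hC : 0 ≤ C) (hY : 0 ≤ Y) (hN : 0 < N) (hB : 0 < B)
    (hu1 : 0 ≤ u1) (hu2 : 0 ≤ u2) (he : 0 ≤ e) (hG : 0 ≤ G) (hL : L = N * (N / B + 1))
    (h1 : Real.sqrt (B * u1 * u2) * B / N ^ 2 ≤ e) (h2 : Real.sqrt (B * u1) / N ≤ e)
    (h3 : Real.sqrt (B * u2) / N ≤ e) :
    C * Y * (Real.sqrt (B * u1 * u2) + N * Real.sqrt (u1 / B) + N * Real.sqrt (u2 / B) + (N + N ^ 2 / B) * G) ≤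
      C * Y * L * (3 * e + G) := by
  have hLe : L = N + N ^ 2 / B := by
    rw [hL]
    field_simp
    ring
  have hNB : N ^ 2 / B ≤ L := by
    rw [hLe]
    linarith
  have a1 : Real.sqrt (B * u1 * u2) ≤ L * e := by
    have b1 : Real.sqrt (B * u1 * u2) = (N ^ 2 / B) * (Real.sqrt (B * u1 * u2) * B / N ^ 2) := by
      field_simp
    rw [b1]
    exact mul_le_mul hNB h1 (by positivity) (by rw [hLe]; positivity)
  have key : ∀ u : ℝ, 0 ≤ u → Real.sqrt (B * u) / N ≤ e → N * Real.sqrt (u / B) ≤ L * e := by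
    intro u hu h
    have b1 : Real.sqrt (u / B) = Real.sqrt (B * u) / B := by
      have b2 : u / B = B * u / B ^ 2 := by
        field_simp
      rw [b2, Real.sqrt_div' _ (by positivity), Real.sqrt_sq hB.le]
    have b3 : N * Real.sqrt (u / B) = (N ^ 2 / B) * (Real.sqrt (B * u) / N) := by
      rw [b1]
      field_simp
    rw [b3]
    exact mul_le_mul hNB h (by positivity) (by rw [hLe]; positivity)
  have a2 := key u1 hu1 h2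
  have a3 := key u2 hu2 h3
  have hsum : Real.sqrt (B * u1 * u2) + N * Real.sqrt (u1 / B) + N * Real.sqrt (u2 / B) + (N + N ^ 2 / B) * G ≤
      L * (3 * e + G) := by
    rw [← hLe]
    linarith
  calc C * Y * (Real.sqrt (B * u1 * u2) + N * Real.sqrt (u1 / B) + N * Real.sqrt (u2 / B) + (N + N ^ 2 / B) * G)
      ≤ C * Y * (L * (3 * e + G)) := mul_le_mul_of_nonneg_left hsum (by positivity)
    _ = _ := by ring

private lemma WEw_g {γ k2 k3 T1 T2 n e : ℝ} (hγ : 0 ≤ γ) (hk2 : 0 < k2) (hk3 : 0 < k3) (_ : 0 < T1)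
    (hT2 : 0 < T2) (hn : 0 < n) (he : 0 ≤ e) (h1 : T1 * T2 ≤ k2 * k3 * n) (h2 : Real.sqrt (k3 / T2) ≤ e) :
    Real.sqrt (γ / k2) * Real.sqrt (T1 * n) ≤ n * e * Real.sqrt γ := by
  have h3 : k3 / T2 ≤ e ^ 2 := by
    have := Real.sq_sqrt (show 0 ≤ k3 / T2 by positivity)
    rw [← this]
    exact pow_le_pow_left₀ (Real.sqrt_nonneg _) h2 2
  have h4 : T1 / k2 ≤ n * e ^ 2 := by
    have h5 : T1 / k2 ≤ n * (k3 / T2) := by
      rw [div_le_iff₀ hk2]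
      have h6 : n * (k3 / T2) * k2 = (k2 * k3 * n) / T2 := by ring
      rw [h6, le_div_iff₀ hT2]
      exact h1
    exact h5.trans (mul_le_mul_of_nonneg_left h3 hn.le)
  have h7 : n * e * Real.sqrt γ = Real.sqrt ((n * e) ^ 2 * γ) := by
    rw [Real.sqrt_mul (by positivity), Real.sqrt_sq (by positivity)]
  rw [h7, ← Real.sqrt_mul (by positivity)]
  refine Real.sqrt_le_sqrt ?_
  calc γ / k2 * (T1 * n) = γ * n * (T1 / k2) := by ring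
    _ ≤ γ * n * (n * e ^ 2) := mul_le_mul_of_nonneg_left h4 (by positivity)
    _ = _ := by ring

theorem tWEw : WEwStmt := by
  classical
  intro hPgn hDif hVdc hCnt hPha hCor
  obtain ⟨C, hC, A, hCor⟩ := hCor
  refine ⟨9 * (9 + 4 * C), by positivity, A + 1, ?_⟩
  intro X T e k2 k3 F1 u1 F2 u2 T1 T2 N l c1 c2 hT hsq1 hsq2 hl hN hT1 hT2 hF1N hF2N hT2B hX he1 he2 he3 he4 he5
  have hTt : 1 ≤ T := hT.1
  obtain ⟨hc1, hsB, hsFu1⟩ := Nat.squarefree_mul_iff.1 hsq1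
  obtain ⟨hc2, -, hsFu2⟩ := Nat.squarefree_mul_iff.1 hsq2
  obtain ⟨hFu1, hsF1, hsu1⟩ := Nat.squarefree_mul_iff.1 hsFu1
  obtain ⟨hFu2, hsF2, hsu2⟩ := Nat.squarefree_mul_iff.1 hsFu2
  have hB0 : k2 * k3 ≠ 0 := hsB.ne_zero
  have hB1 : 1 ≤ k2 * k3 := Nat.one_le_iff_ne_zero.2 hB0
  have hk21 : 1 ≤ k2 := Nat.one_le_iff_ne_zero.2 fun h => hB0 (by rw [h]; ring)
  have hk31 : 1 ≤ k3 := Nat.one_le_iff_ne_zero.2 fun h => hB0 (by rw [h]; ring)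
  have hF11 : 1 ≤ F1 := Nat.one_le_iff_ne_zero.2 hsF1.ne_zero
  have hF21 : 1 ≤ F2 := Nat.one_le_iff_ne_zero.2 hsF2.ne_zero
  have hu11 : 1 ≤ u1 := Nat.one_le_iff_ne_zero.2 hsu1.ne_zero
  have hu21 : 1 ≤ u2 := Nat.one_le_iff_ne_zero.2 hsu2.ne_zero
  have hBF1 : (k2 * k3).Coprime F1 := Nat.Coprime.coprime_dvd_right (Dvd.intro _ rfl) hc1
  have hBu1 : (k2 * k3).Coprime u1 := Nat.Coprime.coprime_dvd_right (Dvd.intro_left _ rfl) hc1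
  have hBF2 : (k2 * k3).Coprime F2 := Nat.Coprime.coprime_dvd_right (Dvd.intro _ rfl) hc2
  have hBu2 : (k2 * k3).Coprime u2 := Nat.Coprime.coprime_dvd_right (Dvd.intro_left _ rfl) hc2
  have hNr : (0 : ℝ) < N := by exact_mod_cast hN
  have hk2r : (0 : ℝ) < k2 := by exact_mod_cast hk21
  have hk3r : (0 : ℝ) < k3 := by exact_mod_cast hk31
  have hu1r : (0 : ℝ) < u1 := by exact_mod_cast hu11
  have hu2r : (0 : ℝ) < u2 := by exact_mod_cast hu21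
  have hT1r : (0 : ℝ) < T1 := by exact_mod_cast hT1
  have hT2r : (0 : ℝ) < T2 := by exact_mod_cast hT2
  have he0 : 0 < e := lt_of_lt_of_le (by positivity) he1
  -- sizes
  have hX1 : (k2 : ℝ) * k3 * u1 * u2 ≤ X := by
    refine le_trans ?_ hX
    have e3 : (1 : ℝ) ≤ N := by exact_mod_cast hN
    have e5 : (1 : ℝ) ≤ (N : ℝ) ^ 2 := one_le_pow₀ e3
    calc (k2 : ℝ) * k3 * u1 * u2 = 1 * ((k2 : ℝ) * k3 * u1 * u2 * 1) := by ring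
      _ ≤ 100 * ((k2 : ℝ) * k3 * u1 * u2 * (N : ℝ) ^ 2) := by
        refine mul_le_mul (by norm_num) (mul_le_mul_of_nonneg_left e5 (by positivity)) (by positivity) (by norm_num)
  have hk2X : (k2 : ℝ) ≤ X := by
    refine le_trans ?_ hX1
    have e1 : (1 : ℝ) ≤ (k3 : ℝ) * u1 * u2 := by
      have : 1 ≤ k3 * u1 * u2 := Nat.mul_pos (Nat.mul_pos hk31 hu11) hu21
      exact_mod_cast this
    calc (k2 : ℝ) = k2 * 1 := by ring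
      _ ≤ k2 * ((k3 : ℝ) * u1 * u2) := mul_le_mul_of_nonneg_left e1 hk2r.le
      _ = _ := by ring
  have hlF2 : Int.gcd (l * (F2 : ℤ)) ((k2 * k3 : ℕ) : ℤ) = 1 := by
    have e1 : IsCoprime l ((k2 * k3 : ℕ) : ℤ) := Int.isCoprime_iff_gcd_eq_one.2 hl
    have e2 : IsCoprime (F2 : ℤ) ((k2 * k3 : ℕ) : ℤ) := Nat.isCoprime_iff_coprime.2 hBF2.symm
    exact Int.isCoprime_iff_gcd_eq_one.1 (e1.mul_left e2)
  -- the shifts
  obtain ⟨A0, c0, hA0, hcard, hcls⟩ := hPgn (k2 * k3) T1 T2 (F1 : ℤ) (l * (F2 : ℤ)) hB1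
  have hdif := hDif X T (k2 * k3) k2 T1 T2 (F1 : ℤ) (l * (F2 : ℤ)) c0 A0 hT hk2X hk21 hB1 hT2B hlF2 hA0 hcls
  obtain ⟨f, hf⟩ : ∃ f : ℕ × ℕ → ℕ × ℕ, ∀ b, f b = (F1 * b.1, F2 * b.2) := ⟨fun b => (F1 * b.1, F2 * b.2), fun _ => rfl⟩
  have hfi : Function.Injective f := by
    intro a b h
    rw [hf, hf, Prod.mk.injEq] at h
    exact Prod.ext (Nat.eq_of_mul_eq_mul_left hF11 h.1) (Nat.eq_of_mul_eq_mul_left hF21 h.2)
  have hfN : ∀ b ∈ A0, (f b).1 ≤ N ∧ (f b).2 ≤ N := by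
    intro b hb
    have h1 := mem_product.1 (hA0 hb)
    have h2 := mem_range.1 h1.1
    have h3 := mem_range.1 h1.2
    rw [hf]
    exact ⟨(Nat.mul_le_mul_left _ h2.le).trans hF1N, (Nat.mul_le_mul_left _ h3.le).trans hF2N⟩
  obtain ⟨M, hM⟩ : ∃ M : ℕ → ℕ → Prop, M = fun (m1 m2 : ℕ) =>
      ((k2 * k3 : ℕ) : ℤ) ∣ (1 : ℤ) * (m1 : ℤ) - l * (m2 : ℤ) - (-c0) := ⟨_, rfl⟩
  have hPM : ∀ b ∈ A0, ∀ m1 m2 : ℕ, (((k2 * k3 : ℕ) : ℤ) ∣ ((m1 + (f b).1 : ℕ) : ℤ) -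
      l * ((m2 + (f b).2 : ℕ) : ℤ)) ↔ M m1 m2 := by
    intro b hb m1 m2
    rw [hM, hf]
    have h2 : ((m1 + F1 * b.1 : ℕ) : ℤ) - l * ((m2 + F2 * b.2 : ℕ) : ℤ) =
        (1 * (m1 : ℤ) - l * (m2 : ℤ) - (-c0)) + ((F1 : ℤ) * (b.1 : ℤ) - l * (F2 : ℤ) * (b.2 : ℤ) - c0) := by
      push_cast
      ring
    show ((k2 * k3 : ℕ) : ℤ) ∣ ((m1 + F1 * b.1 : ℕ) : ℤ) - l * ((m2 + F2 * b.2 : ℕ) : ℤ) ↔ _
    rw [h2]
    exact (dvd_add_left (hcls b hb))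
  obtain ⟨K, hK⟩ : ∃ K : ℝ, K = 9 * (N : ℝ) * ((N : ℝ) / ((k2 * k3 : ℕ) : ℝ) + 1) := ⟨_, rfl⟩
  have hKc : (((range (2 * N + 1) ×ˢ range (2 * N + 1)).filter (fun m => M m.1 m.2)).card : ℝ) ≤ K := by
    have h1 := hCnt (k2 * k3) N 1 l (-c0) hB1 hN (by simp)
    rw [hK]
    refine le_trans (le_of_eq ?_) h1
    congr 2
    ext m
    rw [mem_filter, mem_filter, hM]
  obtain ⟨P, hP⟩ : ∃ P : ℕ → ℕ → Prop, P = fun (n1 n2 : ℕ) =>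
      ((k2 * k3 : ℕ) : ℤ) ∣ (n1 : ℤ) - l * (n2 : ℤ) := ⟨_, rfl⟩
  -- the phases
  obtain ⟨c, hc⟩ : ∃ c : ℤ, c = c1 * (iv (F1 * u1) (k2 * k3) : ℤ) := ⟨_, rfl⟩
  obtain ⟨d1, hd1⟩ : ∃ d1 : ℤ, d1 = c1 * (iv (k2 * k3) (F1 * u1) : ℤ) * (iv u1 F1 : ℤ) := ⟨_, rfl⟩
  obtain ⟨a1, ha1⟩ : ∃ a1 : ℤ, a1 = c1 * (iv (k2 * k3) (F1 * u1) : ℤ) * (iv F1 u1 : ℤ) := ⟨_, rfl⟩
  obtain ⟨d2, hd2⟩ : ∃ d2 : ℤ, d2 = c2 * (iv u2 F2 : ℤ) := ⟨_, rfl⟩
  obtain ⟨a2, ha2⟩ : ∃ a2 : ℤ, a2 = c2 * (iv F2 u2 : ℤ) := ⟨_, rfl⟩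
  have hgc : Int.gcd c (k2 : ℤ) = Int.gcd c1 (k2 : ℤ) := by
    rw [hc]
    exact WEw_gcd c1 (F1 * u1) (k2 * k3) k2 hB1 hc1.symm (Dvd.intro _ rfl)
  have hph : ∀ n1 n2 : ℕ, t1g c1 (k2 * k3 * (F1 * u1)) n1 * t1g c2 (F2 * u2) n2 =
      (t1g d1 F1 n1 * t1g d2 F2 n2) * wG (k2 * k3) u1 u2 c a1 a2 n1 n2 := by
    intro n1 n2
    rw [hPha c1 (k2 * k3) (F1 * u1) n1 hB1 (Nat.mul_pos hF11 hu11) hc1,
      hPha _ F1 u1 n1 hF11 hu11 hFu1, hPha c2 F2 u2 n2 hF21 hu21 hFu2, ← hc, ← hd1, ← ha1, ← hd2, ← ha2, wG]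
    ring
  obtain ⟨φ, hφ⟩ : ∃ φ : ℕ → ℕ → ℂ, φ = fun (n1 n2 : ℕ) => t1g d1 F1 n1 * t1g d2 F2 n2 := ⟨_, rfl⟩
  have hφs : ∀ b ∈ A0, ∀ m1 m2 : ℕ, φ (m1 + (f b).1) (m2 + (f b).2) = φ m1 m2 := by
    intro b _ m1 m2
    rw [hφ, hf]
    show t1g d1 F1 (m1 + F1 * b.1) * t1g d2 F2 (m2 + F2 * b.2) = t1g d1 F1 m1 * t1g d2 F2 m2
    rw [mul_comm F1 b.1, mul_comm F2 b.2, t1_g_add_mul, t1_g_add_mul]
  have hφn : ∀ m1 m2, ‖φ m1 m2‖ ≤ 1 := by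
    intro m1 m2
    rw [hφ]
    show ‖t1g d1 F1 m1 * t1g d2 F2 m2‖ ≤ 1
    rw [norm_mul]
    exact mul_le_one₀ (t1_norm_g _ _ _) (norm_nonneg _) (t1_norm_g _ _ _)
  obtain ⟨g, hg⟩ : ∃ g : ℕ → ℕ → ℂ, g = wG (k2 * k3) u1 u2 c a1 a2 := ⟨_, rfl⟩
  obtain ⟨Xf, hXf⟩ : ∃ Xf : ℕ × ℕ → ℕ × ℕ → ℝ, ∀ a a', Xf a a' =
      ‖∑ m1 ∈ range (2 * N + 1), ∑ m2 ∈ range (2 * N + 1), if M m1 m2 then
        vBox N g (m1 + a.1) (m2 + a.2) * (starRingEnd ℂ) (vBox N g (m1 + a'.1) (m2 + a'.2)) else 0‖ :=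
    ⟨_, fun _ _ => rfl⟩
  -- the sum
  obtain ⟨S, hS⟩ : ∃ S : ℂ, S = ∑ n1 ∈ Ioc N (2 * N), ∑ n2 ∈ Ioc N (2 * N),
      if ((k2 * k3 : ℕ) : ℤ) ∣ (n1 : ℤ) - l * n2 then
      t1g c1 (k2 * k3 * (F1 * u1)) n1 * t1g c2 (F2 * u2) n2 else 0 := ⟨_, rfl⟩
  rw [← hS]
  have hSe : S = ∑ n1 ∈ Ioc N (2 * N), ∑ n2 ∈ Ioc N (2 * N), if P n1 n2 then φ n1 n2 * g n1 n2 else 0 := by
    rw [hS, hP, hφ, hg]
    refine sum_congr rfl fun n1 _ => sum_congr rfl fun n2 _ => ?_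
    by_cases h : ((k2 * k3 : ℕ) : ℤ) ∣ (n1 : ℤ) - l * (n2 : ℤ)
    · rw [if_pos h, if_pos h, hph]
    · rw [if_neg h, if_neg h]
  have hv : (A0.card : ℝ) ^ 2 * ‖S‖ ^ 2 ≤ K * ∑ b ∈ A0, ∑ b' ∈ A0, Xf (f b) (f b') := by
    have h := hVdc N 1 (A0.image f) P M φ g K
      (fun a ha => by
        obtain ⟨b, hb, rfl⟩ := mem_image.1 ha
        rw [one_mul, one_mul]
        exact hfN b hb)
      (fun a ha m1 m2 => by
        obtain ⟨b, hb, rfl⟩ := mem_image.1 ha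
        rw [one_mul, one_mul]
        refine ⟨?_, hφs b hb m1 m2⟩
        rw [hP]
        exact hPM b hb m1 m2) hφn hKc
    rw [← hSe, card_image_of_injective _ hfi] at h
    refine h.trans (le_of_eq ?_)
    rw [sum_image (fun _ _ _ _ h => hfi h)]
    congr 1
    refine sum_congr rfl fun b _ => ?_
    rw [sum_image (fun _ _ _ _ h => hfi h)]
    refine sum_congr rfl fun b' _ => ?_
    rw [hXf, one_mul, one_mul, one_mul, one_mul]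
  obtain ⟨L, hL⟩ : ∃ L : ℝ, L = (N : ℝ) * ((N : ℝ) / ((k2 : ℝ) * k3) + 1) := ⟨_, rfl⟩
  have hL0 : 0 ≤ L := by rw [hL]; positivity
  have hKL : K = 9 * L := by
    rw [hK, hL]
    push_cast
    ring
  have hK0 : 0 ≤ K := by rw [hKL]; positivity
  have hGn : ∀ n1 n2, ‖vBox N g n1 n2‖ ≤ 1 := by
    rw [hg]
    exact WEw_norm_vBox N _ (WEw_norm_wG (k2 * k3) u1 u2 c a1 a2)
  obtain ⟨γ, hγ⟩ : ∃ γ : ℝ, γ = (Int.gcd c1 (k2 : ℤ) : ℝ) := ⟨_, rfl⟩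
  have hγ1 : 1 ≤ γ := by
    have : 0 < Int.gcd c1 (k2 : ℤ) := Int.gcd_pos_of_ne_zero_right _ (by omega)
    rw [hγ]
    exact_mod_cast this
  -- n
  have hcardr : (T1 : ℝ) * T2 ≤ (k2 : ℝ) * k3 * (A0.card : ℝ) := by exact_mod_cast hcard
  have hn : (0 : ℝ) < A0.card := by
    have h1 : 0 < (k2 : ℝ) * k3 * (A0.card : ℝ) := lt_of_lt_of_le (by positivity) hcardr
    exact (pos_iff_pos_of_mul_pos h1).1 (by positivity)
  -- the rows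
  have hrow : ∀ b ∈ A0, ∑ b' ∈ A0, Xf (f b) (f b') ≤ 9 * L + C * T ^ A * L *
      (3 * e * (A0.card : ℝ) + (Real.sqrt (γ / k2) * Real.sqrt ((T1 : ℝ) * (A0.card : ℝ))) * T) := by
    intro b hb
    rw [← add_sum_erase _ _ hb]
    have h1 : Xf (f b) (f b) ≤ 9 * L := by
      rw [← hKL, hXf]
      refine le_trans (WEw_diag (2 * N + 1) M _ ?_) hKc
      intro m1 m2
      rw [norm_mul, Complex.norm_conj]
      exact mul_le_one₀ (hGn _ _) (norm_nonneg _) (hGn _ _)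
    have h2 : ∀ b' ∈ A0.erase b, Xf (f b) (f b') ≤ C * T ^ A * L * (3 * e) +
        C * T ^ A * L * Real.sqrt (γ / k2) * Real.sqrt (Int.gcd ((b'.1 : ℤ) - b.1) (k2 : ℤ) : ℝ) := by
      intro b' hb'
      have hb'' := mem_of_mem_erase hb'
      have h3 := hCor X T k2 k3 u1 u2 N l c a1 a2 (f b) (f b') hT hsB hsu1 hsu2 hBu1 hBu2 hl hN hX1
        (hfN b hb).1 (hfN b hb).2 (hfN b' hb'').1 (hfN b' hb'').2
      have h3' : Xf (f b) (f b') = ‖∑ m1 ∈ range (2 * N + 1), ∑ m2 ∈ range (2 * N + 1),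
          if ((k2 * k3 : ℕ) : ℤ) ∣ ((m1 + (f b).1 : ℕ) : ℤ) - l * ((m2 + (f b).2 : ℕ) : ℤ) then
            vBox N (wG (k2 * k3) u1 u2 c a1 a2) (m1 + (f b).1) (m2 + (f b).2) *
            (starRingEnd ℂ) (vBox N (wG (k2 * k3) u1 u2 c a1 a2) (m1 + (f b').1) (m2 + (f b').2)) else 0‖ := by
        rw [hXf, hg]
        congr 1
        refine sum_congr rfl fun m1 _ => sum_congr rfl fun m2 _ => ?_
        by_cases h : M m1 m2
        · rw [if_pos h, if_pos ((hPM b hb m1 m2).2 h)]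
        · rw [if_neg h, if_neg (fun h' => h ((hPM b hb m1 m2).1 h'))]
      have h4 : Real.sqrt ((Int.gcd c (k2 : ℤ) : ℝ) * (Int.gcd (((f b').1 : ℤ) - (f b).1) (k2 : ℤ) : ℝ) * k3 /
          ((k2 : ℝ) * k3)) =
          Real.sqrt (γ / k2) * Real.sqrt (Int.gcd ((b'.1 : ℤ) - b.1) (k2 : ℤ) : ℝ) := by
        have h5 : Int.gcd (((f b').1 : ℤ) - (f b).1) (k2 : ℤ) = Int.gcd ((b'.1 : ℤ) - b.1) (k2 : ℤ) := by
          rw [hf, hf]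
          exact WEw_gcd2 F1 k2 b'.1 b.1
            (Nat.Coprime.coprime_dvd_right (Dvd.intro _ rfl) hBF1.symm)
        rw [hgc, h5, ← hγ, ← Real.sqrt_mul (by positivity)]
        congr 1
        field_simp
      rw [h4, ← h3'] at h3
      refine h3.trans ?_
      refine (WEw_off (L := L) (e := e) hC.le (by positivity) hNr (by positivity) hu1r.le hu2r.le he0.le
        (by positivity) hL he2 he3 he4).trans (le_of_eq ?_)
      ring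
    have h5 := sum_le_sum h2
    rw [sum_add_distrib, sum_const, ← mul_sum, nsmul_eq_mul] at h5
    have h6 : C * T ^ A * L * Real.sqrt (γ / k2) *
        ∑ b' ∈ A0.erase b, Real.sqrt (Int.gcd ((b'.1 : ℤ) - b.1) (k2 : ℤ) : ℝ) ≤
        C * T ^ A * L * Real.sqrt (γ / k2) * (Real.sqrt ((T1 : ℝ) * (A0.card : ℝ)) * T) :=
      mul_le_mul_of_nonneg_left (hdif b hb) (by positivity)
    have h7 : ((A0.erase b).card : ℝ) * (C * T ^ A * L * (3 * e)) ≤ (A0.card : ℝ) * (C * T ^ A * L * (3 * e)) := by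
      refine mul_le_mul_of_nonneg_right ?_ (by positivity)
      exact_mod_cast card_le_card (erase_subset _ _)
    calc _ ≤ 9 * L + ((A0.card : ℝ) * (C * T ^ A * L * (3 * e)) +
          C * T ^ A * L * Real.sqrt (γ / k2) * (Real.sqrt ((T1 : ℝ) * (A0.card : ℝ)) * T)) :=
        add_le_add h1 (h5.trans (add_le_add h7 h6))
      _ = _ := by ring
  have hall := sum_le_card_nsmul _ _ _ hrow
  rw [nsmul_eq_mul] at hall
  have hmain : (A0.card : ℝ) ^ 2 * ‖S‖ ^ 2 ≤ 9 * L * ((A0.card : ℝ) * (9 * L + C * T ^ A * L *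
      (3 * e * (A0.card : ℝ) + (Real.sqrt (γ / k2) * Real.sqrt ((T1 : ℝ) * (A0.card : ℝ))) * T))) := by
    have h := hv.trans (mul_le_mul_of_nonneg_left hall hK0)
    rw [hKL] at h
    exact h
  have hen : 1 ≤ e * (A0.card : ℝ) := by
    have h1 : 1 ≤ (k2 : ℝ) * k3 / ((T1 : ℝ) * T2) * (A0.card : ℝ) := by
      rw [div_mul_eq_mul_div, one_le_div (by positivity)]
      exact hcardr
    exact h1.trans (mul_le_mul_of_nonneg_right he1 hn.le)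
  have hg3 := WEw_g (γ := γ) (by linarith) hk2r hk3r hT1r hT2r hn he0.le hcardr he5
  have hs1 : 1 ≤ Real.sqrt γ := Real.one_le_sqrt.2 hγ1
  have hfin := WEw_num (S := ‖S‖) (Y := T ^ A) hn hL0 he0.le hTt (one_le_pow₀ hTt) hs1 hC.le hmain hen hg3
  obtain ⟨b, hb⟩ : ∃ b : ℝ, b = 1 + (k2 : ℝ) * k3 / N := ⟨_, rfl⟩
  have hb1 : 1 ≤ b := by
    rw [hb]
    have : 0 ≤ (k2 : ℝ) * k3 / N := by positivity
    linarith
  have hLb : L = (N : ℝ) ^ 2 / ((k2 : ℝ) * k3) * b := by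
    rw [hL, hb]
    field_simp
  rw [hLb, ← pow_succ] at hfin
  have hend := WEw_root (by positivity) hb1 (one_le_pow₀ hTt) (by positivity) hC.le hfin
  rw [← hb, ← hγ]
  exact hend

end Pool.Agent.Lib.SL
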